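import Pool.Agent.Lib.MP_c60e08_gt.LmDefs

/-!
# Blueprint of the geometry part of MP_c60e08_gt

Goal: `GeoMainStmt : SmoothStmt → GeoStmt` (see `LmDefs.lean`).

The torus is `F t x = c(t, x 0) * (e^{i x 1}, e^{i x 2}, e^{-i (x 1 + x 2)})` with
`c^3 = Z := 1 - exp (y + i phi)` (`Z = -i w`), where `phi(t,x)` is the normal gauge.

Every `def ...Stmt : Prop` is one module (one task) with its proof in the docstring.
Modules: PartStmt, IntStmt, OdeStmt, OdeDxStmt, GaugeStmt (ordinary differential equations);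
PdStmt, Pd2Stmt, GramStmt, McStmt, NsStmt, SyStmt, LiStmt (geometry of the torus);
RootStmt, SpeedStmt, PolarAlgStmt, GBStmt, CurveStmt (the curve); FinStmt (assembly).
-/

namespace Pool.Agent.Lib.MP_c60e08_gt.Geo

open Real Set Pool.Agent.Lib.MP_c60e08_gt.Lm

open scoped ComplexConjugate

/-! ## ordinary differential equations on a strip -/

/-- joint `C^n` on the strip `(a,b) x R` -/
def CS (n : WithTop ℕ∞) (a b : ℝ) (G : ℝ → ℝ → ℝ) : Prop :=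
  ContDiffOn ℝ n (fun z : ℝ × ℝ => G z.1 z.2) (Ioo a b ×ˢ univ)

/-- PART. If both partial derivatives exist everywhere on the strip and are jointly `C^n`, the
function is jointly `C^{n+1}`.

Proof. The strip is open. At each point `z` of it Mathlib theorem
`hasStrictFDerivAt_uncurry_coprod` (Mathlib/Analysis/Calculus/FDeriv/Partial.lean) gives
`HasStrictFDerivAt (uncurry G) (D z) z` with
`D z = (toSpanSingleton (Gt z)).coprod (toSpanSingleton (Gx z))` (or `smulRight 1`), because both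
partial derivatives are continuous at `z` and exist in a neighbourhood. `z ↦ D z` is `C^n` on the
strip (it is a continuous linear function of `(Gt z, Gx z)`), so
`contDiffOn_succ_iff_hasFDerivWithinAt` / `contDiffOn_succ_iff_fderiv_of_isOpen` finishes. -/
def PartStmt : Prop :=
  ∀ (a b : ℝ) (n : ℕ) (G Gt Gx : ℝ → ℝ → ℝ),
    (∀ t ∈ Ioo a b, ∀ x, HasDerivAt (fun s => G s x) (Gt t x) t) →
    (∀ t ∈ Ioo a b, ∀ x, HasDerivAt (G t) (Gx t x) x) →
    CS n a b Gt → CS n a b Gx → CS (n + 1 : ℕ) a b G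

/-- INT. Integrals in time of `C^n` functions are `C^n`.

Proof. Let `I(t,x) = ∫ s in t0..t, G s x`. Induction on `n` (for all `G`), using `PartStmt`.
`n = 0`: continuity of `I` at `(t1,x1)` in the strip: take `α < min t0 t1`, `max t0 t1 < β` with
`[α,β] ⊂ (a,b)`; `G` is bounded by some `M` on the compact `[α,β] × [x1-1,x1+1]` and uniformly
continuous there; `|I(t,x) - I(t1,x1)| ≤ |∫_{t1}^{t} G(s,x) ds| + |∫_{t0}^{t1} (G(s,x)-G(s,x1)) ds|
≤ M |t - t1| + |t1 - t0| sup_s |G(s,x)-G(s,x1)|`.  (Alternatively: extend `G` from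
`[α,β] × [x1-1,x1+1]` by composing with `projIcc`; the extension is continuous on the plane and
`intervalIntegral.continuous_parametric_intervalIntegral_of_continuous` applies; near `(t1,x1)`
the two integrals agree.)
`n + 1`: `I_t = G` (fundamental theorem of calculus, `G` continuous), which is `C^{n+1}` hence
`C^n`; `I_x = ∫ s in t0..t, Gx s x` with `Gx = deriv (G s) x`, which is `C^n` jointly
(`Gx(z) = fderiv (uncurry G) z (0,1)`): differentiation under the integral sign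
(`intervalIntegral.hasDerivAt_integral_of_dominated_loc_of_deriv_le` with a bound of `|Gx|` on a
compact neighbourhood); by the induction hypothesis `∫ Gx` is `C^n`. Now `PartStmt`. -/
def IntStmt : Prop :=
  ∀ (a b t0 : ℝ), t0 ∈ Ioo a b → ∀ (n : ℕ) (G : ℝ → ℝ → ℝ), CS n a b G →
    CS n a b (fun t x => ∫ s in t0..t, G s x)

/-- ODE. Global flow of a periodic `C^1` field on the strip, continuous dependence.

Proof. For `[α,β] ⊂ (a,b)` with `t0 ∈ [α,β]` the function `B` is bounded by some `M` on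
`[α,β] × R` (compactness of `[α,β] × [0,2π]` and periodicity) and `B t` is `L`-Lipschitz on `R`
for every `t ∈ [α,β]` (bound of the partial derivative on `[α,β] × [0,2π]`, periodicity of the
derivative, mean value inequality). Picard-Lindelof (`IsPicardLindelof`, ball radius
`M (β - α) + 1`, `Mathlib/Analysis/ODE/ExistUnique.lean`) gives a solution on `[α,β]` with value
`x` at `t0`; it is unique (`ODE_solution_unique_of_mem_Icc` or Gronwall with constant `L`). Glue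
the solutions for all `[α,β]` (e.g. put `φ t x` = value at `t` of the solution on
`[(min t t0 + a)/2, (max t t0 + b)/2]`; uniqueness shows that it coincides on every `[α,β]` with
the solution there). Continuity: for `t,t' ∈ [α,β]`
`|φ t x - φ t' x'| ≤ M |t - t'| + exp (L (β-α)) |x - x'|` (Gronwall,
`dist_le_of_trajectories_ODE`, forwards and backwards in time). The quasi-periodicity
`φ t (x+2π) = φ t x + 2π` is uniqueness: `φ t x + 2π` is a solution with value `x + 2π` at `t0`. -/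
def OdeStmt : Prop :=
  ∀ (a b t0 : ℝ) (B : ℝ → ℝ → ℝ), t0 ∈ Ioo a b → CS 1 a b B →
    (∀ t ∈ Ioo a b, ∀ x, B t (x + 2 * π) = B t x) →
    ∃ φ : ℝ → ℝ → ℝ, (∀ x, φ t0 x = x) ∧
      (∀ t ∈ Ioo a b, ∀ x, HasDerivAt (fun s => φ s x) (B t (φ t x)) t) ∧
      ContinuousOn (fun z : ℝ × ℝ => φ z.1 z.2) (Ioo a b ×ˢ univ) ∧
      (∀ t ∈ Ioo a b, ∀ x, φ t (x + 2 * π) = φ t x + 2 * π)

/-- ODEDX. The derivative of the flow with respect to the initial value.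

Proof. Fix `t ∈ (a,b)` and `x`. For real `h` put
`m(h,s) = ∫ σ in 0..1, Bx s (φ s x + σ (φ s (x+h) - φ s x))`; the integrand is continuous in
`(h,s,σ)` for `s ∈ (a,b)`, so `m` is continuous in `(h,s)`, `s` in the compact interval between
`t0` and `t`. By the mean value formula `B s q' - B s q = (q'-q) ∫_0^1 Bx s (q+σ(q'-q)) dσ`, the
difference `Δ(s) = φ s (x+h) - φ s x` satisfies `Δ' = m(h,s) Δ`, `Δ(t0) = h`, so
`Δ(t) = h exp (∫ s in t0..t, m(h,s))` (the derivative of `Δ(s) exp (-∫_{t0}^s m)` is zero). Hence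
`(φ t (x+h) - φ t x)/h = exp (∫ s in t0..t, m(h,s)) → exp (∫ s in t0..t, m(0,s))
= exp (∫ s in t0..t, Bx s (φ s x))` as `h → 0`, by continuity of the parametric integral. -/
def OdeDxStmt : Prop :=
  ∀ (a b t0 : ℝ) (B Bx φ : ℝ → ℝ → ℝ), t0 ∈ Ioo a b →
    (∀ t ∈ Ioo a b, ∀ x, HasDerivAt (B t) (Bx t x) x) →
    ContinuousOn (fun z : ℝ × ℝ => Bx z.1 z.2) (Ioo a b ×ˢ univ) →
    (∀ x, φ t0 x = x) →
    (∀ t ∈ Ioo a b, ∀ x, HasDerivAt (fun s => φ s x) (B t (φ t x)) t) →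
    ContinuousOn (fun z : ℝ × ℝ => φ z.1 z.2) (Ioo a b ×ˢ univ) →
    ∀ t ∈ Ioo a b, ∀ x, HasDerivAt (φ t) (exp (∫ s in t0..t, Bx s (φ s x))) x

/-- GAUGE. Smooth global flow of a smooth periodic field on the strip.

Proof from `PartStmt`, `IntStmt`, `OdeStmt`, `OdeDxStmt` (the task is
`theorem gauge : PartStmt → IntStmt → OdeStmt → OdeDxStmt → GaugeStmt`).
Let `Bx t x = deriv (B t) x`, which is smooth on the strip (`= fderiv (uncurry B) (t,x) (0,1)`).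
`OdeStmt` gives `φ`, `OdeDxStmt` gives `φ_x = exp (∫_{t0}^t Bx s (φ s x) ds) > 0`. By induction
`φ` is `C^n` for every `n : ℕ`: `n = 0` is the continuity; if `φ` is `C^n` then
`φ_t = B t (φ t x)` is `C^n` (composition) and `φ_x` is `C^n` by `IntStmt` applied to
`Bx s (φ s x)` and composition with `exp`; so `φ` is `C^{n+1}` by `PartStmt`. Finally
`contDiffOn_infty` (all `n : ℕ`). -/
def GaugeStmt : Prop :=
  ∀ (a b t0 : ℝ) (B : ℝ → ℝ → ℝ), t0 ∈ Ioo a b → CS (⊤ : ℕ∞) a b B →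
    (∀ t ∈ Ioo a b, ∀ x, B t (x + 2 * π) = B t x) →
    ∃ φ : ℝ → ℝ → ℝ, CS (⊤ : ℕ∞) a b φ ∧
      (∀ t ∈ Ioo a b, ∀ x, HasDerivAt (fun s => φ s x) (B t (φ t x)) t) ∧
      (∀ t ∈ Ioo a b, ∀ x, φ t (x + 2 * π) = φ t x + 2 * π) ∧
      (∀ t ∈ Ioo a b, ∀ x, 0 < deriv (φ t) x)

/-! ## the torus over a plane curve -/

/-- `(e^{i x 1}, e^{i x 2}, e^{-i (x 1 + x 2)})` -/
noncomputable def tU (x : Fin 3 → ℝ) : Fin 3 → ℂ :=
  ![Complex.exp (x 1 * Complex.I), Complex.exp (x 2 * Complex.I),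
    Complex.exp (-(x 1 + x 2) * Complex.I)]

/-- the torus over the curve `c` -/
noncomputable def tor (c : ℝ → ℂ) (x : Fin 3 → ℝ) : Fin 3 → ℂ := fun j => c (x 0) * tU x j

/-- first derivatives of the torus; `c, c1` are the values of the curve and its derivative -/
noncomputable def tP (u : Fin 3 → ℂ) (c c1 : ℂ) : Fin 3 → Fin 3 → ℂ :=
  ![![c1 * u 0, c1 * u 1, c1 * u 2],
    ![Complex.I * c * u 0, 0, -(Complex.I * c * u 2)],
    ![0, Complex.I * c * u 1, -(Complex.I * c * u 2)]]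

/-- second derivatives of the torus -/
noncomputable def tQ (u : Fin 3 → ℂ) (c c1 c2 : ℂ) : Fin 3 → Fin 3 → Fin 3 → ℂ :=
  ![![![c2 * u 0, c2 * u 1, c2 * u 2],
      ![Complex.I * c1 * u 0, 0, -(Complex.I * c1 * u 2)],
      ![0, Complex.I * c1 * u 1, -(Complex.I * c1 * u 2)]],
    ![![Complex.I * c1 * u 0, 0, -(Complex.I * c1 * u 2)],
      ![-(c * u 0), 0, -(c * u 2)],
      ![0, 0, -(c * u 2)]],
    ![![0, Complex.I * c1 * u 1, -(Complex.I * c1 * u 2)],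
      ![0, 0, -(c * u 2)],
      ![0, -(c * u 1), -(c * u 2)]]]

/-- PD. First derivatives of the torus.

Proof. `tor c` is differentiable with derivative computed componentwise (`hasFDerivAt_pi`); the
component `j` is `c (x 0) * exp (L_j x * I)` with `L_j` a linear form. `pd G i x = fderiv G x
(Pi.single i 1)` is the derivative at `0` of `s ↦ G (x + s • Pi.single i 1)`; or compute the
`fderiv` by `HasFDerivAt` and evaluate at `Pi.single i 1`, case by case. -/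
def PdStmt : Prop :=
  ∀ (c c1 : ℝ → ℂ), (∀ s, HasDerivAt c (c1 s) s) →
    ∀ (x : Fin 3 → ℝ) (i : Fin 3), pd (tor c) i x = tP (tU x) (c (x 0)) (c1 (x 0)) i

/-- PD2. Second derivatives of the torus.

Proof. By `PdStmt` the function `pd (tor c) j` is (funext) the explicit
`x ↦ tP (tU x) (c (x 0)) (c1 (x 0)) j`; differentiate it as in `PdStmt` (nine cases). The task is
`theorem pd2 : PdStmt → Pd2Stmt` (or without the hypothesis). -/
def Pd2Stmt : Prop :=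
  ∀ (c c1 c2 : ℝ → ℂ), (∀ s, HasDerivAt c (c1 s) s) → (∀ s, HasDerivAt c1 (c2 s) s) →
    ∀ (x : Fin 3 → ℝ) (i j : Fin 3),
      pd (pd (tor c) j) i x = tQ (tU x) (c (x 0)) (c1 (x 0)) (c2 (x 0)) i j

/-- Gram matrix of three vectors -/
noncomputable def gramV (P : Fin 3 → Fin 3 → ℂ) : Matrix (Fin 3) (Fin 3) ℝ :=
  Matrix.of fun i j => ip (P i) (P j)

/-- normal parts -/
noncomputable def secV (P : Fin 3 → Fin 3 → ℂ) (Q : Fin 3 → Fin 3 → Fin 3 → ℂ) (i j : Fin 3) :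
    Fin 3 → ℂ :=
  Q i j - ∑ k, ∑ l, ((gramV P)⁻¹ k l * ip (Q i j) (P k)) • P l

/-- mean curvature vector -/
noncomputable def mcV (P : Fin 3 → Fin 3 → ℂ) (Q : Fin 3 → Fin 3 → Fin 3 → ℂ) : Fin 3 → ℂ :=
  ∑ i, ∑ j, (gramV P)⁻¹ i j • secV P Q i j

/-- squared norm of the second fundamental form -/
noncomputable def nsV (P : Fin 3 → Fin 3 → ℂ) (Q : Fin 3 → Fin 3 → Fin 3 → ℂ) : ℝ :=
  ∑ i, ∑ j, ∑ k, ∑ l, (gramV P)⁻¹ i k * (gramV P)⁻¹ j l * ip (secV P Q i j) (secV P Q k l)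

/-- the inverse of the induced metric -/
noncomputable def gInv (c c1 : ℂ) : Matrix (Fin 3) (Fin 3) ℝ :=
  !![1 / (3 * Complex.normSq c1), 0, 0;
    0, 2 / (3 * Complex.normSq c), -1 / (3 * Complex.normSq c);
    0, -1 / (3 * Complex.normSq c), 2 / (3 * Complex.normSq c)]

/-- GRAM. The induced metric and its inverse (`u_j` are unit complex numbers).

Proof. `ip (P 0) (P 0) = 3 |c1|^2`, `ip (P 0) (P 1) = Re (c1 conj (i c)) (1 + 0 - 1) = 0`, same for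
`P 2`; `ip (P 1) (P 1) = 2 |c|^2 = ip (P 2) (P 2)`, `ip (P 1) (P 2) = |c|^2`. Then
`Matrix.inv_eq_right_inv` with the explicit product. -/
def GramStmt : Prop :=
  ∀ (u : Fin 3 → ℂ) (c c1 : ℂ), (∀ j, Complex.normSq (u j) = 1) → c ≠ 0 → c1 ≠ 0 →
    (gramV (tP u c c1))⁻¹ = gInv c c1

/-- the velocity of the curve `c` -/
noncomputable def spd (c c1 c2 : ℂ) : ℂ :=
  Complex.I * c1 * (((c2 * conj c1).im / (3 * Complex.normSq c1) -
    2 / 3 * (c * conj c1).im / Complex.normSq c) / Complex.normSq c1 : ℝ)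

/-- MC. The mean curvature vector of the torus.

Proof. Use `GramStmt`. With `V1 = (u0,0,-u2)`, `V2 = (0,u1,-u2)`, `W1 = (u0,0,u2)`,
`W2 = (0,u1,u2)`, `W3 = (0,0,u2)`, `U = (u0,u1,u2)` one has
`A_00 = i c1 Im(c2 conj c1)/|c1|^2 U`,
`A_11 = -c W1 + (2/3) Re(c conj c1)/|c1|^2 c1 U`, `A_12 = -c W3 + (1/3) Re(c conj c1)/|c1|^2 c1 U`,
`A_22 = -c W2 + (2/3) Re(c conj c1)/|c1|^2 c1 U`; the trace is
`A_00/(3|c1|^2) + (2 A_11 - 2 A_12 + 2 A_22)/(3|c|^2)` and `W1 + W2 - W3 = U`,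
`-2 c + 2 Re(c conj c1) c1/|c1|^2 = -2 i Im(c conj c1) c1/|c1|^2`. (The off-diagonal terms `A_0j`
do not enter since `g^{0j} = 0`.) -/
def McStmt : Prop :=
  ∀ (u : Fin 3 → ℂ) (c c1 c2 : ℂ), (∀ j, Complex.normSq (u j) = 1) → c ≠ 0 → c1 ≠ 0 →
    mcV (tP u c c1) (tQ u c c1 c2) = fun j => spd c c1 c2 * u j

/-- NS. Lower bound of `|A|^2` at points where `c` and `c1` are orthogonal.

Proof. `|A|^2 = (g^00)^2 |A_00|^2 + 2 g^00 sum_{j,l in {1,2}} g^{jl} <A_0j, A_0l>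
+ sum_{i,j,k,l in {1,2}} g^{ik} g^{jl} <A_ij,A_kl>`. Here `A_00 = i c1 Im(c2 conj c1)/|c1|^2 U`,
`A_0j = -mu c V_j` with `mu = Im(c1 conj c)/|c|^2` (tangential part of `i c1 V_j` is
`Re(c1 conj c)/|c|^2 i c V_j`, zero under the hypothesis), so the first two terms are
`3 (g^00)^2 Im(c2 conj c1)^2/|c1|^2 ≥ 0` and `2 g^00 * mu^2 * 2 ≥ 0`
(`sum g^{jl} <V_j,V_l> = 2/|c|^2`). By the hypothesis `Re(c conj c1) = 0` we have
`A_11 = -c W1`, `A_12 = -c W3`, `A_22 = -c W2`, with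
`<W1,W1> = <W2,W2> = 2`, all other products of `W1,W2,W3` equal to `1`; the last sum is
`|c|^2/(9|c|^4) * (8+4+4+8-4-4-8+4) = 12/(9|c|^2) = 4/(3|c|^2)`. -/
def NsStmt : Prop :=
  ∀ (u : Fin 3 → ℂ) (c c1 c2 : ℂ), (∀ j, Complex.normSq (u j) = 1) → c ≠ 0 → c1 ≠ 0 →
    (c * conj c1).re = 0 →
    4 / (3 * Complex.normSq c) ≤ nsV (tP u c c1) (tQ u c c1 c2)

/-- SY. The torus is Lagrangian.

Proof. `symp (P i) (P j) = Re sum_k i P_i(k) conj (P_j(k))`; `symp (P 0) (P 1) = Re (i c1 conj(i c))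
(1 - 1) = 0`, `symp (P 1) (P 2) = Re (i |c|^2) = 0`, `symp (P i) (P i) = Re (i |P_i|^2) = 0`. -/
def SyStmt : Prop :=
  ∀ (u : Fin 3 → ℂ) (c c1 : ℂ), (∀ j, Complex.normSq (u j) = 1) →
    ∀ i j, symp (tP u c c1 i) (tP u c c1 j) = 0

/-- LI. The torus is immersed.

Proof. If `a0 P0 + a1 P1 + a2 P2 = 0` (real coefficients) then, dividing the components by the
`u_j`, `a0 c1 + i a1 c = 0`, `a0 c1 + i a2 c = 0`, `a0 c1 - i (a1 + a2) c = 0`; so
`a1 = a2 = -(a1+a2)` (as `c ≠ 0`), hence `a1 = a2 = 0` and `a0 = 0`. -/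
def LiStmt : Prop :=
  ∀ (u : Fin 3 → ℂ) (c c1 : ℂ), (∀ j, Complex.normSq (u j) = 1) → c ≠ 0 → c1 ≠ 0 →
    LinearIndependent ℝ (fun i => tP u c c1 i)

/-! ## the curve -/

/-- `1 - exp (A + i Phi)` -/
noncomputable def zZ (A Φ : ℝ) : ℂ := 1 - Complex.exp (A + Φ * Complex.I)

/-- ROOT. Smooth cube root of `1 - exp (A + i Phi)`.

Proof. `zZ A Φ = (1 - e^A cos Φ) - i e^A sin Φ` lies in `Complex.slitPlane` by the hypothesis
(`0 < re` or `im ≠ 0`). Take `c t x = exp (log (zZ ..) / 3)`: `Complex.contDiffAt_log`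
(restrict scalars to the reals) composed with the smooth map `zZ`; `c^3 = exp (log Z) = Z` since
`Z ≠ 0` on the slit plane. It depends only on the value of `zZ`. -/
def RootStmt : Prop :=
  ∀ (a b : ℝ) (A Φ : ℝ → ℝ → ℝ), CS (⊤ : ℕ∞) a b A → CS (⊤ : ℕ∞) a b Φ →
    (∀ t ∈ Ioo a b, ∀ x, sin (Φ t x) = 0 → exp (A t x) * cos (Φ t x) < 1) →
    ∃ R : ℂ → ℂ, (∀ t ∈ Ioo a b, ∀ x, R (zZ (A t x) (Φ t x)) ^ 3 = zZ (A t x) (Φ t x)) ∧
      (∀ t ∈ Ioo a b, ∀ x, zZ (A t x) (Φ t x) ≠ 0) ∧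
      ContDiffOn ℝ (⊤ : ℕ∞) (fun z : ℝ × ℝ => R (zZ (A z.1 z.2) (Φ z.1 z.2)))
        (Ioo a b ×ˢ univ)

/-- SPEED. From the equation of `Z` to the equation of its cube root (algebra).

Proof. `|Z|^2 = |c|^6`, so `fS (|Z|^2) = 3 |c|^4` (`Real.rpow` computation). From `3 c^2 c1 = Z1`
and `6 c c1^2 + 3 c^2 c2 = Z2`: `Z2/Z1 = c2/c1 + 2 c1/c`, so
`Im (Z2/Z1) = Im(c2 conj c1)/|c1|^2 - 2 Im(c conj c1)/|c|^2 = 3 eta`, where
`eta = Im(c2 conj c1)/(3|c1|^2) - (2/3) Im(c conj c1)/|c|^2`. `|Z1|^2 = 9 |c|^4 |c1|^2`. Hence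
`3 c^2 ct = 3 |c|^4 i (3 c^2 c1) (3 eta)/(9 |c|^4 |c1|^2) = 3 c^2 i c1 eta/|c1|^2`. Divide by
`3 c^2`. For the norm: `|spd|^2 = |Zt|^2/(9|c|^4)`, so `3 |spd|^2 fS = |Zt|^2`. -/
def SpeedStmt : Prop :=
  ∀ (c c1 c2 ct Z Z1 Z2 Zt : ℂ), c ≠ 0 → c1 ≠ 0 → c ^ 3 = Z → 3 * c ^ 2 * c1 = Z1 →
    6 * c * c1 ^ 2 + 3 * c ^ 2 * c2 = Z2 → 3 * c ^ 2 * ct = Zt →
    Zt = (fS (Complex.normSq Z) : ℂ) * Complex.I * Z1 *
      ((Z2 / Z1).im / Complex.normSq Z1 : ℝ) →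
    ct = spd c c1 c2 ∧ 3 * Complex.normSq ct * fS (Complex.normSq Z) = Complex.normSq Zt ∧
      Complex.normSq c ^ 3 = Complex.normSq Z

/-- the field of the normal gauge: `-(lam/g) = - y_t y_p / (1 + y_p^2)` -/
noncomputable def gB (y : ℕ → ℝ → ℝ → ℝ) (t p : ℝ) : ℝ :=
  fS (uu p (y 0 t p)) * exp (-(2 * y 0 t p)) * (1 - y 2 t p / (1 + (y 1 t p) ^ 2)) *
    (y 1 t p / (1 + (y 1 t p) ^ 2))

/-- POLARALG. The curve `Z = 1 - exp (y + i phi)` in the normal gauge moves by its speed (algebra).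

Here `a, a1, a2, at'` are the values of `y, y_p, y_pp, y_t` at `(t, phi)`, and `q, q1, q2, qt` the
values of `phi, phi_x, phi_xx, phi_t`. Proof. `normSq Z = uu q a`. With `E = exp (a + i q)`:
`at' + (a1 + i) qt = at' (1 - a1 (a1+i)/(1+a1^2)) = at' (1 - i a1)/(1+a1^2) = - i (a1+i) at'/(1+a1^2)`,
so `Zt = i E (a1+i) at'/(1+a1^2)`. `Z2/Z1 = (a1+i) q1 + a2 q1/(a1+i) + q2/q1` has imaginary part
`q1 (1 - a2/(1+a1^2))`, `|Z1|^2 = e^{2a} (1+a1^2) q1^2`. Both sides of the equation are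
`i E (a1+i) at'/(1+a1^2)` with `at' = fS e^{-2a} (a2/(1+a1^2) - 1)`. Finally
`|Zt|^2 = e^{2a} at'^2/(1+a1^2)`, which is `(fS (1 - a2/(1+a1^2)))^2/(e^{2a}(1+a1^2))`. If
`q = 0` (or any multiple of `2π`) and `a1 = 0` then `Z = 1 - e^a` is real and `Z1 = -e^a i q1` is
imaginary, so `Re (Z conj Z1) = 0`. -/
def PolarAlgStmt : Prop :=
  ∀ (a a1 a2 at' q q1 q2 qt : ℝ), q1 ≠ 0 → 0 < uu q a →
    at' = fS (uu q a) * exp (-(2 * a)) * (a2 / (1 + a1 ^ 2) - 1) →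
    qt = -(at' * (a1 / (1 + a1 ^ 2))) →
    ∀ (E Z Z1 Z2 Zt : ℂ), E = Complex.exp (a + q * Complex.I) → Z = 1 - E →
      Z1 = -(E * ((a1 + Complex.I) * q1)) →
      Z2 = -(E * ((a1 + Complex.I) ^ 2 * q1 ^ 2 + a2 * q1 ^ 2 + (a1 + Complex.I) * q2)) →
      Zt = -(E * (at' + (a1 + Complex.I) * qt)) →
      Complex.normSq Z = uu q a ∧ Z1 ≠ 0 ∧
      Zt = (fS (Complex.normSq Z) : ℂ) * Complex.I * Z1 *
        ((Z2 / Z1).im / Complex.normSq Z1 : ℝ) ∧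
      Complex.normSq Zt =
        (fS (uu q a) * (1 - a2 / (1 + a1 ^ 2)) / (exp a * √(1 + a1 ^ 2))) ^ 2 ∧
      (q = 0 → a1 = 0 → (Z * conj Z1).re = 0)

/-- GB. The gauge field is smooth and periodic on the strip.

Proof. `y m` is smooth on the open strip `(0,T) x R` for all `m` by induction:
`y (m+1) t p = deriv (y m t) p = fderiv (uncurry (y m)) (t,p) (0,1)`, and `fderiv` of a smooth
function on an open set is smooth. `uu > 0` there, so `fS (uu ..) = 3 uu^(2/3)` is smooth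
(`ContDiffAt.rpow_const_of_ne`), `1 + y_p^2 ≠ 0`. Periodicity: `y 0` is periodic, hence so are
`y 1`, `y 2` (uniqueness of derivatives), `cos` too. -/
def GBStmt : Prop :=
  ∀ (T : ℝ) (y : ℕ → ℝ → ℝ → ℝ), 0 < T → PolarSol T y → CS (⊤ : ℕ∞) 0 T (y 0) →
    (∀ m, CS (⊤ : ℕ∞) 0 T (y m)) ∧ CS (⊤ : ℕ∞) 0 T (gB y) ∧
    (∀ m, ∀ t ∈ Ico 0 T, ∀ p, y m t (p + 2 * π) = y m t p) ∧
    (∀ t ∈ Ioo 0 T, ∀ p, gB y t (p + 2 * π) = gB y t p)

/-- CURVE. The curve `c` in normal gauge.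

Proof from `RootStmt`, `SpeedStmt`, `PolarAlgStmt`, `GBStmt`.
Put `A t x = y 0 t (φ t x)`, `Z t x = zZ (A t x) (φ t x)`, `c = R (Z)` from `RootStmt`; the
hypothesis of `RootStmt`: `sin q = 0` means `q = k π`; if `k` is even, `cos q = 1` and
`y 0 t q = y 0 t 0 < 0` by periodicity; if `k` is odd, `cos q = -1`. `c t (x+2π) = c t x` because
`A` and `exp (i φ)` are periodic in `x`. `c1 t x = deriv (c t) x`, `c2 t x = deriv (c1 t) x` (all
functions smooth on the open strip). Chain rule: `A_t = y_t + y_p φ_t` (joint differentiability of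
`y 0`), `A_x = y_p φ_x`, so with `a = y 0 t q`, `a1 = y 1 t q`, `a2 = y 2 t q`, `q = φ t x`,
`q1 = φ_x`, `q2 = φ_xx`, `qt = gB y t q`, the derivatives `Z_x, Z_xx, Z_t` are the `Z1, Z2, Zt` of
`PolarAlgStmt`. Differentiating `c^3 = Z`: `3 c^2 c1 = Z1`, `6 c c1^2 + 3 c^2 c2 = Z2`,
`3 c^2 c_t = Zt`; `c ≠ 0` as `Z ≠ 0`, `c1 ≠ 0` as `Z1 ≠ 0`. Apply `SpeedStmt`. The last claim: if
`φ t x = 0` then `a1 = y 1 t 0 = 0` (evenness of `y 0 t`), so `Re (Z conj Z1) = 0`, and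
`Z conj Z1 = c^3 conj (3 c^2 c1) = 3 |c|^4 c conj c1`. -/
def CurveStmt : Prop :=
  ∀ (T : ℝ) (y : ℕ → ℝ → ℝ → ℝ) (φ : ℝ → ℝ → ℝ), 0 < T → PolarSol T y →
    (∀ t ∈ Ico 0 T, y 0 t 0 < 0) → CS (⊤ : ℕ∞) 0 T (y 0) → CS (⊤ : ℕ∞) 0 T φ →
    (∀ t ∈ Ioo 0 T, ∀ x, HasDerivAt (fun s => φ s x) (gB y t (φ t x)) t) →
    (∀ t ∈ Ioo 0 T, ∀ x, φ t (x + 2 * π) = φ t x + 2 * π) →
    (∀ t ∈ Ioo 0 T, ∀ x, 0 < deriv (φ t) x) →
    ∃ c c1 c2 : ℝ → ℝ → ℂ,
      ContDiffOn ℝ (⊤ : ℕ∞) (fun z : ℝ × ℝ => c z.1 z.2) (Ioo 0 T ×ˢ univ) ∧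
      ∀ t ∈ Ioo 0 T, ∀ x, c t (x + 2 * π) = c t x ∧ c t x ≠ 0 ∧ c1 t x ≠ 0 ∧
        HasDerivAt (c t) (c1 t x) x ∧ HasDerivAt (c1 t) (c2 t x) x ∧
        HasDerivAt (fun s => c s x) (spd (c t x) (c1 t x) (c2 t x)) t ∧
        3 * Complex.normSq (spd (c t x) (c1 t x) (c2 t x)) *
          fS (uu (φ t x) (y 0 t (φ t x))) = pv y t (φ t x) ^ 2 ∧
        Complex.normSq (c t x) ^ 3 = uu (φ t x) (y 0 t (φ t x)) ∧
        (φ t x = 0 → (c t x * conj (c1 t x)).re = 0)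

/-- FIN. The geometry part. The task is
`theorem fin : GaugeStmt → GBStmt → CurveStmt → PdStmt → Pd2Stmt → McStmt → NsStmt → SyStmt →
LiStmt → FinStmt`.

Proof. Given `SmoothStmt` and the data of `GeoStmt`, `y 0` is smooth on the strip. `GBStmt` and
`GaugeStmt` (with `a = 0`, `b = T`, `t0 = T/2`, `B = gB y`) give `φ`; `CurveStmt` gives
`c, c1, c2`. Put `T' = T/2`, `η = T/2`, `F s x = tor (c (T/2 + s)) x`. Smoothness of `F`:
composition of the smooth `c` with `(s,x) ↦ (T/2+s, x 0)` and exponentials. Periodicity: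
`x + Pi.single i (2π)`: `c` is `2π` periodic, `exp (i ·)` too. `PdStmt`, `LiStmt`, `SyStmt` with
`u = tU x` (unit complex numbers) give immersion and Lagrangian. `gram (tor c) x = gramV ..`,
`secFF = secV`, `meanCurv = mcV`, `normSqA = nsV` after rewriting `pd` and `pd (pd ..)` by
`PdStmt`, `Pd2Stmt` (definitional unfolding). `HasDerivAt (fun s => F s x) (spd .. * u j) t`
(`hasDerivAt_pi`, chain rule for the shift) equals `meanCurv` by `McStmt`. Mean curvature bound: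
`ip H H = 3 |spd|^2`, times `fS (uu) > 0` equals `pv^2 ≤ K fS` at all `p`: the hypothesis is for
`p ∈ [0,π]`, and `pv y t` and `uu p (y 0 t p)` are even (`y 0` even, `y 1` odd, `y 2` even) and
`2π`-periodic; so `ip H H ≤ K`. Type II: `φ t` is continuous and `φ t (x + 2π k) = φ t x + 2π k`,
so there is `x*` with `φ t x* = 0` (intermediate value theorem). There
`|c|^6 = uu 0 (y 0 t 0) = (1 - e^{y 0 t 0})^2 ≤ (K (T-t))^6`, with `0 < 1 - e^{y 0 t 0}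
≤ (K(T-t))^3` so `K (T-t) > 0` and `|c|^2 ≤ (K(T-t))^2`. By `NsStmt`
`normSqA * (T-t) ≥ 4/(3 K^2 (T-t))`, which exceeds any `C` when `T - t` is small. -/
def FinStmt : Prop := SmoothStmt → GeoStmt

end Pool.Agent.Lib.MP_c60e08_gt.Geo
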