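import Pool.Agent.Lib.MP_c60e08_gt.InitSpec

/-!
MP_c60e08_gt, INIT part: basic facts on the curve (`BasicStmt`).
-/

set_option autoImplicit false

namespace Pool.Agent.Lib.MP_c60e08_gt.Ini

open Real Set Pool.Agent.Lib.MP_c60e08_gt.Lm

namespace Basic

theorem rpow_sixth {U : ℝ} (hU : 0 < U) (n : ℕ) :
    (U ^ ((1 : ℝ) / 6)) ^ n = U ^ ((n : ℝ) / 6) := by
  rw [← Real.rpow_natCast, ← Real.rpow_mul hU.le]
  congr 1
  ring

end Basic

open Basic in
theorem stmtBasic : BasicStmt := by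
  intro a b h hp hc p
  have hU := hc.upos p
  have hb := hp.bpos
  have hb6 := hp.ble
  have ha : 0 < a := lt_of_lt_of_le (by positivity) hp.alo
  have hb3 : b ^ 3 ≤ (1 / 10 ^ 6) ^ 3 := pow_le_pow_left₀ hb.le hb6 3
  have ha2 : a ≤ 1 / 10 ^ 10 := by
    have := hp.ahi
    norm_num at hb3 ⊢
    linarith
  have ht : 0 < tt h p := Real.rpow_pos_of_pos hU _
  have h6 : tt h p ^ 6 = uu p (h p) := by
    unfold tt
    rw [rpow_sixth hU]
    norm_num
  have h3 : √(uu p (h p)) = tt h p ^ 3 := by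
    rw [← h6, show tt h p ^ 6 = (tt h p ^ 3) ^ 2 by ring, Real.sqrt_sq (by positivity)]
  have h2 : (uu p (h p)) ^ ((1 : ℝ) / 3) = tt h p ^ 2 := by
    unfold tt
    rw [rpow_sixth hU]
    norm_num
  have h4 : fS (uu p (h p)) = 3 * tt h p ^ 4 := by
    unfold tt fS
    rw [rpow_sixth hU]
    norm_num
  have hE := hc.eq p
  have h6' := h6
  have hee : exp (h p) * exp (h p) = exp (2 * h p) := by
    rw [← Real.exp_add]; ring_nf
  set t := tt h p with ht_def
  have ht3 : t ^ 3 ≠ 0 := by positivity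
  have hF : t ^ 3 * iF (a / t ^ 3) b t = a - b * t ^ 3 + t ^ 5 / 10 + t ^ 6 / 2 := by
    unfold iF
    field_simp
  have hY : 1 - exp (h p) * cos p = t ^ 3 * iF (a / t ^ 3) b t := by
    rw [hF]
    unfold uu at h6
    linarith
  have hX : exp (h p) * sin p = t ^ 3 * xx h p := by
    unfold xx
    rw [← ht_def]
    field_simp
  have hsq : xx h p ^ 2 + iF (a / t ^ 3) b t ^ 2 = 1 := by
    have e1 : (t ^ 3 * xx h p) ^ 2 + (t ^ 3 * iF (a / t ^ 3) b t) ^ 2 = t ^ 6 := by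
      rw [← hX, ← hY, h6]
      unfold uu
      rw [← hee]
      have := Real.sin_sq_add_cos_sq p
      linear_combination (exp (h p) * exp (h p)) * this
    have e2 : t ^ 6 * (xx h p ^ 2 + iF (a / t ^ 3) b t ^ 2 - 1) = 0 := by
      linear_combination e1
    have e3 := (mul_eq_zero.mp e2).resolve_left (by positivity)
    linarith
  have hF1 : iF (a / t ^ 3) b t ≤ 1 := by
    nlinarith [sq_nonneg (xx h p), sq_nonneg (iF (a / t ^ 3) b t - 1)]
  have hm : 0 < a / t ^ 3 := by positivity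
  have hF2 : a / t ^ 3 - b + t ^ 2 / 10 + t ^ 3 / 2 ≤ 1 := hF1
  have ht65 : t < 6 / 5 := by
    by_contra hcon
    have hcon := not_lt.mp hcon
    have e2 : (6 / 5 : ℝ) ^ 2 ≤ t ^ 2 := pow_le_pow_left₀ (by norm_num) hcon 2
    have e3 : (6 / 5 : ℝ) ^ 3 ≤ t ^ 3 := pow_le_pow_left₀ (by norm_num) hcon 3
    norm_num at e2 e3 hb6
    linarith
  have hm1 : a / t ^ 3 ≤ 1 + b := by
    have : 0 < t ^ 2 := by positivity
    have : 0 < t ^ 3 := by positivity
    linarith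
  have t5 : t ^ 5 ≤ (6 / 5) ^ 5 := pow_le_pow_left₀ ht.le ht65.le 5
  have t3 : t ^ 3 ≤ (6 / 5) ^ 3 := pow_le_pow_left₀ ht.le ht65.le 3
  have t5p : 0 < t ^ 5 := by positivity
  have t3p : 0 < t ^ 3 := by positivity
  have hbt : b * t ^ 3 ≤ 1 / 10 ^ 6 * (6 / 5) ^ 3 := mul_le_mul hb6 t3 t3p.le (by norm_num)
  have hbtp : 0 < b * t ^ 3 := by positivity
  refine ⟨ha, ht, h6', h3, h2, h4, hY, hX, hsq, ht65, hm, hm1, ?_, ?_⟩
  · rw [hE]
    norm_num at t5 ha2 ⊢
    linarith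
  · rw [hE]
    norm_num at hbt ⊢
    linarith

end Pool.Agent.Lib.MP_c60e08_gt.Ini
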