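import Pool.Agent.Lib.MP_c60e08_gt.InitSpec

set_option autoImplicit false

namespace Pool.Agent.Lib.MP_c60e08_gt.Ini

open Real Set Pool.Agent.Lib.MP_c60e08_gt.Lm

namespace CurvAux

theorem iter2 {h : ℝ → ℝ} (p : ℝ) : iteratedDeriv 2 h p = deriv (deriv h) p := by
  rw [iteratedDeriv_succ, iteratedDeriv_one]

theorem hasDeriv_thh {h : ℝ → ℝ} (hC : ContDiff ℝ (⊤ : ℕ∞) h) (p : ℝ) :
    HasDerivAt (thh h) (1 - iteratedDeriv 2 h p / (1 + deriv h p ^ 2)) p := by
  have hd : HasDerivAt (deriv h) (iteratedDeriv 2 h p) p := by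
    have h2 : ContDiff ℝ 2 h := contDiff_infty.1 hC 2
    have := (h2.differentiable_deriv_two p).hasDerivAt
    rwa [← iter2] at this
  have h3 := (hasDerivAt_id p).sub hd.arctan
  exact HasDerivAt.congr_deriv h3 (by ring)

/-- the derivative of the direction of a moving vector -/
theorem dir_deriv {u w th L : ℝ → ℝ} {u' w' th' p : ℝ} (hu : HasDerivAt u u' p)
    (hw : HasDerivAt w w' p) (hth : HasDerivAt th th' p) (h1 : ∀ q, L q * sin (th q) = u q)
    (h2 : ∀ q, L q * cos (th q) = w q) : L p ^ 2 * th' = u' * w p - w' * u p := by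
  have h3 : HasDerivAt (fun q => u q * cos (th q) - w q * sin (th q))
      (u' * cos (th p) + u p * (-sin (th p) * th') - (w' * sin (th p) + w p * (cos (th p) * th')))
      p := (hu.mul hth.cos).sub (hw.mul hth.sin)
  have h4 : (fun q => u q * cos (th q) - w q * sin (th q)) = fun _ => 0 := by
    funext q
    rw [← h1 q, ← h2 q]
    ring
  rw [h4] at h3
  have h5 := h3.unique (hasDerivAt_const p (0 : ℝ))
  have hsc := sin_sq_add_cos_sq (th p)
  have e1 := h1 p
  have e2 := h2 p
  rw [← e1, ← e2] at h5 ⊢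
  linear_combination (-(L p)) * h5 - (L p ^ 2 * th') * hsc

/-- the final algebraic step -/
theorem alg {x F G H z c w : ℝ} (hxF : x ^ 2 + F ^ 2 = 1) (hz : z = F - G)
    (hw : w = 1 - F * G) :
    (c * x * H * x + G * (c * F * z)) * w
      - (-((-(c * z * x)) * G + F * (c * x * H))) * (G * x)
      = c * (H * (1 - F ^ 2) + G * z ^ 2) := by
  have hx2 : x ^ 2 = 1 - F ^ 2 := by linarith
  have e1 : (c * x * H * x + G * (c * F * z)) * w
      - (-((-(c * z * x)) * G + F * (c * x * H))) * (G * x)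
      = c * ((H * x ^ 2 + G * F * z) * w + x ^ 2 * (F * H - z * G) * G) := by ring
  rw [e1, hx2, hw, hz]
  ring

end CurvAux

open CurvAux in
theorem stmtCurv (h1 : BasicStmt) (h2 : FrameStmt) (h3 : DtStmt) : CurvStmt := by
  intro a b h hP hC p
  obtain ⟨ha0, ht, -, -, -, hfS, -, -, hxF, -, -, -, -, -⟩ := h1 a b h hP hC p
  obtain ⟨hD0, -, -⟩ := h2 a b h hP hC p
  obtain ⟨htt, hF', hx'⟩ := h3 a b h hP hC p
  set L : ℝ → ℝ := fun q => √(iD (a / tt h q ^ 3) b (tt h q)) with hL
  have hLp : L p = √(iD (a / tt h p ^ 3) b (tt h p)) := rfl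
  have hL0 : 0 < L p := Real.sqrt_pos.mpr hD0
  have hL2 : L p ^ 2 = iD (a / tt h p ^ 3) b (tt h p) := Real.sq_sqrt hD0.le
  rw [← hLp] at htt hF' hx'
  -- the vector
  have hu1 : ∀ q, L q * sin (thh h q) = iG b (tt h q) * xx h q :=
    fun q => (h2 a b h hP hC q).2.1
  have hw1 : ∀ q, L q * cos (thh h q) = 1 - iF (a / tt h q ^ 3) b (tt h q) * iG b (tt h q) :=
    fun q => (h2 a b h hP hC q).2.2
  set t := tt h p with htd
  set x := xx h p with hxd
  set F := iF (a / t ^ 3) b t with hFd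
  set G := iG b t with hGd
  set z := iz (a / t ^ 3) b t with hzd
  set g := gg h p with hgd
  set c : ℝ := g / (t ^ 3 * L p) with hc
  have hzFG : z = F - G := rfl
  have hg0 : 0 < g := by
    rw [hgd]
    unfold gg
    positivity
  have hG' : HasDerivAt (fun q => iG b (tt h q)) (c * x * iH t) p := by
    have e1 : HasDerivAt (fun s : ℝ => iG b s) (t / 3 + 3 * t ^ 2) (tt h p) := by
      have e2 : HasDerivAt (fun s : ℝ => -b + s ^ 2 / 6 + s ^ 3)
          (2 * tt h p ^ (2 - 1) * 1 / 6 + 3 * tt h p ^ (3 - 1) * 1) (tt h p) := by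
        have e3 := (((hasDerivAt_id (tt h p)).pow 2).div_const 6).const_add (-b)
        have e4 := (hasDerivAt_id (tt h p)).pow 3
        have e5 := e3.add e4
        exact HasDerivAt.congr_deriv e5 (by norm_num)
      refine HasDerivAt.congr_deriv e2 ?_
      rw [htd]
      norm_num
      ring
    have e2 := e1.comp p htt
    refine HasDerivAt.congr_deriv e2 ?_
    rw [hc]
    unfold iH
    field_simp
    ring
  have hu' : HasDerivAt (fun q => iG b (tt h q) * xx h q)
      (c * x * iH t * x + G * (c * F * z)) p := by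
    have e1 := hG'.mul hx'
    refine HasDerivAt.congr_deriv e1 ?_
    rw [hc]
    ring
  have hw' : HasDerivAt (fun q => 1 - iF (a / tt h q ^ 3) b (tt h q) * iG b (tt h q))
      (-((-(c * z * x)) * G + F * (c * x * iH t))) p := by
    have e1 := (hF'.mul hG').const_sub 1
    refine HasDerivAt.congr_deriv e1 ?_
    rw [hc]
    ring
  have hdir := dir_deriv (L := L) hu' hw' (hasDeriv_thh hC.smooth p) hu1 hw1
  have halg := alg (c := c) (H := iH t) hxF hzFG (rfl : (1 - F * G) = 1 - F * G)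
  have hA : iA (a / t ^ 3) b t = iH t * (1 - F ^ 2) + G * z ^ 2 := rfl
  have hth : L p ^ 2 * (1 - iteratedDeriv 2 h p / (1 + deriv h p ^ 2))
      = c * iA (a / t ^ 3) b t := by
    rw [hdir, hA]
    exact halg
  -- the velocity
  have hpv : pv (stat h) 0 p = fS (uu p (h p)) *
      (1 - iteratedDeriv 2 h p / (1 + deriv h p ^ 2)) / g := by
    unfold pv pg stat
    rw [iteratedDeriv_zero, iteratedDeriv_one, hgd]
    rfl
  rw [hpv, hfS, ← hLp, ← hL2]
  have hne : L p ^ 2 ≠ 0 := by positivity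
  have e1 : 1 - iteratedDeriv 2 h p / (1 + deriv h p ^ 2) = c * iA (a / t ^ 3) b t / L p ^ 2 := by
    rw [eq_div_iff hne, ← hth]
    ring
  rw [e1, hc]
  field_simp

end Pool.Agent.Lib.MP_c60e08_gt.Ini
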