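import Pool.Agent.Lib.MP_c60e08_gt.InitSpec

/-!
MP_c60e08_gt, INIT part: derivatives of `tt`, `F`, `x` along the curve.
-/

set_option autoImplicit false

namespace Pool.Agent.Lib.MP_c60e08_gt.Ini

open Real Set Pool.Agent.Lib.MP_c60e08_gt.Lm

namespace Dt

lemma g_cos (h : ℝ → ℝ) (p : ℝ) :
    gg h p * cos (thh h p) = exp (h p) * (deriv h p * sin p + cos p) := by
  unfold gg thh
  have h1 : 0 < √(1 + deriv h p ^ 2) := sqrt_pos.mpr (by positivity)
  rw [cos_sub, cos_arctan, sin_arctan]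
  field_simp
  ring

lemma g_sin (h : ℝ → ℝ) (p : ℝ) :
    gg h p * sin (thh h p) = exp (h p) * (-(deriv h p * cos p) + sin p) := by
  unfold gg thh
  have h1 : 0 < √(1 + deriv h p ^ 2) := sqrt_pos.mpr (by positivity)
  rw [sin_sub, cos_arctan, sin_arctan]
  field_simp
  ring

end Dt

open Dt in
theorem stmtDt (h1 : BasicStmt) (h2 : SlopeStmt) (h3 : FrameStmt) : DtStmt := by
  intro a b h hP hC p
  obtain ⟨ha, ht, -, -, -, -, hY, hX, hxF, -, -, -, -, -⟩ := h1 a b h hP hC p
  obtain ⟨-, htd⟩ := h2 a b h hP hC p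
  obtain ⟨hD, hs, hc⟩ := h3 a b h hP hC p
  obtain ⟨t, htdef⟩ : ∃ t, t = tt h p := ⟨_, rfl⟩
  obtain ⟨x, hxdef⟩ : ∃ x, x = xx h p := ⟨_, rfl⟩
  obtain ⟨F, hFdef⟩ : ∃ F, F = iF (a / tt h p ^ 3) b (tt h p) := ⟨_, rfl⟩
  obtain ⟨G, hGdef⟩ : ∃ G, G = iG b (tt h p) := ⟨_, rfl⟩
  obtain ⟨L, hLdef⟩ : ∃ L, L = √(iD (a / tt h p ^ 3) b (tt h p)) := ⟨_, rfl⟩
  obtain ⟨g, hgdef⟩ : ∃ g, g = gg h p := ⟨_, rfl⟩
  have hL : 0 < L := by rw [hLdef]; exact sqrt_pos.mpr hD
  have hz : iz (a / tt h p ^ 3) b (tt h p) = F - G := by rw [hFdef, hGdef]; rfl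
  have hgc := g_cos h p
  have hgs := g_sin h p
  rw [← hLdef, ← hGdef, ← hxdef] at hs
  rw [← hLdef, ← hGdef, ← hFdef] at hc
  rw [← hFdef, ← htdef] at hY
  rw [← hxdef, ← htdef] at hX
  rw [← hxdef, ← hFdef] at hxF
  rw [← hgdef] at hgc hgs
  rw [← htdef] at ht
  -- the derivative of t
  have key : exp (2 * h p) * deriv h p - exp (h p) * cos p * deriv h p + exp (h p) * sin p
      = t ^ 3 * x * g / L := by
    have e1 : exp (2 * h p) * deriv h p - exp (h p) * cos p * deriv h p + exp (h p) * sin p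
        = (exp (h p) * sin p) * (g * cos (thh h p)) + (1 - exp (h p) * cos p)
          * (g * sin (thh h p)) := by
      rw [hgc, hgs, show 2 * h p = h p + h p by ring, exp_add]
      have := sin_sq_add_cos_sq p
      linear_combination (-(exp (h p) * exp (h p) * deriv h p)) * this
    have e2 : x * (L * cos (thh h p)) + F * (L * sin (thh h p)) = x := by
      rw [hs, hc]
      ring
    rw [e1, hX, hY, eq_div_iff hL.ne']
    linear_combination t ^ 3 * g * e2
  have htd' : HasDerivAt (tt h) (x * g / (3 * t ^ 2 * L)) p := by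
    rw [key, ← htdef] at htd
    refine htd.congr_deriv ?_
    field_simp
  refine ⟨?_, ?_, ?_⟩
  · rw [← hLdef, ← hxdef, ← hgdef, ← htdef]
    exact htd'
  · rw [hz, ← hLdef, ← hxdef, ← hgdef, ← htdef]
    have ht3 : HasDerivAt (fun q => tt h q ^ 3) (3 * t ^ 2 * (x * g / (3 * t ^ 2 * L))) p := by
      have := htd'.pow 3
      refine HasDerivAt.congr_deriv this ?_
      rw [← htdef]
      norm_num
    have ht2 : HasDerivAt (fun q => tt h q ^ 2) (2 * t * (x * g / (3 * t ^ 2 * L))) p := by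
      have := htd'.pow 2
      refine HasDerivAt.congr_deriv this ?_
      rw [← htdef]
      norm_num
    have hne : tt h p ^ 3 ≠ 0 := by rw [← htdef]; positivity
    have hm : HasDerivAt (fun q => a / tt h q ^ 3)
        (-(a * (3 * t ^ 2 * (x * g / (3 * t ^ 2 * L)))) / (t ^ 3) ^ 2) p := by
      have := (hasDerivAt_const p a).div ht3 hne
      refine HasDerivAt.congr_deriv this ?_
      rw [← htdef]
      ring
    have hF' : HasDerivAt (fun q => a / tt h q ^ 3 - b + tt h q ^ 2 / 10 + tt h q ^ 3 / 2)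
        (-(a * (3 * t ^ 2 * (x * g / (3 * t ^ 2 * L)))) / (t ^ 3) ^ 2
          + 2 * t * (x * g / (3 * t ^ 2 * L)) / 10
          + 3 * t ^ 2 * (x * g / (3 * t ^ 2 * L)) / 2) p :=
      ((hm.sub_const b).add (ht2.div_const 10)).add (ht3.div_const 2)
    have hF'' : HasDerivAt (fun q => iF (a / tt h q ^ 3) b (tt h q)) _ p := hF'
    refine HasDerivAt.congr_deriv hF'' ?_
    have hzz : F - G = a / t ^ 3 - t ^ 2 / 15 - t ^ 3 / 2 := by
      rw [hFdef, hGdef, ← htdef]
      unfold iF iG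
      ring
    rw [hzz]
    field_simp
    ring
  · rw [hz, ← hLdef, ← hFdef, ← hgdef, ← htdef]
    have hne : tt h p ^ 3 ≠ 0 := by rw [← htdef]; positivity
    have hhd : HasDerivAt h (deriv h p) p :=
      (hC.smooth.differentiable (by simp)).differentiableAt.hasDerivAt
    have ht3 : HasDerivAt (fun q => tt h q ^ 3) (3 * t ^ 2 * (x * g / (3 * t ^ 2 * L))) p := by
      have := htd'.pow 3
      refine HasDerivAt.congr_deriv this ?_
      rw [← htdef]
      norm_num
    have hXd : HasDerivAt (fun q => exp (h q) * sin q) (g * cos (thh h p)) p := by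
      have := (hhd.exp).mul (hasDerivAt_sin p)
      refine HasDerivAt.congr_deriv this ?_
      rw [hgc]
      ring
    have hxd : HasDerivAt (xx h) _ p := hXd.div ht3 hne
    refine HasDerivAt.congr_deriv hxd ?_
    have hc' : cos (thh h p) = (1 - F * G) / L := by
      rw [eq_div_iff hL.ne', ← hc]
      ring
    rw [← htdef, hX, hc']
    field_simp
    linear_combination (-g) * hxF

end Pool.Agent.Lib.MP_c60e08_gt.Ini
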