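import Pool.Agent.Lib.MP_c60e08_gt.InitSpec

/-!
MP_c60e08_gt, INIT part, module Fam: the smooth family of initial curves.
-/

set_option autoImplicit false

namespace Pool.Agent.Lib.MP_c60e08_gt.Ini

open Real Set Pool.Agent.Lib.MP_c60e08_gt.Lm

namespace Fam

theorem uu_eq (p y : ℝ) : uu p y = (exp y - cos p) ^ 2 + sin p ^ 2 := by
  unfold uu
  have h1 : exp (2 * y) = exp y ^ 2 := by rw [← exp_nat_mul]; norm_num
  have h2 := sin_sq_add_cos_sq p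
  rw [h1]
  linear_combination -h2

theorem pow_facts {u : ℝ} (hu : 0 < u) :
    0 < u ^ ((1 : ℝ) / 6) ∧ (u ^ ((1 : ℝ) / 6)) ^ 6 = u ∧ √u = (u ^ ((1 : ℝ) / 6)) ^ 3 ∧
    u ^ ((5 : ℝ) / 6) = (u ^ ((1 : ℝ) / 6)) ^ 5 ∧
    u ^ ((5 : ℝ) / 6 - 1) = 1 / u ^ ((1 : ℝ) / 6) := by
  refine ⟨rpow_pos_of_pos hu _, ?_, ?_, ?_, ?_⟩
  · rw [← rpow_natCast, ← rpow_mul hu.le]; norm_num
  · rw [sqrt_eq_rpow, ← rpow_natCast, ← rpow_mul hu.le]; norm_num
  · rw [← rpow_natCast, ← rpow_mul hu.le]; norm_num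
  · rw [one_div (u ^ ((1 : ℝ) / 6)), ← rpow_neg hu.le]; norm_num

theorem par {b : ℝ} (hb : 0 < b) (hb' : b ≤ 1 / 10 ^ 6) (l : ℝ) : Par (aL b l) b := by
  have h1 := sin_sq_add_cos_sq (π * l / 2)
  have hb3 : 0 < b ^ 3 := pow_pos hb 3
  have hs : 0 ≤ sin (π * l / 2) ^ 2 := sq_nonneg _
  have hc : 0 ≤ cos (π * l / 2) ^ 2 := sq_nonneg _
  have h2 : b ^ 3 / (2 * 440 ^ 3) ≤ 150 * b ^ 3 := by
    rw [div_le_iff₀ (by norm_num)]
    nlinarith
  refine ⟨hb, hb', ?_, ?_⟩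
  · unfold aL
    nlinarith
  · unfold aL
    nlinarith

theorem uu_deriv (p y : ℝ) :
    HasDerivAt (fun y => uu p y) (2 * (exp (2 * y) - exp y * cos p)) y := by
  unfold uu
  have h1 : HasDerivAt (fun y : ℝ => exp (2 * y)) (exp (2 * y) * (2 * 1)) y :=
    ((hasDerivAt_id y).const_mul 2).exp
  have h2 := (((Real.hasDerivAt_exp y).const_mul 2).mul_const (cos p))
  refine ((h1.sub h2).add_const 1).congr_deriv ?_
  ring

/-- the derivative of `EqF` -/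
theorem eqF_deriv {a b p y : ℝ} (hu : 0 < uu p y) :
    HasDerivAt (EqF a b p) (2 * exp (2 * y)
      + (exp (2 * y) - exp y * cos p) / (uu p y ^ ((1 : ℝ) / 6)) ^ 3 *
        ((uu p y ^ ((1 : ℝ) / 6)) ^ 2 / 3 - 2 * b)) y := by
  obtain ⟨hs, h6, h3, h5, hm⟩ := pow_facts hu
  have h1 : HasDerivAt (fun y : ℝ => exp (2 * y)) (exp (2 * y) * (2 * 1)) y :=
    ((hasDerivAt_id y).const_mul 2).exp
  have h2 := (uu_deriv p y).sqrt hu.ne'
  have h4 := (uu_deriv p y).rpow_const (p := (5 : ℝ) / 6) (Or.inl hu.ne')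
  have h7 := ((((h1.sub_const 1).add_const (2 * a)).sub (h2.const_mul (2 * b))).add
    (h4.div_const 5))
  have h8 : HasDerivAt (EqF a b p) (exp (2 * y) * (2 * 1) - 2 * b *
      (2 * (exp (2 * y) - exp y * cos p) / (2 * √(uu p y))) +
      2 * (exp (2 * y) - exp y * cos p) * ((5 : ℝ) / 6) * uu p y ^ ((5 : ℝ) / 6 - 1) / 5) y := h7
  refine h8.congr_deriv ?_
  rw [h3, hm]
  generalize uu p y ^ ((1 : ℝ) / 6) = s at hs
  field_simp
  ring

theorem deriv_pos {b p y : ℝ} (hb : 0 < b) (hb' : b ≤ 1 / 10 ^ 6) (hu : 0 < uu p y)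
    (h1 : 1 / 2 ≤ exp y) (h2 : exp y ≤ 2) :
    0 < 2 * exp (2 * y)
      + (exp (2 * y) - exp y * cos p) / (uu p y ^ ((1 : ℝ) / 6)) ^ 3 *
        ((uu p y ^ ((1 : ℝ) / 6)) ^ 2 / 3 - 2 * b) := by
  obtain ⟨hs, h6, -, -, -⟩ := pow_facts hu
  have hexp : exp (2 * y) = exp y ^ 2 := by rw [← exp_nat_mul]; norm_num
  have hueq := uu_eq p y
  have hsc := sin_sq_add_cos_sq p
  generalize hsdef : uu p y ^ ((1 : ℝ) / 6) = s at *
  generalize hEdef : exp y = E at *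
  rw [hexp]
  have hc1 : -1 ≤ cos p := neg_one_le_cos p
  have hc2 : cos p ≤ 1 := cos_le_one p
  -- the bound of `s`
  have hu9 : s ^ 6 ≤ 9 := by
    rw [h6, hueq]
    nlinarith [sq_nonneg (sin p), sq_nonneg (cos p)]
  have hs2 : s ^ 2 ≤ 21 / 10 := by
    by_contra hcon
    push Not at hcon
    have h7 : (21 / 10 : ℝ) ^ 3 < (s ^ 2) ^ 3 :=
      pow_lt_pow_left₀ hcon (by norm_num) (by norm_num)
    have h8 : (s ^ 2) ^ 3 = s ^ 6 := by ring
    rw [h8] at h7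
    norm_num at h7
    linarith
  have hs3 : 0 < s ^ 3 := pow_pos hs 3
  have hκ : |(E ^ 2 - E * cos p) / s ^ 3| ≤ E := by
    rw [abs_div, abs_of_pos hs3, div_le_iff₀ hs3]
    apply abs_le_of_sq_le_sq _ (by positivity)
    have h9 : (E * s ^ 3) ^ 2 = E ^ 2 * s ^ 6 := by ring
    rw [h9, h6, hueq]
    nlinarith [mul_nonneg (sq_nonneg E) (sq_nonneg (sin p))]
  have hc : |s ^ 2 / 3 - 2 * b| ≤ 7 / 10 := by
    rw [abs_le]
    have hs20 : 0 < s ^ 2 := pow_pos hs 2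
    constructor
    · norm_num at hb'
      linarith
    · linarith
  have hprod : |(E ^ 2 - E * cos p) / s ^ 3 * (s ^ 2 / 3 - 2 * b)| ≤ E * (7 / 10) := by
    rw [abs_mul]
    exact mul_le_mul hκ hc (abs_nonneg _) (by linarith)
  have h10 := (abs_le.1 hprod).1
  nlinarith

end Fam

open Fam in
theorem stmtFam (h1 : RootStmt) (h2 : ImplicitStmt) : FamStmt := by
  intro b hb hb'
  have hpar := par hb hb'
  have hroot : ∀ q : ℝ × ℝ, ∃ y, 1 / 2 ≤ exp y ∧ exp y ≤ 2 ∧ EqF (aL b q.1) b q.2 y = 0 :=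
    fun q => (h1 _ b (hpar q.1) q.2).1
  choose f hf1 hf2 hf3 using hroot
  have huniq : ∀ (q : ℝ × ℝ) (y : ℝ), 1 / 2 ≤ exp y → exp y ≤ 2 →
      EqF (aL b q.1) b q.2 y = 0 → y = f q := fun q y e1 e2 e3 =>
    (h1 _ b (hpar q.1) q.2).2.1 y (f q) e1 e2 e3 (hf1 q) (hf2 q) (hf3 q)
  have hupos : ∀ q : ℝ × ℝ, 0 < uu q.2 (f q) := fun q =>
    (h1 _ b (hpar q.1) q.2).2.2 (f q) (hf1 q) (hf2 q) (hf3 q)
  have hlo : ∀ y : ℝ, 1 / 2 ≤ exp y ↔ -log 2 ≤ y := by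
    intro y
    rw [← Real.exp_le_exp (x := -log 2), Real.exp_neg, Real.exp_log (by norm_num)]
    norm_num
  have hhi : ∀ y : ℝ, exp y ≤ 2 ↔ y ≤ log 2 := by
    intro y
    rw [← Real.exp_le_exp (x := y), Real.exp_log (by norm_num)]
  have haL : ContDiff ℝ (⊤ : ℕ∞) (fun z : (ℝ × ℝ) × ℝ => aL b z.1.1) := by
    unfold aL
    have e1 : ContDiff ℝ (⊤ : ℕ∞) (fun z : (ℝ × ℝ) × ℝ => π * z.1.1 / 2) := by fun_prop
    exact (contDiff_const.mul (e1.cos.pow 2)).add (contDiff_const.mul (e1.sin.pow 2))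
  have huu : ContDiff ℝ (⊤ : ℕ∞) (fun z : (ℝ × ℝ) × ℝ => uu z.1.2 z.2) := by
    unfold uu
    have e1 : ContDiff ℝ (⊤ : ℕ∞) (fun z : (ℝ × ℝ) × ℝ => z.1.2) := by fun_prop
    have e2 : ContDiff ℝ (⊤ : ℕ∞) (fun z : (ℝ × ℝ) × ℝ => z.2) := by fun_prop
    have e3 : ContDiff ℝ (⊤ : ℕ∞) (fun z : (ℝ × ℝ) × ℝ => 2 * z.2) := by fun_prop
    exact ((e3.exp).sub ((contDiff_const.mul e2.exp).mul e1.cos)).add contDiff_const
  have hexp2 : ContDiff ℝ (⊤ : ℕ∞) (fun z : (ℝ × ℝ) × ℝ => exp (2 * z.2)) := by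
    have e3 : ContDiff ℝ (⊤ : ℕ∞) (fun z : (ℝ × ℝ) × ℝ => 2 * z.2) := by fun_prop
    exact e3.exp
  have hsm : ContDiff ℝ (⊤ : ℕ∞) f := by
    refine h2 (fun q y => EqF (aL b q.1) b q.2 y) f (-log 2) (log 2) ?_ ?_ ?_ ?_ ?_
    · unfold EqF
      exact ((((hexp2.continuous.sub continuous_const).add
        (continuous_const.mul haL.continuous)).sub
        (continuous_const.mul huu.continuous.sqrt)).add
        ((huu.continuous.rpow_const (fun _ => Or.inr (by norm_num))).div_const 5))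
    · intro q
      exact ⟨(hlo _).1 (hf1 q), (hhi _).1 (hf2 q), hf3 q⟩
    · intro q y e1 e2 e3
      exact huniq q y ((hlo _).2 e1) ((hhi _).2 e2) e3
    · intro q
      unfold EqF
      have hne : uu q.2 (f q) ≠ 0 := (hupos q).ne'
      exact ((((hexp2.contDiffAt.sub contDiffAt_const).add
        (contDiffAt_const.mul haL.contDiffAt)).sub
        (contDiffAt_const.mul (huu.contDiffAt.sqrt hne))).add
        ((huu.contDiffAt.rpow_const_of_ne hne).div_const 5))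
    · intro q
      exact ⟨_, (deriv_pos hb hb' (hupos q) (hf1 q) (hf2 q)).ne', eqF_deriv (hupos q)⟩
  refine ⟨fun l p => f (l, p), hsm, fun l => ⟨hpar l, ?_⟩⟩
  refine ⟨?_, ?_, ?_, fun p => hupos (l, p), fun p => hf1 (l, p), fun p => hf2 (l, p), ?_⟩
  · have e1 : ContDiff ℝ (⊤ : ℕ∞) (fun p : ℝ => ((l, p) : ℝ × ℝ)) := by fun_prop
    exact hsm.comp e1
  · intro p
    refine huniq (l, p) _ (hf1 _) (hf2 _) ?_
    have e1 := hf3 (l, p + 2 * π)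
    simpa only [EqF, uu, cos_add_two_pi] using e1
  · intro p
    refine huniq (l, p) _ (hf1 _) (hf2 _) ?_
    have e1 := hf3 (l, -p)
    simpa only [EqF, uu, cos_neg] using e1
  · intro p
    have e1 := hf3 (l, p)
    obtain ⟨-, -, e3, e5, -⟩ := pow_facts (hupos (l, p))
    unfold EqF at e1
    simp only at e1 e3 e5
    rw [e3, e5] at e1
    unfold tt
    linarith

end Pool.Agent.Lib.MP_c60e08_gt.Ini
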