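import Pool.Agent.Lib.MP_c60e08_gt.InitSpec

/-!
MP_c60e08_gt, INIT part: positivity of `W1`, `W2` away from the tip.
-/

set_option autoImplicit false

namespace Pool.Agent.Lib.MP_c60e08_gt.Ini

open Real Set Pool.Agent.Lib.MP_c60e08_gt.Lm

namespace FarAux

theorem tube (α : ℝ × ℝ × ℝ → ℝ) (hα : Continuous α) {η : ℝ} (hη : η ≤ 6 / 5)
    (hpos : ∀ t, η ≤ t → t ≤ 6 / 5 → 0 < α (0, 0, t)) :
    ∃ ε : ℝ, 0 < ε ∧ ∀ m b t : ℝ, 0 ≤ m → m ≤ ε → 0 ≤ b → b ≤ ε → η ≤ t → t ≤ 6 / 5 →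
      0 < α (m, b, t) := by
  have hne : (Icc η (6 / 5)).Nonempty := ⟨η, le_rfl, hη⟩
  obtain ⟨s, hs, hmin⟩ := isCompact_Icc.exists_isMinOn hne
    (f := fun t => α (0, 0, t)) (by fun_prop)
  have hc := hpos s hs.1 hs.2
  have hK : IsCompact (Icc (0 : ℝ) 1 ×ˢ (Icc (0 : ℝ) 1 ×ˢ Icc η (6 / 5))) :=
    isCompact_Icc.prod (isCompact_Icc.prod isCompact_Icc)
  have hu := hK.uniformContinuousOn_of_continuous hα.continuousOn
  rw [Metric.uniformContinuousOn_iff] at hu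
  obtain ⟨δ, hδ, h⟩ := hu _ hc
  refine ⟨min (δ / 2) 1, by positivity, ?_⟩
  intro m b t hm hmη hb hbη ht ht1
  have hb1 : b ≤ 1 := hbη.trans (min_le_right _ _)
  have hm1 : m ≤ 1 := hmη.trans (min_le_right _ _)
  have hbd : b ≤ δ / 2 := hbη.trans (min_le_left _ _)
  have hmd : m ≤ δ / 2 := hmη.trans (min_le_left _ _)
  have h2 := h (m, b, t) ⟨⟨hm, hm1⟩, ⟨hb, hb1⟩, ⟨ht, ht1⟩⟩ (0, 0, t)
    ⟨⟨le_rfl, zero_le_one⟩, ⟨le_rfl, zero_le_one⟩, ⟨ht, ht1⟩⟩ (by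
      rw [Prod.dist_eq, Prod.dist_eq]
      simp only [dist_self, Real.dist_eq, sub_zero]
      rw [abs_of_nonneg hb, abs_of_nonneg hm]
      apply max_lt (by linarith)
      apply max_lt _ hδ
      linarith)
  rw [Real.dist_eq] at h2
  have h3 := (abs_lt.mp h2).1
  have h4 : α (0, 0, s) ≤ α (0, 0, t) := hmin ⟨ht, ht1⟩
  linarith

end FarAux

theorem stmtFar (h1 : PolyStmt) : FarStmt := by
  obtain ⟨-, -, -, -, -, -, -, -, -, -, -, -, -, -, -, -, -, -, -, -, -, -, -, hlast⟩ := h1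
  intro η hη
  rcases le_or_gt η (6 / 5) with h65 | h65
  · have hW1c : Continuous (fun z : ℝ × ℝ × ℝ => iW1 z.1 z.2.1 z.2.2) := by
      unfold iW1 iB iDA iA iD iz iF iG iH iE
      fun_prop
    have hW2c : Continuous (fun z : ℝ × ℝ × ℝ => iW2 z.1 z.2.1 z.2.2) := by
      unfold iW2 iB iDA iA iD iz iF iG iH iE
      fun_prop
    obtain ⟨ε1, he1, t1⟩ := FarAux.tube _ hW1c h65
      (fun t h2 h3 => (hlast t (by linarith) h3).1)
    obtain ⟨ε2, he2, t2⟩ := FarAux.tube _ hW2c h65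
      (fun t h2 h3 => (hlast t (by linarith) h3).2)
    obtain ⟨ε, he, l1, l2⟩ : ∃ ε : ℝ, 0 < ε ∧ ε ≤ ε1 ∧ ε ≤ ε2 :=
      ⟨min ε1 ε2, lt_min he1 he2, min_le_left _ _, min_le_right _ _⟩
    refine ⟨min (min ε 1) (ε * η ^ 3 / 150), by positivity, ?_⟩
    intro m b t hb hb2 ht ht1 hm hmt
    have hbε : b ≤ ε := (hb2.trans (min_le_left _ _)).trans (min_le_left _ _)
    have hb1 : b ≤ 1 := (hb2.trans (min_le_left _ _)).trans (min_le_right _ _)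
    have hb3 : b ≤ ε * η ^ 3 / 150 := hb2.trans (min_le_right _ _)
    have hbc : b ^ 3 ≤ b := by
      have h5 : b ^ 2 ≤ 1 := pow_le_one₀ hb.le hb1
      calc b ^ 3 = b * b ^ 2 := by ring
        _ ≤ b * 1 := mul_le_mul_of_nonneg_left h5 hb.le
        _ = b := mul_one b
    have hη3 : 0 < η ^ 3 := by positivity
    have ht3 : η ^ 3 ≤ t ^ 3 := pow_le_pow_left₀ hη.le ht 3
    have hmε : m ≤ ε := by
      have h6 : m * η ^ 3 ≤ ε * η ^ 3 := by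
        calc m * η ^ 3 ≤ m * t ^ 3 := mul_le_mul_of_nonneg_left ht3 hm
          _ ≤ 150 * b ^ 3 := hmt
          _ ≤ 150 * b := by linarith
          _ ≤ ε * η ^ 3 := by linarith
      exact le_of_mul_le_mul_right h6 hη3
    exact ⟨t1 m b t hm (hmε.trans l1) hb.le (hbε.trans l1) ht ht1,
      t2 m b t hm (hmε.trans l2) hb.le (hbε.trans l2) ht ht1⟩
  · refine ⟨1, one_pos, ?_⟩
    intro m b t _ _ h2 h3
    linarith

end Pool.Agent.Lib.MP_c60e08_gt.Ini
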