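import Pool.Agent.Lib.MP_c60e08_gt.InitSpec

set_option autoImplicit false

namespace Pool.Agent.Lib.MP_c60e08_gt.Ini

open Real Set Pool.Agent.Lib.MP_c60e08_gt.Lm

namespace FrameAux

/-- the algebraic core -/
theorem alg {E d sp cp t x F G b : ℝ} (hsc : sp ^ 2 + cp ^ 2 = 1) (hE : 1 / 2 ≤ E) (ht : 0 < t)
    (ht2 : t < 6 / 5) (hb0 : 0 < b) (hb : b ≤ 1 / 10) (hX : E * sp = t ^ 3 * x)
    (hY : 1 - E * cp = t ^ 3 * F) (hxF : x ^ 2 + F ^ 2 = 1) (hG : G = -b + t ^ 2 / 6 + t ^ 3)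
    (hsl : d * (t ^ 3 * E ^ 2 + (t ^ 2 / 6 - b) * (E ^ 2 - E * cp))
      = -((t ^ 2 / 6 - b) * (E * sp))) :
    0 < E ^ 2 + (t ^ 2 / 6 - b) * (t ^ 3 - F) ∧
    d * (E ^ 2 + (t ^ 2 / 6 - b) * (t ^ 3 - F)) = -((t ^ 2 / 6 - b) * x) ∧
    E ^ 2 + (t ^ 2 / 6 - b) * (t ^ 3 - F) = 1 - t ^ 3 * F + G * t ^ 3 - G * F := by
  have hE2 : E ^ 2 = 1 - 2 * t ^ 3 * F + t ^ 6 := by
    have h1 : E ^ 2 = (E * sp) ^ 2 + (E * cp) ^ 2 := by
      have : (E * sp) ^ 2 + (E * cp) ^ 2 = E ^ 2 * (sp ^ 2 + cp ^ 2) := by ring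
      rw [this, hsc, mul_one]
    have h2 : E * cp = 1 - t ^ 3 * F := by linarith
    rw [h1, hX, h2]
    have : (t ^ 3 * x) ^ 2 + (1 - t ^ 3 * F) ^ 2 = t ^ 6 * (x ^ 2 + F ^ 2) + 1 - 2 * t ^ 3 * F := by
      ring
    rw [this, hxF]
    ring
  have hcp : E ^ 2 - E * cp = t ^ 3 * (t ^ 3 - F) := by
    have h2 : E * cp = 1 - t ^ 3 * F := by linarith
    rw [h2, hE2]
    ring
  refine ⟨?_, ?_, ?_⟩
  · set c : ℝ := t ^ 2 / 6 - b with hc
    have hc1 : c ≤ 1 / 4 := by
      have : t ^ 2 < (6 / 5) ^ 2 := pow_lt_pow_left₀ ht2 ht.le (by norm_num)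
      rw [hc]
      norm_num at this
      linarith
    have hc2 : -(1 / 4) ≤ c := by
      have : 0 < t ^ 2 := by positivity
      rw [hc]
      linarith
    have hcabs : |c| ≤ 1 / 4 := abs_le.mpr ⟨hc2, hc1⟩
    have hsq : (t ^ 3 - F) ^ 2 ≤ E ^ 2 := by
      rw [hE2]
      nlinarith [sq_nonneg x]
    have habs : |t ^ 3 - F| ≤ E := abs_le_of_sq_le_sq hsq (by linarith)
    have hprod : |c * (t ^ 3 - F)| ≤ 1 / 4 * E := by
      rw [abs_mul]
      exact mul_le_mul hcabs habs (abs_nonneg _) (by norm_num)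
    have := (abs_le.mp hprod).1
    nlinarith
  · have h3 : t ^ 3 * (d * (E ^ 2 + (t ^ 2 / 6 - b) * (t ^ 3 - F)))
        = t ^ 3 * (-((t ^ 2 / 6 - b) * x)) := by
      rw [hcp, hX] at hsl
      linear_combination hsl
    exact mul_left_cancel₀ (by positivity) h3
  · rw [hE2, hG]
    ring

end FrameAux

theorem stmtFrame (h1 : BasicStmt) (h2 : SlopeStmt) : FrameStmt := by
  intro a b h hP hC p
  obtain ⟨ha0, ht, ht6, -, -, -, hY, hX, hxF, ht65, hm0, hm1, -, -⟩ := h1 a b h hP hC p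
  obtain ⟨hsl, -⟩ := h2 a b h hP hC p
  have hexp2 : exp (2 * h p) = exp (h p) ^ 2 := by
    rw [← Real.exp_nat_mul]
    norm_num
  rw [hexp2] at hsl
  have hE := hC.lo p
  have hE0 : 0 < exp (h p) := exp_pos _
  have hsc := sin_sq_add_cos_sq p
  have hble : b ≤ 1 / 10 := hP.ble.trans (by norm_num)
  set t := tt h p with htd
  set x := xx h p with hxd
  set F := iF (a / t ^ 3) b t with hFd
  set G := iG b t with hGd
  set E := exp (h p) with hEd
  set d := deriv h p with hdd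
  obtain ⟨hQ0, hQd, hQ⟩ := FrameAux.alg (G := G) hsc hE ht ht65 hP.bpos hble hX hY hxF
    (by rw [hGd]; rfl) hsl
  set Q := E ^ 2 + (t ^ 2 / 6 - b) * (t ^ 3 - F) with hQdef
  have hGc : t ^ 2 / 6 - b = G - t ^ 3 := by
    rw [hGd]
    unfold iG
    ring
  rw [hGc] at hQd
  have hR0 : 0 < √(1 + d ^ 2) := Real.sqrt_pos.mpr (by positivity)
  set R := √(1 + d ^ 2) with hR
  have hR2 : R ^ 2 = 1 + d ^ 2 := Real.sq_sqrt (by positivity)
  have hcos : cos (thh h p) = (cos p + d * sin p) / R := by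
    show cos (p - arctan d) = _
    rw [cos_sub, Real.cos_arctan, Real.sin_arctan, ← hR]
    ring
  have hsin : sin (thh h p) = (sin p - d * cos p) / R := by
    show sin (p - arctan d) = _
    rw [sin_sub, Real.cos_arctan, Real.sin_arctan, ← hR]
    ring
  have hcp : E * cos p = 1 - t ^ 3 * F := by linarith
  -- orthogonality
  have horth : (1 - F * G) * sin (thh h p) = G * x * cos (thh h p) := by
    rw [hcos, hsin]
    rw [mul_div_assoc', mul_div_assoc']
    congr 1
    have h3 : E * ((1 - F * G) * (sin p - d * cos p)) = E * (G * x * (cos p + d * sin p)) := by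
      have e1 : E * ((1 - F * G) * (sin p - d * cos p))
          = (1 - F * G) * (E * sin p - d * (E * cos p)) := by ring
      have e2 : E * (G * x * (cos p + d * sin p)) = G * x * (E * cos p + d * (E * sin p)) := by
        ring
      rw [e1, e2, hX, hcp]
      rw [hQ] at hQd
      linear_combination (-1 : ℝ) * hQd - G * d * t ^ 3 * hxF
    exact mul_left_cancel₀ hE0.ne' h3
  have hsc' := sin_sq_add_cos_sq (thh h p)
  set lam := G * x * sin (thh h p) + (1 - F * G) * cos (thh h p) with hlam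
  have hl1 : lam * sin (thh h p) = G * x := by
    have : lam * sin (thh h p) = G * x * sin (thh h p) ^ 2
        + ((1 - F * G) * sin (thh h p)) * cos (thh h p) := by rw [hlam]; ring
    rw [this, horth]
    linear_combination (G * x) * hsc'
  have hl2 : lam * cos (thh h p) = 1 - F * G := by
    have : lam * cos (thh h p) = (G * x * cos (thh h p)) * sin (thh h p)
        + (1 - F * G) * cos (thh h p) ^ 2 := by rw [hlam]; ring
    rw [this, ← horth]
    linear_combination (1 - F * G) * hsc'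
  have hlpos : 0 < lam := by
    have e1 : lam * (E * R) = Q * (1 + d ^ 2) := by
      rw [hlam, hcos, hsin]
      have e2 : (G * x * ((sin p - d * cos p) / R) + (1 - F * G) * ((cos p + d * sin p) / R))
          * (E * R) = G * x * (E * sin p - d * (E * cos p))
            + (1 - F * G) * (E * cos p + d * (E * sin p)) := by
        field_simp
      rw [e2, hX, hcp]
      rw [hQ] at hQd ⊢
      linear_combination (-d) * hQd + (G * t ^ 3) * hxF
    have e3 : 0 < Q * (1 + d ^ 2) := by positivity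
    rw [← e1] at e3
    exact pos_of_mul_pos_left e3 (by positivity)
  have hD : iD (a / t ^ 3) b t = lam ^ 2 := by
    have e1 : lam ^ 2 = (lam * sin (thh h p)) ^ 2 + (lam * cos (thh h p)) ^ 2 := by
      linear_combination (-(lam ^ 2)) * hsc'
    rw [e1, hl1, hl2]
    show 1 - 2 * F * G + G ^ 2 = _
    linear_combination (-(G ^ 2)) * hxF
  rw [hD]
  refine ⟨by positivity, ?_, ?_⟩
  · rw [Real.sqrt_sq hlpos.le]
    exact hl1
  · rw [Real.sqrt_sq hlpos.le]
    exact hl2

end Pool.Agent.Lib.MP_c60e08_gt.Ini
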