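import Pool.Agent.Lib.MP_c60e08_gt.InitSpec

/-! A unique root in a compact interval depends smoothly on two parameters. -/

set_option autoImplicit false

namespace Pool.Agent.Lib.MP_c60e08_gt.Ini

open Real Set Pool.Agent.Lib.MP_c60e08_gt.Lm

namespace Implicit

open Filter Topology

lemma cont {Φ : ℝ × ℝ → ℝ → ℝ} {f : ℝ × ℝ → ℝ} {c d : ℝ}
    (hΦ : Continuous (fun z : (ℝ × ℝ) × ℝ => Φ z.1 z.2))
    (hf : ∀ q, c ≤ f q ∧ f q ≤ d ∧ Φ q (f q) = 0)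
    (hu : ∀ q y, c ≤ y → y ≤ d → Φ q y = 0 → y = f q) : Continuous f := by
  rw [continuous_iff_continuousAt]
  intro q0
  rw [Metric.continuousAt_iff']
  intro ε hε
  have hK : IsCompact (Icc c d \ Metric.ball (f q0) ε) := isCompact_Icc.diff Metric.isOpen_ball
  have h1 : ∀ᶠ q in 𝓝 q0, ∀ y ∈ Icc c d \ Metric.ball (f q0) ε, Φ q y ≠ 0 := by
    refine hK.eventually_forall_of_forall_eventually fun y hy => ?_
    have h2 : Φ q0 y ≠ 0 := by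
      intro h0
      have := hu q0 y hy.1.1 hy.1.2 h0
      exact hy.2 (by rw [this]; exact Metric.mem_ball_self hε)
    exact (hΦ.continuousAt (x := (q0, y))).eventually_ne h2
  filter_upwards [h1] with q hq
  by_contra hcon
  exact hq (f q) ⟨⟨(hf q).1, (hf q).2.1⟩, hcon⟩ (hf q).2.2

/-- the derivative of `(v,s) ↦ (v, L (v,s))` -/
noncomputable def eqv (L : (ℝ × ℝ) × ℝ →L[ℝ] ℝ) (D : ℝ) (hD : D ≠ 0)
    (hL : ∀ v s, L (v, s) = L (v, 0) + D * s) : ((ℝ × ℝ) × ℝ) ≃L[ℝ] ((ℝ × ℝ) × ℝ) :=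
  ContinuousLinearEquiv.equivOfInverse
    ((ContinuousLinearMap.fst ℝ (ℝ × ℝ) ℝ).prod L)
    ((ContinuousLinearMap.fst ℝ (ℝ × ℝ) ℝ).prod
      (D⁻¹ • (ContinuousLinearMap.snd ℝ (ℝ × ℝ) ℝ -
        L.comp ((ContinuousLinearMap.fst ℝ (ℝ × ℝ) ℝ).prod 0))))
    (by
      rintro ⟨v, s⟩
      ext
      · rfl
      · rfl
      · change D⁻¹ * (L (v, s) - L (v, 0)) = s
        rw [hL v s]
        field_simp
        ring)
    (by
      rintro ⟨v, s⟩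
      ext
      · rfl
      · rfl
      · change L (v, D⁻¹ * (s - L (v, 0))) = s
        rw [hL v (D⁻¹ * (s - L (v, 0)))]
        field_simp
        ring)

end Implicit

open Implicit Filter Topology in
theorem stmtImplicit : ImplicitStmt := by
  intro Φ f c d hΦ hf hu hs hD
  have hcont := cont hΦ hf hu
  rw [contDiff_iff_contDiffAt]
  intro q0
  obtain ⟨D, hD0, hDd⟩ := hD q0
  set g : (ℝ × ℝ) × ℝ → ℝ := fun z => Φ z.1 z.2 with hg
  have hgd : HasFDerivAt g (fderiv ℝ g (q0, f q0)) (q0, f q0) :=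
    ((hs q0).differentiableAt (by simp)).hasFDerivAt
  set L := fderiv ℝ g (q0, f q0) with hLdef
  have hL1 : L (0, 1) = D := by
    have h1 : HasDerivAt (fun y : ℝ => (q0, y)) ((0 : ℝ × ℝ), (1 : ℝ)) (f q0) :=
      (hasDerivAt_const (f q0) q0).prodMk (hasDerivAt_id (f q0))
    have h2 : HasDerivAt (fun y : ℝ => g (q0, y)) (L (0, 1)) (f q0) :=
      HasFDerivAt.comp_hasDerivAt (f q0) (f := fun y : ℝ => (q0, y)) hgd h1
    exact h2.unique hDd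
  have hL : ∀ v s, L (v, s) = L (v, 0) + D * s := by
    intro v s
    have h1 : ((v, s) : (ℝ × ℝ) × ℝ) = (v, 0) + s • ((0 : ℝ × ℝ), (1 : ℝ)) := by
      ext <;> simp
    rw [h1, map_add, map_smul, hL1, smul_eq_mul, mul_comm]
  set Ψ : (ℝ × ℝ) × ℝ → (ℝ × ℝ) × ℝ := fun z => (z.1, g z) with hΨ
  have hΨs : ContDiffAt ℝ (⊤ : ℕ∞) Ψ (q0, f q0) := contDiffAt_fst.prodMk (hs q0)
  have hΨd : HasFDerivAt Ψ ((eqv L D hD0 hL : ((ℝ × ℝ) × ℝ) ≃L[ℝ] ((ℝ × ℝ) × ℝ)) :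
      ((ℝ × ℝ) × ℝ) →L[ℝ] ((ℝ × ℝ) × ℝ)) (q0, f q0) :=
    hasFDerivAt_fst.prodMk hgd
  have hn : ((⊤ : ℕ∞) : WithTop ℕ∞) ≠ 0 := by simp
  have hinv := hΨs.to_localInverse hΨd hn
  have hΨ0 : ∀ q, Ψ (q, f q) = (q, 0) := fun q => by
    simp only [hΨ, hg, (hf q).2.2]
  have hleft : ∀ᶠ z in 𝓝 (q0, f q0), hΨs.localInverse hΨd hn (Ψ z) = z :=
    (hΨs.hasStrictFDerivAt' hΨd hn).eventually_left_inverse
  have hev : ∀ᶠ q in 𝓝 q0, (hΨs.localInverse hΨd hn (q, 0)).2 = f q := by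
    have h1 : Tendsto (fun q => (q, f q)) (𝓝 q0) (𝓝 (q0, f q0)) :=
      (continuous_id.prodMk hcont).continuousAt
    filter_upwards [h1.eventually hleft] with q hq
    rw [hΨ0] at hq
    rw [hq]
  rw [hΨ0] at hinv
  have hcomp : ContDiffAt ℝ (⊤ : ℕ∞) (fun q : ℝ × ℝ => (hΨs.localInverse hΨd hn (q, 0)).2) q0 := by
    have h2 : ContDiffAt ℝ (⊤ : ℕ∞) (fun q : ℝ × ℝ => (q, (0 : ℝ))) q0 :=
      contDiffAt_id.prodMk contDiffAt_const
    exact contDiffAt_snd.comp q0 (ContDiffAt.comp q0 (f := fun q : ℝ × ℝ => (q, (0 : ℝ))) hinv h2)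
  exact hcomp.congr_of_eventuallyEq (hev.mono fun q hq => hq.symm)

end Pool.Agent.Lib.MP_c60e08_gt.Ini
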