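import Pool.Agent.Lib.MP_c60e08_gt.InitSpec

/-!
MP_c60e08_gt, INIT part: the inner estimate.
-/

set_option autoImplicit false

namespace Pool.Agent.Lib.MP_c60e08_gt.Ini

open Real Set Pool.Agent.Lib.MP_c60e08_gt.Lm

namespace Inner

/-- The algebraic core. -/
theorem core (a b m t t0 x : ℝ) (hb : 0 < b) (hb1 : b ≤ 1 / 10 ^ 6) (halo : b ^ 3 / (2 * 440 ^ 3) ≤ a)
    (ht : 0 < t) (ht1 : t ≤ 1 / 20) (ht0 : 0 < t0) (ha2 : a ≤ 2 * t0 ^ 3) (hm : 0 < m)
    (hm1 : m ≤ 1 + b) (hma : m * t ^ 3 = a) (hx : 0 ≤ x) (hxF : x ^ 2 + iF m b t ^ 2 = 1)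
    (hD : 0 < iD m b t) :
    t ^ 3 * x / √(iD m b t) / 10 - 10 ^ 4 * t0 ^ 2 ≤ 3 * t * iA m b t / (iD m b t * √(iD m b t)) := by
  set F := iF m b t with hF
  set G := iG b t with hG
  set z := iz m b t with hz
  set D := iD m b t with hDd
  set A := iA m b t with hA
  have hFdef : F = m - b + t ^ 2 / 10 + t ^ 3 / 2 := rfl
  have hGdef : G = -b + t ^ 2 / 6 + t ^ 3 := rfl
  have hzdef : z = F - G := rfl
  have hDdef : D = 1 - 2 * F * G + G ^ 2 := rfl
  have hAdef : A = (t ^ 2 / 9 + t ^ 3) * (1 - F ^ 2) + G * z ^ 2 := rfl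
  have ht2 : t ^ 2 ≤ 1 / 400 := by nlinarith
  have ht3 : t ^ 3 ≤ 1 / 20 * t ^ 2 := by nlinarith [sq_nonneg t]
  have ht2p : 0 < t ^ 2 := by positivity
  have ht3p : 0 < t ^ 3 := by positivity
  have hFa : |F| ≤ 1 := by
    rw [← sq_le_one_iff_abs_le_one]
    have := sq_nonneg x
    linarith
  have hF1 : F ≤ 1 := (abs_le.mp hFa).2
  have hF2 : -1 ≤ F := (abs_le.mp hFa).1
  have hG1 : G ≤ 1 / 1000 := by rw [hGdef]; linarith
  have hG2 : -b ≤ G := by rw [hGdef]; linarith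
  have hb2 : b ≤ 1 / 1000 := by linarith
  have hG2' : -(1 / 1000) ≤ G := by linarith
  have hGa : |G| ≤ 1 / 1000 := abs_le.mpr ⟨hG2', hG1⟩
  have hFG : |F * G| ≤ 1 / 1000 := by
    rw [abs_mul]
    calc |F| * |G| ≤ 1 * (1 / 1000) := mul_le_mul hFa hGa (abs_nonneg _) (by norm_num)
      _ = 1 / 1000 := one_mul _
  have hFG1 := (abs_le.mp hFG).1
  have hFG2 := (abs_le.mp hFG).2
  have hGsq : G ^ 2 ≤ 1 / 1000 := by
    have h1 : G ^ 2 ≤ (1 / 1000) ^ 2 := sq_le_sq' hG2' hG1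
    norm_num at h1
    linarith
  have hGsq0 := sq_nonneg G
  have hFG3 : 2 * F * G = 2 * (F * G) := by ring
  have hD1 : 99 / 100 ≤ D := by rw [hDdef, hFG3]; linarith
  have hD2 : D ≤ 101 / 100 := by rw [hDdef, hFG3]; linarith
  set s := √D with hs
  have hs0 : 0 < s := Real.sqrt_pos.mpr hD
  have hs1 : 99 / 100 ≤ s := by
    rw [hs]
    refine Real.le_sqrt_of_sq_le ?_
    norm_num
    linarith
  -- x^2
  have hx2 : 1 - F ^ 2 = x ^ 2 := by linarith
  have hx1 : x ≤ 1 := by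
    have h1 : x ^ 2 ≤ 1 := by linarith [sq_nonneg F]
    exact (abs_le.mp ((sq_le_one_iff_abs_le_one x).mp h1)).2
  -- lower bound for A
  have hzle : z ^ 2 ≤ 2 * m ^ 2 + t ^ 4 / 50 := by
    have h1 : z = m - (t ^ 2 / 15 + t ^ 3 / 2) := by rw [hzdef, hFdef, hGdef]; ring
    have h2 : 0 ≤ t ^ 2 / 15 + t ^ 3 / 2 := by positivity
    have h3 : t ^ 2 / 15 + t ^ 3 / 2 ≤ t ^ 2 / 10 := by linarith
    have h4 : (t ^ 2 / 15 + t ^ 3 / 2) ^ 2 ≤ (t ^ 2 / 10) ^ 2 := pow_le_pow_left₀ h2 h3 2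
    have h5 : z ^ 2 ≤ 2 * m ^ 2 + 2 * (t ^ 2 / 15 + t ^ 3 / 2) ^ 2 := by
      rw [h1]
      have h6 := sq_nonneg (m + (t ^ 2 / 15 + t ^ 3 / 2))
      have h7 : 2 * m ^ 2 + 2 * (t ^ 2 / 15 + t ^ 3 / 2) ^ 2 - (m - (t ^ 2 / 15 + t ^ 3 / 2)) ^ 2
        = (m + (t ^ 2 / 15 + t ^ 3 / 2)) ^ 2 := by ring
      linarith
    have h8 : 2 * (t ^ 2 / 10) ^ 2 = t ^ 4 / 50 := by ring
    linarith
  have hAle : t ^ 2 / 9 * x ^ 2 - b * (2 * m ^ 2 + t ^ 4 / 50) ≤ A := by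
    rw [hAdef, hx2]
    have h1 : -b * z ^ 2 ≤ G * z ^ 2 := mul_le_mul_of_nonneg_right hG2 (sq_nonneg _)
    have h2 : b * z ^ 2 ≤ b * (2 * m ^ 2 + t ^ 4 / 50) := mul_le_mul_of_nonneg_left hzle hb.le
    have h3 : 0 ≤ t ^ 3 * x ^ 2 := by positivity
    have h4 : (t ^ 2 / 9 + t ^ 3) * x ^ 2 = t ^ 2 / 9 * x ^ 2 + t ^ 3 * x ^ 2 := by ring
    have h5 : -b * z ^ 2 = -(b * z ^ 2) := by ring
    linarith
  -- b and t m^2 in terms of t0
  have hbt0 : b ≤ 700 * t0 := by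
    have h1 : b ^ 3 ≤ (700 * t0) ^ 3 := by
      have h2 : b ^ 3 ≤ 2 * 440 ^ 3 * a := by
        rw [div_le_iff₀ (by norm_num)] at halo
        linarith
      have h3 : 0 < t0 ^ 3 := by positivity
      calc b ^ 3 ≤ 2 * 440 ^ 3 * (2 * t0 ^ 3) := by linarith
        _ ≤ (700 * t0) ^ 3 := by
          rw [mul_pow]; linarith
    exact le_of_pow_le_pow_left₀ (by norm_num) (by positivity) h1
  have htm : t * m ^ 2 ≤ 3 / 2 * t0 := by
    have h1 : (t * m ^ 2) ^ 3 ≤ (3 / 2 * t0) ^ 3 := by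
      have h2 : (t * m ^ 2) ^ 3 = a * m ^ 5 := by rw [← hma]; ring
      have h3 : m ^ 5 ≤ (1 + b) ^ 5 := pow_le_pow_left₀ hm.le hm1 5
      have h4 : (1 + b) ^ 5 ≤ (1001 / 1000) ^ 5 := pow_le_pow_left₀ (by positivity) (by linarith) 5
      have h5 : m ^ 5 ≤ 3 / 2 := by norm_num at h4; linarith
      have h6 : 0 < m ^ 5 := by positivity
      have h7 : 0 < a := by rw [← hma]; positivity
      have h8 : 0 < t0 ^ 3 := by positivity
      rw [h2]
      calc a * m ^ 5 ≤ (2 * t0 ^ 3) * (3 / 2) := mul_le_mul ha2 h5 h6.le (by positivity)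
        _ ≤ (3 / 2 * t0) ^ 3 := by
          rw [mul_pow]; linarith
    exact le_of_pow_le_pow_left₀ (by norm_num) (by positivity) h1
  have hmain : b * (t * m ^ 2) ≤ 1050 * t0 ^ 2 := by
    calc b * (t * m ^ 2) ≤ (700 * t0) * (3 / 2 * t0) :=
          mul_le_mul hbt0 htm (by positivity) (by positivity)
      _ = 1050 * t0 ^ 2 := by ring
  have ht02 : 0 < t0 ^ 2 := by positivity
  -- reduction to a polynomial inequality
  have hsuff : t ^ 3 * x / 10 * D - 9700 * t0 ^ 2 ≤ 3 * t * A := by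
    have hbt4 : 3 * t * (b * (t ^ 4 / 50)) ≤ t ^ 3 / 1000 := by
      have h1 : t ^ 4 ≤ t ^ 2 := pow_le_pow_of_le_one ht.le (by linarith) (by norm_num)
      have h2 : b * t ^ 4 ≤ 1 / 1000 * t ^ 2 := mul_le_mul hb2 h1 (by positivity) (by norm_num)
      have h3 : 3 * t * (b * (t ^ 4 / 50)) = 3 / 50 * t * (b * t ^ 4) := by ring
      have h4 : 3 / 50 * t * (b * t ^ 4) ≤ 3 / 50 * t * (1 / 1000 * t ^ 2) :=
        mul_le_mul_of_nonneg_left h2 (by positivity)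
      have h5 : 3 / 50 * t * (1 / 1000 * t ^ 2) = 3 / 50000 * t ^ 3 := by ring
      linarith
    have hAl : 3 * t * (t ^ 2 / 9 * x ^ 2 - b * (2 * m ^ 2 + t ^ 4 / 50)) ≤ 3 * t * A :=
      mul_le_mul_of_nonneg_left hAle (by positivity)
    have hexp : 3 * t * (t ^ 2 / 9 * x ^ 2 - b * (2 * m ^ 2 + t ^ 4 / 50))
        = t ^ 3 * x ^ 2 / 3 - 6 * (b * (t * m ^ 2)) - 3 * t * (b * (t ^ 4 / 50)) := by ring
    rw [hexp] at hAl
    rcases le_or_gt (1 / 2) x with hxc | hxc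
    · have h1 : t ^ 3 * x / 10 * D ≤ t ^ 3 * x * (101 / 1000) := by
        have h2 : 0 ≤ t ^ 3 * x / 10 := by positivity
        have h3 := mul_le_mul_of_nonneg_left hD2 h2
        linarith
      have h2 : t ^ 3 * x * (101 / 1000) + t ^ 3 / 1000 ≤ t ^ 3 * x ^ 2 / 3 := by
        have h3 : x * (101 / 1000) + 1 / 1000 ≤ x ^ 2 / 3 := by
          have h4 : x * (1 / 2) ≤ x * x := mul_le_mul_of_nonneg_left hxc hx
          have h5 : x * x = x ^ 2 := by ring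
          linarith
        have h4 := mul_le_mul_of_nonneg_left h3 ht3p.le
        have h5 : t ^ 3 * (x * (101 / 1000) + 1 / 1000) = t ^ 3 * x * (101 / 1000) + t ^ 3 / 1000 := by ring
        have h6 : t ^ 3 * (x ^ 2 / 3) = t ^ 3 * x ^ 2 / 3 := by ring
        linarith
      linarith
    · have hF3 : 3 / 4 < F ^ 2 := by
        have h1 : x ^ 2 < (1 / 2) ^ 2 := pow_lt_pow_left₀ hxc hx (by norm_num)
        norm_num at h1
        linarith
      have hF4 : 4 / 5 < F := by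
        have h1 : -b ≤ F := by rw [hFdef]; linarith
        by_contra hcon
        push Not at hcon
        have : F ^ 2 ≤ (4 / 5) ^ 2 := by
          apply sq_le_sq'
          · linarith
          · exact hcon
        norm_num at this
        linarith
      have hm3 : 3 / 4 ≤ m := by
        rw [hFdef] at hF4; linarith
      have ht3a : t ^ 3 ≤ 8 / 3 * t0 ^ 3 := by
        have : 3 / 4 * t ^ 3 ≤ m * t ^ 3 := mul_le_mul_of_nonneg_right hm3 ht3p.le
        rw [hma] at this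
        linarith
      have htt0 : t ≤ 3 / 2 * t0 := by
        have h1 : t ^ 3 ≤ (3 / 2 * t0) ^ 3 := by
          have h8 : 0 < t0 ^ 3 := by positivity
          rw [mul_pow]; linarith
        exact le_of_pow_le_pow_left₀ (by norm_num) (by positivity) h1
      have ht2t0 : t ^ 2 ≤ 9 / 4 * t0 ^ 2 := by
        have h1 := pow_le_pow_left₀ ht.le htt0 2
        rw [mul_pow] at h1
        norm_num at h1
        linarith
      have ht3t0 : t ^ 3 ≤ t0 ^ 2 := by linarith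
      have h1 : t ^ 3 * x / 10 * D ≤ t ^ 3 := by
        have h2 : x * D ≤ 1 / 2 * (101 / 100) := mul_le_mul hxc.le hD2 hD.le (by norm_num)
        have h3 := mul_le_mul_of_nonneg_left h2 ht3p.le
        have h4 : t ^ 3 * (x * D) = t ^ 3 * x * D := by ring
        have h5 : t ^ 3 * x / 10 * D = t ^ 3 * x * D / 10 := by ring
        rw [h5]
        linarith
      have h3 : 0 ≤ t ^ 3 * x ^ 2 / 3 := by positivity
      linarith
  rw [le_div_iff₀ (by positivity)]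
  have e1 : (t ^ 3 * x / s / 10 - 10 ^ 4 * t0 ^ 2) * (D * s)
      = t ^ 3 * x / 10 * D - 10 ^ 4 * t0 ^ 2 * (D * s) := by
    field_simp
  rw [e1]
  have h1 : 99 / 100 * (99 / 100) ≤ D * s := mul_le_mul hD1 hs1 (by norm_num) hD.le
  have h2 := mul_le_mul_of_nonneg_left h1 (show 0 ≤ 10 ^ 4 * t0 ^ 2 by positivity)
  linarith

end Inner

open Inner in
theorem stmtInner (h1 : BasicStmt) (h2 : TipStmt) (h3 : FrameStmt) (h4 : CurvStmt) (h5 : OmStmt) :
    InnerStmt := by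
  intro a b h hP hC p hp htp
  obtain ⟨a0, t0, b3, b4, b5, b6, b7, b8, b9, b10, b11, b12, b13, b14⟩ := h1 a b h hP hC p
  obtain ⟨-, tip0, -⟩ := h1 a b h hP hC 0
  obtain ⟨-, -, -, ha, -⟩ := h2 a b h hP hC
  have hD := (h3 a b h hP hC p).1
  have hv : (flowOf (stat h)).v 0 p = pv (stat h) 0 p := rfl
  rw [hv, h4 a b h hP hC p, (h5 a b h hP hC p).1]
  have hx : 0 ≤ xx h p := by
    unfold xx
    have := sin_nonneg_of_nonneg_of_le_pi hp.1 hp.2
    positivity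
  refine core a b (a / tt h p ^ 3) (tt h p) (tt h 0) (xx h p) hP.bpos hP.ble hP.alo t0 htp tip0 ha b11
    b12 ?_ hx b9 hD
  field_simp

end Pool.Agent.Lib.MP_c60e08_gt.Ini
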