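import Pool.Agent.Lib.MP_c60e08_gt.InitSpec

/-!
MP_c60e08_gt, INIT part: simple conditions on the initial curve.
-/

set_option autoImplicit false

namespace Pool.Agent.Lib.MP_c60e08_gt.Ini

open Real Set Pool.Agent.Lib.MP_c60e08_gt.Lm

namespace MiscAux

theorem X_eq (h : ℝ → ℝ) (p : ℝ) : (flowOf (stat h)).X 0 p = exp (h p) * sin p := by
  simp only [flowOf, stat, iteratedDeriv_zero]

theorem Y_eq (h : ℝ → ℝ) (p : ℝ) : (flowOf (stat h)).Y 0 p = 1 - exp (h p) * cos p := by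
  simp only [flowOf, stat, iteratedDeriv_zero]

theorem th_eq (h : ℝ → ℝ) (p : ℝ) : (flowOf (stat h)).th 0 p = p - arctan (deriv h p) := by
  simp only [flowOf, stat, iteratedDeriv_one]

theorem v_eq (h : ℝ → ℝ) (p : ℝ) : (flowOf (stat h)).v 0 p = pv (stat h) 0 p := rfl

theorem G_bounds {b t : ℝ} (hb : 0 < b) (hb' : b ≤ 1 / 10 ^ 6) (ht : 0 < t) (ht' : t < 6 / 5) :
    -1 ≤ iG b t ∧ iG b t ≤ 2 := by
  have h2 : t ^ 2 ≤ (6 / 5) ^ 2 := by gcongr
  have h3 : t ^ 3 ≤ (6 / 5) ^ 3 := by gcongr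
  have h2' : 0 < t ^ 2 := by positivity
  have h3' : 0 < t ^ 3 := by positivity
  unfold iG
  constructor
  · norm_num at hb' ⊢
    linarith
  · norm_num at h2 h3 hb' ⊢
    linarith

theorem F_bounds {x F : ℝ} (h : x ^ 2 + F ^ 2 = 1) : -1 ≤ F ∧ F ≤ 1 := by
  constructor
  · nlinarith [sq_nonneg x]
  · nlinarith [sq_nonneg x]

theorem D_le {F G : ℝ} (hF : -1 ≤ F) (hF' : F ≤ 1) (hG : -1 ≤ G) (hG' : G ≤ 2) :
    1 - 2 * F * G + G ^ 2 ≤ 9 := by
  nlinarith [mul_nonneg (sub_nonneg.mpr hF') (sub_nonneg.mpr hG'),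
    mul_nonneg (sub_nonneg.mpr hF') (sub_nonneg.mpr hG),
    mul_nonneg (sub_nonneg.mpr hF) (sub_nonneg.mpr hG'),
    mul_nonneg (sub_nonneg.mpr hF) (sub_nonneg.mpr hG),
    mul_nonneg (sub_nonneg.mpr hG) (sub_nonneg.mpr hG')]

/-- the slope is at most one -/
theorem slope_le {t κ E c s u : ℝ} (ht : 0 < t) (hκ : -(1 / 4) ≤ κ) (hκ' : κ ≤ 1 / 4)
    (hE : 1 / 2 < E) (hu : t ^ 6 = (E - c) ^ 2 + s ^ 2)
    (h : u * (t ^ 3 * E ^ 2 + κ * (E ^ 2 - E * c)) = -(κ * (E * s))) : u ^ 2 ≤ 1 := by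
  have hT : 0 < t ^ 3 := by positivity
  set T := t ^ 3 with hTdef
  have hu' : T ^ 2 = (E - c) ^ 2 + s ^ 2 := by
    rw [← hu, hTdef]
    ring
  have hE0 : 0 < E := by linarith
  have h1 : |E - c| ≤ T := by
    apply abs_le_of_sq_le_sq _ hT.le
    nlinarith [sq_nonneg s]
  have h2 : |s| ≤ T := by
    apply abs_le_of_sq_le_sq _ hT.le
    nlinarith [sq_nonneg (E - c)]
  have hk : |κ| ≤ 1 / 4 := abs_le.mpr ⟨hκ, hκ'⟩
  have h3 : |κ * (E - c)| ≤ T / 4 := by
    rw [abs_mul]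
    calc |κ| * |E - c| ≤ 1 / 4 * T := mul_le_mul hk h1 (abs_nonneg _) (by norm_num)
      _ = T / 4 := by ring
  have h4 : |κ * s| ≤ T / 4 := by
    rw [abs_mul]
    calc |κ| * |s| ≤ 1 / 4 * T := mul_le_mul hk h2 (abs_nonneg _) (by norm_num)
      _ = T / 4 := by ring
  have h5 : u * (T * E + κ * (E - c)) = -(κ * s) := by
    have : E * (u * (T * E + κ * (E - c))) = E * (-(κ * s)) := by linarith
    exact mul_left_cancel₀ hE0.ne' this
  have h6 : T / 4 ≤ T * E + κ * (E - c) := by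
    have := (abs_le.mp h3).1
    nlinarith
  have h7 : |u| ≤ 1 := by
    have h8 : |u| * (T * E + κ * (E - c)) = |κ * s| := by
      rw [← abs_neg (κ * s), ← h5, abs_mul, abs_of_nonneg (a := T * E + κ * (E - c)) (by linarith)]
    by_contra hcon
    push Not at hcon
    have h9 : T * E + κ * (E - c) < |u| * (T * E + κ * (E - c)) := by
      nlinarith
    linarith
  have := sq_le_sq' (by linarith [(abs_le.mp h7).1]) (abs_le.mp h7).2
  linarith

theorem half_lt {E : ℝ} (h0 : 0 < E) (h : 1 / 2 ≤ E ^ 2) : 1 / 2 < E := by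
  nlinarith

theorem third_le {X s : ℝ} (hX : 0 ≤ X) (hs : s ≤ 3) : 1 / 3 * X * s ≤ X := by
  nlinarith

theorem neg_aux {H G q : ℝ} (hG : G < 0) (hq : 0 < q) : H * (1 - 1 ^ 2) + G * q < 0 := by
  have := mul_neg_of_neg_of_pos hG hq
  linarith

theorem pos_aux {H G q : ℝ} (hG : 1 < G) (hq : 0 < q) : 0 < H * (1 - 1 ^ 2) + G * q := by
  have := mul_pos (lt_trans one_pos hG) hq
  linarith

theorem circ (E p : ℝ) : (E * sin p) ^ 2 + (1 - E * cos p - 1) ^ 2 = E ^ 2 := by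
  linear_combination E ^ 2 * Real.sin_sq_add_cos_sq p

theorem final_aux {A D z t : ℝ} (hD : 0 < D) (hz : -3 ≤ z) (hA : t ^ 2 / 9 * D ≤ A) :
    0 ≤ 3 * A + t ^ 2 * z * D / 20 := by
  have h7 : 0 ≤ t ^ 2 * D := by positivity
  nlinarith

theorem sqrt_aux {E q : ℝ} (h0 : 0 < E) (h : 1 / 2 ≤ E ^ 2) (hq0 : 0 < q) (hq : q ^ 2 ≤ 2) :
    1 / 2 * q ≤ E := by
  by_contra hcon
  push Not at hcon
  nlinarith

end MiscAux

open MiscAux

/-- Simple conditions on the initial curve. -/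
theorem stmtMisc (h1 : BasicStmt) (h2 : TipStmt) (h3 : SlopeStmt) (h4 : FrameStmt)
    (h5 : CurvStmt) (h6 : OmStmt) : MiscStmt := by
  intro a b h hP hC
  obtain ⟨t1, t2, t3, t4, t5, t6, t7, t8⟩ := h2 a b h hP hC
  refine ⟨?_, ?_, ?_, ?_, ?_, ?_, ?_⟩
  · intro p hp
    obtain ⟨b1, b2, b3, b4, b5, b6, b7, b8, b9, b10, b11, b12, b13, b14⟩ := h1 a b h hP hC p
    rw [(h6 a b h hP hC p).1, X_eq, b8]
    have hD := (h4 a b h hP hC p).1
    obtain ⟨hF, hF'⟩ := F_bounds b9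
    obtain ⟨hG, hG'⟩ := G_bounds hP.bpos hP.ble b2 b10
    have hD9 : iD (a / tt h p ^ 3) b (tt h p) ≤ 9 := D_le hF hF' hG hG'
    have hs : √(iD (a / tt h p ^ 3) b (tt h p)) ≤ 3 := by
      rw [Real.sqrt_le_left (by norm_num)]
      linarith
    have hs0 : 0 < √(iD (a / tt h p ^ 3) b (tt h p)) := Real.sqrt_pos.mpr hD
    have hX : 0 ≤ tt h p ^ 3 * xx h p := by
      rw [← b8]
      exact mul_nonneg (exp_pos _).le (Real.sin_nonneg_of_mem_Icc hp)
    rw [le_div_iff₀ hs0]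
    exact third_le hX hs
  · obtain ⟨b1, b2, b3, b4, b5, b6, b7, b8, b9, b10, b11, b12, b13, b14⟩ := h1 a b h hP hC 0
    rw [v_eq, h5 a b h hP hC 0]
    have hD := (h4 a b h hP hC 0).1
    have hA : iA (a / tt h 0 ^ 3) b (tt h 0) < 0 := by
      unfold iA iz
      rw [t5]
      have : 0 < (1 - iG b (tt h 0)) ^ 2 := by
        apply pow_pos
        linarith
      exact neg_aux t6 this
    apply div_neg_of_neg_of_pos
    · exact mul_neg_of_pos_of_neg (by positivity) hA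
    · exact mul_pos hD (Real.sqrt_pos.mpr hD)
  · obtain ⟨b1, b2, b3, b4, b5, b6, b7, b8, b9, b10, b11, b12, b13, b14⟩ := h1 a b h hP hC π
    rw [v_eq, h5 a b h hP hC π]
    have hD := (h4 a b h hP hC π).1
    have hA : 0 < iA (a / tt h π ^ 3) b (tt h π) := by
      unfold iA iz
      rw [t7]
      have : 0 < (1 - iG b (tt h π)) ^ 2 := by
        have : (1 - iG b (tt h π)) ≠ 0 := by linarith
        positivity
      exact pos_aux t8 this
    apply div_pos
    · positivity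
    · exact mul_pos hD (Real.sqrt_pos.mpr hD)
  · intro p _
    obtain ⟨b1, b2, b3, b4, b5, b6, b7, b8, b9, b10, b11, b12, b13, b14⟩ := h1 a b h hP hC p
    rw [X_eq, Y_eq]
    have he : exp (2 * h p) = exp (h p) ^ 2 := by rw [← Real.exp_nat_mul]; norm_num
    rw [he] at b13
    rw [circ]
    linarith
  · intro p _
    obtain ⟨b1, b2, b3, b4, b5, b6, b7, b8, b9, b10, b11, b12, b13, b14⟩ := h1 a b h hP hC p
    rw [X_eq, Y_eq]
    have he : exp (2 * h p) = exp (h p) ^ 2 := by rw [← Real.exp_nat_mul]; norm_num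
    rw [he] at b14
    rw [circ]
    exact b14
  · intro p _
    obtain ⟨b1, b2, b3, b4, b5, b6, b7, b8, b9, b10, b11, b12, b13, b14⟩ := h1 a b h hP hC p
    have he : exp (2 * h p) = exp (h p) ^ 2 := by rw [← Real.exp_nat_mul]; norm_num
    have hs := (h3 a b h hP hC p).1
    rw [he] at hs b13
    have hE0 := exp_pos (h p)
    have hE : 1 / 2 < exp (h p) := half_lt hE0 b13
    have ht2 : tt h p ^ 2 ≤ (6 / 5) ^ 2 := by gcongr
    have ht2' : 0 < tt h p ^ 2 := by positivity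
    have hb := hP.ble
    have hb0 := hP.bpos
    have hu : deriv h p ^ 2 ≤ 1 := by
      refine slope_le (t := tt h p) (κ := tt h p ^ 2 / 6 - b) (E := exp (h p)) (c := cos p)
        (s := sin p) b2 ?_ ?_ hE ?_ hs
      · norm_num at hb ⊢
        linarith
      · norm_num at hb ht2 ⊢
        linarith
      · rw [b3, uu, he]
        linear_combination -(Real.sin_sq_add_cos_sq p)
    rw [X_eq, Y_eq, th_eq]
    have e1 : exp (h p) * sin p * sin (p - arctan (deriv h p))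
        + (1 - (1 - exp (h p) * cos p)) * cos (p - arctan (deriv h p))
        = exp (h p) * cos (arctan (deriv h p)) := by
      have hθ : cos (arctan (deriv h p)) = cos p * cos (p - arctan (deriv h p))
          + sin p * sin (p - arctan (deriv h p)) := by
        rw [← Real.cos_sub]
        congr 1
        ring
      rw [hθ]
      ring
    rw [e1, Real.cos_arctan]
    have hq0 : 0 < √(1 + deriv h p ^ 2) := Real.sqrt_pos.mpr (by positivity)
    rw [mul_one_div, le_div_iff₀ hq0]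
    have hq : √(1 + deriv h p ^ 2) ^ 2 ≤ 2 := by
      rw [Real.sq_sqrt (by positivity)]
      linarith
    exact sqrt_aux hE0 b13 hq0 hq
  · intro p _ ht
    obtain ⟨b1, b2, b3, b4, b5, b6, b7, b8, b9, b10, b11, b12, b13, b14⟩ := h1 a b h hP hC p
    have hD := (h4 a b h hP hC p).1
    rw [v_eq, h5 a b h hP hC p, (h6 a b h hP hC p).2.1]
    obtain ⟨hF, hF'⟩ := F_bounds b9
    obtain ⟨hG, hG'⟩ := G_bounds hP.bpos hP.ble b2 b10
    have hs0 : 0 < √(iD (a / tt h p ^ 3) b (tt h p)) := Real.sqrt_pos.mpr hD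
    have hDe : iD (a / tt h p ^ 3) b (tt h p)
        = (1 - iF (a / tt h p ^ 3) b (tt h p) ^ 2) + iz (a / tt h p ^ 3) b (tt h p) ^ 2 := by
      unfold iD iz
      ring
    have hb := hP.ble
    have hG9 : tt h p ^ 2 / 9 ≤ iG b (tt h p) := by
      unfold iG
      have : 0 < tt h p ^ 3 := by positivity
      norm_num at hb ht ⊢
      linarith
    have hH9 : tt h p ^ 2 / 9 ≤ iH (tt h p) := by
      unfold iH
      have : 0 < tt h p ^ 3 := by positivity
      linarith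
    have hx0 : 0 ≤ 1 - iF (a / tt h p ^ 3) b (tt h p) ^ 2 := by
      rw [← b9]
      have := sq_nonneg (xx h p)
      linarith
    have hz0 : 0 ≤ iz (a / tt h p ^ 3) b (tt h p) ^ 2 := sq_nonneg _
    have hA : tt h p ^ 2 / 9 * iD (a / tt h p ^ 3) b (tt h p) ≤ iA (a / tt h p ^ 3) b (tt h p) := by
      rw [hDe, iA, mul_add]
      exact add_le_add (mul_le_mul_of_nonneg_right hH9 hx0) (mul_le_mul_of_nonneg_right hG9 hz0)
    have hz3 : -3 ≤ iz (a / tt h p ^ 3) b (tt h p) := by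
      unfold iz
      linarith
    set D := iD (a / tt h p ^ 3) b (tt h p)
    set A := iA (a / tt h p ^ 3) b (tt h p)
    set z := iz (a / tt h p ^ 3) b (tt h p)
    set t := tt h p
    have e : 3 * t * A / (D * √D) + t ^ 3 * z / √D / 20
        = t * (3 * A + t ^ 2 * z * D / 20) / (D * √D) := by
      field_simp
    rw [e]
    apply div_nonneg
    · exact mul_nonneg b2.le (final_aux hD hz3 hA)
    · positivity

end Pool.Agent.Lib.MP_c60e08_gt.Ini
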