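import Pool.Agent.Lib.MP_c60e08_gt.InitSpec

set_option autoImplicit false

namespace Pool.Agent.Lib.MP_c60e08_gt.Ini

open Real Set Pool.Agent.Lib.MP_c60e08_gt.Lm

namespace OmAux

theorem step1 {t L x A B z K : ℝ} (ht : t ≠ 0) (hL : L ≠ 0) :
    3 * x / (t ^ 2 * (L ^ 2) ^ 2) * (A / 3 + B - 3 * A * z * K / L ^ 2) * (t ^ 3 * x / L)
      - 3 * t * A / (L ^ 2 * L) * (1 + 3 * t * A / (L ^ 2 * L) / (3 * t ^ 4) * (t ^ 3 * z / L))
    = 3 * t * (x ^ 2 * (L ^ 2 * A / 3 + L ^ 2 * B - 3 * A * z * K) - A * (L ^ 2) ^ 2 - A ^ 2 * z)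
      / ((L ^ 2) ^ 3 * L) := by
  field_simp
  ring

theorem step1' {t L x A B z K : ℝ} (ht : t ≠ 0) (hL : L ≠ 0) :
    3 * x / (t ^ 2 * (L ^ 2) ^ 2) * (A / 3 + B - 3 * A * z * K / L ^ 2) * (t ^ 3 * z / L)
      + 3 * t * A / (L ^ 2 * L) * (3 * t * A / (L ^ 2 * L) / (3 * t ^ 4) * (t ^ 3 * x / L))
    = 3 * t * x * (z * (L ^ 2 * A / 3 + L ^ 2 * B - 3 * A * z * K) + A ^ 2)
      / ((L ^ 2) ^ 3 * L) := by
  field_simp

theorem poly1 {x F G H B : ℝ} (hxF : x ^ 2 + F ^ 2 = 1) :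
    x ^ 2 * ((1 - 2 * F * G + G ^ 2) * (H * (1 - F ^ 2) + G * (F - G) ^ 2) / 3
        + (1 - 2 * F * G + G ^ 2) * B
        - 3 * (H * (1 - F ^ 2) + G * (F - G) ^ 2) * (F - G) * (G - H))
      - (H * (1 - F ^ 2) + G * (F - G) ^ 2) * (1 - 2 * F * G + G ^ 2) ^ 2
      - (H * (1 - F ^ 2) + G * (F - G) ^ 2) ^ 2 * (F - G)
    = (1 - F ^ 2) * ((1 - 2 * F * G + G ^ 2) * B
        - 2 * (F - G) * (G - H) * (H * (1 - F ^ 2) + G * (F - G) ^ 2)
        - 2 / 3 * (1 - 2 * F * G + G ^ 2) * (H * (1 - F ^ 2) + G * (F - G) ^ 2))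
      - (1 - 2 * F * G + G ^ 2) * (H * (1 - F ^ 2) + G * (F - G) ^ 2) * F * (F - G) := by
  have hx2 : x ^ 2 = 1 - F ^ 2 := by linarith
  rw [hx2]
  ring

theorem poly2 {F G H B : ℝ} :
    (F - G) * ((1 - 2 * F * G + G ^ 2) * (H * (1 - F ^ 2) + G * (F - G) ^ 2) / 3
        + (1 - 2 * F * G + G ^ 2) * B
        - 3 * (H * (1 - F ^ 2) + G * (F - G) ^ 2) * (F - G) * (G - H))
      + (H * (1 - F ^ 2) + G * (F - G) ^ 2) ^ 2
    = (F - G) * ((1 - 2 * F * G + G ^ 2) * B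
        - 2 * (F - G) * (G - H) * (H * (1 - F ^ 2) + G * (F - G) ^ 2)
        - 2 / 3 * (1 - 2 * F * G + G ^ 2) * (H * (1 - F ^ 2) + G * (F - G) ^ 2))
      + (1 - 2 * F * G + G ^ 2) * (H * (1 - F ^ 2) + G * (F - G) ^ 2) * ((F - G) + H) := by
  ring

end OmAux

open OmAux in
theorem stmtOm (h1 : BasicStmt) (h2 : FrameStmt) (h3 : CurvStmt) (h4 : V1Stmt) : OmStmt := by
  intro a b h hP hC p
  obtain ⟨ha0, ht, ht6, -, -, hfS, hY, hX, hxF, -, -, -, -, -⟩ := h1 a b h hP hC p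
  obtain ⟨hD0, hs, hc⟩ := h2 a b h hP hC p
  have hv := h3 a b h hP hC p
  have hv1 := h4 a b h hP hC p
  have hXd : (flowOf (stat h)).X 0 p = exp (h p) * sin p := rfl
  have hYd : (flowOf (stat h)).Y 0 p = 1 - exp (h p) * cos p := rfl
  have hth : (flowOf (stat h)).th 0 p = thh h p := by
    change p - arctan (iteratedDeriv 1 h p) = p - arctan (deriv h p)
    rw [iteratedDeriv_one]
  have hvd : (flowOf (stat h)).v 0 p = pv (stat h) 0 p := rfl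
  have hv1d : (flowOf (stat h)).v1 0 p = pD (stat h) (pv (stat h)) 0 p := rfl
  rw [hY] at hYd
  rw [hX] at hXd
  rw [hv] at hvd
  rw [hv1] at hv1d
  set t := tt h p with htd
  set x := xx h p with hxd
  set L := √(iD (a / t ^ 3) b t) with hL
  have hL0 : 0 < L := Real.sqrt_pos.mpr hD0
  have hL2 : L ^ 2 = iD (a / t ^ 3) b t := Real.sq_sqrt hD0.le
  have hudef : (flowOf (stat h)).u 0 p = t ^ 6 := by
    unfold FlowData.u
    rw [hXd, hYd]
    linear_combination t ^ 6 * hxF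
  have hf : (flowOf (stat h)).f 0 p = 3 * t ^ 4 := by
    unfold FlowData.f
    rw [hudef, ht6, hfS]
  have hs' : sin (thh h p) = iG b t * x / L := by
    rw [eq_div_iff hL0.ne', ← hs]
    ring
  have hc' : cos (thh h p) = (1 - iF (a / t ^ 3) b t * iG b t) / L := by
    rw [eq_div_iff hL0.ne', ← hc]
    ring
  have hr : (flowOf (stat h)).r 0 p = t ^ 3 * x / L := by
    unfold FlowData.r
    rw [hXd, hYd, hth, hs', hc']
    field_simp
    ring
  have hze : (flowOf (stat h)).ze 0 p = t ^ 3 * iz (a / t ^ 3) b t / L := by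
    unfold FlowData.ze
    rw [hXd, hYd, hth, hs', hc']
    have e : iz (a / t ^ 3) b t = iF (a / t ^ 3) b t - iG b t := rfl
    rw [e]
    have e2 : -(t ^ 3 * x) * (iG b t * x / L) + t ^ 3 * iF (a / t ^ 3) b t *
        ((1 - iF (a / t ^ 3) b t * iG b t) / L) =
        t ^ 3 * (iF (a / t ^ 3) b t - iG b t * (x ^ 2 + iF (a / t ^ 3) b t ^ 2)) / L := by
      ring
    rw [e2, hxF]
    ring
  refine ⟨hr, hze, ?_, ?_⟩
  · unfold FlowData.om1 FlowData.kap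
    rw [hr, hze, hvd, hv1d, hf, ← hL2, step1 ht.ne' hL0.ne', hL2]
    have e := poly1 (x := x) (F := iF (a / t ^ 3) b t) (G := iG b t) (H := iH t)
      (B := iDA (a / t ^ 3) b t) hxF
    congr 2
  · unfold FlowData.om2 FlowData.kap
    rw [hr, hze, hvd, hv1d, hf, ← hL2, step1' ht.ne' hL0.ne', hL2]
    have e := poly2 (F := iF (a / t ^ 3) b t) (G := iG b t) (H := iH t)
      (B := iDA (a / t ^ 3) b t)
    congr 2

end Pool.Agent.Lib.MP_c60e08_gt.Ini
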