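import Pool.Agent.Lib.MP_c60e08_gt.InitSpec

/-!
MP_c60e08_gt, INIT part: explicit factorisation of `W1` and `W2` (generated by computer algebra).
-/

set_option autoImplicit false

namespace Pool.Agent.Lib.MP_c60e08_gt.Ini

open Real Set Pool.Agent.Lib.MP_c60e08_gt.Lm

namespace PolyAux

noncomputable def a1 (m b t : ℝ) : ℝ :=
  (1/3) + (-4/3) * m ^ 2 + (7/3) * m * b + (-41/3) * m ^ 3 * b + (10/3) * m ^ 5 * b
    + (-1) * b ^ 2 + (107/6) * m ^ 2 * b ^ 2 + (-68/3) * m ^ 4 * b ^ 2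
    + (-14/3) * m * b ^ 3 + (103/3) * m ^ 3 * b ^ 3 + (1) * b ^ 4
    + (-33/2) * m ^ 2 * b ^ 4 + (7/3) * m * b ^ 5 + (-1/3) * b ^ 6 + (-1/810) * m * t
    + (211/1620) * m ^ 3 * t + (-1/81) * m ^ 5 * t + (-7/675) * b * t
    + (-16/81) * m ^ 2 * b * t + (139/324) * m ^ 4 * b * t + (-178/2025) * m * b ^ 2 * t
    + (-113/135) * m ^ 3 * b ^ 2 * t + (14/675) * b ^ 3 * t
    + (577/2025) * m ^ 2 * b ^ 3 * t + (361/4050) * m * b ^ 4 * t + (-7/675) * b ^ 5 * t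
    + (-29/90) * m * t ^ 2 + (31/18) * m ^ 3 * t ^ 2 + (-1/9) * m ^ 5 * t ^ 2
    + (1/90) * b * t ^ 2 + (-152/45) * m ^ 2 * b * t ^ 2 + (50/9) * m ^ 4 * b * t ^ 2
    + (8/45) * m * b ^ 2 * t ^ 2 + (-337/30) * m ^ 3 * b ^ 2 * t ^ 2
    + (-1/45) * b ^ 3 * t ^ 2 + (149/30) * m ^ 2 * b ^ 3 * t ^ 2
    + (13/90) * m * b ^ 4 * t ^ 2 + (1/90) * b ^ 5 * t ^ 2 + (13/12150) * t ^ 3
    + (-5/3) * m * t ^ 3 + (131/24300) * m ^ 2 * t ^ 3 + (16/3) * m ^ 3 * t ^ 3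
    + (-41/1944) * m ^ 4 * t ^ 3 + (1/6) * b * t ^ 3 + (193/12150) * m * b * t ^ 3
    + (-35/3) * m ^ 2 * b * t ^ 3 + (293/4860) * m ^ 3 * b * t ^ 3
    + (50/3) * m ^ 4 * b * t ^ 3 + (-164/30375) * b ^ 2 * t ^ 3
    + (29/12) * m * b ^ 2 * t ^ 3 + (-7/2025) * m ^ 2 * b ^ 2 * t ^ 3
    + (-103/3) * m ^ 3 * b ^ 2 * t ^ 3 + (-1/3) * b ^ 3 * t ^ 3
    + (-1901/60750) * m * b ^ 3 * t ^ 3 + (49/3) * m ^ 2 * b ^ 3 * t ^ 3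
    + (263/60750) * b ^ 4 * t ^ 3 + (-3/4) * m * b ^ 4 * t ^ 3 + (1/6) * b ^ 5 * t ^ 3
    + (61/4050) * t ^ 4 + (499/3240) * m ^ 2 * t ^ 4 + (-11/27) * m ^ 4 * t ^ 4
    + (229/1350) * m * b * t ^ 4 + (379/324) * m ^ 3 * b * t ^ 4
    + (-269/4050) * b ^ 2 * t ^ 4 + (-163/675) * m ^ 2 * b ^ 2 * t ^ 4
    + (-179/450) * m * b ^ 3 * t ^ 4 + (104/2025) * b ^ 4 * t ^ 4 + (1/12) * t ^ 5
    + (-49/60750) * m * t ^ 5 + (52/45) * m ^ 2 * t ^ 5 + (-5/3888) * m ^ 3 * t ^ 5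
    + (-23/9) * m ^ 4 * t ^ 5 + (1/2250) * b * t ^ 5 + (11/18) * m * b * t ^ 5
    + (-53/24300) * m ^ 2 * b * t ^ 5 + (64/9) * m ^ 3 * b * t ^ 5
    + (-59/180) * b ^ 2 * t ^ 5 + (509/121500) * m * b ^ 2 * t ^ 5
    + (-9/5) * m ^ 2 * b ^ 2 * t ^ 5 + (-23/33750) * b ^ 3 * t ^ 5
    + (-337/180) * m * b ^ 3 * t ^ 5 + (11/45) * b ^ 4 * t ^ 5 + (1/6) * t ^ 6
    + (-191/12150) * m * t ^ 6 + (8/3) * m ^ 2 * t ^ 6 + (-311/9720) * m ^ 3 * t ^ 6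
    + (-16/3) * m ^ 4 * t ^ 6 + (1067/121500) * b * t ^ 6 + (3/4) * m * b * t ^ 6
    + (-1/24) * m ^ 2 * b * t ^ 6 + (14) * m ^ 3 * b * t ^ 6 + (-5/8) * b ^ 2 * t ^ 6
    + (1111/13500) * m * b ^ 2 * t ^ 6 + (-7/2) * m ^ 2 * b ^ 2 * t ^ 6
    + (-1571/121500) * b ^ 3 * t ^ 6 + (-13/4) * m * b ^ 3 * t ^ 6
    + (11/24) * b ^ 4 * t ^ 6 + (-1/101250) * t ^ 7 + (-3971/32400) * m * t ^ 7
    + (11/97200) * m ^ 2 * t ^ 7 + (-451/1620) * m ^ 3 * t ^ 7 + (113/1620) * b * t ^ 7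
    + (-23/97200) * m * b * t ^ 7 + (-61/180) * m ^ 2 * b * t ^ 7
    + (49/1012500) * b ^ 2 * t ^ 7 + (1709/2700) * m * b ^ 2 * t ^ 7
    + (-401/4050) * b ^ 3 * t ^ 7 + (-113/486000) * t ^ 8 + (-163/360) * m * t ^ 8
    + (119/38880) * m ^ 2 * t ^ 8 + (-46/45) * m ^ 3 * t ^ 8 + (23/90) * b * t ^ 8
    + (-191/32400) * m * b * t ^ 8 + (-61/45) * m ^ 2 * b * t ^ 8
    + (2827/2430000) * b ^ 2 * t ^ 8 + (803/360) * m * b ^ 2 * t ^ 8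
    + (-127/360) * b ^ 3 * t ^ 8 + (-1043/486000) * t ^ 9
    + (-1943987/2916000) * m * t ^ 9 + (139/4050) * m ^ 2 * t ^ 9
    + (-4/3) * m ^ 3 * t ^ 9 + (6454661/18225000) * b * t ^ 9
    + (-641/10800) * m * b * t ^ 9 + (-13/6) * m ^ 2 * b * t ^ 9
    + (929/81000) * b ^ 2 * t ^ 9 + (3) * m * b ^ 2 * t ^ 9 + (-23/48) * b ^ 3 * t ^ 9
    + (-587/64800) * t ^ 10 + (41/324000) * m * t ^ 10 + (3191/16200) * m ^ 2 * t ^ 10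
    + (-193/4860000) * b * t ^ 10 + (-9667/32400) * m * b * t ^ 10
    + (17/300) * b ^ 2 * t ^ 10 + (-265781/18225000) * t ^ 11
    + (2833/1944000) * m * t ^ 11 + (103/180) * m ^ 2 * t ^ 11
    + (-433/972000) * b * t ^ 11 + (-133/180) * m * b * t ^ 11
    + (197/1440) * b ^ 2 * t ^ 11 + (29/72900000) * t ^ 12 + (8239/972000) * m * t ^ 12
    + (2/3) * m ^ 2 * t ^ 12 + (-2467/972000) * b * t ^ 12 + (-17/24) * m * b * t ^ 12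
    + (1/8) * b ^ 2 * t ^ 12 + (23/4860000) * t ^ 13 + (67/2700) * m * t ^ 13
    + (-943/129600) * b * t ^ 13 + (557/19440000) * t ^ 14 + (7/240) * m * t ^ 14
    + (-1/120) * b * t ^ 14 + (341/3888000) * t ^ 15 + (7/64800) * t ^ 16

noncomputable def a2 (m b t : ℝ) : ℝ :=
  (8/3) + (-5/3) * m ^ 2 + (23/3) * m * b + (-4/3) * m ^ 3 * b + (-16/3) * b ^ 2
    + (19/3) * m ^ 2 * b ^ 2 + (-23/3) * m * b ^ 3 + (8/3) * b ^ 4 + (-2) * m * t ^ 2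
    + (4/9) * m ^ 3 * t ^ 2 + (91/45) * b * t ^ 2 + (-19/6) * m ^ 2 * b * t ^ 2
    + (209/45) * m * b ^ 2 * t ^ 2 + (-9/5) * b ^ 3 * t ^ 2

noncomputable def a3 (m _b _t : ℝ) : ℝ :=
  (-2/9) + (1/18) * m ^ 2

noncomputable def a4 (_m b _t : ℝ) : ℝ :=
  (-1/45) + (2/45) * b ^ 2 + (-1/45) * b ^ 4

noncomputable def g1 (m b t : ℝ) : ℝ :=
  (1/9) + (-1/18) * m ^ 2 + (2/9) * m * b + (-4/9) * m ^ 3 * b + (-2/9) * b ^ 2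
    + (83/90) * m ^ 2 * b ^ 2 + (-2/9) * m * b ^ 3 + (1/9) * b ^ 4 + (4/3) * t
    + (23/6) * m * b * t + (-10/3) * m ^ 3 * b * t + (-8/3) * b ^ 2 * t
    + (8) * m ^ 2 * b ^ 2 * t + (-23/6) * m * b ^ 3 * t + (4/3) * b ^ 4 * t
    + (-28/405) * m * t ^ 2 + (1/81) * m ^ 3 * t ^ 2 + (29/405) * b * t ^ 2
    + (-233/1620) * m ^ 2 * b * t ^ 2 + (64/675) * m * b ^ 2 * t ^ 2
    + (-29/405) * b ^ 3 * t ^ 2 + (-47/36) * m * t ^ 3 + (1/9) * m ^ 3 * t ^ 3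
    + (52/45) * b * t ^ 3 + (-20/9) * m ^ 2 * b * t ^ 3 + (119/60) * m * b ^ 2 * t ^ 3
    + (-52/45) * b ^ 3 * t ^ 3 + (-1/225) * t ^ 4 + (-16/3) * m * t ^ 4
    + (41/3240) * m ^ 2 * t ^ 4 + (17/4) * b * t ^ 4 + (-73/4050) * m * b * t ^ 4
    + (-23/3) * m ^ 2 * b * t ^ 4 + (169/10125) * b ^ 2 * t ^ 4
    + (8) * m * b ^ 2 * t ^ 4 + (-17/4) * b ^ 3 * t ^ 4 + (-37/405) * t ^ 5
    + (118/405) * m ^ 2 * t ^ 5 + (-163/360) * m * b * t ^ 5 + (79/225) * b ^ 2 * t ^ 5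
    + (-73/120) * t ^ 6 + (1/1350) * m * t ^ 6 + (13/6) * m ^ 2 * t ^ 6
    + (-161/121500) * b * t ^ 6 + (-52/15) * m * b * t ^ 6 + (287/120) * b ^ 2 * t ^ 6
    + (-4/3) * t ^ 7 + (691/32400) * m * t ^ 7 + (16/3) * m ^ 2 * t ^ 7
    + (-22/675) * b * t ^ 7 + (-17/2) * m * b * t ^ 7 + (16/3) * b ^ 2 * t ^ 7
    + (47/1458000) * t ^ 8 + (29/135) * m * t ^ 8 + (-1043/3600) * b * t ^ 8
    + (26/30375) * t ^ 9 + (163/180) * m * t ^ 9 + (-49/45) * b * t ^ 9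
    + (547/64800) * t ^ 10 + (4/3) * m * t ^ 10 + (-17/12) * b * t ^ 10
    + (74/2025) * t ^ 11 + (7/120) * t ^ 12

noncomputable def g2 (_m b t : ℝ) : ℝ :=
  (2/405) + (-4/405) * b ^ 2 + (2/405) * b ^ 4 + (7/90) * t + (-7/45) * b ^ 2 * t
    + (7/90) * b ^ 4 * t + (1/3) * t ^ 2 + (4/2025) * b * t ^ 2 + (-2/3) * b ^ 2 * t ^ 2
    + (-4/2025) * b ^ 3 * t ^ 2 + (1/3) * b ^ 4 * t ^ 2 + (169/4050) * b * t ^ 3
    + (-169/4050) * b ^ 3 * t ^ 3 + (-2/30375) * t ^ 4 + (3/10) * b * t ^ 4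
    + (34/151875) * b ^ 2 * t ^ 4 + (-3/10) * b ^ 3 * t ^ 4 + (-1/675) * t ^ 5
    + (17/24) * b * t ^ 5 + (56/10125) * b ^ 2 * t ^ 5 + (-17/24) * b ^ 3 * t ^ 5
    + (-23/2025) * t ^ 6 + (-4/455625) * b * t ^ 6 + (34/675) * b ^ 2 * t ^ 6
    + (-7/240) * t ^ 7 + (-19/81000) * b * t ^ 7 + (139/720) * b ^ 2 * t ^ 7
    + (1/10935000) * t ^ 8 + (-191/81000) * b * t ^ 8 + (1/4) * b ^ 2 * t ^ 8
    + (37/14580000) * t ^ 9 + (-673/64800) * b * t ^ 9 + (13/486000) * t ^ 10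
    + (-1/60) * b * t ^ 10 + (1/8000) * t ^ 11 + (7/32400) * t ^ 12

noncomputable def g3 (m b _t : ℝ) : ℝ :=
  (5/3) + (4/3) * m * b + (-5/3) * b ^ 2


theorem c_a1 : Continuous (fun z : ℝ × ℝ × ℝ => a1 z.1 z.2.1 z.2.2) := by
  unfold a1; fun_prop
theorem c_a2 : Continuous (fun z : ℝ × ℝ × ℝ => a2 z.1 z.2.1 z.2.2) := by
  unfold a2; fun_prop
theorem c_a3 : Continuous (fun z : ℝ × ℝ × ℝ => a3 z.1 z.2.1 z.2.2) := by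
  unfold a3; fun_prop
theorem c_a4 : Continuous (fun z : ℝ × ℝ × ℝ => a4 z.1 z.2.1 z.2.2) := by
  unfold a4; fun_prop
theorem c_g1 : Continuous (fun z : ℝ × ℝ × ℝ => g1 z.1 z.2.1 z.2.2) := by
  unfold g1; fun_prop
theorem c_g2 : Continuous (fun z : ℝ × ℝ × ℝ => g2 z.1 z.2.1 z.2.2) := by
  unfold g2; fun_prop
theorem c_g3 : Continuous (fun z : ℝ × ℝ × ℝ => g3 z.1 z.2.1 z.2.2) := by
  unfold g3; fun_prop

theorem eqW1 (m b t : ℝ) : iW1 m b t = t ^ 3 * a1 m b t + b * m ^ 2 * a2 m b t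
      + t ^ 2 * m ^ 2 * a3 m b t + b * m * t ^ 2 * a4 m b t := by
  unfold iW1 iB iDA iA iD iz iE iH iG iF a1 a2 a3 a4
  ring

theorem eqW2 (m b t : ℝ) : iW2 m b t = m * t ^ 2 * g1 m b t + t ^ 4 * g2 m b t
      + m ^ 3 * b * g3 m b t := by
  unfold iW2 iB iDA iA iD iz iE iH iG iF g1 g2 g3
  ring

theorem v_a1 (m : ℝ) : a1 m 0 0 = (1 - 4 * m ^ 2) / 3 := by unfold a1; ring
theorem v_a2 (m : ℝ) : a2 m 0 0 = 8 / 3 - 5 / 3 * m ^ 2 := by unfold a2; ring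
theorem v_a3 (m : ℝ) : a3 m 0 0 = - (2 / 9) + m ^ 2 / 18 := by unfold a3; ring
theorem v_a4 (m : ℝ) : a4 m 0 0 = - (1 / 45) := by unfold a4; ring
theorem v_g1 (m : ℝ) : g1 m 0 0 = 1 / 9 - m ^ 2 / 18 := by unfold g1; ring
theorem v_g2 (m : ℝ) : g2 m 0 0 = 2 / 405 := by unfold g2; ring
theorem v_g3 (m : ℝ) : g3 m 0 0 = 5 / 3 := by unfold g3; ring

theorem u1_eq (t : ℝ) : iW1 0 0 t = t ^ 3 * (
  (1/3) + (13/12150) * t ^ 3 + (61/4050) * t ^ 4 + (1/12) * t ^ 5 + (1/6) * t ^ 6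
    + (-1/101250) * t ^ 7 + (-113/486000) * t ^ 8 + (-1043/486000) * t ^ 9
    + (-587/64800) * t ^ 10 + (-265781/18225000) * t ^ 11 + (29/72900000) * t ^ 12
    + (23/4860000) * t ^ 13 + (557/19440000) * t ^ 14 + (341/3888000) * t ^ 15
    + (7/64800) * t ^ 16) := by
  unfold iW1 iB iDA iA iD iz iE iH iG iF
  ring

theorem u2_eq (t : ℝ) : iW2 0 0 t = t ^ 4 * (
  (2/405) + (7/90) * t + (1/3) * t ^ 2 + (-2/30375) * t ^ 4 + (-1/675) * t ^ 5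
    + (-23/2025) * t ^ 6 + (-7/240) * t ^ 7 + (1/10935000) * t ^ 8
    + (37/14580000) * t ^ 9 + (13/486000) * t ^ 10 + (1/8000) * t ^ 11
    + (7/32400) * t ^ 12) := by
  unfold iW2 iB iDA iA iD iz iE iH iG iF
  ring

theorem pow_bd (t : ℝ) (h0 : 0 < t) (h1 : t ≤ 6 / 5) (n : ℕ) : t ^ n ≤ (6 / 5) ^ n :=
  pow_le_pow_left₀ h0.le h1 n

theorem u1_pos (t : ℝ) (h0 : 0 < t) (h1 : t ≤ 6 / 5) : 0 < iW1 0 0 t := by
  rw [u1_eq]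
  have h7 := pow_bd t h0 h1 7
  have h8 := pow_bd t h0 h1 8
  have h9 := pow_bd t h0 h1 9
  have h10 := pow_bd t h0 h1 10
  have h11 := pow_bd t h0 h1 11
  have p3 : 0 < t ^ 3 := by positivity
  have p4 : 0 < t ^ 4 := by positivity
  have p5 : 0 < t ^ 5 := by positivity
  have p6 : 0 < t ^ 6 := by positivity
  have p12 : 0 < t ^ 12 := by positivity
  have p13 : 0 < t ^ 13 := by positivity
  have p14 : 0 < t ^ 14 := by positivity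
  have p15 : 0 < t ^ 15 := by positivity
  have p16 : 0 < t ^ 16 := by positivity
  norm_num at h7 h8 h9 h10 h11
  apply mul_pos p3
  linarith

theorem u2_pos (t : ℝ) (h0 : 0 < t) (h1 : t ≤ 6 / 5) : 0 < iW2 0 0 t := by
  rw [u2_eq]
  have p2 : 0 < t ^ 2 := by positivity
  have h4 : t ^ 4 ≤ (36 / 25) * t ^ 2 := by
    have := pow_bd t h0 h1 2
    nlinarith
  have h5 : t ^ 5 ≤ (216 / 125) * t ^ 2 := by
    have := pow_bd t h0 h1 3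
    nlinarith
  have h6 : t ^ 6 ≤ (1296 / 625) * t ^ 2 := by
    have := pow_bd t h0 h1 4
    nlinarith
  have h7 : t ^ 7 ≤ (7776 / 3125) * t ^ 2 := by
    have := pow_bd t h0 h1 5
    nlinarith
  have p8 : 0 < t ^ 8 := by positivity
  have p9 : 0 < t ^ 9 := by positivity
  have p10 : 0 < t ^ 10 := by positivity
  have p11 : 0 < t ^ 11 := by positivity
  have p12 : 0 < t ^ 12 := by positivity
  have p4 : 0 < t ^ 4 := by positivity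
  apply mul_pos p4
  linarith

end PolyAux

open PolyAux in
theorem stmtPoly : PolyStmt :=
  ⟨fun z => a1 z.1 z.2.1 z.2.2, fun z => a2 z.1 z.2.1 z.2.2, fun z => a3 z.1 z.2.1 z.2.2,
    fun z => a4 z.1 z.2.1 z.2.2, fun z => g1 z.1 z.2.1 z.2.2, fun z => g2 z.1 z.2.1 z.2.2,
    fun z => g3 z.1 z.2.1 z.2.2, c_a1, c_a2, c_a3, c_a4, c_g1, c_g2, c_g3, eqW1, eqW2,
    v_a1, v_a2, v_a3, v_a4, v_g1, v_g2, v_g3, fun t h0 h1 => ⟨u1_pos t h0 h1, u2_pos t h0 h1⟩⟩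

end Pool.Agent.Lib.MP_c60e08_gt.Ini
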