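import Pool.Agent.Lib.MP_c60e08_gt.InitSpec

/-!
The equation of the initial curve has exactly one root for every direction.
-/

set_option autoImplicit false

namespace Pool.Agent.Lib.MP_c60e08_gt.Ini

open Real Set Pool.Agent.Lib.MP_c60e08_gt.Lm

namespace Root

/-- the distance to the origin as a function of `q = exp y` -/
private noncomputable def rh (c q : ℝ) : ℝ := √(q ^ 2 - 2 * q * c + 1)

/-- the equation as a function of `q` -/
private noncomputable def E (a b c q : ℝ) : ℝ :=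
  q ^ 2 - 1 + 2 * a - 2 * b * rh c q + (rh c q) ^ ((5 : ℝ) / 3) / 5

private lemma uu_nonneg (c q : ℝ) (hc1 : -1 ≤ c) (hc2 : c ≤ 1) : 0 ≤ q ^ 2 - 2 * q * c + 1 := by
  nlinarith [sq_nonneg (q - c)]

private lemma EqF_eq (a b p y : ℝ) : EqF a b p y = E a b (cos p) (exp y) := by
  unfold EqF E rh uu
  have h1 : exp (2 * y) = exp y ^ 2 := by rw [← exp_nat_mul]; norm_num
  have h0 := uu_nonneg (cos p) (exp y) (neg_one_le_cos p) (cos_le_one p)
  rw [h1, Real.sqrt_eq_rpow, ← Real.rpow_mul h0]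
  norm_num

private lemma rh_nonneg (c q : ℝ) : 0 ≤ rh c q := Real.sqrt_nonneg _

private lemma rh_sq (c q : ℝ) (hc1 : -1 ≤ c) (hc2 : c ≤ 1) :
    rh c q ^ 2 = q ^ 2 - 2 * q * c + 1 := Real.sq_sqrt (uu_nonneg c q hc1 hc2)

private lemma rh_le (c q : ℝ) (hc1 : -1 ≤ c) (hq : 0 ≤ q) : rh c q ≤ q + 1 := by
  apply Real.sqrt_le_iff.mpr
  constructor
  · linarith
  · nlinarith

private lemma rh_lip (c q1 q2 : ℝ) (hc1 : -1 ≤ c) (hc2 : c ≤ 1) (h : q1 ≤ q2) :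
    |rh c q2 - rh c q1| ≤ q2 - q1 := by
  have h1 := rh_nonneg c q1
  have h2 := rh_nonneg c q2
  have s1 := rh_sq c q1 hc1 hc2
  have s2 := rh_sq c q2 hc1 hc2
  -- Cauchy Schwarz: `rh1 rh2 ≥ (q1 - c)(q2 - c) + (1 - c^2)`
  have hcs : q1 * q2 - q1 * c - q2 * c + 1 ≤ rh c q1 * rh c q2 := by
    refine le_of_sq_le_sq ?_ (by positivity)
    rw [mul_pow, s1, s2]
    nlinarith [mul_nonneg (sub_nonneg.mpr hc2) (by linarith : (0 : ℝ) ≤ 1 + c), sq_nonneg (q1 - q2),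
      mul_nonneg (mul_nonneg (sub_nonneg.mpr hc2) (by linarith : (0 : ℝ) ≤ 1 + c)) (sq_nonneg (q1 - q2))]
  have hsq : (rh c q2 - rh c q1) ^ 2 ≤ (q2 - q1) ^ 2 := by nlinarith
  exact abs_le_of_sq_le_sq hsq (by linarith)

private lemma cube (x : ℝ) (hx : 0 ≤ x) : ∃ s : ℝ, 0 ≤ s ∧ s ^ 3 = x ∧ x ^ ((5 : ℝ) / 3) = s ^ 5 := by
  refine ⟨x ^ ((1 : ℝ) / 3), Real.rpow_nonneg hx _, ?_, ?_⟩
  · rw [← Real.rpow_natCast, ← Real.rpow_mul hx]
    norm_num
  · rw [← Real.rpow_natCast (x ^ ((1 : ℝ) / 3)), ← Real.rpow_mul hx]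
    norm_num

private lemma pow_lip_aux (r s : ℝ) (hr : 0 ≤ r) (hrs : r ≤ s) (hs : s ^ 3 ≤ 3) :
    s ^ 5 - r ^ 5 ≤ 7 / 2 * (s ^ 3 - r ^ 3) := by
  have hs0 : 0 ≤ s := hr.trans hrs
  have h2 : s ^ 2 ≤ 21 / 10 := by
    by_contra h
    push Not at h
    have h3 : (21 / 10 : ℝ) ^ 3 < (s ^ 2) ^ 3 := pow_lt_pow_left₀ h (by norm_num) (by norm_num)
    have h4 : (s ^ 2) ^ 3 = (s ^ 3) ^ 2 := by ring
    have h5 : (s ^ 3) ^ 2 ≤ 3 ^ 2 := pow_le_pow_left₀ (by positivity) hs 2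
    rw [h4] at h3
    norm_num at h3 h5
    linarith
  have h3 : 0 ≤ s - r := by linarith
  have h4 : 3 * (s ^ 4 + s ^ 3 * r + s ^ 2 * r ^ 2 + s * r ^ 3 + r ^ 4)
      ≤ 5 * s ^ 2 * (s ^ 2 + s * r + r ^ 2) := by
    have e1 : r ^ 4 ≤ s ^ 4 := pow_le_pow_left₀ hr hrs 4
    have e2 : s * r ^ 3 ≤ s ^ 3 * r := by nlinarith [mul_nonneg hs0 hr, pow_le_pow_left₀ hr hrs 2]
    have e3 : s * r ^ 3 ≤ s ^ 2 * r ^ 2 := by
      nlinarith [mul_nonneg (mul_nonneg hs0 (sq_nonneg r)) h3]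
    have e4 : r ^ 4 ≤ s ^ 2 * r ^ 2 := by nlinarith [sq_nonneg r, pow_le_pow_left₀ hr hrs 2]
    nlinarith
  have h5 : 0 ≤ s ^ 2 + s * r + r ^ 2 := by positivity
  have h6 : 3 * (s ^ 5 - r ^ 5) = (s - r) * (3 * (s ^ 4 + s ^ 3 * r + s ^ 2 * r ^ 2 + s * r ^ 3 + r ^ 4)) := by
    ring
  have h7 : (s - r) * (3 * (s ^ 4 + s ^ 3 * r + s ^ 2 * r ^ 2 + s * r ^ 3 + r ^ 4))
      ≤ (s - r) * (5 * s ^ 2 * (s ^ 2 + s * r + r ^ 2)) := mul_le_mul_of_nonneg_left h4 h3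
  have h8 : (s - r) * (5 * s ^ 2 * (s ^ 2 + s * r + r ^ 2))
      ≤ (s - r) * (5 * (21 / 10) * (s ^ 2 + s * r + r ^ 2)) := by
    apply mul_le_mul_of_nonneg_left _ h3
    apply mul_le_mul_of_nonneg_right _ h5
    linarith
  nlinarith

private lemma pow_lip (x y : ℝ) (hx : 0 ≤ x) (hy : 0 ≤ y) (hx3 : x ≤ 3) (hy3 : y ≤ 3) :
    |y ^ ((5 : ℝ) / 3) - x ^ ((5 : ℝ) / 3)| ≤ 7 / 2 * |y - x| := by
  obtain ⟨r, hr0, hr3, hr5⟩ := cube x hx
  obtain ⟨s, hs0, hs3, hs5⟩ := cube y hy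
  rw [hr5, hs5, ← hr3, ← hs3]
  rcases le_total r s with h | h
  · have h1 := pow_lip_aux r s hr0 h (by rw [hs3]; exact hy3)
    have h2 : r ^ 5 ≤ s ^ 5 := pow_le_pow_left₀ hr0 h 5
    have h3 : r ^ 3 ≤ s ^ 3 := pow_le_pow_left₀ hr0 h 3
    rw [abs_of_nonneg (by linarith), abs_of_nonneg (by linarith)]
    exact h1
  · have h1 := pow_lip_aux s r hs0 h (by rw [hr3]; exact hx3)
    have h2 : s ^ 5 ≤ r ^ 5 := pow_le_pow_left₀ hs0 h 5
    have h3 : s ^ 3 ≤ r ^ 3 := pow_le_pow_left₀ hs0 h 3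
    rw [abs_of_nonpos (by linarith), abs_of_nonpos (by linarith)]
    linarith

private lemma E_mono (a b c q1 q2 : ℝ) (hb : 0 < b) (hb1 : b ≤ 1 / 10 ^ 6) (hc1 : -1 ≤ c)
    (hc2 : c ≤ 1) (h1 : 1 / 2 ≤ q1) (h12 : q1 < q2) (h2 : q2 ≤ 2) : E a b c q1 < E a b c q2 := by
  have hl := rh_lip c q1 q2 hc1 hc2 h12.le
  have hr1 := rh_nonneg c q1
  have hr2 := rh_nonneg c q2
  have hb1' := rh_le c q1 hc1 (by linarith)
  have hb2' := rh_le c q2 hc1 (by linarith)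
  have hp := pow_lip (rh c q1) (rh c q2) hr1 hr2 (by linarith) (by linarith)
  have h3 := abs_le.mp hl
  have h4 := abs_le.mp hp
  have h5 : b * (rh c q2 - rh c q1) ≤ b * (q2 - q1) := mul_le_mul_of_nonneg_left h3.2 hb.le
  have h6 : b * (q2 - q1) ≤ 1 / 10 ^ 6 * (q2 - q1) :=
    mul_le_mul_of_nonneg_right hb1 (by linarith)
  unfold E
  nlinarith

private lemma E_cont (a b c : ℝ) : Continuous (E a b c) := by
  have h1 : Continuous (rh c) := by
    unfold rh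
    fun_prop
  unfold E
  have h2 : Continuous (fun q => rh c q ^ ((5 : ℝ) / 3)) :=
    h1.rpow_const (fun q => Or.inr (by norm_num))
  fun_prop

private lemma E_half (a b c : ℝ) (hb : 0 < b) (ha : a ≤ 1 / 10) (hc1 : -1 ≤ c) :
    E a b c (1 / 2) < 0 := by
  have h1 := rh_nonneg c (1 / 2)
  have h2 := rh_le c (1 / 2) hc1 (by norm_num)
  obtain ⟨s, hs0, hs3, hs5⟩ := cube (rh c (1 / 2)) h1
  have h3 : s ^ 5 ≤ 2 := by
    by_contra h
    push Not at h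
    have h4 : (2 : ℝ) ^ 3 < (s ^ 5) ^ 3 := pow_lt_pow_left₀ h (by norm_num) (by norm_num)
    have h5 : (s ^ 5) ^ 3 = (s ^ 3) ^ 5 := by ring
    have h6 : (s ^ 3) ^ 5 ≤ (3 / 2) ^ 5 := pow_le_pow_left₀ (by positivity) (by rw [hs3]; linarith) 5
    rw [h5] at h4
    norm_num at h4 h6
    linarith
  unfold E
  rw [hs5]
  have h7 : 0 ≤ b * rh c (1 / 2) := by positivity
  nlinarith

private lemma E_two (a b c : ℝ) (hb1 : b ≤ 1 / 10 ^ 6) (ha : 0 < a) (hc1 : -1 ≤ c) :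
    0 < E a b c 2 := by
  have h1 := rh_nonneg c 2
  have h2 := rh_le c 2 hc1 (by norm_num)
  have h3 : 0 ≤ rh c 2 ^ ((5 : ℝ) / 3) := Real.rpow_nonneg h1 _
  have h4 : b * rh c 2 ≤ 1 / 10 ^ 6 * rh c 2 := mul_le_mul_of_nonneg_right hb1 h1
  unfold E
  nlinarith

end Root

theorem stmtRoot : RootStmt := by
  intro a b hP p
  have hc1 := neg_one_le_cos p
  have hc2 := cos_le_one p
  have ha0 : 0 < a := by
    have := hP.bpos
    have h1 := hP.alo
    have h2 : 0 < b ^ 3 / (2 * 440 ^ 3) := by positivity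
    linarith
  have ha1 : a ≤ 1 / 10 := by
    have h0 := hP.bpos
    have h1 := hP.ahi
    have h2 : b ^ 3 ≤ (1 / 10 ^ 6) ^ 3 := pow_le_pow_left₀ h0.le hP.ble 3
    norm_num at h2
    linarith
  refine ⟨?_, ?_, ?_⟩
  · obtain ⟨q, hq, hEq⟩ : ∃ q ∈ Icc (1 / 2 : ℝ) 2, Root.E a b (cos p) q = 0 := by
      have hivt := intermediate_value_Icc (show (1 / 2 : ℝ) ≤ 2 by norm_num)
        (Root.E_cont a b (cos p)).continuousOn
      exact hivt ⟨(Root.E_half a b (cos p) hP.bpos ha1 hc1).le,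
        (Root.E_two a b (cos p) hP.ble ha0 hc1).le⟩
    have hq0 : 0 < q := by linarith [hq.1]
    refine ⟨log q, ?_, ?_, ?_⟩
    · rw [exp_log hq0]; exact hq.1
    · rw [exp_log hq0]; exact hq.2
    · rw [Root.EqF_eq, exp_log hq0]; exact hEq
  · intro y y' h1 h2 h3 h1' h2' h3'
    rw [Root.EqF_eq] at h3 h3'
    rcases lt_trichotomy (exp y) (exp y') with h | h | h
    · have := Root.E_mono a b (cos p) _ _ hP.bpos hP.ble hc1 hc2 h1 h h2'
      rw [h3, h3'] at this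
      exact absurd this (lt_irrefl _)
    · exact exp_injective h
    · have := Root.E_mono a b (cos p) _ _ hP.bpos hP.ble hc1 hc2 h1' h h2
      rw [h3, h3'] at this
      exact absurd this (lt_irrefl _)
  · intro y _ _ h3
    have hu : uu p y = (exp y - cos p) ^ 2 + sin p ^ 2 := by
      unfold uu
      have h1 : exp (2 * y) = exp y ^ 2 := by rw [← exp_nat_mul]; norm_num
      rw [h1, sin_sq]
      ring
    have h0 : 0 ≤ uu p y := by rw [hu]; positivity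
    rcases h0.eq_or_lt with h | h
    · exfalso
      have hs : sin p ^ 2 = 0 := by
        rw [← h] at hu
        nlinarith [sq_nonneg (exp y - cos p), sq_nonneg (sin p)]
      have hc : (exp y - cos p) ^ 2 = 0 := by
        rw [← h] at hu
        nlinarith [sq_nonneg (exp y - cos p), sq_nonneg (sin p)]
      have hc' : exp y = cos p := by
        have := pow_eq_zero_iff (two_ne_zero) |>.mp hc
        linarith
      have h1 : exp (2 * y) = 1 := by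
        have h1 : exp (2 * y) = exp y ^ 2 := by rw [← exp_nat_mul]; norm_num
        rw [h1, hc']
        have := sin_sq_add_cos_sq p
        linarith
      unfold EqF at h3
      rw [← h, h1, Real.sqrt_zero, Real.zero_rpow (by norm_num)] at h3
      linarith
    · exact h

end Pool.Agent.Lib.MP_c60e08_gt.Ini
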