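import Pool.Agent.Lib.MP_c60e08_gt.InitSpec

/-!
MP_c60e08_gt, INIT part: the derivative of `h` and of `tt h` (statement `SlopeStmt`).
-/

set_option autoImplicit false

namespace Pool.Agent.Lib.MP_c60e08_gt.Ini

open Real Set Pool.Agent.Lib.MP_c60e08_gt.Lm

namespace InitSlope

theorem hasDeriv_h {a b : ℝ} {h : ℝ → ℝ} (hc : Crv a b h) (p : ℝ) :
    HasDerivAt h (deriv h p) p :=
  ((hc.smooth.differentiable (by simp)) p).hasDerivAt

theorem hasDeriv_u {a b : ℝ} {h : ℝ → ℝ} (hc : Crv a b h) (p : ℝ) :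
    HasDerivAt (fun q => uu q (h q))
      (2 * (exp (2 * h p) * deriv h p - exp (h p) * cos p * deriv h p + exp (h p) * sin p)) p := by
  have h1 := hasDeriv_h hc p
  have h2 : HasDerivAt (fun q => exp (2 * h q)) (exp (2 * h p) * (2 * deriv h p)) p :=
    (h1.const_mul 2).exp
  have h3 : HasDerivAt (fun q => 2 * exp (h q) * cos q)
      (2 * (exp (h p) * deriv h p) * cos p + 2 * exp (h p) * (-sin p)) p :=
    (h1.exp.const_mul 2).mul (hasDerivAt_cos p)
  have h4 := (h2.sub h3).add_const 1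
  refine h4.congr_deriv ?_
  ring

theorem hasDeriv_tt {a b : ℝ} {h : ℝ → ℝ} (hc : Crv a b h) (p : ℝ) (htt : 0 < tt h p)
    (h6 : tt h p ^ 6 = uu p (h p)) :
    HasDerivAt (tt h) ((exp (2 * h p) * deriv h p - exp (h p) * cos p * deriv h p
      + exp (h p) * sin p) / (3 * tt h p ^ 5)) p := by
  have hu := hc.upos p
  have h1 := (hasDeriv_u hc p).rpow_const (p := (1 : ℝ) / 6) (Or.inl hu.ne')
  have h2 : (uu p (h p)) ^ ((1 : ℝ) / 6 - 1) = 1 / tt h p ^ 5 := by
    rw [rpow_sub_one hu.ne']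
    change tt h p / uu p (h p) = 1 / tt h p ^ 5
    rw [← h6]
    field_simp
  rw [h2] at h1
  have h3 : HasDerivAt (tt h) (2 * (exp (2 * h p) * deriv h p - exp (h p) * cos p * deriv h p
      + exp (h p) * sin p) * (1 / 6) * (1 / tt h p ^ 5)) p := h1
  refine h3.congr_deriv ?_
  field_simp
  ring

end InitSlope

theorem stmtSlope (h1 : BasicStmt) : SlopeStmt := by
  intro a b h hpar hc p
  obtain ⟨-, htt, h6, -⟩ := h1 a b h hpar hc p
  have ht := InitSlope.hasDeriv_tt hc p htt h6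
  refine ⟨?_, ht⟩
  have hh := InitSlope.hasDeriv_h hc p
  have hL : HasDerivAt (fun q => exp (2 * h q)) (exp (2 * h p) * (2 * deriv h p)) p :=
    (hh.const_mul 2).exp
  set t' : ℝ := (exp (2 * h p) * deriv h p - exp (h p) * cos p * deriv h p
      + exp (h p) * sin p) / (3 * tt h p ^ 5) with ht'
  have hR : HasDerivAt (fun q => 1 - 2 * a + 2 * b * tt h q ^ 3 - tt h q ^ 5 / 5)
      (2 * b * (3 * tt h p ^ 2 * t') - (5 * tt h p ^ 4 * t') / 5) p := by
    have e3 := ht.pow 3
    have e5 := ht.pow 5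
    have e := ((e3.const_mul (2 * b)).const_add (1 - 2 * a)).sub (e5.div_const 5)
    refine e.congr_deriv ?_
    push_cast
    ring
  have heq : (fun q => exp (2 * h q)) = fun q => 1 - 2 * a + 2 * b * tt h q ^ 3 - tt h q ^ 5 / 5 :=
    funext hc.eq
  rw [heq] at hL
  have hu := hL.unique hR
  have h3 : t' * (3 * tt h p ^ 5) = exp (2 * h p) * deriv h p - exp (h p) * cos p * deriv h p
      + exp (h p) * sin p := by
    rw [ht']
    field_simp
  have hne : (6 * tt h p ^ 2) ≠ 0 := by positivity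
  apply mul_left_cancel₀ hne
  linear_combination (3 * tt h p ^ 5) * hu + (6 * b * tt h p ^ 2 - tt h p ^ 4) * h3

end Pool.Agent.Lib.MP_c60e08_gt.Ini
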