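import Pool.Agent.Lib.MP_c60e08_gt.InitSpec

/-!
MP_c60e08_gt, INIT part: lower bounds of the tangent angle.
-/

set_option autoImplicit false

namespace Pool.Agent.Lib.MP_c60e08_gt.Ini

open Real Set Pool.Agent.Lib.MP_c60e08_gt.Lm

namespace InitTh

lemma m_le {t m b : ℝ} (ht : 0 < t) (hb : 0 < b) (hb6 : b ≤ 1 / 10 ^ 6)
    (hmt : m * t ^ 3 ≤ 150 * b ^ 3) (ht20 : 20 * b < t ^ 2) : m ≤ b := by
  by_contra hc
  push Not at hc
  have ht3 : 0 < t ^ 3 := by positivity
  have h1 : b * t ^ 3 < 150 * b ^ 3 := lt_of_lt_of_le (mul_lt_mul_of_pos_right hc ht3) hmt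
  have h2 : t ^ 3 < 150 * b ^ 2 := by
    have : b * t ^ 3 < b * (150 * b ^ 2) := by
      calc b * t ^ 3 < 150 * b ^ 3 := h1
        _ = b * (150 * b ^ 2) := by ring
    exact lt_of_mul_lt_mul_left this hb.le
  have h3 : (t ^ 3) ^ 2 < (150 * b ^ 2) ^ 2 := by gcongr
  have h4 : (20 * b) ^ 3 < (t ^ 2) ^ 3 := by gcongr
  have h5 : (20 * b) ^ 3 < (150 * b ^ 2) ^ 2 := by
    calc (20 * b) ^ 3 < (t ^ 2) ^ 3 := h4
      _ = (t ^ 3) ^ 2 := by ring
      _ < _ := h3
  have h6 : b ^ 3 * 8000 < b ^ 3 * (22500 * b) := by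
    calc b ^ 3 * 8000 = (20 * b) ^ 3 := by ring
      _ < (150 * b ^ 2) ^ 2 := h5
      _ = b ^ 3 * (22500 * b) := by ring
  have h7 := lt_of_mul_lt_mul_left h6 (by positivity)
  norm_num at hb6
  linarith

lemma posG {t m b x th L : ℝ} (ht : 0 < t) (hb : 0 < b) (hb6 : b ≤ 1 / 10 ^ 6)
    (hm0 : 0 < m) (hmt : m * t ^ 3 ≤ 150 * b ^ 3) (hx : 0 ≤ x)
    (hxF : x ^ 2 + iF m b t ^ 2 = 1) (hL : 0 < L) (hL2 : L ^ 2 = iD m b t)
    (hsin : L * sin th = iG b t * x) (hcos : 0 < 1 - iF m b t * iG b t)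
    (ht20 : 20 * b < t ^ 2) : t ^ 2 / 10 ≤ sin th := by
  have hm := m_le ht hb hb6 hmt ht20
  have ht3 : 0 < t ^ 3 := by positivity
  have hF1 : t ^ 2 / 20 + t ^ 3 / 2 ≤ iF m b t := by
    unfold iF
    linarith
  have hF2 : iF m b t ≤ t ^ 2 / 10 + t ^ 3 / 2 := by
    unfold iF
    linarith
  have hG1 : 7 / 60 * t ^ 2 + t ^ 3 ≤ iG b t := by
    unfold iG
    linarith
  have hz1 : |iF m b t - iG b t| ≤ t ^ 2 / 15 + t ^ 3 / 2 := by
    rw [abs_le]
    unfold iF iG
    constructor <;> linarith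
  have hzD : L ^ 2 = x ^ 2 + (iF m b t - iG b t) ^ 2 := by
    rw [hL2, iD]
    linarith [hxF]
  set F := iF m b t with hF
  set G := iG b t with hG
  have hF0 : 0 ≤ F := by
    have : 0 ≤ t ^ 2 / 20 + t ^ 3 / 2 := by positivity
    linarith
  have ht11 : t < 11 / 10 := by
    by_contra hc
    push Not at hc
    have h2 : (11 / 10 : ℝ) ^ 2 ≤ t ^ 2 := by gcongr
    have h3 : (11 / 10 : ℝ) ^ 3 ≤ t ^ 3 := by gcongr
    norm_num at h2 h3
    have h4 : 0.72 ≤ F := by linarith
    have h5 : 1.4 ≤ G := by linarith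
    have h6 : 0.72 * 1.4 ≤ F * G := mul_le_mul h4 h5 (by norm_num) hF0
    norm_num at h6
    linarith
  have ht2 : t ^ 2 ≤ 1.21 := by nlinarith
  have ht3' : t ^ 3 ≤ 1.331 := by
    calc t ^ 3 ≤ (11 / 10) ^ 3 := by gcongr
      _ = 1.331 := by norm_num
  have hF8 : F ≤ 0.79 := by linarith
  have hx6 : 3 / 5 ≤ x := by
    by_contra hc
    push Not at hc
    have h1 : x ^ 2 < (3 / 5) ^ 2 := by gcongr
    have h2 : F ^ 2 ≤ 0.79 ^ 2 := by gcongr
    norm_num at h1 h2
    linarith
  have hL3 : L ≤ x + |F - G| := by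
    rw [← sq_le_sq₀ hL.le (by positivity), hzD]
    have : 0 ≤ x * |F - G| := by positivity
    nlinarith [sq_abs (F - G)]
  have hmain : t ^ 2 / 10 * L ≤ G * x := by
    have e1 : t ^ 2 / 10 * L ≤ t ^ 2 / 10 * (x + (t ^ 2 / 15 + t ^ 3 / 2)) := by
      gcongr
      linarith
    have e2 : (7 / 60 * t ^ 2 + t ^ 3) * x ≤ G * x := by gcongr
    have e3 : t ^ 2 / 10 * (t ^ 2 / 15 + t ^ 3 / 2) ≤ t ^ 2 * (3 / 5 * t) := by
      have e4 : t ^ 2 / 15 + t ^ 3 / 2 ≤ 6 * t := by
        have e5 : t ^ 2 ≤ 1.1 * t := by nlinarith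
        have e6 : t ^ 3 ≤ 1.21 * t := by nlinarith
        linarith
      calc t ^ 2 / 10 * (t ^ 2 / 15 + t ^ 3 / 2) ≤ t ^ 2 / 10 * (6 * t) := by gcongr
        _ = t ^ 2 * (3 / 5 * t) := by ring
    have e7 : t ^ 2 * (3 / 5 * t) ≤ t ^ 3 * x := by
      calc t ^ 2 * (3 / 5 * t) = t ^ 3 * (3 / 5) := by ring
        _ ≤ t ^ 3 * x := by gcongr
    have e8 : 0 ≤ t ^ 2 * x := by positivity
    nlinarith
  rw [← hsin, mul_comm] at hmain
  exact le_of_mul_le_mul_left hmain hL

lemma negG {t m b x th L : ℝ} (ht : 0 < t) (hb : 0 < b) (hb6 : b ≤ 1 / 10 ^ 6)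
    (hx : 0 ≤ x) (hxF : x ^ 2 + iF m b t ^ 2 = 1) (hL : 0 < L)
    (hsin : L * sin th = iG b t * x) (hcos : L * cos th = 1 - iF m b t * iG b t)
    (h1 : - (π / 2) < th) (h0 : th ≤ 0) (hG : iG b t < 0) :
    t ^ 2 / 10 - 2 * b ≤ th ∧ - (2 * b) ≤ th := by
  have hGb : -b ≤ iG b t := by
    unfold iG
    have : 0 < t ^ 3 := by positivity
    nlinarith [sq_nonneg t]
  have ht2 : t ^ 2 < 6 * b := by
    unfold iG at hG
    have : 0 < t ^ 3 := by positivity
    linarith
  set F := iF m b t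
  set G := iG b t
  have hx1 : x ≤ 1 := by nlinarith [sq_nonneg F]
  have hF1 : |F| ≤ 1 := by
    rw [← sq_le_one_iff_abs_le_one]
    nlinarith [sq_nonneg x]
  have hFG : F * G ≤ b := by
    have e1 : |G| ≤ b := by
      rw [abs_le]
      constructor <;> linarith
    calc F * G ≤ |F * G| := le_abs_self _
      _ = |F| * |G| := abs_mul _ _
      _ ≤ 1 * b := by gcongr
      _ = b := one_mul b
  have hkey : - th * (1 - b) ≤ b := by
    have e1 : - th * cos th ≤ - sin th := by
      rcases h0.lt_or_eq with h | h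
      · have hy : 0 < -th := by linarith
        have hy2 : -th < π / 2 := by linarith
        have e2 := Real.lt_tan hy hy2
        have hc : 0 < cos (-th) := cos_pos_of_mem_Ioo ⟨by linarith [pi_pos], hy2⟩
        rw [tan_eq_sin_div_cos, lt_div_iff₀ hc, cos_neg, sin_neg] at e2
        exact e2.le
      · rw [h]
        simp
    have e3 : - th * (1 - F * G) ≤ b := by
      calc - th * (1 - F * G) = L * (- th * cos th) := by rw [← hcos]; ring
        _ ≤ L * (- sin th) := by gcongr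
        _ = - G * x := by rw [mul_neg, hsin]; ring
        _ ≤ b * 1 := by
          apply mul_le_mul (by linarith) hx1 hx hb.le
        _ = b := mul_one b
    have e4 : - th * (1 - b) ≤ - th * (1 - F * G) := by
      apply mul_le_mul_of_nonneg_left _ (by linarith)
      linarith
    linarith
  have hth : - (11 / 10 * b) ≤ th := by
    by_contra hc
    push Not at hc
    norm_num at hb6
    have e5 : 11 / 10 * b * (1 - b) ≤ - th * (1 - b) := by
      apply mul_le_mul_of_nonneg_right (by linarith)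
      linarith
    nlinarith
  constructor <;> linarith

end InitTh

theorem stmtTh (h1 : BasicStmt) (h2 : FrameStmt) : ThStmt := by
  intro a b h hP hC p hp
  obtain ⟨ha, ht, -, -, -, -, -, -, hxF, ht65, hm0, -, -, -⟩ := h1 a b h hP hC p
  obtain ⟨hD, hsin, hcos⟩ := h2 a b h hP hC p
  set t := tt h p with ht_def
  set th := thh h p with hth_def
  set m := a / t ^ 3 with hm_def
  have hb := hP.bpos
  have hb6 := hP.ble
  have hmt : m * t ^ 3 ≤ 150 * b ^ 3 := by
    rw [hm_def, div_mul_cancel₀ _ (by positivity)]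
    exact hP.ahi
  have hx : 0 ≤ xx h p := by
    unfold xx
    have : 0 ≤ sin p := sin_nonneg_of_mem_Icc hp
    positivity
  set x := xx h p with hx_def
  set L := √(iD m b t) with hL_def
  have hL : 0 < L := Real.sqrt_pos.mpr hD
  have hL2 : L ^ 2 = iD m b t := Real.sq_sqrt hD.le
  have hlo : - (π / 2) < th := by
    have := arctan_lt_pi_div_two (deriv h p)
    rw [hth_def, thh]
    linarith [hp.1]
  have hhi : th < π + π / 2 := by
    have := neg_pi_div_two_lt_arctan (deriv h p)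
    rw [hth_def, thh]
    linarith [hp.2]
  have ht2 : t ^ 2 / 10 ≤ 1 := by nlinarith
  by_cases hc : cos th ≤ 0
  · have h3 : π / 2 ≤ th := by
      by_contra h4
      push Not at h4
      exact absurd (cos_pos_of_mem_Ioo ⟨by linarith, h4⟩) (not_lt.mpr hc)
    have h5 : 1 ≤ π / 2 := by linarith [pi_gt_three]
    constructor <;> linarith
  · push Not at hc
    have hth2 : th < π / 2 := by
      by_contra h4
      push Not at h4
      exact absurd (cos_nonpos_of_pi_div_two_le_of_le h4 hhi.le) (not_le.mpr hc)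
    have hFG : 0 < 1 - iF m b t * iG b t := by
      rw [← hcos]
      positivity
    by_cases hG : iG b t < 0
    · have h0 : th ≤ 0 := by
        by_contra h4
        push Not at h4
        have h5 : 0 < sin th := sin_pos_of_pos_of_lt_pi h4 (by linarith [pi_pos])
        have h6 : 0 < L * sin th := by positivity
        rw [hsin] at h6
        nlinarith
      exact InitTh.negG ht hb hb6 hx hxF hL hsin hcos hlo h0 hG
    · push Not at hG
      have h0 : 0 ≤ th := by
        by_contra h4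
        push Not at h4
        have h5 : sin th < 0 := sin_neg_of_neg_of_neg_pi_lt h4 (by linarith [pi_pos])
        have h6 : L * sin th < 0 := mul_neg_of_pos_of_neg hL h5
        rw [hsin] at h6
        have : 0 ≤ iG b t * x := by positivity
        linarith
      refine ⟨?_, by linarith⟩
      by_cases h20 : t ^ 2 ≤ 20 * b
      · linarith
      · push Not at h20
        have h7 := InitTh.posG ht hb hb6 hm0 hmt hx hxF hL hL2 hsin hFG h20
        have h8 := Real.sin_le h0
        linarith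

end Pool.Agent.Lib.MP_c60e08_gt.Ini
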