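import Pool.Agent.Lib.MP_c60e08_gt.InitSpec

/-!
MP_c60e08_gt, INIT part, module Tip: values at the tip and at the top.
-/

set_option autoImplicit false

namespace Pool.Agent.Lib.MP_c60e08_gt.Ini

open Real Set Pool.Agent.Lib.MP_c60e08_gt.Lm

theorem stmtTip (h1 : BasicStmt) : TipStmt := by
  intro a b h hP hC
  have hb := hP.bpos
  have hb' := hP.ble
  norm_num at hb'
  obtain ⟨ha, ht, -, -, -, -, hY, hX, hxF, -, hm, -, -, -⟩ := h1 a b h hP hC 0
  obtain ⟨-, ht', -, -, -, -, hY', hX', hxF', -, hm', -, -, -⟩ := h1 a b h hP hC π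
  have hlo := hC.lo 0
  have hlo' := hC.lo π
  have hahi := hP.ahi
  rw [sin_zero, mul_zero] at hX
  rw [sin_pi, mul_zero] at hX'
  rw [cos_zero, mul_one] at hY
  rw [cos_pi] at hY'
  set t := tt h 0 with htdef
  set s := tt h π with hsdef
  have ht3 : 0 < t ^ 3 := by positivity
  have hs3 : 0 < s ^ 3 := by positivity
  have hx0 : xx h 0 = 0 := by
    rcases mul_eq_zero.1 hX.symm with h | h
    · exact absurd h ht3.ne'
    · exact h
  have hx0' : xx h π = 0 := by
    rcases mul_eq_zero.1 hX'.symm with h | h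
    · exact absurd h hs3.ne'
    · exact h
  rw [hx0] at hxF
  rw [hx0'] at hxF'
  -- the tip
  have hF : iF (a / t ^ 3) b t = 1 := by
    have e : (iF (a / t ^ 3) b t - 1) * (iF (a / t ^ 3) b t + 1) = 0 := by nlinarith
    rcases mul_eq_zero.1 e with e | e
    · linarith
    · exfalso
      unfold iF at e
      have : 0 < t ^ 2 := by positivity
      nlinarith
  have hF' : iF (a / s ^ 3) b s = 1 := by
    have e : (iF (a / s ^ 3) b s - 1) * (iF (a / s ^ 3) b s + 1) = 0 := by nlinarith
    rcases mul_eq_zero.1 e with e | e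
    · linarith
    · exfalso
      have e' : iF (a / s ^ 3) b s = -1 := by linarith
      rw [e'] at hY'
      nlinarith
  rw [hF, mul_one] at hY
  rw [hF', mul_one] at hY'
  have hh0 : exp (h 0) < 1 := by linarith
  have hneg : h 0 < 0 := by
    by_contra hc
    push Not at hc
    have := one_le_exp hc
    linarith
  have hd : t ^ 3 ≤ 1 / 2 := by linarith
  have ht8 : t ≤ 8 / 10 := by
    by_contra hc
    push Not at hc
    have : (8 / 10 : ℝ) ^ 3 < t ^ 3 := pow_lt_pow_left₀ hc (by norm_num) (by norm_num)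
    norm_num at this
    linarith
  have hkey : a = t ^ 3 * (1 + b - t ^ 2 / 10 - t ^ 3 / 2) := by
    have e : a / t ^ 3 = 1 + b - t ^ 2 / 10 - t ^ 3 / 2 := by
      unfold iF at hF
      linarith
    rw [div_eq_iff ht3.ne'] at e
    linarith
  have ht2 : t ^ 2 ≤ 64 / 100 := by nlinarith
  have hb3 : 0 < b ^ 3 := by positivity
  have hd1 : t ^ 3 ≤ 225 * b ^ 3 := by
    have : 2 / 3 * t ^ 3 ≤ a := by
      rw [hkey]
      nlinarith
    linarith
  have ht7 : t ≤ 7 * b := by
    refine le_of_pow_le_pow_left₀ (n := 3) (by norm_num) (by positivity) ?_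
    have : (7 * b) ^ 3 = 343 * b ^ 3 := by ring
    rw [this]
    linarith
  have hsmall : t ^ 2 / 10 + t ^ 3 / 2 ≤ 1 / 10 := by
    have h1 : t ≤ 1 / 1000 := by linarith
    nlinarith
  have hd2 : t ^ 3 ≤ 200 * b ^ 3 := by
    have : 9 / 10 * t ^ 3 ≤ a := by
      rw [hkey]
      nlinarith
    linarith
  have ht6 : t ≤ 6 * b := by
    refine le_of_pow_le_pow_left₀ (n := 3) (by norm_num) (by positivity) ?_
    have : (6 * b) ^ 3 = 216 * b ^ 3 := by ring
    rw [this]
    linarith
  have ha2 : a ≤ 2 * t ^ 3 := by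
    have e : t ^ 3 * (1 + b - t ^ 2 / 10 - t ^ 3 / 2) ≤ t ^ 3 * 2 := by
      refine mul_le_mul_of_nonneg_left ?_ ht3.le
      have : 0 < t ^ 2 := by positivity
      linarith
    linarith
  have hG : iG b t < 0 := by
    unfold iG
    have e1 : t ^ 2 ≤ 36 * b * b := by nlinarith
    have e2 : b * b ≤ b * (1 / 1000000) := mul_le_mul_of_nonneg_left hb' hb.le
    have e3 : b ^ 3 ≤ b * b := by nlinarith
    linarith
  -- the top
  have hs : 3 / 2 ≤ s ^ 3 := by linarith
  have hG' : 1 < iG b s := by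
    unfold iG
    have : 0 < s ^ 2 := by positivity
    linarith
  exact ⟨hneg, hY, hd2, ha2, hF, hG, hF', hG'⟩

end Pool.Agent.Lib.MP_c60e08_gt.Ini
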