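import Pool.Agent.Lib.MP_c60e08_gt.InitSpec

/-!
MP_c60e08_gt, INIT part: the curve with the smallest parameter is under a pinching barrier.
-/

set_option autoImplicit false

namespace Pool.Agent.Lib.MP_c60e08_gt.Ini

open Real Set Pool.Agent.Lib.MP_c60e08_gt.Lm

namespace UnderAux

theorem flow_u (h : ℝ → ℝ) (p : ℝ) : (flowOf (stat h)).u 0 p = uu p (h p) := by
  have h1 : exp (2 * h p) = exp (h p) ^ 2 := by
    rw [← exp_nat_mul]; norm_num
  simp only [FlowData.u, flowOf, stat, uu, iteratedDeriv_zero, h1]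
  have := sin_sq_add_cos_sq p
  nlinarith [this]

theorem flow_Y (h : ℝ → ℝ) (p : ℝ) : (flowOf (stat h)).Y 0 p = 1 - exp (h p) * cos p := by
  simp only [flowOf, stat, iteratedDeriv_zero]

end UnderAux

open UnderAux in
theorem stmtUnder (h1 : BasicStmt) (h2 : TipStmt) : UnderStmt := by
  intro b h hP hC
  have hb := hP.bpos
  have hb6 := hP.ble
  have hb3 : 0 < b ^ 3 := by positivity
  obtain ⟨-, ht0, ht0', -, -, -, -, -⟩ := h2 _ b h hP hC
  refine ⟨by positivity, ?_, ?_, ?_, ?_⟩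
  · apply le_of_eq; ring
  · have : (1 : ℝ) / 10 ^ 6 ≤ 1 / 1000 := by norm_num
    linarith
  · rw [flow_Y]
    simp only [cos_zero, mul_one]
    rw [ht0]
    have h3 : b ^ 3 ≤ b := by
      have : b ^ 2 ≤ 1 := by
        have : b ≤ 1 := by
          have : (1 : ℝ) / 10 ^ 6 ≤ 1 := by norm_num
          linarith
        nlinarith
      nlinarith
    have : 200 * b ^ 3 ≤ 200 * (1 / 10 ^ 6) := by linarith
    have h4 : (200 : ℝ) * (1 / 10 ^ 6) > 0 := by norm_num
    have h5 : 200 * b ^ 3 < 1 / 8000 := by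
      have h6 : b ^ 3 ≤ (1 / 10 ^ 6) ^ 3 := by
        apply pow_le_pow_left₀ hb.le hb6
      have h7 : (200 : ℝ) * (1 / 10 ^ 6) ^ 3 < 1 / 8000 := by norm_num
      linarith
    linarith
  · refine ⟨b ^ 3 / (2 * 440 ^ 3), by positivity, ?_⟩
    intro p hp hrho
    obtain ⟨ha, ht, ht6, hsq, hcb, -, hY, -⟩ := h1 _ b h hP hC p
    set t := tt h p with htdef
    have hrho' : (flowOf (stat h)).rho 0 p = t ^ 3 := by
      simp only [FlowData.rho, flow_u, hsq]
    rw [hrho'] at hrho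
    rw [flow_Y, hY, flow_u]
    unfold barr
    rw [hsq, hcb]
    have hm : t ^ 3 * iF (b ^ 3 / (2 * 440 ^ 3) / t ^ 3) b t =
        b ^ 3 / (2 * 440 ^ 3) - b * t ^ 3 + t ^ 5 / 10 + t ^ 6 / 2 := by
      unfold iF
      field_simp
    rw [hm]
    have hb1 : b ≤ 1 := by
      have : (1 : ℝ) / 10 ^ 6 ≤ 1 := by norm_num
      linarith
    have ht1 : t ≤ 1 := by
      by_contra hlt
      push Not at hlt
      have h6 : b ^ 3 ≤ 1 := pow_le_one₀ hb.le hb1
      have h7 : b ^ 3 / (2 * 440 ^ 3) ≤ 1 / (2 * 440 ^ 3) := by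
        apply div_le_div_of_nonneg_right h6; norm_num
      have h8 : (1 : ℝ) < t ^ 3 := one_lt_pow₀ hlt (by norm_num)
      have h9 : (1 : ℝ) / 8000 + 1 / (2 * 440 ^ 3) < 1 := by norm_num
      linarith
    have ht5 : 0 < t ^ 5 := by positivity
    have h65 : t ^ 6 ≤ t ^ 5 := by
      have : t ^ 6 = t ^ 5 * t := by ring
      rw [this]
      nlinarith
    have he : (b / 440) ^ 3 = 2 * (b ^ 3 / (2 * 440 ^ 3)) := by ring
    have h10 : 0 ≤ 10 * (b / 440) ^ 2 * t ^ 2 := by positivity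
    have h11 : 7 * t ^ 3 * t ^ 2 = 7 * t ^ 5 := by ring
    have h12 : 0 ≤ b * t ^ 3 := by positivity
    rw [he, h11]
    linarith

end Pool.Agent.Lib.MP_c60e08_gt.Ini
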