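import Pool.Agent.Lib.MP_c60e08_gt.InitSpec

/-!
The arclength derivative of the normal velocity along the initial curve.
-/

set_option autoImplicit false

namespace Pool.Agent.Lib.MP_c60e08_gt.Ini

open Real Set Pool.Agent.Lib.MP_c60e08_gt.Lm

namespace V1

/-- the algebra behind the formula -/
private lemma key (t x g L D A DA z G H : ℝ) (ht : t ≠ 0) (hL : L ≠ 0) (hD : D ≠ 0)
    (hg : g ≠ 0) (hLD : L ^ 2 = D) :
    ((3 * (x * g / (3 * t ^ 2 * L)) * A + 3 * t * (g / (t ^ 3 * L) * x * DA)) * (D * L)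
      - 3 * t * A * (2 * (g / (t ^ 3 * L)) * x * z * (G - H) * L
        + D * (2 * (g / (t ^ 3 * L)) * x * z * (G - H) / (2 * L)))) / (D * L) ^ 2 / g
    = 3 * x / (t ^ 2 * D ^ 2) * (A / 3 + DA - 3 * A * z * (G - H) / D) := by
  subst hLD
  field_simp
  ring

end V1

theorem stmtV1 (h1 : BasicStmt) (h2 : FrameStmt) (h3 : DtStmt) (h4 : CurvStmt) : V1Stmt := by
  intro a b h hP hC p
  obtain ⟨-, htpos, -⟩ := h1 a b h hP hC p
  obtain ⟨hDpos, -, -⟩ := h2 a b h hP hC p
  obtain ⟨hT, hF, -⟩ := h3 a b h hP hC p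
  set t := tt h p with ht
  set x := xx h p with hx
  set g := gg h p with hg
  set D := iD (a / t ^ 3) b t with hD
  set L := √D with hL
  have hLpos : 0 < L := Real.sqrt_pos.mpr hDpos
  have hLD : L ^ 2 = D := Real.sq_sqrt hDpos.le
  have hgpos : 0 < g := by
    rw [hg]
    unfold gg
    positivity
  -- the velocity as a function of the parameter
  have hv : pv (stat h) 0 = fun q => 3 * tt h q * iA (a / tt h q ^ 3) b (tt h q) /
      (iD (a / tt h q ^ 3) b (tt h q) * √(iD (a / tt h q ^ 3) b (tt h q))) := by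
    funext q
    exact h4 a b h hP hC q
  have hpg : pg (stat h) 0 p = g := by
    rw [hg]
    unfold pg gg stat
    rw [iteratedDeriv_zero, iteratedDeriv_one]
  have hG : HasDerivAt (fun q => iG b (tt h q)) (g / (t ^ 3 * L) * x * iH t) p := by
    have h6 : HasDerivAt (fun q => iG b (tt h q)) _ p :=
      (((hT.pow 2).div_const 6).const_add (-b)).add (hT.pow 3)
    refine h6.congr_deriv ?_
    unfold iH
    simp only [← ht]
    push_cast
    field_simp
    ring
  have hH : HasDerivAt (fun q => iH (tt h q)) (g / (t ^ 3 * L) * x * iE t) p := by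
    have h6 : HasDerivAt (fun q => iH (tt h q)) _ p := ((hT.pow 2).div_const 9).add (hT.pow 3)
    refine h6.congr_deriv ?_
    unfold iE
    simp only [← ht]
    push_cast
    field_simp
    ring
  have hz : HasDerivAt (fun q => iz (a / tt h q ^ 3) b (tt h q))
      (-(g / (t ^ 3 * L) * x * (iz (a / t ^ 3) b t + iH t))) p := by
    have h6 : HasDerivAt (fun q => iz (a / tt h q ^ 3) b (tt h q)) _ p := hF.sub hG
    refine h6.congr_deriv ?_
    ring
  have hA : HasDerivAt (fun q => iA (a / tt h q ^ 3) b (tt h q))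
      (g / (t ^ 3 * L) * x * iDA (a / t ^ 3) b t) p := by
    have h6 : HasDerivAt (fun q => iA (a / tt h q ^ 3) b (tt h q)) _ p :=
      (hH.mul ((hF.pow 2).const_sub 1)).add (hG.mul (hz.pow 2))
    refine h6.congr_deriv ?_
    unfold iDA
    simp only [← ht, Pi.pow_apply]
    push_cast
    ring
  have hDd : HasDerivAt (fun q => iD (a / tt h q ^ 3) b (tt h q))
      (2 * (g / (t ^ 3 * L)) * x * iz (a / t ^ 3) b t * (iG b t - iH t)) p := by
    have h6 : HasDerivAt (fun q => iD (a / tt h q ^ 3) b (tt h q)) _ p :=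
      (((hF.const_mul 2).mul hG).const_sub 1).add (hG.pow 2)
    refine h6.congr_deriv ?_
    unfold iz
    simp only [← ht]
    push_cast
    ring
  have hLd : HasDerivAt (fun q => √(iD (a / tt h q ^ 3) b (tt h q)))
      (2 * (g / (t ^ 3 * L)) * x * iz (a / t ^ 3) b t * (iG b t - iH t) / (2 * L)) p :=
    hDd.sqrt hDpos.ne'
  have hnum := (hT.const_mul 3).mul hA
  have hden := hDd.mul hLd
  have hall := hnum.div hden (mul_ne_zero hDpos.ne' hLpos.ne')
  unfold pD
  rw [hpg, hv]
  have hder := hall.deriv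
  simp only [← ht] at hder
  rw [show (fun q => 3 * tt h q * iA (a / tt h q ^ 3) b (tt h q) /
      (iD (a / tt h q ^ 3) b (tt h q) * √(iD (a / tt h q ^ 3) b (tt h q)))) =
      ((fun y => 3 * tt h y) * fun q => iA (a / tt h q ^ 3) b (tt h q)) /
      ((fun q => iD (a / tt h q ^ 3) b (tt h q)) *
        fun q => √(iD (a / tt h q ^ 3) b (tt h q))) from rfl, hder]
  have hk := V1.key t x g L D (iA (a / t ^ 3) b t) (iDA (a / t ^ 3) b t) (iz (a / t ^ 3) b t)
    (iG b t) (iH t) htpos.ne' hLpos.ne' hDpos.ne' hgpos.ne' hLD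
  exact hk

end Pool.Agent.Lib.MP_c60e08_gt.Ini
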