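import Pool.Agent.Lib.MP_c60e08_gt.InitFinal
import Pool.Agent.Lib.MP_c60e08_gt.InitBasic
import Pool.Agent.Lib.MP_c60e08_gt.InitCurv
import Pool.Agent.Lib.MP_c60e08_gt.InitDt
import Pool.Agent.Lib.MP_c60e08_gt.InitFam
import Pool.Agent.Lib.MP_c60e08_gt.InitFar
import Pool.Agent.Lib.MP_c60e08_gt.InitFrame
import Pool.Agent.Lib.MP_c60e08_gt.InitImplicit
import Pool.Agent.Lib.MP_c60e08_gt.InitInner
import Pool.Agent.Lib.MP_c60e08_gt.InitMisc
import Pool.Agent.Lib.MP_c60e08_gt.InitNear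
import Pool.Agent.Lib.MP_c60e08_gt.InitOm
import Pool.Agent.Lib.MP_c60e08_gt.InitPoly
import Pool.Agent.Lib.MP_c60e08_gt.InitRoot
import Pool.Agent.Lib.MP_c60e08_gt.InitSlope
import Pool.Agent.Lib.MP_c60e08_gt.InitTh
import Pool.Agent.Lib.MP_c60e08_gt.InitTip
import Pool.Agent.Lib.MP_c60e08_gt.InitUnder
import Pool.Agent.Lib.MP_c60e08_gt.InitV1

/-!
MP_c60e08_gt, INIT part: assembly. The family of initial curves exists (`FamilyStmt`).
-/

set_option autoImplicit false

namespace Pool.Agent.Lib.MP_c60e08_gt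

open Ini Lm

/-- **FamilyStmt** of `LmDefs.lean`, with no hypotheses. -/
theorem familyStmt : FamilyStmt := by
  have hB := stmtBasic
  have hT := stmtTip hB
  have hS := stmtSlope hB
  have hFr := stmtFrame hB hS
  have hDt := stmtDt hB hS hFr
  have hCu := stmtCurv hB hFr hDt
  have hV := stmtV1 hB hFr hDt hCu
  have hOm := stmtOm hB hFr hCu hV
  exact family hB (stmtFam stmtRoot stmtImplicit) hT hS hFr hOm (stmtNear stmtPoly)
    (stmtFar stmtPoly) (stmtTh hB hFr) (stmtMisc hB hT hS hFr hCu hOm)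
    (stmtInner hB hT hFr hCu hOm) (stmtUnder hB hT)

end Pool.Agent.Lib.MP_c60e08_gt
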