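import Pool.Agent.Lib.MP_c60e08_gt.InitSpec

/-!
MP_c60e08_gt, INIT part: `FamilyStmt` from the statements of `InitSpec.lean`.
-/

set_option autoImplicit false

namespace Pool.Agent.Lib.MP_c60e08_gt.Ini

open Real Set Pool.Agent.Lib.MP_c60e08_gt.Lm

namespace FinalAux

theorem u_eq (h : ℝ → ℝ) (p : ℝ) : (flowOf (stat h)).u 0 p = uu p (h p) := by
  simp only [FlowData.u, flowOf, stat, uu, iteratedDeriv_zero]
  have h1 : exp (2 * h p) = exp (h p) ^ 2 := by rw [← Real.exp_nat_mul]; norm_num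
  rw [h1]
  nlinarith [Real.sin_sq_add_cos_sq p]

theorem X_eq (h : ℝ → ℝ) (p : ℝ) : (flowOf (stat h)).X 0 p = exp (h p) * sin p := by
  simp only [flowOf, stat, iteratedDeriv_zero]

theorem Y_eq (h : ℝ → ℝ) (p : ℝ) : (flowOf (stat h)).Y 0 p = 1 - exp (h p) * cos p := by
  simp only [flowOf, stat, iteratedDeriv_zero]

theorem th_eq (h : ℝ → ℝ) (p : ℝ) : (flowOf (stat h)).th 0 p = thh h p := by
  simp only [flowOf, stat, iteratedDeriv_one, thh]

theorem Y0_eq (h : ℝ → ℝ) : (flowOf (stat h)).Y 0 0 = 1 - exp (h 0) := by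
  rw [Y_eq]; simp

end FinalAux

open FinalAux

theorem init_of (hB : BasicStmt) (hT : TipStmt) (hS : SlopeStmt) (hFr : FrameStmt)
    (hOm : OmStmt) (hTh : ThStmt) (hM : MiscStmt) (hI : InnerStmt) {a b : ℝ} {h : ℝ → ℝ}
    (hP : Par a b) (hC : Crv a b h)
    (hW : ∀ m t : ℝ, 0 < t → t ≤ 6 / 5 → 0 ≤ m → m ≤ 1 + b → m * t ^ 3 ≤ 150 * b ^ 3 →
      0 ≤ iW1 m b t ∧ 0 < iW2 m b t) :
    Init b (10 ^ 4) (flowOf (stat h)) := by
  have hb := hB a b h hP hC
  obtain ⟨m1, m2, m3, m4, m5, m6, m7⟩ := hM a b h hP hC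
  obtain ⟨t1, t2, t3, t4, t5, t6, t7, t8⟩ := hT a b h hP hC
  have hw : ∀ p, 0 ≤ iW1 (a / tt h p ^ 3) b (tt h p) ∧ 0 < iW2 (a / tt h p ^ 3) b (tt h p) := by
    intro p
    obtain ⟨b1, b2, b3, b4, b5, b6, b7, b8, b9, b10, b11, b12, b13, b14⟩ := hb p
    refine hW _ _ b2 b10.le b11.le b12 ?_
    have : a / tt h p ^ 3 * tt h p ^ 3 = a := by field_simp
    rw [this]; exact hP.ahi
  have hcont : Continuous (tt h) := by
    rw [continuous_iff_continuousAt]
    intro p
    exact ((hS a b h hP hC p).2).continuousAt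
  refine
    { dle := ?_, hr := ?_, hom1 := ?_, hom2 := ?_, vtip := m2, vtop := m3, hth := ?_, hth2 := ?_,
      dist1 := m4, dist2 := m5, star := m6, outer := ?_, inner := ?_ }
  · rw [Y0_eq, t2]; exact t3
  · exact ⟨1 / 3, by norm_num, m1⟩
  · intro p _
    obtain ⟨b1, b2, b3, b4, b5, b6, b7, b8, b9, b10, b11, b12, b13, b14⟩ := hb p
    rw [(hOm a b h hP hC p).2.2.1]
    have hD := (hFr a b h hP hC p).1
    have h1 := (hw p).1
    positivity
  · -- a positive lower bound by compactness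
    set q : ℝ → ℝ := fun p => 3 * iW2 (a / tt h p ^ 3) b (tt h p) /
      (tt h p ^ 2 * (iD (a / tt h p ^ 3) b (tt h p) ^ 3 *
        √(iD (a / tt h p ^ 3) b (tt h p)))) with hq
    have hne : ∀ p, tt h p ^ 3 ≠ 0 := fun p => (pow_pos (hb p).2.1 3).ne'
    have hm : Continuous (fun p => a / tt h p ^ 3) :=
      continuous_const.div (hcont.pow 3) hne
    have hD : ∀ p, 0 < iD (a / tt h p ^ 3) b (tt h p) := fun p => (hFr a b h hP hC p).1
    have hDc : Continuous (fun p => iD (a / tt h p ^ 3) b (tt h p)) := by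
      unfold iD iF iG
      fun_prop
    have hWc : Continuous (fun p => iW2 (a / tt h p ^ 3) b (tt h p)) := by
      unfold iW2 iB iDA iA iD iz iF iG iH iE
      fun_prop
    have hqc : Continuous q := by
      refine (continuous_const.mul hWc).div
        ((hcont.pow 2).mul ((hDc.pow 3).mul (Real.continuous_sqrt.comp hDc))) ?_
      intro p
      have h1 := hD p
      have h2 := (hb p).2.1
      have h3 := Real.sqrt_pos.2 h1
      change tt h p ^ 2 * (iD (a / tt h p ^ 3) b (tt h p) ^ 3 *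
        √(iD (a / tt h p ^ 3) b (tt h p))) ≠ 0
      positivity
    obtain ⟨p0, _, hp0⟩ := isCompact_Icc.exists_isMinOn (s := Icc (0 : ℝ) π)
      ⟨0, by simp [Real.pi_pos.le]⟩ hqc.continuousOn
    have hqpos : ∀ p, 0 < q p := by
      intro p
      have h1 := hD p
      have h2 := (hb p).2.1
      have h3 := Real.sqrt_pos.2 h1
      have h4 := (hw p).2
      simp only [hq]
      positivity
    refine ⟨q p0, hqpos p0, fun p hp => ?_⟩
    have h1 : q p0 ≤ q p := hp0 hp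
    have h2 := (hb p).2.1
    have h3 := Real.sqrt_pos.2 (hD p)
    have h4 := hD p
    have hX : (flowOf (stat h)).X 0 p = tt h p ^ 3 * xx h p := by
      rw [X_eq]; exact (hb p).2.2.2.2.2.2.2.1
    have hX0 : 0 ≤ (flowOf (stat h)).X 0 p := by
      rw [X_eq]; exact mul_nonneg (exp_pos _).le (sin_nonneg_of_mem_Icc hp)
    calc q p0 * (flowOf (stat h)).X 0 p ≤ q p * (flowOf (stat h)).X 0 p :=
          mul_le_mul_of_nonneg_right h1 hX0
      _ = (flowOf (stat h)).om2 0 p := by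
          rw [(hOm a b h hP hC p).2.2.2, hX]
          simp only [hq]
          field_simp
  · intro p hp
    have h1 := (hTh a b h hP hC p hp).1
    rw [th_eq]
    have h2 : (flowOf (stat h)).ss 0 p = tt h p ^ 2 := by
      unfold FlowData.ss
      rw [u_eq]; exact (hb p).2.2.2.2.1
    rw [h2]; exact h1
  · intro p hp
    rw [th_eq]; exact (hTh a b h hP hC p hp).2
  · intro p hp hs
    have h2 : (flowOf (stat h)).ss 0 p = tt h p ^ 2 := by
      unfold FlowData.ss
      rw [u_eq]; exact (hb p).2.2.2.2.1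
    rw [h2] at hs
    exact m7 p hp hs
  · intro p hp hr
    have h2 : (flowOf (stat h)).rho 0 p = tt h p ^ 3 := by
      unfold FlowData.rho
      rw [u_eq]; exact (hb p).2.2.2.1
    rw [h2] at hr
    have h3 : tt h p ≤ 1 / 20 := by
      have h4 := (hb p).2.1
      by_contra hcon
      push Not at hcon
      have : (1 / 20 : ℝ) ^ 3 < tt h p ^ 3 := pow_lt_pow_left₀ hcon (by norm_num) (by norm_num)
      norm_num at this hr
      linarith
    have h5 := hI a b h hP hC p hp h3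
    have h6 : ((flowOf (stat h)).Y 0 0) ^ ((2 : ℝ) / 3) = tt h 0 ^ 2 := by
      rw [Y0_eq, t2]
      have h7 := (hb 0).2.1
      rw [← Real.rpow_natCast (tt h 0) 3, ← Real.rpow_mul h7.le]
      norm_num
    rw [h6]; exact h5

/-- The family. -/
theorem family (hB : BasicStmt) (hFam : FamStmt) (hT : TipStmt) (hS : SlopeStmt)
    (hFr : FrameStmt) (hOm : OmStmt) (hN : NearStmt) (hFar : FarStmt) (hTh : ThStmt)
    (hM : MiscStmt) (hI : InnerStmt) (hU : UnderStmt) : FamilyStmt := by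
  obtain ⟨η, hη0, hη1, hnear⟩ := hN
  obtain ⟨b2, hb2, hfar⟩ := hFar η hη0
  refine ⟨10 ^ 4, by norm_num, min (1 / 10 ^ 6) (min η b2), by positivity, ?_⟩
  intro b hb0 hb1
  have hb6 : b ≤ 1 / 10 ^ 6 := hb1.trans (min_le_left _ _)
  have hbη : b ≤ η := hb1.trans ((min_le_right _ _).trans (min_le_left _ _))
  have hbb2 : b ≤ b2 := hb1.trans ((min_le_right _ _).trans (min_le_right _ _))
  obtain ⟨y0, hsm, hy⟩ := hFam b hb0 hb6
  have hW : ∀ m t : ℝ, 0 < t → t ≤ 6 / 5 → 0 ≤ m → m ≤ 1 + b → m * t ^ 3 ≤ 150 * b ^ 3 →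
      0 ≤ iW1 m b t ∧ 0 < iW2 m b t := by
    intro m t ht0 ht1 hm0 hm1 hmt
    rcases le_total t η with h | h
    · exact hnear m b t hb0 hbη ht0 h hm0 hm1 hmt
    · have := hfar m b t hb0 hbb2 h ht1 hm0 hmt
      exact ⟨this.1.le, this.2⟩
  refine ⟨y0, hsm, fun l => (hy l).2.per, fun l => (hy l).2.even, fun l => (hy l).2.upos,
    fun l => (hT _ _ _ (hy l).1 (hy l).2).1,
    fun l => init_of hB hT hS hFr hOm hTh hM hI (hy l).1 (hy l).2 hW, ?_, ?_⟩
  · have e0 : aL b 0 = b ^ 3 / (2 * 440 ^ 3) := by simp [aL]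
    have h1 := hy 0
    rw [e0] at h1
    exact hU b (y0 0) h1.1 h1.2
  · have e1 : aL b 1 = 150 * b ^ 3 := by simp [aL]
    have h1 := hy 1
    rw [e1] at h1
    intro p _
    obtain ⟨b1, b2, b3, b4, b5, b6, b7, b8, b9, b10, b11, b12, b13, b14⟩ :=
      hB _ _ _ h1.1 h1.2 p
    have h2 : (flowOf (stat (y0 1))).rho 0 p = tt (y0 1) p ^ 3 := by
      unfold FlowData.rho
      rw [u_eq]; exact b4
    rw [h2, Y_eq, b7]
    have h3 : tt (y0 1) p ^ 3 * iF (150 * b ^ 3 / tt (y0 1) p ^ 3) b (tt (y0 1) p) =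
        150 * b ^ 3 - b * tt (y0 1) p ^ 3 + tt (y0 1) p ^ 5 / 10 + tt (y0 1) p ^ 6 / 2 := by
      unfold iF
      field_simp
    rw [h3]
    have h4 : 0 ≤ tt (y0 1) p ^ 5 / 10 + tt (y0 1) p ^ 6 / 2 := by positivity
    linarith

end Pool.Agent.Lib.MP_c60e08_gt.Ini
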