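import Pool.Agent.Lib.MP_c60e08_gt.InitSpec

/-!
MP_c60e08_gt, INIT part: positivity of `W1`, `W2` near the tip.
-/

set_option autoImplicit false

namespace Pool.Agent.Lib.MP_c60e08_gt.Ini

open Real Set Pool.Agent.Lib.MP_c60e08_gt.Lm

namespace NearAux

theorem unif (α : ℝ × ℝ × ℝ → ℝ) (hα : Continuous α) :
    ∃ η : ℝ, 0 < η ∧ ∀ m b t : ℝ, 0 ≤ m → m ≤ 2 → 0 ≤ b → b ≤ η → 0 ≤ t → t ≤ η →
      |α (m, b, t) - α (m, 0, 0)| ≤ 1 / 1000 := by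
  have hK : IsCompact (Icc (0 : ℝ) 2 ×ˢ (Icc (0 : ℝ) 1 ×ˢ Icc (0 : ℝ) 1)) :=
    isCompact_Icc.prod (isCompact_Icc.prod isCompact_Icc)
  have hu := hK.uniformContinuousOn_of_continuous hα.continuousOn
  rw [Metric.uniformContinuousOn_iff] at hu
  obtain ⟨δ, hδ, h⟩ := hu (1 / 1000) (by norm_num)
  refine ⟨min (δ / 2) 1, by positivity, ?_⟩
  intro m b t hm hm2 hb hbη ht htη
  have hb1 : b ≤ 1 := hbη.trans (min_le_right _ _)
  have ht1 : t ≤ 1 := htη.trans (min_le_right _ _)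
  have hbd : b ≤ δ / 2 := hbη.trans (min_le_left _ _)
  have htd : t ≤ δ / 2 := htη.trans (min_le_left _ _)
  have h2 := h (m, b, t) ⟨⟨hm, hm2⟩, ⟨hb, hb1⟩, ⟨ht, ht1⟩⟩ (m, 0, 0)
    ⟨⟨hm, hm2⟩, ⟨le_rfl, zero_le_one⟩, ⟨le_rfl, zero_le_one⟩⟩ (by
      rw [Prod.dist_eq, Prod.dist_eq]
      simp only [dist_self, Real.dist_eq, sub_zero]
      rw [abs_of_nonneg hb, abs_of_nonneg ht]
      apply max_lt hδ
      apply max_lt <;> linarith)
  rw [Real.dist_eq] at h2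
  exact h2.le

/-- the elementary inequality for `W1`, case `1/4 ≤ m` -/
theorem big {m b t a1 a2 a3 a4 : ℝ} (hb : 0 < b) (hb1 : b ≤ 1 / 1000) (ht : 0 < t)
    (hm : 1 / 4 ≤ m) (hm1 : m ≤ 1 + b) (hmt : m * t ^ 3 ≤ 150 * b ^ 3)
    (h1 : |a1| ≤ 2) (h2 : 9 / 10 ≤ a2) (h3 : |a3| ≤ 1) (h4 : |a4| ≤ 1) :
    0 ≤ t ^ 3 * a1 + b * m ^ 2 * a2 + t ^ 2 * m ^ 2 * a3 + b * m * t ^ 2 * a4 := by
  have ht3 : 0 < t ^ 3 := by positivity
  have e1 : t ^ 3 ≤ 600 * b ^ 3 := by nlinarith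
  have e2 : t ≤ 9 * b := by
    by_contra hc
    push Not at hc
    have h9 : (9 * b) ^ 3 < t ^ 3 := pow_lt_pow_left₀ hc (by positivity) (by norm_num)
    have h10 : (9 * b) ^ 3 = 729 * b ^ 3 := by ring
    have h11 : 0 < b ^ 3 := by positivity
    linarith
  have e3 : t ^ 2 ≤ 81 * b ^ 2 := by
    calc t ^ 2 ≤ (9 * b) ^ 2 := pow_le_pow_left₀ ht.le e2 2
      _ = 81 * b ^ 2 := by ring
  have f1 : -(2 * t ^ 3) ≤ t ^ 3 * a1 := by
    have := (abs_le.mp h1).1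
    nlinarith
  have hbm : 0 < b * m ^ 2 := by positivity
  have f2 : 9 / 10 * (b * m ^ 2) ≤ b * m ^ 2 * a2 := by nlinarith
  have f3 : -(t ^ 2 * m ^ 2) ≤ t ^ 2 * m ^ 2 * a3 := by
    have := (abs_le.mp h3).1
    have h5 : 0 ≤ t ^ 2 * m ^ 2 := by positivity
    nlinarith
  have f4 : -(b * m * t ^ 2) ≤ b * m * t ^ 2 * a4 := by
    have := (abs_le.mp h4).1
    have h5 : 0 ≤ b * m * t ^ 2 := by positivity
    nlinarith
  have hb2 : b ^ 2 ≤ b / 1000 := by nlinarith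
  have hb3 : b ^ 3 ≤ b / 1000000 := by
    calc b ^ 3 = b ^ 2 * b := by ring
      _ ≤ b / 1000 * b := mul_le_mul_of_nonneg_right hb2 hb.le
      _ = b ^ 2 / 1000 := by ring
      _ ≤ b / 1000 / 1000 := by linarith
      _ = b / 1000000 := by ring
  have g1 : 2 * t ^ 3 ≤ 12 / 10000 * b := by linarith
  have g2 : t ^ 2 * m ^ 2 ≤ 81 / 1000 * (b * m ^ 2) := by
    calc t ^ 2 * m ^ 2 ≤ 81 * b ^ 2 * m ^ 2 := mul_le_mul_of_nonneg_right e3 (sq_nonneg m)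
      _ ≤ 81 * (b / 1000) * m ^ 2 := by
        apply mul_le_mul_of_nonneg_right _ (sq_nonneg m)
        linarith
      _ = 81 / 1000 * (b * m ^ 2) := by ring
  have g3 : b * m * t ^ 2 ≤ 2 / 10000 * b := by
    have h6 : b * m * t ^ 2 ≤ b * m * (81 * b ^ 2) :=
      mul_le_mul_of_nonneg_left e3 (by positivity)
    have h7 : b * m * (81 * b ^ 2) = 81 * m * b ^ 3 := by ring
    have h8 : 81 * m * b ^ 3 ≤ 81 * m * (b / 1000000) :=
      mul_le_mul_of_nonneg_left hb3 (by positivity)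
    have h9 : m ≤ 2 := by linarith
    have h10 : m * b ≤ 2 * b := mul_le_mul_of_nonneg_right h9 hb.le
    nlinarith
  have g4 : b / 16 ≤ b * m ^ 2 := by
    have h16 : (1 / 16 : ℝ) ≤ m ^ 2 := by nlinarith
    nlinarith
  linarith

/-- the elementary inequality for `W1`, case `m < 1/4` -/
theorem small {m b t a1 a2 a3 a4 : ℝ} (hb : 0 < b) (hb1 : b ≤ 1 / 1000) (ht : 0 < t)
    (ht1 : t ≤ 1 / 1000) (hm0 : 0 ≤ m) (hmt : m * t ^ 3 ≤ 150 * b ^ 3)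
    (h1 : 1 / 5 ≤ a1) (h2 : 2 ≤ a2) (h3 : |a3| ≤ 1 / 4) (h4 : |a4| ≤ 1 / 4) :
    0 ≤ t ^ 3 * a1 + b * m ^ 2 * a2 + t ^ 2 * m ^ 2 * a3 + b * m * t ^ 2 * a4 := by
  have ht3 : 0 < t ^ 3 := by positivity
  have f1 : t ^ 3 / 5 ≤ t ^ 3 * a1 := by nlinarith
  have hbm : 0 ≤ b * m ^ 2 := by positivity
  have f2 : 2 * (b * m ^ 2) ≤ b * m ^ 2 * a2 := by nlinarith
  have f3 : -(t ^ 2 * m ^ 2 / 4) ≤ t ^ 2 * m ^ 2 * a3 := by
    have := (abs_le.mp h3).1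
    have h5 : 0 ≤ t ^ 2 * m ^ 2 := by positivity
    nlinarith
  have f4 : -(b * m * t ^ 2 / 4) ≤ b * m * t ^ 2 * a4 := by
    have := (abs_le.mp h4).1
    have h5 : 0 ≤ b * m * t ^ 2 := by positivity
    nlinarith
  have g1 : b * m * t ^ 2 ≤ b * m ^ 2 + b * t ^ 4 := by
    have h5 : m * t ^ 2 ≤ m ^ 2 + t ^ 4 := by
      nlinarith [sq_nonneg (m - t ^ 2), sq_nonneg m, sq_nonneg (t ^ 2)]
    have h6 := mul_le_mul_of_nonneg_left h5 hb.le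
    linarith
  have g2 : b * t ^ 4 ≤ t ^ 3 / 1000 := by
    have h5 : b * t ≤ 1 / 1000 := by nlinarith
    have h6 := mul_le_mul_of_nonneg_right h5 ht3.le
    calc b * t ^ 4 = b * t * t ^ 3 := by ring
      _ ≤ 1 / 1000 * t ^ 3 := h6
      _ = t ^ 3 / 1000 := by ring
  have g3 : t ^ 2 * m ^ 2 ≤ b * m ^ 2 + t ^ 3 / 10 := by
    rcases le_or_gt (t ^ 2) b with hc | hc
    · have := mul_le_mul_of_nonneg_right hc (sq_nonneg m)
      have h7 : 0 ≤ t ^ 3 / 10 := by positivity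
      linarith
    · have hb3 : b ^ 3 ≤ t ^ 6 := by
        calc b ^ 3 ≤ (t ^ 2) ^ 3 := pow_le_pow_left₀ hb.le hc.le 3
          _ = t ^ 6 := by ring
      have hm2 : m ≤ 150 * t ^ 3 := by
        have h8 : m * t ^ 3 ≤ 150 * t ^ 3 * t ^ 3 := by
          calc m * t ^ 3 ≤ 150 * b ^ 3 := hmt
            _ ≤ 150 * t ^ 6 := by linarith
            _ = 150 * t ^ 3 * t ^ 3 := by ring
        exact le_of_mul_le_mul_right h8 ht3
      have hm3 : m ^ 2 ≤ 22500 * t ^ 6 := by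
        calc m ^ 2 ≤ (150 * t ^ 3) ^ 2 := pow_le_pow_left₀ hm0 hm2 2
          _ = 22500 * t ^ 6 := by ring
      have h9 : t ^ 5 ≤ (1 / 1000) ^ 5 := pow_le_pow_left₀ ht.le ht1 5
      have h10 : t ^ 2 * m ^ 2 ≤ t ^ 2 * (22500 * t ^ 6) :=
        mul_le_mul_of_nonneg_left hm3 (sq_nonneg t)
      have h11 : t ^ 2 * (22500 * t ^ 6) = 22500 * t ^ 5 * t ^ 3 := by ring
      have h12 : 22500 * t ^ 5 ≤ 1 / 10 := by
        norm_num at h9
        linarith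
      have h13 := mul_le_mul_of_nonneg_right h12 ht3.le
      linarith
  linarith

end NearAux

theorem stmtNear (h1 : PolyStmt) : NearStmt := by
  obtain ⟨α1, α2, α3, α4, γ1, γ2, γ3, c1, c2, c3, c4, c5, c6, c7, hW1, hW2, v1, v2, v3, v4, v5,
    v6, v7, -⟩ := h1
  obtain ⟨η1, p1, u1⟩ := NearAux.unif α1 c1
  obtain ⟨η2, p2, u2⟩ := NearAux.unif α2 c2
  obtain ⟨η3, p3, u3⟩ := NearAux.unif α3 c3
  obtain ⟨η4, p4, u4⟩ := NearAux.unif α4 c4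
  obtain ⟨η5, p5, u5⟩ := NearAux.unif γ1 c5
  obtain ⟨η6, p6, u6⟩ := NearAux.unif γ2 c6
  obtain ⟨η7, p7, u7⟩ := NearAux.unif γ3 c7
  obtain ⟨η, hη, l0, l1, l2, l3, l4, l5, l6, l7⟩ : ∃ η : ℝ, 0 < η ∧ η ≤ 1 / 1000 ∧ η ≤ η1 ∧
      η ≤ η2 ∧ η ≤ η3 ∧ η ≤ η4 ∧ η ≤ η5 ∧ η ≤ η6 ∧ η ≤ η7 := by
    refine ⟨min (1 / 1000) (min η1 (min η2 (min η3 (min η4 (min η5 (min η6 η7)))))), ?_, ?_, ?_,
      ?_, ?_, ?_, ?_, ?_, ?_⟩
    · positivity
    all_goals simp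
  refine ⟨η, hη, by linarith, ?_⟩
  intro m b t hb hbη ht htη hm hm1 hmt
  have hm2 : m ≤ 2 := by linarith
  have w1 := abs_le.mp (u1 m b t hm hm2 hb.le (hbη.trans l1) ht.le (htη.trans l1))
  have w2 := abs_le.mp (u2 m b t hm hm2 hb.le (hbη.trans l2) ht.le (htη.trans l2))
  have w3 := abs_le.mp (u3 m b t hm hm2 hb.le (hbη.trans l3) ht.le (htη.trans l3))
  have w4 := abs_le.mp (u4 m b t hm hm2 hb.le (hbη.trans l4) ht.le (htη.trans l4))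
  have w5 := abs_le.mp (u5 m b t hm hm2 hb.le (hbη.trans l5) ht.le (htη.trans l5))
  have w6 := abs_le.mp (u6 m b t hm hm2 hb.le (hbη.trans l6) ht.le (htη.trans l6))
  have w7 := abs_le.mp (u7 m b t hm hm2 hb.le (hbη.trans l7) ht.le (htη.trans l7))
  rw [v1] at w1
  rw [v2] at w2
  rw [v3] at w3
  rw [v4] at w4
  rw [v5] at w5
  rw [v6] at w6
  rw [v7] at w7
  rw [hW1, hW2]
  have hb1 : b ≤ 1 / 1000 := hbη.trans l0
  have ht1 : t ≤ 1 / 1000 := htη.trans l0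
  have hmm : m ^ 2 ≤ 101 / 100 := by nlinarith
  have hm0 : 0 ≤ m ^ 2 := sq_nonneg m
  constructor
  · rcases le_or_gt (1 / 4) m with hc | hc
    · apply NearAux.big hb hb1 ht hc hm1 hmt
      · rw [abs_le]; constructor <;> linarith [w1.1, w1.2]
      · linarith [w2.1]
      · rw [abs_le]; constructor <;> linarith [w3.1, w3.2]
      · rw [abs_le]; constructor <;> linarith [w4.1, w4.2]
    · have hm16 : m ^ 2 ≤ 1 / 16 := by nlinarith
      apply NearAux.small hb hb1 ht ht1 hm hmt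
      · linarith [w1.1]
      · linarith [w2.1]
      · rw [abs_le]; constructor <;> linarith [w3.1, w3.2]
      · rw [abs_le]; constructor <;> linarith [w4.1, w4.2]
  · have k1 : 0 ≤ γ1 (m, b, t) := by linarith [w5.1]
    have k2 : 0 < γ2 (m, b, t) := by linarith [w6.1]
    have k3 : 0 ≤ γ3 (m, b, t) := by linarith [w7.1]
    have k4 : 0 ≤ m * t ^ 2 * γ1 (m, b, t) := by positivity
    have k5 : 0 < t ^ 4 * γ2 (m, b, t) := by positivity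
    have k6 : 0 ≤ m ^ 3 * b * γ3 (m, b, t) := by positivity
    linarith

end Pool.Agent.Lib.MP_c60e08_gt.Ini
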