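import Pool.Agent.Lib.MP_c60e08_gt.LmDefs

/-!
MP_c60e08_gt, INIT part: definitions and statements for `FamilyStmt` (the family of initial curves).

The curve is `Y = a - b rho + rho^(5/3)/10 + rho^2/2` (`rho = |w|`), i.e.
`|w - i|^2 = 1 - 2a + 2 b rho - rho^(5/3)/5`.  With `t = rho^(1/3)` everything is polynomial.
NOTATION in the docstrings (on the curve, `w = (X,Y)`, `rho = t^3`, `m = a/t^3`):
`F = Y/rho = iF m b t`, `G = Phi'(rho) = iG b t`, `H = rho Phi'' = iH t`, `E = D H = iE t`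
(`D = rho d/drho`, so `D F = -z`, `D G = H`), `z = F - G = m - t^2/15 - t^3/2`, `x = X/rho`,
`x^2 = 1 - F^2`, `Delta = 1 - 2 F G + G^2 = x^2 + z^2 = G^2 x^2 + (1 - F G)^2`, `Lam = √Delta`,
`A = H x^2 + G z^2`, `DA = D A`, `g = |w_p| = exp h √(1 + h'^2)`, `th = p - arctan h'`.
Main formulas: `Lam (cos th, sin th) = (1 - F G, G x)`, `r = rho x/Lam`, `zeta = rho z/Lam`,
`kappa = A/(rho Delta Lam)`, `v = 3 t A/(Delta Lam)`, `om1 = 3 t W1/(Delta^3 Lam)`,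
`om2 = 3 t x W2/(Delta^3 Lam)`.
-/

set_option autoImplicit false

namespace Pool.Agent.Lib.MP_c60e08_gt.Ini

open Real Set Pool.Agent.Lib.MP_c60e08_gt.Lm

/-! ## Definitions -/

noncomputable def iF (m b t : ℝ) : ℝ := m - b + t ^ 2 / 10 + t ^ 3 / 2
noncomputable def iG (b t : ℝ) : ℝ := -b + t ^ 2 / 6 + t ^ 3
noncomputable def iH (t : ℝ) : ℝ := t ^ 2 / 9 + t ^ 3
noncomputable def iE (t : ℝ) : ℝ := 2 * t ^ 2 / 27 + t ^ 3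
noncomputable def iz (m b t : ℝ) : ℝ := iF m b t - iG b t
/-- `Delta` -/
noncomputable def iD (m b t : ℝ) : ℝ := 1 - 2 * iF m b t * iG b t + iG b t ^ 2
noncomputable def iA (m b t : ℝ) : ℝ := iH t * (1 - iF m b t ^ 2) + iG b t * iz m b t ^ 2
noncomputable def iDA (m b t : ℝ) : ℝ :=
  iE t * (1 - iF m b t ^ 2) + 2 * iF m b t * iH t * iz m b t + iH t * iz m b t ^ 2
    - 2 * iG b t * iz m b t ^ 2 - 2 * iG b t * iH t * iz m b t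
noncomputable def iB (m b t : ℝ) : ℝ :=
  iD m b t * iDA m b t - 2 * iz m b t * (iG b t - iH t) * iA m b t
    - 2 / 3 * iD m b t * iA m b t
noncomputable def iW1 (m b t : ℝ) : ℝ :=
  (1 - iF m b t ^ 2) * iB m b t - iD m b t * iA m b t * iF m b t * iz m b t
noncomputable def iW2 (m b t : ℝ) : ℝ :=
  iz m b t * iB m b t + iD m b t * iA m b t * (iz m b t + iH t)

/-- admissible parameters -/
structure Par (a b : ℝ) : Prop where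
  bpos : 0 < b
  ble : b ≤ 1 / 10 ^ 6
  alo : b ^ 3 / (2 * 440 ^ 3) ≤ a
  ahi : a ≤ 150 * b ^ 3

/-- `t = rho^(1/3)` along the curve -/
noncomputable def tt (h : ℝ → ℝ) (p : ℝ) : ℝ := (uu p (h p)) ^ ((1 : ℝ) / 6)

/-- `x = X/rho` along the curve -/
noncomputable def xx (h : ℝ → ℝ) (p : ℝ) : ℝ := exp (h p) * sin p / tt h p ^ 3

/-- the curve with the parameters `a b` as a polar graph about `(0,1)` -/
structure Crv (a b : ℝ) (h : ℝ → ℝ) : Prop where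
  smooth : ContDiff ℝ (⊤ : ℕ∞) h
  per : ∀ p, h (p + 2 * π) = h p
  even : ∀ p, h (-p) = h p
  upos : ∀ p, 0 < uu p (h p)
  lo : ∀ p, 1 / 2 ≤ exp (h p)
  hi : ∀ p, exp (h p) ≤ 2
  eq : ∀ p, exp (2 * h p) = 1 - 2 * a + 2 * b * tt h p ^ 3 - tt h p ^ 5 / 5

/-- the parameter `a` as a function of `l` -/
noncomputable def aL (b l : ℝ) : ℝ :=
  b ^ 3 / (2 * 440 ^ 3) * cos (π * l / 2) ^ 2 + 150 * b ^ 3 * sin (π * l / 2) ^ 2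

/-- `e^y` satisfies the equation of the curve iff `Eq = 0` -/
noncomputable def EqF (a b p y : ℝ) : ℝ :=
  exp (2 * y) - 1 + 2 * a - 2 * b * √(uu p y) + (uu p y) ^ ((5 : ℝ) / 6) / 5

/-- tangent angle -/
noncomputable def thh (h : ℝ → ℝ) (p : ℝ) : ℝ := p - arctan (deriv h p)

/-- `|w_p|` -/
noncomputable def gg (h : ℝ → ℝ) (p : ℝ) : ℝ := exp (h p) * √(1 + (deriv h p) ^ 2)

/-! ## Statements -/

/-- **Basic** facts on the curve.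
Proof. `uu p y = (exp y - cos p)^2 + sin p^2`, so `tt > 0`, `tt^6 = uu`, etc. (`Real.rpow_natCast`,
`Real.rpow_mul`). `Y = 1 - e^h cos p = (1 + uu - e^(2h))/2 = a - b t^3 + t^5/10 + t^6/2 = t^3 F`.
`X^2 + Y^2 = uu = t^6` gives `x^2 + F^2 = 1`. So `F ≤ 1`, and `m > 0`: `t^2/10 + t^3/2 < 1 + b`,
hence `t < 6/5`; `m ≤ 1 + b`. `e^(2h) = 1 - 2a + 2b t^3 - t^5/5` with `t < 6/5` (`t^5 < 2.4884`)
gives `1/2 ≤ e^(2h) ≤ 11/10`. -/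
def BasicStmt : Prop :=
  ∀ (a b : ℝ) (h : ℝ → ℝ), Par a b → Crv a b h → ∀ p : ℝ,
    0 < a ∧ 0 < tt h p ∧ tt h p ^ 6 = uu p (h p) ∧ √(uu p (h p)) = tt h p ^ 3 ∧
    (uu p (h p)) ^ ((1 : ℝ) / 3) = tt h p ^ 2 ∧ fS (uu p (h p)) = 3 * tt h p ^ 4 ∧
    1 - exp (h p) * cos p = tt h p ^ 3 * iF (a / tt h p ^ 3) b (tt h p) ∧
    exp (h p) * sin p = tt h p ^ 3 * xx h p ∧
    xx h p ^ 2 + iF (a / tt h p ^ 3) b (tt h p) ^ 2 = 1 ∧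
    tt h p < 6 / 5 ∧ 0 < a / tt h p ^ 3 ∧ a / tt h p ^ 3 ≤ 1 + b ∧
    1 / 2 ≤ exp (2 * h p) ∧ exp (2 * h p) ≤ 11 / 10

/-- **Root**. For every `p` the equation has exactly one solution `y` with `1/2 ≤ e^y ≤ 2`.
Proof. Put `q = e^y`, `rho(q) = √(q^2 - 2 q cos p + 1)`; `|rho(q2) - rho(q1)| ≤ |q2 - q1|`,
`rho ≤ 3`. For `1/2 ≤ q1 < q2 ≤ 2`: `EqF(q2) - EqF(q1) = (q2-q1)(q1+q2) - 2b(rho2-rho1)
+ (rho2^(5/3) - rho1^(5/3))/5 ≥ (q2-q1)(1 - 2b - (1/3) 3^(2/3)) > 0`, because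
`|rho2^(5/3) - rho1^(5/3)| ≤ (5/3) 3^(2/3) |rho2 - rho1|` (mean value theorem; `3^(2/3) < 21/10`).
At `q = 1/2`: `EqF = -3/4 + 2a - 2b rho + rho^(5/3)/5 < 0` since `rho ≤ 3/2`
(`(3/2)^(5/3) < 2`); at `q = 2`: `EqF ≥ 3 + 2a - 6b > 0`. Intermediate value theorem. A root has
`uu > 0`: if `uu = 0` then `e^y = 1` and `EqF = 2a > 0`. -/
def RootStmt : Prop :=
  ∀ a b : ℝ, Par a b → ∀ p : ℝ,
    (∃ y, 1 / 2 ≤ exp y ∧ exp y ≤ 2 ∧ EqF a b p y = 0) ∧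
    (∀ y y', 1 / 2 ≤ exp y → exp y ≤ 2 → EqF a b p y = 0 →
      1 / 2 ≤ exp y' → exp y' ≤ 2 → EqF a b p y' = 0 → y = y') ∧
    (∀ y, 1 / 2 ≤ exp y → exp y ≤ 2 → EqF a b p y = 0 → 0 < uu p y)

/-- **Implicit** function: a unique root in a compact interval depends smoothly on two parameters.
Proof. `f` is continuous (closed graph in a compact interval: if `q_n → q` then every limit point
of `f q_n` is a root over `q` in `[c,d]`, hence `= f q`). At `q0` the map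
`Ψ (q,y) = (q, Φ (q,y))` has an invertible derivative, so it has a smooth local inverse
(`ContDiffAt.to_localInverse` / `ContDiffAt.toOpenPartialHomeomorph`), and near `q0`
`(q, f q) = Ψ⁻¹ (q, 0)` because `(q, f q)` is close to `(q0, f q0)` and `Ψ (q, f q) = (q,0)`. -/
def ImplicitStmt : Prop :=
  ∀ (Φ : ℝ × ℝ → ℝ → ℝ) (f : ℝ × ℝ → ℝ) (c d : ℝ),
    Continuous (fun z : (ℝ × ℝ) × ℝ => Φ z.1 z.2) →
    (∀ q, c ≤ f q ∧ f q ≤ d ∧ Φ q (f q) = 0) →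
    (∀ q y, c ≤ y → y ≤ d → Φ q y = 0 → y = f q) →
    (∀ q, ContDiffAt ℝ (⊤ : ℕ∞) (fun z : (ℝ × ℝ) × ℝ => Φ z.1 z.2) (q, f q)) →
    (∀ q, ∃ D, D ≠ 0 ∧ HasDerivAt (Φ q) D (f q)) →
    ContDiff ℝ (⊤ : ℕ∞) f

/-- **Fam**: the smooth family. Uses RootStmt, ImplicitStmt.
Proof. `y0 l p` := the root of `EqF (aL b l) b p` with `e^y ∈ [1/2,2]` (`Par (aL b l) b` because
`cos^2 + sin^2 = 1`). Apply ImplicitStmt with `Φ (l,p) y = EqF (aL b l) b p y`, `c = -log 2`,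
`d = log 2`. The derivative at a root is (`rho = √uu > 0`, `C = e^(2y) - e^y cos p`,
`rho_y = C/rho`, `|C| ≤ e^y rho` since `e^(2y) rho^2 - C^2 = e^(2y) sin p^2`)
`2 e^(2y) + 2 (rho^(2/3)/6 - b) C/rho ≥ 2 e^y (e^y - |rho^(2/3)/6 - b|) > 0` because
`rho ≤ 3`, `3^(2/3) < 21/10`, `e^y ≥ 1/2`. Period and evenness by uniqueness (`cos` is periodic and
even). `EqF = 0` is `Crv.eq` since `√uu = tt^3`, `uu^(5/6) = tt^5`. -/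
def FamStmt : Prop :=
  ∀ b : ℝ, 0 < b → b ≤ 1 / 10 ^ 6 → ∃ y0 : ℝ → ℝ → ℝ,
    ContDiff ℝ (⊤ : ℕ∞) (fun z : ℝ × ℝ => y0 z.1 z.2) ∧
    ∀ l, Par (aL b l) b ∧ Crv (aL b l) b (y0 l)

/-- **Tip and top**. Uses BasicStmt.
Proof. Tip: `rho = |1 - e^h| = |Y|`; if `Y ≤ 0` then `Y = -rho`, but `Y = a - b rho + ... > -rho`.
So `Y = rho =: d = t^3`, `d ≤ 1/2` (as `e^h ≥ 1/2`), and
`d = a - b d + d^(5/3)/10 + d^2/2`. From `t^2 = d^(2/3) ≤ 64/100`, `d/2 ≤ 1/4`: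
`d ≤ a + (64/1000 + 1/4) d`, so `d ≤ 3a/2 ≤ 225 b^3`, hence `t ≤ 7b`, and then
`d ≤ a + d/10`, `d ≤ (10/9) a ≤ 200 b^3`, `t ≤ 6b`. Also `a ≤ (1 + b) d ≤ 2 d`.
`G = -b + t^2/6 + t^3 ≤ -b + 6 b^2 + 216 b^3 < 0`. `F = 1`, `x = 0`.
Top: `Y = 1 + e^h ≥ 3/2`, `uu = (1 + e^h)^2`, so `t^3 = Y ≥ 3/2`, `F = 1`, `x = 0`, and
`G ≥ t^3 - b > 1`. -/
def TipStmt : Prop :=
  ∀ (a b : ℝ) (h : ℝ → ℝ), Par a b → Crv a b h →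
    h 0 < 0 ∧ 1 - exp (h 0) = tt h 0 ^ 3 ∧ tt h 0 ^ 3 ≤ 200 * b ^ 3 ∧ a ≤ 2 * tt h 0 ^ 3 ∧
    iF (a / tt h 0 ^ 3) b (tt h 0) = 1 ∧ iG b (tt h 0) < 0 ∧
    iF (a / tt h π ^ 3) b (tt h π) = 1 ∧ 1 < iG b (tt h π)

/-- **Slope**: formula for `h'`. Uses BasicStmt.
Proof. With `t' = (tt h)'(p)`: differentiate `tt^6 = uu p (h p)`:
`6 t^5 t' = 2 C h' + 2 e^h sin p`, `C = e^(2h) - e^h cos p`, and `Crv.eq`:
`2 e^(2h) h' = (6 b t^2 - t^4) t'`. Hence `e^(2h) h' = -3 t^2 (t^2/6 - b) t'` and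
`3 t^5 t' = C h' + e^h sin p`; multiply the first by `t^3`. (`tt h` is differentiable because
`uu > 0`.) -/
def SlopeStmt : Prop :=
  ∀ (a b : ℝ) (h : ℝ → ℝ), Par a b → Crv a b h → ∀ p : ℝ,
    deriv h p * (tt h p ^ 3 * exp (2 * h p)
      + (tt h p ^ 2 / 6 - b) * (exp (2 * h p) - exp (h p) * cos p)) =
      - ((tt h p ^ 2 / 6 - b) * (exp (h p) * sin p)) ∧
    HasDerivAt (tt h) ((exp (2 * h p) * deriv h p - exp (h p) * cos p * deriv h p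
      + exp (h p) * sin p) / (3 * tt h p ^ 5)) p

/-- **Frame**. Uses BasicStmt, SlopeStmt.
Proof. Let `α = -G x`, `β = 1 - F G`; `α^2 + β^2 = Delta` by `x^2 + F^2 = 1`. The velocity
`(X',Y') = e^h (h' sin p + cos p, -h' cos p + sin p) = g (cos th, sin th)` (for
`cos (arctan u) = 1/√(1+u^2)`, `sin (arctan u) = u/√(1+u^2)`). Orthogonality
`α X' + β Y' = 0`: this is SlopeStmt, after division by `t^3` (`e^h cos p = 1 - t^3 F`,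
`e^h sin p = t^3 x`, `e^(2h) = 1 - 2 t^3 F + t^6`, `G - t^3 = t^2/6 - b`). So
`(α,β) = λ (-sin th, cos th)` with `λ = -α sin th + β cos th`, `λ^2 = Delta`.
Sign: `(α,β)·(sin p, -cos p) = λ (-cos (p - th)) = -λ/√(1+h'^2)` and
`-e^h (α,β)·(sin p, -cos p) = G t^3 x^2 + (1 - t^3 F)(1 - F G) = G t^3 + 1 - t^3 F - F G
= e^(2h) + (t^2/6 - b)(t^3 - F) ≥ e^(2h) - |t^2/6 - b| e^h > 0`, because `|t^3 - F| ≤ e^h`
(`e^(2h) - (t^3 - F)^2 = 1 - F^2 ≥ 0`), `|t^2/6 - b| ≤ 1/4`, `e^h ≥ 1/2`. Hence `λ > 0`,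
`λ = √Delta`, `Delta > 0`. -/
def FrameStmt : Prop :=
  ∀ (a b : ℝ) (h : ℝ → ℝ), Par a b → Crv a b h → ∀ p : ℝ,
    0 < iD (a / tt h p ^ 3) b (tt h p) ∧
    √(iD (a / tt h p ^ 3) b (tt h p)) * sin (thh h p) = iG b (tt h p) * xx h p ∧
    √(iD (a / tt h p ^ 3) b (tt h p)) * cos (thh h p) =
      1 - iF (a / tt h p ^ 3) b (tt h p) * iG b (tt h p)

/-- **Derivatives along the curve**. Uses BasicStmt, SlopeStmt, FrameStmt.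
Proof. From SlopeStmt (second clause) `3 t^5 t' = X X' + Y Y' = g (X cos th + Y sin th)
= g t^3 (x (1 - F G) + F G x)/Lam = g t^3 x/Lam`, which gives the first clause. The second: chain
rule, `d/dt iF (a/t^3) b t = -(3/t) z`. The third: `x = X/t^3`,
`x' = X'/t^3 - 3 X t'/t^4 = (g/t^3)(cos th - x^2/Lam) = (g/(t^3 Lam))(1 - F G - x^2)
= g F z/(t^3 Lam)`. -/
def DtStmt : Prop :=
  ∀ (a b : ℝ) (h : ℝ → ℝ), Par a b → Crv a b h → ∀ p : ℝ,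
    HasDerivAt (tt h) (xx h p * gg h p /
      (3 * tt h p ^ 2 * √(iD (a / tt h p ^ 3) b (tt h p)))) p ∧
    HasDerivAt (fun q => iF (a / tt h q ^ 3) b (tt h q))
      (-(iz (a / tt h p ^ 3) b (tt h p) * xx h p * gg h p /
        (tt h p ^ 3 * √(iD (a / tt h p ^ 3) b (tt h p))))) p ∧
    HasDerivAt (xx h) (iF (a / tt h p ^ 3) b (tt h p) * iz (a / tt h p ^ 3) b (tt h p) * gg h p /
      (tt h p ^ 3 * √(iD (a / tt h p ^ 3) b (tt h p)))) p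

/-- **Curvature**. Uses BasicStmt, FrameStmt, DtStmt.
Proof. `th' = 1 - h''/(1 + h'^2)`. Differentiate the two identities of FrameStmt:
`Lam' sin th + Lam th' cos th = (G x)'`, `Lam' cos th - Lam th' sin th = -(F G)'`; so
`Delta th' = (G x)' (1 - F G) + (F G)' G x`. With `c = g/(t^3 Lam)`: `F' = -c z x`,
`G' = c H x`, `x' = c F z`, so `(G x)' = c (H x^2 + F G z)`, `(F G)' = c x (F H - z G)`, and
`Delta th' = c (H x^2 + G z^2) = c A` (use `x^2 + F^2 = 1`). Hence `th' = g A/(t^3 Delta Lam)`, and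
`pv = fS(uu) th'/g = 3 t^4 A/(t^3 Delta Lam)`. -/
def CurvStmt : Prop :=
  ∀ (a b : ℝ) (h : ℝ → ℝ), Par a b → Crv a b h → ∀ p : ℝ,
    pv (stat h) 0 p = 3 * tt h p * iA (a / tt h p ^ 3) b (tt h p) /
      (iD (a / tt h p ^ 3) b (tt h p) * √(iD (a / tt h p ^ 3) b (tt h p)))

/-- **First arclength derivative of `v`**. Uses BasicStmt, FrameStmt, DtStmt, CurvStmt.
Proof. By CurvStmt `v = 3 t A/(Delta Lam)` for all `p`; `t' = c x t/3`, `A' = c x DA`,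
`Delta' = 2 c x z (G - H)` with `c = g/(t^3 Lam)`. So
`v_s = v'/g = (3 x/(t^2 Delta^2)) (A/3 + DA - 3 A z (G - H)/Delta)`. -/
def V1Stmt : Prop :=
  ∀ (a b : ℝ) (h : ℝ → ℝ), Par a b → Crv a b h → ∀ p : ℝ,
    pD (stat h) (pv (stat h)) 0 p =
      3 * xx h p / (tt h p ^ 2 * iD (a / tt h p ^ 3) b (tt h p) ^ 2) *
      (iA (a / tt h p ^ 3) b (tt h p) / 3 + iDA (a / tt h p ^ 3) b (tt h p)
        - 3 * iA (a / tt h p ^ 3) b (tt h p) * iz (a / tt h p ^ 3) b (tt h p)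
          * (iG b (tt h p) - iH (tt h p)) / iD (a / tt h p ^ 3) b (tt h p))

/-- **Wronskians** (and `r`, `zeta`). Uses BasicStmt, FrameStmt, CurvStmt, V1Stmt.
Proof. `W = flowOf (stat h)`: `X = t^3 x`, `Y = t^3 F`, `th = thh h p`
(`stat h 1 0 p = iteratedDeriv 1 h p = deriv h p`), `r = t^3 (x (1-FG) + F G x)/Lam = t^3 x/Lam`,
`zeta = t^3 (-G x^2 + F (1 - F G))/Lam = t^3 z/Lam`, `kap = v/f = A/(t^3 Delta Lam)`.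
`om1 = v1 r - v (1 + kap zeta)`: multiply by `Delta^3 Lam/(3t)`; the claim becomes
`x^2 (Delta A + 3 Delta DA - 9 A z (G-H))/3 - A Delta^2 - A^2 z = W1`, an identity modulo
`x^2 = 1 - F^2` (the difference is `A Delta (x^2 + z^2 - Delta) = 0`). In the same way
`om2 = v1 zeta + v kap r`: `z (Delta A/3 + Delta DA - 3 A z (G-H)) + A^2 = W2`
(the difference is `A H (x^2 + z^2 - Delta) = 0`). -/
def OmStmt : Prop :=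
  ∀ (a b : ℝ) (h : ℝ → ℝ), Par a b → Crv a b h → ∀ p : ℝ,
    (flowOf (stat h)).r 0 p = tt h p ^ 3 * xx h p / √(iD (a / tt h p ^ 3) b (tt h p)) ∧
    (flowOf (stat h)).ze 0 p = tt h p ^ 3 * iz (a / tt h p ^ 3) b (tt h p) /
      √(iD (a / tt h p ^ 3) b (tt h p)) ∧
    (flowOf (stat h)).om1 0 p = 3 * tt h p * iW1 (a / tt h p ^ 3) b (tt h p) /
      (iD (a / tt h p ^ 3) b (tt h p) ^ 3 * √(iD (a / tt h p ^ 3) b (tt h p))) ∧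
    (flowOf (stat h)).om2 0 p = 3 * tt h p * xx h p * iW2 (a / tt h p ^ 3) b (tt h p) /
      (iD (a / tt h p ^ 3) b (tt h p) ^ 3 * √(iD (a / tt h p ^ 3) b (tt h p)))

/-- **Factorisation** of `W1` and `W2` near `t = 0` (explicit polynomials, by `ring`). -/
def PolyStmt : Prop :=
  ∃ α1 α2 α3 α4 γ1 γ2 γ3 : ℝ × ℝ × ℝ → ℝ,
    Continuous α1 ∧ Continuous α2 ∧ Continuous α3 ∧ Continuous α4 ∧ Continuous γ1 ∧
    Continuous γ2 ∧ Continuous γ3 ∧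
    (∀ m b t, iW1 m b t = t ^ 3 * α1 (m, b, t) + b * m ^ 2 * α2 (m, b, t)
      + t ^ 2 * m ^ 2 * α3 (m, b, t) + b * m * t ^ 2 * α4 (m, b, t)) ∧
    (∀ m b t, iW2 m b t = m * t ^ 2 * γ1 (m, b, t) + t ^ 4 * γ2 (m, b, t)
      + m ^ 3 * b * γ3 (m, b, t)) ∧
    (∀ m, α1 (m, 0, 0) = (1 - 4 * m ^ 2) / 3) ∧ (∀ m, α2 (m, 0, 0) = 8 / 3 - 5 / 3 * m ^ 2) ∧
    (∀ m, α3 (m, 0, 0) = - (2 / 9) + m ^ 2 / 18) ∧ (∀ m, α4 (m, 0, 0) = - (1 / 45)) ∧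
    (∀ m, γ1 (m, 0, 0) = 1 / 9 - m ^ 2 / 18) ∧ (∀ m, γ2 (m, 0, 0) = 2 / 405) ∧
    (∀ m, γ3 (m, 0, 0) = 5 / 3) ∧
    (∀ t, 0 < t → t ≤ 6 / 5 → 0 < iW1 0 0 t ∧ 0 < iW2 0 0 t)

/-- **Positivity near the tip**. Uses PolyStmt.
Proof. By uniform continuity on a compact set there is `η ∈ (0, 1/1000)` such that
`|α_i (m,b,t) - α_i (m,0,0)| ≤ 1/1000`, the same for `γ_i`, for `0 ≤ m ≤ 2`, `0 ≤ b,t ≤ η`. Let
`m t^3 ≤ 150 b^3`, `m ≤ 1 + b`, `t > 0`. `W2 > 0` is immediate (`1/9 - m^2/18 > 1/20`).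
`W1`, case `m ≥ 1/4`: `t^3 ≤ 600 b^3`, `t ≤ 9b`; `α2 ≥ 9/10`, `|α1| ≤ 2`, `|α3| ≤ 1`, `|α4| ≤ 1`:
`W1 ≥ (9/10) b m^2 - 1200 b^3 - 81 b^2 m^2 - 81 b^3 m > 0`.
Case `m < 1/4`: `α1 ≥ 1/5`, `α2 ≥ 2`, `|α3| ≤ 1/4`, `|α4| ≤ 1/4`:
`W1 ≥ t^3/5 + 2 b m^2 - t^2 m^2/4 - b m t^2/4`, `b m t^2 ≤ b (m^2 + t^4)`; if `t^2 ≤ b` then
`t^2 m^2 ≤ b m^2`; if `t^2 > b` then `m t^3 ≤ 150 b^3 ≤ 150 t^6`, `m ≤ 150 t^3`,
`t^2 m^2 ≤ 22500 t^8 ≤ t^3/10`. -/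
def NearStmt : Prop :=
  ∃ η : ℝ, 0 < η ∧ η ≤ 6 / 5 ∧ ∀ m b t : ℝ, 0 < b → b ≤ η → 0 < t → t ≤ η → 0 ≤ m → m ≤ 1 + b →
    m * t ^ 3 ≤ 150 * b ^ 3 → 0 ≤ iW1 m b t ∧ 0 < iW2 m b t

/-- **Positivity away from the tip**. Uses PolyStmt (last clause).
Proof. `iW1`, `iW2` are polynomials. On the compact interval `[η, 6/5]` the positive functions
`iW1 0 0 t`, `iW2 0 0 t` are `≥ c > 0`; by uniform continuity on `[0,1] × [0,1] × [η,6/5]` there is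
`ε > 0` with `iW (m,b,t) > 0` for `0 ≤ m, b ≤ ε`; finally `m ≤ 150 b^3/t^3 ≤ 150 b^3/η^3 ≤ ε` for
small `b`. -/
def FarStmt : Prop :=
  ∀ η : ℝ, 0 < η → ∃ b2 : ℝ, 0 < b2 ∧ ∀ m b t : ℝ, 0 < b → b ≤ b2 → η ≤ t → t ≤ 6 / 5 → 0 ≤ m →
    m * t ^ 3 ≤ 150 * b ^ 3 → 0 < iW1 m b t ∧ 0 < iW2 m b t

/-- **Angle**. Uses BasicStmt, FrameStmt.
Proof. `p ∈ [0,π]`: `x ≥ 0`, `th ∈ (-π/2, 3π/2)`. If `1 - F G ≤ 0` then `cos th ≤ 0`, so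
`th ≥ π/2 > 1 > t^2/10`. Let `1 - F G > 0`: then `cos th > 0`, `th ∈ (-π/2, π/2)`,
`tan th = G x/(1 - F G)`.
If `G < 0`: `|G| ≤ b`, `|tan th| ≤ b/(1-b)`, `th ≥ -b/(1-b) ≥ -(11/10) b`, and
`t^2/6 < b`, so `t^2/10 - 2b < -(14/10) b ≤ th`. If `G ≥ 0`: `th ≥ 0`; if `t^2 ≤ 20 b` done.
Let `t^2 > 20 b`: `m = a/t^3 ≤ 150 b^3/(20 b)^(3/2) ≤ b` (`m^2 t^6 ≤ 22500 b^6` and
`t^6 > 8000 b^3`), so `F ≥ 0`, `|F - t^2/10 - t^3/2| ≤ b`. `G ≥ t^2/6 - t^2/20 + t^3 = (7/60) t^2 + t^3`.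
`th ≥ sin th = G x/Lam`, `Delta = x^2 + z^2`, `|z| ≤ t^2/15 + t^3/2 + b ≤ t^2/6 + t^3/2`.
From `F G < 1` and `F ≥ t^2/20 + t^3/2`: `t < 11/10`, so `F < 4/5`, `x ≥ 3/5`.
For `t ≤ 1/2`: `F ≤ 1/10`, `x ≥ 9/10`, `|z| ≤ 1/9`, `Lam ≤ x + |z| ≤ (9/8) x`, so
`G x/Lam ≥ (8/9) (7/60) t^2 ≥ t^2/10`. For `t ≥ 1/2`: `Lam ≤ x + |z| ≤ x + 1`,
`x/Lam ≥ (3/5)/(8/5) = 3/8`, `G x/Lam ≥ (3/8) t^3 ≥ t^2/10`. (Any other elementary argument is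
fine.) -/
def ThStmt : Prop :=
  ∀ (a b : ℝ) (h : ℝ → ℝ), Par a b → Crv a b h → ∀ p ∈ Icc 0 π,
    tt h p ^ 2 / 10 - 2 * b ≤ thh h p ∧ - (2 * b) ≤ thh h p

/-- **Simple conditions**. Uses BasicStmt, TipStmt, SlopeStmt, FrameStmt, CurvStmt, OmStmt.
Proof. (1) `Delta = 1 - 2FG + G^2 ≤ (1 + |G|)^2 ≤ 9`, so `r = t^3 x/Lam ≥ X/3`.
(2) `x = 0` at `0` and `π`, `A = G z^2`, `z = 1 - G`, and the signs of `G` by TipStmt.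
(3) `X^2 + (Y-1)^2 = e^(2h) ∈ [1/2, 11/10]` (BasicStmt).
(4) `X sin th + (1-Y) cos th = e^h cos (p - th) = e^h/√(1+h'^2)`, and `|h'| ≤ 1` by SlopeStmt:
`|t^2/6 - b| ≤ 1/4`, `|e^(2h) - e^h cos p| ≤ e^h t^3`, `|e^h sin p| ≤ e^h t^3`
(`t^6 = (e^h - cos p)^2 + sin p^2`), so `|h'| (e^(2h) - e^h/4) ≤ e^h/4`, `e^h ≥ 7/10`;
then `e^(2h)/(1+h'^2) ≥ (1/2)/2`.
(5) `v + zeta/20 = (t/(Delta Lam)) (3 A + t^2 z Delta/20)`; `H ≥ t^2/9`, `G ≥ t^2/6 - b ≥ t^2/9`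
(for `t^2 ≥ 1/400`), so `A ≥ (t^2/9)(x^2 + z^2) = t^2 Delta/9`, and `|z| ≤ 3`. -/
def MiscStmt : Prop :=
  ∀ (a b : ℝ) (h : ℝ → ℝ), Par a b → Crv a b h →
    (∀ p ∈ Icc 0 π, 1 / 3 * (flowOf (stat h)).X 0 p ≤ (flowOf (stat h)).r 0 p) ∧
    (flowOf (stat h)).v 0 0 < 0 ∧ 0 < (flowOf (stat h)).v 0 π ∧
    (∀ p ∈ Icc 0 π, 9 / 20 ≤ (flowOf (stat h)).X 0 p ^ 2 + ((flowOf (stat h)).Y 0 p - 1) ^ 2) ∧
    (∀ p ∈ Icc 0 π, (flowOf (stat h)).X 0 p ^ 2 + ((flowOf (stat h)).Y 0 p - 1) ^ 2 ≤ 11 / 10) ∧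
    (∀ p ∈ Icc 0 π, 1 / 2 ≤ (flowOf (stat h)).X 0 p * sin ((flowOf (stat h)).th 0 p)
      + (1 - (flowOf (stat h)).Y 0 p) * cos ((flowOf (stat h)).th 0 p)) ∧
    (∀ p ∈ Icc 0 π, 1 / 400 ≤ tt h p ^ 2 →
      0 ≤ (flowOf (stat h)).v 0 p + (flowOf (stat h)).ze 0 p / 20)

/-- **Inner estimate**. Uses BasicStmt, TipStmt, FrameStmt, CurvStmt, OmStmt.
Proof. Let `t ≤ 1/20`, `t0 = tt h 0`, so `Y(0)^(2/3) = t0^2`. `|G| ≤ 1/1000`,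
`Delta ∈ [99/100, 101/100]`. `v - r/10 = (1/Lam) (3 t A/Delta - t^3 x/10)`,
`A ≥ (t^2/9) x^2 - b z^2`. `|z| ≤ m + t^2/10`, `z^2 ≤ 2 m^2 + t^4/50`.
`b ≤ 700 t0` (`b^3 ≤ 2*440^3 a ≤ 4*440^3 t0^3`), `(t m^2)^3 = a m^5 ≤ 3 t0^3`, so
`t m^2 ≤ (3/2) t0` and `3 t b (2 m^2) ≤ 6300 t0^2`.
Case `x ≥ 1/2`: `t^3 x^2/(3 Delta) - t^3 x/10 ≥ t^3/50 ≥ 3 t b t^4/(50 Delta)`.
Case `x < 1/2`: `F^2 > 3/4`, and `F ≥ -b`, so `F > 4/5`, `m ≥ 3/4`, `t^3 ≤ (4/3) a ≤ (8/3) t0^3`;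
all of `t^3 x/10`, `3 t b t^4/50` are `≤ t0^2`. In all cases
`v - r/10 ≥ -10^4 t0^2`. -/
def InnerStmt : Prop :=
  ∀ (a b : ℝ) (h : ℝ → ℝ), Par a b → Crv a b h → ∀ p ∈ Icc 0 π, tt h p ≤ 1 / 20 →
    (flowOf (stat h)).r 0 p / 10 - 10 ^ 4 * tt h 0 ^ 2 ≤ (flowOf (stat h)).v 0 p

/-- **Under**. Uses BasicStmt, TipStmt. Proof. `e = b/440`, `a = e^3/2`,
`barr e (b/2) (t^6) = e^3 - (b/2) t^3 + 10 e^2 t^2 + 7 t^5` and `Y = a - b t^3 + t^5/10 + t^6/2`;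
take `η = e^3/2`: for `t ≤ 1` (from `rho = t^3 ≤ 1/8000 + η`) `t^6/2 ≤ t^5/2`. -/
def UnderStmt : Prop :=
  ∀ (b : ℝ) (h : ℝ → ℝ), Par (b ^ 3 / (2 * 440 ^ 3)) b → Crv (b ^ 3 / (2 * 440 ^ 3)) b h →
    Under (flowOf (stat h)) 0 (b / 440) (b / 2)

end Pool.Agent.Lib.MP_c60e08_gt.Ini
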