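import Pool.Agent.Lib.MP_c60e08_gt.LmFlow2

/-!
Module Blow: a solution with downward moving tip and bounded time which cannot be continued has
a tip which comes arbitrarily close to the origin.
-/

namespace Pool.Agent.Lib.MP_c60e08_gt.Lm

open Real Set Filter Topology

theorem blowStmt (h1 : VbdStmt) (h2 : QbdStmt) (h3 : StarStmt) (h4 : DistStmt) (h5 : C3bdStmt)
    (h6 : IdStmt) : BlowStmt := by
  obtain ⟨bV, hbV, hV⟩ := h1
  obtain ⟨bS, hbS, hS⟩ := h3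
  refine ⟨min bV bS, lt_min hbV hbS, ?_⟩
  intro b C3 T y hb hy hStd hInit hblow η hη
  by_contra hcon
  push Not at hcon
  have hfl := hStd.flow
  obtain ⟨M1, hM1⟩ := hV b C3 T η (flowOf y) (hb.trans (min_le_left _ _)) hStd hInit hη hcon
  have hSt := hS b C3 T (flowOf y) (hb.trans (min_le_right _ _)) hStd hInit
  have hD := (h4 T (flowOf y) hfl hInit.dist2).1
  have hId := (h6 T (flowOf y) hfl).1
  have hπ : (0 : ℝ) ∈ Icc 0 π := ⟨le_rfl, pi_pos.le⟩
  have hulow : ∀ t ∈ Ico 0 T, ∀ p ∈ Icc 0 π, η ^ 2 ≤ (flowOf y).u t p := by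
    intro t ht p hp
    have hm := (hStd.pack t ht).mono 0 hπ p hp hp.1
    obtain ⟨-, -, -, hs0, -, -, hs0u, -⟩ := hId t ht 0
    obtain ⟨-, -, -, -, -, -, hspu, -⟩ := hId t ht p
    have h7 : (flowOf y).ss t 0 ^ 3 ≤ (flowOf y).ss t p ^ 3 := pow_le_pow_left₀ hs0.le hm 3
    rw [hs0u, hspu] at h7
    refine le_trans ?_ h7
    have h8 := hcon t ht
    have h9 : (flowOf y).u t 0 = (flowOf y).X t 0 ^ 2 + (flowOf y).Y t 0 ^ 2 := rfl
    rw [h9]
    have h10 : η ^ 2 ≤ (flowOf y).Y t 0 ^ 2 := pow_le_pow_left₀ hη.le h8 2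
    nlinarith [sq_nonneg ((flowOf y).X t 0)]
  have huup : ∀ t ∈ Ico 0 T, ∀ p ∈ Icc 0 π, (flowOf y).u t p ≤ 9 := by
    intro t ht p hp
    have h7 := hD t ht p hp
    have h9 : (flowOf y).u t p = (flowOf y).X t p ^ 2 + (flowOf y).Y t p ^ 2 := rfl
    rw [h9]
    nlinarith [sq_nonneg ((flowOf y).X t p), sq_nonneg ((flowOf y).Y t p - 2)]
  obtain ⟨M2, hM2⟩ := h2 T (max M1 9) (η ^ 2) (flowOf y) hfl (by positivity)
    (fun t ht p hp => ⟨(hM1 t ht p hp).trans (le_max_left _ _), hulow t ht p hp,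
      (huup t ht p hp).trans (le_max_right _ _)⟩)
  obtain ⟨M', hM'⟩ := h5 T (max M1 M2) (η ^ 2) y hy hfl (by positivity)
    (fun t ht p hp => ⟨(hM1 t ht p hp).trans (le_max_left _ _),
      (hM2 t ht p hp).trans (le_max_right _ _), hulow t ht p hp, (hSt t ht p hp).1,
      hD t ht p hp, (hSt t ht p hp).2⟩)
  obtain ⟨t, ht, p, h⟩ := hblow M'
  obtain ⟨k0, k1, k2, k3, k4⟩ := hM' t ht p
  rcases h with h | h | h | h | h <;> linarith

end Pool.Agent.Lib.MP_c60e08_gt.Lm
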