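import Pool.Agent.Lib.MP_c60e08_gt.LmFlow2

/-!
Translation of the bounds for the flow to the polar graph.
-/

namespace Pool.Agent.Lib.MP_c60e08_gt.Lm.C3bd

open Real Set Filter Topology

/-- Even `2π`-periodic properties. -/
theorem ext_all (P : ℝ → Prop) (hper : ∀ p, P (p + 2 * π) ↔ P p) (heven : ∀ p, P (-p) ↔ P p)
    (h : ∀ p ∈ Icc 0 π, P p) : ∀ p, P p := by
  have h1 : ∀ p, |p| ≤ π → P p := by
    intro p hp
    rcases abs_cases p with ⟨h2, h3⟩ | ⟨h2, h3⟩
    · exact h p ⟨h3, by rwa [h2] at hp⟩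
    · rw [← heven]
      exact h (-p) ⟨by linarith, by rwa [h2] at hp⟩
  have hfun : Function.Periodic P (2 * π) := fun p => propext (hper p)
  intro p
  have hpi : (0 : ℝ) < π := Real.pi_pos
  have h2 := abs_sub_round (p / (2 * π))
  set k := round (p / (2 * π)) with hk
  have h3 : P (p - k * (2 * π)) := by
    apply h1
    have h4 : p - k * (2 * π) = (p / (2 * π) - k) * (2 * π) := by
      field_simp
    rw [h4, abs_mul, abs_of_pos (by positivity : (0 : ℝ) < 2 * π)]
    calc |p / (2 * π) - k| * (2 * π) ≤ 1 / 2 * (2 * π) :=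
          mul_le_mul_of_nonneg_right h2 (by positivity)
      _ = π := by ring
  have h5 : P (p - k * (2 * π)) = P p := hfun.sub_int_mul_eq k
  rwa [h5] at h3

/-- Periodicity of the derivatives. -/
theorem per_all {T : ℝ} {y : ℕ → ℝ → ℝ → ℝ} (hy : PolarSol T y) {t : ℝ} (ht : t ∈ Ico 0 T) :
    ∀ m p, y m t (p + 2 * π) = y m t p := by
  intro m
  induction m with
  | zero => exact hy.per t ht
  | succ m ih =>
    intro p
    have h1 : HasDerivAt (fun q => y m t (q + 2 * π)) (y (m + 1) t (p + 2 * π)) p :=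
      (hy.dx m t ht (p + 2 * π)).comp_add_const p (2 * π)
    have h2 : (fun q => y m t (q + 2 * π)) = y m t := by
      funext q
      exact ih q
    rw [h2] at h1
    exact h1.unique (hy.dx m t ht p)

/-- Parity of the derivatives. -/
theorem even_all {T : ℝ} {y : ℕ → ℝ → ℝ → ℝ} (hy : PolarSol T y) {t : ℝ} (ht : t ∈ Ico 0 T) :
    ∀ m p, y m t (-p) = (-1) ^ m * y m t p := by
  intro m
  induction m with
  | zero =>
    intro p
    rw [pow_zero, one_mul]
    exact hy.even t ht p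
  | succ m ih =>
    intro p
    have h1 : HasDerivAt (fun q => y m t (-q)) (y (m + 1) t (-p) * (-1)) p := by
      have := (hy.dx m t ht (-p)).comp p (hasDerivAt_neg p)
      exact this
    have h2 : (fun q => y m t (-q)) = fun q => (-1) ^ m * y m t q := by
      funext q
      exact ih q
    rw [h2] at h1
    have h3 := h1.unique ((hy.dx m t ht p).const_mul ((-1) ^ m))
    rw [pow_succ]
    linarith

theorem abs_even {T : ℝ} {y : ℕ → ℝ → ℝ → ℝ} (hy : PolarSol T y) {t : ℝ} (ht : t ∈ Ico 0 T)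
    (m : ℕ) (p : ℝ) : |y m t (-p)| = |y m t p| := by
  rw [even_all hy ht m p, abs_mul, abs_pow, abs_neg, abs_one, one_pow, one_mul]

/-- `uu` is the square of the distance. -/
theorem uu_eq (y : ℕ → ℝ → ℝ → ℝ) (t p : ℝ) : (flowOf y).u t p = uu p (y 0 t p) := by
  unfold FlowData.u flowOf uu
  simp only
  rw [two_mul, exp_add]
  nlinarith [sin_sq_add_cos_sq p, sq_nonneg (exp (y 0 t p))]

/-- The formula for the second derivative. -/
theorem ident {T : ℝ} {y : ℕ → ℝ → ℝ → ℝ} (hy : PolarSol T y) (hW : IsFlow T (flowOf y))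
    {t : ℝ} (ht : t ∈ Ico 0 T) (p : ℝ) :
    y 2 t p = (1 + y 1 t p ^ 2) *
      (1 - pg y t p * (flowOf y).v t p / (flowOf y).f t p) := by
  have h1 : HasDerivAt ((flowOf y).th t) (1 - 1 / (1 + y 1 t p ^ 2) * y 2 t p) p :=
    (hasDerivAt_id p).sub (hy.dx 1 t ht p).arctan
  have h2 := h1.unique (hW.thp t ht p)
  have h3 : (flowOf y).g t p * (flowOf y).kap t p
      = pg y t p * (flowOf y).v t p / (flowOf y).f t p := by
    unfold FlowData.kap
    rw [mul_div_assoc]
    rfl
  rw [h3] at h2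
  rw [← h2]
  have h4 : (0 : ℝ) < 1 + y 1 t p ^ 2 := by positivity
  field_simp
  ring

/-- The derivative of `g`. -/
theorem derG {T : ℝ} {y : ℕ → ℝ → ℝ → ℝ} (hy : PolarSol T y) {t : ℝ} (ht : t ∈ Ico 0 T) (p : ℝ) :
    HasDerivAt (pg y t) (exp (y 0 t p) * y 1 t p * √(1 + y 1 t p ^ 2)
      + exp (y 0 t p) * (y 1 t p * y 2 t p / √(1 + y 1 t p ^ 2))) p := by
  have h4 : (0 : ℝ) < 1 + y 1 t p ^ 2 := by positivity
  have h1 : HasDerivAt (fun q => √(1 + y 1 t q ^ 2))
      (y 1 t p * y 2 t p / √(1 + y 1 t p ^ 2)) p := by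
    have h2 := (((hy.dx 1 t ht p).pow 2).const_add 1).sqrt h4.ne'
    refine h2.congr_deriv ?_
    have h5 : √(1 + y 1 t p ^ 2) ≠ 0 := (Real.sqrt_pos.2 h4).ne'
    simp only [Pi.pow_apply]
    field_simp
    push_cast
    ring
  exact ((hy.dx 0 t ht p).exp).mul h1

/-- The derivative of `f`. -/
theorem derF {T : ℝ} {y : ℕ → ℝ → ℝ → ℝ} (hW : IsFlow T (flowOf y)) {t : ℝ}
    (ht : t ∈ Ico 0 T) (p : ℝ) :
    HasDerivAt ((flowOf y).f t) (2 / 3 * (flowOf y).f t p *
      (2 * (flowOf y).X t p * (pg y t p * cos ((flowOf y).th t p))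
        + 2 * (flowOf y).Y t p * (pg y t p * sin ((flowOf y).th t p))) / (flowOf y).u t p) p := by
  have hu : HasDerivAt ((flowOf y).u t)
      (2 * (flowOf y).X t p * (pg y t p * cos ((flowOf y).th t p))
        + 2 * (flowOf y).Y t p * (pg y t p * sin ((flowOf y).th t p))) p := by
    have h := ((hW.Xp t ht p).pow 2).add ((hW.Yp t ht p).pow 2)
    refine h.congr_deriv ?_
    push_cast
    change 2 * (flowOf y).X t p ^ 1 * (pg y t p * cos ((flowOf y).th t p))
      + 2 * (flowOf y).Y t p ^ 1 * (pg y t p * sin ((flowOf y).th t p)) = _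
    ring
  have hu0 := hW.upos t ht p
  have h1 := (hu.rpow_const (p := (2 : ℝ) / 3) (Or.inl hu0.ne')).const_mul 3
  refine h1.congr_deriv ?_
  have h2 : (flowOf y).u t p ^ ((2 : ℝ) / 3 - 1)
      = (flowOf y).u t p ^ ((2 : ℝ) / 3) / (flowOf y).u t p := Real.rpow_sub_one hu0.ne' _
  rw [h2]
  unfold FlowData.f fS
  ring

/-- The formula for the third derivative. -/
theorem ident3 {T : ℝ} {y : ℕ → ℝ → ℝ → ℝ} (hy : PolarSol T y) (hW : IsFlow T (flowOf y))
    {t : ℝ} (ht : t ∈ Ico 0 T) (p : ℝ) (hF0 : 0 < (flowOf y).f t p) :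
    y 3 t p = 2 * y 1 t p * y 2 t p *
        (1 - pg y t p * (flowOf y).v t p / (flowOf y).f t p)
      - (1 + y 1 t p ^ 2) *
        (((exp (y 0 t p) * y 1 t p * √(1 + y 1 t p ^ 2)
            + exp (y 0 t p) * (y 1 t p * y 2 t p / √(1 + y 1 t p ^ 2))) * (flowOf y).v t p
          + pg y t p * (pg y t p * (flowOf y).v1 t p)) / (flowOf y).f t p
        - pg y t p * (flowOf y).v t p / (flowOf y).f t p * (2 / 3 *
          (2 * (flowOf y).X t p * (pg y t p * cos ((flowOf y).th t p))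
        + 2 * (flowOf y).Y t p * (pg y t p * sin ((flowOf y).th t p))) / (flowOf y).u t p)) := by
  have h1 : y 2 t = fun p => (1 + y 1 t p ^ 2) *
      (1 - pg y t p * (flowOf y).v t p / (flowOf y).f t p) := by
    funext q
    exact ident hy hW ht q
  have h2 := hy.dx 2 t ht p
  rw [h1] at h2
  have h3 := ((((hy.dx 1 t ht p).pow 2).const_add 1).mul
    (((((derG hy ht p).mul (hW.vp t ht p)).div (derF hW ht p) hF0.ne').const_sub 1)))
  have h4 := h2.unique h3
  rw [h4]
  have hu0 := hW.upos t ht p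
  simp only [Pi.pow_apply, Pi.mul_apply, Pi.div_apply]
  change _ = _
  have h5 : (flowOf y).g t p = pg y t p := rfl
  rw [h5]
  push_cast
  field_simp
  ring

/-- The bounds on `[0,π]`. -/
theorem bd {T M m : ℝ} {y : ℕ → ℝ → ℝ → ℝ} (hy : PolarSol T y) (hW : IsFlow T (flowOf y))
    (hm : 0 < m) (hM : 0 ≤ M) {t : ℝ} (ht : t ∈ Ico 0 T) (p : ℝ)
    (hv : |(flowOf y).v t p| ≤ M) (hv1 : |(flowOf y).v1 t p| ≤ M) (hu : m ≤ (flowOf y).u t p)
    (h1 : 1 / 4 ≤ (flowOf y).X t p ^ 2 + ((flowOf y).Y t p - 1) ^ 2)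
    (h2 : (flowOf y).X t p ^ 2 + ((flowOf y).Y t p - 1) ^ 2 ≤ 11 / 10)
    (h3 : 1 / 2 ≤ (flowOf y).X t p * sin ((flowOf y).th t p)
      + (1 - (flowOf y).Y t p) * cos ((flowOf y).th t p))
    (f0 Q : ℝ) (hf0 : f0 = 3 * m ^ ((2 : ℝ) / 3)) (hQ : Q = 1 + 3 * M / f0) :
    |y 0 t p| ≤ 2 ∧ |y 1 t p| ≤ 2 ∧ |y 2 t p| ≤ 5 * Q ∧
      |y 3 t p| ≤ 20 * Q ^ 2 + 5 * (25 * Q * M / f0 + 3 * M / f0 * (20 / m)) := by
  have hmp : (0 : ℝ) < m ^ ((2 : ℝ) / 3) := Real.rpow_pos_of_pos hm _
  have hf0p : 0 < f0 := by rw [hf0]; positivity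
  have hQ1 : 1 ≤ Q := by
    rw [hQ]
    have : 0 ≤ 3 * M / f0 := by positivity
    linarith
  set E := exp (y 0 t p) with hE
  have hE0 : 0 < E := exp_pos _
  have hX : (flowOf y).X t p = E * sin p := rfl
  have hY : (flowOf y).Y t p = 1 - E * cos p := rfl
  have hE2 : (flowOf y).X t p ^ 2 + ((flowOf y).Y t p - 1) ^ 2 = E ^ 2 := by
    rw [hX, hY]
    nlinarith [sin_sq_add_cos_sq p]
  rw [hE2] at h1 h2
  have hE1 : E ≤ 11 / 10 := by nlinarith
  have hE2' : 1 / 2 ≤ E := by nlinarith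
  -- `y`
  have ha : |y 0 t p| ≤ 2 := by
    rw [abs_le]
    constructor
    · have h4 := Real.add_one_le_exp (-(y 0 t p))
      rw [exp_neg, ← hE] at h4
      have h5 : E⁻¹ ≤ 2 := by
        rw [inv_le_comm₀ hE0 (by norm_num)]
        linarith
      linarith
    · have h4 := Real.add_one_le_exp (y 0 t p)
      rw [← hE] at h4
      linarith
  -- `y1`
  set b := y 1 t p with hb
  set S := √(1 + b ^ 2) with hS
  have hb0 : (0 : ℝ) < 1 + b ^ 2 := by positivity
  have hS0 : 0 < S := Real.sqrt_pos.2 hb0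
  have hS2 : S ^ 2 = 1 + b ^ 2 := Real.sq_sqrt hb0.le
  have hS1 : 1 ≤ S := by nlinarith [sq_nonneg b]
  have h4 : (flowOf y).X t p * sin ((flowOf y).th t p)
      + (1 - (flowOf y).Y t p) * cos ((flowOf y).th t p) = E / S := by
    have hth : (flowOf y).th t p = p - arctan b := rfl
    have h5 : cos (p - (p - arctan b)) = 1 / S := by
      rw [sub_sub_cancel, Real.cos_arctan]
    rw [cos_sub] at h5
    rw [hX, hY, hth]
    calc E * sin p * sin (p - arctan b) + (1 - (1 - E * cos p)) * cos (p - arctan b)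
        = E * (cos p * cos (p - arctan b) + sin p * sin (p - arctan b)) := by ring
      _ = E / S := by rw [h5]; ring
  rw [h4, le_div_iff₀ hS0] at h3
  have hS3 : S ≤ 11 / 5 := by linarith
  have hb2 : b ^ 2 ≤ 4 := by nlinarith
  have hb1 : |b| ≤ 2 := abs_le_of_sq_le_sq (by linarith) (by norm_num)
  have hb5 : 1 + b ^ 2 ≤ 5 := by linarith
  -- `g`
  have hG : pg y t p = E * S := rfl
  have hG0 : 0 < pg y t p := by rw [hG]; positivity
  have hG3 : pg y t p ≤ 3 := by rw [hG]; nlinarith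
  -- `f`
  have hu0 : 0 < (flowOf y).u t p := hW.upos t ht p
  have hF : f0 ≤ (flowOf y).f t p := by
    rw [hf0]
    unfold FlowData.f fS
    have := Real.rpow_le_rpow hm.le hu (by norm_num : (0 : ℝ) ≤ 2 / 3)
    linarith
  have hF0 : 0 < (flowOf y).f t p := hf0p.trans_le hF
  -- the quotient
  set V := (flowOf y).v t p with hV
  set V1 := (flowOf y).v1 t p with hV1
  set F := (flowOf y).f t p with hFd
  set G := pg y t p with hGd
  have hK : |G * V / F| ≤ 3 * M / f0 := by
    rw [abs_div, abs_mul, abs_of_pos hG0, abs_of_pos hF0]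
    apply div_le_div₀ (by positivity) _ hf0p hF
    exact mul_le_mul hG3 hv (abs_nonneg _) (by norm_num)
  have hA : |1 - G * V / F| ≤ Q := by
    rw [hQ]
    calc |1 - G * V / F| ≤ |(1 : ℝ)| + |G * V / F| := abs_sub _ _
      _ ≤ 1 + 3 * M / f0 := by rw [abs_one]; linarith
  -- `y2`
  have hc : |y 2 t p| ≤ 5 * Q := by
    rw [ident hy hW ht p, abs_mul, abs_of_pos hb0]
    exact mul_le_mul hb5 hA (abs_nonneg _) (by norm_num)
  refine ⟨ha, hb1, hc, ?_⟩
  -- `y3`
  rw [ident3 hy hW ht p hF0]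
  set c := y 2 t p with hcd
  have hEb : |E * b * S| ≤ 5 := by
    rw [abs_mul, abs_mul, abs_of_pos hE0, abs_of_pos hS0]
    calc E * |b| * S ≤ 11 / 10 * 2 * (11 / 5) := by
          apply mul_le_mul _ hS3 hS0.le (by norm_num)
          exact mul_le_mul hE1 hb1 (abs_nonneg _) (by norm_num)
      _ ≤ 5 := by norm_num
  have hbc : |b * c / S| ≤ 10 * Q := by
    rw [abs_div, abs_mul, abs_of_pos hS0]
    calc |b| * |c| / S ≤ |b| * |c| / 1 :=
          div_le_div_of_nonneg_left (by positivity) one_pos hS1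
      _ = |b| * |c| := div_one _
      _ ≤ 2 * (5 * Q) := mul_le_mul hb1 hc (abs_nonneg _) (by norm_num)
      _ = 10 * Q := by ring
  have hEbc : |E * (b * c / S)| ≤ 11 * Q := by
    rw [abs_mul, abs_of_pos hE0]
    calc E * |b * c / S| ≤ 11 / 10 * (10 * Q) :=
          mul_le_mul hE1 hbc (abs_nonneg _) (by norm_num)
      _ = 11 * Q := by ring
  have hG' : |E * b * S + E * (b * c / S)| ≤ 16 * Q := by
    calc |E * b * S + E * (b * c / S)| ≤ |E * b * S| + |E * (b * c / S)| := abs_add_le _ _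
      _ ≤ 5 + 11 * Q := add_le_add hEb hEbc
      _ ≤ 16 * Q := by linarith
  have hnum : |(E * b * S + E * (b * c / S)) * V + G * (G * V1)| ≤ 25 * Q * M := by
    have h5 : |(E * b * S + E * (b * c / S)) * V| ≤ 16 * Q * M := by
      rw [abs_mul]
      exact mul_le_mul hG' hv (abs_nonneg _) (by positivity)
    have h6 : |G * (G * V1)| ≤ 9 * M := by
      rw [abs_mul, abs_mul, abs_of_pos hG0]
      calc G * (G * |V1|) ≤ 3 * (3 * M) := by
            apply mul_le_mul hG3 _ (by positivity) (by norm_num)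
            exact mul_le_mul hG3 hv1 (abs_nonneg _) (by norm_num)
        _ = 9 * M := by ring
    calc |(E * b * S + E * (b * c / S)) * V + G * (G * V1)|
        ≤ |(E * b * S + E * (b * c / S)) * V| + |G * (G * V1)| := abs_add_le _ _
      _ ≤ 16 * Q * M + 9 * M := add_le_add h5 h6
      _ ≤ 25 * Q * M := by nlinarith
  have hN : |((E * b * S + E * (b * c / S)) * V + G * (G * V1)) / F| ≤ 25 * Q * M / f0 := by
    rw [abs_div, abs_of_pos hF0]
    exact div_le_div₀ (by positivity) hnum hf0p hF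
  have hXa : |(flowOf y).X t p| ≤ 2 := by
    rw [hX, abs_mul, abs_of_pos hE0]
    calc E * |sin p| ≤ 2 * 1 :=
          mul_le_mul (by linarith) (abs_sin_le_one p) (abs_nonneg _) (by norm_num)
      _ = 2 := by norm_num
  have hYa : |(flowOf y).Y t p| ≤ 3 := by
    rw [hY]
    calc |1 - E * cos p| ≤ |(1 : ℝ)| + |E * cos p| := abs_sub _ _
      _ = 1 + E * |cos p| := by rw [abs_one, abs_mul, abs_of_pos hE0]
      _ ≤ 1 + 2 * 1 := by
          have := mul_le_mul (show E ≤ 2 by linarith) (abs_cos_le_one p) (abs_nonneg _)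
            (by norm_num)
          linarith
      _ = 3 := by norm_num
  have hu' : |2 * (flowOf y).X t p * (G * cos ((flowOf y).th t p))
        + 2 * (flowOf y).Y t p * (G * sin ((flowOf y).th t p))| ≤ 30 := by
    have h5 : |2 * (flowOf y).X t p * (G * cos ((flowOf y).th t p))| ≤ 12 := by
      rw [abs_mul, abs_mul, abs_mul, abs_of_pos hG0, abs_two]
      calc 2 * |(flowOf y).X t p| * (G * |cos ((flowOf y).th t p)|) ≤ 2 * 2 * (3 * 1) := by
            apply mul_le_mul _ _ (by positivity) (by norm_num)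
            · linarith
            · exact mul_le_mul hG3 (abs_cos_le_one _) (abs_nonneg _) (by norm_num)
        _ = 12 := by norm_num
    have h6 : |2 * (flowOf y).Y t p * (G * sin ((flowOf y).th t p))| ≤ 18 := by
      rw [abs_mul, abs_mul, abs_mul, abs_of_pos hG0, abs_two]
      calc 2 * |(flowOf y).Y t p| * (G * |sin ((flowOf y).th t p)|) ≤ 2 * 3 * (3 * 1) := by
            apply mul_le_mul _ _ (by positivity) (by norm_num)
            · linarith
            · exact mul_le_mul hG3 (abs_sin_le_one _) (abs_nonneg _) (by norm_num)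
        _ = 18 := by norm_num
    refine (abs_add_le _ _).trans ?_
    linarith
  have hL : |2 / 3 * (2 * (flowOf y).X t p * (G * cos ((flowOf y).th t p))
        + 2 * (flowOf y).Y t p * (G * sin ((flowOf y).th t p))) / (flowOf y).u t p|
      ≤ 20 / m := by
    rw [abs_div, abs_mul, abs_of_pos hu0]
    apply div_le_div₀ (by norm_num) _ hm hu
    rw [abs_of_pos (by norm_num : (0 : ℝ) < 2 / 3)]
    linarith
  have hm20 : 0 ≤ 20 / m := by positivity
  have hKL := mul_le_mul hK hL (abs_nonneg _) (by positivity)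
  rw [← abs_mul] at hKL
  refine (abs_sub _ _).trans ?_
  apply add_le_add
  · rw [abs_mul, abs_mul, abs_mul, abs_two]
    calc 2 * |b| * |c| * |1 - G * V / F| ≤ 2 * 2 * (5 * Q) * Q := by
          apply mul_le_mul _ hA (abs_nonneg _) (by positivity)
          apply mul_le_mul _ hc (abs_nonneg _) (by norm_num)
          linarith
      _ = 20 * Q ^ 2 := by ring
  · rw [abs_mul, abs_of_pos hb0]
    apply mul_le_mul hb5 _ (abs_nonneg _) (by norm_num)
    exact (abs_sub _ _).trans (add_le_add hN hKL)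

end Pool.Agent.Lib.MP_c60e08_gt.Lm.C3bd

namespace Pool.Agent.Lib.MP_c60e08_gt.Lm

open Real Set Filter Topology

theorem c3bdStmt : C3bdStmt := by
  intro T M m y hy hW hm hbd
  have hM : 0 ≤ M := (abs_nonneg _).trans
    (hbd 0 ⟨le_rfl, hW.Tpos⟩ 0 ⟨le_rfl, Real.pi_pos.le⟩).1
  set f0 := 3 * m ^ ((2 : ℝ) / 3) with hf0
  set Q := 1 + 3 * M / f0 with hQ
  have hmp : (0 : ℝ) < m ^ ((2 : ℝ) / 3) := Real.rpow_pos_of_pos hm _
  have hf0p : 0 < f0 := by rw [hf0]; positivity
  have hQ1 : 0 ≤ Q := by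
    rw [hQ]
    positivity
  set R := 20 * Q ^ 2 + 5 * (25 * Q * M / f0 + 3 * M / f0 * (20 / m)) with hR
  have hR0 : 0 ≤ R := by rw [hR]; positivity
  refine ⟨2 + 5 * Q + R + 1 / m, ?_⟩
  intro t ht
  have h1m : 0 < 1 / m := by positivity
  apply C3bd.ext_all
  · intro p
    have h1 := C3bd.per_all hy ht
    have h2 : uu (p + 2 * π) (y 0 t (p + 2 * π)) = uu p (y 0 t p) := by
      rw [h1]
      unfold uu
      rw [Real.cos_add_two_pi]
    rw [h2, h1, h1, h1, h1]
  · intro p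
    have h1 := C3bd.abs_even hy ht
    have h2 : uu (-p) (y 0 t (-p)) = uu p (y 0 t p) := by
      rw [hy.even t ht]
      unfold uu
      rw [Real.cos_neg]
    rw [h2, h1, h1, h1, h1]
  · intro p hp
    obtain ⟨h1, h2, h3, h4, h5, h6⟩ := hbd t ht p hp
    obtain ⟨g1, g2, g3, g4⟩ := C3bd.bd hy hW hm hM ht p h1 h2 h3 h4 h5 h6 f0 Q hf0 hQ
    refine ⟨by linarith, by linarith, by linarith, by linarith, ?_⟩
    rw [← C3bd.uu_eq]
    have h7 : 1 = 1 / m * m := by field_simp
    calc (1 : ℝ) = 1 / m * m := h7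
      _ ≤ (2 + 5 * Q + R + 1 / m) * (flowOf y).u t p := by
          apply mul_le_mul _ h3 hm.le (by positivity)
          linarith

end Pool.Agent.Lib.MP_c60e08_gt.Lm
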