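import Pool.Agent.Lib.MP_c60e08_gt.LmFlow2

/-!
MP_c60e08_gt, FLOW part: module Close.
-/

namespace Pool.Agent.Lib.MP_c60e08_gt.Lm.Close

open Real Set Filter Topology
open Pool.Agent.Lib.MP_c60e08_gt.Lm

/-- powers of a positive number and its cube root -/
theorem cube {d : ℝ} (hd : 0 < d) : 0 < d ^ ((1 : ℝ) / 3) ∧ (d ^ ((1 : ℝ) / 3)) ^ 3 = d ∧
    d ^ ((2 : ℝ) / 3) = (d ^ ((1 : ℝ) / 3)) ^ 2 := by
  refine ⟨Real.rpow_pos_of_pos hd _, ?_, ?_⟩
  · rw [← Real.rpow_natCast, ← Real.rpow_mul hd.le]; norm_num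
  · rw [← Real.rpow_natCast, ← Real.rpow_mul hd.le]; norm_num

/-- small angles -/
theorem angle {x Θ β : ℝ} (hx0 : 0 ≤ x) (hx : x ≤ Θ) (hΘ : Θ ≤ 1 / 100) (hβ : 26 / 25 * Θ ≤ β) :
    0 ≤ sin (-x) + β * cos (-x) := by
  rw [sin_neg, cos_neg]
  have h1 : sin x ≤ x := Real.sin_le hx0
  have h2 : 1 - x ^ 2 / 2 ≤ cos x := Real.one_sub_sq_div_two_le_cos
  have h3 : (99 : ℝ) / 100 ≤ cos x := by nlinarith
  have h4 : 0 ≤ Θ := hx0.trans hx
  nlinarith

/-- The shape of the curve at a fixed time. -/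
theorem shape (h6 : NoCommonStmt) (h8 : IdStmt) {b T : ℝ} {W : FlowData} (hW : IsFlow T W) {t : ℝ}
    (ht : t ∈ Ico 0 T) (hP : Pack b W t) (hv0 : W.v t 0 < 0) {Θ β : ℝ} (hΘ : Θ ≤ 1 / 100)
    (hβ : 26 / 25 * Θ ≤ β) (hΘ0 : 0 ≤ Θ) (hth : ∀ p ∈ Icc 0 π, -Θ ≤ W.th t p) :
    ∀ p ∈ Icc 0 π, W.Y t 0 - β * W.rho t p ≤ W.Y t p := by
  obtain ⟨hid, -⟩ := h8 T W hW
  have hpi := Real.pi_pos
  have cv : ContinuousOn (W.v t) (Icc 0 π) := by
    intro q _
    exact (hW.vp t ht q).continuousAt.continuousWithinAt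
  have cth : ∀ s, ContinuousOn (W.th t) s := by
    intro s q _
    exact (hW.thp t ht q).continuousAt.continuousWithinAt
  have cX : ∀ s, ContinuousOn (W.X t) s := by
    intro s q _
    exact (hW.Xp t ht q).continuousAt.continuousWithinAt
  have cY : ∀ s, ContinuousOn (W.Y t) s := by
    intro s q _
    exact (hW.Yp t ht q).continuousAt.continuousWithinAt
  -- the inflection point
  set A := {q ∈ Icc 0 π | W.v t q ≤ 0} with hA
  have hAc : IsCompact A := by
    have : IsClosed A := cv.preimage_isClosed_of_isClosed isClosed_Icc isClosed_Iic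
    exact isCompact_Icc.of_isClosed_subset this (fun q hq => hq.1)
  have h0A : (0 : ℝ) ∈ A := ⟨⟨le_rfl, hpi.le⟩, hv0.le⟩
  have hsA : sSup A ∈ A := hAc.sSup_mem ⟨0, h0A⟩
  set ps := sSup A with hps
  have hgt : ∀ q ∈ Icc 0 π, ps < q → 0 < W.v t q := by
    intro q hq hlt
    by_contra hcon
    push Not at hcon
    have : q ∈ A := ⟨hq, hcon⟩
    have := le_csSup hAc.bddAbove this
    linarith
  have hvpi : 0 < W.v t π := by linarith [hP.vtop]
  have hpslt : ps < π := by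
    rcases lt_or_eq_of_le hsA.1.2 with h | h
    · exact h
    · have := hsA.2
      rw [h] at this
      linarith
  have hle : ∀ q ∈ Icc 0 ps, W.v t q ≤ 0 := by
    intro q hq
    exact ((h6 T W hW t ht hP.rpos hP.om1 ps ⟨hsA.1.1, hpslt⟩ hsA.2) q hq).1
  have hfpos : ∀ q, 0 < W.f t q := fun q => (hid t ht q).2.2.1
  have hgpos := hW.gpos t ht
  -- monotonicity of th
  have hanti : AntitoneOn (W.th t) (Icc 0 ps) := by
    refine antitoneOn_of_deriv_nonpos (convex_Icc _ _) (cth _) ?_ ?_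
    · intro q _
      exact (hW.thp t ht q).differentiableAt.differentiableWithinAt
    · intro q hq
      rw [interior_Icc] at hq
      rw [(hW.thp t ht q).deriv]
      unfold FlowData.kap
      have h1 := hle q ⟨hq.1.le, hq.2.le⟩
      exact mul_nonpos_of_nonneg_of_nonpos (hgpos q).le (div_nonpos_of_nonpos_of_nonneg h1 (hfpos q).le)
  have hmono : MonotoneOn (W.th t) (Icc ps π) := by
    refine monotoneOn_of_deriv_nonneg (convex_Icc _ _) (cth _) ?_ ?_
    · intro q _
      exact (hW.thp t ht q).differentiableAt.differentiableWithinAt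
    · intro q hq
      rw [interior_Icc] at hq
      rw [(hW.thp t ht q).deriv]
      unfold FlowData.kap
      have h1 := hgt q ⟨hsA.1.1.trans hq.1.le, hq.2.le⟩ hq.1
      exact mul_nonneg (hgpos q).le (div_nonneg h1.le (hfpos q).le)
  have hth0 : W.th t 0 = 0 := hW.th0 t ht
  have hthpi : W.th t π = π := hW.thpi t ht
  -- case A
  have caseA : ∀ p ∈ Icc 0 π, W.th t p ≤ 0 → W.Y t 0 - β * W.rho t p ≤ W.Y t p := by
    intro p hp hp0
    have hneg : ∀ q ∈ Icc 0 p, W.th t q ≤ 0 := by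
      intro q hq
      rcases le_or_gt q ps with h | h
      · rw [← hth0]
        exact hanti ⟨le_rfl, hsA.1.1⟩ ⟨hq.1, h⟩ hq.1
      · exact (hmono ⟨h.le, hq.2.trans hp.2⟩ ⟨h.le.trans hq.2, hp.2⟩ hq.2).trans hp0
    have hm : MonotoneOn (fun q => W.Y t q + β * W.X t q) (Icc 0 p) := by
      refine monotoneOn_of_deriv_nonneg (convex_Icc _ _) ?_ ?_ ?_
      · exact (cY _).add (continuousOn_const.mul (cX _))
      · intro q _
        exact ((hW.Yp t ht q).differentiableAt.add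
          ((hW.Xp t ht q).differentiableAt.const_mul β)).differentiableWithinAt
      · intro q hq
        rw [interior_Icc] at hq
        have hd := (hW.Yp t ht q).add ((hW.Xp t ht q).const_mul β)
        have hd' : deriv (fun q => W.Y t q + β * W.X t q) q
            = W.g t q * sin (W.th t q) + β * (W.g t q * cos (W.th t q)) := hd.deriv
        rw [hd']
        have h1 := hneg q ⟨hq.1.le, hq.2.le⟩
        have h2 := hth q ⟨hq.1.le, hq.2.le.trans hp.2⟩
        have h3 := angle (x := - W.th t q) (by linarith) (by linarith) hΘ hβ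
        rw [neg_neg] at h3
        have h4 : W.g t q * sin (W.th t q) + β * (W.g t q * cos (W.th t q))
            = W.g t q * (sin (W.th t q) + β * cos (W.th t q)) := by ring
        rw [h4]
        exact mul_nonneg (hgpos q).le h3
    have h1 := hm ⟨le_rfl, hp.1⟩ ⟨hp.1, le_rfl⟩ hp.1
    simp only at h1
    rw [hW.X0 t ht] at h1
    have h2 : W.X t p ≤ W.rho t p := by
      have := (hid t ht p).2.2.2.2.2.2.2.2.2.2.1
      exact (abs_le.mp this).2
    have hβ0 : 0 ≤ β := by linarith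
    nlinarith
  intro p hp
  rcases le_or_gt (W.th t p) 0 with h | h
  · exact caseA p hp h
  · -- case B
    have hpp : ps < p := by
      by_contra hcon
      push Not at hcon
      have := hanti ⟨le_rfl, hsA.1.1⟩ ⟨hp.1, hcon⟩ hp.1
      rw [hth0] at this
      linarith
    have hpsle : W.th t ps ≤ 0 := by
      rw [← hth0]
      exact hanti ⟨le_rfl, hsA.1.1⟩ ⟨hsA.1.1, le_rfl⟩ hsA.1.1
    obtain ⟨p1, hp1, hp10⟩ : ∃ p1 ∈ Icc ps p, W.th t p1 = 0 := by
      have := intermediate_value_Icc hpp.le (cth (Icc ps p))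
      exact this ⟨hpsle, h.le⟩
    have hp1I : p1 ∈ Icc 0 π := ⟨hsA.1.1.trans hp1.1, hp1.2.trans hp.2⟩
    have h1 := caseA p1 hp1I hp10.le
    have hm : MonotoneOn (W.Y t) (Icc p1 p) := by
      refine monotoneOn_of_deriv_nonneg (convex_Icc _ _) (cY _) ?_ ?_
      · intro q _
        exact (hW.Yp t ht q).differentiableAt.differentiableWithinAt
      · intro q hq
        rw [interior_Icc] at hq
        rw [(hW.Yp t ht q).deriv]
        have k1 : 0 ≤ W.th t q := by
          rw [← hp10]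
          exact hmono ⟨hp1.1, hp1I.2⟩ ⟨hp1.1.trans hq.1.le, hq.2.le.trans hp.2⟩ hq.1.le
        have k2 : W.th t q ≤ π := by
          rw [← hthpi]
          exact hmono ⟨hp1.1.trans hq.1.le, hq.2.le.trans hp.2⟩ ⟨hpslt.le, le_rfl⟩ (hq.2.le.trans hp.2)
        exact mul_nonneg (hgpos q).le (sin_nonneg_of_nonneg_of_le_pi k1 k2)
    have h2 := hm ⟨le_rfl, hp1.2⟩ ⟨hp1.2, le_rfl⟩ hp1.2
    have h3 : W.rho t p1 ≤ W.rho t p := by
      obtain ⟨-, -, -, a4, a5, -, -, a8, -⟩ := hid t ht p1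
      obtain ⟨-, -, -, b4, b5, -, -, b8, -⟩ := hid t ht p
      have hs := hP.mono p1 hp1I p hp hp1.2
      have hs3 : W.ss t p1 ^ 3 ≤ W.ss t p ^ 3 := pow_le_pow_left₀ a4.le hs 3
      rw [← a8, ← b8] at hs3
      exact (sq_le_sq₀ a5.le b5.le).mp hs3
    have hβ0 : 0 ≤ β := by linarith
    nlinarith

end Pool.Agent.Lib.MP_c60e08_gt.Lm.Close

namespace Pool.Agent.Lib.MP_c60e08_gt.Lm

open Real Set Filter Topology Close

theorem closeStmt (h1 : CloseOdeStmt) (h2 : AntiStmt) (h3 : InflStmt) (h4 : ThUnderStmt)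
    (h5 : LBarStmt) (h6 : NoCommonStmt) (_h7 : CvxStmt) (h8 : IdStmt) : CloseStmt := by
  intro C3 hC3
  set K : ℝ := max C3 (10 ^ 12) with hK
  have hK1 : (10 : ℝ) ^ 12 ≤ K := le_max_right _ _
  have hK2 : C3 ≤ K := le_max_left _ _
  have hK0 : 0 < K := lt_of_lt_of_le (by norm_num) hK1
  have hK3 : (1 : ℝ) ≤ K := le_trans (by norm_num) hK1
  obtain ⟨ε0, hε0, b3, hb3, hinfl⟩ := h3 K hK3
  refine ⟨K, hK3, min b3 (min (ε0 / 6) (1 / (10 ^ 4 * K))), by positivity, ?_⟩
  intro b T W hb hS hI hU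
  have hb1 : b ≤ b3 := hb.trans (min_le_left _ _)
  have hb2 : b ≤ ε0 / 6 := hb.trans ((min_le_right _ _).trans (min_le_left _ _))
  have hb4 : b ≤ 1 / (10 ^ 4 * K) := hb.trans ((min_le_right _ _).trans (min_le_right _ _))
  have hW := hS.flow
  have hb0 := hS.bpos
  obtain ⟨hid, -⟩ := h8 T W hW
  have hpi := Real.pi_pos
  have h0I : (0 : ℝ) ∈ Icc 0 π := ⟨le_rfl, hpi.le⟩
  have hb5 : b ≤ 1 / 16000 := by
    refine hb4.trans ?_
    rw [div_le_div_iff₀ (by positivity) (by norm_num)]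
    nlinarith
  have hY : ∀ t ∈ Ico 0 T, W.Y t 0 ≤ (6 * b) ^ 3 := by
    intro t ht
    have := (hS.pack t ht).dle
    nlinarith [pow_pos hb0 3]
  have hYε : ∀ t ∈ Ico 0 T, W.Y t 0 ≤ ε0 ^ 3 := by
    intro t ht
    refine (hY t ht).trans (pow_le_pow_left₀ (by positivity) (by linarith) 3)
  -- values at the tip
  have hrho0 : ∀ t ∈ Ico 0 T, W.rho t 0 = W.Y t 0 := by
    intro t ht
    unfold FlowData.rho FlowData.u
    rw [hW.X0 t ht]
    rw [zero_pow two_ne_zero, zero_add, Real.sqrt_sq (hW.tip t ht).le]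
  -- the bound for the velocity at the tip
  have hinfl' : ∀ t1 ∈ Ico 0 T, (∀ t ∈ Icc 0 t1, - W.v t 0 ≤ 3 * K * (W.Y t 0) ^ ((2 : ℝ) / 3)) →
      ∀ t ∈ Icc 0 t1, ∀ p ∈ Icc 0 π, 160 * K * (W.Y t 0) ^ ((2 : ℝ) / 3) ≤ W.X t p → 0 < W.v t p := by
    intro t1 ht1 hbd
    refine hinfl b C3 T W hb0 hb1 (by linarith) hW hI t1 ht1 ?_
    intro t ht
    have htT : t ∈ Ico 0 T := ⟨ht.1, ht.2.trans_lt ht1.2⟩
    exact ⟨hS.pack t htT, hYε t htT, hbd t ht⟩
  have hmain : ∀ t ∈ Ico 0 T, - W.v t 0 ≤ 3 * K * (W.Y t 0) ^ ((2 : ℝ) / 3) := by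
    refine h1 T K C3 (fun t => W.Y t 0) (fun t => W.v t 0) hK0 hK2 (fun t ht => hW.tip t ht) ?_ ?_ ?_
      hS.vneg (h2 b T W hS) ?_ ?_
    · have : ContinuousOn ((fun z : ℝ × ℝ => W.Y z.1 z.2) ∘ fun t : ℝ => (t, (0 : ℝ))) (Ico 0 T) :=
        hW.cY.comp (by fun_prop) (fun t ht => ⟨ht, mem_univ _⟩)
      exact this
    · have : ContinuousOn ((fun z : ℝ × ℝ => W.v z.1 z.2) ∘ fun t : ℝ => (t, (0 : ℝ))) (Ico 0 T) :=
        hW.cv.comp (by fun_prop) (fun t ht => ⟨ht, mem_univ _⟩)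
      exact this
    · intro t ht
      have hd := hW.Yt t ht 0
      rw [hW.th0 t ⟨ht.1.le, ht.2⟩, hW.lam0 t ⟨ht.1.le, ht.2⟩, cos_zero, sin_zero] at hd
      simpa using hd
    · intro hT
      have h0T : (0 : ℝ) ∈ Ico 0 T := ⟨le_rfl, hT⟩
      have hr0 : W.r 0 0 = 0 := by
        unfold FlowData.r
        rw [hW.th0 0 h0T, hW.X0 0 h0T]; simp
      have hYs : W.Y 0 0 ≤ 1 / 8000 := by
        refine (hY 0 h0T).trans ?_
        have : 6 * b ≤ 1 / 20 := by linarith
        calc (6 * b) ^ 3 ≤ (1 / 20) ^ 3 := pow_le_pow_left₀ (by positivity) this 3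
          _ = 1 / 8000 := by norm_num
      have := hI.inner 0 h0I (by rw [hrho0 0 h0T]; exact hYs)
      rw [hr0] at this
      linarith
    · intro t1 ht1 hbd ts hts
      have htsT : ts ∈ Ico 0 T := ⟨hts.1, hts.2.trans_lt ht1.2⟩
      have hd := hW.tip ts htsT
      have hd1 := hW.tip t1 ht1
      obtain ⟨e0, e3, e2⟩ := cube hd
      obtain ⟨f0, f3, f2⟩ := cube hd1
      set e := (W.Y ts 0) ^ ((1 : ℝ) / 3) with he
      set e1 := (W.Y t1 0) ^ ((1 : ℝ) / 3) with he1
      rw [e2, f2]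
      have heb : e ≤ 6 * b := by
        have : e ^ 3 ≤ (6 * b) ^ 3 := by rw [e3]; exact hY ts htsT
        exact le_of_pow_le_pow_left₀ (by norm_num) (by positivity) this
      have hKe : K * e ≤ 1 / 1000 := by
        have h7 : K * b ≤ 1 / 10 ^ 4 := by
          have := mul_le_mul_of_nonneg_left hb4 hK0.le
          rw [show K * (1 / (10 ^ 4 * K)) = 1 / 10 ^ 4 by field_simp] at this
          exact this
        have h8 : K * e ≤ K * (6 * b) := mul_le_mul_of_nonneg_left heb hK0.le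
        nlinarith
      have heK : e ≤ 1 / (125 * K) := by
        rw [le_div_iff₀ (by positivity)]
        nlinarith
      -- lower bound for the angle
      have hth : ∀ p ∈ Icc 0 π, -(K / 4 * e) ≤ W.th ts p := by
        by_contra hcon
        push Not at hcon
        obtain ⟨p, hp, hlt⟩ := hcon
        have hun := h4 K hK1 b T W hW hb0 hb5 ts htsT (hS.pack ts htsT) e e0 e3 heK ?_ ⟨p, hp, hlt⟩
        · exact hU ts htsT _ _ hun
        · intro q hq hXq
          refine hinfl' t1 ht1 hbd ts hts q hq ?_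
          rw [e2]; exact hXq
      have hKe0 : 0 < K * e := by positivity
      have hsh := shape h6 h8 hW htsT (hS.pack ts htsT) (hS.vneg ts htsT) (Θ := K / 4 * e)
        (β := 13 / 50 * (K * e)) (by linarith) (by linarith) (by positivity) hth
      -- the barrier
      have hgoal : 0 ≤ 6 / 10 * K * e * (t1 - ts) := by
        have : 0 ≤ t1 - ts := by linarith [hts.2]
        positivity
      by_cases hB : 11 / 5 * (13 / 50 * (K * e)) * (t1 - ts) < e ^ 2
      · have hL := h5 T W hW ts htsT (13 / 50 * (K * e)) e (by positivity) (by linarith) e0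
          (by intro p hp; rw [e3]; exact hsh p hp) t1 ⟨hts.2, ht1.2⟩ hB 0 h0I
        rw [hrho0 t1 ht1] at hL
        set B := e ^ 2 - 11 / 5 * (13 / 50 * (K * e)) * (t1 - ts) with hBd
        have hB0 : 0 ≤ B := by linarith
        have hs3 : √B ^ 3 ≤ (1003 / 1000 * e1) ^ 3 := by
          have h9 : √B ^ 3 ≤ (1 + 13 / 50 * (K * e)) * W.Y t1 0 := by linarith
          rw [← f3] at h9
          have h10 : (1 + 13 / 50 * (K * e)) ≤ (1003 / 1000) ^ 3 := by
            norm_num; linarith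
          calc √B ^ 3 ≤ (1 + 13 / 50 * (K * e)) * e1 ^ 3 := h9
            _ ≤ (1003 / 1000) ^ 3 * e1 ^ 3 := mul_le_mul_of_nonneg_right h10 (by positivity)
            _ = _ := by ring
        have hs : √B ≤ 1003 / 1000 * e1 :=
          le_of_pow_le_pow_left₀ (by norm_num) (by positivity) hs3
        have hs2 : B ≤ (1003 / 1000 * e1) ^ 2 := by
          calc B = √B ^ 2 := (Real.sq_sqrt hB0).symm
            _ ≤ _ := pow_le_pow_left₀ (Real.sqrt_nonneg _) hs 2
        have hsq : 0 < e1 ^ 2 := by positivity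
        have h11 : 0 ≤ K * e * (t1 - ts) := by
          have : 0 ≤ t1 - ts := by linarith [hts.2]
          positivity
        rw [hBd] at hs2
        nlinarith
      · have hsq : 0 < e1 ^ 2 := by positivity
        have h11 : 0 ≤ K * e * (t1 - ts) := by
          have : 0 ≤ t1 - ts := by linarith [hts.2]
          positivity
        push Not at hB
        nlinarith
  intro t ht
  refine ⟨hmain t ht, ?_⟩
  exact hinfl' t ht (fun s hs => hmain s ⟨hs.1, hs.2.trans_lt ht.2⟩) t ⟨ht.1, le_rfl⟩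

end Pool.Agent.Lib.MP_c60e08_gt.Lm
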