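import Pool.Agent.Lib.MP_c60e08_gt.LmFlow2

/-!
Module CloseOde: the closing argument.
-/

namespace Pool.Agent.Lib.MP_c60e08_gt.Lm

open Real Set Filter Topology

theorem closeOdeStmt : CloseOdeStmt := by
  intro T K C3 d v0 hK hC hd hdc hvc hder hvneg hanti hinit hhyp t0 ht0
  by_contra hcon
  push Not at hcon
  have hT : 0 < T := lt_of_le_of_lt ht0.1 ht0.2
  have h0T : (0 : ℝ) ∈ Ico 0 T := ⟨le_refl _, hT⟩
  -- powers
  have p2 : ∀ t ∈ Ico 0 T, (d t) ^ ((2 : ℝ) / 3) = ((d t) ^ ((1 : ℝ) / 3)) ^ 2 := by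
    intro t ht
    rw [← Real.rpow_natCast, ← Real.rpow_mul (hd t ht).le]
    norm_num
  have pm : ∀ t ∈ Ico 0 T, (d t) ^ (-(1 : ℝ) / 3) = ((d t) ^ ((1 : ℝ) / 3))⁻¹ := by
    intro t ht
    rw [← Real.rpow_neg (hd t ht).le]
    norm_num
  have pe : ∀ t ∈ Ico 0 T, 0 < (d t) ^ ((1 : ℝ) / 3) := fun t ht => Real.rpow_pos_of_pos (hd t ht) _
  have c2 : ContinuousOn (fun t => (d t) ^ ((2 : ℝ) / 3)) (Ico 0 T) :=
    hdc.rpow_const fun t _ => Or.inr (by norm_num)
  have c1 : ContinuousOn (fun t => (d t) ^ ((1 : ℝ) / 3)) (Ico 0 T) :=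
    hdc.rpow_const fun t _ => Or.inr (by norm_num)
  set h : ℝ → ℝ := fun t => - v0 t - 3 * K * (d t) ^ ((2 : ℝ) / 3) with hh
  have hhc : ContinuousOn h (Ico 0 T) := hvc.neg.sub (continuousOn_const.mul c2)
  have hh0 : h 0 < 0 := by
    have h1 := hinit hT
    have h2 : 0 < (d 0) ^ ((2 : ℝ) / 3) := Real.rpow_pos_of_pos (hd 0 h0T) _
    simp only [hh]
    nlinarith
  have hsub : Icc 0 t0 ⊆ Ico 0 T := fun x hx => ⟨hx.1, lt_of_le_of_lt hx.2 ht0.2⟩
  -- the first zero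
  set S : Set ℝ := {t | t ∈ Icc 0 t0 ∧ 0 ≤ h t} with hS
  have hSc : IsCompact S := by
    have hcl : IsClosed (Icc 0 t0 ∩ h ⁻¹' (Ici 0)) :=
      (hhc.mono hsub).preimage_isClosed_of_isClosed isClosed_Icc isClosed_Ici
    have : S = Icc 0 t0 ∩ h ⁻¹' (Ici 0) := rfl
    rw [this]
    exact isCompact_Icc.of_isClosed_subset hcl inter_subset_left
  have hSne : S.Nonempty := ⟨t0, ⟨ht0.1, le_refl _⟩, by simp only [hh]; linarith⟩
  obtain ⟨t1, ht1S, ht1min⟩ := hSc.exists_isLeast hSne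
  have ht1 : t1 ∈ Ico 0 T := hsub ht1S.1
  have hlt : ∀ t ∈ Ico 0 t1, h t < 0 := by
    intro t ht
    by_contra hc
    push Not at hc
    have : t ∈ S := ⟨⟨ht.1, ht.2.le.trans ht1S.1.2⟩, hc⟩
    exact absurd (ht1min this) (not_le.2 ht.2)
  have ht1pos : 0 < t1 := by
    rcases eq_or_lt_of_le ht1.1 with h1 | h1
    · exfalso
      have := ht1S.2
      rw [← h1] at this
      linarith
    · exact h1
  have ht1zero : h t1 = 0 := by
    apply le_antisymm _ ht1S.2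
    have hcw : ContinuousWithinAt h (Ico 0 t1) t1 :=
      (hhc t1 ht1).mono (fun x hx => ⟨hx.1, hx.2.trans ht1.2⟩)
    have hmem : t1 ∈ closure (Ico 0 t1) := by
      rw [closure_Ico ht1pos.ne]
      exact ⟨ht1pos.le, le_refl _⟩
    have := hcw.mem_closure hmem (t := Iic 0) (fun x hx => (hlt x hx).le)
    rw [isClosed_Iic.closure_eq] at this
    exact this
  have hle : ∀ t ∈ Icc 0 t1, - v0 t ≤ 3 * K * (d t) ^ ((2 : ℝ) / 3) := by
    intro t ht
    rcases eq_or_lt_of_le ht.2 with h1 | h1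
    · rw [h1]
      have := ht1zero
      simp only [hh] at this
      linarith
    · have := hlt t ⟨ht.1, h1⟩
      simp only [hh] at this
      linarith
  have hIcc : Icc 0 t1 ⊆ Ico 0 T := fun x hx => ⟨hx.1, lt_of_le_of_lt hx.2 ht1.2⟩
  set e1 : ℝ := (d t1) ^ ((1 : ℝ) / 3) with he1
  have he1pos : 0 < e1 := pe t1 ht1
  have hv1 : - v0 t1 = 3 * K * e1 ^ 2 := by
    have := ht1zero
    simp only [hh] at this
    rw [p2 t1 ht1] at this
    linarith
  -- `κ`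
  have hk1 : - v0 t1 * (d t1) ^ (-(1 : ℝ) / 3) = 3 * K * e1 := by
    rw [hv1, pm t1 ht1, ← he1]
    field_simp
  have hk : ∀ t ∈ Icc 0 t1, 3 * K * e1 ≤ - v0 t * (d t) ^ (-(1 : ℝ) / 3) := by
    intro t ht
    have := hanti (hIcc ht) ht1 ht.2
    simp only [] at this
    rw [hk1] at this
    exact this
  -- `ε(0) ≥ 3 ε1`
  have he0 : 3 * e1 ≤ (d 0) ^ ((1 : ℝ) / 3) := by
    have h1 := hk 0 ⟨le_refl _, ht1pos.le⟩
    have h2 := hinit hT
    rw [p2 0 h0T] at h2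
    rw [pm 0 h0T] at h1
    set E0 : ℝ := (d 0) ^ ((1 : ℝ) / 3) with hE0
    have hE0pos : 0 < E0 := pe 0 h0T
    have h3 : - v0 0 * E0⁻¹ ≤ C3 * E0 ^ 2 * E0⁻¹ :=
      mul_le_mul_of_nonneg_right h2 (inv_pos.2 hE0pos).le
    have h4 : C3 * E0 ^ 2 * E0⁻¹ = C3 * E0 := by field_simp
    rw [h4] at h3
    have h5 : C3 * E0 ≤ K * E0 := mul_le_mul_of_nonneg_right hC hE0pos.le
    have h6 : K * (3 * e1) ≤ K * E0 := by linarith
    exact le_of_mul_le_mul_left h6 hK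
  -- `ε² + 2 K ε1 t` is antitone
  have hG : AntitoneOn (fun t => (d t) ^ ((2 : ℝ) / 3) + 2 * K * e1 * t) (Icc 0 t1) := by
    apply antitoneOn_of_deriv_nonpos (convex_Icc 0 t1)
    · exact (c2.mono hIcc).add (continuousOn_const.mul continuousOn_id)
    · intro t ht
      rw [interior_Icc] at ht
      have htT : t ∈ Ioo 0 T := ⟨ht.1, ht.2.trans ht1.2⟩
      have hdt := hd t ⟨ht.1.le, htT.2⟩
      exact (((hder t htT).rpow_const (Or.inl hdt.ne')).add
        ((hasDerivAt_id t).const_mul (2 * K * e1))).differentiableAt.differentiableWithinAt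
    · intro t ht
      rw [interior_Icc] at ht
      have htT : t ∈ Ioo 0 T := ⟨ht.1, ht.2.trans ht1.2⟩
      have hdt := hd t ⟨ht.1.le, htT.2⟩
      have h1 : HasDerivAt (fun t => (d t) ^ ((2 : ℝ) / 3) + 2 * K * e1 * t)
          (v0 t * ((2 : ℝ) / 3) * (d t) ^ ((2 : ℝ) / 3 - 1) + 2 * K * e1 * 1) t :=
        ((hder t htT).rpow_const (Or.inl hdt.ne')).add
          ((hasDerivAt_id t).const_mul (2 * K * e1))
      rw [h1.deriv]
      have h2 : ((2 : ℝ) / 3 - 1) = -(1 : ℝ) / 3 := by norm_num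
      rw [h2]
      have h3 := hk t ⟨ht.1.le, ht.2.le⟩
      nlinarith
  -- `ε + K t` is monotone
  have hF : MonotoneOn (fun t => (d t) ^ ((1 : ℝ) / 3) + K * t) (Icc 0 t1) := by
    apply monotoneOn_of_deriv_nonneg (convex_Icc 0 t1)
    · exact (c1.mono hIcc).add (continuousOn_const.mul continuousOn_id)
    · intro t ht
      rw [interior_Icc] at ht
      have htT : t ∈ Ioo 0 T := ⟨ht.1, ht.2.trans ht1.2⟩
      have hdt := hd t ⟨ht.1.le, htT.2⟩
      exact (((hder t htT).rpow_const (Or.inl hdt.ne')).add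
        ((hasDerivAt_id t).const_mul K)).differentiableAt.differentiableWithinAt
    · intro t ht
      rw [interior_Icc] at ht
      have htT : t ∈ Ioo 0 T := ⟨ht.1, ht.2.trans ht1.2⟩
      have hdt := hd t ⟨ht.1.le, htT.2⟩
      have h1 : HasDerivAt (fun t => (d t) ^ ((1 : ℝ) / 3) + K * t)
          (v0 t * ((1 : ℝ) / 3) * (d t) ^ ((1 : ℝ) / 3 - 1) + K * 1) t :=
        ((hder t htT).rpow_const (Or.inl hdt.ne')).add
          ((hasDerivAt_id t).const_mul K)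
      rw [h1.deriv]
      have h2 : (d t) ^ ((1 : ℝ) / 3 - 1) = ((d t) ^ ((2 : ℝ) / 3))⁻¹ := by
        rw [← Real.rpow_neg hdt.le]
        norm_num
      rw [h2]
      set A : ℝ := (d t) ^ ((2 : ℝ) / 3) with hA
      have hApos : 0 < A := Real.rpow_pos_of_pos hdt _
      have h3 := hle t ⟨ht.1.le, ht.2.le⟩
      rw [← hA] at h3
      have h4 : - v0 t * A⁻¹ ≤ 3 * K * A * A⁻¹ :=
        mul_le_mul_of_nonneg_right h3 (inv_pos.2 hApos).le
      have h5 : 3 * K * A * A⁻¹ = 3 * K := by field_simp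
      rw [h5] at h4
      nlinarith
  have ht1ge : 2 * e1 ≤ K * t1 := by
    have h1 := hF (left_mem_Icc.2 ht1pos.le) (right_mem_Icc.2 ht1pos.le) ht1pos.le
    simp only [mul_zero, add_zero] at h1
    linarith
  -- the point `ts`
  set ts : ℝ := t1 - e1 / (2 * K) with hts
  have hKts : K * (t1 - ts) = e1 / 2 := by
    rw [hts]
    field_simp
    ring
  have hts1 : ts ≤ t1 := by
    have : 0 < e1 / (2 * K) := by positivity
    rw [hts]
    linarith
  have hts0 : 0 ≤ ts := by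
    have : e1 / (2 * K) ≤ t1 := by
      rw [div_le_iff₀ (by positivity)]
      nlinarith
    rw [hts]
    linarith
  have htsI : ts ∈ Icc 0 t1 := ⟨hts0, hts1⟩
  set E : ℝ := (d ts) ^ ((1 : ℝ) / 3) with hE
  have hEpos : 0 < E := pe ts (hIcc htsI)
  have hE2 : 2 * e1 ^ 2 ≤ E ^ 2 := by
    have h1 := hG htsI (right_mem_Icc.2 ht1pos.le) hts1
    simp only [] at h1
    rw [p2 ts (hIcc htsI), p2 t1 ht1, ← hE, ← he1] at h1
    have h2 : 2 * K * e1 * t1 - 2 * K * e1 * ts = e1 ^ 2 := by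
      calc 2 * K * e1 * t1 - 2 * K * e1 * ts = 2 * e1 * (K * (t1 - ts)) := by ring
        _ = e1 ^ 2 := by rw [hKts]; ring
    linarith
  have hfin := hhyp t1 ht1 hle ts htsI
  rw [p2 ts (hIcc htsI), p2 t1 ht1, ← hE, ← he1] at hfin
  have h1 : 6 / 10 * K * E * (t1 - ts) = 3 / 10 * E * e1 := by
    calc 6 / 10 * K * E * (t1 - ts) = 6 / 10 * E * (K * (t1 - ts)) := by ring
      _ = _ := by rw [hKts]; ring
  rw [h1] at hfin
  have h2 : 14 / 10 * e1 ≤ E := by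
    by_contra hc
    push Not at hc
    have : E ^ 2 < (14 / 10 * e1) ^ 2 := pow_lt_pow_left₀ hc hEpos.le (by norm_num)
    nlinarith
  nlinarith [mul_pos he1pos he1pos]

end Pool.Agent.Lib.MP_c60e08_gt.Lm
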