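import Pool.Agent.Lib.MP_c60e08_gt.LmFlow2

/-!
MP_c60e08_gt, FLOW part: module Contact.
-/

namespace Pool.Agent.Lib.MP_c60e08_gt.Lm

theorem contactStmt : ContactStmt := by
  intro rho G r z C S X Y hrho hrz hCS hX hY hS
  have hne : rho ≠ 0 := hrho.ne'
  have hS' : S * rho = G * r := by rw [hS]; field_simp
  have e1 : 1 - 2 * (Y / rho) * G + G ^ 2 = (C - G * z / rho) ^ 2 := by
    have h0 : (S - G * r / rho) ^ 2 = 0 := by rw [hS]; ring
    have h1 : (C - G * z / rho) ^ 2 + (S - G * r / rho) ^ 2 =
        (C ^ 2 + S ^ 2) - 2 * G * (r * S + z * C) / rho + G ^ 2 * (r ^ 2 + z ^ 2) / rho ^ 2 := by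
      field_simp
      ring
    rw [h0, add_zero, hCS, hrz] at h1
    rw [h1, hY]
    field_simp
  have e2 : Y - rho * G = z * (C - G * z / rho) := by
    have h2 : (Y - rho * G) * rho = z * (C - G * z / rho) * rho := by
      have h3 : z * (C - G * z / rho) * rho = z * C * rho - G * z ^ 2 := by
        field_simp
      rw [h3, hY]
      linear_combination r * hS' + G * hrz
    exact mul_right_cancel₀ hne h2
  have e3 : X = r * (C - G * z / rho) := by
    have h2 : X * rho = r * (C - G * z / rho) * rho := by
      have h3 : r * (C - G * z / rho) * rho = r * C * rho - G * z * r := by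
        field_simp
      rw [h3, hX]
      linear_combination -z * hS'
    exact mul_right_cancel₀ hne h2
  constructor
  · rw [e1, e2]; ring
  · rw [e1, e3]; ring

end Pool.Agent.Lib.MP_c60e08_gt.Lm
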