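import Pool.Agent.Lib.MP_c60e08_gt.LmFlow2

/-!
# Convexity is preserved
-/

set_option autoImplicit false

namespace Pool.Agent.Lib.MP_c60e08_gt.Lm

open Real Set Filter Topology

theorem convStmt (h1 : MpStmt) (h2 : MinsStmt) (h3 : IdCStmt) : ConvStmt := by
  intro T W hW t0 ht0 h0 t ht p hp
  have hsub : Icc t0 t ×ˢ Icc 0 π ⊆ Ico 0 T ×ˢ (univ : Set ℝ) := by
    rintro ⟨s, q⟩ ⟨hs, _⟩
    exact ⟨⟨ht0.1.trans hs.1, hs.2.trans_lt ht.2⟩, mem_univ _⟩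
  have hcv : COn t0 t W.v := hW.cv.mono hsub
  have hcC : ContinuousOn (fun z : ℝ × ℝ => W.C0 z.1 z.2) (Icc t0 t ×ˢ Icc 0 π) :=
    (h3 T W hW W.C0 (by simp)).mono hsub
  obtain ⟨L, hL⟩ := (isCompact_Icc.prod isCompact_Icc).exists_bound_of_continuousOn hcC
  apply h1 t0 t L W.v hcv h0 _ t ⟨ht.1, le_rfl⟩ p hp
  intro τ hτ q hq hneg hmin
  have hτT : τ ∈ Ioo 0 T := ⟨ht0.1.trans_lt hτ.1, hτ.2.trans_lt ht.2⟩
  have hτT' : τ ∈ Ico 0 T := ⟨hτT.1.le, hτT.2⟩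
  refine ⟨_, hW.vt τ hτT q, ?_⟩
  have hf : 0 < W.f τ q := by
    have := hW.upos τ hτT' q
    unfold FlowData.f fS
    positivity
  have hC : W.C0 τ q ≤ L := by
    have := hL (τ, q) ⟨⟨hτ.1.le, hτ.2⟩, hq⟩
    exact (le_abs_self _).trans this
  have hv : W.v1 τ q = 0 ∧ 0 ≤ W.v2 τ q := by
    rcases eq_or_lt_of_le hq.1 with h | h
    · subst h
      refine ⟨hW.v10 τ hτT', ?_⟩
      apply h2.2.1 (W.v τ) (W.g τ) (W.v1 τ) 0 _ (hW.gpos τ hτT') (hW.vp τ hτT')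
        (hW.v1p τ hτT' 0) (hW.v10 τ hτT')
      filter_upwards [Ioo_mem_nhdsGT pi_pos] with s hs
      exact hmin s ⟨hs.1.le, hs.2.le⟩
    · rcases eq_or_lt_of_le hq.2 with h' | h'
      · subst h'
        refine ⟨hW.v1pi τ hτT', ?_⟩
        apply h2.2.2 (W.v τ) (W.g τ) (W.v1 τ) π _ (hW.gpos τ hτT') (hW.vp τ hτT')
          (hW.v1p τ hτT' π) (hW.v1pi τ hτT')
        filter_upwards [Ioo_mem_nhdsLT pi_pos] with s hs
        exact hmin s ⟨hs.1.le, hs.2.le⟩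
      · apply h2.1 (W.v τ) (W.g τ) (W.v1 τ) q _ (hW.gpos τ hτT') (hW.vp τ hτT')
          (hW.v1p τ hτT' q)
        filter_upwards [Icc_mem_nhds h h'] with s hs
        exact hmin s hs
  rw [hv.1]
  have h4 : 0 ≤ W.f τ q * W.v2 τ q := mul_nonneg hf.le hv.2
  have h5 : L * W.v τ q ≤ W.C0 τ q * W.v τ q := mul_le_mul_of_nonpos_right hC hneg.le
  linarith

end Pool.Agent.Lib.MP_c60e08_gt.Lm
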