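import Pool.Agent.Lib.MP_c60e08_gt.LmFlow2

/-!
Module Cvx (fixed time): convexity of `th` as a function of `ss`.
-/

set_option autoImplicit false

namespace Pool.Agent.Lib.MP_c60e08_gt.Lm

open Real Set Filter Topology

namespace Cvx

/-- a function with nonnegative derivative inside an interval is nondecreasing -/
theorem le_of_deriv {F F' : ℝ → ℝ} {a b : ℝ} (hab : a ≤ b) (hF : ∀ x, HasDerivAt F (F' x) x)
    (h : ∀ x ∈ Ioo a b, 0 ≤ F' x) : F a ≤ F b := by
  have h1 : MonotoneOn F (Icc a b) := by
    refine monotoneOn_of_deriv_nonneg (convex_Icc a b)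
      (fun x _ => (hF x).continuousAt.continuousWithinAt)
      (fun x _ => (hF x).differentiableAt.differentiableWithinAt) ?_
    intro x hx
    rw [interior_Icc] at hx
    rw [(hF x).deriv]
    exact h x hx
  exact h1 (left_mem_Icc.2 hab) (right_mem_Icc.2 hab) hab

end Cvx

open Cvx in
theorem cvxStmt (h : IdStmt) : CvxStmt := by
  intro T W hF t ht hr hom
  obtain ⟨hI, -⟩ := h T W hF
  have hg := hF.gpos t ht
  have hf : ∀ p, 0 < W.f t p := fun p => (hI t ht p).2.2.1
  have dr : ∀ p, HasDerivAt (W.r t) (W.g t p * W.r1 t p) p := by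
    intro p
    obtain ⟨_, _, _, _, _, _, _, _, _, _, _, _, _, h, _⟩ := hI t ht p
    exact h
  have dss : ∀ p, HasDerivAt (W.ss t) (W.g t p * (2 * W.r t p / W.f t p)) p := by
    intro p
    obtain ⟨_, _, _, _, _, _, _, _, _, _, _, _, _, _, _, _, h, _⟩ := hI t ht p
    exact h
  have dv := hF.vp t ht
  have dth := hF.thp t ht
  have hmono : ∀ p ∈ Ioo 0 π, ∀ q ∈ Ioo 0 π, p ≤ q →
      W.v t p / W.r t p ≤ W.v t q / W.r t q := by
    have hder : ∀ x ∈ Ioo 0 π, HasDerivAt (fun y => W.v t y / W.r t y)
        ((W.g t x * W.v1 t x * W.r t x - W.v t x * (W.g t x * W.r1 t x)) / W.r t x ^ 2) x :=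
      fun x hx => (dv x).div (dr x) (hr x hx).ne'
    have h1 : MonotoneOn (fun y => W.v t y / W.r t y) (Ioo 0 π) := by
      refine monotoneOn_of_deriv_nonneg (convex_Ioo 0 π)
        (fun x hx => (hder x hx).continuousAt.continuousWithinAt) ?_ ?_
      · intro x hx
        rw [interior_Ioo] at hx
        exact (hder x hx).differentiableAt.differentiableWithinAt
      · intro x hx
        rw [interior_Ioo] at hx
        rw [(hder x hx).deriv]
        have h2 : W.g t x * W.v1 t x * W.r t x - W.v t x * (W.g t x * W.r1 t x) =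
            W.g t x * W.om1 t x := by
          unfold FlowData.om1 FlowData.r1
          ring
        rw [h2]
        have h3 := hom x ⟨hx.1.le, hx.2.le⟩
        have h4 := hg x
        positivity
    intro p hp q hq hpq
    exact h1 hp hq hpq
  refine ⟨?_, hmono, ?_, ?_⟩
  · intro p hp q hq hpq
    refine le_of_deriv hpq dss ?_
    intro x hx
    have h1 := hr x ⟨lt_of_le_of_lt hp.1 hx.1, lt_of_lt_of_le hx.2 hq.2⟩
    have h2 := hg x
    have h3 := hf x
    positivity
  · intro p hp q hq hpq
    have h1 := le_of_deriv hpq (F := fun x => 2 * W.th t x - W.v t p / W.r t p * W.ss t x)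
      (fun x => ((dth x).const_mul 2).sub ((dss x).const_mul _)) ?_
    · linarith
    · intro x hx
      have hx' : x ∈ Ioo 0 π := ⟨hp.1.trans hx.1, lt_of_lt_of_le hx.2 hq.2⟩
      have h2 := hmono p hp x hx' hx.1.le
      have h3 := hr x hx'
      have h4 := hg x
      have h5 := hf x
      have h6 : 2 * (W.g t x * W.kap t x) -
          W.v t p / W.r t p * (W.g t x * (2 * W.r t x / W.f t x)) =
          2 * W.g t x * W.r t x / W.f t x * (W.v t x / W.r t x - W.v t p / W.r t p) := by
        have h7 : W.kap t x = W.v t x / W.f t x := rfl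
        rw [h7]
        have h8 : W.v t x / W.f t x = W.r t x / W.f t x * (W.v t x / W.r t x) := by
          field_simp
        rw [h8]
        ring
      rw [h6]
      exact mul_nonneg (by positivity) (by linarith)
  · intro p hp q hq hpq
    have h1 := le_of_deriv hpq (F := fun x => W.v t q / W.r t q * W.ss t x - 2 * W.th t x)
      (fun x => ((dss x).const_mul _).sub ((dth x).const_mul 2)) ?_
    · linarith
    · intro x hx
      have hx' : x ∈ Ioo 0 π := ⟨lt_of_le_of_lt hp.1 hx.1, hx.2.trans hq.2⟩
      have h2 := hmono x hx' q hq hx.2.le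
      have h3 := hr x hx'
      have h4 := hg x
      have h5 := hf x
      have h6 : W.v t q / W.r t q * (W.g t x * (2 * W.r t x / W.f t x)) -
          2 * (W.g t x * W.kap t x) =
          2 * W.g t x * W.r t x / W.f t x * (W.v t q / W.r t q - W.v t x / W.r t x) := by
        have h7 : W.kap t x = W.v t x / W.f t x := rfl
        rw [h7]
        have h8 : W.v t x / W.f t x = W.r t x / W.f t x * (W.v t x / W.r t x) := by
          field_simp
        rw [h8]
        ring
      rw [h6]
      exact mul_nonneg (by positivity) (by linarith)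

end Pool.Agent.Lib.MP_c60e08_gt.Lm
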