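import Pool.Agent.Lib.MP_c60e08_gt.LmFlow2

/-!
MP_c60e08_gt, module CvxY: a convex curve lies above its tip.
-/

namespace Pool.Agent.Lib.MP_c60e08_gt.Lm.CvxY

open Real Set Filter Topology

lemma mono_of_deriv {F F' : ℝ → ℝ} (h : ∀ p, HasDerivAt F (F' p) p)
    (h0 : ∀ p ∈ Icc 0 π, 0 ≤ F' p) : MonotoneOn F (Icc 0 π) := by
  refine monotoneOn_of_deriv_nonneg (convex_Icc 0 π)
    (fun p _ => (h p).continuousAt.continuousWithinAt)
    (fun p _ => (h p).differentiableAt.differentiableWithinAt) ?_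
  intro p hp
  rw [(h p).deriv]
  exact h0 p (interior_subset hp)

end Pool.Agent.Lib.MP_c60e08_gt.Lm.CvxY

namespace Pool.Agent.Lib.MP_c60e08_gt.Lm

open Real Set Filter Topology

theorem cvxYStmt : CvxYStmt := by
  intro T W hW t ht hv p hp
  have hπ := Real.pi_pos
  have hf : ∀ q, 0 ≤ W.f t q := by
    intro q
    unfold FlowData.f fS
    exact mul_nonneg (by norm_num) (rpow_nonneg (hW.upos t ht q).le _)
  have hth : MonotoneOn (W.th t) (Icc 0 π) := by
    refine CvxY.mono_of_deriv (hW.thp t ht) fun q hq => ?_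
    exact mul_nonneg (hW.gpos t ht q).le (div_nonneg (hv q hq) (hf q))
  have hY : MonotoneOn (W.Y t) (Icc 0 π) := by
    refine CvxY.mono_of_deriv (hW.Yp t ht) fun q hq => ?_
    refine mul_nonneg (hW.gpos t ht q).le (sin_nonneg_of_nonneg_of_le_pi ?_ ?_)
    · rw [← hW.th0 t ht]
      exact hth ⟨le_refl _, hπ.le⟩ hq hq.1
    · have h1 := hth hq ⟨hπ.le, le_refl _⟩ hq.2
      rwa [hW.thpi t ht] at h1
  exact hY ⟨le_refl _, hπ.le⟩ hp hp.1

end Pool.Agent.Lib.MP_c60e08_gt.Lm
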