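import Pool.Agent.Lib.MP_c60e08_gt.LmFlow2

/-!
Module Disj: a flow whose tip moves up at some time is never under a pinching barrier.
-/

namespace Pool.Agent.Lib.MP_c60e08_gt.Lm

open Real Set Filter Topology

namespace Disj

theorem slice {T : ℝ} {F : ℝ → ℝ → ℝ}
    (h : ContinuousOn (fun z : ℝ × ℝ => F z.1 z.2) (Ico 0 T ×ˢ univ)) (p : ℝ) :
    ContinuousOn (fun s => F s p) (Ico 0 T) :=
  h.comp (f := fun s : ℝ => (s, p)) (by fun_prop) (fun s hs => ⟨hs, mem_univ _⟩)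

theorem lim_nonneg {T a τ : ℝ} {f : ℝ → ℝ} (h : ContinuousOn f (Ico 0 T)) (ha : 0 ≤ a)
    (h0 : a < τ) (hT : τ < T) (hf : ∀ s ∈ Ico a τ, 0 ≤ f s) : 0 ≤ f τ := by
  have hc : Tendsto f (𝓝[Ico a τ] τ) (𝓝 (f τ)) :=
    (h τ ⟨ha.trans h0.le, hT⟩).mono (Ico_subset_Ico ha hT.le)
  have hne : (𝓝[Ico a τ] τ).NeBot := by
    rw [← mem_closure_iff_nhdsWithin_neBot, closure_Ico h0.ne]
    exact ⟨h0.le, le_refl _⟩
  apply ge_of_tendsto hc
  exact eventually_nhdsWithin_of_forall hf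

end Disj

open Disj in
theorem disjStmt (h1 : GoodStmt) (h2 : VnnStmt) (h3 : ConvStmt) (h4 : CvxYStmt)
    (h5 : PCcompStmt) (h6 : PCnegStmt) (_h7 : IdStmt) : DisjStmt := by
  obtain ⟨b2, hb2, hG⟩ := h1
  refine ⟨min b2 (1 / 2000), lt_min hb2 (by norm_num), ?_⟩
  intro b hb hb5 C3 T W hW hI hup t0 ht0 e b' hU
  have hbb2 : b ≤ b2 := hb5.trans (min_le_left _ _)
  have hb2000 : b ≤ 1 / 2000 := hb5.trans (min_le_right _ _)
  obtain ⟨t1, t2, h01, h12, h2T, hYlt⟩ := hup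
  -- derivative of the tip height
  have hder : ∀ t ∈ Ioo 0 T, HasDerivAt (fun s => W.Y s 0) (W.v t 0) t := by
    intro t ht
    have ht'' : t ∈ Ico 0 T := ⟨ht.1.le, ht.2⟩
    refine (hW.Yt t ht 0).congr_deriv ?_
    rw [hW.th0 t ht'', hW.lam0 t ht'']; simp
  have hYc : ContinuousOn (fun s => W.Y s 0) (Ico 0 T) := slice hW.cY 0
  have hvc : ContinuousOn (fun s => W.v s 0) (Ico 0 T) := slice hW.cv 0
  -- the tip velocity is nonnegative somewhere
  have hex : ∃ tc ∈ Ico 0 T, 0 ≤ W.v tc 0 := by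
    by_contra hcon
    push Not at hcon
    have hanti : AntitoneOn (fun s => W.Y s 0) (Ico 0 T) := by
      apply antitoneOn_of_deriv_nonpos (convex_Ico 0 T) hYc
      · intro t ht
        rw [interior_Ico] at ht
        exact (hder t ht).differentiableAt.differentiableWithinAt
      · intro t ht
        rw [interior_Ico] at ht
        rw [(hder t ht).deriv]
        exact (hcon t ⟨ht.1.le, ht.2⟩).le
    have := hanti (⟨h01, h12.trans h2T⟩ : t1 ∈ Ico 0 T) ⟨h01.trans h12.le, h2T⟩ h12.le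
    simp only at this
    linarith
  obtain ⟨tc, htc, hvtc⟩ := hex
  -- the first zero
  set S : Set ℝ := {t | t ∈ Icc 0 tc ∧ 0 ≤ W.v t 0} with hS
  have hSne : S.Nonempty := ⟨tc, ⟨htc.1, le_refl _⟩, hvtc⟩
  have hSbdd : BddBelow S := ⟨0, fun t ht => ht.1.1⟩
  have hsubc : ∀ t ∈ Icc 0 tc, t ∈ Ico 0 T := fun t ht => ⟨ht.1, lt_of_le_of_lt ht.2 htc.2⟩
  have hScl : IsClosed S := by
    have hc : ContinuousOn (fun s => W.v s 0) (Icc 0 tc) := hvc.mono hsubc
    have h := hc.preimage_isClosed_of_isClosed isClosed_Icc (isClosed_Ici (a := (0 : ℝ)))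
    convert h using 1
    ext t
    simp [hS]
  have htvS : sInf S ∈ S := hScl.csInf_mem hSne hSbdd
  obtain ⟨tv, htv⟩ : ∃ tv, tv = sInf S := ⟨_, rfl⟩
  rw [← htv] at htvS
  have hvneg : ∀ t ∈ Ico 0 tv, W.v t 0 < 0 := by
    intro t ht
    by_contra hns
    push Not at hns
    have hts : t ∈ S := ⟨⟨ht.1, ht.2.le.trans htvS.1.2⟩, hns⟩
    have := csInf_le hSbdd hts
    rw [← htv] at this
    exact absurd this (not_le.mpr ht.2)
  have htvT : tv ∈ Ico 0 T := hsubc tv htvS.1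
  have htv0 : 0 < tv := by
    rcases eq_or_lt_of_le htvS.1.1 with h | h
    · exfalso
      have h1 := htvS.2
      rw [← h] at h1
      linarith [hI.vtip]
    · exact h
  have hvtv : W.v tv 0 = 0 := by
    apply le_antisymm _ htvS.2
    have := lim_nonneg (f := fun s => - W.v s 0) hvc.neg (le_refl 0) htv0 htvT.2
      (fun s hs => by have := hvneg s hs; linarith)
    linarith
  -- consequences of Good
  obtain ⟨hP, ⟨δ, hδ, hδX⟩, -⟩ := hG b hb hbb2 C3 T W hW hI tv htvT hvneg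
  have htvm : tv ∈ Icc 0 tv := ⟨htv0.le, le_refl _⟩
  have hvnn : ∀ p ∈ Icc 0 π, 0 ≤ W.v tv p :=
    h2 T W hW tv htvT δ hδ (fun p hp => (hδX tv htvm p hp).2) (hP tv htvm).om1 hvtv
  have hcv := h3 T W hW tv htvT hvnn
  have hYY : ∀ t ∈ Ico tv T, ∀ p ∈ Icc 0 π, W.Y t 0 ≤ W.Y t p := fun t ht =>
    h4 T W hW t ⟨htv0.le.trans ht.1, ht.2⟩ (hcv t ht)
  obtain ⟨he, hb'1, hb'2, hYU, η, hη, hUp⟩ := hU
  rcases le_or_gt tv t0 with hcase | hcase
  · obtain ⟨-, p, hp, hlt⟩ := h6 T W hW t0 ht0 e b' he (by linarith) hb'2 hYU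
      (fun p hp hr => by have := hUp p hp (by linarith); linarith)
    exact absurd (hYY t0 ⟨hcase, ht0.2⟩ p hp) (not_le.mpr hlt)
  · have hstep : ∀ s ∈ Icc t0 tv, s < t0 + e →
        W.Y s 0 < (2 * (e - (s - t0))) ^ 3 ∧ ∃ p ∈ Icc 0 π, W.Y s p < W.Y s 0 := by
      intro s hs hse
      have hs0 : 0 ≤ s := ht0.1.trans hs.1
      have hsT : s < T := lt_of_le_of_lt hs.2 htvT.2
      have hc := h5 b T W hW hb hb2000 t0 ht0 e b' ⟨he, hb'1, hb'2, hYU, η, hη, hUp⟩ s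
        ⟨hs.1, hsT⟩ (fun t ht => hP t ⟨ht0.1.trans ht.1, ht.2.trans hs.2⟩) hse
      have hdle := (hP s ⟨hs0, hs.2⟩).dle
      have hb3 : b ^ 3 ≤ (1 / 2000) ^ 3 := pow_le_pow_left₀ hb.le hb2000 3
      norm_num at hb3
      have h1 := hs.1
      exact h6 T W hW s ⟨hs0, hsT⟩ (e - (s - t0)) (b' - 100 * (s - t0)) (by linarith)
        (by linarith) (by linarith) (by linarith) (fun p hp hr => (hc p hp hr).le)
    rcases lt_or_ge tv (t0 + e) with hc2 | hc2
    · obtain ⟨-, p, hp, hlt⟩ := hstep tv ⟨hcase.le, le_refl _⟩ hc2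
      exact absurd (hYY tv ⟨le_refl _, htvT.2⟩ p hp) (not_le.mpr hlt)
    · have hlim := lim_nonneg (T := T) (a := t0) (τ := t0 + e)
        (f := fun s => (2 * (e - (s - t0))) ^ 3 - W.Y s 0)
        (ContinuousOn.sub (by fun_prop) hYc) ht0.1 (by linarith)
        (lt_of_le_of_lt hc2 htvT.2)
        (fun s hs => by
          have := (hstep s ⟨hs.1, hs.2.le.trans hc2⟩ hs.2).1
          linarith)
      have hpos := hW.tip (t0 + e) ⟨by linarith [ht0.1], lt_of_le_of_lt hc2 htvT.2⟩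
      have e1 : (2 * (e - (t0 + e - t0))) ^ 3 = 0 := by
        have : e - (t0 + e - t0) = 0 := by ring
        rw [this]; norm_num
      rw [e1] at hlim
      linarith

end Pool.Agent.Lib.MP_c60e08_gt.Lm
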