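import Pool.Agent.Lib.MP_c60e08_gt.LmFlow2

/-!
MP_c60e08_gt, FLOW part, module Dist: the distance to the centre `(0,1)`.
-/

namespace Pool.Agent.Lib.MP_c60e08_gt.Lm

open Real Set Filter Topology

namespace DistM

/-- first and second order conditions at a minimum over `[0,π]` -/
theorem crit (h2 : MinsStmt) {f g k : ℝ → ℝ} {p k2 : ℝ} (hg : ∀ q, 0 < g q)
    (hf : ∀ q, HasDerivAt f (g q * k q) q) (hk : HasDerivAt k (g p * k2) p)
    (hp : p ∈ Icc 0 π) (hmin : ∀ q ∈ Icc 0 π, f p ≤ f q) (k0 : k 0 = 0) (kπ : k π = 0) :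
    k p = 0 ∧ 0 ≤ k2 := by
  obtain ⟨ha, hb, hc⟩ := h2
  rcases hp.1.eq_or_lt with h | h
  · subst h
    refine ⟨k0, hb f g k 0 k2 hg hf hk k0 ?_⟩
    filter_upwards [Ioc_mem_nhdsGT Real.pi_pos] with q hq
    exact hmin q ⟨hq.1.le, hq.2⟩
  · rcases hp.2.eq_or_lt with h' | h'
    · subst h'
      refine ⟨kπ, hc f g k π k2 hg hf hk kπ ?_⟩
      filter_upwards [Ico_mem_nhdsLT Real.pi_pos] with q hq
      exact hmin q ⟨hq.1, hq.2.le⟩
    · refine ha f g k p k2 hg hf hk ?_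
      filter_upwards [Ioo_mem_nhds h h'] with q hq
      exact hmin q ⟨hq.1.le, hq.2.le⟩

/-- squared distance to `(0,1)` -/
noncomputable def N (W : FlowData) (t p : ℝ) : ℝ := W.X t p ^ 2 + (W.Y t p - 1) ^ 2

/-- tangential part of the position relative to `(0,1)` -/
noncomputable def A (W : FlowData) (t p : ℝ) : ℝ :=
  W.X t p * cos (W.th t p) + (W.Y t p - 1) * sin (W.th t p)

/-- normal part of the position relative to `(0,1)` -/
noncomputable def B (W : FlowData) (t p : ℝ) : ℝ :=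
  -(W.X t p * sin (W.th t p)) + (W.Y t p - 1) * cos (W.th t p)

variable {T : ℝ} {W : FlowData}

theorem N_p (hW : IsFlow T W) {t : ℝ} (ht : t ∈ Ico 0 T) (p : ℝ) :
    HasDerivAt (N W t) (W.g t p * (2 * A W t p)) p := by
  have h1 := ((hW.Xp t ht p).fun_pow 2).add (((hW.Yp t ht p).sub_const 1).fun_pow 2)
  refine h1.congr_deriv ?_
  unfold A
  norm_num
  ring

theorem A_p (hW : IsFlow T W) {t : ℝ} (ht : t ∈ Ico 0 T) (p : ℝ) :
    HasDerivAt (A W t) (W.g t p * (1 + W.kap t p * B W t p)) p := by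
  have h1 := ((hW.Xp t ht p).mul (hW.thp t ht p).cos).add
    (((hW.Yp t ht p).sub_const 1).mul (hW.thp t ht p).sin)
  refine h1.congr_deriv ?_
  unfold B
  have := sin_sq_add_cos_sq (W.th t p)
  linear_combination (W.g t p) * this

theorem N_t (hW : IsFlow T W) {t : ℝ} (ht : t ∈ Ioo 0 T) (p : ℝ) :
    HasDerivAt (fun s => N W s p) (2 * W.v t p * B W t p + 2 * W.lam t p * A W t p) t := by
  have h1 := ((hW.Xt t ht p).fun_pow 2).add (((hW.Yt t ht p).sub_const 1).fun_pow 2)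
  refine h1.congr_deriv ?_
  unfold A B
  norm_num
  ring

theorem A_0 (hW : IsFlow T W) {t : ℝ} (ht : t ∈ Ico 0 T) : A W t 0 = 0 := by
  unfold A
  rw [hW.X0 t ht, hW.th0 t ht]
  simp

theorem A_pi (hW : IsFlow T W) {t : ℝ} (ht : t ∈ Ico 0 T) : A W t π = 0 := by
  unfold A
  rw [hW.Xpi t ht, hW.thpi t ht]
  simp

theorem N_cont (hW : IsFlow T W) {t : ℝ} (ht : t ∈ Ico 0 T) :
    ContinuousOn (fun z : ℝ × ℝ => N W z.1 z.2) (Icc 0 t ×ˢ Icc 0 π) := by
  have hsub : Icc 0 t ×ˢ Icc 0 π ⊆ Ico 0 T ×ˢ (univ : Set ℝ) := by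
    rintro ⟨s, q⟩ ⟨hs, -⟩
    exact ⟨⟨hs.1, hs.2.trans_lt ht.2⟩, mem_univ _⟩
  unfold N
  exact ((hW.cX.mono hsub).pow 2).add (((hW.cY.mono hsub).sub continuousOn_const).pow 2)

end DistM

open DistM in
theorem distStmt (h1 : MpStmt) (h2 : MinsStmt) (h3 : IdStmt) : DistStmt := by
  intro T W hW hup0
  obtain ⟨hid, -⟩ := h3 T W hW
  have hup : ∀ t ∈ Ico 0 T, ∀ p ∈ Icc 0 π, N W t p ≤ 11 / 10 := by
    intro t ht p hp
    have hmp := h1 0 t 0 (fun s q => 11 / 10 - N W s q)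
      (show ContinuousOn (fun z : ℝ × ℝ => 11 / 10 - N W z.1 z.2) (Icc 0 t ×ˢ Icc 0 π) from
        continuousOn_const.sub (N_cont hW ht))
      (fun q hq => by
        have := hup0 q hq
        show 0 ≤ 11 / 10 - (W.X 0 q ^ 2 + (W.Y 0 q - 1) ^ 2)
        linarith) ?_ t ⟨ht.1, le_rfl⟩ p hp
    · linarith
    intro s hs q hq _ hmin
    have hs' : s ∈ Ico 0 T := ⟨hs.1.le, hs.2.trans_lt ht.2⟩
    have hs'' : s ∈ Ioo 0 T := ⟨hs.1, hs.2.trans_lt ht.2⟩
    have hf : ∀ x, HasDerivAt (fun x => 11 / 10 - N W s x) (W.g s x * (-(2 * A W s x))) x := by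
      intro x
      refine ((N_p hW hs' x).const_sub (11 / 10)).congr_deriv ?_
      ring
    have hk : HasDerivAt (fun x => -(2 * A W s x))
        (W.g s q * (-(2 * (1 + W.kap s q * B W s q)))) q := by
      refine ((A_p hW hs' q).const_mul 2).neg.congr_deriv ?_
      ring
    obtain ⟨c1, c2⟩ := crit h2 (hW.gpos s hs') hf hk hq hmin (by rw [A_0 hW hs']; ring)
      (by rw [A_pi hW hs']; ring)
    refine ⟨-(2 * W.v s q * B W s q + 2 * W.lam s q * A W s q), (N_t hW hs'' q).const_sub _, ?_⟩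
    have hfpos : 0 < W.f s q := (hid s hs' q).2.2.1
    have hA : A W s q = 0 := by linarith
    have hv : W.v s q = W.f s q * W.kap s q := by
      unfold FlowData.kap
      field_simp
    rw [hA, hv]
    have h5 : W.kap s q * B W s q ≤ -1 := by linarith
    nlinarith
  refine ⟨hup, ?_⟩
  intro hlow0 t ht p hp
  have hmp := h1 0 t 0 (fun s q => N W s q - 9 / 20 + 20 * s)
    (show ContinuousOn (fun z : ℝ × ℝ => N W z.1 z.2 - 9 / 20 + 20 * z.1)
        (Icc 0 t ×ˢ Icc 0 π) from ((N_cont hW ht).sub continuousOn_const).add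
      (continuousOn_const.mul continuous_fst.continuousOn))
    (fun q hq => by
      have := hlow0 q hq
      show 0 ≤ (W.X 0 q ^ 2 + (W.Y 0 q - 1) ^ 2) - 9 / 20 + 20 * 0
      linarith) ?_ t ⟨ht.1, le_rfl⟩ p hp
  · have : N W t p = W.X t p ^ 2 + (W.Y t p - 1) ^ 2 := rfl
    linarith
  intro s hs q hq _ hmin
  have hs' : s ∈ Ico 0 T := ⟨hs.1.le, hs.2.trans_lt ht.2⟩
  have hs'' : s ∈ Ioo 0 T := ⟨hs.1, hs.2.trans_lt ht.2⟩
  have hf : ∀ x, HasDerivAt (fun x => N W s x - 9 / 20 + 20 * s) (W.g s x * (2 * A W s x)) x :=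
    fun x => ((N_p hW hs' x).sub_const _).add_const _
  have hk : HasDerivAt (fun x => 2 * A W s x)
      (W.g s q * (2 * (1 + W.kap s q * B W s q))) q := by
    refine ((A_p hW hs' q).const_mul 2).congr_deriv ?_
    ring
  obtain ⟨c1, c2⟩ := crit h2 (hW.gpos s hs') hf hk hq hmin (by rw [A_0 hW hs']; ring)
    (by rw [A_pi hW hs']; ring)
  refine ⟨2 * W.v s q * B W s q + 2 * W.lam s q * A W s q + 20 * 1,
    ((N_t hW hs'' q).sub_const _).add ((hasDerivAt_id s).const_mul 20), ?_⟩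
  obtain ⟨-, hfss, hfpos, hss, -, -, hssu, -⟩ := hid s hs' q
  have hA : A W s q = 0 := by linarith
  have hv : W.v s q = W.f s q * W.kap s q := by
    unfold FlowData.kap
    field_simp
  -- the bound of the speed factor
  have hN : W.X s q ^ 2 + (W.Y s q - 1) ^ 2 ≤ 11 / 10 := hup s hs' q hq
  have hY : W.Y s q ≤ 41 / 20 := by nlinarith [sq_nonneg (W.X s q)]
  have hu : W.ss s q ^ 3 ≤ 9 / 2 := by
    rw [hssu]
    unfold FlowData.u
    nlinarith
  have hs9 : W.ss s q ≤ 9 / 5 := by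
    by_contra hcon
    push Not at hcon
    have h6 : (9 / 5 : ℝ) ^ 3 < W.ss s q ^ 3 := pow_lt_pow_left₀ hcon (by norm_num) (by norm_num)
    norm_num at h6
    linarith
  have hf10 : W.f s q ≤ 10 := by
    rw [hfss]
    nlinarith
  rw [hA, hv]
  have h5 : -1 ≤ W.kap s q * B W s q := by linarith
  nlinarith

end Pool.Agent.Lib.MP_c60e08_gt.Lm
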