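import Pool.Agent.Lib.MP_c60e08_gt.LmFlow2

/-!
Module Good: the package holds as long as the tip moves down.
-/

namespace Pool.Agent.Lib.MP_c60e08_gt.Lm

open Real Set Filter Topology

namespace Good

theorem slice {T : ℝ} {F : ℝ → ℝ → ℝ}
    (h : ContinuousOn (fun z : ℝ × ℝ => F z.1 z.2) (Ico 0 T ×ˢ univ)) (p : ℝ) :
    ContinuousOn (fun s => F s p) (Ico 0 T) :=
  h.comp (f := fun s : ℝ => (s, p)) (by fun_prop) (fun s hs => ⟨hs, mem_univ _⟩)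

theorem lim_nonneg {T τ : ℝ} {f : ℝ → ℝ} (h : ContinuousOn f (Ico 0 T)) (h0 : 0 < τ)
    (hT : τ < T) (hf : ∀ s ∈ Ico 0 τ, 0 ≤ f s) : 0 ≤ f τ := by
  have hc : Tendsto f (𝓝[Ico 0 τ] τ) (𝓝 (f τ)) :=
    (h τ ⟨h0.le, hT⟩).mono (Ico_subset_Ico_right hT.le)
  have hne : (𝓝[Ico 0 τ] τ).NeBot := by
    rw [← mem_closure_iff_nhdsWithin_neBot, closure_Ico h0.ne]
    exact ⟨h0.le, le_refl _⟩
  apply ge_of_tendsto hc
  exact eventually_nhdsWithin_of_forall hf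

end Good

open Good in
theorem goodStmt (h1 : DistStmt) (h2 : RposStmt) (h3 : ThLowStmt) (h4 : THatStmt) (h5 : S4Stmt)
    (h6 : CvxStmt) (h7 : SlopeUpStmt) (h8 : SlopeLowStmt) (h9 : NearStmt) (h10 : TopStmt)
    (h11 : S2Stmt) (h12 : IdStmt) (h13 : IdCStmt) : GoodStmt := by
  refine ⟨1 / 100000, by norm_num, ?_⟩
  intro b hb hb2 C3 T W hW hI t1 ht1 hv
  have hId := (h12 T W hW).1
  have hsub : ∀ t ∈ Icc 0 t1, t ∈ Ico 0 T := fun t ht => ⟨ht.1, lt_of_le_of_lt ht.2 ht1.2⟩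
  have hb3 : 0 < b ^ 3 := by positivity
  have hb3' : b ^ 3 ≤ 1 / 10 ^ 15 := by
    calc b ^ 3 ≤ (1 / 100000) ^ 3 := pow_le_pow_left₀ hb.le hb2 3
      _ = 1 / 10 ^ 15 := by norm_num
  -- the tip velocity
  have hvtip : ∀ t ∈ Icc 0 t1, W.v t 0 ≤ 0 := by
    intro t ht
    rcases lt_or_eq_of_le ht.2 with h | h
    · exact (hv t ⟨ht.1, h⟩).le
    · rcases eq_or_lt_of_le ht.1 with h0 | h0
      · rw [← h0]; exact hI.vtip.le
      · have hc : ContinuousOn (fun s => - W.v s 0) (Ico 0 T) := (slice hW.cv 0).neg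
        have := lim_nonneg hc h0 (hsub t ht).2
          (fun s hs => by have := hv s ⟨hs.1, by rw [← h]; exact hs.2⟩; linarith)
        linarith
  -- the tip height
  have hY : ∀ t ∈ Icc 0 t1, W.Y t 0 ≤ 200 * b ^ 3 := by
    have hder : ∀ t ∈ Ioo 0 t1, HasDerivAt (fun s => W.Y s 0) (W.v t 0) t := by
      intro t ht
      have ht' : t ∈ Ioo 0 T := ⟨ht.1, ht.2.trans ht1.2⟩
      have ht'' : t ∈ Ico 0 T := ⟨ht'.1.le, ht'.2⟩
      refine (hW.Yt t ht' 0).congr_deriv ?_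
      rw [hW.th0 t ht'', hW.lam0 t ht'']; simp
    have hanti : AntitoneOn (fun s => W.Y s 0) (Icc 0 t1) := by
      apply antitoneOn_of_deriv_nonpos (convex_Icc 0 t1)
      · exact (slice hW.cY 0).mono (fun t ht => hsub t ht)
      · intro t ht
        rw [interior_Icc] at ht
        exact (hder t ht).differentiableAt.differentiableWithinAt
      · intro t ht
        rw [interior_Icc] at ht
        rw [(hder t ht).deriv]
        exact (hv t ⟨ht.1.le, ht.2⟩).le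
    intro t ht
    have h := hanti (left_mem_Icc.mpr (ht.1.trans ht.2)) ht ht.1
    exact le_trans h hI.dle
  have hYpos : ∀ t ∈ Icc 0 t1, 0 < W.Y t 0 := fun t ht => hW.tip t (hsub t ht)
  -- the top
  have htop : ∀ t ∈ Icc 0 t1, 1 / 10 * W.ss t π ≤ 3 := by
    intro t ht
    have ht' := hsub t ht
    have hd := (h1 T W hW hI.dist2).1 t ht' π ⟨Real.pi_pos.le, le_refl _⟩
    rw [hW.Xpi t ht'] at hd
    have hs3 : W.ss t π ^ 3 = W.u t π := (hId t ht' π).2.2.2.2.2.2.1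
    have hu : W.u t π ≤ 27000 := by
      simp only [FlowData.u, hW.Xpi t ht']
      have hYle : |W.Y t π - 1| ≤ 2 := by
        apply abs_le_of_sq_le_sq _ (by norm_num)
        nlinarith
      have h' := abs_le.mp hYle
      nlinarith
    have hs30 : W.ss t π ≤ 30 := by
      by_contra hcon
      push Not at hcon
      have : (30 : ℝ) ^ 3 < W.ss t π ^ 3 := pow_lt_pow_left₀ hcon (by norm_num) (by norm_num)
      rw [hs3] at this
      norm_num at this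
      linarith
    linarith
  -- r > 0
  obtain ⟨δ, hδ, hr⟩ := h2 T W hW hI.hr t1 ht1
  have hXnn : ∀ t ∈ Icc 0 t1, ∀ p ∈ Icc 0 π, 0 ≤ W.X t p := by
    intro t ht p hp
    have ht' := hsub t ht
    rcases eq_or_lt_of_le hp.1 with h0 | h0
    · rw [← h0, hW.X0 t ht']
    rcases eq_or_lt_of_le hp.2 with h0' | h0'
    · rw [h0', hW.Xpi t ht']
    · exact (hW.Xpos t ht' p ⟨h0, h0'⟩).le
  have hrpos : ∀ t ∈ Icc 0 t1, ∀ p ∈ Ioo 0 π, 0 < W.r t p := fun t ht p hp =>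
    lt_of_lt_of_le (mul_pos hδ (hW.Xpos t (hsub t ht) p hp)) ((hr t ht).1 p ⟨hp.1.le, hp.2.le⟩)
  have hrnn : ∀ t ∈ Icc 0 t1, ∀ p ∈ Icc 0 π, 0 ≤ W.r t p := fun t ht p hp =>
    le_trans (mul_nonneg hδ.le (hXnn t ht p hp)) ((hr t ht).1 p hp)
  -- angle bounds
  have hth2 : ∀ t ∈ Icc 0 t1, ∀ p ∈ Icc 0 π, -(2 * b) ≤ W.th t p := fun t ht p hp =>
    h3 T W hW (2 * b) (by linarith) hI.hth2 t (hsub t ht) p hp
  have h0mem : (0 : ℝ) ∈ Icc 0 π := ⟨le_refl _, Real.pi_pos.le⟩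
  have hTH := h4 T W hW (1 / 10) (by norm_num) (2 * b) t1 ht1
    (fun p hp => by have := hI.hth p hp; linarith) (by
      have h00 : (0 : ℝ) ∈ Ico 0 T := ⟨le_refl _, hW.Tpos⟩
      have hs3 : W.ss 0 0 ^ 3 = W.u 0 0 := (hId 0 h00 0).2.2.2.2.2.2.1
      have hu : W.u 0 0 = W.Y 0 0 ^ 2 := by
        simp only [FlowData.u, hW.X0 0 h00]; ring
      have hY0 := hI.dle
      have hY0p := hW.tip 0 h00
      have hYsq : W.Y 0 0 ^ 2 ≤ (200 * b ^ 3) ^ 2 := pow_le_pow_left₀ hY0p.le hY0 2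
      have hs : W.ss 0 0 ≤ 35 * b ^ 2 := by
        by_contra hcon
        push Not at hcon
        have h3 : (35 * b ^ 2) ^ 3 < W.ss 0 0 ^ 3 :=
          pow_lt_pow_left₀ hcon (by positivity) (by norm_num)
        rw [hs3, hu] at h3
        have hb6 : 0 < b ^ 6 := by positivity
        have e1 : (35 * b ^ 2) ^ 3 = 42875 * b ^ 6 := by ring
        have e2 : (200 * b ^ 3) ^ 2 = 40000 * b ^ 6 := by ring
        rw [e1] at h3; rw [e2] at hYsq
        linarith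
      have hbb : b ^ 2 ≤ b * (1 / 100000) := by nlinarith
      linarith) htop hv
  have hth1 : ∀ t ∈ Icc 0 t1, ∀ p ∈ Icc 0 π, W.ss t p / 10 - 2 * b ≤ W.th t p := by
    intro t ht p hp
    have := hTH.2 t ht p hp
    have h0 := ht.1
    linarith
  -- consequences of om1 >= 0 at a fixed time
  have hA : ∀ t ∈ Icc 0 t1, (∀ p ∈ Icc 0 π, 0 ≤ W.om1 t p) →
      (∀ p ∈ Icc 0 π, 40 * b ≤ W.ss t p → W.r t p / 10 ≤ W.v t p) := fun t ht hom =>
    h8 T W hW t (hsub t ht) b hb (by linarith) (hrpos t ht) hom (hth1 t ht)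
  have hU : ∀ t ∈ Icc 0 t1, (∀ p ∈ Icc 0 π, 0 ≤ W.om1 t p) →
      ∀ p ∈ Icc 0 π, W.ss t p ≤ 1 / 400 → W.v t p ≤ 10 * W.r t p ∧ W.th t p ≤ 5 * W.ss t p :=
    fun t ht hom => h7 T W hW t (hsub t ht) (hrpos t ht) hom (hvtip t ht)
      (fun p hp => by have := hth2 t ht p hp; linarith)
  have hM : ∀ t ∈ Icc 0 t1, (∀ p ∈ Icc 0 π, 0 ≤ W.om1 t p) →
      ∀ p ∈ Icc 0 π, ∀ q ∈ Icc 0 π, p ≤ q → W.ss t p ≤ W.ss t q :=
    fun t ht hom => (h6 T W hW t (hsub t ht) (hrpos t ht) hom).1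
  have hN : ∀ t ∈ Icc 0 t1, (∀ p ∈ Icc 0 π, 0 ≤ W.om1 t p) →
      ∀ p ∈ Icc 0 π, W.ss t p ≤ 1 / 400 →
      99 / 100 ≤ cos (W.th t p) ∧ |sin (W.th t p)| ≤ 1 / 79 ∧
      W.Y t p ≤ W.Y t 0 + 11 / 2 * W.ss t p * W.X t p ∧
      W.Y t 0 - 21 / 10 * b * W.X t p ≤ W.Y t p ∧
      W.rho t p ≤ W.Y t 0 + 51 / 50 * W.X t p ∧
      (W.Y t 0 ≤ W.X t p → 49 / 50 * W.X t p ≤ W.r t p ∧
        |W.ze t p| ≤ W.Y t 0 + W.X t p / 25) :=
    fun t ht hom => h9 T W hW t (hsub t ht) b hb (by linarith) (hM t ht hom) (hth2 t ht)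
      (fun p hp hs => (hU t ht hom p hp hs).2)
  have hB : ∀ t ∈ Icc 0 t1, (∀ p ∈ Icc 0 π, 0 ≤ W.om1 t p) →
      ∀ p ∈ Icc 0 π, W.ss t p = 1 / 400 → |W.ze t p| ≤ 2 * W.r t p := by
    intro t ht hom p hp hs
    have hrho2 : W.rho t p ^ 2 = W.ss t p ^ 3 := (hId t (hsub t ht) p).2.2.2.2.2.2.2.1
    have hrhop : 0 < W.rho t p := (hId t (hsub t ht) p).2.2.2.2.1
    have hrho : W.rho t p = 1 / 8000 := by
      rw [hs] at hrho2
      have : W.rho t p ^ 2 = (1 / 8000) ^ 2 := by rw [hrho2]; norm_num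
      exact (pow_left_inj₀ hrhop.le (by norm_num) (by norm_num)).mp this
    obtain ⟨-, -, -, -, hn1, hn2⟩ := hN t ht hom p hp hs.le
    have hY0 := hY t ht
    have hY0' : W.Y t 0 ≤ 1 / 10 ^ 12 := by
      refine le_trans hY0 ?_
      norm_num at hb3' ⊢
      linarith
    rw [hrho] at hn1
    have hX : W.Y t 0 ≤ W.X t p := by
      norm_num at hY0' hn1 ⊢
      linarith
    obtain ⟨h1', h2'⟩ := hn2 hX
    linarith [hYpos t ht]
  -- the key step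
  have key : ∀ τ ∈ Icc 0 t1, (∀ s ∈ Ico 0 τ, 0 < W.v s π) →
      ∀ t ∈ Icc 0 τ, (∀ p ∈ Icc 0 π, 0 ≤ W.om1 t p) ∧ 1 / 20 ≤ W.v t π := by
    intro τ hτ hvτ
    have hlt : ∀ t ∈ Ico 0 τ, ∀ p ∈ Icc 0 π, 0 ≤ W.om1 t p := by
      intro t ht
      refine h5 T W hW hI.hr hI.hom1 t ⟨ht.1, lt_of_lt_of_le ht.2 (hsub τ hτ).2.le⟩ ?_ t
        ⟨ht.1, le_refl _⟩
      intro s hs
      exact ⟨hv s ⟨hs.1, lt_of_le_of_lt hs.2 (lt_of_lt_of_le ht.2 hτ.2)⟩,
        hvτ s ⟨hs.1, lt_of_le_of_lt hs.2 ht.2⟩⟩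
    have hle : ∀ t ∈ Icc 0 τ, ∀ p ∈ Icc 0 π, 0 ≤ W.om1 t p := by
      intro t ht p hp
      rcases lt_or_eq_of_le ht.2 with h | h
      · exact hlt t ⟨ht.1, h⟩ p hp
      · rcases eq_or_lt_of_le ht.1 with h0 | h0
        · rw [← h0]; exact hI.hom1 p hp
        · have hc : ContinuousOn (fun s => W.om1 s p) (Ico 0 T) :=
            slice (h13 T W hW W.om1 (by simp)) p
          exact lim_nonneg (f := fun s => W.om1 s p) hc h0 (hsub t ⟨ht.1, ht.2.trans hτ.2⟩).2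
            (fun s hs => hlt s ⟨hs.1, by rw [← h]; exact hs.2⟩ p hp)
    have hss : ∀ t ∈ Icc 0 τ, t ∈ Icc 0 t1 := fun t ht => ⟨ht.1, ht.2.trans hτ.2⟩
    have hT := h10 T W hW τ (hsub τ hτ) hI.outer
      (fun t ht p hp hs => ⟨hrnn t (hss t ht) p hp,
        hA t (hss t ht) (hle t ht) p hp (by linarith)⟩)
      (fun t ht p hp hs => hB t (hss t ht) (hle t ht) p hp hs)
    exact fun t ht => ⟨hle t ht, (hT t ht).2⟩
  have hvtop : ∀ t ∈ Icc 0 t1, 0 < W.v t π := by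
    by_contra hcon
    push Not at hcon
    obtain ⟨t2, ht2, hvt2⟩ := hcon
    set S : Set ℝ := {t | t ∈ Icc 0 t1 ∧ W.v t π ≤ 0} with hS
    have hSne : S.Nonempty := ⟨t2, ht2, hvt2⟩
    have hSbdd : BddBelow S := ⟨0, fun t ht => ht.1.1⟩
    have hScl : IsClosed S := by
      have hc : ContinuousOn (fun s => W.v s π) (Icc 0 t1) :=
        (slice hW.cv π).mono (fun t ht => hsub t ht)
      have h := hc.preimage_isClosed_of_isClosed isClosed_Icc (isClosed_Iic (a := (0 : ℝ)))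
      convert h using 1
      ext t
      simp [hS]
    have ht0 : sInf S ∈ S := hScl.csInf_mem hSne hSbdd
    have hk := key (sInf S) ht0.1 (fun s hs => by
      by_contra hns
      push Not at hns
      have : s ∈ S := ⟨⟨hs.1, hs.2.le.trans ht0.1.2⟩, hns⟩
      exact absurd (csInf_le hSbdd this) (not_le.mpr hs.2)) (sInf S) ⟨ht0.1.1, le_refl _⟩
    have := ht0.2
    linarith [hk.2]
  have hk := key t1 ⟨ht1.1, le_refl _⟩ (fun s hs => hvtop s ⟨hs.1, hs.2.le⟩)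
  obtain ⟨δ2, hδ2, hom2⟩ := h11 T W hW t1 ht1
    (fun t ht => ⟨hrpos t ht, (hk t ht).1, hvtop t ht⟩) hI.hom2
  refine ⟨fun t ht => ?_, ⟨min δ δ2, lt_min hδ hδ2, fun t ht p hp => ⟨?_, ?_⟩⟩, fun t ht => ?_⟩
  · exact {
      rpos := hrpos t ht
      om1 := (hk t ht).1
      om2 := fun p hp => le_trans (mul_nonneg hδ2.le (hXnn t ht p hp)) (hom2 t ht p hp)
      vtip := hvtip t ht
      vtop := (hk t ht).2
      th1 := hth1 t ht
      th2 := hth2 t ht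
      th3 := fun p hp hs => (hU t ht (hk t ht).1 p hp hs).2
      vup := fun p hp hs => (hU t ht (hk t ht).1 p hp hs).1
      vlow := hA t ht (hk t ht).1
      mono := hM t ht (hk t ht).1
      dle := hY t ht
      near := hN t ht (hk t ht).1 }
  · exact le_trans (mul_le_mul_of_nonneg_right (min_le_right _ _) (hXnn t ht p hp))
      (hom2 t ht p hp)
  · exact le_trans (mul_le_mul_of_nonneg_right (min_le_left _ _) (hXnn t ht p hp))
      ((hr t ht).1 p hp)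
  · have h := hTH.1 t ht
    have hs : 0 < W.ss t 0 := (hId t (hsub t ⟨ht.1, ht.2.le⟩) 0).2.2.2.1
    linarith

end Pool.Agent.Lib.MP_c60e08_gt.Lm
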