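import Pool.Agent.Lib.MP_c60e08_gt.LmFlow2

set_option autoImplicit false

namespace Pool.Agent.Lib.MP_c60e08_gt.Lm.Hbd

open Real Set

/-- the cube root of the tip height -/
theorem cube_root {d : ℝ} (hd : 0 < d) :
    ∃ e > 0, e ^ 3 = d ∧ d ^ ((2 : ℝ) / 3) = e ^ 2 := by
  refine ⟨d ^ ((1 : ℝ) / 3), Real.rpow_pos_of_pos hd _, ?_, ?_⟩
  · rw [← Real.rpow_natCast, ← Real.rpow_mul hd.le]
    norm_num
  · rw [← Real.rpow_natCast, ← Real.rpow_mul hd.le]
    norm_num

/-- the estimate where `v <= 0` -/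
theorem neg_case {K e d v0 v ze s rho f : ℝ} (hK : 1 ≤ K) (he : 0 < e) (hed : e ^ 3 = d)
    (heK : 100000 * K ^ 5 * e ≤ 1) (hv0 : -v0 ≤ 3 * K * e ^ 2) (hv : v ≤ 0) (hs : 0 < s)
    (hrho0 : 0 < rho) (hsr : rho ^ 2 = s ^ 3) (hrho : rho ≤ 164 * K * e ^ 2) (hf : 3 * e ^ 4 ≤ f)
    (hz : -v ≤ -v0 / d * ze) (hze0 : 0 < ze) (hze : ze ≤ d * exp (-v0 / d * s / 2)) :
    v ^ 2 ≤ 27 * K ^ 2 * f := by
  have hK0 : 0 < K := by linarith
  have hd : 0 < d := by rw [← hed]; positivity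
  -- the slope
  have ha : -v0 / d ≤ 3 * K / e := by
    rw [div_le_div_iff₀ hd he, ← hed]
    calc -v0 * e ≤ (3 * K * e ^ 2) * e := mul_le_mul_of_nonneg_right hv0 he.le
      _ = 3 * K * e ^ 3 := by ring
  have hs1 : s ≤ 2 * e / (3 * K) := by
    have h1 : s ^ 3 ≤ (2 * e / (3 * K)) ^ 3 := by
      rw [← hsr]
      have h2 : rho ^ 2 ≤ (164 * K * e ^ 2) ^ 2 := pow_le_pow_left₀ hrho0.le hrho 2
      refine h2.trans ?_
      have h3 : (2 * e / (3 * K)) ^ 3 = 8 * e ^ 3 / (27 * K ^ 3) := by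
        field_simp
        ring
      rw [h3, le_div_iff₀ (by positivity)]
      have h4 : (164 * K * e ^ 2) ^ 2 * (27 * K ^ 3) = (726192 * K ^ 5 * e) * e ^ 3 := by ring
      rw [h4]
      apply mul_le_mul_of_nonneg_right _ (by positivity)
      linarith
    exact le_of_pow_le_pow_left₀ (by norm_num) (by positivity) h1
  have hexp : exp (-v0 / d * s / 2) ≤ 3 := by
    have h1 : -v0 / d * s / 2 ≤ 1 := by
      have h2 : -v0 / d * s ≤ 3 * K / e * (2 * e / (3 * K)) := by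
        calc -v0 / d * s ≤ 3 * K / e * s := mul_le_mul_of_nonneg_right ha hs.le
          _ ≤ 3 * K / e * (2 * e / (3 * K)) := mul_le_mul_of_nonneg_left hs1 (by positivity)
      have h3 : 3 * K / e * (2 * e / (3 * K)) = 2 := by
        field_simp
      linarith
    calc exp (-v0 / d * s / 2) ≤ exp 1 := exp_le_exp.mpr h1
      _ ≤ 3 := by
          have := exp_one_lt_d9
          linarith
  have hze2 : ze ≤ 3 * e ^ 3 := by
    calc ze ≤ d * exp (-v0 / d * s / 2) := hze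
      _ ≤ d * 3 := mul_le_mul_of_nonneg_left hexp hd.le
      _ = 3 * e ^ 3 := by rw [← hed]; ring
  have hv2 : -v ≤ 9 * K * e ^ 2 := by
    calc -v ≤ -v0 / d * ze := hz
      _ ≤ 3 * K / e * ze := mul_le_mul_of_nonneg_right ha hze0.le
      _ ≤ 3 * K / e * (3 * e ^ 3) := mul_le_mul_of_nonneg_left hze2 (by positivity)
      _ = 9 * K * e ^ 2 := by
          field_simp
          ring
  calc v ^ 2 = (-v) ^ 2 := by ring
    _ ≤ (9 * K * e ^ 2) ^ 2 := pow_le_pow_left₀ (by linarith) hv2 2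
    _ = 27 * K ^ 2 * (3 * e ^ 4) := by ring
    _ ≤ 27 * K ^ 2 * f := mul_le_mul_of_nonneg_left hf (by positivity)

end Hbd

open Real Set in
open Hbd in
theorem hbdStmt (h1 : ZgStmt) (h2 : VmaxStmt) (h3 : IdStmt) : HbdStmt := by
  intro K hK
  have hK0 : 0 < K := by linarith
  obtain ⟨Cv, b8, hb8, hVm⟩ := h2
  refine ⟨min b8 (1 / (1000000 * K ^ 5)), by positivity,
    27 * K ^ 2 + 1 + Cv ^ 2 * (160000 / 3), ?_⟩
  intro b T W hb hStd hN hcl t ht p hp
  have hb8' : b ≤ b8 := hb.trans (min_le_left _ _)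
  have hbK : b ≤ 1 / (1000000 * K ^ 5) := hb.trans (min_le_right _ _)
  have hflow := hStd.flow
  have hpk := hStd.pack t ht
  have hb0 := hStd.bpos
  have hπ := Real.pi_pos
  obtain ⟨hru, hfs, hfpos, hspos, hrhopos, hrho2, hs3, hrhos3, hrr, -, -, -, -⟩ := (h3 T W hflow).1 t ht p
  have hd0 : 0 < W.Y t 0 := hflow.tip t ht
  obtain ⟨e, he, hed, hde⟩ := cube_root hd0
  have hK5 : 1 ≤ K ^ 5 := one_le_pow₀ hK
  -- `e ≤ 6 b`
  have heb : e ≤ 6 * b := by
    have h4 : e ^ 3 ≤ (6 * b) ^ 3 := by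
      rw [hed]
      have h5 : (6 * b) ^ 3 = 216 * b ^ 3 := by ring
      have h6 : 0 < b ^ 3 := by positivity
      linarith [hpk.dle]
    exact le_of_pow_le_pow_left₀ (by norm_num) (by positivity) h4
  have hbK' : 1000000 * K ^ 5 * b ≤ 1 := by
    rw [le_div_iff₀ (by positivity)] at hbK
    linarith
  have heK : 100000 * K ^ 5 * e ≤ 1 := by
    have : K ^ 5 * e ≤ K ^ 5 * (6 * b) := mul_le_mul_of_nonneg_left heb (by positivity)
    nlinarith
  have hb1 : b ≤ 1 / 1000000 := by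
    have : 1000000 * 1 * b ≤ 1000000 * K ^ 5 * b := by gcongr
    linarith
  have he1 : e ≤ 1 / 100000 := by
    have : 100000 * 1 * e ≤ 100000 * K ^ 5 * e := by gcongr
    linarith
  -- the value of `s` at the tip
  have hstip : W.ss t 0 = e ^ 2 := by
    have h4 : W.ss t 0 ^ 3 = (e ^ 2) ^ 3 := by
      obtain ⟨-, -, -, -, -, -, hs30, -⟩ := (h3 T W hflow).1 t ht 0
      rw [hs30]
      unfold FlowData.u
      rw [hflow.X0 t ht, ← hed]
      ring
    have h5 : 0 < W.ss t 0 := by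
      obtain ⟨-, -, -, hs0, -⟩ := (h3 T W hflow).1 t ht 0
      exact hs0
    exact le_antisymm (le_of_pow_le_pow_left₀ (by norm_num) (by positivity) h4.le)
      (le_of_pow_le_pow_left₀ (by norm_num) h5.le h4.ge)
  have hsge : e ^ 2 ≤ W.ss t p := by
    rw [← hstip]
    exact hpk.mono 0 ⟨le_refl _, hπ.le⟩ p hp hp.1
  have hfge : 3 * e ^ 4 ≤ W.f t p := by
    rw [hfs]
    have : (e ^ 2) ^ 2 ≤ W.ss t p ^ 2 := pow_le_pow_left₀ (by positivity) hsge 2
    nlinarith
  have hf0 : 0 ≤ W.f t p := hfpos.le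
  have hCv2 : 0 ≤ Cv ^ 2 := sq_nonneg _
  have hK2 : 0 ≤ K ^ 2 := sq_nonneg _
  rcases le_or_gt (W.v t p) 0 with hv | hv
  · -- `v ≤ 0`
    have hsle : W.ss t p ≤ 1 / 400 := by
      by_contra hcon
      push Not at hcon
      have h40 : 40 * b ≤ W.ss t p := by linarith
      have h5 := hpk.vlow p hp h40
      rcases lt_or_eq_of_le hp.1 with h6 | h6
      · rcases lt_or_eq_of_le hp.2 with h7 | h7
        · have := hpk.rpos p ⟨h6, h7⟩
          linarith
        · have := hpk.vtop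
          rw [h7] at hv
          linarith
      · rw [← h6, hstip] at hcon
        nlinarith
    have hX : W.X t p < 160 * K * e ^ 2 := by
      by_contra hcon
      push Not at hcon
      have := (hcl t ht).2 p hp (by rw [hde]; exact hcon)
      linarith
    have hrho : W.rho t p ≤ 164 * K * e ^ 2 := by
      have h5 := (hpk.near p hp hsle).2.2.2.2.1
      rw [← hed] at h5
      have h6 : e ^ 3 ≤ 1 / 100000 * e ^ 2 := by
        have : e ^ 3 = e * e ^ 2 := by ring
        rw [this]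
        exact mul_le_mul_of_nonneg_right he1 (by positivity)
      have h7 : e ^ 2 ≤ K * e ^ 2 := by
        have : 0 ≤ e ^ 2 := by positivity
        nlinarith
      have h8 : 0 ≤ K * e ^ 2 := by positivity
      linarith
    obtain ⟨hze0, hz1, hz2⟩ := h1 b T W hflow t ht hpk p hp hv
    have hv0 := (hcl t ht).1
    rw [hde] at hv0
    have h9 := neg_case hK he hed heK hv0 hv hspos hrhopos hrhos3 hrho hfge hz1 hze0 hz2
    have h10 : 0 ≤ (1 + Cv ^ 2 * (160000 / 3)) * W.f t p := by positivity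
    nlinarith
  · rcases le_total (W.ss t p) (1 / 400) with hs | hs
    · have h4 := hpk.vup p hp hs
      have h5 : W.v t p ≤ 10 * W.rho t p := by
        have := (le_abs_self _).trans hrr
        linarith
      have h6 : W.v t p ^ 2 ≤ (10 * W.rho t p) ^ 2 := pow_le_pow_left₀ hv.le h5 2
      have h7 : (10 * W.rho t p) ^ 2 = 100 * (W.ss t p * W.ss t p ^ 2) := by
        rw [mul_pow, hrhos3]
        ring
      have h8 : W.ss t p * W.ss t p ^ 2 ≤ 1 / 400 * W.ss t p ^ 2 :=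
        mul_le_mul_of_nonneg_right hs (by positivity)
      have h9 : W.v t p ^ 2 ≤ 1 * W.f t p := by
        rw [hfs]
        have : 0 ≤ W.ss t p ^ 2 := by positivity
        linarith
      have h10 : 0 ≤ (27 * K ^ 2 + Cv ^ 2 * (160000 / 3)) * W.f t p := by positivity
      nlinarith
    · have h4 := (hVm b T W hb8' hStd t ht (hN t ht) p hp).1
      have h5 : W.v t p ^ 2 ≤ Cv ^ 2 := pow_le_pow_left₀ hv.le h4 2
      have h6 : 3 / 160000 ≤ W.f t p := by
        rw [hfs]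
        have : (1 / 400 : ℝ) ^ 2 ≤ W.ss t p ^ 2 := pow_le_pow_left₀ (by norm_num) hs 2
        norm_num at this
        linarith
      have h7 : Cv ^ 2 ≤ Cv ^ 2 * (160000 / 3) * W.f t p := by
        have : Cv ^ 2 * (160000 / 3) * (3 / 160000) ≤ Cv ^ 2 * (160000 / 3) * W.f t p := by gcongr
        linarith
      have h10 : 0 ≤ (27 * K ^ 2 + 1) * W.f t p := by positivity
      nlinarith

end Pool.Agent.Lib.MP_c60e08_gt.Lm
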