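import Pool.Agent.Lib.MP_c60e08_gt.LmFlow2

/-!
Module Id: basic identities of the flow.
-/

namespace Pool.Agent.Lib.MP_c60e08_gt.Lm

open Real Set Filter Topology

namespace IdM

theorem du {x y θ : ℝ → ℝ} {α β p : ℝ}
    (hx : HasDerivAt x (α * cos (θ p) - β * sin (θ p)) p)
    (hy : HasDerivAt y (α * sin (θ p) + β * cos (θ p)) p) :
    HasDerivAt (fun s => x s ^ 2 + y s ^ 2)
      (2 * (α * (x p * cos (θ p) + y p * sin (θ p))
        + β * (- x p * sin (θ p) + y p * cos (θ p)))) p := by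
  have h := (hx.pow 2).add (hy.pow 2)
  refine h.congr_deriv ?_
  simp only [Nat.cast_ofNat]
  ring

theorem dr {x y θ : ℝ → ℝ} {α β ω p : ℝ}
    (hx : HasDerivAt x (α * cos (θ p) - β * sin (θ p)) p)
    (hy : HasDerivAt y (α * sin (θ p) + β * cos (θ p)) p) (hθ : HasDerivAt θ ω p) :
    HasDerivAt (fun s => x s * cos (θ s) + y s * sin (θ s))
      (α + ω * (- x p * sin (θ p) + y p * cos (θ p))) p := by
  have h := (hx.mul hθ.cos).add (hy.mul hθ.sin)
  refine h.congr_deriv ?_
  have hsc := Real.sin_sq_add_cos_sq (θ p)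
  linear_combination α * hsc

theorem dz {x y θ : ℝ → ℝ} {α β ω p : ℝ}
    (hx : HasDerivAt x (α * cos (θ p) - β * sin (θ p)) p)
    (hy : HasDerivAt y (α * sin (θ p) + β * cos (θ p)) p) (hθ : HasDerivAt θ ω p) :
    HasDerivAt (fun s => - x s * sin (θ s) + y s * cos (θ s))
      (β - ω * (x p * cos (θ p) + y p * sin (θ p))) p := by
  have h := (hx.neg.mul hθ.sin).add (hy.mul hθ.cos)
  refine h.congr_deriv ?_
  simp only [Pi.neg_apply]
  have hsc := Real.sin_sq_add_cos_sq (θ p)
  linear_combination β * hsc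

theorem df {u : ℝ → ℝ} {u' p : ℝ} (hu : HasDerivAt u u' p) (hp : 0 < u p) :
    HasDerivAt (fun s => fS (u s)) (2 / 3 * (fS (u p) / u p) * u') p := by
  have h := (hu.rpow_const (p := (2 : ℝ) / 3) (Or.inl hp.ne')).const_mul 3
  refine h.congr_deriv ?_
  have e : u p ^ ((2 : ℝ) / 3 - 1) = u p ^ ((2 : ℝ) / 3) / u p := by
    rw [Real.rpow_sub hp, Real.rpow_one]
  rw [e, fS]
  ring

theorem dss {u : ℝ → ℝ} {u' p : ℝ} (hu : HasDerivAt u u' p) (hp : 0 < u p) :
    HasDerivAt (fun s => (u s) ^ ((1 : ℝ) / 3)) (u' / fS (u p)) p := by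
  have h := hu.rpow_const (p := (1 : ℝ) / 3) (Or.inl hp.ne')
  refine h.congr_deriv ?_
  have e : u p ^ ((1 : ℝ) / 3 - 1) = (u p ^ ((2 : ℝ) / 3))⁻¹ := by
    rw [← Real.rpow_neg hp.le]
    norm_num
  rw [e, fS]
  field_simp

theorem drho {u : ℝ → ℝ} {u' p : ℝ} (hu : HasDerivAt u u' p) (hp : 0 < u p) :
    HasDerivAt (fun s => √(u s)) (u' / (2 * √(u p))) p := hu.sqrt hp.ne'

theorem dkap {v f : ℝ → ℝ} {v' f' p : ℝ} (hv : HasDerivAt v v' p) (hf : HasDerivAt f f' p)
    (hp : 0 < f p) :
    HasDerivAt (fun s => v s / f s) (v' / f p - v p / f p * f' / f p) p := by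
  have h := hv.div hf hp.ne'
  refine h.congr_deriv ?_
  field_simp

end IdM

open IdM in
theorem idStmt : IdStmt := by
  intro T W hW
  have hbasic : ∀ t ∈ Ico 0 T, ∀ p, W.r t p ^ 2 + W.ze t p ^ 2 = W.u t p ∧
      W.f t p = 3 * W.ss t p ^ 2 ∧ 0 < W.f t p ∧
      0 < W.ss t p ∧ 0 < W.rho t p ∧ W.rho t p ^ 2 = W.u t p ∧ W.ss t p ^ 3 = W.u t p := by
    intro t ht p
    have hu := hW.upos t ht p
    have hsc := Real.sin_sq_add_cos_sq (W.th t p)
    refine ⟨?_, ?_, ?_, ?_, ?_, ?_, ?_⟩
    · simp only [FlowData.r, FlowData.ze, FlowData.u]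
      linear_combination (W.X t p ^ 2 + W.Y t p ^ 2) * hsc
    · simp only [FlowData.f, fS, FlowData.ss]
      rw [← Real.rpow_natCast, ← Real.rpow_mul hu.le]
      norm_num
    · simp only [FlowData.f, fS]
      positivity
    · simp only [FlowData.ss]
      positivity
    · exact Real.sqrt_pos.mpr hu
    · exact Real.sq_sqrt hu.le
    · simp only [FlowData.ss]
      rw [← Real.rpow_natCast, ← Real.rpow_mul hu.le]
      norm_num
  refine ⟨fun t ht p => ?_, fun t ht p => ?_⟩
  · obtain ⟨hb1, hb2, hb3, hb4, hb5, hb6, hb7⟩ := hbasic t ht p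
    have hu := hW.upos t ht p
    have hx : HasDerivAt (W.X t) (W.g t p * cos (W.th t p) - 0 * sin (W.th t p)) p :=
      (hW.Xp t ht p).congr_deriv (by ring)
    have hy : HasDerivAt (W.Y t) (W.g t p * sin (W.th t p) + 0 * cos (W.th t p)) p :=
      (hW.Yp t ht p).congr_deriv (by ring)
    have hth := hW.thp t ht p
    have hv := hW.vp t ht p
    have hdu : HasDerivAt (W.u t) (W.g t p * (2 * W.r t p)) p :=
      (du hx hy).congr_deriv (by simp only [FlowData.r]; ring)
    have hdr : HasDerivAt (W.r t) (W.g t p * W.r1 t p) p :=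
      (dr hx hy hth).congr_deriv (by simp only [FlowData.r1, FlowData.ze]; ring)
    have hdz : HasDerivAt (W.ze t) (W.g t p * W.z1 t p) p :=
      (dz hx hy hth).congr_deriv (by simp only [FlowData.z1, FlowData.r]; ring)
    have hdf : HasDerivAt (W.f t) (W.g t p * W.fs t p) p :=
      (df hdu hu).congr_deriv (by simp only [FlowData.fs, FlowData.f]; ring)
    have hds : HasDerivAt (W.ss t) (W.g t p * (2 * W.r t p / W.f t p)) p :=
      (dss hdu hu).congr_deriv (by simp only [FlowData.f]; ring)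
    have hdrho : HasDerivAt (W.rho t) (W.g t p * (W.r t p / W.rho t p)) p :=
      (drho hdu hu).congr_deriv (by
        have h5 : √(W.u t p) ≠ 0 := hb5.ne'
        simp only [FlowData.rho]; field_simp)
    have hdk : HasDerivAt (W.kap t) (W.g t p * W.kap1 t p) p :=
      (dkap hv hdf hb3).congr_deriv (by
        simp only [FlowData.kap1, FlowData.kap]
        have := hb3.ne'
        field_simp)
    refine ⟨hb1, hb2, hb3, hb4, hb5, hb6, hb7, hb6.trans hb7.symm, ?_, ?_, ?_, ?_, hdu, hdr, hdz,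
      hdf, hds, hdrho, hdk, ?_, ?_⟩
    · apply abs_le_of_sq_le_sq _ hb5.le
      rw [hb6, ← hb1]; nlinarith [sq_nonneg (W.ze t p)]
    · apply abs_le_of_sq_le_sq _ hb5.le
      rw [hb6, ← hb1]; nlinarith [sq_nonneg (W.r t p)]
    · apply abs_le_of_sq_le_sq _ hb5.le
      rw [hb6]; simp only [FlowData.u]; nlinarith [sq_nonneg (W.Y t p)]
    · apply abs_le_of_sq_le_sq _ hb5.le
      rw [hb6]; simp only [FlowData.u]; nlinarith [sq_nonneg (W.X t p)]
    · have h := (hdk.mul hdz).const_add 1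
      refine h.congr_deriv ?_
      simp only [FlowData.r2, FlowData.z1]
      ring
    · have h := (hdk.mul hdr).neg
      refine h.congr_deriv ?_
      simp only [FlowData.z2, FlowData.r1]
      ring
  · have ht' : t ∈ Ico 0 T := ⟨ht.1.le, ht.2⟩
    obtain ⟨hb1, hb2, hb3, hb4, hb5, hb6, hb7⟩ := hbasic t ht' p
    have hu := hW.upos t ht' p
    have hx : HasDerivAt (fun s => W.X s p)
        (W.lam t p * cos (W.th t p) - W.v t p * sin (W.th t p)) t :=
      (hW.Xt t ht p).congr_deriv (by ring)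
    have hy : HasDerivAt (fun s => W.Y s p)
        (W.lam t p * sin (W.th t p) + W.v t p * cos (W.th t p)) t :=
      (hW.Yt t ht p).congr_deriv (by ring)
    have hth := hW.tht t ht p
    have hv := hW.vt t ht p
    have hdu : HasDerivAt (fun s => W.u s p)
        (2 * W.ze t p * W.v t p + W.lam t p * (2 * W.r t p)) t :=
      (du (θ := fun s => W.th s p) hx hy).congr_deriv
        (by simp only [FlowData.r, FlowData.ze]; ring)
    have hdr : HasDerivAt (fun s => W.r s p) (W.v1 t p * W.ze t p + W.lam t p * W.r1 t p) t :=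
      (dr (θ := fun s => W.th s p) hx hy hth).congr_deriv
        (by simp only [FlowData.r1, FlowData.ze]; ring)
    have hdz : HasDerivAt (fun s => W.ze s p)
        (W.v t p - W.v1 t p * W.r t p + W.lam t p * W.z1 t p) t :=
      (dz (θ := fun s => W.th s p) hx hy hth).congr_deriv
        (by simp only [FlowData.z1, FlowData.r]; ring)
    have hdf : HasDerivAt (fun s => W.f s p)
        (4 / 3 * W.f t p * W.ze t p * W.v t p / W.u t p + W.lam t p * W.fs t p) t :=
      (df hdu hu).congr_deriv (by simp only [FlowData.fs, FlowData.f]; ring)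
    have hds : HasDerivAt (fun s => W.ss s p)
        (2 * W.ze t p * W.v t p / W.f t p + W.lam t p * (2 * W.r t p / W.f t p)) t :=
      (dss hdu hu).congr_deriv (by simp only [FlowData.f]; ring)
    have hdrho : HasDerivAt (fun s => W.rho s p)
        (W.ze t p * W.v t p / W.rho t p + W.lam t p * (W.r t p / W.rho t p)) t :=
      (drho hdu hu).congr_deriv (by
        have h5 : √(W.u t p) ≠ 0 := hb5.ne'
        simp only [FlowData.rho]; field_simp)
    refine ⟨hdu, hdr, hdz, hdf, hds, hdrho, ?_⟩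
    refine (dkap hv hdf hb3).congr_deriv ?_
    simp only [FlowData.kap1, FlowData.kap, FlowData.C0]
    have h3 := hb3.ne'
    have h0 := hu.ne'
    field_simp
    ring

end Pool.Agent.Lib.MP_c60e08_gt.Lm
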