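import Pool.Agent.Lib.MP_c60e08_gt.LmFlow2

/-!
MP_c60e08_gt, module IdC: continuity of the derived quantities.
-/

set_option autoImplicit false

namespace Pool.Agent.Lib.MP_c60e08_gt.Lm

open Real Set Filter Topology

theorem idCStmt : IdCStmt := by
  intro T W h
  have hX : ContinuousOn (fun z : ℝ × ℝ => W.X z.1 z.2) (Ico 0 T ×ˢ univ) := h.cX
  have hY : ContinuousOn (fun z : ℝ × ℝ => W.Y z.1 z.2) (Ico 0 T ×ˢ univ) := h.cY
  have hth : ContinuousOn (fun z : ℝ × ℝ => W.th z.1 z.2) (Ico 0 T ×ˢ univ) := h.cth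
  have hcos : ContinuousOn (fun z : ℝ × ℝ => cos (W.th z.1 z.2)) (Ico 0 T ×ˢ univ) :=
    continuous_cos.comp_continuousOn hth
  have hsin : ContinuousOn (fun z : ℝ × ℝ => sin (W.th z.1 z.2)) (Ico 0 T ×ˢ univ) :=
    continuous_sin.comp_continuousOn hth
  have hv : ContinuousOn (fun z : ℝ × ℝ => W.v z.1 z.2) (Ico 0 T ×ˢ univ) := h.cv
  have hv1 : ContinuousOn (fun z : ℝ × ℝ => W.v1 z.1 z.2) (Ico 0 T ×ˢ univ) := h.cv1
  have hv2 : ContinuousOn (fun z : ℝ × ℝ => W.v2 z.1 z.2) (Ico 0 T ×ˢ univ) := h.cv2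
  have up : ∀ z ∈ Ico 0 T ×ˢ (univ : Set ℝ), 0 < W.u z.1 z.2 := fun z hz => h.upos z.1 hz.1 z.2
  have fp : ∀ z ∈ Ico 0 T ×ˢ (univ : Set ℝ), 0 < W.f z.1 z.2 := fun z hz => by
    unfold FlowData.f fS
    have := Real.rpow_pos_of_pos (up z hz) ((2 : ℝ) / 3)
    positivity
  have u0 : ∀ z ∈ Ico 0 T ×ˢ (univ : Set ℝ), W.u z.1 z.2 ≠ 0 := fun z hz => (up z hz).ne'
  have f0 : ∀ z ∈ Ico 0 T ×ˢ (univ : Set ℝ), W.f z.1 z.2 ≠ 0 := fun z hz => (fp z hz).ne'
  have u20 : ∀ z ∈ Ico 0 T ×ˢ (univ : Set ℝ), W.u z.1 z.2 ^ 2 ≠ 0 := fun z hz =>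
    pow_ne_zero 2 (u0 z hz)
  have fu0 : ∀ z ∈ Ico 0 T ×ˢ (univ : Set ℝ), W.f z.1 z.2 * W.u z.1 z.2 ≠ 0 := fun z hz =>
    mul_ne_zero (f0 z hz) (u0 z hz)
  have hu : ContinuousOn (fun z : ℝ × ℝ => W.u z.1 z.2) (Ico 0 T ×ˢ univ) := by
    unfold FlowData.u
    exact (hX.pow 2).add (hY.pow 2)
  have hrho : ContinuousOn (fun z : ℝ × ℝ => W.rho z.1 z.2) (Ico 0 T ×ˢ univ) := by
    unfold FlowData.rho
    exact hu.sqrt
  have hss : ContinuousOn (fun z : ℝ × ℝ => W.ss z.1 z.2) (Ico 0 T ×ˢ univ) := by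
    unfold FlowData.ss
    exact hu.rpow_const fun z hz => Or.inl (u0 z hz)
  have hf : ContinuousOn (fun z : ℝ × ℝ => W.f z.1 z.2) (Ico 0 T ×ˢ univ) := by
    unfold FlowData.f fS
    exact continuousOn_const.mul (hu.rpow_const fun z hz => Or.inl (u0 z hz))
  have hkap : ContinuousOn (fun z : ℝ × ℝ => W.kap z.1 z.2) (Ico 0 T ×ˢ univ) := by
    unfold FlowData.kap
    exact hv.div hf f0
  have hr : ContinuousOn (fun z : ℝ × ℝ => W.r z.1 z.2) (Ico 0 T ×ˢ univ) := by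
    unfold FlowData.r
    exact (hX.mul hcos).add (hY.mul hsin)
  have hze : ContinuousOn (fun z : ℝ × ℝ => W.ze z.1 z.2) (Ico 0 T ×ˢ univ) := by
    unfold FlowData.ze
    exact (hX.neg.mul hsin).add (hY.mul hcos)
  have hfs : ContinuousOn (fun z : ℝ × ℝ => W.fs z.1 z.2) (Ico 0 T ×ˢ univ) := by
    unfold FlowData.fs
    exact ((continuousOn_const.mul hf).mul hr).div hu u0
  have hC0 : ContinuousOn (fun z : ℝ × ℝ => W.C0 z.1 z.2) (Ico 0 T ×ˢ univ) := by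
    unfold FlowData.C0
    exact ((hv.pow 2).div hf f0).add ((continuousOn_const.mul (hze.div hu u0)).mul hv)
  have hC1 : ContinuousOn (fun z : ℝ × ℝ => W.C1 z.1 z.2) (Ico 0 T ×ˢ univ) := by
    unfold FlowData.C1
    exact ((((continuousOn_const.mul hv).mul hv1).div hf f0).sub
      (((continuousOn_const.mul (hv.pow 2)).mul hr).div (hf.mul hu) fu0)).add
      (continuousOn_const.mul ((((((hv.pow 2).neg).mul hr).div (hf.mul hu) fu0).add
        ((hze.mul hv1).div hu u0)).sub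
        ((((continuousOn_const.mul hze).mul hv).mul hr).div (hu.pow 2) u20)))
  have hom1 : ContinuousOn (fun z : ℝ × ℝ => W.om1 z.1 z.2) (Ico 0 T ×ˢ univ) := by
    unfold FlowData.om1
    exact (hv1.mul hr).sub (hv.mul (continuousOn_const.add (hkap.mul hze)))
  have hom2 : ContinuousOn (fun z : ℝ × ℝ => W.om2 z.1 z.2) (Ico 0 T ×ˢ univ) := by
    unfold FlowData.om2
    exact (hv1.mul hze).add (hv.mul (hkap.mul hr))
  have hkap1 : ContinuousOn (fun z : ℝ × ℝ => W.kap1 z.1 z.2) (Ico 0 T ×ˢ univ) := by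
    unfold FlowData.kap1
    exact (hv1.sub (hfs.mul hkap)).div hf f0
  have hfss : ContinuousOn (fun z : ℝ × ℝ => W.fss z.1 z.2) (Ico 0 T ×ˢ univ) := by
    unfold FlowData.fss
    exact continuousOn_const.mul ((((hfs.mul hr).div hu u0).add
      ((hf.mul (continuousOn_const.add (hkap.mul hze))).div hu u0)).sub
      (((continuousOn_const.mul hf).mul (hr.pow 2)).div (hu.pow 2) u20))
  have hkap2 : ContinuousOn (fun z : ℝ × ℝ => W.kap2 z.1 z.2) (Ico 0 T ×ˢ univ) := by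
    unfold FlowData.kap2
    exact ((hv2.sub (hfss.mul hkap)).sub ((continuousOn_const.mul hfs).mul hkap1)).div hf f0
  have hr1 : ContinuousOn (fun z : ℝ × ℝ => W.r1 z.1 z.2) (Ico 0 T ×ˢ univ) := by
    unfold FlowData.r1
    exact continuousOn_const.add (hkap.mul hze)
  have hr2 : ContinuousOn (fun z : ℝ × ℝ => W.r2 z.1 z.2) (Ico 0 T ×ˢ univ) := by
    unfold FlowData.r2
    exact (hkap1.mul hze).sub ((hkap.pow 2).mul hr)
  have hr3 : ContinuousOn (fun z : ℝ × ℝ => W.r3 z.1 z.2) (Ico 0 T ×ˢ univ) := by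
    unfold FlowData.r3
    exact ((hkap2.mul hze).sub (((continuousOn_const.mul hkap).mul hkap1).mul hr)).sub
      ((hkap.pow 2).mul (continuousOn_const.add (hkap.mul hze)))
  have hz1 : ContinuousOn (fun z : ℝ × ℝ => W.z1 z.1 z.2) (Ico 0 T ×ˢ univ) := by
    unfold FlowData.z1
    exact (hkap.mul hr).neg
  have hz2 : ContinuousOn (fun z : ℝ × ℝ => W.z2 z.1 z.2) (Ico 0 T ×ˢ univ) := by
    unfold FlowData.z2
    exact ((hkap1.mul hr).add (hkap.mul (continuousOn_const.add (hkap.mul hze)))).neg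
  have hz3 : ContinuousOn (fun z : ℝ × ℝ => W.z3 z.1 z.2) (Ico 0 T ×ˢ univ) := by
    unfold FlowData.z3
    exact (((hkap2.mul hr).add ((continuousOn_const.mul hkap1).mul
      (continuousOn_const.add (hkap.mul hze)))).add
      (hkap.mul ((hkap1.mul hze).sub ((hkap.pow 2).mul hr)))).neg
  intro F hF
  simp only [List.mem_cons, List.mem_nil_iff, or_false] at hF
  rcases hF with rfl | rfl | rfl | rfl | rfl | rfl | rfl | rfl | rfl | rfl | rfl | rfl | rfl | rfl |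
    rfl | rfl | rfl | rfl | rfl | rfl | rfl <;> assumption

end Pool.Agent.Lib.MP_c60e08_gt.Lm
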