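import Pool.Agent.Lib.MP_c60e08_gt.LmFlow2

/-!
MP_c60e08_gt, FLOW part: the evolution of `r` and `r1`.
-/

namespace Pool.Agent.Lib.MP_c60e08_gt.Lm

open Real Set Filter Topology

namespace LmIdR

lemma algR (f u v v1 r ze : ℝ) (hf : f ≠ 0) (hu : u ≠ 0) :
    v1 * ze = f * ((v1 - 4 / 3 * f * r / u * (v / f)) / f * ze - (v / f) ^ 2 * r)
      + (v ^ 2 / f + 4 / 3 * (ze / u) * v) * r := by
  field_simp
  ring

end LmIdR

open FlowData

theorem idRStmt (h : IdStmt) : IdRStmt := by
  intro T W hW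
  obtain ⟨h1, h2⟩ := h T W hW
  refine ⟨?_, ?_⟩
  · intro t ht p
    obtain ⟨-, -, hf, -, -, -, -, -, -, -, -, -, hu_p, hr_p, hz_p, hf_p, -, -, hk_p, hr1_p, hz1_p⟩
      := h1 t ht p
    have hu : 0 < W.u t p := hW.upos t ht p
    have hv1 := hW.v1p t ht p
    have hfs : HasDerivAt (W.fs t) (W.g t p * W.fss t p) p := by
      have e1 := ((hf_p.const_mul (4 / 3 : ℝ)).mul hr_p).div hu_p hu.ne'
      have e2 : W.fs t = fun q => 4 / 3 * W.f t q * W.r t q / W.u t q := by
        funext q
        rfl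
      rw [e2]
      refine HasDerivAt.congr_deriv e1 ?_
      simp only [FlowData.fss, FlowData.r1, Pi.mul_apply]
      field_simp
    have hk1 : HasDerivAt (W.kap1 t) (W.g t p * W.kap2 t p) p := by
      have e1 := (hv1.sub (hfs.mul hk_p)).div hf_p hf.ne'
      have e2 : W.kap1 t = fun q => (W.v1 t q - W.fs t q * W.kap t q) / W.f t q := by
        funext q
        rfl
      rw [e2]
      refine HasDerivAt.congr_deriv e1 ?_
      have e3 : W.kap1 t p * W.f t p = W.v1 t p - W.fs t p * W.kap t p := by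
        rw [FlowData.kap1]
        field_simp
      simp only [FlowData.kap2, Pi.mul_apply, Pi.sub_apply]
      rw [← e3]
      field_simp
      ring
    refine ⟨hk1, hfs, ?_⟩
    have e1 := (hk1.mul hz_p).sub ((hk_p.pow 2).mul hr_p)
    have e2 : W.r2 t = fun q => W.kap1 t q * W.ze t q - W.kap t q ^ 2 * W.r t q := by
      funext q
      rfl
    rw [e2]
    refine HasDerivAt.congr_deriv e1 ?_
    simp only [FlowData.r3, FlowData.z1, FlowData.r1, Pi.pow_apply]
    push_cast
    ring
  · intro t ht p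
    have ht' : t ∈ Ico 0 T := ⟨ht.1.le, ht.2⟩
    have hf : 0 < W.f t p := (h1 t ht' p).2.2.1
    have hu : 0 < W.u t p := hW.upos t ht' p
    obtain ⟨-, hr_t, hz_t, -, -, -, hk_t⟩ := h2 t ht p
    refine ⟨?_, ?_⟩
    · convert hr_t using 1
      simp only [FlowData.r2, FlowData.kap1, FlowData.fs, FlowData.kap, FlowData.C0]
      rw [← LmIdR.algR _ _ _ _ _ _ hf.ne' hu.ne']
    · have e1 := (hk_t.mul hz_t).const_add 1
      have e2 : (fun s => W.r1 s p) = fun s => 1 + W.kap s p * W.ze s p := by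
        funext s
        rfl
      rw [e2]
      refine HasDerivAt.congr_deriv e1 ?_
      simp only [FlowData.r3, FlowData.r2, FlowData.r1, FlowData.z1, FlowData.kap2, FlowData.fss,
        FlowData.kap1, FlowData.fs, FlowData.kap, FlowData.C0, FlowData.C1]
      field_simp
      ring

end Pool.Agent.Lib.MP_c60e08_gt.Lm
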