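import Pool.Agent.Lib.MP_c60e08_gt.LmFlow2

/-!
Module IdZ: the evolution of `zeta` in the form used by the Wronskian lemmas.
-/

namespace Pool.Agent.Lib.MP_c60e08_gt.Lm

open Real Set Filter Topology

namespace IdZ

lemma alg1 (f u v v1 r ze : ℝ) (hf : 0 < f) (hu : 0 < u) (h : r ^ 2 + ze ^ 2 = u) :
    v - v1 * r =
      f * (-((v1 - 4 / 3 * f * r / u * (v / f)) / f * r + v / f * (1 + v / f * ze)))
        + (v ^ 2 / f + 4 / 3 * (ze / u) * v) * ze + 2 / 3 * v := by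
  subst h
  field_simp
  ring

lemma alg2 (f u v v1 v2 r ze : ℝ) (hf : 0 < f) (hu : 0 < u) (h : r ^ 2 + ze ^ 2 = u)
    (kap fs kap1 fss kap2 C0 C1 z1 z2 z3 : ℝ) (e1 : kap = v / f) (e2 : fs = 4 / 3 * f * r / u)
    (e3 : kap1 = (v1 - fs * kap) / f)
    (e4 : fss = 4 / 3 * (fs * r / u + f * (1 + kap * ze) / u - 2 * f * r ^ 2 / u ^ 2))
    (e5 : kap2 = (v2 - fss * kap - 2 * fs * kap1) / f)
    (e6 : C0 = v ^ 2 / f + 4 / 3 * (ze / u) * v)
    (e7 : C1 = 2 * v * v1 / f - 4 / 3 * v ^ 2 * r / (f * u)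
      + 4 / 3 * (-v ^ 2 * r / (f * u) + ze * v1 / u - 2 * ze * v * r / u ^ 2))
    (e8 : z1 = -(kap * r)) (e9 : z2 = -(kap1 * r + kap * (1 + kap * ze)))
    (e10 : z3 = -(kap2 * r + 2 * kap1 * (1 + kap * ze)
      + kap * (kap1 * ze - kap ^ 2 * r))) :
    -((v2 + kap ^ 2 * v) * r + kap * (v1 * ze)) =
      f * z3 + fs * z2 + C0 * z1 + C1 * ze + v ^ 2 / f * z1 + 2 / 3 * v1 := by
  subst e10 e9 e8 e7 e6 e5 e4 e3 e2 e1
  have hf' : f ≠ 0 := hf.ne'
  have hu' : u ≠ 0 := hu.ne'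
  subst h
  field_simp
  ring

end IdZ

open IdZ in
theorem idZStmt (h : IdStmt) (h2 : IdRStmt) : IdZStmt := by
  intro T W hW
  obtain ⟨hI, hIt⟩ := h T W hW
  obtain ⟨hR, hRt⟩ := h2 T W hW
  refine ⟨?_, ?_⟩
  · intro t ht p
    obtain ⟨-, -, -, -, -, -, -, -, -, -, -, -, -, hr, hze, -, -, -, hkap, hr1, -⟩ := hI t ht p
    obtain ⟨hk1, hfs, hr2⟩ := hR t ht p
    have e := ((hk1.mul hr).add (hkap.mul ((hasDerivAt_const p (1 : ℝ)).add (hkap.mul hze)))).neg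
    have e2 : HasDerivAt (W.z2 t) _ p := e
    convert e2 using 1
    simp only [FlowData.z3, FlowData.r1, FlowData.z1, Pi.add_apply, Pi.mul_apply]
    ring
  · intro t ht p
    have ht' : t ∈ Ico 0 T := ⟨ht.1.le, ht.2⟩
    obtain ⟨hu, -, hf, -, -, -, -, -, -, -, -, -, -, -, -, -, -, -, -, -, -⟩ := hI t ht' p
    obtain ⟨-, hrt, hzet, -, -, -, hkapt⟩ := hIt t ht p
    have hupos := hW.upos t ht' p
    refine ⟨?_, ?_⟩
    · convert hzet using 1
      have := alg1 (W.f t p) (W.u t p) (W.v t p) (W.v1 t p) (W.r t p) (W.ze t p) hf hupos hu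
      rw [this]
      simp only [FlowData.z2, FlowData.kap1, FlowData.C0, FlowData.fs, FlowData.kap]
    · have e := (hkapt.mul hrt).neg
      have e1 : (fun s => -(W.kap s p * W.r s p)) = fun s => W.z1 s p := by
        funext s
        simp only [FlowData.z1]
      have e2 : HasDerivAt (fun s => W.z1 s p)
          (-((W.v2 t p + W.kap t p ^ 2 * W.v t p + W.lam t p * W.kap1 t p) * W.r t p +
          W.kap t p * (W.v1 t p * W.ze t p + W.lam t p * W.r1 t p))) t := by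
        rw [← e1]
        exact e
      convert e2 using 1
      have := alg2 (W.f t p) (W.u t p) (W.v t p) (W.v1 t p) (W.v2 t p) (W.r t p) (W.ze t p)
        hf hupos hu (W.kap t p) (W.fs t p) (W.kap1 t p) (W.fss t p) (W.kap2 t p) (W.C0 t p)
        (W.C1 t p) (W.z1 t p) (W.z2 t p) (W.z3 t p) rfl rfl rfl rfl rfl rfl rfl rfl rfl rfl
      have hz2 : W.z2 t p = -(W.kap1 t p * W.r t p + W.kap t p * W.r1 t p) := rfl
      linear_combination (-1 : ℝ) * this + W.lam t p * hz2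

end Pool.Agent.Lib.MP_c60e08_gt.Lm
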