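import Pool.Agent.Lib.MP_c60e08_gt.LmFlow2

/-!
MP_c60e08_gt, FLOW part, module Infl: the inflection point is at `X <= 160 K e^2`.
-/

namespace Pool.Agent.Lib.MP_c60e08_gt.Lm.Infl

open Real Set Filter Topology

/-- the pure inequality -/
lemma key (K e x r v : ℝ) (hK : 1 ≤ K) (he : 0 < e) (he1 : e ≤ 1 / (3200000 * K ^ 5))
    (hx : 0 < x) (h : 160 * K * e ^ 2 ≤ x ^ 3) (hr : 49 / 50 * x ^ 3 ≤ r)
    (hv : r / 10 - (4 * K * (e ^ 2 + 6 * K * e * x ^ 2 - 6 * K ^ 2 * x ^ 4) + x ^ 3 / 30) ≤ v) :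
    0 < v := by
  have hK0 : 0 < K := by linarith
  have hx3 : 0 < x ^ 3 := by positivity
  -- 800 K^2 e <= x
  have h800 : 800 * K ^ 2 * e ≤ x := by
    by_contra hcon
    push Not at hcon
    have h1 : x ^ 3 < (800 * K ^ 2 * e) ^ 3 := by
      have := pow_lt_pow_left₀ hcon hx.le (n := 3) (by norm_num)
      exact this
    have h2 : (800 * K ^ 2 * e) ^ 3 = (512000000 * K ^ 6 * e) * e ^ 2 := by ring
    have h3 : 512000000 * K ^ 6 * e ≤ 160 * K := by
      have h4 : e * (3200000 * K ^ 5) ≤ 1 := by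
        rw [le_div_iff₀ (by positivity)] at he1
        exact he1
      have h5 : 512000000 * K ^ 6 * e = 160 * K * (e * (3200000 * K ^ 5)) := by ring
      rw [h5]
      have : 0 < 160 * K := by positivity
      nlinarith
    have h6 : (512000000 * K ^ 6 * e) * e ^ 2 ≤ 160 * K * e ^ 2 :=
      mul_le_mul_of_nonneg_right h3 (by positivity)
    linarith
  have h9 : 24 * K ^ 2 * e * x ^ 2 ≤ 3 / 100 * x ^ 3 := by
    have : (800 * K ^ 2 * e) * x ^ 2 ≤ x * x ^ 2 :=
      mul_le_mul_of_nonneg_right h800 (by positivity)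
    nlinarith
  have h10 : 0 ≤ K ^ 3 * x ^ 4 := by positivity
  nlinarith

end Pool.Agent.Lib.MP_c60e08_gt.Lm.Infl

namespace Pool.Agent.Lib.MP_c60e08_gt.Lm

open Real Set Filter Topology
open Infl

theorem inflStmt (h1 : S5Stmt) (_h2 : IdStmt) : InflStmt := by
  intro K hK
  obtain ⟨e0, he0, s1, hs1, hs1', h5⟩ := h1 K hK
  have hK0 : 0 < K := by linarith
  refine ⟨min e0 (1 / (3200000 * K ^ 5)), lt_min he0 (by positivity), min (1 / 1000) (s1 / 40),
    lt_min (by norm_num) (by linarith), ?_⟩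
  intro b C3 T W hb hb3 hC3 hW hinit t1 ht1 hyp t ht p hp hX
  have htT : t ∈ Ico 0 T := ⟨ht.1, lt_of_le_of_lt ht.2 ht1.2⟩
  have hb1 : b ≤ 1 / 1000 := hb3.trans (min_le_left _ _)
  have hb2 : b ≤ s1 / 40 := hb3.trans (min_le_right _ _)
  have hd : 0 < W.Y t 0 := hW.tip t htT
  have hmin0 : 0 < min e0 (1 / (3200000 * K ^ 5)) := lt_min he0 (by positivity)
  obtain ⟨hpack, hYle, hvle⟩ := hyp t ht
  set e : ℝ := (W.Y t 0) ^ ((1 : ℝ) / 3) with hedef
  have he : 0 < e := rpow_pos_of_pos hd _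
  have he3 : e ^ 3 = W.Y t 0 := by
    rw [hedef, ← rpow_natCast, ← rpow_mul hd.le]; norm_num
  have he2 : (W.Y t 0) ^ ((2 : ℝ) / 3) = e ^ 2 := by
    rw [hedef, ← rpow_natCast, ← rpow_mul hd.le]; norm_num
  have hele : e ≤ min e0 (1 / (3200000 * K ^ 5)) := by
    by_contra hcon
    push Not at hcon
    have := pow_lt_pow_left₀ hcon hmin0.le (n := 3) (by norm_num)
    rw [he3] at this
    linarith
  have he1 : e ≤ 1 / (3200000 * K ^ 5) := hele.trans (min_le_right _ _)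
  rw [he2] at hX
  have hXpos : 0 < W.X t p := lt_of_lt_of_le (by positivity) hX
  have hp0 : p ≠ 0 := by
    rintro rfl
    rw [hW.X0 t htT] at hXpos
    exact lt_irrefl _ hXpos
  have hppi : p ≠ π := by
    rintro rfl
    rw [hW.Xpi t htT] at hXpos
    exact lt_irrefl _ hXpos
  have hpI : p ∈ Ioo 0 π :=
    ⟨lt_of_le_of_ne hp.1 (Ne.symm hp0), lt_of_le_of_ne hp.2 hppi⟩
  by_cases hs : 40 * b ≤ W.ss t p
  · have hv := hpack.vlow p hp hs
    have hr := hpack.rpos p hpI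
    linarith
  · push Not at hs
    have hss : W.ss t p ≤ s1 := by linarith
    have hss' : W.ss t p ≤ 1 / 400 := by linarith
    have hS5 := h5 b C3 T W hb hb1 (by linarith) hC3 hW hinit t1 ht1 (fun t' ht' => by
      obtain ⟨ha, hb', hc⟩ := hyp t' ht'
      refine ⟨ha, hb'.trans ?_, hc⟩
      exact pow_le_pow_left₀ hmin0.le (min_le_left _ _) 3) t ht p hp hss
    obtain ⟨-, -, -, -, -, hnear⟩ := hpack.near p hp hss'
    have he_le1 : e ≤ 1 := by
      refine he1.trans ?_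
      rw [div_le_one (by positivity)]
      have : (1 : ℝ) ≤ K ^ 5 := one_le_pow₀ hK
      linarith
    have hdX : W.Y t 0 ≤ W.X t p := by
      rw [← he3]
      refine le_trans ?_ hX
      have : e ^ 3 = e * e ^ 2 := by ring
      rw [this]
      exact mul_le_mul_of_nonneg_right (by linarith) (by positivity)
    have hr := (hnear hdX).1
    set x : ℝ := (W.X t p) ^ ((1 : ℝ) / 3) with hxdef
    have hx : 0 < x := rpow_pos_of_pos hXpos _
    have hx3 : x ^ 3 = W.X t p := by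
      rw [hxdef, ← rpow_natCast, ← rpow_mul hXpos.le]; norm_num
    have hx2 : (W.X t p) ^ ((2 : ℝ) / 3) = x ^ 2 := by
      rw [hxdef, ← rpow_natCast, ← rpow_mul hXpos.le]; norm_num
    have hx4 : (W.X t p) ^ ((4 : ℝ) / 3) = x ^ 4 := by
      rw [hxdef, ← rpow_natCast, ← rpow_mul hXpos.le]; norm_num
    have hEE : EE K (W.Y t 0) (W.X t p)
        = 4 * K * (e ^ 2 + 6 * K * e * x ^ 2 - 6 * K ^ 2 * x ^ 4) + x ^ 3 / 30 := by
      simp only [EE]
      rw [he2, hx2, hx4, hx3, ← hedef]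
    rw [hEE] at hS5
    refine key K e x (W.r t p) (W.v t p) hK he he1 hx ?_ ?_ hS5
    · rw [hx3]; exact hX
    · rw [hx3]; exact hr

end Pool.Agent.Lib.MP_c60e08_gt.Lm
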