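import Pool.Agent.Lib.MP_c60e08_gt.LmFlow2

/-!
MP_c60e08_gt, module InitX: the initial time slice of the flow data of a polar graph solution.
-/

set_option autoImplicit false

namespace Pool.Agent.Lib.MP_c60e08_gt.Lm

open Real Set Filter Topology

namespace InitX

/-- the flow data frozen at time `0` -/
def frz (W : FlowData) : FlowData where
  X := fun _ p => W.X 0 p
  Y := fun _ p => W.Y 0 p
  th := fun _ p => W.th 0 p
  g := fun _ p => W.g 0 p
  lam := fun _ p => W.lam 0 p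
  v := fun _ p => W.v 0 p
  v1 := fun _ p => W.v1 0 p
  v2 := fun _ p => W.v2 0 p
  v3 := fun _ p => W.v3 0 p

theorem init_frz {b C3 : ℝ} {W : FlowData} (h : Init b C3 W) : Init b C3 (frz W) :=
  ⟨h.dle, h.hr, h.hom1, h.hom2, h.vtip, h.vtop, h.hth, h.hth2, h.dist1, h.dist2, h.star,
    h.outer, h.inner⟩

theorem init_of_frz {b C3 : ℝ} {W : FlowData} (h : Init b C3 (frz W)) : Init b C3 W :=
  ⟨h.dle, h.hr, h.hom1, h.hom2, h.vtip, h.vtop, h.hth, h.hth2, h.dist1, h.dist2, h.star,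
    h.outer, h.inner⟩

theorem slice {T : ℝ} {y : ℕ → ℝ → ℝ → ℝ} {y0 : ℝ → ℝ} (hT : 0 < T) (hy : PolarSol T y)
    (h0 : ∀ p, y 0 0 p = y0 p) (m : ℕ) : y m 0 = stat y0 m 0 := by
  have h0T : (0 : ℝ) ∈ Ico 0 T := ⟨le_rfl, hT⟩
  induction m with
  | zero =>
    funext p
    rw [h0 p]
    simp [stat]
  | succ m ih =>
    funext p
    have h1 := (hy.dx m 0 h0T p).deriv
    rw [← h1, ih]
    show deriv (stat y0 m 0) p = iteratedDeriv (m+1) y0 p
    rw [iteratedDeriv_succ]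
    rfl

theorem frz_eq {T : ℝ} {y : ℕ → ℝ → ℝ → ℝ} {y0 : ℝ → ℝ} (hT : 0 < T) (hy : PolarSol T y)
    (h0 : ∀ p, y 0 0 p = y0 p) : frz (flowOf y) = frz (flowOf (stat y0)) := by
  have hs := slice hT hy h0
  have hpg : pg y 0 = pg (stat y0) 0 := by
    funext p
    simp only [pg]
    rw [hs 0, hs 1]
  have hpv : pv y 0 = pv (stat y0) 0 := by
    funext p
    simp only [pv]
    rw [hs 0, hs 1, hs 2, hpg]
  have hD : ∀ F F' : ℝ → ℝ → ℝ, F 0 = F' 0 → pD y F 0 = pD (stat y0) F' 0 := by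
    intro F F' hF
    funext p
    simp only [pD]
    rw [hF, hpg]
  have h1 := hD _ _ hpv
  have h2 := hD _ _ h1
  have h3 := hD _ _ h2
  unfold frz flowOf
  simp only [FlowData.mk.injEq]
  refine ⟨?_, ?_, ?_, ?_, ?_, ?_, ?_, ?_, ?_⟩
  · funext _ p; rw [hs 0]
  · funext _ p; rw [hs 0]
  · funext _ p; rw [hs 1]
  · funext _ p; rw [hpg]
  · funext _ p; rw [hpv, hs 1]
  · funext _ p; rw [hpv]
  · funext _ p; rw [h1]
  · funext _ p; rw [h2]
  · funext _ p; rw [h3]

end InitX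

open InitX in
theorem initXStmt : InitXStmt := by
  intro T y y0 hT hy h0
  have he := frz_eq hT hy h0
  refine ⟨fun b C3 h => ?_, fun e b h => ?_, fun p => ⟨?_, ?_⟩⟩
  · have h1 := init_frz h
    rw [← he] at h1
    exact init_of_frz h1
  · have h1 : Under (frz (flowOf (stat y0))) 0 e b := h
    rw [← he] at h1
    exact h1
  · have h1 : (frz (flowOf y)).rho 0 p = (frz (flowOf (stat y0))).rho 0 p := by rw [he]
    exact h1
  · have h1 : (frz (flowOf y)).Y 0 p = (frz (flowOf (stat y0))).Y 0 p := by rw [he]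
    exact h1

end Pool.Agent.Lib.MP_c60e08_gt.Lm
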