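import Pool.Agent.Lib.MP_c60e08_gt.LmFlow2

/-!
Module LBar: the lower barrier `Y >= A(t)^3 - b rho`.
-/

namespace Pool.Agent.Lib.MP_c60e08_gt.Lm

open Real Set Filter Topology

namespace LBar

/-- the key numerical inequality at a contact point -/
lemma key (A b rho f ss ze Y : ℝ) (hA : 0 < A) (hb : 0 < b) (hb1 : b ≤ 1 / 50) (hrho : 0 < rho)
    (hss : 0 < ss) (hf : f = 3 * ss ^ 2) (h3 : ss ^ 3 = rho ^ 2) (hYr : Y ≤ rho)
    (hY : Y = A ^ 3 - b * rho)
    (hc : (Y + b * rho) ^ 2 = ze ^ 2 * (1 + 2 * b * (Y / rho) + b ^ 2)) :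
    f * ze ^ 2 / rho ^ 3 < 33 / 10 * A := by
  obtain ⟨w, hw, hw3⟩ : ∃ w : ℝ, 0 < w ∧ w ^ 3 = rho := by
    refine ⟨rho ^ ((1 : ℝ) / 3), rpow_pos_of_pos hrho _, ?_⟩
    rw [← rpow_natCast, ← rpow_mul hrho.le]
    norm_num
  have hssw : ss = w ^ 2 := by
    have h1 : ss ^ 3 = (w ^ 2) ^ 3 := by rw [h3, ← hw3]; ring
    exact (pow_left_inj₀ hss.le (by positivity) (by norm_num)).mp h1
  have hb2 : 0 < 1 - b ^ 2 := by nlinarith
  -- the bound of ze
  have hze : ze ^ 2 * (1 - b ^ 2) ≤ A ^ 6 := by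
    have e1 : Y + b * rho = A ^ 3 := by rw [hY]; ring
    have e2 : 1 + 2 * b * (Y / rho) + b ^ 2 = 1 - b ^ 2 + 2 * b * (A ^ 3 / rho) := by
      rw [hY]
      field_simp
      ring
    rw [e1, e2] at hc
    have h1 : 0 ≤ ze ^ 2 * (2 * b * (A ^ 3 / rho)) := by positivity
    nlinarith
  -- the bound of A
  have hAw : A ^ 3 ≤ (1 + b) * w ^ 3 := by
    rw [hw3]
    have : A ^ 3 = Y + b * rho := by rw [hY]; ring
    rw [this]
    linarith
  have hA5 : A ^ 5 ≤ (1 + b) ^ 2 * w ^ 5 := by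
    rcases le_total A w with h | h
    · have h1 : A ^ 5 ≤ w ^ 5 := pow_le_pow_left₀ hA.le h 5
      have h2 : 0 < w ^ 5 := by positivity
      nlinarith
    · have h1 : A ^ 5 * w ≤ A ^ 6 := by
        have : A ^ 6 = A ^ 5 * A := by ring
        rw [this]
        exact mul_le_mul_of_nonneg_left h (by positivity)
      have h2 : A ^ 6 ≤ ((1 + b) * w ^ 3) ^ 2 := by
        have : A ^ 6 = (A ^ 3) ^ 2 := by ring
        rw [this]
        exact pow_le_pow_left₀ (by positivity) hAw 2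
      have h3 : A ^ 5 * w ≤ ((1 + b) ^ 2 * w ^ 5) * w := by
        calc A ^ 5 * w ≤ ((1 + b) * w ^ 3) ^ 2 := h1.trans h2
          _ = ((1 + b) ^ 2 * w ^ 5) * w := by ring
      exact le_of_mul_le_mul_right h3 hw
  have hbb : (1 + b) ^ 2 < 11 / 10 * (1 - b ^ 2) := by nlinarith
  rw [hf, hssw, ← hw3]
  rw [div_lt_iff₀ (by positivity)]
  have h5 : 0 < w ^ 5 := by positivity
  have h6 : A ^ 5 < 11 / 10 * (1 - b ^ 2) * w ^ 5 := lt_of_le_of_lt hA5 (by nlinarith)
  have h7 : ze ^ 2 * (1 - b ^ 2) < 11 / 10 * A * w ^ 5 * (1 - b ^ 2) := by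
    calc ze ^ 2 * (1 - b ^ 2) ≤ A ^ 5 * A := by rw [← pow_succ]; exact hze
      _ < 11 / 10 * (1 - b ^ 2) * w ^ 5 * A := mul_lt_mul_of_pos_right h6 hA
      _ = _ := by ring
  have h8 : ze ^ 2 < 11 / 10 * A * w ^ 5 := lt_of_mul_lt_mul_right h7 hb2.le
  have h9 : 0 < w ^ 4 := by positivity
  calc 3 * (w ^ 2) ^ 2 * ze ^ 2 = 3 * w ^ 4 * ze ^ 2 := by ring
    _ < 3 * w ^ 4 * (11 / 10 * A * w ^ 5) := mul_lt_mul_of_pos_left h8 (by positivity)
    _ = 33 / 10 * A * (w ^ 3) ^ 3 := by ring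

/-- strict version -/
lemma strict (h1 : MpSStmt) (h2 : MinsStmt) (h3 : ContactStmt) (h4 : IdStmt) (h5 : IdCStmt)
    (T : ℝ) (W : FlowData) (hW : IsFlow T W) (t0 : ℝ) (ht0 : t0 ∈ Ico 0 T) (b A0 A1 : ℝ)
    (hb : 0 < b) (hb1 : b ≤ 1 / 50) (hA1 : 0 < A1) (hA : A1 < A0)
    (hinit : ∀ p ∈ Icc 0 π, A0 ^ 3 - b * W.rho t0 p ≤ W.Y t0 p)
    (t2 : ℝ) (ht2 : t2 ∈ Ico t0 T) (hlt : 11 / 5 * b * (t2 - t0) < A1 ^ 2) :
    ∀ p ∈ Icc 0 π, √(A1 ^ 2 - 11 / 5 * b * (t2 - t0)) ^ 3 - b * W.rho t2 p < W.Y t2 p := by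
  obtain ⟨hm1, hm2, hm3⟩ := h2
  obtain ⟨hI, hIt⟩ := h4 T W hW
  have hsub : Icc t0 t2 ×ˢ Icc 0 π ⊆ Ico 0 T ×ˢ (univ : Set ℝ) := by
    rintro ⟨s, q⟩ ⟨hs, -⟩
    exact ⟨⟨ht0.1.trans hs.1, lt_of_le_of_lt hs.2 ht2.2⟩, mem_univ _⟩
  have hpos : ∀ s ∈ Icc t0 t2, 0 < A1 ^ 2 - 11 / 5 * b * (s - t0) := by
    intro s hs
    have : 11 / 5 * b * (s - t0) ≤ 11 / 5 * b * (t2 - t0) := by
      apply mul_le_mul_of_nonneg_left _ (by positivity)
      linarith [hs.2]
    linarith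
  have key2 := h1 t0 t2
    (fun s p => W.Y s p - √(A1 ^ 2 - 11 / 5 * b * (s - t0)) ^ 3 + b * W.rho s p) (fun _ _ => -1)
    ?_ ?_ ?_ ?_ ?_
  · intro p hp
    have := key2 t2 ⟨ht2.1, le_rfl⟩ p hp (by norm_num)
    linarith
  · -- continuity
    have hY := hW.cY.mono hsub
    have hrho := (h5 T W hW W.rho (by simp)).mono hsub
    have ha : ContinuousOn (fun z : ℝ × ℝ => √(A1 ^ 2 - 11 / 5 * b * (z.1 - t0)) ^ 3)
        (Icc t0 t2 ×ˢ Icc 0 π) := by
      apply Continuous.continuousOn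
      fun_prop
    exact (hY.sub ha).add (continuousOn_const.mul hrho)
  · exact continuousOn_const
  · intro p hp _
    have := hinit p hp
    simp only [sub_self, mul_zero, sub_zero]
    rw [sqrt_sq hA1.le]
    have h6 : A1 ^ 3 < A0 ^ 3 := pow_lt_pow_left₀ hA hA1.le (by norm_num)
    linarith
  · intro t _ p _ h
    norm_num at h
  · intro t ht p hp _ hy hmin
    have htI : t ∈ Ioo 0 T := ⟨lt_of_le_of_lt ht0.1 ht.1, lt_of_le_of_lt ht.2 ht2.2⟩
    have htC : t ∈ Ico 0 T := ⟨htI.1.le, htI.2⟩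
    have htt : t ∈ Icc t0 t2 := ⟨ht.1.le, ht.2⟩
    obtain ⟨hu, hfs, hf, hss, hrho, hrho2, hss3, hrs, hr, hz, hX, hYr, -, -, -, -, -, -, -, -⟩ :=
      hI t htC p
    have hIp : ∀ q, HasDerivAt (W.rho t) (W.g t q * (W.r t q / W.rho t q)) q := fun q =>
      (hI t htC q).2.2.2.2.2.2.2.2.2.2.2.2.2.2.2.2.2.1
    have hrp : HasDerivAt (W.r t) (W.g t p * W.r1 t p) p :=
      (hI t htC p).2.2.2.2.2.2.2.2.2.2.2.2.2.1
    have hrhot : HasDerivAt (fun s => W.rho s p)
      (W.ze t p * W.v t p / W.rho t p + W.lam t p * (W.r t p / W.rho t p)) t :=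
      (hIt t htI p).2.2.2.2.2.1
    obtain ⟨A, hAdef⟩ : ∃ A, A = √(A1 ^ 2 - 11 / 5 * b * (t - t0)) := ⟨_, rfl⟩
    have hApos : 0 < A := by rw [hAdef]; exact sqrt_pos.mpr (hpos t htt)
    -- time derivative of the barrier
    have hAt : HasDerivAt (fun s => √(A1 ^ 2 - 11 / 5 * b * (s - t0)) ^ 3)
        (-(33 / 10 * b * A)) t := by
      have e1 : HasDerivAt (fun s => A1 ^ 2 - 11 / 5 * b * (s - t0)) (-(11 / 5 * b)) t := by
        have := (((hasDerivAt_id t).sub_const t0).const_mul (11 / 5 * b)).const_sub (A1 ^ 2)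
        simpa using! this
      have e2 := (e1.sqrt (hpos t htt).ne').pow 3
      refine HasDerivAt.congr_deriv e2 ?_
      rw [← hAdef]
      field_simp
      norm_num
      try ring
    refine ⟨_, ((hW.Yt t htI p).sub hAt).add (hrhot.const_mul b), ?_⟩
    -- space derivatives
    have hyp : ∀ q, HasDerivAt
        (fun q => W.Y t q - √(A1 ^ 2 - 11 / 5 * b * (t - t0)) ^ 3 + b * W.rho t q)
        (W.g t q * (sin (W.th t q) + b * (W.r t q / W.rho t q))) q := by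
      intro q
      have e := ((hW.Yp t htC q).sub_const (√(A1 ^ 2 - 11 / 5 * b * (t - t0)) ^ 3)).add
        ((hIp q).const_mul b)
      refine HasDerivAt.congr_deriv e ?_
      ring
    have hkp : HasDerivAt (fun q => sin (W.th t q) + b * (W.r t q / W.rho t q))
        (W.g t p * (W.kap t p * cos (W.th t p)
          + b * (W.r1 t p / W.rho t p - W.r t p ^ 2 / W.rho t p ^ 3))) p := by
      have e := (hW.thp t htC p).sin.add ((hrp.div (hIp p) hrho.ne').const_mul b)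
      refine HasDerivAt.congr_deriv e ?_
      field_simp
    have hk : sin (W.th t p) + b * (W.r t p / W.rho t p) = 0 ∧
        0 ≤ W.kap t p * cos (W.th t p)
          + b * (W.r1 t p / W.rho t p - W.r t p ^ 2 / W.rho t p ^ 3) := by
      have hmin' : ∀ q ∈ Icc 0 π,
          W.Y t p - √(A1 ^ 2 - 11 / 5 * b * (t - t0)) ^ 3 + b * W.rho t p ≤
          W.Y t q - √(A1 ^ 2 - 11 / 5 * b * (t - t0)) ^ 3 + b * W.rho t q := by
        intro q hq
        rw [hy]
        exact hmin q hq (by norm_num)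
      rcases eq_or_lt_of_le hp.1 with h0 | h0
      · -- p = 0
        subst h0
        have hk0 : sin (W.th t 0) + b * (W.r t 0 / W.rho t 0) = 0 := by
          simp [FlowData.r, hW.th0 t htC, hW.X0 t htC]
        refine ⟨hk0, ?_⟩
        refine hm2 _ (W.g t) _ 0 _ (hW.gpos t htC) hyp hkp hk0 ?_
        filter_upwards [Ioo_mem_nhdsGT pi_pos] with q hq
        exact hmin' q ⟨hq.1.le, hq.2.le⟩
      rcases eq_or_lt_of_le hp.2 with h0' | h0'
      · subst h0'
        have hk0 : sin (W.th t π) + b * (W.r t π / W.rho t π) = 0 := by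
          simp [FlowData.r, hW.thpi t htC, hW.Xpi t htC]
        refine ⟨hk0, ?_⟩
        refine hm3 _ (W.g t) _ π _ (hW.gpos t htC) hyp hkp hk0 ?_
        filter_upwards [Ioo_mem_nhdsLT pi_pos] with q hq
        exact hmin' q ⟨hq.1.le, hq.2.le⟩
      · refine hm1 _ (W.g t) _ p _ (hW.gpos t htC) hyp hkp ?_
        filter_upwards [Ioo_mem_nhds h0 h0'] with q hq
        exact hmin' q ⟨hq.1.le, hq.2.le⟩
    obtain ⟨hk0, hk2⟩ := hk
    -- the contact identities
    have hS : sin (W.th t p) = (-b) * W.r t p / W.rho t p := by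
      have : b * (W.r t p / W.rho t p) = b * W.r t p / W.rho t p := by ring
      rw [this] at hk0
      have e : (-b) * W.r t p / W.rho t p = -(b * W.r t p / W.rho t p) := by ring
      rw [e]
      linarith
    have hcs := cos_sq_add_sin_sq (W.th t p)
    have hXe : W.X t p = W.r t p * cos (W.th t p) - W.ze t p * sin (W.th t p) := by
      unfold FlowData.r FlowData.ze
      linear_combination (-(W.X t p)) * hcs
    have hYe : W.Y t p = W.r t p * sin (W.th t p) + W.ze t p * cos (W.th t p) := by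
      unfold FlowData.r FlowData.ze
      linear_combination (-(W.Y t p)) * hcs
    obtain ⟨hc1, -⟩ := h3 (W.rho t p) (-b) (W.r t p) (W.ze t p) (cos (W.th t p))
      (sin (W.th t p)) (W.X t p) (W.Y t p) hrho (by rw [hu, hrho2]) hcs hXe hYe hS
    have hYa : W.Y t p = A ^ 3 - b * W.rho t p := by
      rw [← hAdef] at hy
      linarith
    have hfin := key A b (W.rho t p) (W.f t p) (W.ss t p) (W.ze t p) (W.Y t p) hApos hb hb1 hrho
      hss hfs hrs.symm ((le_abs_self _).trans hYr) hYa (by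
        have e1 : W.Y t p - W.rho t p * (-b) = W.Y t p + b * W.rho t p := by ring
        have e2 : 1 - 2 * (W.Y t p / W.rho t p) * (-b) + (-b) ^ 2
          = 1 + 2 * b * (W.Y t p / W.rho t p) + b ^ 2 := by ring
        rw [e1, e2] at hc1
        exact hc1)
    -- conclusion
    have hv : W.v t p = W.f t p * W.kap t p := by
      unfold FlowData.kap
      field_simp
    have hr1 : W.r1 t p = 1 + W.kap t p * W.ze t p := rfl
    have hk3 : 0 ≤ W.f t p * (W.kap t p * cos (W.th t p)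
          + b * (W.r1 t p / W.rho t p - W.r t p ^ 2 / W.rho t p ^ 3)) := mul_nonneg hf.le hk2
    have hze2 : W.f t p * W.ze t p ^ 2 / W.rho t p ^ 3
        = W.f t p * (1 / W.rho t p - W.r t p ^ 2 / W.rho t p ^ 3) := by
      have : W.ze t p ^ 2 = W.rho t p ^ 2 - W.r t p ^ 2 := by rw [hrho2, ← hu]; ring
      rw [this]
      field_simp
    rw [hze2] at hfin
    have hfin2 := mul_lt_mul_of_pos_left hfin hb
    have e3 : W.v t p * cos (W.th t p) + W.lam t p * sin (W.th t p) - -(33 / 10 * b * A)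
        + b * (W.ze t p * W.v t p / W.rho t p + W.lam t p * (W.r t p / W.rho t p))
        = W.f t p * (W.kap t p * cos (W.th t p)
          + b * (W.r1 t p / W.rho t p - W.r t p ^ 2 / W.rho t p ^ 3))
          + (b * (33 / 10 * A)
            - b * (W.f t p * (1 / W.rho t p - W.r t p ^ 2 / W.rho t p ^ 3)))
          + W.lam t p * (sin (W.th t p) + b * (W.r t p / W.rho t p)) := by
      rw [hv, hr1]
      ring
    rw [e3, hk0]
    linarith

end LBar

open LBar in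
theorem lBarStmt (h1 : MpSStmt) (h2 : MinsStmt) (h3 : ContactStmt) (h4 : IdStmt)
    (h5 : IdCStmt) : LBarStmt := by
  intro T W hW t0 ht0 b A0 hb hb1 hA0 hinit t ht hlt p hp
  have hev : ∀ᶠ x in 𝓝[<] A0, √(x ^ 2 - 11 / 5 * b * (t - t0)) ^ 3
      ≤ W.Y t p + b * W.rho t p := by
    have hc1 : ∀ᶠ x in 𝓝[<] A0, 11 / 5 * b * (t - t0) < x ^ 2 := by
      have : Tendsto (fun x : ℝ => x ^ 2) (𝓝[<] A0) (𝓝 (A0 ^ 2)) :=
        ((continuous_pow 2).tendsto A0).mono_left nhdsWithin_le_nhds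
      exact this.eventually (lt_mem_nhds hlt)
    filter_upwards [hc1, Ioo_mem_nhdsLT hA0] with x hx hx2
    have := strict h1 h2 h3 h4 h5 T W hW t0 ht0 b A0 x hb hb1 hx2.1 hx2.2 hinit t ht hx p hp
    linarith
  have hT : Tendsto (fun x : ℝ => √(x ^ 2 - 11 / 5 * b * (t - t0)) ^ 3) (𝓝[<] A0)
      (𝓝 (√(A0 ^ 2 - 11 / 5 * b * (t - t0)) ^ 3)) := by
    have hc : Continuous (fun x : ℝ => √(x ^ 2 - 11 / 5 * b * (t - t0)) ^ 3) := by fun_prop
    exact (hc.tendsto A0).mono_left nhdsWithin_le_nhds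
  have := le_of_tendsto hT hev
  linarith

end Pool.Agent.Lib.MP_c60e08_gt.Lm
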