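import Pool.Agent.Lib.MP_c60e08_gt.LmFlow2

/-!
MP_c60e08_gt, FLOW part, module Lbt: the lower barrier for the tangent angle.
-/

namespace Pool.Agent.Lib.MP_c60e08_gt.Lm

open Real Set Filter Topology

theorem lbtStmt (h1 : MpStmt) (h2 : MinsStmt) (h3 : IdStmt) (h4 : IdCStmt) : LbtStmt := by
  intro T W hW B hB B2 t1 ht1 h0 hend t ht p hp
  have ht1T : t1 < T := ht1.2
  have hsub : Icc (0 : ℝ) t1 ×ˢ Icc (0 : ℝ) π ⊆ Ico 0 T ×ˢ univ := by
    intro z hz
    exact ⟨⟨hz.1.1, lt_of_le_of_lt hz.1.2 ht1T⟩, mem_univ _⟩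
  obtain ⟨hid1, hid2⟩ := h3 T W hW
  have hss : ContinuousOn (fun z : ℝ × ℝ => W.ss z.1 z.2) (Ico 0 T ×ˢ univ) :=
    h4 T W hW W.ss (by simp)
  have hC : COn 0 t1 (fun t p => W.th t p - B * W.ss t p + (B2 - 2 * B * t)) := by
    unfold COn
    refine ((hW.cth.mono hsub).sub ((hss.mono hsub).const_smul B)).add ?_
    fun_prop
  have key := h1 0 t1 0 (fun t p => W.th t p - B * W.ss t p + (B2 - 2 * B * t)) hC
    (by
      intro p hp
      have := h0 p hp
      linarith)
    (by
      intro t ht p hp hneg hmin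
      have htI : t ∈ Icc (0 : ℝ) t1 := ⟨ht.1.le, ht.2⟩
      have htT : t ∈ Ico 0 T := ⟨ht.1.le, lt_of_le_of_lt ht.2 ht1T⟩
      have htO : t ∈ Ioo 0 T := ⟨ht.1, lt_of_le_of_lt ht.2 ht1T⟩
      obtain ⟨he0, hepi⟩ := hend t htI
      have hp0 : p ≠ 0 := by
        rintro rfl
        rw [hW.th0 t htT] at hneg
        linarith
      have hs0 : 0 < W.ss t 0 := (hid1 t htT 0).2.2.2.1
      have hppi : p ≠ π := by
        rintro rfl
        rw [hW.thpi t htT] at hneg
        have := pi_gt_three
        have h5 : 0 ≤ B * W.ss t 0 := by positivity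
        linarith
      have hpI : p ∈ Ioo (0 : ℝ) π := ⟨lt_of_le_of_ne hp.1 (Ne.symm hp0), lt_of_le_of_ne hp.2 hppi⟩
      obtain ⟨_, _, hfpos, _, _, _, _, _, _, _, _, _, _, hr, _, hf, _, _, hkap, _, _⟩ :=
        hid1 t htT p
      obtain ⟨_, _, _, _, hsst, _, _⟩ := hid2 t htO p
      set k : ℝ → ℝ := fun q => W.kap t q - B * (2 * W.r t q / W.f t q) with hk
      have hder : ∀ q, HasDerivAt (fun q => W.th t q - B * W.ss t q + (B2 - 2 * B * t))
          (W.g t q * k q) q := by
        intro q
        have h5 := hW.thp t htT q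
        have h6 : HasDerivAt (W.ss t) (W.g t q * (2 * W.r t q / W.f t q)) q :=
          (hid1 t htT q).2.2.2.2.2.2.2.2.2.2.2.2.2.2.2.2.1
        have h7 := (h5.sub (h6.const_mul B)).add_const (B2 - 2 * B * t)
        refine h7.congr_deriv ?_
        rw [hk]
        ring
      have hkder : HasDerivAt k (W.g t p * (W.kap1 t p
          - B * (2 * (W.r1 t p / W.f t p - W.r t p * W.fs t p / W.f t p ^ 2)))) p := by
        have h5 := ((hr.const_mul 2).div hf hfpos.ne').const_mul B
        have h6 := hkap.sub h5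
        refine h6.congr_deriv ?_
        field_simp
      have hloc : IsLocalMin (fun q => W.th t q - B * W.ss t q + (B2 - 2 * B * t)) p := by
        filter_upwards [Ioo_mem_nhds hpI.1 hpI.2] with q hq
        exact hmin q ⟨hq.1.le, hq.2.le⟩
      obtain ⟨hk0, hk2⟩ := h2.1 _ (W.g t) k p _ (fun q => hW.gpos t htT q) hder hkder hloc
      have hD : HasDerivAt (fun s => W.th s p - B * W.ss s p + (B2 - 2 * B * s))
          ((W.v1 t p + W.lam t p * W.kap t p) - B * (2 * W.ze t p * W.v t p / W.f t p
            + W.lam t p * (2 * W.r t p / W.f t p)) + (0 - 2 * B * 1)) t := by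
        have h5 := hW.tht t htO p
        have h6 := (hasDerivAt_const t B2).sub ((hasDerivAt_id t).const_mul (2 * B))
        exact (h5.sub (hsst.const_mul B)).add h6
      refine ⟨_, hD, ?_⟩
      rw [zero_mul]
      -- algebra
      have hkk : W.kap t p = 2 * B * W.r t p / W.f t p := by
        rw [hk] at hk0
        simp only at hk0
        have : W.kap t p = B * (2 * W.r t p / W.f t p) := by linarith
        rw [this]; ring
      have hv : W.v t p / W.f t p = W.kap t p := rfl
      have hkap1 : W.kap1 t p = (W.v1 t p - W.fs t p * W.kap t p) / W.f t p := rfl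
      have hr1 : W.r1 t p = 1 + W.kap t p * W.ze t p := rfl
      have hv1 : W.v1 t p = W.f t p * W.kap1 t p + W.fs t p * W.kap t p := by
        rw [hkap1]; field_simp; ring
      have h8 : 0 ≤ W.f t p * (W.kap1 t p
          - B * (2 * (W.r1 t p / W.f t p - W.r t p * W.fs t p / W.f t p ^ 2))) :=
        mul_nonneg hfpos.le hk2
      have h9 : W.f t p * (W.kap1 t p
          - B * (2 * (W.r1 t p / W.f t p - W.r t p * W.fs t p / W.f t p ^ 2)))
          = W.f t p * W.kap1 t p - 2 * B * W.r1 t p
            + W.fs t p * (2 * B * W.r t p / W.f t p) := by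
        field_simp
        ring
      rw [h9, ← hkk, hr1] at h8
      have h10 : 2 * W.ze t p * W.v t p / W.f t p = 2 * W.ze t p * W.kap t p := by
        rw [← hv]; ring
      have h11 : W.lam t p * W.kap t p - B * (W.lam t p * (2 * W.r t p / W.f t p)) = 0 := by
        rw [hkk]; ring
      rw [h10]
      have h12 : (W.v1 t p + W.lam t p * W.kap t p) - B * (2 * W.ze t p * W.kap t p
            + W.lam t p * (2 * W.r t p / W.f t p)) + (0 - 2 * B * 1)
          = W.v1 t p - 2 * B * (W.ze t p * W.kap t p) - 2 * B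
            + (W.lam t p * W.kap t p - B * (W.lam t p * (2 * W.r t p / W.f t p))) := by ring
      rw [h12, h11, hv1]
      nlinarith [h8])
  have h13 := key t ht p hp
  linarith

end Pool.Agent.Lib.MP_c60e08_gt.Lm
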