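import Pool.Agent.Lib.MP_c60e08_gt.LmFlow2

/-!
Module MaxCmp: a maximal solution lasts longer than any other (up to time 1).
-/

set_option autoImplicit false

namespace Pool.Agent.Lib.MP_c60e08_gt.Lm

open Real Set Filter Topology

namespace MaxCmp

theorem periodic {T : ℝ} {y : ℕ → ℝ → ℝ → ℝ} (S : PolarSol T y) (m : ℕ) :
    ∀ t ∈ Ico 0 T, Function.Periodic (y m t) (2 * π) := by
  induction m with
  | zero => exact fun t ht p => S.per t ht p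
  | succ m ih =>
    intro t ht p
    have h1 := (S.dx m t ht (p + 2 * π)).comp_add_const p (2 * π)
    have h2 : (fun x => y m t (x + 2 * π)) = y m t := funext fun x => ih t ht x
    rw [h2] at h1
    exact h1.unique (S.dx m t ht p)

theorem bound {T T' : ℝ} {y : ℕ → ℝ → ℝ → ℝ} (S : PolarSol T' y) (hT : T < T') (m : ℕ) :
    ∃ M : ℝ, ∀ t ∈ Icc 0 T, ∀ p, |y m t p| ≤ M := by
  have hK : IsCompact (Icc (0 : ℝ) T ×ˢ Icc (0 : ℝ) (2 * π)) := isCompact_Icc.prod isCompact_Icc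
  have hc : ContinuousOn (fun z : ℝ × ℝ => y m z.1 z.2) (Icc (0 : ℝ) T ×ˢ Icc (0 : ℝ) (2 * π)) :=
    (S.cont m).mono (prod_mono (fun t ht => ⟨ht.1, lt_of_le_of_lt ht.2 hT⟩) (subset_univ _))
  obtain ⟨M, hM⟩ := hK.exists_bound_of_continuousOn hc
  refine ⟨M, fun t ht p => ?_⟩
  obtain ⟨q, hq, he⟩ := (periodic S m t ⟨ht.1, lt_of_le_of_lt ht.2 hT⟩).exists_mem_Ico₀
    (by positivity) p
  rw [he]
  exact hM (t, q) ⟨ht, ⟨hq.1, hq.2.le⟩⟩

theorem uu_bound {T T' : ℝ} {y : ℕ → ℝ → ℝ → ℝ} (S : PolarSol T' y) (hT0 : 0 < T)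
    (hT : T < T') : ∃ δ > 0, ∀ t ∈ Icc 0 T, ∀ p, δ ≤ uu p (y 0 t p) := by
  have hK : IsCompact (Icc (0 : ℝ) T ×ˢ Icc (0 : ℝ) (2 * π)) := isCompact_Icc.prod isCompact_Icc
  have hy : ContinuousOn (fun z : ℝ × ℝ => y 0 z.1 z.2) (Icc (0 : ℝ) T ×ˢ Icc (0 : ℝ) (2 * π)) :=
    (S.cont 0).mono (prod_mono (fun t ht => ⟨ht.1, lt_of_le_of_lt ht.2 hT⟩) (subset_univ _))
  have hcont : Continuous (fun w : ℝ × ℝ => uu w.1 w.2) := by
    unfold uu
    fun_prop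
  have hc : ContinuousOn (fun z : ℝ × ℝ => uu z.2 (y 0 z.1 z.2))
      (Icc (0 : ℝ) T ×ˢ Icc (0 : ℝ) (2 * π)) :=
    hcont.comp_continuousOn (continuousOn_snd.prodMk hy)
  have hpi := Real.pi_pos
  have hne : (Icc (0 : ℝ) T ×ˢ Icc (0 : ℝ) (2 * π)).Nonempty :=
    ⟨(0, 0), ⟨⟨le_rfl, hT0.le⟩, ⟨le_rfl, by positivity⟩⟩⟩
  obtain ⟨z, hz, hmin⟩ := hK.exists_isMinOn hne hc
  refine ⟨uu z.2 (y 0 z.1 z.2), S.pos z.1 ⟨hz.1.1, lt_of_le_of_lt hz.1.2 hT⟩ z.2, ?_⟩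
  intro t ht p
  have hper : Function.Periodic (fun x => uu x (y 0 t x)) (2 * π) := by
    intro x
    show uu (x + 2 * π) (y 0 t (x + 2 * π)) = uu x (y 0 t x)
    rw [S.per t ⟨ht.1, lt_of_le_of_lt ht.2 hT⟩ x]
    unfold uu
    rw [Real.cos_add_two_pi]
  obtain ⟨q, hq, he⟩ := hper.exists_mem_Ico₀ (by positivity) p
  have he' : uu p (y 0 t p) = uu q (y 0 t q) := he
  rw [he']
  exact hmin (a := (t, q)) ⟨ht, ⟨hq.1, hq.2.le⟩⟩

end MaxCmp

open MaxCmp in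
theorem maxCmpStmt (h : UniqStmt) : MaxCmpStmt := by
  intro T T' y y' hT0 S S' h0 halt
  rcases halt with h1 | halt
  · exact Or.inl h1
  right
  by_contra hcon
  push Not at hcon
  have heq : ∀ t ∈ Ico 0 T, ∀ m p, y m t p = y' m t p :=
    fun t ht m p => h T T' y y' S S' h0 t ht.1 ht.2 (ht.2.trans hcon) m p
  obtain ⟨M0, hM0⟩ := bound S' hcon 0
  obtain ⟨M1, hM1⟩ := bound S' hcon 1
  obtain ⟨M2, hM2⟩ := bound S' hcon 2
  obtain ⟨M3, hM3⟩ := bound S' hcon 3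
  obtain ⟨δ, hδ, hu⟩ := uu_bound S' hT0 hcon
  obtain ⟨t, ht, p, hp⟩ := halt (max (max M0 M1) (max (max M2 M3) (1 / δ)))
  have ht' : t ∈ Icc 0 T := ⟨ht.1, ht.2.le⟩
  have k0 : M0 ≤ max (max M0 M1) (max (max M2 M3) (1 / δ)) :=
    (le_max_left _ _).trans (le_max_left _ _)
  have k1 : M1 ≤ max (max M0 M1) (max (max M2 M3) (1 / δ)) :=
    (le_max_right _ _).trans (le_max_left _ _)
  have k2 : M2 ≤ max (max M0 M1) (max (max M2 M3) (1 / δ)) :=
    ((le_max_left _ _).trans (le_max_left _ _)).trans (le_max_right _ _)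
  have k3 : M3 ≤ max (max M0 M1) (max (max M2 M3) (1 / δ)) :=
    ((le_max_right _ _).trans (le_max_left _ _)).trans (le_max_right _ _)
  have k4 : 1 / δ ≤ max (max M0 M1) (max (max M2 M3) (1 / δ)) :=
    (le_max_right _ _).trans (le_max_right _ _)
  rw [heq t ht 0 p, heq t ht 1 p, heq t ht 2 p, heq t ht 3 p] at hp
  rcases hp with hp | hp | hp | hp | hp
  · have := hM0 t ht' p
    linarith
  · have := hM1 t ht' p
    linarith
  · have := hM2 t ht' p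
    linarith
  · have := hM3 t ht' p
    linarith
  · have h2 := hu t ht' p
    have h3 : 1 / δ * δ = 1 := by field_simp
    have h4 : 1 / δ * δ ≤ 1 / δ * uu p (y' 0 t p) :=
      mul_le_mul_of_nonneg_left h2 (by positivity)
    have h5 : 1 / δ * uu p (y' 0 t p) ≤
        max (max M0 M1) (max (max M2 M3) (1 / δ)) * uu p (y' 0 t p) :=
      mul_le_mul_of_nonneg_right k4 (hδ.le.trans h2)
    linarith

end Pool.Agent.Lib.MP_c60e08_gt.Lm
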