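import Pool.Agent.Lib.MP_c60e08_gt.LmFlow2

/-!
Module Mins: second order conditions at a minimum, for `f' = g k`, `g > 0`.
-/

set_option autoImplicit false

namespace Pool.Agent.Lib.MP_c60e08_gt.Lm

open Real Set Filter Topology

namespace Mins

theorem slope_neg {k : ℝ → ℝ} {p D : ℝ} (hk : HasDerivAt k D p) (hD : D < 0) (hp : k p = 0) :
    ∀ᶠ q in 𝓝[≠] p, (q - p)⁻¹ * k q < 0 := by
  have h1 := hasDerivAt_iff_tendsto_slope.1 hk
  have h2 := h1.eventually (gt_mem_nhds hD)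
  filter_upwards [h2] with q hq
  rw [slope_def_module, smul_eq_mul, hp, sub_zero] at hq
  exact hq

theorem right {f g k : ℝ → ℝ} {p k2 : ℝ} (hg : ∀ q, 0 < g q)
    (hf : ∀ q, HasDerivAt f (g q * k q) q) (hk : HasDerivAt k (g p * k2) p) (hp : k p = 0)
    (hmin : ∀ᶠ q in 𝓝[>] p, f p ≤ f q) : 0 ≤ k2 := by
  by_contra hcon
  push Not at hcon
  have hD : g p * k2 < 0 := mul_neg_of_pos_of_neg (hg p) hcon
  have h1 : ∀ᶠ q in 𝓝[>] p, (q - p)⁻¹ * k q < 0 :=
    (slope_neg hk hD hp).filter_mono (nhdsWithin_mono _ fun q hq => ne_of_gt hq)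
  obtain ⟨u, hu, hsub⟩ := mem_nhdsGT_iff_exists_Ioo_subset.1 (h1.and hmin)
  have hu' : p < u := hu
  have hneg : ∀ q ∈ Ioo p u, g q * k q < 0 := by
    intro q hq
    have h2 : (q - p)⁻¹ * k q < 0 := (hsub hq).1
    have h3 : 0 < (q - p)⁻¹ := inv_pos.2 (by linarith [hq.1])
    have h4 : k q < 0 := by
      by_contra h5
      push Not at h5
      have := mul_nonneg h3.le h5
      linarith
    exact mul_neg_of_pos_of_neg (hg q) h4
  obtain ⟨m, hm1, hm2⟩ := exists_between hu'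
  have hanti : StrictAntiOn f (Icc p m) := by
    refine strictAntiOn_of_deriv_neg (convex_Icc p m)
      (fun x _ => (hf x).continuousAt.continuousWithinAt) ?_
    intro x hx
    rw [interior_Icc] at hx
    rw [(hf x).deriv]
    exact hneg x ⟨hx.1, hx.2.trans hm2⟩
  have h5 := hanti (left_mem_Icc.2 hm1.le) (right_mem_Icc.2 hm1.le) hm1
  have h6 : f p ≤ f m := (hsub ⟨hm1, hm2⟩).2
  linarith

theorem left {f g k : ℝ → ℝ} {p k2 : ℝ} (hg : ∀ q, 0 < g q)
    (hf : ∀ q, HasDerivAt f (g q * k q) q) (hk : HasDerivAt k (g p * k2) p) (hp : k p = 0)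
    (hmin : ∀ᶠ q in 𝓝[<] p, f p ≤ f q) : 0 ≤ k2 := by
  by_contra hcon
  push Not at hcon
  have hD : g p * k2 < 0 := mul_neg_of_pos_of_neg (hg p) hcon
  have h1 : ∀ᶠ q in 𝓝[<] p, (q - p)⁻¹ * k q < 0 :=
    (slope_neg hk hD hp).filter_mono (nhdsWithin_mono _ fun q hq => ne_of_lt hq)
  obtain ⟨u, hu, hsub⟩ := mem_nhdsLT_iff_exists_Ioo_subset.1 (h1.and hmin)
  have hu' : u < p := hu
  have hpos : ∀ q ∈ Ioo u p, 0 < g q * k q := by
    intro q hq
    have h2 : (q - p)⁻¹ * k q < 0 := (hsub hq).1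
    have h3 : (q - p)⁻¹ < 0 := inv_lt_zero.2 (by linarith [hq.2])
    have h4 : 0 < k q := by
      by_contra h5
      push Not at h5
      have := mul_nonneg_of_nonpos_of_nonpos h3.le h5
      linarith
    exact mul_pos (hg q) h4
  obtain ⟨m, hm1, hm2⟩ := exists_between hu'
  have hmono : StrictMonoOn f (Icc m p) := by
    refine strictMonoOn_of_deriv_pos (convex_Icc m p)
      (fun x _ => (hf x).continuousAt.continuousWithinAt) ?_
    intro x hx
    rw [interior_Icc] at hx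
    rw [(hf x).deriv]
    exact hpos x ⟨hm1.trans hx.1, hx.2⟩
  have h5 := hmono (left_mem_Icc.2 hm2.le) (right_mem_Icc.2 hm2.le) hm2
  have h6 : f p ≤ f m := (hsub ⟨hm1, hm2⟩).2
  linarith

end Mins

theorem minsStmt : MinsStmt := by
  refine ⟨?_, ?_, ?_⟩
  · intro f g k p k2 hg hf hk hmin
    have h1 : g p * k p = 0 := hmin.hasDerivAt_eq_zero (hf p)
    have h2 : k p = 0 := by
      rcases mul_eq_zero.1 h1 with h | h
      · exact absurd h (hg p).ne'
      · exact h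
    exact ⟨h2, Mins.right hg hf hk h2 (hmin.filter_mono nhdsWithin_le_nhds)⟩
  · intro f g k p k2 hg hf hk hp hmin
    exact Mins.right hg hf hk hp hmin
  · intro f g k p k2 hg hf hk hp hmin
    exact Mins.left hg hf hk hp hmin

end Pool.Agent.Lib.MP_c60e08_gt.Lm
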