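import Pool.Agent.Lib.MP_c60e08_gt.LmFlow2

/-!
MP_c60e08_gt, module MpR: weak maximum principle on the region `{R <= 0}`.
-/

set_option autoImplicit false

namespace Pool.Agent.Lib.MP_c60e08_gt.Lm

open Real Set Filter Topology

namespace MpR

/-- A function which is at least its value at `a` just to the left of `a` has derivative `<= 0`
at `a`. -/
theorem deriv_nonpos_of_left {f : ℝ → ℝ} {E a : ℝ} (hf : HasDerivAt f E a)
    (h : ∀ᶠ s in 𝓝[<] a, f a ≤ f s) : E ≤ 0 := by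
  have h1 : Tendsto (slope f a) (𝓝[<] a) (𝓝 E) :=
    (hasDerivWithinAt_iff_tendsto_slope' (by simp)).1 (hf.hasDerivWithinAt (s := Iio a))
  refine le_of_tendsto h1 ?_
  filter_upwards [h, self_mem_nhdsWithin] with s hs hsa
  have h2 : s - a < 0 := sub_neg.2 hsa
  rw [slope_def_field]
  exact div_nonpos_of_nonneg_of_nonpos (sub_nonneg.2 hs) h2.le

end MpR

open MpR in
theorem mpRStmt : MpRStmt := by
  intro t0 t1 Lam y R hy hR hinit hbd hmin t ht p hp hRtp
  by_contra hcon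
  rw [not_le] at hcon
  -- the compact set
  set Q : Set (ℝ × ℝ) := Icc t0 t1 ×ˢ Icc 0 π with hQ
  have hQc : IsCompact Q := isCompact_Icc.prod isCompact_Icc
  set K : Set (ℝ × ℝ) := {z | z ∈ Q ∧ R z.1 z.2 ≤ 0} with hK
  have hKc : IsCompact K := by
    have h1 : IsClosed (Q ∩ (fun z : ℝ × ℝ => R z.1 z.2) ⁻¹' Iic 0) :=
      hR.preimage_isClosed_of_isClosed hQc.isClosed isClosed_Iic
    exact hQc.of_isClosed_subset h1 (fun z hz => hz.1)
  have hKQ : K ⊆ Q := fun z hz => hz.1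
  set z : ℝ × ℝ → ℝ := fun w => exp (-((Lam + 1) * w.1)) * y w.1 w.2 with hz
  have hzc : ContinuousOn z K := by
    refine ContinuousOn.mul ?_ (hy.mono hKQ)
    exact (Real.continuous_exp.comp
      ((continuous_const.mul continuous_fst).neg)).continuousOn
  have hne : (t, p) ∈ K := ⟨⟨ht, hp⟩, hRtp⟩
  obtain ⟨⟨a, b⟩, hab, hmn⟩ := hKc.exists_isMinOn ⟨_, hne⟩ hzc
  obtain ⟨⟨ha, hb⟩, hRab⟩ := hab
  simp only at ha hb hRab
  have hmin' : ∀ s q, (s, q) ∈ K → z (a, b) ≤ z (s, q) := fun s q h => hmn h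
  have hneg : y a b < 0 := by
    have h1 := hmin' t p hne
    have h2 : z (t, p) < 0 := mul_neg_of_pos_of_neg (exp_pos _) hcon
    have h3 : z (a, b) < 0 := lt_of_le_of_lt h1 h2
    by_contra h4
    rw [not_lt] at h4
    have : 0 ≤ z (a, b) := mul_nonneg (exp_pos _).le h4
    linarith
  have hRneg : R a b < 0 := by
    rcases hRab.lt_or_eq with h | h
    · exact h
    · exact absurd (hbd a ha b hb h) (not_le.2 hneg)
  have hat0 : t0 < a := by
    rcases ha.1.lt_or_eq with h | h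
    · exact h
    · subst h
      exact absurd (hinit b hb hRab) (not_le.2 hneg)
  have hmq : ∀ q ∈ Icc 0 π, R a q ≤ 0 → y a b ≤ y a q := by
    intro q hq hRq
    have h1 := hmin' a q ⟨⟨ha, hq⟩, hRq⟩
    exact le_of_mul_le_mul_left h1 (exp_pos _)
  obtain ⟨D, hD, hLD⟩ := hmin a ⟨hat0, ha.2⟩ b hb hRneg hneg hmq
  have hder : HasDerivAt (fun s => exp (-((Lam + 1) * s)) * y s b)
      (exp (-((Lam + 1) * a)) * (-((Lam + 1) * 1)) * y a b + exp (-((Lam + 1) * a)) * D) a :=
    ((((hasDerivAt_id a).const_mul (Lam + 1)).neg).exp).mul hD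
  have hpos : 0 < exp (-((Lam + 1) * a)) * (-((Lam + 1) * 1)) * y a b +
      exp (-((Lam + 1) * a)) * D := by
    have h1 : exp (-((Lam + 1) * a)) * (-((Lam + 1) * 1)) * y a b +
      exp (-((Lam + 1) * a)) * D = exp (-((Lam + 1) * a)) * (D - (Lam + 1) * y a b) := by ring
    rw [h1]
    apply mul_pos (exp_pos _)
    nlinarith
  have hle := deriv_nonpos_of_left hder (by
    have hcont : Tendsto (fun s => R s b) (𝓝[<] a) (𝓝 (R a b)) := by
      have h1 : ContinuousWithinAt (fun s => R s b) (Ioo t0 a) a := by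
        have h2 : ContinuousWithinAt (fun z : ℝ × ℝ => R z.1 z.2) Q (a, b) := hR (a, b) ⟨ha, hb⟩
        have h3 : ContinuousWithinAt (fun s : ℝ => (s, b)) (Ioo t0 a) a :=
          (continuous_id.prodMk continuous_const).continuousWithinAt
        exact ContinuousWithinAt.comp (f := fun s : ℝ => (s, b))
          (g := fun z : ℝ × ℝ => R z.1 z.2) h2 h3
          (fun s hs => ⟨⟨hs.1.le, hs.2.le.trans ha.2⟩, hb⟩)
      rwa [ContinuousWithinAt, nhdsWithin_Ioo_eq_nhdsLT hat0] at h1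
    have hev := (tendsto_order.1 hcont).2 0 hRneg
    filter_upwards [hev, Ioo_mem_nhdsLT hat0] with s hs hsI
    exact hmin' s b ⟨⟨⟨hsI.1.le, hsI.2.le.trans ha.2⟩, hb⟩, hs.le⟩)
  linarith

end Pool.Agent.Lib.MP_c60e08_gt.Lm
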