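import Pool.Agent.Lib.MP_c60e08_gt.LmFlow2

/-!
MP_c60e08_gt, FLOW part, module MpS: strict first touch principle on the region `{R <= 0}`.
-/

namespace Pool.Agent.Lib.MP_c60e08_gt.Lm

open Real Set Filter Topology

namespace MpS

theorem slice {t0 t1 : ℝ} {y : ℝ → ℝ → ℝ} (h : COn t0 t1 y) {q : ℝ} (hq : q ∈ Icc 0 π) :
    ContinuousOn (fun s => y s q) (Icc t0 t1) := by
  have h1 : ContinuousOn (fun s : ℝ => ((s, q) : ℝ × ℝ)) (Icc t0 t1) := by fun_prop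
  exact ContinuousOn.comp (g := fun z : ℝ × ℝ => y z.1 z.2) h h1 (fun s hs => ⟨hs, hq⟩)

theorem tendsto_left {t0 t1 : ℝ} {y : ℝ → ℝ → ℝ} (h : COn t0 t1 y) {q : ℝ}
    (hq : q ∈ Icc 0 π) {t : ℝ} (ht : t ∈ Ioc t0 t1) :
    Tendsto (fun s => y s q) (𝓝[<] t) (𝓝 (y t q)) := by
  have h1 : Icc t0 t1 ∈ 𝓝[<] t :=
    mem_of_superset (Ico_mem_nhdsLT ht.1) (fun s hs => ⟨hs.1, hs.2.le.trans ht.2⟩)
  exact ((slice h hq) t ⟨ht.1.le, ht.2⟩).mono_left (nhdsWithin_le_of_mem h1)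

end MpS

open MpS in
theorem mpSStmt : MpSStmt := by
  intro t0 t1 y R hy hR hinit hbd htouch
  -- the set of bad points is compact
  have hcomp : IsCompact ({z : ℝ × ℝ | z ∈ Icc t0 t1 ×ˢ Icc 0 π ∧ R z.1 z.2 ≤ 0 ∧
      y z.1 z.2 ≤ 0}) := by
    have hK : IsCompact (Icc t0 t1 ×ˢ Icc (0 : ℝ) π) := isCompact_Icc.prod isCompact_Icc
    have h1 : IsClosed ((Icc t0 t1 ×ˢ Icc (0 : ℝ) π) ∩
        (fun z : ℝ × ℝ => R z.1 z.2) ⁻¹' Iic 0) :=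
      hR.preimage_isClosed_of_isClosed hK.isClosed isClosed_Iic
    have h2 : IsClosed ((Icc t0 t1 ×ˢ Icc (0 : ℝ) π) ∩
        (fun z : ℝ × ℝ => y z.1 z.2) ⁻¹' Iic 0) :=
      hy.preimage_isClosed_of_isClosed hK.isClosed isClosed_Iic
    have h3 : {z : ℝ × ℝ | z ∈ Icc t0 t1 ×ˢ Icc 0 π ∧ R z.1 z.2 ≤ 0 ∧ y z.1 z.2 ≤ 0} =
        ((Icc t0 t1 ×ˢ Icc (0 : ℝ) π) ∩ (fun z : ℝ × ℝ => R z.1 z.2) ⁻¹' Iic 0) ∩
        ((Icc t0 t1 ×ˢ Icc (0 : ℝ) π) ∩ (fun z : ℝ × ℝ => y z.1 z.2) ⁻¹' Iic 0) := by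
      ext z
      constructor
      · rintro ⟨a1, a2, a3⟩
        exact ⟨⟨a1, a2⟩, a1, a3⟩
      · rintro ⟨⟨a1, a2⟩, -, a3⟩
        exact ⟨a1, a2, a3⟩
    rw [h3]
    exact hK.of_isClosed_subset (h1.inter h2) (fun z hz => hz.1.1)
  by_contra hcon
  push Not at hcon
  obtain ⟨t', ht', p', hp', hR', hy'⟩ := hcon
  obtain ⟨⟨t, p⟩, ⟨⟨ht, hp⟩, hRt, hyt⟩, hmin⟩ := hcomp.exists_isMinOn
    ⟨(t', p'), ⟨ht', hp'⟩, hR', hy'⟩ continuous_fst.continuousOn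
  simp only at ht hp hRt hyt
  -- positivity before time `t`
  have hbefore : ∀ s ∈ Ico t0 t, ∀ q ∈ Icc 0 π, R s q ≤ 0 → 0 < y s q := by
    intro s hs q hq hRs
    by_contra hneg
    push Not at hneg
    have hmem : ((s, q) : ℝ × ℝ) ∈ {z : ℝ × ℝ | z ∈ Icc t0 t1 ×ˢ Icc 0 π ∧ R z.1 z.2 ≤ 0 ∧
      y z.1 z.2 ≤ 0} := ⟨⟨⟨hs.1, hs.2.le.trans ht.2⟩, hq⟩, hRs, hneg⟩
    have := (isMinOn_iff.1 hmin) (s, q) hmem
    simp only at this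
    exact absurd hs.2 (not_lt.2 this)
  have ht0 : t0 < t := by
    rcases ht.1.eq_or_lt with h | h
    · subst h
      exact absurd (hinit p hp hRt) (not_lt.2 hyt)
    · exact h
  have htI : t ∈ Ioc t0 t1 := ⟨ht0, ht.2⟩
  have hRneg : ∀ q ∈ Icc 0 π, R t q ≤ 0 → y t q ≤ 0 → R t q < 0 := by
    intro q hq h1 h2
    rcases h1.lt_or_eq with h | h
    · exact h
    · exact absurd (hbd t ht q hq h) (not_lt.2 h2)
  have hIco : Ico t0 t ∈ 𝓝[<] t := Ico_mem_nhdsLT ht0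
  have hpre : ∀ q ∈ Icc 0 π, R t q < 0 → ∀ᶠ s in 𝓝[<] t, 0 < y s q := by
    intro q hq hlt
    filter_upwards [hIco, (tendsto_left hR hq htI).eventually (gt_mem_nhds hlt)] with s hs h2
    exact hbefore s hs q hq (le_of_lt h2)
  have hnonneg : ∀ q ∈ Icc 0 π, R t q ≤ 0 → 0 ≤ y t q := by
    intro q hq hRq
    by_contra hneg
    push Not at hneg
    have h1 := hRneg q hq hRq hneg.le
    have h2 := ge_of_tendsto (tendsto_left hy hq htI) ((hpre q hq h1).mono fun s hs => hs.le)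
    exact absurd hneg (not_lt.2 h2)
  have hy0 : y t p = 0 := le_antisymm hyt (hnonneg p hp hRt)
  obtain ⟨D, hD, hDpos⟩ := htouch t htI p hp (hRneg p hp hRt hyt) hy0 hnonneg
  have h1 := (hasDerivAt_iff_tendsto_slope.1 hD).mono_left
    (nhdsWithin_mono t (fun s (hs : s < t) => hs.ne) : 𝓝[<] t ≤ 𝓝[≠] t)
  have h2 := h1.eventually (lt_mem_nhds hDpos)
  obtain ⟨s, hs1, hs2, hs3⟩ :=
    (h2.and ((hpre p hp (hRneg p hp hRt hyt)).and self_mem_nhdsWithin)).exists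
  have hs3' : s < t := hs3
  rw [slope_def_field, hy0, sub_zero] at hs1
  have h3 : s - t < 0 := by linarith
  have h4 := div_neg_of_pos_of_neg hs2 h3
  exact lt_irrefl _ (hs1.trans h4)

end Pool.Agent.Lib.MP_c60e08_gt.Lm
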