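import Pool.Agent.Lib.MP_c60e08_gt.LmFlow2

/-!
MP_c60e08_gt, module Near: geometry of the curve near the origin.
-/

set_option autoImplicit false

namespace Pool.Agent.Lib.MP_c60e08_gt.Lm

open Real Set Filter Topology

namespace Near

theorem mono_of_hasDerivAt {F F' : ℝ → ℝ} {p : ℝ} (hp : 0 ≤ p)
    (h : ∀ q, HasDerivAt F (F' q) q) (h0 : ∀ q ∈ Icc 0 p, 0 ≤ F' q) : F 0 ≤ F p := by
  have hm : MonotoneOn F (Icc 0 p) := by
    apply monotoneOn_of_deriv_nonneg (convex_Icc _ _)
    · exact fun s _ => (h s).continuousAt.continuousWithinAt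
    · exact fun s _ => (h s).differentiableAt.differentiableWithinAt
    · intro s hs
      rw [interior_Icc] at hs
      rw [(h s).deriv]
      exact h0 s ⟨hs.1.le, hs.2.le⟩
  exact hm ⟨le_rfl, hp⟩ ⟨hp, le_rfl⟩ hp

theorem cos_bd {x : ℝ} (h1 : -(1 / 500) ≤ x) (h2 : x ≤ 1 / 80) : 9999 / 10000 ≤ cos x := by
  have h3 := Real.one_sub_sq_div_two_le_cos (x := x)
  have h4 : x ^ 2 ≤ (1 / 80) ^ 2 := by
    apply sq_le_sq'
    · linarith
    · exact h2
  nlinarith

theorem sin_up {x s : ℝ} (h1 : -(1 / 500) ≤ x) (h2 : x ≤ 5 * s) (hs0 : 0 ≤ s)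
    (hs : s ≤ 1 / 400) : sin x ≤ 11 / 2 * s * cos x := by
  have hc := cos_bd h1 (by linarith : x ≤ 1 / 80)
  have hr : 0 ≤ s * (cos x - 9999 / 10000) := mul_nonneg hs0 (by linarith)
  rcases le_or_gt x 0 with h | h
  · have h3 : sin x ≤ 0 := sin_nonpos_of_nonpos_of_neg_pi_le h (by linarith [pi_gt_three])
    nlinarith
  · have h3 : sin x ≤ x := (sin_lt h).le
    nlinarith

theorem sin_low {x b : ℝ} (h1 : -(2 * b) ≤ x) (h2 : x ≤ 1 / 80) (hb0 : 0 < b)
    (hb : b ≤ 1 / 1000) : -(21 / 10 * b * cos x) ≤ sin x := by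
  have hc := cos_bd (by linarith : -(1 / 500) ≤ x) h2
  have hr : 0 ≤ b * (cos x - 9999 / 10000) := mul_nonneg hb0.le (by linarith)
  rcases le_or_gt 0 x with h | h
  · have h3 : 0 ≤ sin x := sin_nonneg_of_nonneg_of_le_pi h (by linarith [pi_gt_three])
    nlinarith
  · have h3 : sin (-x) ≤ -x := (sin_lt (by linarith)).le
    rw [sin_neg] at h3
    nlinarith

theorem abs_sin_bd {x : ℝ} (h1 : -(1 / 500) ≤ x) (h2 : x ≤ 1 / 80) : |sin x| ≤ 1 / 80 := by
  refine (Real.abs_sin_le_abs (x := x)).trans ?_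
  rw [abs_le]
  constructor <;> linarith

end Near

open Near in
theorem nearStmt (h : IdStmt) : NearStmt := by
  intro T W hW t ht b hb hb1 hmono hlow hup p hp hsp
  have hss : ∀ q, 0 ≤ W.ss t q := by
    intro q
    unfold FlowData.ss
    exact Real.rpow_nonneg (hW.upos t ht q).le _
  have hq : ∀ q ∈ Icc 0 p, -(2 * b) ≤ W.th t q ∧ W.th t q ≤ 5 * W.ss t p ∧
      W.th t q ≤ 1 / 80 := by
    intro q hq
    have hqI : q ∈ Icc 0 π := ⟨hq.1, hq.2.trans hp.2⟩
    have h1 := hmono q hqI p hp hq.2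
    have h2 := hup q hqI (h1.trans hsp)
    refine ⟨hlow q hqI, by linarith, by linarith⟩
  have hX0 : W.X t 0 = 0 := hW.X0 t ht
  have hY0 : 0 < W.Y t 0 := hW.tip t ht
  have hg : ∀ q, 0 < W.g t q := hW.gpos t ht
  -- the position `X`
  have hXp : 0 ≤ W.X t p := by
    rw [← hX0]
    refine mono_of_hasDerivAt (F := W.X t) hp.1 (hW.Xp t ht) fun q hqI => ?_
    have hc := cos_bd (by linarith [(hq q hqI).1] : -(1 / 500) ≤ W.th t q) (hq q hqI).2.2
    exact mul_nonneg (hg q).le (by linarith)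
  -- upper bound of `Y`
  have hYu : W.Y t p ≤ W.Y t 0 + 11 / 2 * W.ss t p * W.X t p := by
    have h1 := mono_of_hasDerivAt (F := fun q => 11 / 2 * W.ss t p * W.X t q - W.Y t q) hp.1
      (fun q => ((hW.Xp t ht q).const_mul (11 / 2 * W.ss t p)).sub (hW.Yp t ht q))
      (fun q hqI => by
        have h2 := sin_up (by linarith [(hq q hqI).1] : -(1 / 500) ≤ W.th t q) (hq q hqI).2.1
          (hss p) hsp
        have h3 : 11 / 2 * W.ss t p * (W.g t q * cos (W.th t q)) - W.g t q * sin (W.th t q) =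
            W.g t q * (11 / 2 * W.ss t p * cos (W.th t q) - sin (W.th t q)) := by ring
        rw [h3]
        exact mul_nonneg (hg q).le (by linarith))
    simp only [hX0, mul_zero, zero_sub] at h1
    linarith
  -- lower bound of `Y`
  have hYl : W.Y t 0 - 21 / 10 * b * W.X t p ≤ W.Y t p := by
    have h1 := mono_of_hasDerivAt (F := fun q => 21 / 10 * b * W.X t q + W.Y t q) hp.1
      (fun q => ((hW.Xp t ht q).const_mul (21 / 10 * b)).add (hW.Yp t ht q))
      (fun q hqI => by
        have h2 := sin_low (hq q hqI).1 (hq q hqI).2.2 hb hb1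
        have h3 : 21 / 10 * b * (W.g t q * cos (W.th t q)) + W.g t q * sin (W.th t q) =
            W.g t q * (21 / 10 * b * cos (W.th t q) + sin (W.th t q)) := by ring
        rw [h3]
        exact mul_nonneg (hg q).le (by linarith))
    simp only [hX0, mul_zero, zero_add] at h1
    linarith
  have hpI : p ∈ Icc 0 p := ⟨hp.1, le_rfl⟩
  have hth1 : -(1 / 500) ≤ W.th t p := by linarith [(hq p hpI).1]
  have hth2 : W.th t p ≤ 1 / 80 := (hq p hpI).2.2
  have hc := cos_bd hth1 hth2
  have hs := abs_sin_bd hth1 hth2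
  have hc1 := cos_le_one (W.th t p)
  set X := W.X t p with hXdef
  set Y := W.Y t p with hYdef
  set d := W.Y t 0 with hd
  set sn := sin (W.th t p) with hsn
  set cs := cos (W.th t p) with hcs
  have hsX : W.ss t p * X ≤ 1 / 400 * X := mul_le_mul_of_nonneg_right hsp hXp
  have hbX : b * X ≤ 1 / 1000 * X := mul_le_mul_of_nonneg_right hb1 hXp
  have hYabs : |Y| ≤ d + 11 / 800 * X := by
    rw [abs_le]
    constructor <;> nlinarith
  refine ⟨by linarith, by linarith, hYu, hYl, ?_, ?_⟩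
  · -- rho
    unfold FlowData.rho FlowData.u
    rw [← hXdef, ← hYdef]
    have h1 : Real.sqrt (X ^ 2 + Y ^ 2) ≤ X + |Y| := by
      rw [Real.sqrt_le_left (by positivity)]
      have h2 : Y ^ 2 = |Y| ^ 2 := (sq_abs Y).symm
      rw [h2]
      nlinarith [mul_nonneg hXp (abs_nonneg Y)]
    linarith
  · intro hdX
    have hsn2 := abs_le.1 hs
    have hYs : |Y * sn| ≤ (d + 11 / 800 * X) * (1 / 80) := by
      rw [abs_mul]
      exact mul_le_mul hYabs hs (abs_nonneg _) (by positivity)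
    have hYs2 := abs_le.1 hYs
    constructor
    · have e : W.r t p = X * cs + Y * sn := rfl
      rw [e]
      have h1 : X * (9999 / 10000) ≤ X * cs := mul_le_mul_of_nonneg_left hc hXp
      nlinarith [hYs2.1]
    · have e : W.ze t p = -X * sn + Y * cs := rfl
      rw [e]
      have h1 : |(-X) * sn| ≤ X * (1 / 80) := by
        rw [abs_mul, abs_neg, abs_of_nonneg hXp]
        exact mul_le_mul_of_nonneg_left hs hXp
      have h2 : |Y * cs| ≤ (d + 11 / 800 * X) * 1 := by
        rw [abs_mul]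
        refine mul_le_mul hYabs ?_ (abs_nonneg _) (by positivity)
        rw [abs_of_nonneg (by linarith)]
        exact hc1
      refine (abs_add_le _ _).trans ?_
      linarith

end Pool.Agent.Lib.MP_c60e08_gt.Lm
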