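import Pool.Agent.Lib.MP_c60e08_gt.LmFlow2

/-!
MP_c60e08_gt, FLOW part: if the tip never moves up, its velocity stays negative.
-/

namespace Pool.Agent.Lib.MP_c60e08_gt.Lm

open Real Set Filter Topology

namespace LmNegAll

/-- a limit from the left -/
lemma le_end {φ : ℝ → ℝ} {a : ℝ} (ha : 0 < a) (hφ : ContinuousOn φ (Icc 0 a))
    (h : ∀ s ∈ Ico 0 a, φ s ≤ 0) : φ a ≤ 0 := by
  have h1 : Tendsto φ (𝓝[Ico 0 a] a) (𝓝 (φ a)) :=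
    (hφ a ⟨ha.le, le_rfl⟩).mono Ico_subset_Icc_self
  have : NeBot (𝓝[Ico 0 a] a) := right_nhdsWithin_Ico_neBot ha
  exact le_of_tendsto h1 (eventually_nhdsWithin_of_forall h)

/-- the first zero -/
lemma first {φ : ℝ → ℝ} {a : ℝ} (ha : 0 ≤ a) (hφ : ContinuousOn φ (Icc 0 a))
    (h0 : φ 0 < 0) (h1 : 0 ≤ φ a) :
    ∃ b, 0 < b ∧ b ≤ a ∧ φ b = 0 ∧ ∀ s ∈ Ico 0 b, φ s < 0 := by
  have hcl : IsClosed (Icc 0 a ∩ φ ⁻¹' Ici 0) :=
    hφ.preimage_isClosed_of_isClosed isClosed_Icc isClosed_Ici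
  have hcp : IsCompact (Icc 0 a ∩ φ ⁻¹' Ici 0) :=
    isCompact_Icc.of_isClosed_subset hcl inter_subset_left
  obtain ⟨b, hb, hbl⟩ := hcp.exists_isLeast ⟨a, ⟨ha, le_rfl⟩, h1⟩
  have hb0 : 0 < b := by
    rcases hb.1.1.lt_or_eq with h | h
    · exact h
    · exfalso
      have h2 : 0 ≤ φ b := hb.2
      rw [← h] at h2
      linarith
  have hlt : ∀ s ∈ Ico 0 b, φ s < 0 := by
    intro s hs
    by_contra hc
    push Not at hc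
    have := hbl ⟨⟨hs.1, hs.2.le.trans hb.1.2⟩, hc⟩
    exact absurd hs.2 (not_lt.mpr this)
  have hb2 : φ b ≤ 0 := le_end hb0 (hφ.mono (Icc_subset_Icc_right hb.1.2))
    (fun s hs => (hlt s hs).le)
  exact ⟨b, hb0, hb.1.2, le_antisymm hb2 hb.2, hlt⟩

end LmNegAll

theorem negAllStmt (h1 : GoodStmt) (h2 : TurnStmt) : NegAllStmt := by
  obtain ⟨b2, hb2, hgood⟩ := h1
  refine ⟨b2, hb2, ?_⟩
  intro b hb hbb C3 T W hW hI hmono t ht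
  by_contra hc
  push Not at hc
  have hv : ContinuousOn (fun s => W.v s 0) (Icc 0 t) := by
    have e1 : ContinuousOn (fun s : ℝ => ((s, 0) : ℝ × ℝ)) (Icc 0 t) := by fun_prop
    exact hW.cv.comp e1 (fun s hs => ⟨⟨hs.1, hs.2.trans_lt ht.2⟩, trivial⟩)
  obtain ⟨tv, htv0, htvt, hz, hneg⟩ := LmNegAll.first ht.1 hv hI.vtip hc
  have htvT : tv < T := htvt.trans_lt ht.2
  obtain ⟨-, ⟨δ, hδ, hom⟩, -⟩ := hgood b hb hbb C3 T W hW hI tv ⟨htv0.le, htvT⟩ hneg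
  obtain ⟨t2, ht2, hY⟩ := h2 T W hW tv ⟨htv0, htvT⟩ δ hδ hz
    (fun p hp => (hom tv ⟨htv0.le, le_rfl⟩ p hp).1)
  exact absurd hY (not_lt.mpr (hmono tv t2 htv0.le ht2.1 ht2.2))

end Pool.Agent.Lib.MP_c60e08_gt.Lm
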