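import Pool.Agent.Lib.MP_c60e08_gt.LmFlow2

/-!
MP_c60e08_gt: where `v` is nonpositive, it is nonpositive before and `ze` is nondecreasing.
-/

namespace Pool.Agent.Lib.MP_c60e08_gt.Lm

open Real Set Filter Topology

namespace NoCommon

/-- `v / r` is nondecreasing on `(0,π)`. -/
lemma vr_mono (h : IdStmt) (T : ℝ) (W : FlowData) (hW : IsFlow T W) (t : ℝ) (ht : t ∈ Ico 0 T)
    (hr : ∀ p ∈ Ioo 0 π, 0 < W.r t p) (hom : ∀ p ∈ Icc 0 π, 0 ≤ W.om1 t p) :
    MonotoneOn (fun p => W.v t p / W.r t p) (Ioo 0 π) := by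
  have hd : ∀ p ∈ Ioo 0 π, HasDerivAt (fun p => W.v t p / W.r t p)
      (W.g t p * W.om1 t p / W.r t p ^ 2) p := by
    intro p hp
    have h1 := hW.vp t ht p
    obtain ⟨-, -, -, -, -, -, -, -, -, -, -, -, -, h2, -⟩ := (h T W hW).1 t ht p
    have h3 := h1.div h2 (hr p hp).ne'
    refine h3.congr_deriv ?_
    unfold FlowData.om1 FlowData.r1
    congr 1
    ring
  apply monotoneOn_of_deriv_nonneg (convex_Ioo 0 π)
  · exact fun p hp => (hd p hp).continuousAt.continuousWithinAt
  · rw [interior_Ioo]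
    exact fun p hp => (hd p hp).differentiableAt.differentiableWithinAt
  · rw [interior_Ioo]
    intro p hp
    rw [(hd p hp).deriv]
    have h1 := hW.gpos t ht p
    have h2 := hom p ⟨hp.1.le, hp.2.le⟩
    have h3 := hr p hp
    positivity

end NoCommon

theorem noCommonStmt (h : IdStmt) : NoCommonStmt := by
  intro T W hW t ht hr hom p hp hv
  have hX0 := hW.X0 t ht
  have hth0 := hW.th0 t ht
  have hze0 : W.ze t 0 = W.Y t 0 := by
    unfold FlowData.ze
    rw [hX0, hth0]
    simp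
  have hr0 : W.r t 0 = 0 := by
    unfold FlowData.r
    rw [hX0, hth0]
    simp
  -- the sign of `v`
  have hvq : ∀ q ∈ Icc 0 p, W.v t q ≤ 0 := by
    rcases hp.1.eq_or_lt with hp0 | hp0
    · intro q hq
      have : q = p := le_antisymm hq.2 (by rw [← hp0]; exact hq.1)
      rw [this]
      exact hv
    · have h1 : ∀ q ∈ Ioc 0 p, W.v t q ≤ 0 := by
        intro q hq
        have hqI : q ∈ Ioo 0 π := ⟨hq.1, lt_of_le_of_lt hq.2 hp.2⟩
        have hpI : p ∈ Ioo 0 π := ⟨hp0, hp.2⟩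
        have h2 := NoCommon.vr_mono h T W hW t ht hr hom hqI hpI hq.2
        have h3 : W.v t p / W.r t p ≤ 0 := div_nonpos_of_nonpos_of_nonneg hv (hr p hpI).le
        have h4 : W.v t q / W.r t q ≤ 0 := le_trans h2 h3
        have h5 := hr q hqI
        rw [div_le_iff₀ h5, zero_mul] at h4
        exact h4
      intro q hq
      rcases hq.1.eq_or_lt with hq0 | hq0
      · have hc : ContinuousAt (W.v t) 0 := (hW.vp t ht 0).continuousAt
        have h2 : Tendsto (W.v t) (𝓝[>] 0) (𝓝 (W.v t 0)) := hc.tendsto.mono_left nhdsWithin_le_nhds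
        rw [← hq0]
        refine le_of_tendsto h2 ?_
        filter_upwards [Ioc_mem_nhdsGT hp0] with s hs
        exact h1 s hs
      · exact h1 q ⟨hq0, hq.2⟩
  have hrq : ∀ q ∈ Icc 0 p, 0 ≤ W.r t q := by
    intro q hq
    rcases hq.1.eq_or_lt with hq0 | hq0
    · rw [← hq0, hr0]
    · exact (hr q ⟨hq0, lt_of_le_of_lt hq.2 hp.2⟩).le
  -- monotonicity of `ze`
  have hd : ∀ q, HasDerivAt (W.ze t) (W.g t q * W.z1 t q) q := by
    intro q
    obtain ⟨-, -, -, -, -, -, -, -, -, -, -, -, -, -, h2, -⟩ := (h T W hW).1 t ht q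
    exact h2
  have hmono : MonotoneOn (W.ze t) (Icc 0 p) := by
    apply monotoneOn_of_deriv_nonneg (convex_Icc 0 p)
    · exact fun q _ => (hd q).continuousAt.continuousWithinAt
    · exact fun q _ => (hd q).differentiableAt.differentiableWithinAt
    · intro q hq
      have hq' : q ∈ Icc 0 p := interior_subset hq
      rw [(hd q).deriv]
      obtain ⟨-, -, hf, -⟩ := (h T W hW).1 t ht q
      have hg := hW.gpos t ht q
      have h1 : W.kap t q ≤ 0 := div_nonpos_of_nonpos_of_nonneg (hvq q hq') hf.le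
      have h2 := mul_nonneg_of_nonpos_of_nonpos h1 (neg_nonpos.mpr (hrq q hq'))
      have h3 : W.z1 t q = W.kap t q * -W.r t q := by
        unfold FlowData.z1
        ring
      rw [h3]
      exact mul_nonneg hg.le h2
  intro q hq
  refine ⟨hvq q hq, hmono hq ⟨hp.1, le_rfl⟩ hq.2, ?_⟩
  rw [← hze0]
  exact hmono ⟨le_rfl, hp.1⟩ hq hq.1

end Pool.Agent.Lib.MP_c60e08_gt.Lm
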