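import Pool.Agent.Lib.MP_c60e08_gt.LmFlow2

/-!
MP_c60e08_gt, FLOW part, module OneB: the flow with parameter `l = 1` moves up.
-/

namespace Pool.Agent.Lib.MP_c60e08_gt.Lm

open Real Set Filter Topology

namespace OneB

/-- at the tip `rho = Y` -/
theorem rho_tip {T : ℝ} {W : FlowData} (hW : IsFlow T W) {t : ℝ} (ht : t ∈ Ico 0 T) :
    W.rho t 0 = W.Y t 0 := by
  unfold FlowData.rho FlowData.u
  rw [hW.X0 t ht]
  have h := hW.tip t ht
  rw [zero_pow (by norm_num), zero_add, Real.sqrt_sq h.le]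

/-- the lower barrier keeps the tip away from the origin for times below `10 b` -/
theorem tip_low (h4 : LBarStmt) {b T : ℝ} {W : FlowData} (hW : IsFlow T W) (hb : 0 < b)
    (hb' : b ≤ 1 / 50) (hT : T ≤ 10 * b)
    (hlow : ∀ p ∈ Icc 0 π, 150 * b ^ 3 - b * W.rho 0 p ≤ W.Y 0 p) :
    ∀ t ∈ Ico 0 T, 4 * b ^ 3 ≤ W.Y t 0 := by
  intro t ht
  have hb3 : 0 < b ^ 3 := pow_pos hb 3
  have hT0 : (0 : ℝ) ∈ Ico 0 T := ⟨le_rfl, hW.Tpos⟩
  have hbt : b * t ≤ 10 * b ^ 2 := by nlinarith [ht.1, ht.2]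
  have hb2 : 0 < b ^ 2 := pow_pos hb 2
  have h := h4 T W hW 0 hT0 b (53 / 10 * b) hb hb' (by positivity) (fun p hp => by
    have := hlow p hp
    nlinarith) t ht (by nlinarith) 0 ⟨le_rfl, Real.pi_pos.le⟩
  rw [rho_tip hW ht] at h
  have hs : 2 * b ≤ √((53 / 10 * b) ^ 2 - 11 / 5 * b * (t - 0)) := by
    apply Real.le_sqrt_of_sq_le
    nlinarith
  have hs3 : (2 * b) ^ 3 ≤ √((53 / 10 * b) ^ 2 - 11 / 5 * b * (t - 0)) ^ 3 :=
    pow_le_pow_left₀ (by positivity) hs 3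
  have hY := hW.tip t ht
  nlinarith

end OneB

open OneB in
theorem oneBStmt (h1 : NegAllStmt) (h2 : StdOfStmt) (h3 : BlowStmt) (h4 : LBarStmt)
    (_h5 : IdStmt) : OneBStmt := by
  obtain ⟨bn, hbn, hneg⟩ := h1
  obtain ⟨bs, hbs, hstd⟩ := h2
  obtain ⟨bb, hbb, hblow⟩ := h3
  refine ⟨min (min bn bs) (min bb (1 / 50)), by positivity, ?_⟩
  intro b C3 Tt yy hb hb5 hfam hlow
  have hb1 : b ≤ bn := hb5.trans ((min_le_left _ _).trans (min_le_left _ _))
  have hb2 : b ≤ bs := hb5.trans ((min_le_left _ _).trans (min_le_right _ _))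
  have hb3 : b ≤ bb := hb5.trans ((min_le_right _ _).trans (min_le_left _ _))
  have hb4 : b ≤ 1 / 50 := hb5.trans ((min_le_right _ _).trans (min_le_right _ _))
  by_contra hcon
  push Not at hcon
  have hW := hfam.flow 1
  have hI := hfam.init 1
  have hv := hneg b hb hb1 C3 (Tt 1) (flowOf (yy 1)) hW hI hcon
  have hS := hstd b hb hb2 C3 (Tt 1) (flowOf (yy 1)) hW hI hv
  have hT1 : Tt 1 ≠ 1 := by
    have := hS.Tle
    intro h
    rw [h] at this
    linarith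
  have hmax := (hfam.max 1).resolve_left hT1
  obtain ⟨t, ht, hlt⟩ := hblow b C3 (Tt 1) (yy 1) hb3 (hfam.sol 1) hS hI hmax (4 * b ^ 3)
    (by positivity)
  exact absurd (tip_low h4 hW hb hb4 hS.Tle hlow t ht) (not_le.2 hlt)

end Pool.Agent.Lib.MP_c60e08_gt.Lm
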