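import Pool.Agent.Lib.MP_c60e08_gt.LmFlow2

/-!
MP_c60e08_gt, FLOW part, module OpenB: moving up is an open condition.
-/

namespace Pool.Agent.Lib.MP_c60e08_gt.Lm.OpenB

open Real Set Filter Topology

lemma tip_lt_iff (y z : ℕ → ℝ → ℝ → ℝ) (t s : ℝ) :
    (flowOf y).Y t 0 < (flowOf z).Y s 0 ↔ z 0 s 0 < y 0 t 0 := by
  simp only [flowOf, cos_zero, mul_one, sub_lt_sub_iff_left, exp_lt_exp]

end Pool.Agent.Lib.MP_c60e08_gt.Lm.OpenB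

namespace Pool.Agent.Lib.MP_c60e08_gt.Lm

open Real Set Filter Topology
open OpenB

theorem openBStmt : OpenBStmt := by
  intro b C3 Tt yy hF
  rw [Metric.isOpen_iff]
  rintro l0 ⟨t1, t2, ht1, ht12, ht2, hlt⟩
  rw [tip_lt_iff] at hlt
  obtain ⟨δ, hδ, h⟩ := hF.stab l0 t2 ⟨ht1.trans ht12.le, ht2⟩
    ((yy l0 0 t1 0 - yy l0 0 t2 0) / 2) (by linarith)
  refine ⟨δ, hδ, fun l hl => ?_⟩
  rw [Metric.mem_ball, Real.dist_eq] at hl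
  obtain ⟨hT, hy⟩ := h l hl
  refine ⟨t1, t2, ht1, ht12, hT, ?_⟩
  rw [tip_lt_iff]
  have h1 := abs_lt.1 (hy t1 ⟨ht1, ht12.le⟩ 0)
  have h2 := abs_lt.1 (hy t2 ⟨ht1.trans ht12.le, le_refl _⟩ 0)
  linarith [h1.1, h2.2]

end Pool.Agent.Lib.MP_c60e08_gt.Lm
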