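import Pool.Agent.Lib.MP_c60e08_gt.LmFlow2

/-!
Module OpenU: being under a pinching barrier at some time is an open condition in the family.
-/

namespace Pool.Agent.Lib.MP_c60e08_gt.Lm

open Real Set Filter Topology

namespace OpenU

/-- `|w|^2` as a function of `(p, a)` -/
noncomputable def uf (z : ℝ × ℝ) : ℝ := (exp z.2 * sin z.1) ^ 2 + (1 - exp z.2 * cos z.1) ^ 2

lemma cont_uf : Continuous uf := by
  unfold uf
  fun_prop

lemma cont_barr (e b : ℝ) : Continuous (fun u : ℝ => barr e b u) := by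
  have h : Continuous (fun u : ℝ => u ^ ((1 : ℝ) / 3)) :=
    continuous_id.rpow_const (fun x => Or.inr (by norm_num))
  unfold barr
  exact (((continuous_const.sub (continuous_const.mul continuous_sqrt)).add
    (continuous_const.mul h)).add ((continuous_const.mul continuous_sqrt).mul h))

/-- the triple `(rho, barr - Y, Y)` -/
noncomputable def pf (e b : ℝ) (z : ℝ × ℝ) : ℝ × ℝ × ℝ :=
  (√(uf z), barr e b (uf z) - (1 - exp z.2 * cos z.1), 1 - exp z.2 * cos z.1)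

lemma cont_pf (e b : ℝ) : Continuous (pf e b) := by
  unfold pf
  have h1 := (cont_barr e b).comp cont_uf
  have h2 : Continuous (fun z : ℝ × ℝ => 1 - exp z.2 * cos z.1) := by fun_prop
  exact (cont_uf.sqrt).prodMk ((h1.sub h2).prodMk h2)

end OpenU

open OpenU in
theorem openUStmt : OpenUStmt := by
  intro b C3 Tt yy hM
  rw [Metric.isOpen_iff]
  rintro l0 ⟨t0, ht0, e, b', he, heb, hb', hY0, η, hη, hU⟩
  -- bound of the solution
  have hc : ContinuousOn (fun p => yy l0 0 t0 p) (Icc 0 π) := by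
    have h1 := (hM.sol l0).cont 0
    have h2 : ContinuousOn (fun p : ℝ => ((t0, p) : ℝ × ℝ)) (Icc 0 π) := by fun_prop
    exact h1.comp h2 (fun p _ => ⟨ht0, mem_univ _⟩)
  obtain ⟨M, hMb⟩ := isCompact_Icc.exists_bound_of_continuousOn hc
  have hK : IsCompact (Icc (0 : ℝ) π ×ˢ Icc (-(M + 1)) (M + 1)) := isCompact_Icc.prod isCompact_Icc
  have huc := hK.uniformContinuousOn_of_continuous (cont_pf e b').continuousOn
  rw [Metric.uniformContinuousOn_iff] at huc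
  obtain ⟨δ', hδ', hd⟩ := huc (min (η / 2) (1 / 8000 - (flowOf (yy l0)).Y t0 0))
    (lt_min (by linarith) (by linarith))
  obtain ⟨δ, hδ, hs⟩ := hM.stab l0 t0 ht0 (min δ' 1) (lt_min hδ' one_pos)
  refine ⟨δ, hδ, ?_⟩
  intro l hl
  rw [Metric.mem_ball, Real.dist_eq] at hl
  obtain ⟨ht, hclose⟩ := hs l hl
  have main : ∀ p ∈ Icc (0 : ℝ) π,
      (flowOf (yy l0)).rho t0 p < (flowOf (yy l)).rho t0 p + η / 2 ∧
      barr e b' ((flowOf (yy l0)).u t0 p) - (flowOf (yy l0)).Y t0 p - η / 2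
        < barr e b' ((flowOf (yy l)).u t0 p) - (flowOf (yy l)).Y t0 p ∧
      (flowOf (yy l)).Y t0 p - (flowOf (yy l0)).Y t0 p < 1 / 8000 - (flowOf (yy l0)).Y t0 0 := by
   intro p hp
   have h1 := hclose t0 ⟨ht0.1, le_rfl⟩ p
   have h2 : |yy l0 0 t0 p| ≤ M := by
     have := hMb p hp
     rwa [Real.norm_eq_abs] at this
   have h3 : |yy l 0 t0 p - yy l0 0 t0 p| < 1 := lt_of_lt_of_le h1 (min_le_right _ _)
   have h4 : |yy l 0 t0 p - yy l0 0 t0 p| < δ' := lt_of_lt_of_le h1 (min_le_left _ _)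
   have hm1 : (p, yy l 0 t0 p) ∈ Icc (0 : ℝ) π ×ˢ Icc (-(M + 1)) (M + 1) := by
     refine ⟨hp, ?_, ?_⟩ <;> rw [abs_lt] at h3 <;> rw [abs_le] at h2 <;> simp only <;> linarith [h2.1, h2.2, h3.1, h3.2]
   have hm2 : (p, yy l0 0 t0 p) ∈ Icc (0 : ℝ) π ×ˢ Icc (-(M + 1)) (M + 1) := by
     refine ⟨hp, ?_, ?_⟩ <;> rw [abs_le] at h2 <;> simp only <;> linarith [h2.1, h2.2]
   have h5 := hd _ hm1 _ hm2 (by
     rw [Prod.dist_eq]
     simp only [dist_self]
     rw [Real.dist_eq]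
     exact max_lt hδ' h4)
   rw [Prod.dist_eq, max_lt_iff, Prod.dist_eq, max_lt_iff, Real.dist_eq, Real.dist_eq,
     Real.dist_eq] at h5
   obtain ⟨h6, h7, h8⟩ := h5
   have h6' := lt_of_lt_of_le h6 (min_le_left _ _)
   have h7' := lt_of_lt_of_le h7 (min_le_left _ _)
   have h8' := lt_of_lt_of_le h8 (min_le_right _ _)
   rw [abs_lt] at h6' h7' h8'
   have e1 : (pf e b' (p, yy l 0 t0 p)).1 = (flowOf (yy l)).rho t0 p := rfl
   have e2 : (pf e b' (p, yy l0 0 t0 p)).1 = (flowOf (yy l0)).rho t0 p := rfl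
   have e3 : (pf e b' (p, yy l 0 t0 p)).2.1
     = barr e b' ((flowOf (yy l)).u t0 p) - (flowOf (yy l)).Y t0 p := rfl
   have e4 : (pf e b' (p, yy l0 0 t0 p)).2.1
     = barr e b' ((flowOf (yy l0)).u t0 p) - (flowOf (yy l0)).Y t0 p := rfl
   have e5 : (pf e b' (p, yy l 0 t0 p)).2.2 = (flowOf (yy l)).Y t0 p := rfl
   have e6 : (pf e b' (p, yy l0 0 t0 p)).2.2 = (flowOf (yy l0)).Y t0 p := rfl
   rw [e1, e2] at h6'
   rw [e3, e4] at h7'
   rw [e5, e6] at h8'
   exact ⟨by linarith [h6'.1], by linarith [h7'.1], h8'.2⟩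
  refine ⟨t0, ⟨ht0.1, ht⟩, e, b', he, heb, hb', ?_, η / 2, by linarith, ?_⟩
  · have := (main 0 ⟨le_rfl, pi_pos.le⟩).2.2
    linarith
  · intro p hp hrho
    obtain ⟨h1, h2, -⟩ := main p hp
    have h8 := hU p hp (by linarith)
    linarith

end Pool.Agent.Lib.MP_c60e08_gt.Lm
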