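import Pool.Agent.Lib.MP_c60e08_gt.LmFlow2

set_option autoImplicit false

/-!
Module PCIneq: the pinching barrier is a strict supersolution (pure inequality).
-/

namespace Pool.Agent.Lib.MP_c60e08_gt.Lm

open Real Set

theorem pCIneqStmt : PCIneqStmt := by
  intro e b q F G z D he hbe hb hq hq' hFq hFabs hG hz hD
  obtain ⟨r, hr⟩ : ∃ r, r = e / q := ⟨_, rfl⟩
  have hr0 : 0 < r := by rw [hr]; exact div_pos he hq
  have her : e = r * q := by rw [hr]; field_simp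
  have he5 : e ≤ 1 / 100000 := by linarith
  have hq3 : 0 < q ^ 3 := by positivity
  -- formulas
  have hF : F = r ^ 3 - b + 10 * (e * r) + 7 * q ^ 2 := by
    have h : F * q ^ 3 = (r ^ 3 - b + 10 * (e * r) + 7 * q ^ 2) * q ^ 3 := by
      rw [hFq, her]; ring
    exact mul_right_cancel₀ hq3.ne' h
  have hG' : G = -b + 20 / 3 * (e * r) + 35 / 3 * q ^ 2 := by
    rw [hG, hr]; field_simp
  have hz' : z = r ^ 3 + 10 / 3 * (e * r) - 14 / 3 * q ^ 2 := by
    rw [hz, hF, hG']; ring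
  obtain ⟨hF1, hF2⟩ := abs_le.mp hFabs
  have hs0 : 0 < e * r := mul_pos he hr0
  have hq2 : q ^ 2 ≤ 1 / 400 := by
    have : q ^ 2 ≤ (1 / 20) ^ 2 := pow_le_pow_left₀ hq.le hq' 2
    linarith [this]
  have hq20 : 0 < q ^ 2 := by positivity
  have hr3 : r ^ 3 ≤ 1 + 1 / 1000 := by linarith
  have hr1 : r ≤ 1001 / 1000 := by
    by_contra h
    push Not at h
    have : (1001 / 1000 : ℝ) ^ 3 < r ^ 3 := pow_lt_pow_left₀ h (by norm_num) (by norm_num)
    linarith [this]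
  have hs1 : e * r ≤ 2 / 100000 := by
    calc e * r ≤ (1 / 100000) * (1001 / 1000) := mul_le_mul he5 hr1 hr0.le (by norm_num)
      _ ≤ 2 / 100000 := by norm_num
  have hr30 : 0 < r ^ 3 := by positivity
  have hb0 : 0 < b := by linarith
  -- bounds for G, D, z
  have hGl : -(1 / 1000) ≤ G := by rw [hG']; linarith
  have hGu : G ≤ 3 / 100 := by rw [hG']; linarith
  have hFG : |F * G| ≤ 3 / 100 := by
    rw [abs_mul]
    have h1 : |G| ≤ 3 / 100 := abs_le.mpr ⟨by linarith, hGu⟩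
    calc |F| * |G| ≤ 1 * (3 / 100) := mul_le_mul hFabs h1 (abs_nonneg _) (by norm_num)
      _ = 3 / 100 := by norm_num
  obtain ⟨hFG1, hFG2⟩ := abs_le.mp hFG
  have hG2 : G ^ 2 ≤ 1 / 1000 := by
    have : G ^ 2 ≤ (3 / 100) ^ 2 := by
      apply sq_le_sq' <;> linarith
    linarith [this]
  have hG20 : 0 ≤ G ^ 2 := sq_nonneg G
  have hDl : 94 / 100 ≤ D := by rw [hD]; nlinarith
  have hDu : D ≤ 1061 / 1000 := by rw [hD]; nlinarith
  have hzu : z ≤ 1002 / 1000 := by rw [hz']; linarith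
  have hzl : -(12 / 1000) ≤ z := by rw [hz']; linarith
  have hz2 : z ^ 2 ≤ 101 / 100 := by
    have : z ^ 2 ≤ (1002 / 1000) ^ 2 := by
      apply sq_le_sq' <;> linarith
    linarith [this]
  have hz20 : 0 ≤ z ^ 2 := sq_nonneg z
  have hF20 : 0 ≤ F ^ 2 := sq_nonneg F
  have hF21 : F ^ 2 ≤ 1 := by
    have : F ^ 2 ≤ 1 ^ 2 := by apply sq_le_sq' <;> linarith
    linarith [this]
  have he2 : 0 < e ^ 2 := by positivity
  -- `q * e ≥ e^2 / 1.001`
  have heq : e ≤ 1001 / 1000 * q := by rw [her]; exact mul_le_mul_of_nonneg_right hr1 hq.le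
  have heq2 : 20 * e * q ^ 2 ≤ 21 * q ^ 3 := by
    have h1 : e * q ^ 2 ≤ 1001 / 1000 * q * q ^ 2 := mul_le_mul_of_nonneg_right heq hq20.le
    have h2 : (1001 / 1000 : ℝ) * q * q ^ 2 = 1001 / 1000 * q ^ 3 := by ring
    linarith
  have hbq : 359 * e ^ 2 ≤ 3 * (b * q) := by
    have h1 : e ^ 2 ≤ 1001 / 1000 * (e * q) := by
      calc e ^ 2 = e * e := by ring
        _ ≤ e * (1001 / 1000 * q) := mul_le_mul_of_nonneg_left heq he.le
        _ = 1001 / 1000 * (e * q) := by ring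
    have h2 : 120 * e * q ≤ b * q := mul_le_mul_of_nonneg_right hbe hq.le
    have h3 : 0 < e * q := mul_pos he hq
    nlinarith
  -- right side
  have hR : -(3 * (1061 / 1000)) * e ^ 2 + (94 - 21 * (1061 / 1000)) * q ^ 3 ≤
      (-(3 * e ^ 2) + 100 * q ^ 3 - 20 * e * q ^ 2) * D := by
    have h1 : 3 * e ^ 2 * D ≤ 3 * e ^ 2 * (1061 / 1000) :=
      mul_le_mul_of_nonneg_left hDu (by positivity)
    have h2 : 100 * q ^ 3 * (94 / 100) ≤ 100 * q ^ 3 * D :=
      mul_le_mul_of_nonneg_left hDl (by positivity)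
    have h3 : 20 * e * q ^ 2 * D ≤ 21 * q ^ 3 * (1061 / 1000) :=
      mul_le_mul heq2 hDu (by linarith) (by positivity)
    nlinarith
  -- left side, `q^3` part
  have hL1 : 70 / 3 * q ^ 3 * (1 - F ^ 2) ≤ 70 / 3 * q ^ 3 := by
    have : 70 / 3 * q ^ 3 * (1 - F ^ 2) ≤ 70 / 3 * q ^ 3 * 1 :=
      mul_le_mul_of_nonneg_left (by linarith) (by positivity)
    linarith
  have hL2 : 35 * q ^ 3 * z ^ 2 ≤ 35 * q ^ 3 * (101 / 100) :=
    mul_le_mul_of_nonneg_left hz2 (by positivity)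
  have hkey : 32 / 10 * e ^ 2 < 20 / 3 * e ^ 2 * (1 - F ^ 2) + (3 * (b * q) - 20 * e ^ 2) * z ^ 2 := by
    by_cases hmu : r ^ 3 ≤ 1 / 4
    · have hFu : F ≤ 3 / 10 := by rw [hF]; linarith
      have hFl : -(3 / 10) ≤ F := by rw [hF]; linarith
      have hF2' : F ^ 2 ≤ 9 / 100 := by
        have : F ^ 2 ≤ (3 / 10) ^ 2 := by apply sq_le_sq' <;> linarith
        linarith [this]
      have hzu' : z ≤ 26 / 100 := by rw [hz']; linarith
      have hz2' : z ^ 2 ≤ 7 / 100 := by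
        have : z ^ 2 ≤ (26 / 100) ^ 2 := by apply sq_le_sq' <;> linarith
        linarith [this]
      have h1 : 20 / 3 * e ^ 2 * (91 / 100) ≤ 20 / 3 * e ^ 2 * (1 - F ^ 2) :=
        mul_le_mul_of_nonneg_left (by linarith) (by positivity)
      have h2 : 0 ≤ (3 * (b * q) - 20 * e ^ 2) * z ^ 2 :=
        mul_nonneg (by linarith) hz20
      linarith
    · push Not at hmu
      have hr6 : 62 / 100 ≤ r := by
        by_contra h
        push Not at h
        have : r ^ 3 < (62 / 100 : ℝ) ^ 3 := pow_lt_pow_left₀ h hr0.le (by norm_num)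
        have h' : ((62 / 100 : ℝ)) ^ 3 < 1 / 4 := by norm_num
        linarith
      have hqe : q ≤ 2 * e := by
        rw [her]
        nlinarith
      have hq5 : q ^ 2 ≤ 1 / 1000 := by
        have h1 : q ≤ 2 / 100000 := by linarith
        have : q ^ 2 ≤ (2 / 100000) ^ 2 := pow_le_pow_left₀ hq.le h1 2
        linarith [this]
      have hzl' : 24 / 100 ≤ z := by rw [hz']; linarith
      have hz2' : 5 / 100 ≤ z ^ 2 := by
        have : (24 / 100 : ℝ) ^ 2 ≤ z ^ 2 := pow_le_pow_left₀ (by norm_num) hzl' 2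
        linarith [this]
      have h1 : 0 ≤ 20 / 3 * e ^ 2 * (1 - F ^ 2) :=
        mul_nonneg (by positivity) (by linarith)
      have h2 : 339 * e ^ 2 * (5 / 100) ≤ (3 * (b * q) - 20 * e ^ 2) * z ^ 2 :=
        mul_le_mul (by linarith) hz2' (by norm_num) (by linarith)
      linarith
  refine ⟨by linarith, ?_⟩
  have hsplit : (-(20 / 3) * e ^ 2 + 70 / 3 * q ^ 3) * (1 - F ^ 2)
      + (-(3 * b * q) + 20 * e ^ 2 + 35 * q ^ 3) * z ^ 2 =
      -(20 / 3 * e ^ 2 * (1 - F ^ 2) + (3 * (b * q) - 20 * e ^ 2) * z ^ 2)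
        + 70 / 3 * q ^ 3 * (1 - F ^ 2) + 35 * q ^ 3 * z ^ 2 := by ring
  rw [hsplit]
  refine lt_of_lt_of_le ?_ hR
  linarith

end Pool.Agent.Lib.MP_c60e08_gt.Lm
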