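import Pool.Agent.Lib.MP_c60e08_gt.LmFlow2

/-!
MP_c60e08_gt, FLOW part: module PCcomp (comparison with the moving pinching barrier).
-/

namespace Pool.Agent.Lib.MP_c60e08_gt.Lm.PCcomp

open Real Set Filter Topology
open Pool.Agent.Lib.MP_c60e08_gt.Lm

/-- the comparison function -/
noncomputable def yy (W : FlowData) (t0 e b' t p : ℝ) : ℝ :=
  (e - (t - t0)) ^ 3 - (b' - 100 * (t - t0)) * W.rho t p + 10 * (e - (t - t0)) ^ 2 * W.ss t p
    + 7 * W.rho t p * W.ss t p - W.Y t p

/-- the radial derivative of the barrier -/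
noncomputable def GG (W : FlowData) (t0 e b' t p : ℝ) : ℝ :=
  -(b' - 100 * (t - t0)) + 20 * (e - (t - t0)) ^ 2 * W.rho t p / W.f t p + 7 * W.ss t p
    + 14 * W.rho t p ^ 2 / W.f t p

theorem yy_eq (W : FlowData) (t0 e b' t p : ℝ) :
    yy W t0 e b' t p = barr (e - (t - t0)) (b' - 100 * (t - t0)) (W.u t p) - W.Y t p := by
  unfold yy barr FlowData.rho FlowData.ss
  ring

/-- the algebra at a touching point -/
theorem alg (h3 : ContactStmt) (h4 : PCIneqStmt) (e b f u rho ss r ze X Y v kap C S G q : ℝ)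
    (he : 0 < e) (heb : 120 * e ≤ b) (hb : b ≤ 1 / 1000) (hq : 0 < q) (hq1 : q ≤ 1 / 20)
    (hss : ss = q ^ 2) (hrho : rho = q ^ 3) (hf : f = 3 * q ^ 4)
    (hr : r ^ 2 + ze ^ 2 = rho ^ 2) (hCS : C ^ 2 + S ^ 2 = 1)
    (hX : X = r * C - ze * S) (hY : Y = r * S + ze * C) (hXY : X ^ 2 + Y ^ 2 = rho ^ 2)
    (hYle : |Y| ≤ rho) (hv : v = f * kap)
    (hG : G = -b + 20 * e ^ 2 * rho / f + 7 * ss + 14 * rho ^ 2 / f)
    (htouch : Y = e ^ 3 - b * rho + 10 * e ^ 2 * ss + 7 * rho * ss)
    (hk : G * r / rho - S = 0)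
    (hk2 : 0 ≤ (-(20 / 3) * e ^ 2 + 70 / 3 * rho) / f * r ^ 2 / rho ^ 2
      + G * ((1 + kap * ze) / rho - r ^ 2 / rho ^ 3) - kap * C) :
    0 < -3 * e ^ 2 + 100 * rho - 20 * e * ss + G * ze * v / rho - v * C := by
  have hrho0 : 0 < rho := by rw [hrho]; positivity
  have hf0 : 0 < f := by rw [hf]; positivity
  have hS : S = G * r / rho := by linarith
  obtain ⟨c1, c2⟩ := h3 rho G r ze C S X Y hrho0 hr hCS hX hY hS
  -- the pure inequality
  have hF : Y / rho * q ^ 3 = e ^ 3 - b * q ^ 3 + 10 * e ^ 2 * q ^ 2 + 7 * q ^ 5 := by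
    rw [← hrho]
    have : Y / rho * rho = Y := by field_simp
    rw [this, htouch, hss, hrho]; ring
  have hFle : |Y / rho| ≤ 1 := by
    rw [abs_div, abs_of_pos hrho0, div_le_one hrho0]; exact hYle
  have hG2 : G = -b + 20 / 3 * e ^ 2 / q + 35 / 3 * q ^ 2 := by
    rw [hG, hrho, hf, hss]
    field_simp
    ring
  obtain ⟨d0, d1⟩ := h4 e b q (Y / rho) G (Y / rho - G) (1 - 2 * (Y / rho) * G + G ^ 2) he heb hb hq hq1
    hF hFle hG2 rfl rfl
  set D := 1 - 2 * (Y / rho) * G + G ^ 2 with hD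
  set F := Y / rho with hFdef
  have hYF : Y = rho * F := by rw [hFdef]; field_simp
  have e1 : ze ^ 2 * D = q ^ 6 * (F - G) ^ 2 := by
    rw [← c1, hYF, hrho]; ring
  have e2 : r ^ 2 * D = q ^ 6 * (1 - F ^ 2) := by
    rw [← c2]
    have : X ^ 2 = rho ^ 2 - Y ^ 2 := by linarith
    rw [this, hYF, hrho]; ring
  have hq6 : 0 < q ^ 6 := by positivity
  -- the second order term
  have e3 : G * q * 3 = -(3 * b * q) + 20 * e ^ 2 + 35 * q ^ 3 := by
    rw [hG2]; field_simp
  have e4 : f * ((-(20 / 3) * e ^ 2 + 70 / 3 * rho) / f * r ^ 2 / rho ^ 2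
      + G * ((1 + kap * ze) / rho - r ^ 2 / rho ^ 3) - kap * C)
      = ((-(20 / 3) * e ^ 2 + 70 / 3 * q ^ 3) * r ^ 2 + (-(3 * b * q) + 20 * e ^ 2 + 35 * q ^ 3) * ze ^ 2) / q ^ 6
        + G * ze * v / rho - v * C := by
    have h1 : 1 / rho - r ^ 2 / rho ^ 3 = ze ^ 2 / rho ^ 3 := by
      field_simp
      linarith
    have h2 : (1 + kap * ze) / rho - r ^ 2 / rho ^ 3 = ze ^ 2 / rho ^ 3 + kap * ze / rho := by
      rw [← h1]; ring
    rw [h2, hv, ← e3, hf, hrho]
    field_simp
    ring
  have e5 : 0 ≤ ((-(20 / 3) * e ^ 2 + 70 / 3 * q ^ 3) * r ^ 2 + (-(3 * b * q) + 20 * e ^ 2 + 35 * q ^ 3) * ze ^ 2) / q ^ 6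
        + G * ze * v / rho - v * C := by
    rw [← e4]; exact mul_nonneg hf0.le hk2
  have e6 : ((-(20 / 3) * e ^ 2 + 70 / 3 * q ^ 3) * r ^ 2 + (-(3 * b * q) + 20 * e ^ 2 + 35 * q ^ 3) * ze ^ 2) / q ^ 6
      < -(3 * e ^ 2) + 100 * q ^ 3 - 20 * e * q ^ 2 := by
    rw [div_lt_iff₀ hq6]
    have h1 : ((-(20 / 3) * e ^ 2 + 70 / 3 * q ^ 3) * r ^ 2 + (-(3 * b * q) + 20 * e ^ 2 + 35 * q ^ 3) * ze ^ 2) * D
        = ((-(20 / 3) * e ^ 2 + 70 / 3 * q ^ 3) * (1 - F ^ 2)
          + (-(3 * b * q) + 20 * e ^ 2 + 35 * q ^ 3) * (F - G) ^ 2) * q ^ 6 := by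
      have h2 : ((-(20 / 3) * e ^ 2 + 70 / 3 * q ^ 3) * r ^ 2 + (-(3 * b * q) + 20 * e ^ 2 + 35 * q ^ 3) * ze ^ 2) * D
        = (-(20 / 3) * e ^ 2 + 70 / 3 * q ^ 3) * (r ^ 2 * D)
          + (-(3 * b * q) + 20 * e ^ 2 + 35 * q ^ 3) * (ze ^ 2 * D) := by ring
      rw [h2, e1, e2]; ring
    have h3 := mul_lt_mul_of_pos_right d1 hq6
    rw [← h1] at h3
    have h4 : ((-(20 / 3) * e ^ 2 + 70 / 3 * q ^ 3) * r ^ 2 + (-(3 * b * q) + 20 * e ^ 2 + 35 * q ^ 3) * ze ^ 2) * D
        < (-(3 * e ^ 2) + 100 * q ^ 3 - 20 * e * q ^ 2) * q ^ 6 * D := by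
      calc _ < _ := h3
        _ = _ := by ring
    exact lt_of_mul_lt_mul_right h4 d0.le
  rw [hss]
  rw [hrho] at e5 ⊢
  linarith

end Pool.Agent.Lib.MP_c60e08_gt.Lm.PCcomp

namespace Pool.Agent.Lib.MP_c60e08_gt.Lm

open Real Set Filter Topology PCcomp

theorem pCcompStmt (h1 : MpSStmt) (h2 : MinsStmt) (h3 : ContactStmt) (h4 : PCIneqStmt)
    (h5 : IdStmt) (h6 : IdCStmt) : PCcompStmt := by
  intro b T W hW hb hb1 t0 ht0 e b' hU t2 ht2 hP hte p hp hrp
  obtain ⟨he, hbe, hb', hd, η, hη, hunder⟩ := hU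
  obtain ⟨hid, hidt⟩ := h5 T W hW
  have hsubT : Icc t0 t2 ⊆ Ico 0 T := fun t ht => ⟨ht0.1.trans ht.1, ht.2.trans_lt ht2.2⟩
  have hsubprod : Icc t0 t2 ×ˢ Icc 0 π ⊆ Ico 0 T ×ˢ (univ : Set ℝ) :=
    Set.prod_mono hsubT (subset_univ _)
  have crho : COn t0 t2 W.rho := (h6 T W hW W.rho (by simp)).mono hsubprod
  have css : COn t0 t2 W.ss := (h6 T W hW W.ss (by simp)).mono hsubprod
  have cY : COn t0 t2 W.Y := hW.cY.mono hsubprod
  unfold COn at crho css cY
  have cy : COn t0 t2 (yy W t0 e b') := by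
    unfold COn yy
    have ct : ContinuousOn (fun z : ℝ × ℝ => z.1 - t0) (Icc t0 t2 ×ˢ Icc 0 π) := by fun_prop
    exact (((((continuousOn_const.sub ct).pow 3).sub
      ((continuousOn_const.sub (continuousOn_const.mul ct)).mul crho)).add
      ((continuousOn_const.mul ((continuousOn_const.sub ct).pow 2)).mul css)).add
      ((continuousOn_const.mul crho).mul css)).sub cY
  have cR : COn t0 t2 (fun t p => W.rho t p - 1 / 8000) := crho.sub continuousOn_const
  have key : ∀ t ∈ Icc t0 t2, ∀ p ∈ Icc 0 π, W.rho t p - 1 / 8000 ≤ 0 → 0 < yy W t0 e b' t p := by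
    refine h1 t0 t2 (yy W t0 e b') (fun t p => W.rho t p - 1 / 8000) cy cR ?_ ?_ ?_
    · intro p hp hR
      have := hunder p hp (by linarith)
      rw [yy_eq]
      simp only [sub_self, mul_zero, sub_zero]
      linarith
    · intro t ht p hp hR
      have htT := hsubT ht
      obtain ⟨i1, i2, i3, i4, i5, i6, i7, i8, i9, i10, i11, i12, -⟩ := hid t htT p
      have hrho : W.rho t p = 1 / 8000 := by linarith
      have hss : W.ss t p = 1 / 400 := by
        have h7 : W.ss t p ^ 3 = (1 / 400) ^ 3 := by rw [← i8, hrho]; norm_num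
        exact (pow_left_inj₀ i4.le (by norm_num) (by norm_num)).mp h7
      have hpk := hP t ht
      obtain ⟨-, -, n3, -⟩ := hpk.near p hp (by rw [hss])
      have hYt := hpk.dle
      have hX : W.X t p ≤ 1 / 8000 := by
        have := (abs_le.mp i11).2
        rw [hrho] at this; exact this
      have hb3 : b ^ 3 ≤ (1 / 2000) ^ 3 := pow_le_pow_left₀ hb.le hb1 3
      have hx0 : 0 ≤ t - t0 := by linarith [ht.1]
      have hx1 : t - t0 < e := by linarith [ht.2]
      have he3 : 0 ≤ (e - (t - t0)) ^ 3 := by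
        have : 0 ≤ e - (t - t0) := by linarith
        positivity
      have he2 : 0 ≤ (e - (t - t0)) ^ 2 := sq_nonneg _
      unfold yy
      rw [hrho, hss] at *
      norm_num at hb3
      nlinarith
    · intro t ht p hp hR hy0 hmin
      have htI : t ∈ Icc t0 t2 := ⟨ht.1.le, ht.2⟩
      have htT := hsubT htI
      have htT' : t ∈ Ioo 0 T := ⟨lt_of_le_of_lt ht0.1 ht.1, htT.2⟩
      obtain ⟨i1, i2, i3, i4, i5, i6, i7, i8, i9, i10, i11, i12, j1, j2, j3, j4, j5, j6, j7, j8, j9⟩ :=
        hid t htT p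
      obtain ⟨t1', t2', t3', t4', t5', t6', t7'⟩ := hidt t htT' p
      set ε := e - (t - t0) with hε
      set β := b' - 100 * (t - t0) with hβ
      have hx0 : 0 ≤ t - t0 := by linarith [ht.1]
      have hx1 : t - t0 < e := by linarith [ht.2]
      have hε0 : 0 < ε := by linarith
      have hβ1 : 120 * ε ≤ β := by rw [hε, hβ]; linarith
      have hβ2 : β ≤ 1 / 1000 := by rw [hβ]; linarith
      -- first derivative in p
      have dyp : ∀ q, HasDerivAt (yy W t0 e b' t)
          (W.g t q * (GG W t0 e b' t q * W.r t q / W.rho t q - sin (W.th t q))) q := by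
        intro q
        obtain ⟨a1, a2, a3, a4, a5, a6, a7, a8, a9, a10, a11, a12, d1, d2, d3, d4, d5, d6, d7, d8, d9⟩ :=
          hid t htT q
        have hd := ((((d6.const_mul β).const_sub (ε ^ 3)).add (d5.const_mul (10 * ε ^ 2))).add
          ((d6.const_mul 7).mul d5)).sub (hW.Yp t htT q)
        have hfe : (yy W t0 e b' t) = ((fun x => ε ^ 3 - β * W.rho t x) + fun x => 10 * ε ^ 2 * W.ss t x)
            + (fun x => 7 * W.rho t x) * W.ss t - W.Y t := by
          funext x
          simp only [yy, Pi.add_apply, Pi.sub_apply, Pi.mul_apply, ← hε, ← hβ]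
        rw [hfe]
        refine hd.congr_deriv ?_
        unfold GG
        rw [← hε, ← hβ]
        field_simp
        ring
      -- second derivative in p
      have dkp : HasDerivAt (fun q => GG W t0 e b' t q * W.r t q / W.rho t q - sin (W.th t q))
          (W.g t p * ((-(20 / 3) * ε ^ 2 + 70 / 3 * W.rho t p) / W.f t p * W.r t p ^ 2 / W.rho t p ^ 2
            + GG W t0 e b' t p * ((1 + W.kap t p * W.ze t p) / W.rho t p - W.r t p ^ 2 / W.rho t p ^ 3)
            - W.kap t p * cos (W.th t p))) p := by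
        have dG : HasDerivAt (fun q => GG W t0 e b' t q)
            (W.g t p * ((-(20 / 3) * ε ^ 2 + 70 / 3 * W.rho t p) / W.f t p * (W.r t p / W.rho t p))) p := by
          have hd := ((((((j6.const_mul (20 * ε ^ 2)).div j4 i3.ne').const_add (-β))).add
            (j5.const_mul 7))).add (((j6.pow 2).const_mul 14).div j4 i3.ne')
          have hfe : (fun q => GG W t0 e b' t q) =
              ((fun x : ℝ => -β + (((fun x : ℝ => 20 * ε ^ 2 * W.rho t x) / W.f t : ℝ → ℝ) x))
                + fun x : ℝ => 7 * W.ss t x)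
                + (fun x : ℝ => 14 * (W.rho t ^ 2 : ℝ → ℝ) x) / W.f t := by
            funext x
            simp only [GG, Pi.add_apply, Pi.div_apply, Pi.pow_apply, ← hε, ← hβ]
          rw [hfe]
          refine hd.congr_deriv ?_
          have hfs : W.fs t p = 4 / 3 * W.f t p * W.r t p / W.rho t p ^ 2 := by
            rw [i6]; rfl
          rw [hfs]
          simp only [Pi.pow_apply]
          field_simp
          ring
        have dth := (hW.thp t htT p).sin
        have hd := ((dG.mul j2).div j6 i5.ne').sub dth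
        have hfe : (fun q => GG W t0 e b' t q * W.r t q / W.rho t q - sin (W.th t q)) =
            ((fun q => GG W t0 e b' t q) * W.r t) / W.rho t - fun x => sin (W.th t x) := by
          funext x
          simp only [Pi.sub_apply, Pi.div_apply, Pi.mul_apply]
        rw [hfe]
        refine hd.congr_deriv ?_
        simp only [Pi.mul_apply, FlowData.r1]
        field_simp
        ring
      -- the region near p
      have hRcont : ContinuousAt (fun q => W.rho t q) p := j6.continuousAt
      have hRnear : ∀ᶠ q in 𝓝 p, W.rho t q - 1 / 8000 ≤ 0 := by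
        have : ∀ᶠ q in 𝓝 p, W.rho t q < 1 / 8000 :=
          hRcont.eventually_lt continuousAt_const (by linarith)
        filter_upwards [this] with q hq
        linarith
      have hgp : ∀ q, 0 < W.g t q := hW.gpos t htT
      have hkk : (GG W t0 e b' t p * W.r t p / W.rho t p - sin (W.th t p) = 0) ∧
          0 ≤ (-(20 / 3) * ε ^ 2 + 70 / 3 * W.rho t p) / W.f t p * W.r t p ^ 2 / W.rho t p ^ 2
            + GG W t0 e b' t p * ((1 + W.kap t p * W.ze t p) / W.rho t p - W.r t p ^ 2 / W.rho t p ^ 3)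
            - W.kap t p * cos (W.th t p) := by
        rcases eq_or_lt_of_le hp.1 with h0 | h0
        · have hk0 : GG W t0 e b' t p * W.r t p / W.rho t p - sin (W.th t p) = 0 := by
            have hth : W.th t p = 0 := by rw [← h0]; exact hW.th0 t htT
            have hX0 : W.X t p = 0 := by rw [← h0]; exact hW.X0 t htT
            have hr0 : W.r t p = 0 := by
              unfold FlowData.r; rw [hth, hX0]; simp
            rw [hr0, hth]; simp
          refine ⟨hk0, h2.2.1 (yy W t0 e b' t) (W.g t) _ p _ hgp dyp dkp hk0 ?_⟩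
          have hpi : ∀ᶠ q in 𝓝[>] p, q ∈ Ioo p (p + π) :=
            Ioo_mem_nhdsGT (by linarith [Real.pi_pos])
          filter_upwards [hpi, hRnear.filter_mono nhdsWithin_le_nhds] with q hq hRq
          rw [hy0]
          exact hmin q ⟨by linarith [hq.1], by linarith [hq.2]⟩ hRq
        · rcases eq_or_lt_of_le hp.2 with h0' | h0'
          · have hk0 : GG W t0 e b' t p * W.r t p / W.rho t p - sin (W.th t p) = 0 := by
              have hth : W.th t p = π := by rw [h0']; exact hW.thpi t htT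
              have hX0 : W.X t p = 0 := by rw [h0']; exact hW.Xpi t htT
              have hr0 : W.r t p = 0 := by
                unfold FlowData.r; rw [hth, hX0]; simp
              rw [hr0, hth]; simp
            refine ⟨hk0, h2.2.2 (yy W t0 e b' t) (W.g t) _ p _ hgp dyp dkp hk0 ?_⟩
            have hpi : ∀ᶠ q in 𝓝[<] p, q ∈ Ioo 0 p := Ioo_mem_nhdsLT h0
            filter_upwards [hpi, hRnear.filter_mono nhdsWithin_le_nhds] with q hq hRq
            rw [hy0]
            exact hmin q ⟨hq.1.le, by linarith [hq.2]⟩ hRq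
          · refine h2.1 (yy W t0 e b' t) (W.g t) _ p _ hgp dyp dkp ?_
            have hpi : ∀ᶠ q in 𝓝 p, q ∈ Ioo 0 π := Ioo_mem_nhds h0 h0'
            filter_upwards [hpi, hRnear] with q hq hRq
            rw [hy0]
            exact hmin q ⟨hq.1.le, hq.2.le⟩ hRq
      obtain ⟨hk, hk2⟩ := hkk
      -- the time derivative
      have dt : HasDerivAt (fun s => yy W t0 e b' s p)
          (-3 * ε ^ 2 + 100 * W.rho t p - 20 * ε * W.ss t p
            + GG W t0 e b' t p * W.ze t p * W.v t p / W.rho t p - W.v t p * cos (W.th t p)) t := by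
        have dε : HasDerivAt (fun s : ℝ => e - (s - t0)) (-1) t := by
          have := ((hasDerivAt_id t).sub_const t0).const_sub e
          simpa using this
        have dβ : HasDerivAt (fun s : ℝ => b' - 100 * (s - t0)) (-100) t := by
          have := (((hasDerivAt_id t).sub_const t0).const_mul 100).const_sub b'
          simpa using this
        have hd := ((((dε.pow 3).sub (dβ.mul t6')).add (((dε.pow 2).const_mul 10).mul t5')).add
          ((t6'.const_mul 7).mul t5')).sub (hW.Yt t htT' p)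
        have hfe : (fun s => yy W t0 e b' s p) =
            (((fun s : ℝ => e - (s - t0)) ^ 3 - (fun s : ℝ => b' - 100 * (s - t0)) * fun s => W.rho s p)
              + (fun s => 10 * ((fun s : ℝ => e - (s - t0)) ^ 2) s) * fun s => W.ss s p)
              + (fun s => 7 * W.rho s p) * (fun s => W.ss s p) - fun s => W.Y s p := by
          funext s
          simp only [yy, Pi.add_apply, Pi.sub_apply, Pi.mul_apply, Pi.pow_apply]
        rw [hfe]
        refine hd.congr_deriv ?_
        simp only [Pi.pow_apply, ← hε, ← hβ]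
        have hkS : sin (W.th t p) = GG W t0 e b' t p * W.r t p / W.rho t p := by linarith
        rw [hkS]
        unfold GG
        rw [← hε, ← hβ]
        field_simp
        ring
      refine ⟨_, dt, ?_⟩
      -- conclusion
      set q := √(W.ss t p) with hq
      have hq0 : 0 < q := Real.sqrt_pos.mpr i4
      have hss : W.ss t p = q ^ 2 := (Real.sq_sqrt i4.le).symm
      have hrho : W.rho t p = q ^ 3 := by
        have h7 : W.rho t p ^ 2 = (q ^ 3) ^ 2 := by rw [i8, hss]; ring
        exact (pow_left_inj₀ i5.le (by positivity) (by norm_num)).mp h7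
      have hq1 : q ≤ 1 / 20 := by
        have h7 : q ^ 3 ≤ (1 / 20) ^ 3 := by rw [← hrho]; norm_num; linarith
        exact le_of_pow_le_pow_left₀ (by norm_num) (by norm_num) h7
      have hf : W.f t p = 3 * q ^ 4 := by rw [i2, hss]; ring
      have hkap : W.v t p = W.f t p * W.kap t p := by
        unfold FlowData.kap; field_simp
      refine alg h3 h4 ε β (W.f t p) (W.u t p) (W.rho t p) (W.ss t p) (W.r t p) (W.ze t p) (W.X t p)
        (W.Y t p) (W.v t p) (W.kap t p) (cos (W.th t p)) (sin (W.th t p)) (GG W t0 e b' t p) q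
        hε0 hβ1 hβ2 hq0 hq1 hss hrho hf ?_ ?_ ?_ ?_ ?_ i12 hkap ?_ ?_ hk hk2
      · rw [i1, i6]
      · rw [add_comm]; exact Real.sin_sq_add_cos_sq _
      · unfold FlowData.r FlowData.ze
        have := Real.sin_sq_add_cos_sq (W.th t p)
        linear_combination -(W.X t p) * this
      · unfold FlowData.r FlowData.ze
        have := Real.sin_sq_add_cos_sq (W.th t p)
        linear_combination -(W.Y t p) * this
      · rw [i6]; rfl
      · unfold GG; rw [← hε, ← hβ]
      · have h7 := hy0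
        unfold yy at h7
        rw [← hε, ← hβ] at h7
        linarith
  have hfin := key t2 ⟨ht2.1, le_rfl⟩ p hp (by linarith)
  rw [yy_eq] at hfin
  linarith

end Pool.Agent.Lib.MP_c60e08_gt.Lm
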