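import Pool.Agent.Lib.MP_c60e08_gt.LmFlow2

/-!
MP_c60e08_gt, module PCneg: under a pinching barrier the curve dips below the tip.
-/

set_option autoImplicit false

namespace Pool.Agent.Lib.MP_c60e08_gt.Lm

open Real Set Filter Topology

theorem PCneg.barr_eq (W : FlowData) (t p e b : ℝ) :
    barr e b (W.u t p) = e ^ 3 - b * W.rho t p + 10 * e ^ 2 * W.ss t p
      + 7 * W.rho t p * W.ss t p := rfl

theorem pCnegStmt (h1 : IdStmt) (_h2 : IdCStmt) : PCnegStmt := by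
  intro T W hW t ht e b he heb hb hd hbarr
  obtain ⟨hid, -⟩ := h1 T W hW
  have hpi := Real.pi_pos
  have h0 := hid t ht 0
  obtain ⟨-, -, -, hss0, hrho0, hru0, -, hrs0, -⟩ := h0
  have hX0 := hW.X0 t ht
  have hY0 := hW.tip t ht
  -- the tip
  have hrd : W.rho t 0 = W.Y t 0 := by
    have h3 : W.rho t 0 ^ 2 = W.Y t 0 ^ 2 := by
      rw [hru0]; unfold FlowData.u; rw [hX0]; ring
    exact (pow_left_inj₀ hrho0.le hY0.le (by norm_num)).mp h3
  set d := W.Y t 0 with hdd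
  obtain ⟨x, hx0, hx2⟩ : ∃ x : ℝ, 0 < x ∧ x ^ 2 = W.ss t 0 :=
    ⟨√(W.ss t 0), Real.sqrt_pos.mpr hss0, Real.sq_sqrt hss0.le⟩
  have hx3 : x ^ 3 = d := by
    have h3 : (x ^ 3) ^ 2 = d ^ 2 := by
      rw [← hrd, hrs0, ← hx2]; ring
    exact (pow_left_inj₀ (by positivity) hY0.le (by norm_num)).mp h3
  have hx20 : x < 1 / 20 := by
    by_contra hc
    push Not at hc
    have h4 : (1 / 20 : ℝ) ^ 3 ≤ x ^ 3 := pow_le_pow_left₀ (by norm_num) hc 3
    rw [hx3] at h4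
    norm_num at h4
    linarith
  have hB0 := hbarr 0 ⟨le_rfl, hpi.le⟩ (by rw [hrd]; exact hd.le)
  rw [PCneg.barr_eq, hrd, ← hx2, ← hx3] at hB0
  have hx2e : x < 2 * e := by
    by_contra hc
    push Not at hc
    have hex : e ≤ x / 2 := by linarith
    have e1 : e ^ 2 ≤ x ^ 2 / 4 := by nlinarith
    have e2 : e ^ 3 ≤ x ^ 3 / 8 := by
      have := pow_le_pow_left₀ he.le hex 3
      calc e ^ 3 ≤ (x / 2) ^ 3 := this
        _ = x ^ 3 / 8 := by ring
    have hx3p : 0 < x ^ 3 := by positivity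
    have e3 : 10 * e ^ 2 * x ^ 2 ≤ x ^ 3 / 8 := by
      have : 10 * e ^ 2 * x ^ 2 ≤ 10 * (x ^ 2 / 4) * x ^ 2 := by
        have := mul_le_mul_of_nonneg_right e1 (sq_nonneg x)
        nlinarith
      have h5 : 10 * (x ^ 2 / 4) * x ^ 2 = (5 / 2 * x) * x ^ 3 := by ring
      have h6 : (5 / 2 * x) * x ^ 3 ≤ (1 / 8) * x ^ 3 :=
        mul_le_mul_of_nonneg_right (by linarith) hx3p.le
      linarith
    have e4 : 7 * x ^ 3 * x ^ 2 ≤ 7 / 400 * x ^ 3 := by
      have h7 : x ^ 2 ≤ 1 / 400 := by nlinarith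
      nlinarith
    have hbp : 0 ≤ b * x ^ 3 := mul_nonneg (by linarith) hx3p.le
    linarith
  have hfirst : W.Y t 0 < (2 * e) ^ 3 := by
    rw [← hdd, ← hx3]
    exact pow_lt_pow_left₀ hx2e hx0.le (by norm_num)
  refine ⟨hfirst, ?_⟩
  have hbpos : 0 < b := by linarith
  have he5 : e ≤ 1 / 120000 := by linarith
  -- intermediate value
  have hcont : ContinuousOn (W.ss t) (Icc 0 π) := fun q _ =>
    ((hid t ht q).2.2.2.2.2.2.2.2.2.2.2.2.2.2.2.2.1).continuousAt.continuousWithinAt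
  have hl : W.ss t 0 ≤ b / 28 := by
    rw [← hx2]
    nlinarith
  have hr : b / 28 ≤ W.ss t π := by
    obtain ⟨-, -, -, hssp, -, -, hsu, -⟩ := hid t ht π
    have hu1 : 1 < W.u t π := by
      have h9 := hW.top t ht
      unfold FlowData.u
      nlinarith [sq_nonneg (W.X t π)]
    rw [← hsu] at hu1
    by_contra hc
    push Not at hc
    have h10 : W.ss t π ≤ 1 := by linarith
    have h11 : W.ss t π ^ 3 ≤ 1 := pow_le_one₀ hssp.le h10
    linarith
  obtain ⟨p, hp, hps⟩ := intermediate_value_Icc hpi.le hcont ⟨hl, hr⟩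
  refine ⟨p, hp, ?_⟩
  obtain ⟨-, -, -, -, hrhop, -, -, hrsp, -⟩ := hid t ht p
  rw [hps] at hrsp
  have hb3 : 0 < b ^ 3 := by positivity
  have hrle : W.rho t p ≤ 1 / 8000 := by
    by_contra hc
    push Not at hc
    have h12 : (1 / 8000 : ℝ) ^ 2 < W.rho t p ^ 2 := pow_lt_pow_left₀ hc (by norm_num) (by norm_num)
    rw [hrsp] at h12
    have h13 : (b / 28) ^ 3 ≤ (1 / 28000) ^ 3 := pow_le_pow_left₀ (by positivity) (by linarith) 3
    norm_num at h12 h13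
    linarith
  have hrge : b ^ 2 / 5 ≤ W.rho t p := by
    have h14 : (b ^ 2 / 5) ^ 2 ≤ W.rho t p ^ 2 := by
      rw [hrsp]
      have h15 : (b ^ 2 / 5) ^ 2 = b ^ 3 * (b / 25) := by ring
      have h16 : (b / 28) ^ 3 = b ^ 3 * (1 / 21952) := by ring
      rw [h15, h16]
      exact mul_le_mul_of_nonneg_left (by linarith) hb3.le
    exact (pow_le_pow_iff_left₀ (by positivity) hrhop.le (by norm_num)).mp h14
  have hBp := hbarr p hp hrle
  rw [PCneg.barr_eq, hps] at hBp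
  have heb' : e ≤ b / 120 := by linarith
  have f1 : e ^ 2 ≤ b ^ 2 / 14400 := by
    calc e ^ 2 ≤ (b / 120) ^ 2 := pow_le_pow_left₀ he.le heb' 2
      _ = b ^ 2 / 14400 := by ring
  have f2 : e ^ 3 ≤ b ^ 3 / 1728000 := by
    calc e ^ 3 ≤ (b / 120) ^ 3 := pow_le_pow_left₀ he.le heb' 3
      _ = b ^ 3 / 1728000 := by ring
  have f3 : 10 * e ^ 2 * (b / 28) ≤ b ^ 3 / 40320 := by
    calc 10 * e ^ 2 * (b / 28) = e ^ 2 * (10 * (b / 28)) := by ring
      _ ≤ b ^ 2 / 14400 * (10 * (b / 28)) :=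
        mul_le_mul_of_nonneg_right f1 (by positivity)
      _ = b ^ 3 / 40320 := by ring
  have f4 : b * (b ^ 2 / 5) ≤ b * W.rho t p := mul_le_mul_of_nonneg_left hrge hbpos.le
  have f5 : 7 * W.rho t p * (b / 28) = b * W.rho t p / 4 := by ring
  have f6 : b * (b ^ 2 / 5) = b ^ 3 / 5 := by ring
  rw [f5] at hBp
  rw [f6] at f4
  have f7 : W.Y t p ≤ b ^ 3 / 1728000 + b ^ 3 / 40320 - 3 / 4 * (b ^ 3 / 5) := by
    clear_value d
    clear hB0 hrle hrge hrsp hcont hbarr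
    linarith
  have f8 : b ^ 3 / 1728000 + b ^ 3 / 40320 - 3 / 4 * (b ^ 3 / 5) ≤ 0 := by
    have : b ^ 3 / 1728000 + b ^ 3 / 40320 - 3 / 4 * (b ^ 3 / 5)
        = -(b ^ 3 * (3 / 20 - 1 / 1728000 - 1 / 40320)) := by ring
    rw [this]
    have : 0 ≤ b ^ 3 * (3 / 20 - 1 / 1728000 - 1 / 40320) :=
      mul_nonneg hb3.le (by norm_num)
    linarith
  exact lt_of_le_of_lt (f7.trans f8) hY0

end Pool.Agent.Lib.MP_c60e08_gt.Lm
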