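import Pool.Agent.Lib.MP_c60e08_gt.LmFlow2

set_option autoImplicit false

namespace Pool.Agent.Lib.MP_c60e08_gt.Lm.Qbd

open Real Set Filter Topology

theorem bound_of_COn {t1 : ℝ} {F : ℝ → ℝ → ℝ} (h : COn 0 t1 F) :
    ∃ B, 0 ≤ B ∧ ∀ t ∈ Icc 0 t1, ∀ p ∈ Icc 0 π, |F t p| ≤ B := by
  have hc : IsCompact (Icc 0 t1 ×ˢ Icc (0 : ℝ) π) := isCompact_Icc.prod isCompact_Icc
  obtain ⟨B, hB⟩ := hc.exists_bound_of_continuousOn h
  refine ⟨max B 0, le_max_right _ _, fun t ht p hp => ?_⟩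
  have h1 : ‖F t p‖ ≤ B := hB (t, p) ⟨ht, hp⟩
  exact h1.trans (le_max_left _ _)

theorem bd1 {v ze u f M R m f0 : ℝ} (hv : |v| ≤ M) (hz : |ze| ≤ R) (hu : m ≤ u) (hm : 0 < m)
    (hf : f0 ≤ f) (hf0 : 0 < f0) :
    4 * (v ^ 2 / f) + 8 / 3 * (ze * v / u) ≤ 4 * (M ^ 2 / f0) + 8 / 3 * (R * M / m) := by
  have hM : 0 ≤ M := (abs_nonneg v).trans hv
  have hR : 0 ≤ R := (abs_nonneg ze).trans hz
  have h1 : v ^ 2 / f ≤ M ^ 2 / f0 := by
    have : v ^ 2 ≤ M ^ 2 := by
      rw [← sq_abs v]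
      exact pow_le_pow_left₀ (abs_nonneg _) hv 2
    exact div_le_div₀ (by positivity) this hf0 hf
  have h2 : ze * v / u ≤ R * M / m := by
    have : ze * v ≤ R * M := by
      calc ze * v ≤ |ze * v| := le_abs_self _
        _ = |ze| * |v| := abs_mul _ _
        _ ≤ R * M := mul_le_mul hz hv (abs_nonneg _) hR
    exact div_le_div₀ (by positivity) this hm hu
  linarith

theorem bd2 {v ze r u f M R m f0 : ℝ} (hv : |v| ≤ M) (hz : |ze| ≤ R) (hr : |r| ≤ R) (hu : m ≤ u)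
    (hm : 0 < m) (hf : f0 ≤ f) (hf0 : 0 < f0) :
    |-(8 / 3 * (v ^ 3 * r / (f * u))) - 8 / 3 * (ze * v ^ 2 * r / u ^ 2)|
      ≤ 8 / 3 * (M ^ 3 * R / (f0 * m)) + 8 / 3 * (R * M ^ 2 * R / m ^ 2) := by
  have hM : 0 ≤ M := (abs_nonneg v).trans hv
  have hR : 0 ≤ R := (abs_nonneg ze).trans hz
  have hu0 : 0 < u := by linarith
  have hf00 : 0 < f := by linarith
  have h1 : |v ^ 3 * r / (f * u)| ≤ M ^ 3 * R / (f0 * m) := by
    rw [abs_div, abs_mul, abs_pow, abs_of_pos (by positivity : 0 < f * u)]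
    apply div_le_div₀ (by positivity) _ (by positivity) (by gcongr)
    exact mul_le_mul (pow_le_pow_left₀ (abs_nonneg _) hv 3) hr (abs_nonneg _) (by positivity)
  have h2 : |ze * v ^ 2 * r / u ^ 2| ≤ R * M ^ 2 * R / m ^ 2 := by
    rw [abs_div, abs_mul, abs_mul, abs_pow, abs_of_pos (by positivity : 0 < u ^ 2)]
    apply div_le_div₀ (by positivity) _ (by positivity) (by gcongr)
    apply mul_le_mul _ hr (abs_nonneg _) (by positivity)
    exact mul_le_mul hz (pow_le_pow_left₀ (abs_nonneg _) hv 2) (by positivity) hR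
  have h3 := abs_le.mp h1
  have h4 := abs_le.mp h2
  rw [abs_le]
  constructor
  · linarith [h3.2, h4.2]
  · linarith [h3.1, h4.1]

end Qbd

open Real Set Filter Topology in
open Qbd in
theorem qbdStmt (h1 : MpStmt) (h2 : MinsStmt) (h3 : IdStmt) (_h4 : IdCStmt) : QbdStmt := by
  intro T M m W hW hm hb
  have hT := hW.Tpos
  have hπ := Real.pi_pos
  have hId := (h3 T W hW).1
  have h0T : (0 : ℝ) ∈ Ico 0 T := ⟨le_refl _, hT⟩
  have hM : 0 < M := by
    have := hb 0 h0T 0 ⟨le_refl _, hπ.le⟩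
    linarith [this.2.1, this.2.2]
  set R : ℝ := 1 + M with hR
  have hR0 : 0 < R := by positivity
  set f0 : ℝ := fS m with hf0d
  have hf0 : 0 < f0 := by
    rw [hf0d, fS]
    positivity
  have hfge : ∀ t ∈ Ico 0 T, ∀ p ∈ Icc 0 π, f0 ≤ W.f t p := by
    intro t ht p hp
    rw [hf0d]
    unfold FlowData.f fS
    have := Real.rpow_le_rpow hm.le (hb t ht p hp).2.1 (by norm_num : (0 : ℝ) ≤ 2 / 3)
    linarith
  have hrze : ∀ t ∈ Ico 0 T, ∀ p ∈ Icc 0 π, |W.r t p| ≤ R ∧ |W.ze t p| ≤ R := by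
    intro t ht p hp
    have e1 := (hId t ht p).1
    have e2 := (hb t ht p hp).2.2
    have e3 : W.r t p ^ 2 ≤ R ^ 2 := by
      have : W.r t p ^ 2 ≤ M := by nlinarith [sq_nonneg (W.ze t p)]
      nlinarith
    have e4 : W.ze t p ^ 2 ≤ R ^ 2 := by
      have : W.ze t p ^ 2 ≤ M := by nlinarith [sq_nonneg (W.r t p)]
      nlinarith
    exact ⟨abs_le_of_sq_le_sq e3 hR0.le, abs_le_of_sq_le_sq e4 hR0.le⟩
  set L1 : ℝ := 4 * (M ^ 2 / f0) + 8 / 3 * (R * M / m) with hL1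
  have hL10 : 0 ≤ L1 := by positivity
  set G : ℝ := 8 / 3 * (M ^ 3 * R / (f0 * m)) + 8 / 3 * (R * M ^ 2 * R / m ^ 2) with hG
  have hG0 : 0 ≤ G := by positivity
  have hsub : ∀ t1 ∈ Ico 0 T, Icc 0 t1 ×ˢ Icc (0 : ℝ) π ⊆ Ico 0 T ×ˢ univ := by
    intro t1 ht1 z hz
    exact ⟨⟨hz.1.1, lt_of_le_of_lt hz.1.2 ht1.2⟩, mem_univ _⟩
  have c0 : COn 0 0 W.v1 := hW.cv1.mono (hsub 0 h0T)
  obtain ⟨B, hB0, hB⟩ := bound_of_COn c0
  set A : ℝ := B + G with hA
  have hA0 : 0 ≤ A := by positivity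
  set L : ℝ := L1 + 1 with hL
  have hL0 : 0 ≤ L := by positivity
  have key : ∀ σ : ℝ, (σ = 1 ∨ σ = -1) → ∀ t1 ∈ Ico 0 T, ∀ t ∈ Icc 0 t1, ∀ p ∈ Icc 0 π,
      0 ≤ A * exp (L * t) + σ * W.v1 t p := by
    intro σ hσ t1 ht1
    have hσ1 : |σ| = 1 := by
      rcases hσ with h | h <;> rw [h] <;> norm_num
    set y : ℝ → ℝ → ℝ := fun t p => A * exp (L * t) + σ * W.v1 t p with hy
    have cE : COn 0 t1 (fun t _ => A * exp (L * t)) := by
      apply Continuous.continuousOn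
      fun_prop
    have cv : COn 0 t1 W.v1 := hW.cv1.mono (hsub t1 ht1)
    have cy : COn 0 t1 y := cE.add (continuousOn_const.mul cv)
    refine h1 0 t1 L1 y cy ?_ ?_
    · intro p hp
      show 0 ≤ A * exp (L * 0) + σ * W.v1 0 p
      rw [mul_zero, exp_zero, mul_one]
      have e1 := hB 0 ⟨le_refl _, le_refl _⟩ p hp
      have e2 : |σ * W.v1 0 p| ≤ B := by rw [abs_mul, hσ1, one_mul]; exact e1
      have := (abs_le.mp e2).1
      linarith
    intro t ht p hp hneg hmin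
    have htT : t ∈ Ico 0 T := ⟨ht.1.le, lt_of_le_of_lt ht.2 ht1.2⟩
    have htT' : t ∈ Ioo 0 T := ⟨ht.1, htT.2⟩
    have hE1 : 1 ≤ exp (L * t) := by
      rw [← exp_zero]
      exact exp_le_exp.mpr (mul_nonneg hL0 ht.1.le)
    have hAE : 0 ≤ A * exp (L * t) := by positivity
    have hp0 : 0 < p := by
      rcases lt_or_eq_of_le hp.1 with h | h
      · exact h
      · exfalso
        have e : y t 0 = A * exp (L * t) := by
          show A * exp (L * t) + σ * W.v1 t 0 = _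
          rw [hW.v10 t htT]
          ring
        rw [← h, e] at hneg
        linarith
    have hpπ : p < π := by
      rcases lt_or_eq_of_le hp.2 with h | h
      · exact h
      · exfalso
        have e : y t π = A * exp (L * t) := by
          show A * exp (L * t) + σ * W.v1 t π = _
          rw [hW.v1pi t htT]
          ring
        rw [h, e] at hneg
        linarith
    have hloc : IsLocalMin (y t) p := by
      filter_upwards [Ioo_mem_nhds hp0 hpπ] with q hq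
      exact hmin q ⟨hq.1.le, hq.2.le⟩
    have hd1 : ∀ q, HasDerivAt (y t) (W.g t q * (σ * W.v2 t q)) q := by
      intro q
      have e := ((hW.v1p t htT q).const_mul σ).const_add (A * exp (L * t))
      exact HasDerivAt.congr_deriv e (by ring)
    have hd2 : HasDerivAt (fun q => σ * W.v2 t q) (W.g t p * (σ * W.v3 t p)) p := by
      have e := (hW.v2p t htT p).const_mul σ
      exact HasDerivAt.congr_deriv e (by ring)
    obtain ⟨hk, hk2⟩ := h2.1 (y t) (W.g t) (fun q => σ * W.v2 t q) p (σ * W.v3 t p)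
      (hW.gpos t htT) hd1 hd2 hloc
    have hk' : σ * W.v2 t p = 0 := hk
    have hEt : HasDerivAt (fun s => A * exp (L * s)) (L * (A * exp (L * t))) t := by
      have e1 : HasDerivAt (fun s : ℝ => L * s) (L * 1) t := (hasDerivAt_id t).const_mul L
      have e2 := (e1.exp).const_mul A
      exact HasDerivAt.congr_deriv e2 (by ring)
    have hD := hEt.add ((hW.v1t t htT' p).const_mul σ)
    refine ⟨_, hD, ?_⟩
    have hneg' : A * exp (L * t) + σ * W.v1 t p < 0 := hneg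
    obtain ⟨hv, hum, huM⟩ := hb t htT p hp
    obtain ⟨hr, hz⟩ := hrze t htT p hp
    have hf := hfge t htT p hp
    have hf00 : 0 < W.f t p := by linarith
    have hu0 : 0 < W.u t p := by linarith
    have b1 := bd1 hv hz hum hm hf hf0
    have b2 := bd2 hv hz hr hum hm hf hf0
    rw [← hL1] at b1
    rw [← hG] at b2
    set LL : ℝ := 4 * (W.v t p ^ 2 / W.f t p) + 8 / 3 * (W.ze t p * W.v t p / W.u t p) with hLL
    set GG : ℝ := -(8 / 3 * (W.v t p ^ 3 * W.r t p / (W.f t p * W.u t p)))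
      - 8 / 3 * (W.ze t p * W.v t p ^ 2 * W.r t p / W.u t p ^ 2) with hGG
    have hEq : σ * (W.f t p * W.v3 t p + W.fs t p * W.v2 t p + W.C0 t p * W.v1 t p
        + W.C1 t p * W.v t p + W.v t p ^ 2 / W.f t p * W.v1 t p + W.lam t p * W.v2 t p)
        = W.f t p * (σ * W.v3 t p) + (W.fs t p + W.lam t p) * (σ * W.v2 t p)
          + LL * (σ * W.v1 t p) + σ * GG := by
      rw [hLL, hGG]
      unfold FlowData.C0 FlowData.C1
      field_simp
      ring
    rw [hEq, hk']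
    have i1 : 0 ≤ W.f t p * (σ * W.v3 t p) := mul_nonneg hf00.le hk2
    have i2 : L1 * (σ * W.v1 t p) ≤ LL * (σ * W.v1 t p) :=
      mul_le_mul_of_nonpos_right b1 (by linarith)
    have i3 : -G ≤ σ * GG := by
      have : |σ * GG| ≤ G := by rw [abs_mul, hσ1, one_mul]; exact b2
      exact (abs_le.mp this).1
    have i4 : G ≤ A * exp (L * t) := by
      calc G ≤ A * 1 := by rw [hA]; linarith
        _ ≤ A * exp (L * t) := mul_le_mul_of_nonneg_left hE1 hA0
    have i5 : L * (A * exp (L * t)) = L1 * (A * exp (L * t)) + A * exp (L * t) := by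
      rw [hL]; ring
    show L1 * (A * exp (L * t) + σ * W.v1 t p) ≤ _
    linarith
  refine ⟨A * exp (L * T), fun t ht p hp => ?_⟩
  have e1 := key 1 (Or.inl rfl) t ht t ⟨ht.1, le_refl _⟩ p hp
  have e2 := key (-1) (Or.inr rfl) t ht t ⟨ht.1, le_refl _⟩ p hp
  have e3 : A * exp (L * t) ≤ A * exp (L * T) := by
    apply mul_le_mul_of_nonneg_left _ hA0
    exact exp_le_exp.mpr (mul_le_mul_of_nonneg_left ht.2.le hL0)
  rw [abs_le]
  constructor <;> linarith

end Pool.Agent.Lib.MP_c60e08_gt.Lm
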