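import Pool.Agent.Lib.MP_c60e08_gt.LmFlow2

/-!
MP_c60e08_gt, FLOW part, module S2: `om2 >= delta X` is preserved.
-/

namespace Pool.Agent.Lib.MP_c60e08_gt.Lm.S2

open Real Set Filter Topology

lemma r_zero {T : ℝ} {W : FlowData} (hW : IsFlow T W) {t : ℝ} (ht : t ∈ Ico 0 T) :
    W.r t 0 = 0 := by
  simp [FlowData.r, hW.X0 t ht, hW.th0 t ht]

lemma r_pi {T : ℝ} {W : FlowData} (hW : IsFlow T W) {t : ℝ} (ht : t ∈ Ico 0 T) :
    W.r t π = 0 := by
  simp [FlowData.r, hW.Xpi t ht, hW.thpi t ht]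

lemma con_of {T t1 : ℝ} (h1 : t1 < T) {F : ℝ → ℝ → ℝ}
    (hF : ContinuousOn (fun z : ℝ × ℝ => F z.1 z.2) (Ico 0 T ×ˢ univ)) : COn 0 t1 F := by
  refine hF.mono ?_
  rintro ⟨t, p⟩ ⟨ht, hp⟩
  exact ⟨⟨ht.1, lt_of_le_of_lt ht.2 h1⟩, mem_univ _⟩

lemma om2_eq (W : FlowData) (t p : ℝ) :
    W.v1 t p * W.ze t p - W.v t p * W.z1 t p = W.om2 t p := by
  simp only [FlowData.om2, FlowData.z1]; ring

end Pool.Agent.Lib.MP_c60e08_gt.Lm.S2

namespace Pool.Agent.Lib.MP_c60e08_gt.Lm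

open Real Set Filter Topology
open S2

theorem s2Stmt (h1 : WronSStmt) (h2 : NoCommonStmt) (h3 : XlowStmt) (h4 : IdStmt)
    (h5 : IdCStmt) (h6 : IdRStmt) (h7 : IdZStmt) : S2Stmt := by
  intro T W hW t1 ht1 hyp hinit
  have hin : ∀ t ∈ Icc 0 t1, t ∈ Ico 0 T := fun t ht => ⟨ht.1, lt_of_le_of_lt ht.2 ht1.2⟩
  have hin' : ∀ t ∈ Ioc 0 t1, t ∈ Ioo 0 T := fun t ht => ⟨ht.1, lt_of_le_of_lt ht.2 ht1.2⟩
  obtain ⟨hX1, Cf, hCf, hX2⟩ := h3 T W hW t1 ht1
  obtain ⟨hI1, hI2⟩ := h4 T W hW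
  obtain ⟨hR1, hR2⟩ := h6 T W hW
  obtain ⟨hZ1, hZ2⟩ := h7 T W hW
  have hC := h5 T W hW
  have hf : ∀ t ∈ Ico 0 T, ∀ p, 0 < W.f t p := fun t ht p => (hI1 t ht p).2.2.1
  have hwr : Wr t1 (2 / 3) W.g W.lam W.f W.fs W.C0 W.C1 (fun t p => W.v t p ^ 2 / W.f t p)
      W.v W.v1 W.v2 W.v3 W.ze W.z1 W.z2 W.z3 := by
    refine ⟨ht1.1, ?_, fun t ht => hW.gpos t (hin t ht), fun t ht => hf t (hin t ht),
      fun t ht => hW.vp t (hin t ht), fun t ht => hW.v1p t (hin t ht),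
      fun t ht => hW.v2p t (hin t ht), ?_, ?_, fun t ht => hZ1 t (hin t ht),
      fun t ht => hW.vt t (hin' t ht), fun t ht => hW.v1t t (hin' t ht), ?_, ?_, ?_, ?_⟩
    · intro F hF
      have hfc : ContinuousOn (fun z : ℝ × ℝ => W.f z.1 z.2) (Ico 0 T ×ˢ univ) :=
        hC W.f (by simp)
      have hK : ContinuousOn (fun z : ℝ × ℝ => W.v z.1 z.2 ^ 2 / W.f z.1 z.2)
          (Ico 0 T ×ˢ univ) :=
        (hW.cv.pow 2).div hfc (fun z hz => (hf z.1 hz.1 z.2).ne')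
      simp only [List.mem_cons, List.not_mem_nil, or_false] at hF
      rcases hF with h | h | h | h | h | h | h | h | h | h | h <;> subst h
      · exact con_of ht1.2 hW.cg
      · exact con_of ht1.2 hfc
      · exact con_of ht1.2 (hC W.fs (by simp))
      · exact con_of ht1.2 (hC W.C0 (by simp))
      · exact con_of ht1.2 hK
      · exact con_of ht1.2 hW.cv
      · exact con_of ht1.2 hW.cv1
      · exact con_of ht1.2 hW.cv2
      · exact con_of ht1.2 (hC W.ze (by simp))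
      · exact con_of ht1.2 (hC W.z1 (by simp))
      · exact con_of ht1.2 (hC W.z2 (by simp))
    · intro t ht p
      obtain ⟨-, -, -, -, -, -, -, -, -, -, -, -, -, -, h, -⟩ := hI1 t (hin t ht) p
      exact h
    · intro t ht p
      obtain ⟨-, -, -, -, -, -, -, -, -, -, -, -, -, -, -, -, -, -, -, -, h⟩ :=
        hI1 t (hin t ht) p
      exact h
    · intro t ht p
      exact (hZ2 t (hin' t ht) p).1
    · intro t ht p
      exact (hZ2 t (hin' t ht) p).2
    · intro t ht p hp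
      by_cases hv : W.v t p = 0
      · right
        rcases lt_or_eq_of_le hp.2 with hlt | heq
        · have := (h2 T W hW t (hin t ht) (hyp t ht).1 (hyp t ht).2.1 p ⟨hp.1, hlt⟩ hv.le
            p ⟨hp.1, le_refl _⟩).2.2
          have h0 := hW.tip t (hin t ht)
          exact (lt_of_lt_of_le h0 this).ne'
        · exfalso
          have := (hyp t ht).2.2
          rw [heq] at hv
          exact this.ne' hv
      · left; exact hv
    · intro t ht
      have hr0 := r_zero hW (hin t ht)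
      have hrp := r_pi hW (hin t ht)
      have hv0 := hW.v10 t (hin t ht)
      have hvp := hW.v1pi t (hin t ht)
      constructor
      · simp [FlowData.z1, hr0, hv0]
      · simp [FlowData.z1, hrp, hvp]
  have hmain := h1 t1 (2 / 3) Cf W.g W.lam W.f W.fs W.C0 W.C1
    (fun t p => W.v t p ^ 2 / W.f t p)
    W.v W.v1 W.v2 W.v3 W.ze W.z1 W.z2 W.z3 W.X (fun t p => cos (W.th t p))
    (fun t p => - (W.kap t p * sin (W.th t p))) hwr (con_of ht1.2 hW.cX)
    (fun t ht p => hW.Xp t (hin t ht) p) ?_ ?_ (fun t ht p => abs_cos_le_one _) hX1 ?_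
    (fun t ht p hp => (hX2 t ht p hp).1) ?_
  · obtain ⟨d, hd, h⟩ := hmain
    refine ⟨d, hd, fun t ht p hp => ?_⟩
    have := h t ht p hp
    rwa [om2_eq] at this
  · intro t ht p
    have := (hW.thp t (hin t ht) p).cos
    convert this using 1
    ring
  · intro t ht p
    have := hW.Xt t (hin' t ht) p
    convert this using 1
    have hfp := (hf t (hin t ⟨ht.1.le, ht.2⟩) p).ne'
    simp only [FlowData.kap]
    field_simp
  · intro t ht
    have hr0 := r_zero hW (hin t ht)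
    have hrp := r_pi hW (hin t ht)
    refine ⟨hW.X0 t (hin t ht), hW.Xpi t (hin t ht), hW.v10 t (hin t ht),
      hW.v1pi t (hin t ht), ?_, ?_⟩
    · simp [FlowData.z1, hr0]
    · simp [FlowData.z1, hrp]
  · obtain ⟨d, hd, h⟩ := hinit
    refine ⟨d, hd, fun p hp => ?_⟩
    have := h p hp
    rwa [om2_eq]

end Pool.Agent.Lib.MP_c60e08_gt.Lm
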