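import Pool.Agent.Lib.MP_c60e08_gt.LmFlow2

/-!
Module S4: `om1 >= 0` is preserved as long as `v(tip) < 0 < v(top)`.
-/

set_option autoImplicit false

namespace Pool.Agent.Lib.MP_c60e08_gt.Lm

open Real Set Filter Topology

namespace S4

theorem con_of {T t1 : ℝ} (ht1 : t1 ∈ Ico 0 T) {F : ℝ → ℝ → ℝ}
    (h : ContinuousOn (fun z : ℝ × ℝ => F z.1 z.2) (Ico 0 T ×ˢ univ)) : COn 0 t1 F :=
  h.mono (prod_mono (fun t ht => ⟨ht.1, lt_of_le_of_lt ht.2 ht1.2⟩) (subset_univ _))

theorem r_zero {T : ℝ} {W : FlowData} (h : IsFlow T W) {t : ℝ} (ht : t ∈ Ico 0 T) :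
    W.r t 0 = 0 := by
  unfold FlowData.r
  rw [h.X0 t ht, h.th0 t ht]
  simp

theorem r_pi {T : ℝ} {W : FlowData} (h : IsFlow T W) {t : ℝ} (ht : t ∈ Ico 0 T) :
    W.r t π = 0 := by
  unfold FlowData.r
  rw [h.Xpi t ht, h.thpi t ht]
  simp

end S4

open S4 in
theorem s4Stmt (h1 : WronWStmt) (h2 : RposStmt) (h3 : IdStmt) (h4 : IdCStmt) (h5 : IdRStmt) :
    S4Stmt := by
  intro T W hF hr hom t1 ht1 hv
  obtain ⟨δ, hδ, hR⟩ := h2 T W hF hr t1 ht1
  have hsub : ∀ t ∈ Icc 0 t1, t ∈ Ico 0 T := fun t ht => ⟨ht.1, lt_of_le_of_lt ht.2 ht1.2⟩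
  have hsub' : ∀ t ∈ Ioc 0 t1, t ∈ Ioo 0 T := fun t ht => ⟨ht.1, lt_of_le_of_lt ht.2 ht1.2⟩
  obtain ⟨hI1, hI2⟩ := h3 T W hF
  have hC := h4 T W hF
  obtain ⟨hR1, hR2⟩ := h5 T W hF
  have hfpos : ∀ t ∈ Ico 0 T, ∀ p, 0 < W.f t p := fun t ht p => (hI1 t ht p).2.2.1
  have hK : ContinuousOn (fun z : ℝ × ℝ => W.v z.1 z.2 ^ 2 / W.f z.1 z.2)
      (Ico 0 T ×ˢ univ) := by
    refine ContinuousOn.div (hF.cv.pow 2) (hC W.f (by simp)) ?_
    intro z hz
    exact (hfpos z.1 hz.1 z.2).ne'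
  have hWr : Wr t1 0 W.g W.lam W.f W.fs W.C0 W.C1 (fun t p => W.v t p ^ 2 / W.f t p)
      W.v W.v1 W.v2 W.v3 W.r W.r1 W.r2 W.r3 :=
    { ht := ht1.1
      cc := by
        intro F hF'
        simp only [List.mem_cons, List.not_mem_nil, or_false] at hF'
        rcases hF' with rfl | rfl | rfl | rfl | rfl | rfl | rfl | rfl | rfl | rfl | rfl
        · exact con_of ht1 hF.cg
        · exact con_of ht1 (hC W.f (by simp))
        · exact con_of ht1 (hC W.fs (by simp))
        · exact con_of ht1 (hC W.C0 (by simp))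
        · exact con_of ht1 hK
        · exact con_of ht1 hF.cv
        · exact con_of ht1 hF.cv1
        · exact con_of ht1 hF.cv2
        · exact con_of ht1 (hC W.r (by simp))
        · exact con_of ht1 (hC W.r1 (by simp))
        · exact con_of ht1 (hC W.r2 (by simp))
      gpos := fun t ht p => hF.gpos t (hsub t ht) p
      fpos := fun t ht p => hfpos t (hsub t ht) p
      dy0 := fun t ht p => hF.vp t (hsub t ht) p
      dy1 := fun t ht p => hF.v1p t (hsub t ht) p
      dy2 := fun t ht p => hF.v2p t (hsub t ht) p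
      dz0 := fun t ht p => by
        obtain ⟨_, _, _, _, _, _, _, _, _, _, _, _, _, h, _⟩ := hI1 t (hsub t ht) p
        exact h
      dz1 := fun t ht p => by
        obtain ⟨_, _, _, _, _, _, _, _, _, _, _, _, _, _, _, _, _, _, _, h, _⟩ :=
          hI1 t (hsub t ht) p
        exact h
      dz2 := fun t ht p => (hR1 t (hsub t ht) p).2.2
      ty0 := fun t ht p => hF.vt t (hsub' t ht) p
      ty1 := fun t ht p => hF.v1t t (hsub' t ht) p
      tz0 := fun t ht p => ((hR2 t (hsub' t ht) p).1).congr_deriv (by ring)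
      tz1 := fun t ht p => ((hR2 t (hsub' t ht) p).2).congr_deriv (by ring)
      nocommon := by
        intro t ht p hp
        rcases eq_or_lt_of_le hp.1 with h0 | h0
        · left
          rw [← h0]
          exact (hv t ht).1.ne
        rcases eq_or_lt_of_le hp.2 with hpi | hpi
        · left
          rw [hpi]
          exact (hv t ht).2.ne'
        · right
          have h6 := (hR t ht).1 p hp
          have h7 := hF.Xpos t (hsub t ht) p ⟨h0, hpi⟩
          have h8 : 0 < δ * W.X t p := mul_pos hδ h7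
          linarith
      ends := by
        intro t ht
        rw [r_zero hF (hsub t ht), r_pi hF (hsub t ht)]
        obtain ⟨hv0, hvpi⟩ := hv t ht
        obtain ⟨_, hr0, hrpi⟩ := hR t ht
        constructor
        · nlinarith
        · nlinarith }
  have hfin := h1 t1 0 W.g W.lam W.f W.fs W.C0 W.C1 (fun t p => W.v t p ^ 2 / W.f t p)
    W.v W.v1 W.v2 W.v3 W.r W.r1 W.r2 W.r3 hWr (fun p hp => hom p hp)
  exact fun t ht p hp => hfin t ht p hp

end Pool.Agent.Lib.MP_c60e08_gt.Lm
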