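import Pool.Agent.Lib.MP_c60e08_gt.LmFlow2

/-!
# The lower bound of the velocity near the origin
-/

set_option autoImplicit false

namespace Pool.Agent.Lib.MP_c60e08_gt.Lm

open Real Set Filter Topology

namespace S5

/-- `X`-derivative of `EE`, as a function of `e = d^(1/3)` and `X` -/
noncomputable def EX (K e X : ℝ) : ℝ :=
  4 * K * (6 * K * e * (2 / 3 * X ^ ((2 : ℝ) / 3 - 1)) -
    6 * K ^ 2 * (4 / 3 * X ^ ((4 : ℝ) / 3 - 1))) + 1 / 30

/-- second `X`-derivative of `EE` -/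
noncomputable def EXX (K e X : ℝ) : ℝ :=
  4 * K * (6 * K * e * (2 / 3 * ((2 / 3 - 1) * X ^ ((2 : ℝ) / 3 - 1 - 1)))
    - 6 * K ^ 2 * (4 / 3 * ((4 / 3 - 1) * X ^ ((4 : ℝ) / 3 - 1 - 1))))

/-- `d`-derivative of `EE` -/
noncomputable def ED (K d X : ℝ) : ℝ :=
  4 * K * (2 / 3 * d ^ ((2 : ℝ) / 3 - 1) + 6 * K * (1 / 3 * d ^ ((1 : ℝ) / 3 - 1)) *
    X ^ ((2 : ℝ) / 3))

lemma rp (x : ℝ) (hx : 0 < x) (a : ℝ) (n : ℤ) (h : 3 * a = n) : (x ^ 3) ^ a = x ^ n := by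
  rw [← Real.rpow_natCast x 3, ← Real.rpow_mul hx.le, ← Real.rpow_intCast]
  congr 1

lemma rp2 (x : ℝ) (hx : 0 < x) : (x ^ 3) ^ ((2 : ℝ) / 3) = x ^ 2 := by
  rw [rp x hx _ 2 (by norm_num)]
  norm_cast

lemma rp4 (x : ℝ) (hx : 0 < x) : (x ^ 3) ^ ((4 : ℝ) / 3) = x ^ 4 := by
  rw [rp x hx _ 4 (by norm_num)]
  norm_cast

lemma rp1 (x : ℝ) (hx : 0 < x) : (x ^ 3) ^ ((1 : ℝ) / 3) = x := by
  rw [rp x hx _ 1 (by norm_num)]
  simp

lemma EE_eq (K e x : ℝ) (he : 0 < e) (hx : 0 < x) : EE K (e ^ 3) (x ^ 3) =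
    4 * K * (e ^ 2 + 6 * K * e * x ^ 2 - 6 * K ^ 2 * x ^ 4) + x ^ 3 / 30 := by
  unfold EE
  rw [rp2 e he, rp1 e he, rp2 x hx, rp4 x hx]

lemma EE_zero (K e : ℝ) (he : 0 < e) : EE K (e ^ 3) 0 = 4 * K * e ^ 2 := by
  unfold EE
  rw [rp2 e he, rp1 e he, Real.zero_rpow (by norm_num), Real.zero_rpow (by norm_num)]
  ring

lemma EXX_eq (K e x : ℝ) (hx : 0 < x) : EXX K e (x ^ 3) =
    -(4 * K * (4 / 3 * K * e / x ^ 4 + 8 / 3 * K ^ 2 / x ^ 2)) := by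
  unfold EXX
  rw [rp x hx _ (-4) (by norm_num), rp x hx _ (-2) (by norm_num), zpow_neg, zpow_neg]
  norm_cast
  field_simp
  ring

lemma ED_eq (K K0 e x : ℝ) (he : 0 < e) (hx : 0 < x) : ED K (e ^ 3) (x ^ 3) * (-(3 * K0 * e ^ 2)) =
    -(4 * K * K0 * (2 * e + 6 * K * x ^ 2)) := by
  unfold ED
  rw [rp e he _ (-1) (by norm_num), rp e he _ (-2) (by norm_num), rp2 x hx, zpow_neg, zpow_neg]
  norm_cast
  field_simp

lemma hasDerivAt_EE (K : ℝ) (A B : ℝ → ℝ) (a b t : ℝ) (hA : HasDerivAt A a t)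
    (hB : HasDerivAt B b t) (hA0 : 0 < A t) (hB0 : 0 < B t) :
    HasDerivAt (fun s => EE K (A s) (B s))
      (ED K (A t) (B t) * a + EX K ((A t) ^ ((1 : ℝ) / 3)) (B t) * b) t := by
  have h1 := hA.rpow_const (p := (2 : ℝ) / 3) (Or.inl hA0.ne')
  have h2 := hA.rpow_const (p := (1 : ℝ) / 3) (Or.inl hA0.ne')
  have h3 := hB.rpow_const (p := (2 : ℝ) / 3) (Or.inl hB0.ne')
  have h4 := hB.rpow_const (p := (4 : ℝ) / 3) (Or.inl hB0.ne')
  unfold EE ED EX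
  exact ((((h1.add ((h2.const_mul (6 * K)).mul h3)).sub (h4.const_mul (6 * K ^ 2))).const_mul
    (4 * K)).add (hB.div_const 30)).congr_deriv (by ring)

lemma hasDerivAt_EX (K e : ℝ) (B : ℝ → ℝ) (b t : ℝ) (hB : HasDerivAt B b t) (hB0 : 0 < B t) :
    HasDerivAt (fun s => EX K e (B s)) (EXX K e (B t) * b) t := by
  have h3 := hB.rpow_const (p := (2 : ℝ) / 3 - 1) (Or.inl hB0.ne')
  have h4 := hB.rpow_const (p := (4 : ℝ) / 3 - 1) (Or.inl hB0.ne')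
  unfold EX EXX
  exact (((((h3.const_mul (2 / 3)).const_mul (6 * K * e)).sub
    ((h4.const_mul (4 / 3)).const_mul (6 * K ^ 2))).const_mul (4 * K)).add_const
    (1 / 30)).congr_deriv (by ring)

/-- second order condition at a local minimum -/
lemma mins (f g k : ℝ → ℝ) (p k2 : ℝ) (hg : ∀ q, 0 < g q)
    (hf : ∀ᶠ q in 𝓝 p, HasDerivAt f (g q * k q) q) (hk : HasDerivAt k (g p * k2) p)
    (hmin : IsLocalMin f p) : k p = 0 ∧ 0 ≤ k2 := by
  have h0 : k p = 0 := by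
    have h1 := hmin.hasDerivAt_eq_zero hf.self_of_nhds
    exact (mul_eq_zero.mp h1).resolve_left (hg p).ne'
  refine ⟨h0, ?_⟩
  by_contra hneg
  push Not at hneg
  have hc : g p * k2 < 0 := mul_neg_of_pos_of_neg (hg p) hneg
  have h1 : ∀ᶠ q in 𝓝[≠] p, slope k p q < 0 :=
    (hasDerivAt_iff_tendsto_slope.mp hk).eventually_lt_const hc
  rw [eventually_nhdsWithin_iff] at h1
  obtain ⟨δ, hδ, hball⟩ := Metric.eventually_nhds_iff.mp (h1.and (hf.and hmin))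
  have hq : ∀ q ∈ Ioo p (p + δ), HasDerivAt f (g q * k q) q ∧ g q * k q < 0 ∧ f p ≤ f q := by
    intro q hq
    have h2 := hball (y := q) (by rw [Real.dist_eq, abs_of_pos (by linarith [hq.1])]; linarith [hq.2])
    refine ⟨h2.2.1, ?_, h2.2.2⟩
    have h3 := h2.1 (by simpa using hq.1.ne')
    rw [slope_def_field, h0, sub_zero, div_neg_iff] at h3
    rcases h3 with h3 | h3
    · linarith [h3.2, hq.1]
    · exact mul_neg_of_pos_of_neg (hg q) h3.1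
  have hcont : ContinuousOn f (Icc p (p + δ / 2)) := by
    intro q hq'
    apply ContinuousAt.continuousWithinAt
    have h2 := hball (y := q) (by
      rw [Real.dist_eq, abs_of_nonneg (by linarith [hq'.1])]; linarith [hq'.2])
    exact h2.2.1.continuousAt
  obtain ⟨c, hcI, hceq⟩ := exists_hasDerivAt_eq_slope f (fun q => g q * k q)
    (show p < p + δ / 2 by linarith) hcont (fun q hq' => (hq q ⟨hq'.1, by linarith [hq'.2]⟩).1)
  have h5 := (hq c ⟨hcI.1, by linarith [hcI.2]⟩).2.1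
  have h6 := (hq (p + δ / 2) ⟨by linarith, by linarith⟩).2.2
  rw [hceq] at h5
  have h7 : 0 ≤ (f (p + δ / 2) - f p) / (p + δ / 2 - p) :=
    div_nonneg (by linarith) (by linarith)
  linarith

/-- the time derivative at a minimum -/
lemma time_deriv (h7 : IdRStmt) (T : ℝ) (W : FlowData) (hW : IsFlow T W) (K t p : ℝ)
    (ht : t ∈ Ioo 0 T) (hp : p ∈ Ioo 0 π) (h5 : IdStmt)
    (hmin : IsLocalMin (fun q => W.v t q - W.r t q / 10 + EE K (W.Y t 0) (W.X t q)) p) :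
    ∃ D, HasDerivAt (fun s => W.v s p - W.r s p / 10 + EE K (W.Y s 0) (W.X s p)) D t ∧
      W.C0 t p * (W.v t p - W.r t p / 10) + ED K (W.Y t 0) (W.X t p) * W.v t 0
        - W.f t p * cos (W.th t p) ^ 2 * EXX K ((W.Y t 0) ^ ((1 : ℝ) / 3)) (W.X t p) ≤ D := by
  have ht' : t ∈ Ico 0 T := ⟨ht.1.le, ht.2⟩
  have hX : 0 < W.X t p := hW.Xpos t ht' p hp
  have hd : 0 < W.Y t 0 := hW.tip t ht'
  have hf : 0 < W.f t p := ((h5 T W hW).1 t ht' p).2.2.1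
  obtain ⟨h71, h72⟩ := h7 T W hW
  obtain ⟨hr0, -⟩ := h72 t ht p
  have hY0 : HasDerivAt (fun s => W.Y s 0) (W.v t 0) t := by
    have := hW.Yt t ht 0
    rw [hW.th0 t ht', hW.lam0 t ht'] at this
    simpa using this
  have hE := hasDerivAt_EE K (fun s => W.Y s 0) (fun s => W.X s p) _ _ t hY0 (hW.Xt t ht p) hd hX
  refine ⟨_, ((hW.vt t ht p).sub (hr0.div_const 10)).add hE, ?_⟩
  -- the spatial conditions
  have hfd : ∀ᶠ q in 𝓝 p, HasDerivAt (fun q => W.v t q - W.r t q / 10 + EE K (W.Y t 0) (W.X t q))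
      (W.g t q * (W.v1 t q - W.r1 t q / 10 +
        EX K ((W.Y t 0) ^ ((1 : ℝ) / 3)) (W.X t q) * cos (W.th t q))) q := by
    filter_upwards [Ioo_mem_nhds hp.1 hp.2] with q hq
    have hXq : 0 < W.X t q := hW.Xpos t ht' q hq
    have h8 := hasDerivAt_EE K (fun _ => W.Y t 0) (fun s => W.X t s) 0 _ q
      (hasDerivAt_const q (W.Y t 0)) (hW.Xp t ht' q) hd hXq
    have h9 : HasDerivAt (W.r t) (W.g t q * W.r1 t q) q :=
      ((h5 T W hW).1 t ht' q).2.2.2.2.2.2.2.2.2.2.2.2.2.1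
    exact (((hW.vp t ht' q).sub (h9.div_const 10)).add h8).congr_deriv (by ring)
  have hkd : HasDerivAt (fun q => W.v1 t q - W.r1 t q / 10 +
        EX K ((W.Y t 0) ^ ((1 : ℝ) / 3)) (W.X t q) * cos (W.th t q))
      (W.g t p * (W.v2 t p - W.r2 t p / 10 +
        (EXX K ((W.Y t 0) ^ ((1 : ℝ) / 3)) (W.X t p) * cos (W.th t p) ^ 2
        - EX K ((W.Y t 0) ^ ((1 : ℝ) / 3)) (W.X t p) * (sin (W.th t p) * W.kap t p)))) p := by
    have h9 : HasDerivAt (W.r1 t) (W.g t p * W.r2 t p) p :=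
      ((h5 T W hW).1 t ht' p).2.2.2.2.2.2.2.2.2.2.2.2.2.2.2.2.2.2.2.1
    have h10 := hasDerivAt_EX K ((W.Y t 0) ^ ((1 : ℝ) / 3)) (W.X t) _ p (hW.Xp t ht' p) hX
    exact (((hW.v1p t ht' p).sub (h9.div_const 10)).add
      (h10.mul (hW.thp t ht' p).cos)).congr_deriv (by ring)
  obtain ⟨hk0, hk2⟩ := mins _ (W.g t) _ p _ (hW.gpos t ht') hfd hkd hmin
  have hkap : W.f t p * W.kap t p = W.v t p := by
    unfold FlowData.kap
    field_simp
  have h11 := mul_nonneg hf.le hk2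
  have h12 : W.lam t p * (W.v1 t p - W.r1 t p / 10 +
      EX K ((W.Y t 0) ^ ((1 : ℝ) / 3)) (W.X t p) * cos (W.th t p)) = 0 := by
    rw [hk0, mul_zero]
  have h13 : W.f t p * (W.v2 t p - W.r2 t p / 10 +
        (EXX K ((W.Y t 0) ^ ((1 : ℝ) / 3)) (W.X t p) * cos (W.th t p) ^ 2
        - EX K ((W.Y t 0) ^ ((1 : ℝ) / 3)) (W.X t p) * (sin (W.th t p) * W.kap t p)))
      = W.f t p * (W.v2 t p - W.r2 t p / 10) +
        W.f t p * cos (W.th t p) ^ 2 * EXX K ((W.Y t 0) ^ ((1 : ℝ) / 3)) (W.X t p)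
        - EX K ((W.Y t 0) ^ ((1 : ℝ) / 3)) (W.X t p) * sin (W.th t p) * W.v t p := by
    rw [← hkap]
    ring
  rw [h13] at h11
  nlinarith [h11, h12]

lemma cr (d : ℝ) (hd : 0 < d) : ∃ e > 0, e ^ 3 = d :=
  ⟨d ^ ((1 : ℝ) / 3), Real.rpow_pos_of_pos hd _, by
    rw [← Real.rpow_natCast, ← Real.rpow_mul hd.le]; norm_num⟩

lemma EE_ge (K d X q : ℝ) (hK : 1 ≤ K) (hd : 0 < d) (hX : 0 ≤ X) (hXq : X ≤ q ^ 3) (hq : 0 < q)
    (hq2 : q ≤ 1 / (720 * K ^ 3)) : 4 * K * d ^ ((2 : ℝ) / 3) ≤ EE K d X := by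
  have hK0 : 0 < K := by linarith
  obtain ⟨e, he, rfl⟩ := cr d hd
  rw [rp2 e he]
  rcases hX.eq_or_lt with h | h
  · rw [← h, EE_zero K e he]
  · obtain ⟨x, hx, rfl⟩ := cr X h
    rw [EE_eq K e x he hx]
    have hxq : x ≤ q := (pow_le_pow_iff_left₀ hx.le hq.le (by norm_num)).mp hXq
    have h1 : x * (720 * K ^ 3) ≤ 1 := by
      rw [le_div_iff₀ (by positivity)] at hq2
      exact (mul_le_mul_of_nonneg_right hxq (by positivity)).trans hq2
    have h2 : x * (720 * K ^ 3) * x ^ 3 ≤ 1 * x ^ 3 :=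
      mul_le_mul_of_nonneg_right h1 (by positivity)
    have h3 : 0 ≤ 24 * K ^ 2 * e * x ^ 2 := by positivity
    nlinarith

/-- the cube root of `rho` -/
lemma pt (h5 : IdStmt) (T : ℝ) (W : FlowData) (hW : IsFlow T W) (t p : ℝ) (ht : t ∈ Ico 0 T) :
    ∃ q > 0, q ^ 3 = W.rho t p ∧ q ^ 2 = W.ss t p ∧ q ^ 6 = W.u t p ∧ W.f t p = 3 * q ^ 4 := by
  obtain ⟨-, hf3, -, hsspos, hrhopos, hrho2, hss3, -, -⟩ := (h5 T W hW).1 t ht p
  obtain ⟨q, hq, hq3⟩ := cr (W.rho t p) hrhopos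
  have hu : q ^ 6 = W.u t p := by rw [← hrho2, ← hq3]; ring
  have hs : q ^ 2 = W.ss t p := by
    apply (pow_left_inj₀ (by positivity) hsspos.le (by norm_num : (3 : ℕ) ≠ 0)).mp
    rw [hss3, ← hu]
    ring
  refine ⟨q, hq, hq3, hs, hu, ?_⟩
  rw [hf3, ← hs]
  ring

lemma Xnonneg (T : ℝ) (W : FlowData) (hW : IsFlow T W) (t p : ℝ) (ht : t ∈ Ico 0 T)
    (hp : p ∈ Icc 0 π) : 0 ≤ W.X t p := by
  rcases hp.1.eq_or_lt with h | h
  · rw [← h, hW.X0 t ht]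
  · rcases hp.2.eq_or_lt with h' | h'
    · rw [h', hW.Xpi t ht]
    · exact (hW.Xpos t ht p ⟨h, h'⟩).le

lemma cont (h6 : IdCStmt) (T : ℝ) (W : FlowData) (hW : IsFlow T W) (K t1 : ℝ)
    (ht1 : t1 ∈ Ico 0 T) :
    COn 0 t1 (fun t p => W.v t p - W.r t p / 10 + EE K (W.Y t 0) (W.X t p)) := by
  have hsub : Icc 0 t1 ×ˢ Icc 0 π ⊆ Ico 0 T ×ˢ (univ : Set ℝ) := by
    rintro ⟨s, q⟩ ⟨hs, _⟩
    exact ⟨⟨hs.1, hs.2.trans_lt ht1.2⟩, mem_univ _⟩
  have hv : ContinuousOn (fun z : ℝ × ℝ => W.v z.1 z.2) (Icc 0 t1 ×ˢ Icc 0 π) := hW.cv.mono hsub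
  have hX : ContinuousOn (fun z : ℝ × ℝ => W.X z.1 z.2) (Icc 0 t1 ×ˢ Icc 0 π) := hW.cX.mono hsub
  have hr : ContinuousOn (fun z : ℝ × ℝ => W.r z.1 z.2) (Icc 0 t1 ×ˢ Icc 0 π) :=
    (h6 T W hW W.r (by simp)).mono hsub
  have hY : ContinuousOn (fun z : ℝ × ℝ => W.Y z.1 0) (Icc 0 t1 ×ˢ Icc 0 π) := by
    have h1 : ContinuousOn (fun z : ℝ × ℝ => ((z.1, 0) : ℝ × ℝ)) (Icc 0 t1 ×ˢ Icc 0 π) :=
      (continuous_fst.prodMk continuous_const).continuousOn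
    exact hW.cY.comp h1 (fun z hz => ⟨⟨hz.1.1, hz.1.2.trans_lt ht1.2⟩, mem_univ _⟩)
  unfold COn EE
  exact (hv.sub (hr.div_const 10)).add ((continuousOn_const.mul
    (((hY.rpow_const (fun _ _ => Or.inr (by norm_num))).add
      ((continuousOn_const.mul (hY.rpow_const (fun _ _ => Or.inr (by norm_num)))).mul
        (hX.rpow_const (fun _ _ => Or.inr (by norm_num))))).sub
      (continuousOn_const.mul (hX.rpow_const (fun _ _ => Or.inr (by norm_num)))))).add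
    (hX.div_const 30))

end S5

open S5 in
theorem s5Stmt (h1 : MpRStmt) (_h2 : MinsStmt) (h3 : S5IneqStmt) (h4 : VbStmt) (h5 : IdStmt)
    (h6 : IdCStmt) (h7 : IdRStmt) : S5Stmt := by
  intro K hK
  have hK0 : 0 < K := by linarith
  obtain ⟨η, hη, q1, hq1, hq1', ε1, hε1, hineq⟩ := h3 K hK
  obtain ⟨ε2, hε2, hvb⟩ := h4 K hK η hη
  obtain ⟨q2, hq2, hq2a, hq2b⟩ : ∃ q2 > 0, q2 ≤ q1 ∧ q2 ≤ 1 / (720 * K ^ 3) :=
    ⟨min q1 (1 / (720 * K ^ 3)), lt_min hq1 (by positivity), min_le_left _ _, min_le_right _ _⟩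
  have hq220 : q2 ≤ 1 / 20 := hq2a.trans hq1'
  have hs1 : q2 ^ 2 ≤ 1 / 400 := by nlinarith
  refine ⟨min ε1 ε2, lt_min hε1 hε2, q2 ^ 2, by positivity, hs1, ?_⟩
  intro b C3 T W hb hb' h40 hC3 hW hInit t1 ht1 hpack
  have hIcc : ∀ t ∈ Icc 0 t1, t ∈ Ico 0 T := fun t ht => ⟨ht.1, ht.2.trans_lt ht1.2⟩
  have hsub : Icc 0 t1 ×ˢ Icc 0 π ⊆ Ico 0 T ×ˢ (univ : Set ℝ) := by
    rintro ⟨s, q⟩ ⟨hs, _⟩
    exact ⟨hIcc s hs, mem_univ _⟩
  obtain ⟨L, hL⟩ := (isCompact_Icc.prod isCompact_Icc).exists_bound_of_continuousOn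
    ((h6 T W hW W.C0 (by simp)).mono hsub)
  -- the comparison function is nonnegative
  have hEE : ∀ t ∈ Icc 0 t1, ∀ p ∈ Icc 0 π, W.ss t p ≤ q2 ^ 2 →
      4 * K * (W.Y t 0) ^ ((2 : ℝ) / 3) ≤ EE K (W.Y t 0) (W.X t p) := by
    intro t ht p hp hs
    obtain ⟨q, hq, hq3, hqs, -, -⟩ := pt h5 T W hW t p (hIcc t ht)
    have hX := ((h5 T W hW).1 t (hIcc t ht) p).2.2.2.2.2.2.2.2.2.2.1
    have hqq : q ≤ q2 := by
      rw [← hqs] at hs
      exact (pow_le_pow_iff_left₀ hq.le hq2.le (by norm_num)).mp hs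
    apply EE_ge K _ _ q hK (hW.tip t (hIcc t ht)) (Xnonneg T W hW t p (hIcc t ht) hp) _ hq
      (hqq.trans hq2b)
    rw [hq3]
    exact (le_abs_self _).trans hX
  have hRc : COn 0 t1 (fun t p => W.ss t p - q2 ^ 2) := by
    have h8 : ContinuousOn (fun z : ℝ × ℝ => W.ss z.1 z.2) (Icc 0 t1 ×ˢ Icc 0 π) :=
      (h6 T W hW W.ss (by simp)).mono hsub
    unfold COn
    exact h8.sub continuousOn_const
  have key := h1 0 t1 L (fun t p => W.v t p - W.r t p / 10 + EE K (W.Y t 0) (W.X t p))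
    (fun t p => W.ss t p - q2 ^ 2) (cont h6 T W hW K t1 ht1) hRc ?_ ?_ ?_
  · intro t ht p hp hs
    have := key t ht p hp (by linarith)
    linarith
  · -- initial condition
    intro p hp hR
    have h0 : (0 : ℝ) ∈ Icc 0 t1 := ⟨le_rfl, ht1.1⟩
    have hs : W.ss 0 p ≤ q2 ^ 2 := by linarith
    obtain ⟨q, hq, hq3, hqs, -, -⟩ := pt h5 T W hW 0 p (hIcc 0 h0)
    have hqq : q ≤ 1 / 20 := by
      rw [← hqs] at hs
      exact ((pow_le_pow_iff_left₀ hq.le hq2.le (by norm_num)).mp hs).trans hq220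
    have hrho : W.rho 0 p ≤ 1 / 8000 := by
      rw [← hq3]
      calc q ^ 3 ≤ (1 / 20) ^ 3 := pow_le_pow_left₀ hq.le hqq 3
        _ = 1 / 8000 := by norm_num
    have h8 := hInit.inner p hp hrho
    have h9 := hEE 0 h0 p hp hs
    have h10 : C3 * (W.Y 0 0) ^ ((2 : ℝ) / 3) ≤ 4 * K * (W.Y 0 0) ^ ((2 : ℝ) / 3) :=
      mul_le_mul_of_nonneg_right hC3 (Real.rpow_nonneg (hW.tip 0 (hIcc 0 h0)).le _)
    linarith
  · -- boundary
    intro t ht p hp hR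
    have hs : W.ss t p = q2 ^ 2 := by linarith
    have h8 := (hpack t ht).1.vlow p hp (by rw [hs]; exact h40)
    have h9 := hEE t ht p hp hs.le
    have h10 : 0 ≤ 4 * K * (W.Y t 0) ^ ((2 : ℝ) / 3) :=
      mul_nonneg (by positivity) (Real.rpow_nonneg (hW.tip t (hIcc t ht)).le _)
    linarith
  · -- negative minimum
    intro t ht p hp hR hy hmin
    have htI : t ∈ Icc 0 t1 := ⟨ht.1.le, ht.2⟩
    have htT : t ∈ Ico 0 T := hIcc t htI
    have htT' : t ∈ Ioo 0 T := ⟨ht.1, htT.2⟩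
    obtain ⟨hP, hYε, hv0⟩ := hpack t htI
    have hd : 0 < W.Y t 0 := hW.tip t htT
    obtain ⟨e, he, hed⟩ := cr (W.Y t 0) hd
    have hd23 : (W.Y t 0) ^ ((2 : ℝ) / 3) = e ^ 2 := by rw [← hed, rp2 e he]
    have hd13 : (W.Y t 0) ^ ((1 : ℝ) / 3) = e := by rw [← hed, rp1 e he]
    rw [hd23] at hv0
    have hs : W.ss t p < q2 ^ 2 := by linarith
    obtain ⟨q, hq, hq3, hqs, hq6, hqf⟩ := pt h5 T W hW t p htT
    have hqq : q ≤ q2 := by
      have := hs.le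
      rw [← hqs] at this
      exact (pow_le_pow_iff_left₀ hq.le hq2.le (by norm_num)).mp this
    obtain ⟨-, -, hfpos, hsspos, hrhopos, hrho2, hss3, -, hr, -, hX, -, -, -, -, -, hssd, -⟩ :=
      (h5 T W hW).1 t htT p
    -- the point is in the interior
    have hp0 : p ≠ 0 := by
      intro h
      rw [h] at hy
      simp only [FlowData.r, hW.X0 t htT, hW.th0 t htT, Real.sin_zero, Real.cos_zero] at hy
      rw [← hed, EE_zero K e he] at hy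
      have : 0 < K * e ^ 2 := by positivity
      linarith
    have hpπ : p ≠ π := by
      intro h
      have h8 := (h5 T W hW).1 t htT π
      have h9 := h8.2.2.2.2.2.2.1
      have h10 := h8.2.2.2.1
      have h11 := hW.top t htT
      rw [h] at hs
      have h12 : W.u t π = W.Y t π ^ 2 := by
        unfold FlowData.u
        rw [hW.Xpi t htT]
        ring
      rw [h12] at h9
      have h13 : W.ss t π ≤ 1 := by linarith
      have h14 : W.ss t π ^ 3 ≤ 1 := pow_le_one₀ h10.le h13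
      have h15 : 1 < W.Y t π ^ 2 := one_lt_pow₀ h11 (by norm_num)
      linarith
    have hpI : p ∈ Ioo 0 π := ⟨lt_of_le_of_ne hp.1 (Ne.symm hp0), lt_of_le_of_ne hp.2 hpπ⟩
    have hXp : 0 < W.X t p := hW.Xpos t htT p hpI
    obtain ⟨x, hx, hxX⟩ := cr (W.X t p) hXp
    have hlm : IsLocalMin (fun q => W.v t q - W.r t q / 10 + EE K (W.Y t 0) (W.X t q)) p := by
      have h8 : ∀ᶠ s in 𝓝 p, W.ss t s < q2 ^ 2 := hssd.continuousAt.eventually_lt_const hs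
      filter_upwards [h8, Ioo_mem_nhds hpI.1 hpI.2] with s hs' hsI
      exact hmin s ⟨hsI.1.le, hsI.2.le⟩ (by linarith)
    obtain ⟨D, hD, hDle⟩ := time_deriv h7 T W hW K t p htT' hpI h5 hlm
    refine ⟨D, hD, ?_⟩
    -- the inequality
    have hxq : x ≤ q := by
      apply (pow_le_pow_iff_left₀ hx.le hq.le (by norm_num : (3 : ℕ) ≠ 0)).mp
      rw [hxX, hq3]
      exact (le_abs_self _).trans hX
    have heq : e ≤ q := by
      have h8 := hP.mono 0 ⟨le_rfl, pi_pos.le⟩ p hp hp.1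
      obtain ⟨-, -, -, hss0, -, -, hss30, -⟩ := (h5 T W hW).1 t htT 0
      have h9 : (W.ss t 0) ^ 3 ≤ (W.ss t p) ^ 3 := pow_le_pow_left₀ hss0.le h8 3
      rw [hss30, hss3, ← hq6] at h9
      have h12 : W.u t 0 = (e ^ 3) ^ 2 := by
        unfold FlowData.u
        rw [hW.X0 t htT, hed]
        ring
      rw [h12] at h9
      apply (pow_le_pow_iff_left₀ he.le hq.le (by norm_num : (6 : ℕ) ≠ 0)).mp
      calc e ^ 6 = (e ^ 3) ^ 2 := by ring
        _ ≤ q ^ 6 := h9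
    have hemin : e ≤ min ε1 ε2 := by
      apply (pow_le_pow_iff_left₀ he.le (lt_min hε1 hε2).le (by norm_num : (3 : ℕ) ≠ 0)).mp
      rw [hed]
      exact hYε
    have hcos : 9 / 10 ≤ cos (W.th t p) ^ 2 := by
      have h8 := (hP.near p hp (hs.le.trans hs1)).1
      calc (9 / 10 : ℝ) ≤ (99 / 100) ^ 2 := by norm_num
        _ ≤ cos (W.th t p) ^ 2 := pow_le_pow_left₀ (by norm_num) h8 2
    have hv00 : W.v t 0 ≤ 0 := hP.vtip
    obtain ⟨K0, hK0def⟩ : ∃ K0, K0 = - W.v t 0 / (3 * e ^ 2) := ⟨_, rfl⟩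
    have hv0eq : W.v t 0 = -(3 * K0 * e ^ 2) := by
      rw [hK0def]
      field_simp
    have hK00 : 0 ≤ K0 := by
      rw [hK0def]
      apply div_nonneg (by linarith) (by positivity)
    have hK0K : K0 ≤ K := by
      rw [hK0def, div_le_iff₀ (by positivity)]
      linarith
    have hVb := hvb b T W hW hb' t htT hP e he hed (hemin.trans (min_le_right _ _)) hv0 p hp
      (hs.le.trans hs1)
    have hEeq : EE K (W.Y t 0) (W.X t p) =
        4 * K * (e ^ 2 + 6 * K * e * x ^ 2 - 6 * K ^ 2 * x ^ 4) + x ^ 3 / 30 := by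
      rw [← hed, ← hxX, EE_eq K e x he hx]
    have hin := (hineq e x q (W.v t p) (W.ze t p) (cos (W.th t p) ^ 2) K0 he
      (hemin.trans (min_le_left _ _)) hx hxq (hqq.trans hq2a) heq hcos hK00 hK0K
      (by
        intro hv
        obtain ⟨h8, h9⟩ := hVb.1 hv
        refine ⟨h8, ?_⟩
        rw [hq3]
        exact h9)
      (by
        intro hv
        have h8 := hVb.2 hv
        have h9 : q ^ 5 = W.rho t p * W.ss t p := by
          rw [← hq3, ← hqs]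
          ring
        rw [h9, ← mul_assoc]
        exact h8)
      (by
        rw [← hEeq, hq3]
        have h8 := (le_abs_self _).trans hr
        linarith)).2
    have hC0 : W.C0 t p = W.v t p ^ 2 / (3 * q ^ 4) + 4 / 3 * (W.ze t p / q ^ 6) * W.v t p := by
      unfold FlowData.C0
      rw [hqf, hq6]
    have hC0L : W.C0 t p ≤ L := (le_abs_self _).trans (hL (t, p) ⟨htI, hp⟩)
    rw [hv0eq, hd13] at hDle
    rw [← hEeq, ← hC0] at hin
    have h20 : ED K (W.Y t 0) (W.X t p) * (-(3 * K0 * e ^ 2)) =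
        -(4 * K * K0 * (2 * e + 6 * K * x ^ 2)) := by
      rw [← hed, ← hxX, ED_eq K K0 e x he hx]
    have h21 : EXX K e (W.X t p) = -(4 * K * (4 / 3 * K * e / x ^ 4 + 8 / 3 * K ^ 2 / x ^ 2)) := by
      rw [← hxX, EXX_eq K e x hx]
    rw [h20, h21, hqf] at hDle
    have h22 : L * (W.v t p - W.r t p / 10 + EE K (W.Y t 0) (W.X t p)) ≤
        W.C0 t p * (W.v t p - W.r t p / 10 + EE K (W.Y t 0) (W.X t p)) :=
      mul_le_mul_of_nonpos_right hC0L hy.le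
    show L * (W.v t p - W.r t p / 10 + EE K (W.Y t 0) (W.X t p)) ≤ D
    linarith

end Pool.Agent.Lib.MP_c60e08_gt.Lm
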