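import Pool.Agent.Lib.MP_c60e08_gt.LmFlow2

set_option autoImplicit false

namespace Pool.Agent.Lib.MP_c60e08_gt.Lm.S5Ineq

open Real

/-- the upper bound of `E` -/
theorem E_bounds {K e x q : ℝ} (hK : 1 ≤ K) (he : 0 < e) (hx : 0 < x) (hxq : x ≤ q)
    (hKq : K ^ 3 * q ≤ 1 / 1000) :
    0 < 4 * K * (e ^ 2 + 6 * K * e * x ^ 2 - 6 * K ^ 2 * x ^ 4) + x ^ 3 / 30 ∧
    4 * K * (e ^ 2 + 6 * K * e * x ^ 2 - 6 * K ^ 2 * x ^ 4) + x ^ 3 / 30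
      ≤ 4 * K * e ^ 2 + 24 * K ^ 2 * (e * q ^ 2) + q ^ 3 / 30 := by
  have hK0 : 0 < K := by linarith
  have hKx : K ^ 3 * x ≤ 1 / 1000 :=
    (mul_le_mul_of_nonneg_left hxq (by positivity)).trans hKq
  have e1 : 4 * K * (e ^ 2 + 6 * K * e * x ^ 2 - 6 * K ^ 2 * x ^ 4) + x ^ 3 / 30
      = 4 * K * e ^ 2 + 24 * K ^ 2 * (e * x ^ 2) + x ^ 3 * (1 / 30 - 24 * (K ^ 3 * x)) := by ring
  have e2 : 0 ≤ x ^ 3 * (1 / 30 - 24 * (K ^ 3 * x)) :=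
    mul_nonneg (by positivity) (by linarith)
  constructor
  · rw [e1]
    have : 0 < 4 * K * e ^ 2 + 24 * K ^ 2 * (e * x ^ 2) := by positivity
    linarith
  · rw [e1]
    have h1 : x ^ 2 ≤ q ^ 2 := pow_le_pow_left₀ hx.le hxq 2
    have h2 : x ^ 3 ≤ q ^ 3 := pow_le_pow_left₀ hx.le hxq 3
    have h3 : 24 * K ^ 2 * (e * x ^ 2) ≤ 24 * K ^ 2 * (e * q ^ 2) := by gcongr
    have h4 : x ^ 3 * (1 / 30 - 24 * (K ^ 3 * x)) ≤ x ^ 3 * (1 / 30) := by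
      apply mul_le_mul_of_nonneg_left _ (by positivity)
      have : 0 ≤ K ^ 3 * x := by positivity
      linarith
    linarith

/-- the middle term -/
theorem mid {K e x q c2 K0 : ℝ} (hK : 1 ≤ K) (he : 0 < e) (hx : 0 < x) (hxq : x ≤ q)
    (hc : 9 / 10 ≤ c2) (hK0K : K0 ≤ K) :
    64 / 10 * (K ^ 2 * e) + 48 / 10 * (K ^ 3 * q ^ 2)
      ≤ -(4 * K * K0 * (2 * e + 6 * K * x ^ 2))
      + c2 * (3 * q ^ 4) * (4 * K) * (4 / 3 * K * e / x ^ 4 + 8 / 3 * K ^ 2 / x ^ 2) := by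
  have hK0 : 0 < K := by linarith
  have hq : 0 < q := by linarith
  have h1 : e ≤ q ^ 4 * (e / x ^ 4) := by
    rw [mul_div_assoc', le_div_iff₀ (by positivity)]
    have : x ^ 4 ≤ q ^ 4 := pow_le_pow_left₀ hx.le hxq 4
    nlinarith
  have h2 : q ^ 2 ≤ q ^ 4 * (1 / x ^ 2) := by
    rw [mul_one_div, le_div_iff₀ (by positivity)]
    have : x ^ 2 ≤ q ^ 2 := pow_le_pow_left₀ hx.le hxq 2
    have hq2 : 0 ≤ q ^ 2 := by positivity
    nlinarith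
  have e1 : c2 * (3 * q ^ 4) * (4 * K) * (4 / 3 * K * e / x ^ 4 + 8 / 3 * K ^ 2 / x ^ 2)
      = c2 * (16 * K ^ 2 * (q ^ 4 * (e / x ^ 4)) + 32 * K ^ 3 * (q ^ 4 * (1 / x ^ 2))) := by
    ring
  have h3 : 9 / 10 * (16 * K ^ 2 * e + 32 * K ^ 3 * q ^ 2)
      ≤ c2 * (16 * K ^ 2 * (q ^ 4 * (e / x ^ 4)) + 32 * K ^ 3 * (q ^ 4 * (1 / x ^ 2))) := by
    apply mul_le_mul hc _ (by positivity) (by linarith)
    have i1 : 16 * K ^ 2 * e ≤ 16 * K ^ 2 * (q ^ 4 * (e / x ^ 4)) := by gcongr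
    have i2 : 32 * K ^ 3 * q ^ 2 ≤ 32 * K ^ 3 * (q ^ 4 * (1 / x ^ 2)) := by gcongr
    linarith
  have h4 : 4 * K * K0 * (2 * e + 6 * K * x ^ 2) ≤ 4 * K * K * (2 * e + 6 * K * q ^ 2) := by
    have i1 : x ^ 2 ≤ q ^ 2 := pow_le_pow_left₀ hx.le hxq 2
    have i2 : 4 * K * K0 ≤ 4 * K * K := by nlinarith
    have i3 : 2 * e + 6 * K * x ^ 2 ≤ 2 * e + 6 * K * q ^ 2 := by
      have : 6 * K * x ^ 2 ≤ 6 * K * q ^ 2 := by gcongr
      linarith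
    calc 4 * K * K0 * (2 * e + 6 * K * x ^ 2) ≤ 4 * K * K * (2 * e + 6 * K * x ^ 2) :=
          mul_le_mul_of_nonneg_right i2 (by positivity)
      _ ≤ 4 * K * K * (2 * e + 6 * K * q ^ 2) :=
          mul_le_mul_of_nonneg_left i3 (by positivity)
  rw [e1]
  have e2 : 4 * K * K * (2 * e + 6 * K * q ^ 2) = 8 * (K ^ 2 * e) + 24 * (K ^ 3 * q ^ 2) := by ring
  have e3 : 9 / 10 * (16 * K ^ 2 * e + 32 * K ^ 3 * q ^ 2)
      = 144 / 10 * (K ^ 2 * e) + 288 / 10 * (K ^ 3 * q ^ 2) := by ring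
  linarith

/-- `q ^ 2 * E` is small -/
theorem q2E {K e q : ℝ} (hK : 1 ≤ K) (he : 0 < e) (hq : 0 < q) (heK : K * e ≤ 1 / 1000)
    (hq1 : q ≤ 1 / 1000) :
    q ^ 2 * (4 * K * e ^ 2 + 24 * K ^ 2 * (e * q ^ 2) + q ^ 3 / 30)
      ≤ 1 / 10 * (K ^ 2 * e) + 1 / 10 * (K ^ 3 * q ^ 2) := by
  have hK0 : 0 < K := by linarith
  have hKe : 0 < K ^ 2 * e := by positivity
  have hKq : 0 < K ^ 3 * q ^ 2 := by positivity
  have hq2 : q ^ 2 ≤ 1 / 1000 := by nlinarith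
  have hq20 : 0 ≤ q ^ 2 := by positivity
  have hK1 : K ≤ K ^ 2 := by nlinarith
  have i1 : q ^ 2 * (4 * K * e ^ 2) ≤ 1 / 100 * (K ^ 2 * e) := by
    have e1 : q ^ 2 * (4 * K * e ^ 2) = (4 * q ^ 2) * ((K * e) * e) := by ring
    have e2 : (K * e) * e ≤ (K * e) * (K * 1) := by
      have : e ≤ K * 1 := by nlinarith
      exact mul_le_mul_of_nonneg_left this (by positivity)
    have e3 : (K * e) * (K * 1) = K ^ 2 * e := by ring
    rw [e1]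
    calc (4 * q ^ 2) * ((K * e) * e) ≤ (4 * q ^ 2) * (K ^ 2 * e) := by
          rw [← e3]
          exact mul_le_mul_of_nonneg_left e2 (by positivity)
      _ ≤ 1 / 100 * (K ^ 2 * e) := by
          apply mul_le_mul_of_nonneg_right _ hKe.le
          linarith
  have i2 : q ^ 2 * (24 * K ^ 2 * (e * q ^ 2)) ≤ 1 / 30 * (K ^ 2 * e) := by
    have e1 : q ^ 2 * (24 * K ^ 2 * (e * q ^ 2)) = (24 * q ^ 2 * q ^ 2) * (K ^ 2 * e) := by ring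
    rw [e1]
    apply mul_le_mul_of_nonneg_right _ hKe.le
    nlinarith
  have i3 : q ^ 2 * (q ^ 3 / 30) ≤ 1 / 30 * (K ^ 3 * q ^ 2) := by
    have e1 : q ^ 3 ≤ 1 := pow_le_one₀ hq.le (by linarith)
    have e2 : 1 ≤ K ^ 3 := one_le_pow₀ hK
    calc q ^ 2 * (q ^ 3 / 30) ≤ q ^ 2 * (1 / 30) := by gcongr
      _ = 1 / 30 * (1 * q ^ 2) := by ring
      _ ≤ 1 / 30 * (K ^ 3 * q ^ 2) := by gcongr
  have e0 : q ^ 2 * (4 * K * e ^ 2 + 24 * K ^ 2 * (e * q ^ 2) + q ^ 3 / 30)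
      = q ^ 2 * (4 * K * e ^ 2) + q ^ 2 * (24 * K ^ 2 * (e * q ^ 2)) + q ^ 2 * (q ^ 3 / 30) := by
    ring
  rw [e0]
  linarith

/-- `(e / q) ^ 3 * E` is small -/
theorem r3E {K e q : ℝ} (hK : 1 ≤ K) (he : 0 < e) (hq : 0 < q) (heq : e ≤ q)
    (heK : K * e ≤ 1 / 1000) :
    131 * K ^ 2 * ((e / q) ^ 4 * (4 * K * e ^ 2 + 24 * K ^ 2 * (e * q ^ 2) + q ^ 3 / 30))
      ≤ K ^ 2 * e ∧
    2 / 3 * ((e / q) ^ 3 * (4 * K * e ^ 2 + 24 * K ^ 2 * (e * q ^ 2) + q ^ 3 / 30))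
      ≤ K ^ 2 * e := by
  have hK0 : 0 < K := by linarith
  have hKe : 0 < K ^ 2 * e := by positivity
  have he1 : e ≤ 1 / 1000 := by nlinarith
  have hr0 : 0 < e / q := by positivity
  have hr1 : e / q ≤ 1 := by rwa [div_le_one hq]
  set r : ℝ := e / q with hr
  have her : e = r * q := by rw [hr]; field_simp
  have hr2 : r ^ 2 ≤ 1 := pow_le_one₀ hr0.le hr1
  have hr3 : r ^ 3 ≤ 1 := pow_le_one₀ hr0.le hr1
  have hr4 : r ^ 4 ≤ 1 := pow_le_one₀ hr0.le hr1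
  -- the three products for `r ^ 3`
  have j1 : r ^ 3 * (4 * K * e ^ 2) ≤ 4 * K * e ^ 2 := by
    have : r ^ 3 * (4 * K * e ^ 2) ≤ 1 * (4 * K * e ^ 2) := by gcongr
    linarith
  have j2 : r ^ 3 * (24 * K ^ 2 * (e * q ^ 2)) ≤ 24 * K ^ 2 * e ^ 3 := by
    have e1 : r ^ 3 * (24 * K ^ 2 * (e * q ^ 2)) = r * (24 * K ^ 2 * (e * (r * q) ^ 2)) := by ring
    rw [e1, ← her]
    calc r * (24 * K ^ 2 * (e * e ^ 2)) ≤ 1 * (24 * K ^ 2 * (e * e ^ 2)) := by gcongr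
      _ = 24 * K ^ 2 * e ^ 3 := by ring
  have j3 : r ^ 3 * (q ^ 3 / 30) = e ^ 3 / 30 := by
    have e1 : r ^ 3 * (q ^ 3 / 30) = (r * q) ^ 3 / 30 := by ring
    rw [e1, ← her]
  have jsum : r ^ 3 * (4 * K * e ^ 2 + 24 * K ^ 2 * (e * q ^ 2) + q ^ 3 / 30)
      ≤ 4 * K * e ^ 2 + 24 * K ^ 2 * e ^ 3 + e ^ 3 / 30 := by
    have e0 : r ^ 3 * (4 * K * e ^ 2 + 24 * K ^ 2 * (e * q ^ 2) + q ^ 3 / 30)
      = r ^ 3 * (4 * K * e ^ 2) + r ^ 3 * (24 * K ^ 2 * (e * q ^ 2)) + r ^ 3 * (q ^ 3 / 30) := by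
      ring
    rw [e0, j3]
    linarith
  -- the sum is small
  have k1 : 4 * K * e ^ 2 ≤ 4 / 1000 * e := by
    have e1 : 4 * K * e ^ 2 = 4 * (K * e) * e := by ring
    rw [e1]
    apply mul_le_mul_of_nonneg_right _ he.le
    linarith
  have k2 : 24 * K ^ 2 * e ^ 3 ≤ 24 / 1000000 * e := by
    have e1 : 24 * K ^ 2 * e ^ 3 = 24 * (K * e) ^ 2 * e := by ring
    have e2 : (K * e) ^ 2 ≤ (1 / 1000) ^ 2 := pow_le_pow_left₀ (by positivity) heK 2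
    rw [e1]
    apply mul_le_mul_of_nonneg_right _ he.le
    linarith
  have k3 : e ^ 3 / 30 ≤ 1 / 1000000 * e := by
    have e1 : e ^ 3 / 30 = (e ^ 2 / 30) * e := by ring
    have e2 : e ^ 2 ≤ (1 / 1000) ^ 2 := pow_le_pow_left₀ he.le he1 2
    rw [e1]
    apply mul_le_mul_of_nonneg_right _ he.le
    linarith
  have ksum : r ^ 3 * (4 * K * e ^ 2 + 24 * K ^ 2 * (e * q ^ 2) + q ^ 3 / 30) ≤ 5 / 1000 * e := by
    linarith
  have hS0 : 0 ≤ r ^ 3 * (4 * K * e ^ 2 + 24 * K ^ 2 * (e * q ^ 2) + q ^ 3 / 30) := by positivity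
  constructor
  · have e1 : r ^ 4 * (4 * K * e ^ 2 + 24 * K ^ 2 * (e * q ^ 2) + q ^ 3 / 30)
        ≤ 5 / 1000 * e := by
      have e2 : r ^ 4 * (4 * K * e ^ 2 + 24 * K ^ 2 * (e * q ^ 2) + q ^ 3 / 30)
          = r * (r ^ 3 * (4 * K * e ^ 2 + 24 * K ^ 2 * (e * q ^ 2) + q ^ 3 / 30)) := by ring
      rw [e2]
      calc r * (r ^ 3 * (4 * K * e ^ 2 + 24 * K ^ 2 * (e * q ^ 2) + q ^ 3 / 30))
          ≤ 1 * (r ^ 3 * (4 * K * e ^ 2 + 24 * K ^ 2 * (e * q ^ 2) + q ^ 3 / 30)) := by gcongr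
        _ ≤ 5 / 1000 * e := by linarith
    calc 131 * K ^ 2 * (r ^ 4 * (4 * K * e ^ 2 + 24 * K ^ 2 * (e * q ^ 2) + q ^ 3 / 30))
        ≤ 131 * K ^ 2 * (5 / 1000 * e) := by gcongr
      _ = 655 / 1000 * (K ^ 2 * e) := by ring
      _ ≤ K ^ 2 * e := by linarith
  · have hK2 : 1 ≤ K ^ 2 := one_le_pow₀ hK
    nlinarith

end S5Ineq

open Real in
open S5Ineq in
theorem s5IneqStmt : S5IneqStmt := by
  intro K hK
  have hK0 : 0 < K := by linarith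
  have hK31 : 1 ≤ K ^ 3 := one_le_pow₀ hK
  refine ⟨1, one_pos, 1 / (1000 * K ^ 3), by positivity, ?_, 1 / (1000 * K), by positivity, ?_⟩
  · rw [div_le_div_iff₀ (by positivity) (by norm_num)]
    linarith
  intro e x q v ze c2 K0 he heε hx hxq hqq heq hc2 hK00 hK0K hvn hvp hvE
  have hq : 0 < q := by linarith
  have hKq : K ^ 3 * q ≤ 1 / 1000 := by
    calc K ^ 3 * q ≤ K ^ 3 * (1 / (1000 * K ^ 3)) := by gcongr
      _ = 1 / 1000 := by field_simp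
  have hKe : K * e ≤ 1 / 1000 := by
    calc K * e ≤ K * (1 / (1000 * K)) := by gcongr
      _ = 1 / 1000 := by field_simp
  have hq1 : q ≤ 1 / 1000 := by nlinarith
  obtain ⟨hE0, hEu⟩ := E_bounds hK he hx hxq hKq
  refine ⟨hE0, ?_⟩
  have hmid := mid (K0 := K0) hK he hx hxq hc2 hK0K
  set E : ℝ := 4 * K * (e ^ 2 + 6 * K * e * x ^ 2 - 6 * K ^ 2 * x ^ 4) + x ^ 3 / 30 with hE
  set Ep : ℝ := 4 * K * e ^ 2 + 24 * K ^ 2 * (e * q ^ 2) + q ^ 3 / 30 with hEp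
  have hEp0 : 0 ≤ Ep := by positivity
  have hq2E := q2E hK he hq hKe hq1
  obtain ⟨hr4, hr3⟩ := r3E hK he hq heq hKe
  rw [← hEp] at hq2E hr4 hr3
  have hKe0 : 0 < K ^ 2 * e := by positivity
  have hKq0 : 0 < K ^ 3 * q ^ 2 := by positivity
  have hmain : (v ^ 2 / (3 * q ^ 4) + 4 / 3 * (ze / q ^ 6) * v) * E
      ≤ 2 * (K ^ 2 * e) + K ^ 3 * q ^ 2 := by
    rcases le_total v 0 with hv | hv
    · obtain ⟨hze, hvb⟩ := hvn hv
      have e1 : 4 / 3 * (ze / q ^ 6) * v ≤ 0 :=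
        mul_nonpos_of_nonneg_of_nonpos (by positivity) hv
      have e2 : v ^ 2 / (3 * q ^ 4) ≤ 131 * K ^ 2 * (e / q) ^ 4 + q ^ 2 := by
        rw [div_le_iff₀ (by positivity)]
        have i1 : v ^ 2 ≤ (14 * K * e ^ 2 + 1 * q ^ 3) ^ 2 := by
          have : (-v) ^ 2 ≤ (14 * K * e ^ 2 + 1 * q ^ 3) ^ 2 :=
            pow_le_pow_left₀ (by linarith) hvb 2
          linarith [this, neg_sq v]
        have i2 : (14 * K * e ^ 2 + 1 * q ^ 3) ^ 2 ≤ 392 * K ^ 2 * e ^ 4 + 2 * q ^ 6 := by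
          nlinarith [sq_nonneg (14 * K * e ^ 2 - q ^ 3)]
        have i3 : (131 * K ^ 2 * (e / q) ^ 4 + q ^ 2) * (3 * q ^ 4)
            = 393 * K ^ 2 * e ^ 4 + 3 * q ^ 6 := by
          field_simp
          ring
        rw [i3]
        have i4 : 0 ≤ K ^ 2 * e ^ 4 := by positivity
        have i5 : 0 ≤ q ^ 6 := by positivity
        linarith
      calc (v ^ 2 / (3 * q ^ 4) + 4 / 3 * (ze / q ^ 6) * v) * E
          ≤ (131 * K ^ 2 * (e / q) ^ 4 + q ^ 2) * E :=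
            mul_le_mul_of_nonneg_right (by linarith) hE0.le
        _ ≤ (131 * K ^ 2 * (e / q) ^ 4 + q ^ 2) * Ep :=
            mul_le_mul_of_nonneg_left hEu (by positivity)
        _ = 131 * K ^ 2 * ((e / q) ^ 4 * Ep) + q ^ 2 * Ep := by ring
        _ ≤ 2 * (K ^ 2 * e) + K ^ 3 * q ^ 2 := by linarith
    · have hzeb := hvp hv
      have hvq : v ≤ q ^ 3 / 10 := by linarith
      have e1 : v ^ 2 / (3 * q ^ 4) ≤ q ^ 2 / 300 := by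
        rw [div_le_iff₀ (by positivity)]
        have i1 : v ^ 2 ≤ (q ^ 3 / 10) ^ 2 := pow_le_pow_left₀ hv hvq 2
        have i2 : q ^ 2 / 300 * (3 * q ^ 4) = (q ^ 3 / 10) ^ 2 := by ring
        linarith
      have e2 : 4 / 3 * (ze / q ^ 6) * v ≤ 2 / 3 * (e / q) ^ 3 + 2 / 15 * q ^ 2 := by
        rcases le_total ze 0 with hz | hz
        · have i1 : 4 / 3 * (ze / q ^ 6) * v ≤ 0 := by
            have : ze / q ^ 6 ≤ 0 := div_nonpos_of_nonpos_of_nonneg hz (by positivity)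
            exact mul_nonpos_of_nonpos_of_nonneg (by linarith) hv
          have i2 : 0 ≤ 2 / 3 * (e / q) ^ 3 + 2 / 15 * q ^ 2 := by positivity
          linarith
        · have i1 : ze / q ^ 6 ≤ (5 * e ^ 3 + 1 * q ^ 5) / q ^ 6 := by gcongr
          calc 4 / 3 * (ze / q ^ 6) * v
              ≤ 4 / 3 * ((5 * e ^ 3 + 1 * q ^ 5) / q ^ 6) * (q ^ 3 / 10) := by gcongr
            _ = 2 / 3 * (e / q) ^ 3 + 2 / 15 * q ^ 2 := by
                field_simp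
                ring
      calc (v ^ 2 / (3 * q ^ 4) + 4 / 3 * (ze / q ^ 6) * v) * E
          ≤ (2 / 3 * (e / q) ^ 3 + q ^ 2) * E := by
            apply mul_le_mul_of_nonneg_right _ hE0.le
            have : 0 ≤ q ^ 2 := by positivity
            linarith
        _ ≤ (2 / 3 * (e / q) ^ 3 + q ^ 2) * Ep :=
            mul_le_mul_of_nonneg_left hEu (by positivity)
        _ = 2 / 3 * ((e / q) ^ 3 * Ep) + q ^ 2 * Ep := by ring
        _ ≤ 2 * (K ^ 2 * e) + K ^ 3 * q ^ 2 := by linarith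
  linarith

end Pool.Agent.Lib.MP_c60e08_gt.Lm
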