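import Pool.Agent.Lib.MP_c60e08_gt.LmFlow2

/-!
MP_c60e08_gt, module Shoot: the shooting argument; final combination of the FLOW part.
-/

namespace Pool.Agent.Lib.MP_c60e08_gt.Lm

open Real Set Filter Topology

/-- the cubic rate, from the differential inequality of the tip -/
theorem Shoot.rate (T K : ℝ) (d v : ℝ → ℝ) (hK : 0 < K) (hd : ∀ t ∈ Ico 0 T, 0 < d t)
    (hc : ContinuousOn d (Ico 0 T)) (hder : ∀ t ∈ Ioo 0 T, HasDerivAt d (v t) t)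
    (hv : ∀ t ∈ Ico 0 T, - v t ≤ 3 * K * (d t) ^ ((2 : ℝ) / 3))
    (hmono : ∀ t1 t2, 0 ≤ t1 → t1 < t2 → t2 < T → d t2 ≤ d t1)
    (hinf : ∀ η > 0, ∃ t ∈ Ico 0 T, d t < η) :
    ∀ t ∈ Ico 0 T, d t ≤ (K * (T - t)) ^ 3 := by
  have hmon : MonotoneOn (fun t => (d t) ^ ((1 : ℝ) / 3) + K * t) (Ico 0 T) := by
    apply monotoneOn_of_deriv_nonneg (convex_Ico 0 T)
    · exact (hc.rpow_const (fun t _ => Or.inr (by norm_num))).add (by fun_prop)
    · rw [interior_Ico]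
      intro t ht
      have h1 := (hder t ht).rpow_const (p := (1 : ℝ) / 3)
        (Or.inl (hd t ⟨ht.1.le, ht.2⟩).ne')
      exact (h1.add ((hasDerivAt_id t).const_mul K)).differentiableAt.differentiableWithinAt
    · rw [interior_Ico]
      intro t ht
      have hdt := hd t ⟨ht.1.le, ht.2⟩
      have h1 := (hder t ht).rpow_const (p := (1 : ℝ) / 3) (Or.inl hdt.ne')
      have h2 : HasDerivAt (fun t => (d t) ^ ((1 : ℝ) / 3) + K * t)
          (v t * (1 / 3) * d t ^ ((1 : ℝ) / 3 - 1) + K * 1) t :=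
        h1.add ((hasDerivAt_id t).const_mul K)
      rw [h2.deriv]
      have h3 := hv t ⟨ht.1.le, ht.2⟩
      have h4 : d t ^ ((2 : ℝ) / 3) * d t ^ ((1 : ℝ) / 3 - 1) = 1 := by
        rw [← Real.rpow_add hdt]
        norm_num
      have h5 : 0 < d t ^ ((1 : ℝ) / 3 - 1) := Real.rpow_pos_of_pos hdt _
      have h6 := mul_le_mul_of_nonneg_right h3 h5.le
      have h7 : 3 * K * d t ^ ((2 : ℝ) / 3) * d t ^ ((1 : ℝ) / 3 - 1) = 3 * K := by
        rw [mul_assoc, h4, mul_one]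
      rw [h7] at h6
      linarith
  intro t ht
  have hdt := hd t ht
  -- `d t ^ (1/3) ≤ K (T - t)`
  have key : (d t) ^ ((1 : ℝ) / 3) ≤ K * (T - t) := by
    apply le_of_forall_pos_le_add
    intro ε hε
    obtain ⟨s, hs, hds⟩ := hinf (min (d t) (ε ^ 3)) (lt_min hdt (by positivity))
    have hst : t < s := by
      by_contra hle
      push Not at hle
      rcases eq_or_lt_of_le hle with h | h
      · rw [h] at hds
        exact absurd (hds.trans_le (min_le_left _ _)) (lt_irrefl _)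
      · have h1 := hmono s t hs.1 h ht.2
        exact absurd (hds.trans_le (min_le_left _ _)) (not_lt.2 h1)
    have h1 := hmon ht hs hst.le
    simp only at h1
    have hds0 := hd s hs
    have h2 : (d s) ^ ((1 : ℝ) / 3) ≤ ε := by
      have h3 : (d s) ^ ((1 : ℝ) / 3) ≤ (ε ^ 3) ^ ((1 : ℝ) / 3) :=
        Real.rpow_le_rpow hds0.le (hds.le.trans (min_le_right _ _)) (by norm_num)
      have h4 : (ε ^ 3) ^ ((1 : ℝ) / 3) = ε := by
        rw [← Real.rpow_natCast, ← Real.rpow_mul hε.le]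
        norm_num
      rwa [h4] at h3
    have h5 : K * s ≤ K * T := mul_le_mul_of_nonneg_left hs.2.le hK.le
    linarith
  have h0 : 0 ≤ (d t) ^ ((1 : ℝ) / 3) := Real.rpow_nonneg hdt.le _
  have h1 : ((d t) ^ ((1 : ℝ) / 3)) ^ 3 = d t := by
    rw [← Real.rpow_natCast, ← Real.rpow_mul hdt.le]
    norm_num
  calc d t = ((d t) ^ ((1 : ℝ) / 3)) ^ 3 := h1.symm
    _ ≤ (K * (T - t)) ^ 3 := pow_le_pow_left₀ h0 key 3

theorem Shoot.u_eq (y : ℕ → ℝ → ℝ → ℝ) (t p : ℝ) : (flowOf y).u t p = uu p (y 0 t p) := by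
  unfold FlowData.u flowOf uu
  simp only
  have h1 : exp (2 * y 0 t p) = exp (y 0 t p) ^ 2 := by
    rw [← Real.exp_nat_mul]
    norm_num
  rw [h1]
  nlinarith [Real.sin_sq_add_cos_sq p]

theorem shootStmt (h1 : FamExStmt) (h2 : OpenBStmt) (h3 : OpenUStmt) (h4 : DisjStmt)
    (h5 : OneBStmt) (h6 : NegAllStmt) (h7 : StdOfStmt) (h8 : CloseStmt) (h9 : HbdStmt)
    (h10 : DistStmt) (h11 : BlowStmt) : ShootStmt := by
  intro hmax huniq hstab hfam hflow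
  obtain ⟨C3, hC3, b1, hb1, hex⟩ := h1 hmax huniq hstab hfam hflow
  obtain ⟨K, hK, b6, hb6, hclose⟩ := h8 C3 hC3
  obtain ⟨b7, hb7, K', hH⟩ := h9 K hK
  obtain ⟨b4, hb4, hdisj⟩ := h4
  obtain ⟨b5, hb5, hone⟩ := h5
  obtain ⟨bN, hbN, hneg⟩ := h6
  obtain ⟨bS, hbS, hstd⟩ := h7
  obtain ⟨bB, hbB, hblow⟩ := h11
  obtain ⟨b, hb, hbb1, hbb6, hbb7, hbb4, hbb5, hbbN, hbbS, hbbB, hb20⟩ :
      ∃ b : ℝ, 0 < b ∧ b ≤ b1 ∧ b ≤ b6 ∧ b ≤ b7 ∧ b ≤ b4 ∧ b ≤ b5 ∧ b ≤ bN ∧ b ≤ bS ∧ b ≤ bB ∧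
        b ≤ 1 / 20 := by
    refine ⟨min b1 (min b6 (min b7 (min b4 (min b5 (min bN (min bS (min bB (1 / 20)))))))),
      ?_, ?_, ?_, ?_, ?_, ?_, ?_, ?_, ?_, ?_⟩
    · have : (0 : ℝ) < 1 / 20 := by norm_num
      simp only [lt_min_iff]
      exact ⟨hb1, hb6, hb7, hb4, hb5, hbN, hbS, hbB, this⟩
    all_goals simp
  obtain ⟨Tt, yy, hF, hU0, hB1⟩ := hex b hb hbb1
  -- the two open sets
  have hUo := h3 b C3 Tt yy hF
  have hBo := h2 b C3 Tt yy hF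
  obtain ⟨l, hl, hlU, hlB⟩ : ∃ l ∈ Icc (0 : ℝ) 1,
      l ∉ {l | ∃ t0 ∈ Ico 0 (Tt l), ∃ e b', Under (flowOf (yy l)) t0 e b'} ∧
      l ∉ {l | ∃ t1 t2, 0 ≤ t1 ∧ t1 < t2 ∧ t2 < Tt l ∧
        (flowOf (yy l)).Y t1 0 < (flowOf (yy l)).Y t2 0} := by
    by_contra hcon
    push Not at hcon
    have hsub : Icc (0 : ℝ) 1 ⊆
        {l | ∃ t0 ∈ Ico 0 (Tt l), ∃ e b', Under (flowOf (yy l)) t0 e b'} ∪
        {l | ∃ t1 t2, 0 ≤ t1 ∧ t1 < t2 ∧ t2 < Tt l ∧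
          (flowOf (yy l)).Y t1 0 < (flowOf (yy l)).Y t2 0} := by
      intro l hl
      by_cases hlU : l ∈ {l | ∃ t0 ∈ Ico 0 (Tt l), ∃ e b', Under (flowOf (yy l)) t0 e b'}
      · exact Or.inl hlU
      · exact Or.inr (hcon l hl hlU)
    obtain ⟨l, -, hlU, hlB⟩ := isPreconnected_Icc _ _ hUo hBo hsub
      ⟨0, ⟨le_rfl, zero_le_one⟩, 0, ⟨le_rfl, hF.Tpos 0⟩, _, _, hU0⟩
      ⟨1, ⟨zero_le_one, le_rfl⟩, hone b C3 Tt yy hb hbb5 hF hB1⟩
    obtain ⟨t0, ht0, e, b', hun⟩ := hlU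
    exact hdisj b hb hbb4 C3 (Tt l) (flowOf (yy l)) (hF.flow l) (hF.init l) hlB t0 ht0 e b' hun
  have hmono : ∀ t1 t2, 0 ≤ t1 → t1 < t2 → t2 < Tt l →
      (flowOf (yy l)).Y t2 0 ≤ (flowOf (yy l)).Y t1 0 := by
    intro t1 t2 ht1 ht12 ht2
    by_contra hlt
    push Not at hlt
    exact hlB ⟨t1, t2, ht1, ht12, ht2, hlt⟩
  have hfl := hF.flow l
  have hin := hF.init l
  have hvneg := hneg b hb hbbN C3 (Tt l) _ hfl hin hmono
  have hS := hstd b hb hbbS C3 (Tt l) _ hfl hin hvneg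
  have hcl := hclose b (Tt l) _ hbb6 hS hin (fun t ht e b' hun => hlU ⟨t, ht, e, b', hun⟩)
  have hdist := (h10 (Tt l) _ hfl hin.dist2).1
  have hHb := hH b (Tt l) _ hbb7 hS hdist hcl
  have halt : ∀ M : ℝ, ∃ t ∈ Ico 0 (Tt l), ∃ p, M < |yy l 0 t p| ∨ M < |yy l 1 t p| ∨
      M < |yy l 2 t p| ∨ M < |yy l 3 t p| ∨ M * uu p (yy l 0 t p) < 1 := by
    rcases hF.max l with h | h
    · exfalso
      have := hS.Tle
      linarith
    · exact h
  have hbl := hblow b C3 (Tt l) (yy l) hbbB (hF.sol l) hS hin halt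
  have hK0 : 0 < K := by linarith
  -- the tip
  have hYc : ContinuousOn (fun t => (flowOf (yy l)).Y t 0) (Ico 0 (Tt l)) := by
    have h1 : ContinuousOn (fun t : ℝ => ((t, 0) : ℝ × ℝ)) (Ico 0 (Tt l)) := by fun_prop
    exact hfl.cY.comp h1 (fun t ht => ⟨ht, mem_univ _⟩)
  have hYd : ∀ t ∈ Ioo 0 (Tt l), HasDerivAt (fun t => (flowOf (yy l)).Y t 0)
      ((flowOf (yy l)).v t 0) t := by
    intro t ht
    have h1 := hfl.Yt t ht 0
    rw [hfl.th0 t ⟨ht.1.le, ht.2⟩, hfl.lam0 t ⟨ht.1.le, ht.2⟩] at h1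
    simpa using h1
  have hrate := Shoot.rate (Tt l) K (fun t => (flowOf (yy l)).Y t 0)
    (fun t => (flowOf (yy l)).v t 0) hK0 hfl.tip hYc hYd (fun t ht => (hcl t ht).1) hmono hbl
  have hY0 : ∀ t, (flowOf (yy l)).Y t 0 = 1 - exp (yy l 0 t 0) := by
    intro t
    simp [flowOf]
  refine ⟨Tt l, max K K', yy l, hF.Tpos l, hF.sol l, ?_, ?_, ?_⟩
  · intro t ht
    have h1 := hfl.tip t ht
    rw [hY0] at h1
    have h2 : exp (yy l 0 t 0) < 1 := by linarith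
    rwa [Real.exp_lt_one_iff] at h2
  · intro t ht
    have h1 := hrate t ht
    rw [hY0] at h1
    have hTt : 0 ≤ Tt l - t := by linarith [ht.2]
    refine h1.trans (pow_le_pow_left₀ (mul_nonneg hK0.le hTt) ?_ 3)
    exact mul_le_mul_of_nonneg_right (le_max_left _ _) hTt
  · intro t ht p hp
    have h1 := hHb t ht p hp
    have h2 : (flowOf (yy l)).f t p = fS (uu p (yy l 0 t p)) := by
      unfold FlowData.f
      rw [Shoot.u_eq]
    rw [h2] at h1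
    have h3 : 0 ≤ fS (uu p (yy l 0 t p)) := by
      unfold fS
      have := (hF.sol l).pos t ht p
      positivity
    exact h1.trans (mul_le_mul_of_nonneg_right (le_max_right _ _) h3)

end Pool.Agent.Lib.MP_c60e08_gt.Lm
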