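import Pool.Agent.Lib.MP_c60e08_gt.LmFlow2

/-!
MP_c60e08_gt, module SlopeLow: lower bound `r / 10 ≤ v` away from the tip.
-/

namespace Pool.Agent.Lib.MP_c60e08_gt.Lm

open Real Set Filter Topology

theorem slopeLowStmt (h1 : CvxStmt) (h2 : IdStmt) : SlopeLowStmt := by
  intro T W hW t ht b hb hb1 hr hom hth
  obtain ⟨hmono, -, hc3, hc4⟩ := h1 T W hW t ht hr hom
  have hid := (h2 T W hW).1 t ht
  have hss0 : ∀ q, 0 < W.ss t q := fun q => (hid q).2.2.2.1
  have hss3 : ∀ q, W.ss t q ^ 3 = W.u t q := fun q => (hid q).2.2.2.2.2.2.1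
  have hpi0 : (0 : ℝ) < π := Real.pi_pos
  have hth0 : W.th t 0 = 0 := hW.th0 t ht
  have hthpi : W.th t π = π := hW.thpi t ht
  have hspi : 1 < W.ss t π := by
    have h3 := hss3 π
    have hu : 1 < W.u t π := by
      have hY := hW.top t ht
      unfold FlowData.u
      nlinarith [sq_nonneg (W.X t π)]
    by_contra hle
    push Not at hle
    have h4 := hss0 π
    have h5 : W.ss t π ^ 3 ≤ 1 := pow_le_one₀ h4.le hle
    linarith
  -- interior points
  have key : ∀ p ∈ Ioo 0 π, 40 * b ≤ W.ss t p → W.r t p / 10 ≤ W.v t p := by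
    intro p hpI hsp
    have hrp := hr p hpI
    have hp : p ∈ Icc 0 π := ⟨hpI.1.le, hpI.2.le⟩
    have e2 := hc4 0 ⟨le_refl _, hpi0.le⟩ p hpI hpI.1.le
    rw [hth0] at e2
    have hthp := hth p hp
    have hm := hmono 0 ⟨le_refl _, hpi0.le⟩ p hp hpI.1.le
    have hs0 := hss0 0
    have hsp0 := hss0 p
    have hk : 1 / 10 ≤ W.v t p / W.r t p := by
      by_contra hlt
      push Not at hlt
      have h3 : W.v t p / W.r t p * (W.ss t p - W.ss t 0) ≤ 1 / 10 * (W.ss t p - W.ss t 0) :=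
        mul_le_mul_of_nonneg_right hlt.le (by linarith)
      linarith
    rw [le_div_iff₀ hrp] at hk
    linarith
  intro p hp hsp
  rcases eq_or_lt_of_le hp.1 with h0 | h0
  · exfalso
    subst h0
    have := hth 0 hp
    rw [hth0] at this
    linarith
  rcases eq_or_lt_of_le hp.2 with hpi | hpi
  · subst hpi
    have hr0 : W.r t π = 0 := by
      unfold FlowData.r
      rw [hthpi, hW.Xpi t ht]
      simp
    rw [hr0, zero_div]
    have hcv : ContinuousAt (W.v t) π := (hW.vp t ht π).continuousAt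
    have hcs : ContinuousAt (W.ss t) π := by
      obtain ⟨_, _, _, _, _, _, _, _, _, _, _, _, _, _, _, _, h17, _⟩ := hid π
      exact h17.continuousAt
    have hev1 : ∀ᶠ q in 𝓝[<] π, 40 * b < W.ss t q := by
      have h3 : 40 * b < W.ss t π := by linarith
      exact (hcs.eventually (lt_mem_nhds h3)).filter_mono nhdsWithin_le_nhds
    have hev2 : ∀ᶠ q in 𝓝[<] π, q ∈ Ioo 0 π := Ioo_mem_nhdsLT hpi0
    have hev : ∀ᶠ q in 𝓝[<] π, 0 ≤ W.v t q := by
      filter_upwards [hev1, hev2] with q hq1 hq2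
      have h3 := key q hq2 hq1.le
      have h4 := hr q hq2
      linarith
    exact ge_of_tendsto (hcv.tendsto.mono_left nhdsWithin_le_nhds) hev
  · exact key p ⟨h0, hpi⟩ hsp

end Pool.Agent.Lib.MP_c60e08_gt.Lm
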