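import Pool.Agent.Lib.MP_c60e08_gt.LmFlow2

set_option autoImplicit false

/-!
Module Star: star-shapedness about `(0,1)`.
-/

namespace Pool.Agent.Lib.MP_c60e08_gt.Lm

open Real Set Filter Topology

namespace Star

/-- the support function about `(0,1)` -/
noncomputable def P (W : FlowData) (t p : ℝ) : ℝ :=
  W.X t p * sin (W.th t p) + (1 - W.Y t p) * cos (W.th t p)

theorem continuousOn_P {T : ℝ} {W : FlowData} (h : IsFlow T W) :
    ContinuousOn (fun z : ℝ × ℝ => P W z.1 z.2) (Ico 0 T ×ˢ univ) := by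
  unfold P
  exact (h.cX.mul (Real.continuous_sin.comp_continuousOn h.cth)).add
    ((continuousOn_const.sub h.cY).mul (Real.continuous_cos.comp_continuousOn h.cth))

theorem hasDerivAt_P {T : ℝ} {W : FlowData} (h : IsFlow T W) {t : ℝ} (ht : t ∈ Ico 0 T) (p : ℝ) :
    HasDerivAt (P W t)
      (W.g t p * (W.kap t p * (W.X t p * cos (W.th t p) + (W.Y t p - 1) * sin (W.th t p)))) p := by
  have hX := h.Xp t ht p
  have hY := h.Yp t ht p
  have hth := h.thp t ht p
  have hs := hth.sin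
  have hc := hth.cos
  have h1 := (hX.mul hs).add ((hY.const_sub 1).mul hc)
  have h2 : HasDerivAt (P W t) _ p := h1
  refine h2.congr_deriv ?_
  ring

theorem sq_add_sq (X Y s : ℝ) :
    (X * sin s + (1 - Y) * cos s) ^ 2 + (X * cos s + (Y - 1) * sin s) ^ 2 =
      X ^ 2 + (Y - 1) ^ 2 := by
  have h := Real.sin_sq_add_cos_sq s
  have : (X * sin s + (1 - Y) * cos s) ^ 2 + (X * cos s + (Y - 1) * sin s) ^ 2 =
      (X ^ 2 + (Y - 1) ^ 2) * (sin s ^ 2 + cos s ^ 2) := by ring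
  rw [this, h, mul_one]

end Star

open Star in
theorem starStmt (h1 : DistStmt) (h2 : IdStmt) (_h3 : IdCStmt) : StarStmt := by
  refine ⟨1 / 16000, by norm_num, ?_⟩
  intro b C3 T W hb hS hI t ht p hp
  have hflow := hS.flow
  obtain ⟨hid, -⟩ := h2 T W hflow
  obtain ⟨-, hd1⟩ := h1 T W hflow hI.dist2
  have hN : ∀ t ∈ Ico 0 T, ∀ p ∈ Icc 0 π, 1 / 4 ≤ W.X t p ^ 2 + (W.Y t p - 1) ^ 2 := by
    intro t ht p hp
    have h := hd1 hI.dist1 t ht p hp
    have h' : t ≤ 10 * b := ht.2.le.trans hS.Tle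
    linarith
  refine ⟨hN t ht p hp, ?_⟩
  by_contra hcon
  push Not at hcon
  have hcon' : P W t p < 1 / 2 := hcon
  -- the level
  obtain ⟨c, hc1, hc2, hc3⟩ : ∃ c, P W t p ≤ c ∧ c < 1 / 2 ∧ 0 < c :=
    ⟨max (P W t p) (1 / 4), le_max_left _ _, max_lt hcon' (by norm_num),
      lt_of_lt_of_le (by norm_num) (le_max_right _ _)⟩
  have hsub : Icc 0 t ×ˢ Icc 0 π ⊆ Ico 0 T ×ˢ (univ : Set ℝ) := by
    intro z hz
    exact ⟨⟨hz.1.1, lt_of_le_of_lt hz.1.2 ht.2⟩, mem_univ _⟩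
  have hcont : ContinuousOn (fun z : ℝ × ℝ => P W z.1 z.2) (Icc 0 t ×ˢ Icc 0 π) :=
    (continuousOn_P hflow).mono hsub
  have hclosed : IsClosed ((Icc 0 t ×ˢ Icc 0 π) ∩ (fun z : ℝ × ℝ => P W z.1 z.2) ⁻¹' Iic c) :=
    hcont.preimage_isClosed_of_isClosed (isClosed_Icc.prod isClosed_Icc) isClosed_Iic
  have hcomp : IsCompact ((Icc 0 t ×ˢ Icc 0 π) ∩ (fun z : ℝ × ℝ => P W z.1 z.2) ⁻¹' Iic c) :=
    (isCompact_Icc.prod isCompact_Icc).of_isClosed_subset hclosed inter_subset_left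
  have hne : ((Icc 0 t ×ˢ Icc 0 π) ∩ (fun z : ℝ × ℝ => P W z.1 z.2) ⁻¹' Iic c).Nonempty :=
    ⟨(t, p), ⟨⟨ht.1, le_rfl⟩, hp⟩, hc1⟩
  obtain ⟨z, hzK, hzmin⟩ := hcomp.exists_isMinOn hne continuous_fst.continuousOn
  obtain ⟨t', p'⟩ := z
  obtain ⟨⟨ht'1, hp'⟩, hPc⟩ := hzK
  have ht'1 : t' ∈ Icc 0 t := ht'1
  have hp' : p' ∈ Icc 0 π := hp'
  have hPc : P W t' p' ≤ c := hPc
  have ht' : t' ∈ Ico 0 T := ⟨ht'1.1, lt_of_le_of_lt ht'1.2 ht.2⟩
  have hfirst : ∀ s ∈ Ico 0 t', ∀ q ∈ Icc 0 π, c < P W s q := by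
    intro s hs q hq
    by_contra hle
    push Not at hle
    have hmem : (s, q) ∈ (Icc 0 t ×ˢ Icc 0 π) ∩ (fun z : ℝ × ℝ => P W z.1 z.2) ⁻¹' Iic c :=
      ⟨⟨⟨hs.1, hs.2.le.trans ht'1.2⟩, hq⟩, hle⟩
    have h := hzmin hmem
    have h : t' ≤ s := h
    linarith [hs.2]
  have ht'0 : 0 < t' := by
    rcases ht'1.1.lt_or_eq with h | h
    · exact h
    · exfalso
      have h := hI.star p' hp'
      have h : 1 / 2 ≤ P W 0 p' := h
      subst_vars
      linarith
  have hge : ∀ q ∈ Icc 0 π, c ≤ P W t' q := by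
    intro q hq
    have hcw : ContinuousWithinAt (fun s => P W s q) (Ico 0 T) t' := by
      have h := (continuousOn_P hflow) (t', q) ⟨ht', mem_univ _⟩
      exact ContinuousWithinAt.comp (f := fun s : ℝ => (s, q)) (g := fun z : ℝ × ℝ => P W z.1 z.2)
        (t := Ico 0 T ×ˢ (univ : Set ℝ)) h
        (by fun_prop) (fun s hs => ⟨hs, mem_univ _⟩)
    have hsub2 : Ico 0 t' ⊆ Ico 0 T := fun s hs => ⟨hs.1, hs.2.trans ht'.2⟩
    have htend : Tendsto (fun s => P W s q) (𝓝[Ico 0 t'] t') (𝓝 (P W t' q)) :=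
      hcw.mono hsub2
    have hnb : (𝓝[Ico 0 t'] t').NeBot := by
      rw [← mem_closure_iff_nhdsWithin_neBot, closure_Ico ht'0.ne]
      exact ⟨ht'0.le, le_rfl⟩
    refine ge_of_tendsto htend ?_
    filter_upwards [self_mem_nhdsWithin] with s hs
    exact (hfirst s hs q hq).le
  have hPeq : P W t' p' = c := le_antisymm hPc (hge p' hp')
  -- the ends
  have hpack := hS.pack t' ht'
  have hb0 := hS.bpos
  have hN' := hN t' ht'
  have hp0 : p' ≠ 0 := by
    intro h0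
    have hval : P W t' 0 = 1 - W.Y t' 0 := by
      unfold P
      rw [hflow.X0 t' ht', hflow.th0 t' ht', Real.sin_zero, Real.cos_zero]
      ring
    have hd := hpack.dle
    have hb3 : b ^ 3 ≤ (1 / 16000) ^ 3 := pow_le_pow_left₀ hb0.le hb 3
    rw [h0, hval] at hPeq
    norm_num at hb3
    linarith
  have hppi : p' ≠ π := by
    intro h0
    have hval : P W t' π = W.Y t' π - 1 := by
      unfold P
      rw [hflow.Xpi t' ht', hflow.thpi t' ht', Real.sin_pi, Real.cos_pi]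
      ring
    have hn := hN' π ⟨Real.pi_pos.le, le_rfl⟩
    rw [hflow.Xpi t' ht'] at hn
    have htop := hflow.top t' ht'
    rw [h0, hval] at hPeq
    nlinarith
  have hpint : p' ∈ Ioo 0 π :=
    ⟨lt_of_le_of_ne hp'.1 (Ne.symm hp0), lt_of_le_of_ne hp'.2 hppi⟩
  have hlm : IsLocalMin (P W t') p' := by
    have hnhds : Ioo 0 π ∈ 𝓝 p' := Ioo_mem_nhds hpint.1 hpint.2
    filter_upwards [hnhds] with q hq
    rw [hPeq]
    exact hge q ⟨hq.1.le, hq.2.le⟩
  have hder := hlm.hasDerivAt_eq_zero (hasDerivAt_P hflow ht' p')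
  have hg := hflow.gpos t' ht' p'
  rcases mul_eq_zero.1 hder with h | h
  · exact absurd h hg.ne'
  rcases mul_eq_zero.1 h with hk | hA
  · -- `kap = 0`
    obtain ⟨-, -, hf, hss, hrho, -, -, hrs, -, -, hXr, hYr, -⟩ := hid t' ht' p'
    have hv : W.v t' p' = 0 := by
      unfold FlowData.kap at hk
      rcases div_eq_zero_iff.1 hk with h | h
      · exact h
      · exact absurd h hf.ne'
    have hssb : W.ss t' p' < 40 * b := by
      by_contra hle
      push Not at hle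
      have h3 := hpack.vlow p' hp' hle
      have h4 := hpack.rpos p' hpint
      linarith
    have hss400 : W.ss t' p' ≤ 1 / 400 := by linarith
    obtain ⟨hcos, hsin, -⟩ := hpack.near p' hp' hss400
    have hrho2 : W.rho t' p' ^ 2 ≤ (1 / 400) ^ 3 := by
      rw [hrs]
      exact pow_le_pow_left₀ hss.le hss400 3
    have hrho3 : W.rho t' p' ≤ 1 / 8000 := by
      by_contra hle
      push Not at hle
      have : (1 / 8000 : ℝ) ^ 2 < W.rho t' p' ^ 2 := pow_lt_pow_left₀ hle (by norm_num) (by norm_num)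
      norm_num at this hrho2
      linarith
    have hXl := abs_le.mp hXr
    have hYl := abs_le.mp hYr
    have hsinl := abs_le.mp hsin
    have hcos1 := Real.cos_le_one (W.th t' p')
    have hval : P W t' p' = W.X t' p' * sin (W.th t' p') + (1 - W.Y t' p') * cos (W.th t' p') := rfl
    have hX1 : -(1 / 8000) ≤ W.X t' p' := by linarith [hXl.1]
    have hX2 : W.X t' p' ≤ 1 / 8000 := by linarith [hXl.2]
    have hY2 : W.Y t' p' ≤ 1 / 8000 := by linarith [hYl.2]
    have e1 : -(1 / 8000) ≤ W.X t' p' * sin (W.th t' p') := by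
      have : |W.X t' p' * sin (W.th t' p')| ≤ 1 / 8000 * 1 := by
        rw [abs_mul]
        exact mul_le_mul (abs_le.mpr ⟨hX1, hX2⟩) (Real.abs_sin_le_one _) (abs_nonneg _) (by norm_num)
      linarith [(abs_le.mp this).1]
    have e2 : (1 - 1 / 8000) * (99 / 100) ≤ (1 - W.Y t' p') * cos (W.th t' p') :=
      mul_le_mul (by linarith) hcos (by norm_num) (by linarith)
    rw [hPeq] at hval
    norm_num at e1 e2
    linarith
  · -- `A = 0`
    have hs := sq_add_sq (W.X t' p') (W.Y t' p') (W.th t' p')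
    rw [hA] at hs
    have hval : W.X t' p' * sin (W.th t' p') + (1 - W.Y t' p') * cos (W.th t' p') = c := hPeq
    rw [hval] at hs
    have hn := hN' p' hp'
    nlinarith

end Pool.Agent.Lib.MP_c60e08_gt.Lm
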