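import Pool.Agent.Lib.MP_c60e08_gt.LmFlow2

/-!
MP_c60e08_gt, module StdOf: the standard package from the module Good.
-/

set_option autoImplicit false

namespace Pool.Agent.Lib.MP_c60e08_gt.Lm

open Real Set Filter Topology

theorem stdOfStmt (h : GoodStmt) : StdOfStmt := by
  obtain ⟨b2, hb2, hg⟩ := h
  refine ⟨min b2 (1 / 1000), lt_min hb2 (by norm_num), fun b hb hb2' C3 T W hW hI hv => ?_⟩
  have hg' := hg b hb (hb2'.trans (min_le_left _ _)) C3 T W hW hI
  refine ⟨hW, hb, hb2'.trans (min_le_right _ _), hv, ?_, ?_⟩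
  · intro t ht
    exact (hg' t ht fun s hs => hv s ⟨hs.1, hs.2.trans ht.2⟩).1 t ⟨ht.1, le_rfl⟩
  · by_contra hcon
    push Not at hcon
    have h1 : 10 * b + 2 * (T - 10 * b) / 3 ∈ Ico 0 T := ⟨by linarith, by linarith⟩
    have h2 := (hg' _ h1 fun s hs => hv s ⟨hs.1, hs.2.trans h1.2⟩).2.2
      (10 * b + (T - 10 * b) / 3) ⟨by linarith, by linarith⟩
    linarith

end Pool.Agent.Lib.MP_c60e08_gt.Lm
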