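import Pool.Agent.Lib.MP_c60e08_gt.LmFlow2

/-!
MP_c60e08_gt, FLOW part: the time bound from the lower barrier of the angle.
-/

namespace Pool.Agent.Lib.MP_c60e08_gt.Lm

open Real Set Filter Topology

namespace LmTHat

/-- a limit from the left -/
lemma le_end {φ : ℝ → ℝ} {a : ℝ} (ha : 0 < a) (hφ : ContinuousOn φ (Icc 0 a))
    (h : ∀ s ∈ Ico 0 a, φ s ≤ 0) : φ a ≤ 0 := by
  have h1 : Tendsto φ (𝓝[Ico 0 a] a) (𝓝 (φ a)) :=
    (hφ a ⟨ha.le, le_rfl⟩).mono Ico_subset_Icc_self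
  have : NeBot (𝓝[Ico 0 a] a) := right_nhdsWithin_Ico_neBot ha
  exact le_of_tendsto h1 (eventually_nhdsWithin_of_forall h)

/-- the first zero -/
lemma first {φ : ℝ → ℝ} {a : ℝ} (ha : 0 ≤ a) (hφ : ContinuousOn φ (Icc 0 a))
    (h0 : φ 0 < 0) (h1 : 0 ≤ φ a) :
    ∃ b, 0 < b ∧ b ≤ a ∧ φ b = 0 ∧ ∀ s ∈ Icc 0 b, φ s ≤ 0 := by
  have hcl : IsClosed (Icc 0 a ∩ φ ⁻¹' Ici 0) :=
    hφ.preimage_isClosed_of_isClosed isClosed_Icc isClosed_Ici
  have hcp : IsCompact (Icc 0 a ∩ φ ⁻¹' Ici 0) :=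
    isCompact_Icc.of_isClosed_subset hcl inter_subset_left
  obtain ⟨b, hb, hbl⟩ := hcp.exists_isLeast ⟨a, ⟨ha, le_rfl⟩, h1⟩
  have hb0 : 0 < b := by
    rcases hb.1.1.lt_or_eq with h | h
    · exact h
    · exfalso
      have h2 : 0 ≤ φ b := hb.2
      rw [← h] at h2
      linarith
  have hlt : ∀ s ∈ Ico 0 b, φ s ≤ 0 := by
    intro s hs
    by_contra hc
    push Not at hc
    have := hbl ⟨⟨hs.1, hs.2.le.trans hb.1.2⟩, hc.le⟩
    exact absurd hs.2 (not_lt.mpr this)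
  have hb2 : φ b ≤ 0 := le_end hb0 (hφ.mono (Icc_subset_Icc_right hb.1.2)) hlt
  refine ⟨b, hb0, hb.1.2, le_antisymm hb2 hb.2, fun s hs => ?_⟩
  rcases hs.2.lt_or_eq with h | h
  · exact hlt s ⟨hs.1, h⟩
  · rw [h]
    exact hb2

/-- the derivative at the left end -/
lemma deriv_nonneg {y : ℝ → ℝ} {D : ℝ} (hD : HasDerivAt y D 0) (h0 : y 0 = 0)
    (h : ∀ p ∈ Icc 0 π, 0 ≤ y p) : 0 ≤ D := by
  have h1 : Tendsto (slope y 0) (𝓝[Ioc 0 π] 0) (𝓝 D) :=
    (hasDerivWithinAt_iff_tendsto_slope' (fun hh => lt_irrefl _ hh.1)).mp hD.hasDerivWithinAt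
  have : NeBot (𝓝[Ioc 0 π] (0 : ℝ)) := left_nhdsWithin_Ioc_neBot pi_pos
  refine ge_of_tendsto h1 (eventually_nhdsWithin_of_forall (fun q hq => ?_))
  rw [slope_def_field, h0, sub_zero, sub_zero]
  exact div_nonneg (h q ⟨hq.1.le, hq.2⟩) hq.1.le

end LmTHat

theorem tHatStmt (h1 : LbtStmt) (h2 : IdStmt) (h3 : IdCStmt) : THatStmt := by
  intro T W hW B hB B2 t1 ht1 hi h0 hpi hv
  have hss : ContinuousOn (fun s => W.ss s 0) (Ico 0 T) := by
    have hc := h3 T W hW W.ss (by simp)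
    have e1 : ContinuousOn (fun s : ℝ => ((s, 0) : ℝ × ℝ)) (Ico 0 T) := by fun_prop
    exact hc.comp e1 (fun s hs => ⟨hs, trivial⟩)
  have hφ : ContinuousOn (fun s => B * W.ss s 0 + 2 * B * s - B2) (Ico 0 T) := by
    refine ContinuousOn.sub (ContinuousOn.add (continuousOn_const.mul hss) ?_) continuousOn_const
    fun_prop
  have hmain : ∀ t ∈ Ico 0 t1, B * W.ss t 0 + 2 * B * t - B2 < 0 := by
    intro t ht
    by_contra hc
    push Not at hc
    have htT : t < T := ht.2.trans ht1.2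
    have hφt : ContinuousOn (fun s => B * W.ss s 0 + 2 * B * s - B2) (Icc 0 t) :=
      hφ.mono (fun s hs => ⟨hs.1, hs.2.trans_lt htT⟩)
    obtain ⟨b, hb0, hbt, hb, hbs⟩ := LmTHat.first ht.1 hφt (by
      show B * W.ss 0 0 + 2 * B * 0 - B2 < 0
      linarith) hc
    have hb' : B * W.ss b 0 + 2 * B * b - B2 = 0 := hb
    have hbT : b ∈ Ico 0 T := ⟨hb0.le, hbt.trans_lt htT⟩
    have hL := h1 T W hW B hB B2 b hbT hi (fun s hs => ⟨by
        have := hbs s hs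
        linarith, hpi s ⟨hs.1, hs.2.trans (hbt.trans ht.2.le)⟩⟩) b ⟨hb0.le, le_rfl⟩
    have hth0 := hW.th0 b hbT
    have hf : 0 < W.f b 0 := ((h2 T W hW).1 b hbT 0).2.2.1
    have hr0 : W.r b 0 = 0 := by
      rw [FlowData.r, hW.X0 b hbT, hth0]
      simp
    have hdth := hW.thp b hbT 0
    have hdss : HasDerivAt (W.ss b) (W.g b 0 * (2 * W.r b 0 / W.f b 0)) 0 :=
      ((h2 T W hW).1 b hbT 0).2.2.2.2.2.2.2.2.2.2.2.2.2.2.2.2.1
    have hd := ((hdth.sub (hdss.const_mul B)).add_const (B2 - 2 * B * b))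
    have hnn := LmTHat.deriv_nonneg hd (by
        show W.th b 0 - B * W.ss b 0 + (B2 - 2 * B * b) = 0
        rw [hth0]
        linarith) (fun p hp => by
        show 0 ≤ W.th b p - B * W.ss b p + (B2 - 2 * B * b)
        have := hL p hp
        linarith)
    rw [hr0, mul_zero, zero_div, mul_zero, mul_zero, sub_zero] at hnn
    have hg := hW.gpos b hbT 0
    have hk : 0 ≤ W.kap b 0 := nonneg_of_mul_nonneg_right hnn hg
    have hvb : W.v b 0 < 0 := hv b ⟨hb0.le, hbt.trans_lt ht.2⟩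
    rw [FlowData.kap] at hk
    have : W.v b 0 / W.f b 0 < 0 := div_neg_of_neg_of_pos hvb hf
    linarith
  refine ⟨fun t ht => by linarith [hmain t ht], ?_⟩
  apply h1 T W hW B hB B2 t1 ht1 hi
  intro t ht
  refine ⟨?_, hpi t ht⟩
  rcases ht.2.lt_or_eq with h | h
  · linarith [hmain t ⟨ht.1, h⟩]
  · rw [h]
    rcases ht1.1.lt_or_eq with h' | h'
    · have := LmTHat.le_end h' (hφ.mono (fun s hs => ⟨hs.1, hs.2.trans_lt ht1.2⟩))
        (fun s hs => (hmain s hs).le)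
      linarith
    · rw [← h']
      linarith

end Pool.Agent.Lib.MP_c60e08_gt.Lm
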