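import Pool.Agent.Lib.MP_c60e08_gt.LmFlow2

/-!
MP_c60e08_gt, module ThLow: lower bound for the tangent angle.
-/

set_option autoImplicit false

namespace Pool.Agent.Lib.MP_c60e08_gt.Lm

open Real Set Filter Topology

theorem thLowStmt (h1 : MpStmt) (h2 : MinsStmt) (h3 : IdStmt) : ThLowStmt := by
  intro T W h c hc h0 t ht p hp
  obtain ⟨hid, -⟩ := h3 T W h
  have hcon : COn 0 t (fun s q => W.th s q + c) := by
    unfold COn
    refine ContinuousOn.add (h.cth.mono ?_) continuousOn_const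
    exact Set.prod_mono (fun s hs => ⟨hs.1, lt_of_le_of_lt hs.2 ht.2⟩) (Set.subset_univ _)
  have key := h1 0 t 0 (fun s q => W.th s q + c) hcon (fun q hq => by linarith [h0 q hq]) ?_
    t ⟨ht.1, le_rfl⟩ p hp
  · linarith
  intro s hs q hq hneg hmin
  have hsT : s ∈ Ico 0 T := ⟨hs.1.le, lt_of_le_of_lt hs.2 ht.2⟩
  have hsT' : s ∈ Ioo 0 T := ⟨hs.1, hsT.2⟩
  have hq0 : q ≠ 0 := by
    rintro rfl
    rw [h.th0 s hsT] at hneg
    linarith
  have hqpi : q ≠ π := by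
    rintro rfl
    rw [h.thpi s hsT] at hneg
    linarith [pi_pos]
  have hqI : q ∈ Ioo 0 π := ⟨lt_of_le_of_ne hq.1 (Ne.symm hq0), lt_of_le_of_ne hq.2 hqpi⟩
  have hloc : IsLocalMin (W.th s) q := by
    filter_upwards [Icc_mem_nhds hqI.1 hqI.2] with q' hq'
    linarith [hmin q' hq']
  obtain ⟨-, -, hfpos, -, -, -, -, -, -, -, -, -, -, -, -, -, -, -, hkap, -, -⟩ := hid s hsT q
  obtain ⟨hk0, hk1⟩ := h2.1 (W.th s) (W.g s) (W.kap s) q (W.kap1 s q) (fun r => h.gpos s hsT r)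
    (fun r => h.thp s hsT r) hkap hloc
  refine ⟨W.v1 s q + W.lam s q * W.kap s q, (h.tht s hsT' q).add_const c, ?_⟩
  unfold FlowData.kap1 at hk1
  rw [hk0, mul_zero, sub_zero] at hk1
  rw [hk0, mul_zero, add_zero, zero_mul]
  have := mul_nonneg hk1 hfpos.le
  rwa [div_mul_cancel₀ _ hfpos.ne'] at this

end Pool.Agent.Lib.MP_c60e08_gt.Lm
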