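import Pool.Agent.Lib.MP_c60e08_gt.LmFlow2

/-!
Module ThUnder (fixed time): if the tangent angle is somewhere below `-(K/4) e` then the curve is
under an admissible pinching barrier.
-/

set_option autoImplicit false

namespace Pool.Agent.Lib.MP_c60e08_gt.Lm

open Real Set Filter Topology

namespace ThUnder

/-- a function with nonnegative derivative inside an interval is nondecreasing -/
theorem le_of_deriv {F F' : ℝ → ℝ} {a b : ℝ} (hab : a ≤ b) (hF : ∀ x, HasDerivAt F (F' x) x)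
    (h : ∀ x ∈ Ioo a b, 0 ≤ F' x) : F a ≤ F b := by
  have h1 : MonotoneOn F (Icc a b) := by
    refine monotoneOn_of_deriv_nonneg (convex_Icc a b)
      (fun x _ => (hF x).continuousAt.continuousWithinAt)
      (fun x _ => (hF x).differentiableAt.differentiableWithinAt) ?_
    intro x hx
    rw [interior_Icc] at hx
    rw [(hF x).deriv]
    exact h x hx
  exact h1 (left_mem_Icc.2 hab) (right_mem_Icc.2 hab) hab

/-- `sin y ≤ y cos y` for small `y ≤ 0` -/
theorem sin_le_mul_cos {y : ℝ} (h1 : y ≤ 0) (h2 : -1 ≤ y) : sin y ≤ y * cos y := by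
  have hpi := Real.pi_gt_three
  have h3 : -y ≤ tan (-y) := Real.le_tan (by linarith) (by linarith)
  have hc : 0 < cos (-y) := Real.cos_pos_of_mem_Ioo ⟨by linarith, by linarith⟩
  rw [Real.tan_eq_sin_div_cos, le_div_iff₀ hc, Real.sin_neg, Real.cos_neg] at h3
  linarith

theorem ss_le_of_rho_le {s ρ : ℝ} (h : ρ ^ 2 = s ^ 3) (hρ0 : 0 < ρ)
    (hρ : ρ ≤ 1 / 8000) : s ≤ 1 / 400 := by
  by_contra hcon
  push Not at hcon
  have h1 : (1 / 400 : ℝ) ^ 3 < s ^ 3 := pow_lt_pow_left₀ hcon (by norm_num) (by norm_num)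
  have h2 : ρ ^ 2 ≤ (1 / 8000 : ℝ) ^ 2 := pow_le_pow_left₀ hρ0.le hρ 2
  norm_num at h1 h2
  linarith

/-- the cubic term dominates -/
theorem cube_ge {K e : ℝ} (hK : 10 ^ 12 ≤ K) (he : 0 < e) :
    183 * (K ^ 2 * e ^ 3) ≤ (K * e / 1760) ^ 3 := by
  have hK0 : 0 < K := lt_of_lt_of_le (by norm_num) hK
  have h1 : (K * e / 1760) ^ 3 = K ^ 2 * e ^ 3 * (K / 1760 ^ 3) := by ring
  rw [h1]
  have h2 : (183 : ℝ) ≤ K / 1760 ^ 3 := by
    rw [le_div_iff₀ (by norm_num)]
    refine le_trans ?_ hK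
    norm_num
  have h3 : 0 < K ^ 2 * e ^ 3 := by positivity
  nlinarith

/-- final inequality to the left of the minimum -/
theorem fin_left {K e ρ s Y : ℝ} (hK : 10 ^ 12 ≤ K) (he : 0 < e) (he1 : K * e ≤ 1 / 125)
    (hs : 0 < s) (hρ0 : 0 < ρ) (hρ : ρ ≤ e ^ 3 + 51 / 50 * (160 * K * e ^ 2))
    (hY : Y ≤ e ^ 3) :
    Y < (K * e / 1760) ^ 3 - K * e / 8 * ρ + 10 * (K * e / 1760) ^ 2 * s + 7 * ρ * s := by
  have hK0 : 0 < K := lt_of_lt_of_le (by norm_num) hK
  have h1 := cube_ge hK he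
  have hA : 0 < K ^ 2 * e ^ 3 := by positivity
  have hee : e ≤ 4 / 5 * K := by
    have h2 : e * 1 ≤ e * K := by
      refine mul_le_mul_of_nonneg_left ?_ he.le
      linarith
    have h3 : (1 : ℝ) ≤ 4 / 5 * K := by linarith
    nlinarith
  have h2 : ρ ≤ 164 * K * e ^ 2 := by
    have h3 : e ^ 3 ≤ 4 / 5 * K * e ^ 2 := by
      have : e ^ 3 = e * e ^ 2 := by ring
      rw [this]
      exact mul_le_mul_of_nonneg_right hee (by positivity)
    linarith
  have h4 : K * e / 8 * ρ ≤ 41 / 2 * (K ^ 2 * e ^ 3) := by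
    have h5 : K * e / 8 * ρ ≤ K * e / 8 * (164 * K * e ^ 2) :=
      mul_le_mul_of_nonneg_left h2 (by positivity)
    have h6 : K * e / 8 * (164 * K * e ^ 2) = 41 / 2 * (K ^ 2 * e ^ 3) := by ring
    linarith
  have h7 : e ^ 3 ≤ K ^ 2 * e ^ 3 := by
    have h8 : (1 : ℝ) ≤ K ^ 2 := by nlinarith
    have h9 : 0 < e ^ 3 := by positivity
    nlinarith
  have h10 : 0 ≤ 10 * (K * e / 1760) ^ 2 * s := by positivity
  have h11 : 0 ≤ 7 * ρ * s := by positivity
  linarith

/-- final inequality to the right of the minimum -/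
theorem fin_right {K e ρ s X Y : ℝ} (hK : 10 ^ 12 ≤ K) (he : 0 < e) (he1 : K * e ≤ 1 / 125)
    (hs : 0 < s) (hX : 0 ≤ X) (hXρ : X ≤ ρ) (hρ : ρ ≤ e ^ 3 + 51 / 50 * X)
    (hY : Y ≤ e ^ 3 + 40 * (K ^ 2 * e ^ 3) - K * e / 4 * X + 11 / 2 * s * X) :
    Y < (K * e / 1760) ^ 3 - K * e / 8 * ρ + 10 * (K * e / 1760) ^ 2 * s + 7 * ρ * s := by
  have hK0 : 0 < K := lt_of_lt_of_le (by norm_num) hK
  have h1 := cube_ge hK he
  have hA : 0 < K ^ 2 * e ^ 3 := by positivity
  have h2 : K * e / 8 * ρ ≤ K * e * e ^ 3 / 8 + 51 / 400 * (K * e * X) := by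
    have h5 : K * e / 8 * ρ ≤ K * e / 8 * (e ^ 3 + 51 / 50 * X) :=
      mul_le_mul_of_nonneg_left hρ (by positivity)
    have h6 : K * e / 8 * (e ^ 3 + 51 / 50 * X) =
        K * e * e ^ 3 / 8 + 51 / 400 * (K * e * X) := by ring
    linarith
  have h3 : K * e * e ^ 3 ≤ 1 / 125 * e ^ 3 :=
    mul_le_mul_of_nonneg_right he1 (by positivity)
  have h7 : e ^ 3 ≤ K ^ 2 * e ^ 3 := by
    have h8 : (1 : ℝ) ≤ K ^ 2 := by nlinarith
    have h9 : 0 < e ^ 3 := by positivity
    nlinarith
  have h10 : 0 ≤ 10 * (K * e / 1760) ^ 2 * s := by positivity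
  have h11 : 7 * (s * X) ≤ 7 * ρ * s := by
    have : s * X ≤ s * ρ := mul_le_mul_of_nonneg_left hXρ hs.le
    linarith
  have h12 : 0 ≤ K * e * X := by positivity
  have h13 : 0 ≤ s * X := by positivity
  have h14 : 0 < e ^ 3 := by positivity
  have e1 : K * e / 4 * X = K * e * X / 4 := by ring
  have e2 : 11 / 2 * s * X = 11 / 2 * (s * X) := by ring
  rw [e1, e2] at hY
  linarith

end ThUnder

open ThUnder in
theorem thUnderStmt (h1 : UnderOfStmt) (h2 : NoCommonStmt) (h3 : CvxStmt) (h4 : IdStmt) :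
    ThUnderStmt := by
  intro K hK b T W hF hb hb1 t ht hP e he hed he1 hH hth
  have hK0 : 0 < K := lt_of_lt_of_le (by norm_num) hK
  have hpi := Real.pi_gt_three
  have hKe : K * e ≤ 1 / 125 := by
    have h5 : K * e ≤ K * (1 / (125 * K)) := mul_le_mul_of_nonneg_left he1 hK0.le
    have h6 : K * (1 / (125 * K)) = 1 / 125 := by field_simp
    linarith
  have hKe0 : 0 < K * e := by positivity
  have hee : e ≤ 1 := by
    have h5 : e * 1 ≤ e * K := mul_le_mul_of_nonneg_left (by linarith) he.le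
    linarith
  obtain ⟨hI, -⟩ := h4 T W hF
  -- basic facts at time `t`
  have hg := hF.gpos t ht
  have dX := hF.Xp t ht
  have dY := hF.Yp t ht
  have dth := hF.thp t ht
  have hfpos : ∀ p, 0 < W.f t p := fun p => (hI t ht p).2.2.1
  have hspos : ∀ p, 0 < W.ss t p := fun p => (hI t ht p).2.2.2.1
  have hrpos : ∀ p, 0 < W.rho t p := fun p => (hI t ht p).2.2.2.2.1
  have hss3 : ∀ p, W.ss t p ^ 3 = W.u t p := fun p => (hI t ht p).2.2.2.2.2.2.1
  have hrs : ∀ p, W.rho t p ^ 2 = W.ss t p ^ 3 := fun p => (hI t ht p).2.2.2.2.2.2.2.1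
  have hXrho : ∀ p, |W.X t p| ≤ W.rho t p := fun p => by
    obtain ⟨_, _, _, _, _, _, _, _, _, _, h, _⟩ := hI t ht p
    exact h
  have hXnn : ∀ p ∈ Icc 0 π, 0 ≤ W.X t p := by
    intro p hp
    rcases eq_or_lt_of_le hp.1 with h0 | h0
    · rw [← h0, hF.X0 t ht]
    rcases eq_or_lt_of_le hp.2 with h5 | h5
    · rw [h5, hF.Xpi t ht]
    · exact (hF.Xpos t ht p ⟨h0, h5⟩).le
  -- the minimum of `th`
  obtain ⟨p0, hp0, hp0th⟩ := hth
  have hcth : ContinuousOn (W.th t) (Icc 0 π) :=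
    fun x _ => (dth x).continuousAt.continuousWithinAt
  obtain ⟨q, hq, hqmin⟩ := isCompact_Icc.exists_isMinOn ⟨p0, hp0⟩ hcth
  have hqle : W.th t q < -(K / 4 * e) := lt_of_le_of_lt (hqmin hp0) hp0th
  have hKe4 : 0 < K / 4 * e := by positivity
  have hq0 : 0 < q := by
    rcases eq_or_lt_of_le hq.1 with h0 | h0
    · exfalso
      rw [← h0, hF.th0 t ht] at hqle
      linarith
    · exact h0
  have hqpi : q < π := by
    rcases eq_or_lt_of_le hq.2 with h0 | h0
    · exfalso
      rw [h0, hF.thpi t ht] at hqle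
      linarith
    · exact h0
  have hkq : W.g t q * W.kap t q = 0 :=
    (hqmin.isLocalMin (Icc_mem_nhds hq0 hqpi)).hasDerivAt_eq_zero (dth q)
  have hvq : W.v t q = 0 := by
    have h5 : W.kap t q = 0 := by
      rcases mul_eq_zero.1 hkq with h | h
      · exact absurd h (hg q).ne'
      · exact h
    have h6 : W.v t q / W.f t q = 0 := h5
    rcases div_eq_zero_iff.1 h6 with h | h
    · exact h
    · exact absurd h (hfpos q).ne'
  have hXq : W.X t q < 160 * K * e ^ 2 := by
    by_contra hcon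
    push Not at hcon
    have := hH q hq hcon
    linarith
  have hNC := h2 T W hF t ht hP.rpos hP.om1 q ⟨hq.1, hqpi⟩ hvq.le
  -- on `[0,q]`
  have hsq : W.ss t q ≤ 1 / 400 := by
    by_contra hcon
    push Not at hcon
    have h5 := hP.vlow q hq (by linarith)
    have h6 := hP.rpos q ⟨hq0, hqpi⟩
    linarith
  have hth_nonpos : ∀ x ∈ Icc 0 q, W.th t x ≤ 0 := by
    intro x hx
    have h5 := le_of_deriv hx.1 (F := fun y => - W.th t y) (fun y => (dth y).neg) (by
      intro y hy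
      have h6 : W.v t y ≤ 0 := (hNC y ⟨hy.1.le, hy.2.le.trans hx.2⟩).1
      have h7 : W.kap t y ≤ 0 := div_nonpos_of_nonpos_of_nonneg h6 (hfpos y).le
      have h8 := hg y
      nlinarith)
    have h6 : W.th t 0 = 0 := hF.th0 t ht
    simp only [h6] at h5
    linarith
  have hY_le : ∀ x ∈ Icc 0 q, W.Y t x ≤ e ^ 3 := by
    intro x hx
    have h5 := le_of_deriv hx.1 (F := fun y => - W.Y t y) (fun y => (dY y).neg) (by
      intro y hy
      have hy' : y ∈ Icc 0 π := ⟨hy.1.le, hy.2.le.trans (hx.2.trans hq.2)⟩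
      have h6 := hth_nonpos y ⟨hy.1.le, hy.2.le.trans hx.2⟩
      have h7 := hP.th2 y hy'
      have h8 : sin (W.th t y) ≤ 0 :=
        Real.sin_nonpos_of_nonpos_of_neg_pi_le h6 (by linarith)
      have h9 := hg y
      nlinarith)
    rw [hed]
    linarith
  -- `X` is nondecreasing where `ss ≤ 1/400`
  have hX_mono : ∀ x ∈ Icc 0 π, ∀ y ∈ Icc 0 π, x ≤ y → W.ss t y ≤ 1 / 400 →
      W.X t x ≤ W.X t y := by
    intro x hx y hy hxy hsy
    refine le_of_deriv hxy dX ?_
    intro z hz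
    have hz' : z ∈ Icc 0 π := ⟨hx.1.trans hz.1.le, hz.2.le.trans hy.2⟩
    have h5 := hP.mono z hz' y hy hz.2.le
    have h6 := (hP.near z hz' (h5.trans hsy)).1
    have h7 := hg z
    exact mul_nonneg h7.le (by linarith)
  -- the claim
  refine h1 T W hF t ht (K * e / 1760) (K * e / 8) (by positivity) (by linarith) (by linarith)
    ?_ ?_
  · rw [← hed]
    have h5 : e ^ 3 ≤ e := by
      have h6 : e ^ 2 ≤ 1 := by nlinarith
      have h7 : e ^ 3 = e ^ 2 * e := by ring
      nlinarith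
    have h8 : e * 10 ^ 12 ≤ e * K := mul_le_mul_of_nonneg_left hK he.le
    norm_num at h8
    linarith
  intro p hp hrho
  have hsp : W.ss t p ≤ 1 / 400 :=
    ss_le_of_rho_le (hrs p) (hrpos p) hrho
  have hbarr : barr (K * e / 1760) (K * e / 8) (W.u t p) = (K * e / 1760) ^ 3 -
      K * e / 8 * W.rho t p + 10 * (K * e / 1760) ^ 2 * W.ss t p +
      7 * W.rho t p * W.ss t p := rfl
  rw [hbarr]
  obtain ⟨hn1, hn2, hn3, hn4, hn5, hn6⟩ := hP.near p hp hsp
  rw [← hed] at hn5
  have hpXr : W.X t p ≤ W.rho t p := (le_abs_self _).trans (hXrho p)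
  rcases le_total p q with hpq | hqp
  · refine fin_left hK he hKe (hspos p) (hrpos p) ?_ (hY_le p ⟨hp.1, hpq⟩)
    have h5 := hX_mono p hp q hq hpq hsq
    linarith
  · refine fin_right hK he hKe (hspos p) (hXnn p hp) hpXr hn5 ?_
    -- `p < π`
    have hppi : p < π := by
      rcases eq_or_lt_of_le hp.2 with h0 | h0
      · exfalso
        rw [h0] at hsp
        have h5 := hss3 π
        have h6 : W.u t π = W.X t π ^ 2 + W.Y t π ^ 2 := rfl
        have h7 := hF.top t ht
        have h8 := hspos π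
        rw [hF.Xpi t ht] at h6
        have h9 : W.ss t π ^ 3 ≤ (1 / 400 : ℝ) ^ 3 := pow_le_pow_left₀ h8.le hsp 3
        have h10 : (1 : ℝ) < W.Y t π ^ 2 := by nlinarith
        norm_num at h9
        linarith
      · exact h0
    obtain ⟨-, -, -, hC4⟩ := h3 T W hF t ht hP.rpos hP.om1
    -- the angle on `[q,p]`
    have hang : ∀ x ∈ Icc q p, sin (W.th t x) ≤
        (-(K * e / 4) + 11 / 2 * W.ss t p) * cos (W.th t x) := by
      intro x hx
      have hx' : x ∈ Icc 0 π := ⟨hq.1.trans hx.1, hx.2.trans hp.2⟩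
      have hx'' : x ∈ Ioo 0 π := ⟨lt_of_lt_of_le hq0 hx.1, lt_of_le_of_lt hx.2 hppi⟩
      have hsx : W.ss t x ≤ W.ss t p := hP.mono x hx' p hp hx.2
      have hsx' : W.ss t x ≤ 1 / 400 := hsx.trans hsp
      have h5 := hC4 q hq x hx'' hx.1
      have h6 := hP.vup x hx' hsx'
      have h7 := hP.rpos x hx''
      have h8 : W.v t x / W.r t x ≤ 10 := by
        rw [div_le_iff₀ h7]
        exact h6
      have h9 := hP.mono q hq x hx' hx.1
      have h10 := hspos q
      have h11 : W.v t x / W.r t x * (W.ss t x - W.ss t q) ≤ 10 * (W.ss t x - W.ss t q) :=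
        mul_le_mul_of_nonneg_right h8 (by linarith)
      have h12 : W.th t x ≤ -(K * e / 4) + 5 * W.ss t p := by
        have h13 : K / 4 * e = K * e / 4 := by ring
        rw [h13] at hqle
        linarith
      have h14 := (hP.near x hx' hsx').1
      have h15 := hP.th2 x hx'
      have h16 := hspos x
      have h17 := hspos p
      rcases le_total (W.th t x) 0 with h18 | h18
      · have h19 := sin_le_mul_cos h18 (by linarith)
        have h20 : W.th t x * cos (W.th t x) ≤
            (-(K * e / 4) + 11 / 2 * W.ss t p) * cos (W.th t x) := by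
          refine mul_le_mul_of_nonneg_right ?_ (by linarith)
          linarith
        linarith
      · have h19 : sin (W.th t x) ≤ W.th t x := Real.sin_le h18
        have h20 : W.th t x ≤ 11 / 10 * W.th t x * cos (W.th t x) := by
          have h21 : W.th t x * (99 / 100) ≤ W.th t x * cos (W.th t x) :=
            mul_le_mul_of_nonneg_left h14 h18
          linarith
        have h22 : 11 / 10 * W.th t x * cos (W.th t x) ≤
            (-(K * e / 4) + 11 / 2 * W.ss t p) * cos (W.th t x) := by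
          refine mul_le_mul_of_nonneg_right ?_ (by linarith)
          linarith
        linarith
    have hint := le_of_deriv hqp
      (F := fun y => (-(K * e / 4) + 11 / 2 * W.ss t p) * W.X t y - W.Y t y)
      (fun y => ((dX y).const_mul _).sub (dY y)) (by
        intro y hy
        have h5 := hang y ⟨hy.1.le, hy.2.le⟩
        have h6 := hg y
        have h7 : (-(K * e / 4) + 11 / 2 * W.ss t p) * (W.g t y * cos (W.th t y)) -
            W.g t y * sin (W.th t y) = W.g t y *
            ((-(K * e / 4) + 11 / 2 * W.ss t p) * cos (W.th t y) - sin (W.th t y)) := by ring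
        rw [h7]
        exact mul_nonneg h6.le (by linarith))
    have h5 := hY_le q ⟨hq.1, le_rfl⟩
    have h6 := hXnn q hq
    have h7 := hspos p
    have h8 : 0 ≤ 11 / 2 * W.ss t p * W.X t q := by positivity
    have h9 : K * e / 4 * W.X t q ≤ 40 * (K ^ 2 * e ^ 3) := by
      have h10 : K * e / 4 * W.X t q ≤ K * e / 4 * (160 * K * e ^ 2) :=
        mul_le_mul_of_nonneg_left hXq.le (by positivity)
      have h11 : K * e / 4 * (160 * K * e ^ 2) = 40 * (K ^ 2 * e ^ 3) := by ring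
      linarith
    have e1 : (-(K * e / 4) + 11 / 2 * W.ss t p) * W.X t q =
        -(K * e / 4 * W.X t q) + 11 / 2 * W.ss t p * W.X t q := by ring
    have e2 : (-(K * e / 4) + 11 / 2 * W.ss t p) * W.X t p =
        -(K * e / 4 * W.X t p) + 11 / 2 * W.ss t p * W.X t p := by ring
    rw [e1, e2] at hint
    linarith

end Pool.Agent.Lib.MP_c60e08_gt.Lm
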