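import Pool.Agent.Lib.MP_c60e08_gt.LmFlow2

/-!
MP_c60e08_gt, FLOW part, module Tip: the acceleration of the tip.
-/

namespace Pool.Agent.Lib.MP_c60e08_gt.Lm

open Real Set Filter Topology

namespace Tip

/-- a function that vanishes at `0` and is nonnegative on `[0,π]` has nonnegative derivative
at `0` -/
theorem deriv_nonneg_of_right {F : ℝ → ℝ} {F' : ℝ} (h : HasDerivAt F F' 0) (h0 : F 0 = 0)
    (hF : ∀ p ∈ Icc 0 π, 0 ≤ F p) : 0 ≤ F' := by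
  have h1 := (hasDerivAt_iff_tendsto_slope.1 h).mono_left
    (nhdsWithin_mono (0 : ℝ) (fun s (hs : 0 < s) => hs.ne') : 𝓝[>] (0 : ℝ) ≤ 𝓝[≠] 0)
  refine ge_of_tendsto h1 ?_
  filter_upwards [Ioc_mem_nhdsGT Real.pi_pos] with s hs
  rw [slope_def_field, h0, sub_zero, sub_zero]
  exact div_nonneg (hF s ⟨hs.1.le, hs.2⟩) hs.1.le

end Tip

open Tip in
theorem tipStmt (h : IdStmt) : TipStmt := by
  intro T W hW t ht δ hδ hom
  obtain ⟨hid, -⟩ := h T W hW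
  obtain ⟨-, -, hf, -, -, -, -, -, -, -, -, -, -, hr, hze, -, -, -, hkap, -, -⟩ := hid t ht 0
  have hX0 := hW.X0 t ht
  have hth0 := hW.th0 t ht
  have hv10 := hW.v10 t ht
  have hd : 0 < W.Y t 0 := hW.tip t ht
  have hg := hW.gpos t ht 0
  have hr0 : W.r t 0 = 0 := by
    unfold FlowData.r; rw [hX0, hth0]; simp
  have hze0 : W.ze t 0 = W.Y t 0 := by
    unfold FlowData.ze; rw [hX0, hth0]; simp
  have hu0 : W.u t 0 = W.Y t 0 ^ 2 := by
    unfold FlowData.u; rw [hX0]; ring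
  have hv := hW.vp t ht 0
  have hv1 := hW.v1p t ht 0
  have hX := hW.Xp t ht 0
  have hD : HasDerivAt (fun p => W.om2 t p - δ * W.X t p)
      (W.g t 0 * (W.v2 t 0 * W.Y t 0 + W.v t 0 * (W.kap t 0 * (1 + W.kap t 0 * W.Y t 0)) - δ))
      0 := by
    have h1 := ((hv1.mul hze).add (hv.mul (hkap.mul hr))).sub (hX.const_mul δ)
    refine h1.congr_deriv ?_
    simp only [Pi.mul_apply]
    rw [hr0, hze0, hv10, hth0, cos_zero]
    unfold FlowData.r1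
    rw [hze0]
    ring
  have h0 : W.om2 t 0 - δ * W.X t 0 = 0 := by
    unfold FlowData.om2
    rw [hv10, hr0, hX0]; ring
  have hF' := deriv_nonneg_of_right hD h0 (fun p hp => by linarith [hom p hp])
  have hkey : 0 ≤ W.v2 t 0 * W.Y t 0 + W.v t 0 * (W.kap t 0 * (1 + W.kap t 0 * W.Y t 0)) - δ :=
    nonneg_of_mul_nonneg_right hF' hg
  have hC0 : W.C0 t 0 = W.v t 0 ^ 2 / W.f t 0 + 4 / 3 * (W.Y t 0 / W.Y t 0 ^ 2) * W.v t 0 := by
    unfold FlowData.C0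
    rw [hze0, hu0]
  rw [hC0]
  have hkap0 : W.kap t 0 = W.v t 0 / W.f t 0 := rfl
  rw [hkap0] at hkey
  have hmul : 0 ≤ W.f t 0 / W.Y t 0 * (W.v2 t 0 * W.Y t 0 +
      W.v t 0 * (W.v t 0 / W.f t 0 * (1 + W.v t 0 / W.f t 0 * W.Y t 0)) - δ) :=
    mul_nonneg (div_nonneg hf.le hd.le) hkey
  have hid2 : W.f t 0 * W.v2 t 0 + (W.v t 0 ^ 2 / W.f t 0 +
      4 / 3 * (W.Y t 0 / W.Y t 0 ^ 2) * W.v t 0) * W.v t 0 -
      (δ * W.f t 0 / W.Y t 0 + W.v t 0 ^ 2 / (3 * W.Y t 0)) =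
      W.f t 0 / W.Y t 0 * (W.v2 t 0 * W.Y t 0 +
      W.v t 0 * (W.v t 0 / W.f t 0 * (1 + W.v t 0 / W.f t 0 * W.Y t 0)) - δ) := by
    have hfne := hf.ne'
    have hdne := hd.ne'
    field_simp
    ring
  linarith

end Pool.Agent.Lib.MP_c60e08_gt.Lm
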