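import Pool.Agent.Lib.MP_c60e08_gt.LmFlow2

/-!
# MP_c60e08_gt, module TipSign
-/

namespace Pool.Agent.Lib.MP_c60e08_gt.Lm

open Real Set

theorem tipSignStmt : TipSignStmt := by
  intro T y hy h0 t ht
  by_contra hcon
  push Not at hcon
  have hc : ContinuousOn (fun s => y 0 s 0) (Icc 0 t) := by
    have h1 : ContinuousOn (fun s : ℝ => ((s, 0) : ℝ × ℝ)) (Icc 0 t) := by fun_prop
    exact (hy.cont 0).comp h1 (fun s hs => ⟨⟨hs.1, hs.2.trans_lt ht.2⟩, mem_univ _⟩)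
  obtain ⟨s, hs, hs0⟩ := intermediate_value_Icc ht.1 hc ⟨h0.le, hcon⟩
  have hpos := hy.pos s ⟨hs.1, hs.2.trans_lt ht.2⟩ 0
  simp only at hs0
  rw [hs0] at hpos
  unfold uu at hpos
  norm_num at hpos

end Pool.Agent.Lib.MP_c60e08_gt.Lm
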