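import Pool.Agent.Lib.MP_c60e08_gt.LmFlow2

/-!
MP_c60e08_gt: the lower bound for `v + ze / 20` away from the origin.
-/

namespace Pool.Agent.Lib.MP_c60e08_gt.Lm

open Real Set Filter Topology

namespace Top

lemma con (T t1 : ℝ) (ht1 : t1 ∈ Ico 0 T) (F : ℝ → ℝ → ℝ)
    (hF : ContinuousOn (fun z : ℝ × ℝ => F z.1 z.2) (Ico 0 T ×ˢ univ)) : COn 0 t1 F := by
  refine hF.mono ?_
  rintro ⟨t, p⟩ ⟨ht, -⟩
  exact ⟨⟨ht.1, lt_of_le_of_lt ht.2 ht1.2⟩, mem_univ _⟩

end Top

theorem topStmt (h1 : MpRStmt) (h2 : MinsStmt) (h3 : IdStmt) (h4 : IdCStmt) (_h5 : IdRStmt)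
    (h6 : IdZStmt) : TopStmt := by
  intro T W hW t1 ht1 hinit hv hze
  have hpi := Real.pi_pos
  have cv := Top.con T t1 ht1 W.v hW.cv
  have cze := Top.con T t1 ht1 W.ze (h4 T W hW W.ze (by simp))
  have css := Top.con T t1 ht1 W.ss (h4 T W hW W.ss (by simp))
  have cC0 := Top.con T t1 ht1 W.C0 (h4 T W hW W.C0 (by simp))
  obtain ⟨Lam, hLam⟩ := (isCompact_Icc.prod isCompact_Icc).exists_bound_of_continuousOn cC0
  have hend0 : ∀ t ∈ Ico 0 T, W.r t 0 = 0 := by
    intro t ht
    unfold FlowData.r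
    rw [hW.X0 t ht, hW.th0 t ht]
    simp
  have hendpi : ∀ t ∈ Ico 0 T, W.r t π = 0 := by
    intro t ht
    unfold FlowData.r
    rw [hW.Xpi t ht, hW.thpi t ht]
    simp
  have key : ∀ t ∈ Icc 0 t1, ∀ p ∈ Icc 0 π, 1 / 400 - W.ss t p ≤ 0 →
      0 ≤ W.v t p + W.ze t p / 20 := by
    refine h1 0 t1 Lam (fun t p => W.v t p + W.ze t p / 20) (fun t p => 1 / 400 - W.ss t p)
      (cv.add (cze.div_const 20)) (continuousOn_const.sub css) ?_ ?_ ?_
    · intro p hp hR
      exact hinit p hp (by linarith)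
    · intro t ht p hp hR
      have hs : W.ss t p = 1 / 400 := by linarith
      have h7 := (hv t ht p hp hs.ge).2
      have h8 := (abs_le.mp (hze t ht p hp hs)).1
      show 0 ≤ W.v t p + W.ze t p / 20
      linarith
    · intro t ht p hp hR hy hmin
      have htT : t ∈ Ioo 0 T := ⟨ht.1, lt_of_le_of_lt ht.2 ht1.2⟩
      have htT' : t ∈ Ico 0 T := ⟨ht.1.le, htT.2⟩
      have htI : t ∈ Icc 0 t1 := ⟨ht.1.le, ht.2⟩
      replace hR : 1 / 400 - W.ss t p < 0 := hR
      replace hy : W.v t p + W.ze t p / 20 < 0 := hy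
      -- derivatives in `p`
      have hdk : HasDerivAt (fun q => W.v1 t q + W.z1 t q / 20)
          (W.g t p * (W.v2 t p + W.z2 t p / 20)) p := by
        obtain ⟨-, -, -, -, -, -, -, -, -, -, -, -, -, -, -, -, -, -, -, -, hz⟩ :=
          (h3 T W hW).1 t htT' p
        have := (hW.v1p t htT' p).add (hz.div_const 20)
        refine this.congr_deriv ?_
        ring
      have hdy : ∀ q, HasDerivAt (fun q => W.v t q + W.ze t q / 20)
          (W.g t q * (W.v1 t q + W.z1 t q / 20)) q := by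
        intro q
        obtain ⟨-, -, -, -, -, -, -, -, -, -, -, -, -, -, hz, -⟩ := (h3 T W hW).1 t htT' q
        have := (hW.vp t htT' q).add (hz.div_const 20)
        refine this.congr_deriv ?_
        ring
      have hssd : ContinuousAt (W.ss t) p := by
        obtain ⟨-, -, -, -, -, -, -, -, -, -, -, -, -, -, -, -, hz, -⟩ := (h3 T W hW).1 t htT' p
        exact hz.continuousAt
      have hnear : ∀ᶠ q in 𝓝 p, 1 / 400 - W.ss t q ≤ 0 := by
        have := hssd.eventually_const_lt (by linarith : 1 / 400 < W.ss t p)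
        filter_upwards [this] with q hq
        linarith
      have hkk : W.v1 t p + W.z1 t p / 20 = 0 ∧ 0 ≤ W.v2 t p + W.z2 t p / 20 := by
        rcases hp.1.eq_or_lt with hp0 | hp0
        · -- the left end
          have hk0 : W.v1 t p + W.z1 t p / 20 = 0 := by
            rw [← hp0]
            unfold FlowData.z1
            rw [hW.v10 t htT', hend0 t htT']
            simp
          refine ⟨hk0, h2.2.1 (fun q => W.v t q + W.ze t q / 20) (W.g t)
            (fun q => W.v1 t q + W.z1 t q / 20) p _ (hW.gpos t htT') hdy hdk hk0 ?_⟩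
          have h7 : ∀ᶠ q in 𝓝[>] p, q ∈ Ioc p π := by
            apply Ioc_mem_nhdsGT
            rw [← hp0]
            exact hpi
          filter_upwards [h7, hnear.filter_mono nhdsWithin_le_nhds] with q hq1 hq2
          exact hmin q ⟨hp.1.trans hq1.1.le, hq1.2⟩ hq2
        rcases hp.2.eq_or_lt with hpπ | hpπ
        · -- the right end
          have hk0 : W.v1 t p + W.z1 t p / 20 = 0 := by
            rw [hpπ]
            unfold FlowData.z1
            rw [hW.v1pi t htT', hendpi t htT']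
            simp
          refine ⟨hk0, h2.2.2 (fun q => W.v t q + W.ze t q / 20) (W.g t)
            (fun q => W.v1 t q + W.z1 t q / 20) p _ (hW.gpos t htT') hdy hdk hk0 ?_⟩
          have h7 : ∀ᶠ q in 𝓝[<] p, q ∈ Ico 0 p := Ico_mem_nhdsLT hp0
          filter_upwards [h7, hnear.filter_mono nhdsWithin_le_nhds] with q hq1 hq2
          exact hmin q ⟨hq1.1, hq1.2.le.trans hp.2⟩ hq2
        · refine h2.1 (fun q => W.v t q + W.ze t q / 20) (W.g t)
            (fun q => W.v1 t q + W.z1 t q / 20) p _ (hW.gpos t htT') hdy hdk ?_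
          have h7 : ∀ᶠ q in 𝓝 p, q ∈ Icc 0 π := Icc_mem_nhds hp0 hpπ
          filter_upwards [h7, hnear] with q hq1 hq2
          exact hmin q hq1 hq2
      obtain ⟨hk0, hk2⟩ := hkk
      have hD := (hW.vt t htT p).add (((h6 T W hW).2 t htT p).1.div_const 20)
      refine ⟨_, hD, ?_⟩
      have hf : 0 < W.f t p := ((h3 T W hW).1 t htT' p).2.2.1
      have hC0 : |W.C0 t p| ≤ Lam := hLam (t, p) ⟨htI, hp⟩
      have hvp := hv t htI p hp (by linarith)
      have hv0 : 0 ≤ W.v t p := by linarith [hvp.1, hvp.2]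
      have h8 : W.f t p * W.v2 t p + W.C0 t p * W.v t p + W.lam t p * W.v1 t p
          + (W.f t p * W.z2 t p + W.C0 t p * W.ze t p + 2 / 3 * W.v t p
            + W.lam t p * W.z1 t p) / 20
          = W.f t p * (W.v2 t p + W.z2 t p / 20) + W.C0 t p * (W.v t p + W.ze t p / 20)
            + W.v t p / 30 + W.lam t p * (W.v1 t p + W.z1 t p / 20) := by ring
      show Lam * (W.v t p + W.ze t p / 20) ≤ _
      rw [h8, hk0, mul_zero, add_zero]
      have h9 : 0 ≤ W.f t p * (W.v2 t p + W.z2 t p / 20) := mul_nonneg hf.le hk2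
      have h10 : Lam * (W.v t p + W.ze t p / 20) ≤ W.C0 t p * (W.v t p + W.ze t p / 20) :=
        mul_le_mul_of_nonpos_right ((le_abs_self _).trans hC0) hy.le
      linarith
  intro t ht
  have htT : t ∈ Ico 0 T := ⟨ht.1, lt_of_le_of_lt ht.2 ht1.2⟩
  refine ⟨fun p hp hs => key t ht p hp (by linarith), ?_⟩
  have hY := hW.top t htT
  have hs : 1 ≤ W.ss t π := by
    unfold FlowData.ss
    apply Real.one_le_rpow _ (by norm_num)
    unfold FlowData.u
    nlinarith [sq_nonneg (W.X t π)]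
  have h7 := key t ht π ⟨hpi.le, le_rfl⟩ (by linarith)
  have h8 : W.ze t π = - W.Y t π := by
    unfold FlowData.ze
    rw [hW.Xpi t htT, hW.thpi t htT]
    simp
  rw [h8] at h7
  linarith

end Pool.Agent.Lib.MP_c60e08_gt.Lm
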