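import Pool.Agent.Lib.MP_c60e08_gt.LmFlow2

/-!
MP_c60e08_gt, module Turn: when the tip velocity vanishes, the tip moves up afterwards.
-/

set_option autoImplicit false

namespace Pool.Agent.Lib.MP_c60e08_gt.Lm

open Real Set Filter Topology

namespace Turn

/-- A function with positive derivative is larger than its value just to the right. -/
theorem right_gt {f : ℝ → ℝ} {E a : ℝ} (hf : HasDerivAt f E a) (hE : 0 < E) :
    ∀ᶠ s in 𝓝[>] a, f a < f s := by
  have h1 : Tendsto (slope f a) (𝓝[>] a) (𝓝 E) :=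
    (hasDerivWithinAt_iff_tendsto_slope' (by simp)).1 (hf.hasDerivWithinAt (s := Ioi a))
  filter_upwards [(tendsto_order.1 h1).1 0 hE, self_mem_nhdsWithin] with s hs hsa
  have h2 : 0 < s - a := sub_pos.2 hsa
  rw [slope_def_field] at hs
  have h3 := (div_pos_iff_of_pos_right h2).1 hs
  linarith

end Turn

open Turn in
theorem turnStmt (h : TipStmt) : TurnStmt := by
  intro T W hW t0 ht0 δ hδ hv0 hom
  have ht0' : t0 ∈ Ico 0 T := ⟨ht0.1.le, ht0.2⟩
  have hf : 0 < W.f t0 0 := by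
    unfold FlowData.f fS
    have := hW.upos t0 ht0' 0
    positivity
  have hY : 0 < W.Y t0 0 := hW.tip t0 ht0'
  have htip := h T W hW t0 ht0' δ hδ.le hom
  have hE : 0 < W.f t0 0 * W.v2 t0 0 + W.C0 t0 0 * W.v t0 0 + W.lam t0 0 * W.v1 t0 0 := by
    rw [hW.lam0 t0 ht0', zero_mul, add_zero]
    rw [hv0] at htip
    have h1 : 0 < δ * W.f t0 0 / W.Y t0 0 := by positivity
    rw [hv0]
    have h2 : (0 : ℝ) ^ 2 / (3 * W.Y t0 0) = 0 := by simp
    rw [h2, add_zero] at htip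
    linarith
  have hev := right_gt (hW.vt t0 ht0 0) hE
  simp only [hv0] at hev
  obtain ⟨t3, ht3, hsub⟩ := (mem_nhdsGT_iff_exists_Ioo_subset).1 hev
  have ht3' : t0 < t3 := ht3
  set t2 : ℝ := (t0 + min t3 T) / 2 with ht2
  have hm : t0 < min t3 T := lt_min ht3' ht0.2
  have h02 : t0 < t2 := by rw [ht2]; linarith
  have h23 : t2 < min t3 T := by rw [ht2]; linarith
  have h2T : t2 < T := h23.trans_le (min_le_right _ _)
  refine ⟨t2, ⟨h02, h2T⟩, ?_⟩
  have hder : ∀ s ∈ Icc t0 t2, HasDerivAt (fun s => W.Y s 0) (W.v s 0) s := by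
    intro s hs
    have hs1 : s ∈ Ioo 0 T := ⟨ht0.1.trans_le hs.1, hs.2.trans_lt h2T⟩
    have hs2 : s ∈ Ico 0 T := ⟨hs1.1.le, hs1.2⟩
    have h1 := hW.Yt s hs1 0
    rw [hW.th0 s hs2, hW.lam0 s hs2, cos_zero, mul_one, zero_mul, add_zero] at h1
    exact h1
  have hmono : StrictMonoOn (fun s => W.Y s 0) (Icc t0 t2) := by
    apply strictMonoOn_of_deriv_pos (convex_Icc _ _)
    · exact fun s hs => (hder s hs).continuousAt.continuousWithinAt
    · intro s hs
      rw [interior_Icc] at hs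
      rw [(hder s ⟨hs.1.le, hs.2.le⟩).deriv]
      exact hsub ⟨hs.1, hs.2.trans (h23.trans_le (min_le_left _ _))⟩
  exact hmono ⟨le_rfl, h02.le⟩ ⟨h02.le, le_rfl⟩ h02

end Pool.Agent.Lib.MP_c60e08_gt.Lm
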