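import Pool.Agent.Lib.MP_c60e08_gt.LmFlow2

/-!
Module Vb: bounds of `v` and `zeta` near the tip.
-/

namespace Pool.Agent.Lib.MP_c60e08_gt.Lm

open Real Set Filter Topology

namespace Vb

theorem exp_bound : exp (3 / 2 : ℝ) ≤ 9 / 2 := by
  have h1 := Real.exp_one_lt_d9
  have h2 : exp (3 / 2 : ℝ) ^ 2 = exp 1 ^ 3 := by
    rw [← Real.exp_nat_mul, ← Real.exp_nat_mul]
    norm_num
  have h3 : exp (1 : ℝ) ^ 3 ≤ (2.7182818286 : ℝ) ^ 3 :=
    pow_le_pow_left₀ (exp_pos _).le h1.le 3
  have h4 : (2.7182818286 : ℝ) ^ 3 ≤ (9 / 2) ^ 2 := by norm_num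
  by_contra h
  push Not at h
  have h5 : (9 / 2 : ℝ) ^ 2 < exp (3 / 2 : ℝ) ^ 2 := pow_lt_pow_left₀ h (by norm_num) (by norm_num)
  linarith

theorem le_of_sq {a b : ℝ} (hb : 0 ≤ b) (h : a ^ 2 ≤ b ^ 2) : a ≤ b := by
  by_contra hc
  push Not at hc
  have := pow_lt_pow_left₀ hc hb (by norm_num : (2 : ℕ) ≠ 0)
  linarith

end Vb

theorem vbStmt (h1 : ZgStmt) (h2 : NoCommonStmt) (h3 : CvxStmt) (h4 : IdStmt)
    (_h5 : IdCStmt) : VbStmt := by
  intro K hK η hη
  have hK0 : 0 < K := lt_of_lt_of_le one_pos hK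
  refine ⟨min (1 / 400) (min (1 / (40 * K)) (η ^ 2 / (225 * K ^ 5))), by positivity, ?_⟩
  intro b T W hW hb t ht hP e he heY heε hv0 p hp hsp
  have e1 : e ≤ 1 / 400 := heε.trans (min_le_left _ _)
  have e2 : e * K ≤ 1 / 40 := by
    have h := heε.trans ((min_le_right _ _).trans (min_le_left _ _))
    calc e * K ≤ 1 / (40 * K) * K := mul_le_mul_of_nonneg_right h hK0.le
      _ = 1 / 40 := by field_simp
  have e3 : 225 * K ^ 5 * e ≤ η ^ 2 := by
    have h := heε.trans ((min_le_right _ _).trans (min_le_right _ _))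
    calc 225 * K ^ 5 * e ≤ 225 * K ^ 5 * (η ^ 2 / (225 * K ^ 5)) :=
          mul_le_mul_of_nonneg_left h (by positivity)
      _ = η ^ 2 := by field_simp
  have hId := (h4 T W hW).1 t ht
  obtain ⟨hm, hvr, -, -⟩ := h3 T W hW t ht hP.rpos hP.om1
  have hd : 0 < W.Y t 0 := hW.tip t ht
  have hzd : ∀ q, HasDerivAt (W.ze t) (W.g t q * W.z1 t q) q := fun q => by
    obtain ⟨-, -, -, -, -, -, -, -, -, -, -, -, -, -, h, -⟩ := hId q
    exact h
  have hsd : ∀ q, HasDerivAt (W.ss t) (W.g t q * (2 * W.r t q / W.f t q)) q := fun q => by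
    obtain ⟨-, -, -, -, -, -, -, -, -, -, -, -, -, -, -, -, h, -⟩ := hId q
    exact h
  have hfpos : ∀ q, 0 < W.f t q := fun q => (hId q).2.2.1
  have hspos : ∀ q, 0 < W.ss t q := fun q => (hId q).2.2.2.1
  have hrhopos : ∀ q, 0 < W.rho t q := fun q => (hId q).2.2.2.2.1
  have hss3 : ∀ q, W.ss t q ^ 3 = W.u t q := fun q => (hId q).2.2.2.2.2.2.1
  have hrs : ∀ q, W.rho t q ^ 2 = W.ss t q ^ 3 := fun q => (hId q).2.2.2.2.2.2.2.1
  have hrr : ∀ q, |W.r t q| ≤ W.rho t q := fun q => (hId q).2.2.2.2.2.2.2.2.1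
  have hgpos : ∀ q, 0 < W.g t q := hW.gpos t ht
  have hsc : Continuous (W.ss t) :=
    continuous_iff_continuousAt.2 fun q => (hsd q).continuousAt
  have hvd : ∀ q, HasDerivAt (W.v t) (W.g t q * W.v1 t q) q := hW.vp t ht
  have hvc : Continuous (W.v t) :=
    continuous_iff_continuousAt.2 fun q => (hvd q).continuousAt
  have hs0 : W.ss t 0 = e ^ 2 := by
    have h5 : W.ss t 0 ^ 3 = (e ^ 2) ^ 3 := by
      rw [hss3, FlowData.u, hW.X0 t ht, ← heY]
      ring
    exact (pow_left_inj₀ (hspos 0).le (by positivity) (by norm_num)).1 h5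
  have hlt : ∀ x ∈ Icc 0 π, W.v t x ≤ 0 → x < π := by
    intro x hx hvx
    rcases lt_or_eq_of_le hx.2 with h | h
    · exact h
    · exfalso
      have h5 := hP.vtop
      rw [h] at hvx
      linarith
  have hrhom : ∀ x ∈ Icc 0 π, ∀ y ∈ Icc 0 π, x ≤ y → W.rho t x ≤ W.rho t y := by
    intro x hx y hy hxy
    apply Vb.le_of_sq (hrhopos y).le
    rw [hrs, hrs]
    exact pow_le_pow_left₀ (hspos x).le (hm x hx y hy hxy) 3
  set s2 : ℝ := e / K with hs2
  have hs2pos : 0 < s2 := div_pos he hK0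
  have hs2K : s2 * K = e := by rw [hs2]; field_simp
  have hs2le : s2 ≤ 1 / 400 := by
    have : s2 ≤ e := by
      rw [hs2]
      exact div_le_self he.le hK
    linarith
  have hs0lt : W.ss t 0 < s2 := by
    rw [hs0, hs2, lt_div_iff₀ hK0]
    nlinarith
  -- the region `s <= s2`
  have hA : ∀ x ∈ Icc 0 π, W.v t x ≤ 0 → W.ss t x ≤ s2 →
      W.ze t x ≤ 9 / 2 * e ^ 3 ∧ - W.v t x ≤ 27 / 2 * K * e ^ 2 := by
    intro x hx hvx hsx
    obtain ⟨z0, z1, z2⟩ := h1 b T W hW t ht hP x hx hvx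
    set a : ℝ := - W.v t 0 / W.Y t 0 with ha
    have ha0 : 0 ≤ a := div_nonneg (by linarith [hP.vtip]) hd.le
    have ha1 : a ≤ 3 * K / e := by
      rw [ha, ← heY, div_le_div_iff₀ (by positivity) he]
      have : - W.v t 0 * e ≤ 3 * K * e ^ 2 * e := mul_le_mul_of_nonneg_right hv0 he.le
      linarith
    have hexp : exp (a * W.ss t x / 2) ≤ 9 / 2 := by
      refine (exp_le_exp.2 ?_).trans Vb.exp_bound
      have : a * W.ss t x ≤ 3 * K / e * (e / K) :=
        mul_le_mul ha1 hsx (hspos x).le (by positivity)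
      have h6 : 3 * K / e * (e / K) = 3 := by field_simp
      linarith
    have hze : W.ze t x ≤ 9 / 2 * e ^ 3 := by
      calc W.ze t x ≤ W.Y t 0 * exp (a * W.ss t x / 2) := z2
        _ ≤ W.Y t 0 * (9 / 2) := mul_le_mul_of_nonneg_left hexp hd.le
        _ = 9 / 2 * e ^ 3 := by rw [← heY]; ring
    refine ⟨hze, ?_⟩
    calc - W.v t x ≤ a * W.ze t x := z1
      _ ≤ 3 * K / e * (9 / 2 * e ^ 3) := mul_le_mul ha1 hze z0.le (by positivity)
      _ = 27 / 2 * K * e ^ 2 := by field_simp; ring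
  -- the threshold point
  have hthr : ∀ x ∈ Icc 0 π, s2 ≤ W.ss t x → ∃ y, 0 < y ∧ y ≤ x ∧ W.ss t y = s2 := by
    intro x hx hsx
    obtain ⟨y, hy, hys⟩ := intermediate_value_Icc hx.1 hsc.continuousOn ⟨hs0lt.le, hsx⟩
    refine ⟨y, ?_, hy.2, hys⟩
    rcases eq_or_lt_of_le hy.1 with h | h
    · exfalso
      rw [← h] at hys
      linarith
    · exact h
  -- the region `s >= s2`
  have hB : ∀ x ∈ Icc 0 π, W.v t x ≤ 0 → s2 ≤ W.ss t x → - W.v t x ≤ η * W.r t x := by
    intro x hx hvx hsx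
    have hxlt := hlt x hx hvx
    obtain ⟨y, hy0, hyx, hys⟩ := hthr x hx hsx
    have hyIcc : y ∈ Icc 0 π := ⟨hy0.le, hyx.trans hx.2⟩
    have hyIoo : y ∈ Ioo 0 π := ⟨hy0, lt_of_le_of_lt hyx hxlt⟩
    have hxIoo : x ∈ Ioo 0 π := ⟨lt_of_lt_of_le hy0 hyx, hxlt⟩
    have hvy : W.v t y ≤ 0 :=
      (h2 T W hW t ht hP.rpos hP.om1 x ⟨hx.1, hxlt⟩ hvx y ⟨hy0.le, hyx⟩).1
    have hA' := (hA y hyIcc hvy hys.le).2
    obtain ⟨-, -, -, -, n5, n6⟩ := hP.near y hyIcc (hys.le.trans hs2le)
    have hr2 : W.rho t y ^ 2 * K ^ 3 = e ^ 3 := by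
      rw [hrs, hys, ← mul_pow, hs2K]
    have hd100 : 100 * W.Y t 0 ≤ W.rho t y := by
      apply Vb.le_of_sq (hrhopos y).le
      have h6 : (100 * W.Y t 0) ^ 2 * K ^ 3 ≤ W.rho t y ^ 2 * K ^ 3 := by
        rw [hr2, ← heY]
        have h7 : (e * K) ^ 3 ≤ (1 / 40) ^ 3 := pow_le_pow_left₀ (by positivity) e2 3
        have h8 : (100 * e ^ 3) ^ 2 * K ^ 3 = 10000 * (e * K) ^ 3 * e ^ 3 := by ring
        rw [h8]
        have h9 : 10000 * (e * K) ^ 3 ≤ 1 := by
          calc 10000 * (e * K) ^ 3 ≤ 10000 * (1 / 40) ^ 3 := by linarith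
            _ ≤ 1 := by norm_num
        calc 10000 * (e * K) ^ 3 * e ^ 3 ≤ 1 * e ^ 3 :=
              mul_le_mul_of_nonneg_right h9 (by positivity)
          _ = e ^ 3 := one_mul _
      exact le_of_mul_le_mul_right h6 (by positivity)
    have hrho := hrhopos y
    have hX : 97 / 100 * W.rho t y ≤ W.X t y := by linarith
    have hXd : W.Y t 0 ≤ W.X t y := by linarith
    have hr := (n6 hXd).1
    have hr9 : 9 / 10 * W.rho t y ≤ W.r t y := by linarith
    have hKe : 15 * K * e ^ 2 ≤ η * W.rho t y := by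
      apply Vb.le_of_sq (by positivity)
      have h6 : (15 * K * e ^ 2) ^ 2 * K ^ 3 ≤ (η * W.rho t y) ^ 2 * K ^ 3 := by
        have h7 : (η * W.rho t y) ^ 2 * K ^ 3 = η ^ 2 * e ^ 3 := by
          rw [mul_pow, mul_assoc, hr2]
        have h8 : (15 * K * e ^ 2) ^ 2 * K ^ 3 = 225 * K ^ 5 * e * e ^ 3 := by ring
        rw [h7, h8]
        exact mul_le_mul_of_nonneg_right e3 (by positivity)
      exact le_of_mul_le_mul_right h6 (by positivity)
    have hvry : - W.v t y ≤ η * W.r t y := by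
      have h6 : η * (9 / 10 * W.rho t y) ≤ η * W.r t y := mul_le_mul_of_nonneg_left hr9 hη.le
      linarith
    have hry := hP.rpos y hyIoo
    have hrx := hP.rpos x hxIoo
    have h6 : -η ≤ W.v t y / W.r t y := by
      rw [le_div_iff₀ hry]
      linarith
    have h7 := hvr y hyIoo x hxIoo hyx
    have h8 : -η ≤ W.v t x / W.r t x := h6.trans h7
    rw [le_div_iff₀ hrx] at h8
    linarith
  -- the bound of `zeta` where `v <= 0`
  have hC : ∀ x ∈ Icc 0 π, W.v t x ≤ 0 →
      W.ze t x ≤ 9 / 2 * e ^ 3 + η / 2 * W.rho t x * W.ss t x := by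
    intro x hx hvx
    have hrhox := hrhopos x
    have hsx0 := hspos x
    rcases le_total (W.ss t x) s2 with hs | hs
    · have h6 := (hA x hx hvx hs).1
      have h7 : 0 ≤ η / 2 * W.rho t x * W.ss t x := by positivity
      linarith
    · have hxlt := hlt x hx hvx
      obtain ⟨y, hy0, hyx, hys⟩ := hthr x hx hs
      have hyIcc : y ∈ Icc 0 π := ⟨hy0.le, hyx.trans hx.2⟩
      have hnc := h2 T W hW t ht hP.rpos hP.om1 x ⟨hx.1, hxlt⟩ hvx
      have hvy : W.v t y ≤ 0 := (hnc y ⟨hy0.le, hyx⟩).1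
      have hanti : AntitoneOn (fun z => W.ze t z - η * W.rho t x / 2 * W.ss t z) (Icc y x) := by
        have hder : ∀ z, HasDerivAt (fun z => W.ze t z - η * W.rho t x / 2 * W.ss t z)
            (W.g t z * W.z1 t z
              - η * W.rho t x / 2 * (W.g t z * (2 * W.r t z / W.f t z))) z :=
          fun z => (hzd z).sub ((hsd z).const_mul _)
        apply antitoneOn_of_deriv_nonpos (convex_Icc y x)
        · exact fun z _ => (hder z).continuousAt.continuousWithinAt
        · exact fun z _ => (hder z).differentiableAt.differentiableWithinAt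
        · intro z hz
          have hz' := interior_subset hz
          rw [(hder z).deriv]
          have hzIcc : z ∈ Icc 0 π := ⟨hy0.le.trans hz'.1, hz'.2.trans hx.2⟩
          have hvz : W.v t z ≤ 0 := (hnc z ⟨hy0.le.trans hz'.1, hz'.2⟩).1
          have hsz : s2 ≤ W.ss t z := by
            rw [← hys]
            exact hm y hyIcc z hzIcc hz'.1
          have hb1 := hB z hzIcc hvz hsz
          have hb2 : W.r t z ≤ W.rho t x := ((le_abs_self _).trans (hrr z)).trans
            (hrhom z hzIcc x hx hz'.2)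
          have hzIoo : z ∈ Ioo 0 π :=
            ⟨lt_of_lt_of_le hy0 hz'.1, lt_of_le_of_lt hz'.2 hxlt⟩
          have hrz := hP.rpos z hzIoo
          have hfz := hfpos z
          have hgz := hgpos z
          have e5 : W.g t z * W.z1 t z
              - η * W.rho t x / 2 * (W.g t z * (2 * W.r t z / W.f t z))
              = W.g t z * W.r t z / W.f t z * (- W.v t z - η * W.rho t x) := by
            simp only [FlowData.z1, FlowData.kap]
            field_simp
          rw [e5]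
          apply mul_nonpos_of_nonneg_of_nonpos (by positivity)
          have : η * W.r t z ≤ η * W.rho t x := mul_le_mul_of_nonneg_left hb2 hη.le
          linarith
      have h6 := hanti (left_mem_Icc.2 hyx) (right_mem_Icc.2 hyx) hyx
      simp only [] at h6
      have h7 := (hA y hyIcc hvy hys.le).1
      have h8 : 0 ≤ η * W.rho t x / 2 * W.ss t y :=
        mul_nonneg (by positivity) (hspos y).le
      have h9 : η * W.rho t x / 2 * W.ss t x = η / 2 * W.rho t x * W.ss t x := by ring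
      linarith
  refine ⟨fun hv => ?_, fun hv => ?_⟩
  · refine ⟨(h1 b T W hW t ht hP p hp hv).1, ?_⟩
    have hrhop := hrhopos p
    rcases le_total (W.ss t p) s2 with hs | hs
    · have h6 := (hA p hp hv hs).2
      have h7 : 0 ≤ η * W.rho t p := by positivity
      have h8 : 0 ≤ K * e ^ 2 := by positivity
      linarith
    · have h6 := hB p hp hv hs
      have h7 : η * W.r t p ≤ η * W.rho t p :=
        mul_le_mul_of_nonneg_left ((le_abs_self _).trans (hrr p)) hη.le
      have h8 : 0 ≤ K * e ^ 2 := by positivity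
      linarith
  · -- the last point with `v <= 0`
    set S : Set ℝ := {x | x ∈ Icc 0 p ∧ W.v t x ≤ 0} with hS
    have hSc : IsCompact S := by
      have : S = Icc 0 p ∩ (W.v t) ⁻¹' (Iic 0) := rfl
      rw [this]
      exact isCompact_Icc.inter_right (isClosed_Iic.preimage hvc)
    have hSne : S.Nonempty := ⟨0, ⟨le_refl _, hp.1⟩, hP.vtip⟩
    obtain ⟨q, hqS, hqmax⟩ := hSc.exists_isGreatest hSne
    have hqIcc : q ∈ Icc 0 π := ⟨hqS.1.1, hqS.1.2.trans hp.2⟩
    have hpos : ∀ x, q < x → x ≤ p → 0 < W.v t x := by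
      intro x hqx hxp
      by_contra h
      push Not at h
      have : x ∈ S := ⟨⟨hqS.1.1.trans hqx.le, hxp⟩, h⟩
      exact absurd (hqmax this) (not_le.2 hqx)
    have hanti : AntitoneOn (W.ze t) (Icc q p) := by
      apply antitoneOn_of_deriv_nonpos (convex_Icc q p)
      · exact fun z _ => (hzd z).continuousAt.continuousWithinAt
      · exact fun z _ => (hzd z).differentiableAt.differentiableWithinAt
      · intro z hz
        rw [interior_Icc] at hz
        rw [(hzd z).deriv]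
        have hzIoo : z ∈ Ioo 0 π :=
          ⟨lt_of_le_of_lt hqS.1.1 hz.1, lt_of_lt_of_le hz.2 hp.2⟩
        have hrz := hP.rpos z hzIoo
        have hvz := hpos z hz.1 hz.2.le
        have hfz := hfpos z
        have hgz := hgpos z
        have e5 : W.g t z * W.z1 t z = -(W.g t z * (W.v t z / W.f t z * W.r t z)) := by
          simp only [FlowData.z1, FlowData.kap]
          ring
        rw [e5]
        have : 0 ≤ W.g t z * (W.v t z / W.f t z * W.r t z) := by positivity
        linarith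
    have h6 := hanti (left_mem_Icc.2 hqS.1.2) (right_mem_Icc.2 hqS.1.2) hqS.1.2
    have h7 := hC q hqIcc hqS.2
    have h8 := hrhom q hqIcc p hp hqS.1.2
    have h9 := hm q hqIcc p hp hqS.1.2
    have h10 : W.rho t q * W.ss t q ≤ W.rho t p * W.ss t p :=
      mul_le_mul h8 h9 (hspos q).le (hrhopos p).le
    have h11 : 0 ≤ W.rho t p * W.ss t p := mul_nonneg (hrhopos p).le (hspos p).le
    have h12 : η / 2 * W.rho t q * W.ss t q ≤ η * W.rho t p * W.ss t p := by
      calc η / 2 * W.rho t q * W.ss t q = η / 2 * (W.rho t q * W.ss t q) := by ring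
        _ ≤ η / 2 * (W.rho t p * W.ss t p) := mul_le_mul_of_nonneg_left h10 (by positivity)
        _ ≤ η * (W.rho t p * W.ss t p) := mul_le_mul_of_nonneg_right (by linarith) h11
        _ = _ := by ring
    have h13 : 0 < e ^ 3 := by positivity
    linarith

end Pool.Agent.Lib.MP_c60e08_gt.Lm
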