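import Pool.Agent.Lib.MP_c60e08_gt.LmFlow2

/-!
MP_c60e08_gt, FLOW part, module Vbd: if the tip stays above `d0` then `v` is bounded.
-/

namespace Pool.Agent.Lib.MP_c60e08_gt.Lm

open Real Set Filter Topology

theorem vbdStmt (h1 : VmaxStmt) (h2 : ZgStmt) (h3 : AntiStmt) (h4 : DistStmt) (h5 : IdStmt) :
    VbdStmt := by
  obtain ⟨Cv, b8, hb8, hV⟩ := h1
  refine ⟨b8, hb8, ?_⟩
  intro b C3 T d0 W hb hStd hInit hd0 hd
  have hflow := hStd.flow
  have hdist := (h4 T W hflow hInit.dist2).1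
  have hTpos := hflow.Tpos
  have h0T : (0 : ℝ) ∈ Ico 0 T := ⟨le_refl 0, hTpos⟩
  set A0 : ℝ := - W.v 0 0 * (W.Y 0 0) ^ (-(1 : ℝ) / 3) with hA0
  have hA0pos : 0 ≤ A0 := by
    rw [hA0]
    apply mul_nonneg
    · have := hStd.vneg 0 h0T
      linarith
    · exact Real.rpow_nonneg (hflow.tip 0 h0T).le _
  refine ⟨max Cv (A0 / d0 * 3), ?_⟩
  intro t ht p hp
  have hpack := hStd.pack t ht
  have hYpos : 0 < W.Y t 0 := hflow.tip t ht
  have hvtip : W.v t 0 < 0 := hStd.vneg t ht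
  have hY1 : W.Y t 0 ≤ 1 := by
    have h6 := hpack.dle
    have h7 : b ^ 3 ≤ (1 / 1000) ^ 3 := pow_le_pow_left₀ hStd.bpos.le hStd.bsmall 3
    norm_num at h7
    linarith
  have hanti : - W.v t 0 * (W.Y t 0) ^ (-(1 : ℝ) / 3) ≤ A0 :=
    h3 b T W hStd h0T ht ht.1
  have hge1 : 1 ≤ (W.Y t 0) ^ (-(1 : ℝ) / 3) :=
    Real.one_le_rpow_of_pos_of_le_one_of_nonpos hYpos hY1 (by norm_num)
  have hvt : - W.v t 0 ≤ A0 := by
    refine le_trans ?_ hanti
    nlinarith
  rw [abs_le]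
  constructor
  · rcases le_or_gt (W.v t p) 0 with hv | hv
    · obtain ⟨hze, hle, _⟩ := h2 b T W hflow t ht hpack p hp hv
      have hid := (h5 T W hflow).1 t ht p
      have hrho : 0 < W.rho t p := hid.2.2.2.2.1
      have hrho2 : W.rho t p ^ 2 = W.u t p := hid.2.2.2.2.2.1
      have hzr : |W.ze t p| ≤ W.rho t p := hid.2.2.2.2.2.2.2.2.2.1
      have hN := hdist t ht p hp
      have hu : W.u t p ≤ 9 := by
        have h6 : (W.Y t p - 1) ^ 2 ≤ 11 / 10 := by nlinarith [sq_nonneg (W.X t p)]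
        have h7 : W.Y t p - 1 ≤ 2 := by nlinarith
        have h8 : W.u t p = W.X t p ^ 2 + W.Y t p ^ 2 := rfl
        rw [h8]
        nlinarith
      have hrho3 : W.rho t p ≤ 3 := by nlinarith
      have hze3 : W.ze t p ≤ 3 := (le_abs_self _).trans (hzr.trans hrho3)
      have h9 : - W.v t 0 / W.Y t 0 ≤ A0 / d0 := by
        apply div_le_div₀ hA0pos hvt hd0 (hd t ht)
      have h10 : 0 ≤ - W.v t 0 / W.Y t 0 := div_nonneg (by linarith) hYpos.le
      have h11 : - W.v t 0 / W.Y t 0 * W.ze t p ≤ A0 / d0 * 3 :=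
        mul_le_mul h9 hze3 hze.le (h10.trans h9)
      have h12 := le_max_right Cv (A0 / d0 * 3)
      linarith
    · have h12 := le_max_right Cv (A0 / d0 * 3)
      have h13 : 0 ≤ A0 / d0 * 3 := by positivity
      linarith
  · exact ((hV b T W hb hStd t ht (hdist t ht) p hp).1).trans (le_max_left _ _)

end Pool.Agent.Lib.MP_c60e08_gt.Lm
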