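import Pool.Agent.Lib.MP_c60e08_gt.LmFlow2

/-!
MP_c60e08_gt, module Vmax: a uniform upper bound for `v`.
-/

namespace Pool.Agent.Lib.MP_c60e08_gt.Lm.Vmax

open Real Set Filter Topology

lemma mono_of_deriv {F F' : ℝ → ℝ} {a c : ℝ} (h : ∀ p ∈ Icc a c, HasDerivAt F (F' p) p)
    (h0 : ∀ p ∈ Icc a c, 0 ≤ F' p) : MonotoneOn F (Icc a c) := by
  refine monotoneOn_of_deriv_nonneg (convex_Icc a c)
    (fun p hp => (h p hp).continuousAt.continuousWithinAt)
    (fun p hp => (h p (interior_subset hp)).differentiableAt.differentiableWithinAt) ?_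
  intro p hp
  rw [(h p (interior_subset hp)).deriv]
  exact h0 p (interior_subset hp)

lemma anti_of_deriv {F F' : ℝ → ℝ} {a c : ℝ} (h : ∀ p ∈ Icc a c, HasDerivAt F (F' p) p)
    (h0 : ∀ p ∈ Icc a c, F' p ≤ 0) : AntitoneOn F (Icc a c) := by
  refine antitoneOn_of_deriv_nonpos (convex_Icc a c)
    (fun p hp => (h p hp).continuousAt.continuousWithinAt)
    (fun p hp => (h p (interior_subset hp)).differentiableAt.differentiableWithinAt) ?_
  intro p hp
  rw [(h p (interior_subset hp)).deriv]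
  exact h0 p (interior_subset hp)

end Pool.Agent.Lib.MP_c60e08_gt.Lm.Vmax

namespace Pool.Agent.Lib.MP_c60e08_gt.Lm

open Real Set Filter Topology Vmax

theorem vmaxStmt (h1 : NoCommonStmt) (h2 : CvxStmt) (h3 : IdStmt) (h4 : IdCStmt) :
    VmaxStmt := by
  clear h1 h2 h4
  refine ⟨10 ^ 7, 1 / 10 ^ 8, by norm_num, ?_⟩
  intro b T W hb hS t ht hD
  have hπ := Real.pi_pos
  have hP := hS.pack t ht
  have hW := hS.flow
  have hb0 := hS.bpos
  have I := (h3 T W hW).1 t ht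
  -- the data
  have hfpos : ∀ q, 0 < W.f t q := fun q => (I q).2.2.1
  have hspos : ∀ q, 0 < W.ss t q := fun q => (I q).2.2.2.1
  have hrhopos : ∀ q, 0 < W.rho t q := fun q => (I q).2.2.2.2.1
  have hs3 : ∀ q, W.ss t q ^ 3 = W.u t q := fun q => (I q).2.2.2.2.2.2.1
  have hrs : ∀ q, W.rho t q ^ 2 = W.ss t q ^ 3 := fun q => (I q).2.2.2.2.2.2.2.1
  have hr : ∀ q, |W.r t q| ≤ W.rho t q := fun q => (I q).2.2.2.2.2.2.2.2.1
  have hz : ∀ q, |W.ze t q| ≤ W.rho t q := fun q => (I q).2.2.2.2.2.2.2.2.2.1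
  have dze : ∀ q, HasDerivAt (W.ze t) (W.g t q * W.z1 t q) q :=
    fun q => (I q).2.2.2.2.2.2.2.2.2.2.2.2.2.2.1
  have dss : ∀ q, HasDerivAt (W.ss t) (W.g t q * (2 * W.r t q / W.f t q)) q :=
    fun q => (I q).2.2.2.2.2.2.2.2.2.2.2.2.2.2.2.2.1
  clear I
  have hr0 : ∀ q ∈ Icc 0 π, 0 ≤ W.r t q := by
    intro q hq
    rcases eq_or_lt_of_le hq.1 with h | h
    · rw [← h]
      simp [FlowData.r, hW.X0 t ht, hW.th0 t ht]
    rcases eq_or_lt_of_le hq.2 with h' | h'
    · rw [h']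
      simp [FlowData.r, hW.Xpi t ht, hW.thpi t ht]
    exact (hP.rpos q ⟨h, h'⟩).le
  have hvpos : ∀ q ∈ Icc 0 π, 40 * b ≤ W.ss t q → 0 ≤ W.v t q := by
    intro q hq h
    have a1 := hP.vlow q hq h
    have a2 := hr0 q hq
    linarith
  -- numbers
  have hbs : 40 * b < 1 / 800 := by norm_num at hb ⊢; linarith
  have hb3 : b ^ 3 ≤ 1 / 10 ^ 24 := by
    calc b ^ 3 ≤ (1 / 10 ^ 8) ^ 3 := pow_le_pow_left₀ hb0.le hb 3
      _ = 1 / 10 ^ 24 := by norm_num
  have hd0 : 0 < W.Y t 0 := hW.tip t ht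
  have hd : W.Y t 0 ≤ 1 / 10 ^ 20 := by
    have := hP.dle
    norm_num at hb3 ⊢
    linarith
  have hs0 : W.ss t 0 < 40 * b := by
    refine lt_of_pow_lt_pow_left₀ 3 (by positivity) ?_
    rw [hs3 0]
    have hu : W.u t 0 = W.Y t 0 ^ 2 := by simp [FlowData.u, hW.X0 t ht]
    rw [hu]
    have h5 : W.Y t 0 ^ 2 ≤ (200 * b ^ 3) ^ 2 := pow_le_pow_left₀ hd0.le hP.dle 2
    have hb3' : 0 < b ^ 3 := by positivity
    have : (200 * b ^ 3) ^ 2 < (40 * b) ^ 3 := by
      have e1 : (200 * b ^ 3) ^ 2 = 40000 * b ^ 3 * b ^ 3 := by ring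
      have e2 : (40 * b) ^ 3 = 64000 * b ^ 3 := by ring
      rw [e1, e2]
      norm_num at hb3
      nlinarith
    linarith
  have hspi : 1 < W.ss t π := by
    refine lt_of_pow_lt_pow_left₀ 3 (hspos π).le ?_
    rw [hs3 π]
    have hu : W.u t π = W.Y t π ^ 2 := by simp [FlowData.u, hW.Xpi t ht]
    rw [hu]
    have := hW.top t ht
    nlinarith
  have hsc : ContinuousOn (W.ss t) (Icc 0 π) :=
    fun q _ => (dss q).continuousAt.continuousWithinAt
  have hivt := intermediate_value_Icc hπ.le hsc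
  obtain ⟨pa, hpa, hpas⟩ := hivt (⟨hs0.le, by linarith⟩ : 40 * b ∈ Icc (W.ss t 0) (W.ss t π))
  obtain ⟨ph, hph, hphs⟩ := hivt
    (⟨by linarith, by linarith⟩ : (1 / 800 : ℝ) ∈ Icc (W.ss t 0) (W.ss t π))
  obtain ⟨p0, hp0, hp0s⟩ := hivt
    (⟨by linarith, by linarith⟩ : (1 / 400 : ℝ) ∈ Icc (W.ss t 0) (W.ss t π))
  have hah : pa ≤ ph := by
    by_contra hc
    push Not at hc
    have := hP.mono ph hph pa hpa hc.le
    linarith
  have hh0 : ph ≤ p0 := by
    by_contra hc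
    push Not at hc
    have := hP.mono p0 hp0 ph hph hc.le
    linarith
  -- ze is nonincreasing after pa
  have hzanti : AntitoneOn (W.ze t) (Icc pa π) := by
    refine anti_of_deriv (fun q _ => dze q) fun q hq => ?_
    have hq' : q ∈ Icc 0 π := ⟨hpa.1.trans hq.1, hq.2⟩
    have hs : 40 * b ≤ W.ss t q := by
      rw [← hpas]
      exact hP.mono pa hpa q hq' hq.1
    have hv := hvpos q hq' hs
    have h5 : 0 ≤ W.kap t q * W.r t q :=
      mul_nonneg (div_nonneg hv (hfpos q).le) (hr0 q hq')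
    have h6 : W.z1 t q = -(W.kap t q * W.r t q) := rfl
    rw [h6]
    have := mul_nonneg (hW.gpos t ht q).le h5
    linarith
  have hzpa : W.ze t pa ≤ 1 / 10 ^ 9 := by
    refine (le_abs_self _).trans ((hz pa).trans ?_)
    refine le_of_pow_le_pow_left₀ (n := 2) (by norm_num) (by norm_num) ?_
    rw [hrs pa, hpas]
    have e2 : (40 * b) ^ 3 = 64000 * b ^ 3 := by ring
    rw [e2]
    norm_num at hb3 ⊢
    linarith
  have hzph : W.ze t ph ≤ 1 / 10 ^ 9 :=
    (hzanti ⟨le_refl _, hpa.2⟩ ⟨hah, hph.2⟩ hah).trans hzpa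
  -- the drop on [ph, p0]
  have hdrop : AntitoneOn (fun q => W.ze t q + 21 / 10 ^ 7 * W.ss t q) (Icc ph p0) := by
    refine anti_of_deriv (fun q _ => (dze q).fun_add ((dss q).const_mul _)) fun q hq => ?_
    have hq' : q ∈ Icc 0 π := ⟨hph.1.trans hq.1, hq.2.trans hp0.2⟩
    have hs : 1 / 800 ≤ W.ss t q := by
      rw [← hphs]
      exact hP.mono ph hph q hq' hq.1
    have hs' : W.ss t q ≤ 1 / 400 := by
      rw [← hp0s]
      exact hP.mono q hq' p0 hp0 hq.2
    have hv := hP.vlow q hq' (by linarith)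
    obtain ⟨_, _, _, _, hrX, hX⟩ := hP.near q hq' hs'
    have hrho : 441 / 10 ^ 7 ≤ W.rho t q := by
      refine le_of_pow_le_pow_left₀ (n := 2) (by norm_num) (hrhopos q).le ?_
      rw [hrs q]
      have : (1 / 800 : ℝ) ^ 3 ≤ W.ss t q ^ 3 := pow_le_pow_left₀ (by norm_num) hs 3
      norm_num at this ⊢
      linarith
    have hX' : 432 / 10 ^ 7 ≤ W.X t q := by
      norm_num at hrho hd ⊢
      linarith
    have hdX : W.Y t 0 ≤ W.X t q := by
      norm_num at hX' hd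
      linarith
    have hr' : 42 / 10 ^ 6 ≤ W.r t q := by
      have := (hX hdX).1
      norm_num at hX' ⊢
      linarith
    have hv' : 42 / 10 ^ 7 ≤ W.v t q := by
      norm_num at hr' ⊢
      linarith
    have h6 : W.z1 t q = -(W.v t q / W.f t q * W.r t q) := rfl
    rw [h6]
    have h7 : W.g t q * -(W.v t q / W.f t q * W.r t q) +
        21 / 10 ^ 7 * (W.g t q * (2 * W.r t q / W.f t q)) =
        -(W.g t q * (W.r t q / W.f t q) * (W.v t q - 42 / 10 ^ 7)) := by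
      ring
    rw [h7]
    have h8 : 0 ≤ W.g t q * (W.r t q / W.f t q) * (W.v t q - 42 / 10 ^ 7) :=
      mul_nonneg (mul_nonneg (hW.gpos t ht q).le (div_nonneg (hr0 q hq') (hfpos q).le))
        (by linarith)
    linarith
  have hzp0 : W.ze t p0 ≤ -(1 / 10 ^ 9) := by
    have h5 := hdrop ⟨le_refl _, hh0⟩ ⟨hh0, le_refl _⟩ hh0
    simp only [hphs, hp0s] at h5
    norm_num at h5 hzph ⊢
    linarith
  have hzneg : ∀ q ∈ Icc p0 π, W.ze t q ≤ -(1 / 10 ^ 9) := by
    intro q hq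
    exact (hzanti ⟨hah.trans hh0, hp0.2⟩ ⟨(hah.trans hh0).trans hq.1, hq.2⟩ hq.1).trans hzp0
  have hzneg' : ∀ q ∈ Icc p0 π, W.ze t q < 0 := by
    intro q hq
    have := hzneg q hq
    norm_num at this
    linarith
  -- v/ze is nondecreasing
  have hmono : MonotoneOn (fun q => W.v t q / W.ze t q) (Icc p0 π) := by
    refine mono_of_deriv
      (fun q hq => (hW.vp t ht q).fun_div (dze q) (hzneg' q hq).ne) fun q hq => ?_
    have hq' : q ∈ Icc 0 π := ⟨hp0.1.trans hq.1, hq.2⟩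
    refine div_nonneg ?_ (sq_nonneg _)
    have h6 : W.z1 t q = -(W.kap t q * W.r t q) := rfl
    have h7 : W.g t q * W.v1 t q * W.ze t q - W.v t q * (W.g t q * W.z1 t q) =
        W.g t q * W.om2 t q := by
      rw [h6]
      unfold FlowData.om2
      ring
    rw [h7]
    exact mul_nonneg (hW.gpos t ht q).le (hP.om2 q hq')
  have hrho0 : W.rho t p0 ≤ 13 / 10 ^ 5 := by
    refine le_of_pow_le_pow_left₀ (n := 2) (by norm_num) (by norm_num) ?_
    rw [hrs p0, hp0s]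
    norm_num
  have hv0 : W.v t p0 ≤ 13 / 10 ^ 4 := by
    have a1 := hP.vup p0 hp0 hp0s.le
    have a2 := (abs_le.1 (hr p0)).2
    norm_num at hrho0 ⊢
    linarith
  intro p hp
  refine ⟨?_, fun h => hvpos p hp (by linarith)⟩
  rcases le_total p p0 with h | h
  · have hs : W.ss t p ≤ 1 / 400 := by
      rw [← hp0s]
      exact hP.mono p hp p0 hp0 h
    have a1 := hP.vup p hp hs
    have a2 := (abs_le.1 (hr p)).2
    have a3 : W.rho t p ≤ 1 := by
      refine le_of_pow_le_pow_left₀ (n := 2) (by norm_num) (by norm_num) ?_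
      rw [hrs p]
      have : W.ss t p ^ 3 ≤ (1 / 400 : ℝ) ^ 3 := pow_le_pow_left₀ (hspos p).le hs 3
      norm_num at this ⊢
      linarith
    norm_num
    linarith
  · have hpI : p ∈ Icc p0 π := ⟨h, hp.2⟩
    have h5 := hmono ⟨le_refl _, hp0.2⟩ hpI h
    simp only at h5
    have h6 : -(13 * 10 ^ 5) ≤ W.v t p0 / W.ze t p0 := by
      rw [le_div_iff_of_neg (hzneg' p0 ⟨le_refl _, hp0.2⟩)]
      norm_num at hv0 hzp0 ⊢
      linarith
    have h7 := h6.trans h5
    rw [le_div_iff_of_neg (hzneg' p hpI)] at h7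
    have h8 : W.rho t p ≤ 3 := by
      refine le_of_pow_le_pow_left₀ (n := 2) (by norm_num) (by norm_num) ?_
      rw [hrs p, hs3 p]
      have h9 := hD p hp
      unfold FlowData.u
      nlinarith [sq_nonneg (W.X t p), sq_nonneg (W.Y t p - 2), sq_nonneg (W.Y t p - 3)]
    have h9 := (abs_le.1 (hz p)).1
    norm_num at h7 ⊢
    linarith

end Pool.Agent.Lib.MP_c60e08_gt.Lm
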