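import Pool.Agent.Lib.MP_c60e08_gt.LmFlow2

/-!
Module Vnn: if the tip velocity vanishes then `v >= 0` on `[0,π]`.
-/

namespace Pool.Agent.Lib.MP_c60e08_gt.Lm

open Real Set Filter Topology

theorem vnnStmt (h : IdStmt) : VnnStmt := by
  intro T W hW t ht δ hδ hr hom hv0
  have hId := (h T W hW).1 t ht
  have hrd : ∀ q, HasDerivAt (W.r t) (W.g t q * W.r1 t q) q := fun q => by
    obtain ⟨-, -, -, -, -, -, -, -, -, -, -, -, -, h, -⟩ := hId q
    exact h
  have hvd : ∀ q, HasDerivAt (W.v t) (W.g t q * W.v1 t q) q := hW.vp t ht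
  have hgpos : ∀ q, 0 < W.g t q := hW.gpos t ht
  have hX : ∀ q ∈ Ioo 0 π, 0 < W.X t q := hW.Xpos t ht
  have hrpos : ∀ q ∈ Ioo 0 π, 0 < W.r t q := fun q hq =>
    lt_of_lt_of_le (mul_pos hδ (hX q hq)) (hr q ⟨hq.1.le, hq.2.le⟩)
  have hmono : MonotoneOn (fun q => W.v t q / W.r t q) (Ioo 0 π) := by
    have hder : ∀ q ∈ Ioo 0 π, HasDerivAt (fun q => W.v t q / W.r t q)
        ((W.g t q * W.v1 t q * W.r t q - W.v t q * (W.g t q * W.r1 t q)) / W.r t q ^ 2) q :=
      fun q hq => (hvd q).div (hrd q) (hrpos q hq).ne'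
    apply monotoneOn_of_deriv_nonneg (convex_Ioo 0 π)
    · exact fun q hq => (hder q hq).continuousAt.continuousWithinAt
    · exact fun q hq => ((hder q (interior_subset hq)).differentiableAt).differentiableWithinAt
    · intro q hq
      have hq' := interior_subset hq
      rw [(hder q hq').deriv]
      have e : W.g t q * W.v1 t q * W.r t q - W.v t q * (W.g t q * W.r1 t q)
          = W.g t q * W.om1 t q := by
        simp only [FlowData.om1, FlowData.r1]
        ring
      rw [e]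
      exact div_nonneg (mul_nonneg (hgpos q).le (hom q ⟨hq'.1.le, hq'.2.le⟩)) (sq_nonneg _)
  have key : ∀ p ∈ Ioo 0 π, 0 ≤ W.v t p := by
    intro p hp
    by_contra hneg
    push Not at hneg
    have hrp := hrpos p hp
    set c : ℝ := - (W.v t p / W.r t p) with hc
    have hc0 : 0 < c := by
      rw [hc]
      exact neg_pos.mpr (div_neg_of_neg_of_pos hneg hrp)
    have hle : ∀ q ∈ Ioc 0 p, W.v t q + c * δ * W.X t q ≤ 0 := by
      intro q hq
      have hq' : q ∈ Ioo 0 π := ⟨hq.1, lt_of_le_of_lt hq.2 hp.2⟩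
      have h1 := hmono hq' hp hq.2
      simp only at h1
      rw [div_le_iff₀ (hrpos q hq')] at h1
      have h2 := hr q ⟨hq'.1.le, hq'.2.le⟩
      have h3 : c * (δ * W.X t q) ≤ c * W.r t q := mul_le_mul_of_nonneg_left h2 hc0.le
      have h4 : W.v t p / W.r t p * W.r t q = - (c * W.r t q) := by rw [hc]; ring
      rw [h4] at h1
      nlinarith
    have hder : HasDerivAt (fun q => W.v t q + c * δ * W.X t q)
        (W.g t 0 * W.v1 t 0 + c * δ * (W.g t 0 * cos (W.th t 0))) 0 :=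
      (hvd 0).add ((hW.Xp t ht 0).const_mul (c * δ))
    have hD : 0 < W.g t 0 * W.v1 t 0 + c * δ * (W.g t 0 * cos (W.th t 0)) := by
      rw [hW.v10 t ht, hW.th0 t ht, Real.cos_zero]
      have := mul_pos (mul_pos hc0 hδ) (hgpos 0)
      nlinarith
    have hslope := (hasDerivWithinAt_iff_tendsto_slope' (s := Ioi (0 : ℝ))
      (by simp : (0 : ℝ) ∉ Ioi (0 : ℝ))).mp hder.hasDerivWithinAt
    have hev := hslope.eventually (lt_mem_nhds hD)
    have hev2 : ∀ᶠ q in 𝓝[>] (0 : ℝ), q ∈ Ioc 0 p := Ioc_mem_nhdsGT hp.1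
    obtain ⟨q, hq1, hq2⟩ := (hev.and hev2).exists
    have h1 := hle q hq2
    rw [slope_def_field, hv0, hW.X0 t ht] at hq1
    have h2 : 0 < q - 0 := by simpa using hq2.1
    have h3 := (div_pos_iff_of_pos_right h2).mp hq1
    simp at h3
    linarith
  intro p hp
  rcases eq_or_lt_of_le hp.1 with h0 | h0
  · rw [← h0, hv0]
  rcases eq_or_lt_of_le hp.2 with h1 | h1
  · have hc : Tendsto (W.v t) (𝓝[<] π) (𝓝 (W.v t π)) :=
      (hvd π).continuousAt.continuousWithinAt
    rw [h1]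
    apply ge_of_tendsto hc
    have : ∀ᶠ q in 𝓝[<] π, q ∈ Ioo 0 π := Ioo_mem_nhdsLT Real.pi_pos
    exact this.mono fun q hq => key q hq
  · exact key p ⟨h0, h1⟩

end Pool.Agent.Lib.MP_c60e08_gt.Lm
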