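import Pool.Agent.Lib.MP_c60e08_gt.LmFlow2

set_option autoImplicit false

namespace Pool.Agent.Lib.MP_c60e08_gt.Lm.WronS

open Real Set Filter Topology

theorem bound_of_COn {t1 : ℝ} {F : ℝ → ℝ → ℝ} (h : COn 0 t1 F) :
    ∃ B, 0 ≤ B ∧ ∀ t ∈ Icc 0 t1, ∀ p ∈ Icc 0 π, |F t p| ≤ B := by
  have hc : IsCompact (Icc 0 t1 ×ˢ Icc (0 : ℝ) π) := isCompact_Icc.prod isCompact_Icc
  obtain ⟨B, hB⟩ := hc.exists_bound_of_continuousOn h
  refine ⟨max B 0, le_max_right _ _, fun t ht p hp => ?_⟩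
  have h1 : ‖F t p‖ ≤ B := hB (t, p) ⟨ht, hp⟩
  exact h1.trans (le_max_left _ _)

theorem lower_of_COn {t1 : ℝ} (ht1 : 0 ≤ t1) {F : ℝ → ℝ → ℝ} (h : COn 0 t1 F)
    (hpos : ∀ t ∈ Icc 0 t1, ∀ p ∈ Icc 0 π, 0 < F t p) :
    ∃ a > 0, ∀ t ∈ Icc 0 t1, ∀ p ∈ Icc 0 π, a ≤ F t p := by
  have hc : IsCompact (Icc 0 t1 ×ˢ Icc (0 : ℝ) π) := isCompact_Icc.prod isCompact_Icc
  have hne : (Icc 0 t1 ×ˢ Icc (0 : ℝ) π).Nonempty :=
    ⟨(0, 0), ⟨le_refl _, ht1⟩, ⟨le_refl _, Real.pi_pos.le⟩⟩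
  obtain ⟨z, hz, hmin⟩ := hc.exists_isMinOn hne h
  exact ⟨F z.1 z.2, hpos _ hz.1 _ hz.2, fun t ht p hp => hmin (show (t, p) ∈ _ from ⟨ht, hp⟩)⟩

theorem sum_pos {t1 : ℝ} (ht1 : 0 ≤ t1) {y z : ℝ → ℝ → ℝ} (hy : COn 0 t1 y) (hz : COn 0 t1 z)
    (h : ∀ t ∈ Icc 0 t1, ∀ p ∈ Icc 0 π, y t p ≠ 0 ∨ z t p ≠ 0) :
    ∃ a > 0, ∀ t ∈ Icc 0 t1, ∀ p ∈ Icc 0 π, a ≤ |y t p| ∨ a ≤ |z t p| := by
  have hc : COn 0 t1 (fun t p => |y t p| + |z t p|) := hy.abs.add hz.abs
  obtain ⟨a, ha, hle⟩ := lower_of_COn ht1 hc (fun t ht p hp => by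
    have h1 := abs_nonneg (y t p)
    have h2 := abs_nonneg (z t p)
    rcases h t ht p hp with h3 | h3
    · have := abs_pos.mpr h3
      show 0 < |y t p| + |z t p|
      linarith
    · have := abs_pos.mpr h3
      show 0 < |y t p| + |z t p|
      linarith)
  refine ⟨a / 2, by linarith, fun t ht p hp => ?_⟩
  have h1 : a ≤ |y t p| + |z t p| := hle t ht p hp
  by_contra hcon
  push Not at hcon
  linarith [hcon.1, hcon.2]

/-- the sine dominates the distance to the ends -/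
theorem min_le_sin (p : ℝ) (hp : p ∈ Icc 0 π) : p ≤ π / 2 * sin p ∨ π - p ≤ π / 2 * sin p := by
  have hπ := Real.pi_pos
  rcases le_total p (π / 2) with h | h
  · left
    have h1 := Real.mul_le_sin hp.1 h
    have h2 : π / 2 * (2 / π * p) ≤ π / 2 * sin p :=
      mul_le_mul_of_nonneg_left h1 (by positivity)
    have h3 : π / 2 * (2 / π * p) = p := by
      field_simp
    linarith
  · right
    have h1 := Real.mul_le_sin (x := π - p) (by linarith [hp.2]) (by linarith)
    rw [Real.sin_pi_sub] at h1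
    have h2 : π / 2 * (2 / π * (π - p)) ≤ π / 2 * sin p :=
      mul_le_mul_of_nonneg_left h1 (by positivity)
    have h3 : π / 2 * (2 / π * (π - p)) = π - p := by
      field_simp
    linarith

/-- a function with bounded derivative which vanishes at both ends -/
theorem ends_bound {F F' : ℝ → ℝ} {M : ℝ} (hM : 0 ≤ M) (hd : ∀ q, HasDerivAt F (F' q) q)
    (hb : ∀ q ∈ Icc 0 π, |F' q| ≤ M) (h0 : F 0 = 0) (h1 : F π = 0) (p : ℝ) (hp : p ∈ Icc 0 π) :
    |F p| ≤ M * (π / 2 * sin p) := by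
  have hπ := Real.pi_pos
  have hconv : Convex ℝ (Icc (0 : ℝ) π) := convex_Icc 0 π
  have hlip : ∀ x ∈ Icc 0 π, ∀ y ∈ Icc 0 π, |F y - F x| ≤ M * |y - x| := by
    intro x hx y hy
    have := hconv.norm_image_sub_le_of_norm_hasDerivWithin_le (f := F) (f' := F')
      (fun q _ => (hd q).hasDerivWithinAt) (fun q hq => hb q hq) hx hy
    simpa [Real.norm_eq_abs] using this
  rcases min_le_sin p hp with h | h
  · have h2 := hlip 0 ⟨le_refl _, hπ.le⟩ p hp
    rw [h0, sub_zero, sub_zero, abs_of_nonneg hp.1] at h2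
    exact h2.trans (mul_le_mul_of_nonneg_left h hM)
  · have h2 := hlip π ⟨hπ.le, le_refl _⟩ p hp
    rw [h1, sub_zero, abs_sub_comm, abs_of_nonneg (by linarith [hp.2] : (0 : ℝ) ≤ π - p)] at h2
    exact h2.trans (mul_le_mul_of_nonneg_left h hM)

end WronS

open Real Set Filter Topology in
open WronS in
theorem wronSStmt (h1 : MpStmt) (h2 : MinsStmt) : WronSStmt := by
  intro t1 c Cf g lam f fs C C1 K y0 y1 y2 y3 z0 z1 z2 z3 X0 X1 X2 H cX0 dX0 dX1 tX0 hX1 hsin
    hends hfs hinit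
  have hπ := Real.pi_pos
  have cg : COn 0 t1 g := H.cc g (by simp)
  have cf : COn 0 t1 f := H.cc f (by simp)
  have cC : COn 0 t1 C := H.cc C (by simp)
  have cK : COn 0 t1 K := H.cc K (by simp)
  have cy0 : COn 0 t1 y0 := H.cc y0 (by simp)
  have cy1 : COn 0 t1 y1 := H.cc y1 (by simp)
  have cy2 : COn 0 t1 y2 := H.cc y2 (by simp)
  have cz0 : COn 0 t1 z0 := H.cc z0 (by simp)
  have cz1 : COn 0 t1 z1 := H.cc z1 (by simp)
  have cz2 : COn 0 t1 z2 := H.cc z2 (by simp)
  obtain ⟨Bf, hBf0, hBf⟩ := bound_of_COn cf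
  obtain ⟨BC, hBC0, hBC⟩ := bound_of_COn cC
  obtain ⟨BK, hBK0, hBK⟩ := bound_of_COn cK
  obtain ⟨By, hBy0, hBy⟩ := bound_of_COn cy2
  obtain ⟨Bz, hBz0, hBz⟩ := bound_of_COn cz2
  obtain ⟨Bg, hBg0, hBg⟩ := bound_of_COn cg
  obtain ⟨a, ha, hmax⟩ := sum_pos H.ht cy0 cz0 H.nocommon
  obtain ⟨as, has, hXs⟩ := hsin
  obtain ⟨d, hd, hd0⟩ := hinit
  have hsin0 : ∀ p ∈ Icc 0 π, 0 ≤ sin p := fun p hp => Real.sin_nonneg_of_mem_Icc hp
  have hXnn : ∀ t ∈ Icc 0 t1, ∀ p ∈ Icc 0 π, 0 ≤ X0 t p := fun t ht p hp =>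
    (mul_nonneg has.le (hsin0 p hp)).trans (hXs t ht p hp)
  -- bounds for `y1` and `z1`
  set B1 : ℝ := Bg * (By + Bz) * (π / 2) / as with hB1
  have hB10 : 0 ≤ B1 := by positivity
  have hbd : ∀ (F0 F1 F2 : ℝ → ℝ → ℝ) (_ : ∀ t ∈ Icc 0 t1, ∀ p, HasDerivAt (F1 t) (g t p * F2 t p) p)
      (_ : ∀ t ∈ Icc 0 t1, ∀ p ∈ Icc 0 π, |F2 t p| ≤ By + Bz)
      (_ : ∀ t ∈ Icc 0 t1, F1 t 0 = 0 ∧ F1 t π = 0),
      ∀ t ∈ Icc 0 t1, ∀ p ∈ Icc 0 π, |F1 t p| ≤ B1 * X0 t p := by
    intro _ F1 F2 hF hF2 hF0 t ht p hp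
    have e1 : ∀ q ∈ Icc 0 π, |g t q * F2 t q| ≤ Bg * (By + Bz) := by
      intro q hq
      rw [abs_mul]
      exact mul_le_mul (hBg t ht q hq) (hF2 t ht q hq) (abs_nonneg _) hBg0
    have e2 := ends_bound (F := F1 t) (F' := fun q => g t q * F2 t q) (by positivity) (hF t ht)
      e1 (hF0 t ht).1 (hF0 t ht).2 p hp
    refine e2.trans ?_
    have e3 : Bg * (By + Bz) * (π / 2 * sin p) = B1 * (as * sin p) := by
      rw [hB1]
      field_simp
    rw [e3]
    exact mul_le_mul_of_nonneg_left (hXs t ht p hp) hB10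
  have hy1 : ∀ t ∈ Icc 0 t1, ∀ p ∈ Icc 0 π, |y1 t p| ≤ B1 * X0 t p :=
    hbd y0 y1 y2 H.dy1 (fun t ht p hp => by have := hBy t ht p hp; linarith)
      (fun t ht => ⟨(hends t ht).2.2.1, (hends t ht).2.2.2.1⟩)
  have hz1 : ∀ t ∈ Icc 0 t1, ∀ p ∈ Icc 0 π, |z1 t p| ≤ B1 * X0 t p :=
    hbd z0 z1 z2 H.dz1 (fun t ht p hp => by have := hBz t ht p hp; linarith)
      (fun t ht => ⟨(hends t ht).2.2.2.2.1, (hends t ht).2.2.2.2.2⟩)
  -- constants
  set Q1 : ℝ := |Cf| + 2 * Bf * (B1 / a) with hQ1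
  set Q2 : ℝ := 2 * BC + BK + 2 * Bf * ((By + Bz) / a) with hQ2
  have hQ10 : 0 ≤ Q1 := by positivity
  have hQ20 : 0 ≤ Q2 := by positivity
  set A : ℝ := Q1 + Q2 with hA
  have hA0 : 0 ≤ A := by positivity
  set om : ℝ → ℝ → ℝ := fun t p => y1 t p * z0 t p - y0 t p * z1 t p with hom
  set yy : ℝ → ℝ → ℝ := fun t p => om t p - d * exp (-(A * t)) * X0 t p with hyy
  have com : COn 0 t1 om := (cy1.mul cz0).sub (cy0.mul cz1)
  have cE : COn 0 t1 (fun t _ => d * exp (-(A * t))) := by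
    apply Continuous.continuousOn
    fun_prop
  have cyy : COn 0 t1 yy := com.sub (cE.mul cX0)
  have hmain : ∀ t ∈ Icc 0 t1, ∀ p ∈ Icc 0 π, 0 ≤ yy t p := by
    refine h1 0 t1 Q2 yy cyy ?_ ?_
    · intro p hp
      have e := hd0 p hp
      show 0 ≤ (y1 0 p * z0 0 p - y0 0 p * z1 0 p) - d * exp (-(A * 0)) * X0 0 p
      rw [mul_zero, neg_zero, exp_zero, mul_one]
      linarith
    intro t ht p hp hneg hmin
    have ht' : t ∈ Icc 0 t1 := ⟨ht.1.le, ht.2⟩
    obtain ⟨eX0, eXπ, ey0, eyπ, ez0, ezπ⟩ := hends t ht'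
    have hp0 : 0 < p := by
      rcases lt_or_eq_of_le hp.1 with h | h
      · exact h
      · exfalso
        have e : yy t 0 = 0 := by
          show (y1 t 0 * z0 t 0 - y0 t 0 * z1 t 0) - d * exp (-(A * t)) * X0 t 0 = 0
          rw [eX0, ey0, ez0]
          ring
        rw [← h, e] at hneg
        exact lt_irrefl _ hneg
    have hpπ : p < π := by
      rcases lt_or_eq_of_le hp.2 with h | h
      · exact h
      · exfalso
        have e : yy t π = 0 := by
          show (y1 t π * z0 t π - y0 t π * z1 t π) - d * exp (-(A * t)) * X0 t π = 0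
          rw [eXπ, eyπ, ezπ]
          ring
        rw [h, e] at hneg
        exact lt_irrefl _ hneg
    have hloc : IsLocalMin (yy t) p := by
      filter_upwards [Ioo_mem_nhds hp0 hpπ] with q hq
      exact hmin q ⟨hq.1.le, hq.2.le⟩
    set E : ℝ := d * exp (-(A * t)) with hE
    have hE0 : 0 < E := by positivity
    have hd1 : ∀ q, HasDerivAt (yy t)
        (g t q * ((y2 t q * z0 t q - y0 t q * z2 t q) - E * X1 t q)) q := by
      intro q
      have e := (((H.dy1 t ht' q).mul (H.dz0 t ht' q)).sub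
        ((H.dy0 t ht' q).mul (H.dz1 t ht' q))).sub ((dX0 t ht' q).const_mul E)
      exact HasDerivAt.congr_deriv e (by ring)
    have hd2 : HasDerivAt (fun q => (y2 t q * z0 t q - y0 t q * z2 t q) - E * X1 t q)
        (g t p * ((y3 t p * z0 t p + y2 t p * z1 t p - y1 t p * z2 t p - y0 t p * z3 t p)
          - E * X2 t p)) p := by
      have e := (((H.dy2 t ht' p).mul (H.dz0 t ht' p)).sub
        ((H.dy0 t ht' p).mul (H.dz2 t ht' p))).sub ((dX1 t ht' p).const_mul E)
      exact HasDerivAt.congr_deriv e (by ring)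
    obtain ⟨hk, hk2⟩ := h2.1 (yy t) (g t)
      (fun q => (y2 t q * z0 t q - y0 t q * z2 t q) - E * X1 t q) p _
      (H.gpos t ht') hd1 hd2 hloc
    have hk' : y2 t p * z0 t p - y0 t p * z2 t p = E * X1 t p := by
      have : (y2 t p * z0 t p - y0 t p * z2 t p) - E * X1 t p = 0 := hk
      linarith
    -- time derivative
    have hEt : HasDerivAt (fun s => d * exp (-(A * s))) (-(A * E)) t := by
      have e1 : HasDerivAt (fun s : ℝ => -(A * s)) (-(A * 1)) t :=
        ((hasDerivAt_id t).const_mul A).neg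
      have e2 := (e1.exp).const_mul d
      exact HasDerivAt.congr_deriv e2 (by rw [hE]; ring)
    have hD := (((H.ty1 t ht p).mul (H.tz0 t ht p)).sub
      ((H.ty0 t ht p).mul (H.tz1 t ht p))).sub (hEt.mul (tX0 t ht p))
    refine ⟨_, hD, ?_⟩
    have hnegv : (y1 t p * z0 t p - y0 t p * z1 t p) - E * X0 t p < 0 := hneg
    have hf0 := H.fpos t ht' p
    have hfB : f t p ≤ Bf := (le_abs_self _).trans (hBf t ht' p hp)
    have hCB : |C t p| ≤ BC := hBC t ht' p hp
    have hKB : |K t p| ≤ BK := hBK t ht' p hp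
    have hyB := hBy t ht' p hp
    have hzB := hBz t ht' p hp
    have hX0nn := hXnn t ht' p hp
    have key : ∃ m n : ℝ, |m| ≤ (By + Bz) / a ∧ |n| ≤ B1 / a * X0 t p ∧
        y1 t p * z2 t p - y2 t p * z1 t p
          = m * (y1 t p * z0 t p - y0 t p * z1 t p) - n * (E * X1 t p) := by
      rcases hmax t ht' p hp with h3 | h3
      · have hy0 : y0 t p ≠ 0 := by
          intro h
          rw [h, abs_zero] at h3
          linarith
        refine ⟨y2 t p / y0 t p, y1 t p / y0 t p, ?_, ?_, ?_⟩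
        · rw [abs_div]
          exact div_le_div₀ (by linarith) (by linarith) ha h3
        · rw [abs_div, div_mul_eq_mul_div]
          exact div_le_div₀ (by positivity) (hy1 t ht' p hp) ha h3
        · rw [← hk']
          field_simp
          ring
      · have hz0 : z0 t p ≠ 0 := by
          intro h
          rw [h, abs_zero] at h3
          linarith
        refine ⟨z2 t p / z0 t p, z1 t p / z0 t p, ?_, ?_, ?_⟩
        · rw [abs_div]
          exact div_le_div₀ (by linarith) (by linarith) ha h3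
        · rw [abs_div, div_mul_eq_mul_div]
          exact div_le_div₀ (by positivity) (hz1 t ht' p hp) ha h3
        · rw [← hk']
          field_simp
          ring
    obtain ⟨m, n, hm1, hn1, hmn⟩ := key
    have hEq : (f t p * y3 t p + fs t p * y2 t p + C t p * y1 t p + C1 t p * y0 t p
        + K t p * y1 t p + lam t p * y2 t p) * z0 t p
        + y1 t p * (f t p * z2 t p + C t p * z0 t p + c * y0 t p + lam t p * z1 t p)
        - ((f t p * y2 t p + C t p * y0 t p + lam t p * y1 t p) * z1 t p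
          + y0 t p * (f t p * z3 t p + fs t p * z2 t p + C t p * z1 t p + C1 t p * z0 t p
            + K t p * z1 t p + c * y1 t p + lam t p * z2 t p))
        - (-(A * E) * X0 t p + d * exp (-(A * t)) * (f t p * X2 t p + lam t p * X1 t p))
        = f t p * ((y3 t p * z0 t p + y2 t p * z1 t p - y1 t p * z2 t p - y0 t p * z3 t p)
            - E * X2 t p)
          + 2 * f t p * (y1 t p * z2 t p - y2 t p * z1 t p)
          + (fs t p + lam t p) * (y2 t p * z0 t p - y0 t p * z2 t p) - lam t p * (E * X1 t p)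
          + (2 * C t p + K t p) * (y1 t p * z0 t p - y0 t p * z1 t p) + A * (E * X0 t p) := by
      rw [← hE]
      ring
    rw [hEq, hmn, hk']
    -- the coefficient of `om`
    set w : ℝ := y1 t p * z0 t p - y0 t p * z1 t p with hw
    set P : ℝ := E * X0 t p with hP
    have hP0 : 0 ≤ P := by positivity
    have hcoef : |2 * C t p + K t p + 2 * f t p * m| ≤ Q2 := by
      have e1 : |2 * C t p| ≤ 2 * BC := by
        rw [abs_mul, abs_of_pos (by norm_num : (0 : ℝ) < 2)]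
        linarith
      have e2 : |2 * f t p * m| ≤ 2 * Bf * ((By + Bz) / a) := by
        rw [abs_mul, abs_of_pos (by positivity : (0 : ℝ) < 2 * f t p)]
        exact mul_le_mul (by linarith) hm1 (abs_nonneg _) (by positivity)
      calc |2 * C t p + K t p + 2 * f t p * m|
          ≤ |2 * C t p + K t p| + |2 * f t p * m| := abs_add_le _ _
        _ ≤ |2 * C t p| + |K t p| + |2 * f t p * m| := by
            have := abs_add_le (2 * C t p) (K t p)
            linarith
        _ ≤ Q2 := by rw [hQ2]; linarith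
    have hcross : |(fs t p - 2 * f t p * n) * (E * X1 t p)| ≤ Q1 * P := by
      have e1 : |fs t p| ≤ |Cf| * X0 t p := by
        refine (hfs t ht' p hp).trans ?_
        exact mul_le_mul_of_nonneg_right (le_abs_self _) hX0nn
      have e2 : |2 * f t p * n| ≤ 2 * Bf * (B1 / a) * X0 t p := by
        rw [abs_mul, abs_of_pos (by positivity : (0 : ℝ) < 2 * f t p)]
        calc 2 * f t p * |n| ≤ 2 * Bf * (B1 / a * X0 t p) :=
              mul_le_mul (by linarith) hn1 (abs_nonneg _) (by positivity)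
          _ = 2 * Bf * (B1 / a) * X0 t p := by ring
      have e3 : |fs t p - 2 * f t p * n| ≤ Q1 * X0 t p := by
        calc |fs t p - 2 * f t p * n| ≤ |fs t p| + |2 * f t p * n| := abs_sub _ _
          _ ≤ |Cf| * X0 t p + 2 * Bf * (B1 / a) * X0 t p := add_le_add e1 e2
          _ = Q1 * X0 t p := by rw [hQ1]; ring
      have e4 : |E * X1 t p| ≤ E := by
        rw [abs_mul, abs_of_pos hE0]
        have := hX1 t ht' p
        nlinarith
      calc |(fs t p - 2 * f t p * n) * (E * X1 t p)|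
          = |fs t p - 2 * f t p * n| * |E * X1 t p| := abs_mul _ _
        _ ≤ (Q1 * X0 t p) * E := mul_le_mul e3 e4 (abs_nonneg _) (by positivity)
        _ = Q1 * P := by rw [hP]; ring
    have i1 : 0 ≤ f t p * ((y3 t p * z0 t p + y2 t p * z1 t p - y1 t p * z2 t p
        - y0 t p * z3 t p) - E * X2 t p) := mul_nonneg hf0.le hk2
    have i2 : -(Q1 * P) ≤ (fs t p - 2 * f t p * n) * (E * X1 t p) := (abs_le.mp hcross).1
    have i3 : Q2 * (w - P) ≤ (2 * C t p + K t p + 2 * f t p * m) * (w - P) :=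
      mul_le_mul_of_nonpos_right ((le_abs_self _).trans hcoef) hnegv.le
    have i4 : -(Q2 * P) ≤ (2 * C t p + K t p + 2 * f t p * m) * P := by
      have := mul_le_mul_of_nonneg_right (abs_le.mp hcoef).1 hP0
      linarith
    have i5 : A * P = Q1 * P + Q2 * P := by rw [hA]; ring
    show Q2 * (w - P) ≤ _
    have i6 : f t p * ((y3 t p * z0 t p + y2 t p * z1 t p - y1 t p * z2 t p
        - y0 t p * z3 t p) - E * X2 t p)
          + 2 * f t p * (m * w - n * (E * X1 t p))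
          + (fs t p + lam t p) * (E * X1 t p) - lam t p * (E * X1 t p)
          + (2 * C t p + K t p) * w + A * P
        = f t p * ((y3 t p * z0 t p + y2 t p * z1 t p - y1 t p * z2 t p
        - y0 t p * z3 t p) - E * X2 t p) + (fs t p - 2 * f t p * n) * (E * X1 t p)
          + (2 * C t p + K t p + 2 * f t p * m) * (w - P)
          + (2 * C t p + K t p + 2 * f t p * m) * P + A * P := by
      ring
    rw [i6]
    linarith
  refine ⟨d * exp (-(A * t1)), by positivity, fun t ht p hp => ?_⟩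
  have e1 : 0 ≤ (y1 t p * z0 t p - y0 t p * z1 t p) - d * exp (-(A * t)) * X0 t p :=
    hmain t ht p hp
  have e2 : d * exp (-(A * t1)) * X0 t p ≤ d * exp (-(A * t)) * X0 t p := by
    apply mul_le_mul_of_nonneg_right _ (hXnn t ht p hp)
    apply mul_le_mul_of_nonneg_left _ hd.le
    apply exp_le_exp.mpr
    have := mul_le_mul_of_nonneg_left ht.2 hA0
    linarith
  linarith

end Pool.Agent.Lib.MP_c60e08_gt.Lm
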