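import Pool.Agent.Lib.MP_c60e08_gt.LmFlow2

set_option autoImplicit false

namespace Pool.Agent.Lib.MP_c60e08_gt.Lm.WronW

open Real Set Filter Topology

theorem bound_of_COn {t1 : ℝ} {F : ℝ → ℝ → ℝ} (h : COn 0 t1 F) :
    ∃ B, 0 ≤ B ∧ ∀ t ∈ Icc 0 t1, ∀ p ∈ Icc 0 π, |F t p| ≤ B := by
  have hc : IsCompact (Icc 0 t1 ×ˢ Icc (0 : ℝ) π) := isCompact_Icc.prod isCompact_Icc
  obtain ⟨B, hB⟩ := hc.exists_bound_of_continuousOn h
  refine ⟨max B 0, le_max_right _ _, fun t ht p hp => ?_⟩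
  have h1 : ‖F t p‖ ≤ B := hB (t, p) ⟨ht, hp⟩
  exact h1.trans (le_max_left _ _)

theorem lower_of_COn {t1 : ℝ} (ht1 : 0 ≤ t1) {F : ℝ → ℝ → ℝ} (h : COn 0 t1 F)
    (hpos : ∀ t ∈ Icc 0 t1, ∀ p ∈ Icc 0 π, 0 < F t p) :
    ∃ a > 0, ∀ t ∈ Icc 0 t1, ∀ p ∈ Icc 0 π, a ≤ F t p := by
  have hc : IsCompact (Icc 0 t1 ×ˢ Icc (0 : ℝ) π) := isCompact_Icc.prod isCompact_Icc
  have hne : (Icc 0 t1 ×ˢ Icc (0 : ℝ) π).Nonempty :=
    ⟨(0, 0), ⟨le_refl _, ht1⟩, ⟨le_refl _, Real.pi_pos.le⟩⟩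
  obtain ⟨z, hz, hmin⟩ := hc.exists_isMinOn hne h
  exact ⟨F z.1 z.2, hpos _ hz.1 _ hz.2, fun t ht p hp => hmin (show (t, p) ∈ _ from ⟨ht, hp⟩)⟩

theorem sum_pos {t1 : ℝ} (ht1 : 0 ≤ t1) {y z : ℝ → ℝ → ℝ} (hy : COn 0 t1 y) (hz : COn 0 t1 z)
    (h : ∀ t ∈ Icc 0 t1, ∀ p ∈ Icc 0 π, y t p ≠ 0 ∨ z t p ≠ 0) :
    ∃ a > 0, ∀ t ∈ Icc 0 t1, ∀ p ∈ Icc 0 π, a ≤ |y t p| ∨ a ≤ |z t p| := by
  have hc : COn 0 t1 (fun t p => |y t p| + |z t p|) := hy.abs.add hz.abs
  obtain ⟨a, ha, hle⟩ := lower_of_COn ht1 hc (fun t ht p hp => by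
    have h1 := abs_nonneg (y t p)
    have h2 := abs_nonneg (z t p)
    rcases h t ht p hp with h3 | h3
    · have := abs_pos.mpr h3
      show 0 < |y t p| + |z t p|
      linarith
    · have := abs_pos.mpr h3
      show 0 < |y t p| + |z t p|
      linarith)
  refine ⟨a / 2, by linarith, fun t ht p hp => ?_⟩
  have h1 : a ≤ |y t p| + |z t p| := hle t ht p hp
  by_contra hcon
  push Not at hcon
  linarith [hcon.1, hcon.2]

end WronW

open Real Set Filter Topology in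
open WronW in
theorem wronWStmt (h1 : MpStmt) (h2 : MinsStmt) : WronWStmt := by
  intro t1 c g lam f fs C C1 K y0 y1 y2 y3 z0 z1 z2 z3 H hinit
  have cf : COn 0 t1 f := H.cc f (by simp)
  have cC : COn 0 t1 C := H.cc C (by simp)
  have cK : COn 0 t1 K := H.cc K (by simp)
  have cy0 : COn 0 t1 y0 := H.cc y0 (by simp)
  have cy1 : COn 0 t1 y1 := H.cc y1 (by simp)
  have cy2 : COn 0 t1 y2 := H.cc y2 (by simp)
  have cz0 : COn 0 t1 z0 := H.cc z0 (by simp)
  have cz1 : COn 0 t1 z1 := H.cc z1 (by simp)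
  have cz2 : COn 0 t1 z2 := H.cc z2 (by simp)
  obtain ⟨Bf, hBf0, hBf⟩ := bound_of_COn cf
  obtain ⟨BC, hBC0, hBC⟩ := bound_of_COn cC
  obtain ⟨BK, hBK0, hBK⟩ := bound_of_COn cK
  obtain ⟨By, hBy0, hBy⟩ := bound_of_COn cy2
  obtain ⟨Bz, hBz0, hBz⟩ := bound_of_COn cz2
  obtain ⟨a, ha, hmax⟩ := sum_pos H.ht cy0 cz0 H.nocommon
  set om : ℝ → ℝ → ℝ := fun t p => y1 t p * z0 t p - y0 t p * z1 t p with hom
  have com : COn 0 t1 om := (cy1.mul cz0).sub (cy0.mul cz1)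
  refine h1 0 t1 (2 * BC + BK + 2 * Bf * ((By + Bz) / a)) om com hinit ?_
  intro t ht p hp hneg hmin
  have ht' : t ∈ Icc 0 t1 := ⟨ht.1.le, ht.2⟩
  -- the minimum is interior
  have hp0 : 0 < p := by
    rcases lt_or_eq_of_le hp.1 with h | h
    · exact h
    · exfalso
      have := (H.ends t ht').1
      rw [← h] at hneg
      exact absurd hneg (not_lt.mpr this)
  have hpπ : p < π := by
    rcases lt_or_eq_of_le hp.2 with h | h
    · exact h
    · exfalso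
      have := (H.ends t ht').2
      rw [h] at hneg
      exact absurd hneg (not_lt.mpr this)
  have hloc : IsLocalMin (om t) p := by
    filter_upwards [Ioo_mem_nhds hp0 hpπ] with q hq
    exact hmin q ⟨hq.1.le, hq.2.le⟩
  have hd1 : ∀ q, HasDerivAt (om t) (g t q * (y2 t q * z0 t q - y0 t q * z2 t q)) q := by
    intro q
    have e := ((H.dy1 t ht' q).mul (H.dz0 t ht' q)).sub ((H.dy0 t ht' q).mul (H.dz1 t ht' q))
    exact HasDerivAt.congr_deriv e (by ring)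
  have hd2 : HasDerivAt (fun q => y2 t q * z0 t q - y0 t q * z2 t q)
      (g t p * (y3 t p * z0 t p + y2 t p * z1 t p - y1 t p * z2 t p - y0 t p * z3 t p)) p := by
    have e := ((H.dy2 t ht' p).mul (H.dz0 t ht' p)).sub ((H.dy0 t ht' p).mul (H.dz2 t ht' p))
    exact HasDerivAt.congr_deriv e (by ring)
  obtain ⟨hk, hk2⟩ := h2.1 (om t) (g t) (fun q => y2 t q * z0 t q - y0 t q * z2 t q) p _
    (H.gpos t ht') hd1 hd2 hloc
  have hD := ((H.ty1 t ht p).mul (H.tz0 t ht p)).sub ((H.ty0 t ht p).mul (H.tz1 t ht p))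
  refine ⟨_, hD, ?_⟩
  have hneg' : y1 t p * z0 t p - y0 t p * z1 t p < 0 := hneg
  have hf0 := H.fpos t ht' p
  have hfB : f t p ≤ Bf := (le_abs_self _).trans (hBf t ht' p hp)
  have hCB : C t p ≤ BC := (le_abs_self _).trans (hBC t ht' p hp)
  have hKB : K t p ≤ BK := (le_abs_self _).trans (hBK t ht' p hp)
  have hyB := hBy t ht' p hp
  have hzB := hBz t ht' p hp
  have key : ∃ m : ℝ, m ≤ (By + Bz) / a ∧
      y1 t p * z2 t p - y2 t p * z1 t p = m * (y1 t p * z0 t p - y0 t p * z1 t p) := by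
    rcases hmax t ht' p hp with h3 | h3
    · have hy0 : y0 t p ≠ 0 := by
        intro h
        rw [h, abs_zero] at h3
        linarith
      refine ⟨y2 t p / y0 t p, ?_, ?_⟩
      · calc y2 t p / y0 t p ≤ |y2 t p / y0 t p| := le_abs_self _
          _ = |y2 t p| / |y0 t p| := abs_div _ _
          _ ≤ (By + Bz) / a := div_le_div₀ (by linarith) (by linarith) ha h3
      · field_simp
        linear_combination (-(y1 t p)) * hk
    · have hz0 : z0 t p ≠ 0 := by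
        intro h
        rw [h, abs_zero] at h3
        linarith
      refine ⟨z2 t p / z0 t p, ?_, ?_⟩
      · calc z2 t p / z0 t p ≤ |z2 t p / z0 t p| := le_abs_self _
          _ = |z2 t p| / |z0 t p| := abs_div _ _
          _ ≤ (By + Bz) / a := div_le_div₀ (by linarith) (by linarith) ha h3
      · field_simp
        linear_combination (-(z1 t p)) * hk
  obtain ⟨m, hm1, hm2⟩ := key
  have hE : (f t p * y3 t p + fs t p * y2 t p + C t p * y1 t p + C1 t p * y0 t p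
      + K t p * y1 t p + lam t p * y2 t p) * z0 t p
      + y1 t p * (f t p * z2 t p + C t p * z0 t p + c * y0 t p + lam t p * z1 t p)
      - ((f t p * y2 t p + C t p * y0 t p + lam t p * y1 t p) * z1 t p
        + y0 t p * (f t p * z3 t p + fs t p * z2 t p + C t p * z1 t p + C1 t p * z0 t p
          + K t p * z1 t p + c * y1 t p + lam t p * z2 t p))
      = f t p * (y3 t p * z0 t p + y2 t p * z1 t p - y1 t p * z2 t p - y0 t p * z3 t p)
        + 2 * f t p * (y1 t p * z2 t p - y2 t p * z1 t p)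
        + (fs t p + lam t p) * (y2 t p * z0 t p - y0 t p * z2 t p)
        + (2 * C t p + K t p) * (y1 t p * z0 t p - y0 t p * z1 t p) := by
    ring
  rw [hE, hk, hm2]
  have hcoef : 2 * C t p + K t p + 2 * f t p * m
      ≤ 2 * BC + BK + 2 * Bf * ((By + Bz) / a) := by
    have hq0 : 0 ≤ (By + Bz) / a := by positivity
    have h5 : 2 * f t p * m ≤ 2 * Bf * ((By + Bz) / a) := by
      calc 2 * f t p * m ≤ 2 * f t p * ((By + Bz) / a) :=
            mul_le_mul_of_nonneg_left hm1 (by linarith)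
        _ ≤ 2 * Bf * ((By + Bz) / a) := mul_le_mul_of_nonneg_right (by linarith) hq0
    linarith
  have h6 : (2 * BC + BK + 2 * Bf * ((By + Bz) / a)) * (y1 t p * z0 t p - y0 t p * z1 t p)
      ≤ (2 * C t p + K t p + 2 * f t p * m) * (y1 t p * z0 t p - y0 t p * z1 t p) :=
    mul_le_mul_of_nonpos_right hcoef hneg'.le
  have h7 : 0 ≤ f t p * (y3 t p * z0 t p + y2 t p * z1 t p - y1 t p * z2 t p
      - y0 t p * z3 t p) := mul_nonneg hf0.le hk2
  show (2 * BC + BK + 2 * Bf * ((By + Bz) / a)) * (y1 t p * z0 t p - y0 t p * z1 t p) ≤ _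
  linarith

end Pool.Agent.Lib.MP_c60e08_gt.Lm
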