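import Pool.Agent.Lib.MP_c60e08_gt.LmFlow2

/-!
Comparison of `X`, `r`, `fs` with `sin p` near the two ends.
-/

namespace Pool.Agent.Lib.MP_c60e08_gt.Lm.Xlow

open Real Set Filter Topology

/-- Lower bound near one end. -/
theorem low_end (t1 : ℝ) (ht1 : 0 ≤ t1) (F DF : ℝ → ℝ → ℝ)
    (hD : ContinuousOn (fun z : ℝ × ℝ => DF z.1 z.2) (Icc 0 t1 ×ˢ Icc 0 π))
    (hF : ∀ t ∈ Icc 0 t1, ∀ p, HasDerivAt (F t) (DF t p) p)
    (h0 : ∀ t ∈ Icc 0 t1, F t 0 = 0) (h1 : ∀ t ∈ Icc 0 t1, 0 < DF t 0) :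
    ∃ η > 0, ∃ a > 0, ∀ t ∈ Icc 0 t1, ∀ p, 0 ≤ p → p ≤ η → a * p ≤ F t p := by
  have hpi : (0 : ℝ) < π := Real.pi_pos
  have hcomp : IsCompact (Icc (0 : ℝ) t1 ×ˢ Icc (0 : ℝ) π) := isCompact_Icc.prod isCompact_Icc
  have hc0 : ContinuousOn (fun t => DF t 0) (Icc 0 t1) := by
    have h : ContinuousOn (fun t : ℝ => ((t, 0) : ℝ × ℝ)) (Icc 0 t1) := by fun_prop
    exact hD.comp h (fun t ht => ⟨ht, ⟨le_rfl, hpi.le⟩⟩)
  obtain ⟨τ, hτ, hmin⟩ := isCompact_Icc.exists_isMinOn ⟨0, ⟨le_rfl, ht1⟩⟩ hc0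
  have hm : 0 < DF τ 0 := h1 τ hτ
  have huc := hcomp.uniformContinuousOn_of_continuous hD
  rw [Metric.uniformContinuousOn_iff] at huc
  obtain ⟨δ, hδ, hu⟩ := huc (DF τ 0 / 2) (by positivity)
  refine ⟨min (δ / 2) π, by positivity, DF τ 0 / 2, by positivity, ?_⟩
  intro t ht p hp0 hp
  rcases hp0.eq_or_lt with h | h
  · rw [← h, h0 t ht, mul_zero]
  · obtain ⟨ξ, hξ, hslope⟩ := exists_hasDerivAt_eq_slope (F t) (DF t) h
      (fun x _ => (hF t ht x).continuousAt.continuousWithinAt) (fun x _ => hF t ht x)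
    rw [h0 t ht, sub_zero, sub_zero] at hslope
    have h2 : F t p = DF t ξ * p := by
      rw [hslope]
      field_simp
    rw [h2]
    apply mul_le_mul_of_nonneg_right _ hp0
    have hξ1 : ξ ≤ δ / 2 := hξ.2.le.trans (hp.trans (min_le_left _ _))
    have hξ2 : ξ ≤ π := hξ.2.le.trans (hp.trans (min_le_right _ _))
    have h3 := hu (t, 0) ⟨ht, ⟨le_rfl, hpi.le⟩⟩ (t, ξ) ⟨ht, ⟨hξ.1.le, hξ2⟩⟩ (by
      rw [Prod.dist_eq]
      simp only [dist_self, Real.dist_eq]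
      rw [max_eq_right (abs_nonneg _), zero_sub, abs_neg, abs_of_pos hξ.1]
      linarith)
    rw [Real.dist_eq] at h3
    have h4 : DF τ 0 ≤ DF t 0 := hmin ht
    have h5 := (abs_lt.1 h3).2
    simp only at h5
    linarith

/-- Lower bound by the sine. -/
theorem low (t1 : ℝ) (ht1 : 0 ≤ t1) (F DF : ℝ → ℝ → ℝ)
    (hC : ContinuousOn (fun z : ℝ × ℝ => F z.1 z.2) (Icc 0 t1 ×ˢ Icc 0 π))
    (hD : ContinuousOn (fun z : ℝ × ℝ => DF z.1 z.2) (Icc 0 t1 ×ˢ Icc 0 π))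
    (hF : ∀ t ∈ Icc 0 t1, ∀ p, HasDerivAt (F t) (DF t p) p)
    (h0 : ∀ t ∈ Icc 0 t1, F t 0 = 0) (h1 : ∀ t ∈ Icc 0 t1, 0 < DF t 0)
    (h0' : ∀ t ∈ Icc 0 t1, F t π = 0) (h1' : ∀ t ∈ Icc 0 t1, DF t π < 0)
    (hpos : ∀ t ∈ Icc 0 t1, ∀ p ∈ Ioo 0 π, 0 < F t p) :
    ∃ a > 0, ∀ t ∈ Icc 0 t1, ∀ p ∈ Icc 0 π, a * sin p ≤ F t p := by
  have hpi : (0 : ℝ) < π := Real.pi_pos
  obtain ⟨η₁, hη₁, a₁, ha₁, h2⟩ := low_end t1 ht1 F DF hD hF h0 h1
  obtain ⟨η₂, hη₂, a₂, ha₂, h3⟩ := low_end t1 ht1 (fun t p => F t (π - p))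
    (fun t p => -(DF t (π - p)))
    (by
      have h : ContinuousOn (fun z : ℝ × ℝ => ((z.1, π - z.2) : ℝ × ℝ))
        (Icc 0 t1 ×ˢ Icc 0 π) := by fun_prop
      refine (hD.comp h ?_).neg
      rintro ⟨t, p⟩ ⟨ht, hp⟩
      exact ⟨ht, ⟨by simpa using hp.2, by simpa using hp.1⟩⟩)
    (by
      intro t ht p
      have h := (hF t ht (π - p)).comp p ((hasDerivAt_id p).const_sub π)
      rw [mul_neg, mul_one] at h
      exact h)
    (by
      intro t ht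
      simpa using h0' t ht)
    (by
      intro t ht
      simpa using h1' t ht)
  set η := min (min η₁ η₂) (π / 2) with hη
  have hη0 : 0 < η := by positivity
  have hη1 : η ≤ η₁ := (min_le_left _ _).trans (min_le_left _ _)
  have hη2 : η ≤ η₂ := (min_le_left _ _).trans (min_le_right _ _)
  have hη3 : η ≤ π / 2 := min_le_right _ _
  have hcomp : IsCompact (Icc (0 : ℝ) t1 ×ˢ Icc η (π - η)) := isCompact_Icc.prod isCompact_Icc
  obtain ⟨⟨τ, q⟩, ⟨hτ, hq⟩, hmin⟩ := hcomp.exists_isMinOn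
    ⟨(0, η), ⟨⟨le_rfl, ht1⟩, ⟨le_rfl, by linarith⟩⟩⟩
    (hC.mono (Set.prod_mono le_rfl (Icc_subset_Icc hη0.le (by linarith))))
  simp only at hτ hq
  have ha₃ : 0 < F τ q := hpos τ hτ q ⟨by linarith [hq.1], by linarith [hq.2]⟩
  refine ⟨min (min a₁ a₂) (F τ q), by positivity, ?_⟩
  intro t ht p hp
  have hs0 : 0 ≤ sin p := sin_nonneg_of_nonneg_of_le_pi hp.1 hp.2
  rcases le_total p η with h | h
  · refine le_trans ?_ (h2 t ht p hp.1 (h.trans hη1))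
    exact mul_le_mul ((min_le_left _ _).trans (min_le_left _ _)) (sin_le hp.1) hs0 ha₁.le
  · rcases le_total p (π - η) with h' | h'
    · have h4 : F τ q ≤ F t p := hmin (show (t, p) ∈ Icc (0 : ℝ) t1 ×ˢ Icc η (π - η) from
        ⟨ht, ⟨h, h'⟩⟩)
      refine le_trans ?_ h4
      calc min (min a₁ a₂) (F τ q) * sin p ≤ F τ q * 1 :=
            mul_le_mul (min_le_right _ _) (sin_le_one p) hs0 ha₃.le
        _ = F τ q := mul_one _
    · have h4 := h3 t ht (π - p) (by linarith [hp.2]) (by linarith)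
      simp only [sub_sub_cancel] at h4
      refine le_trans ?_ h4
      have h5 : sin p ≤ π - p := by
        rw [← sin_pi_sub]
        exact sin_le (by linarith [hp.2])
      exact mul_le_mul ((min_le_left _ _).trans (min_le_right _ _)) h5 hs0 ha₂.le

/-- Upper bound by the sine. -/
theorem up (t1 B : ℝ) (hB : 0 ≤ B) (F DF : ℝ → ℝ → ℝ)
    (hF : ∀ t ∈ Icc 0 t1, ∀ p, HasDerivAt (F t) (DF t p) p)
    (hD : ∀ t ∈ Icc 0 t1, ∀ p ∈ Icc 0 π, |DF t p| ≤ B)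
    (h0 : ∀ t ∈ Icc 0 t1, F t 0 = 0) (h0' : ∀ t ∈ Icc 0 t1, F t π = 0) :
    ∀ t ∈ Icc 0 t1, ∀ p ∈ Icc 0 π, |F t p| ≤ B * (π / 2) * sin p := by
  intro t ht p hp
  have hpi : (0 : ℝ) < π := Real.pi_pos
  have key : ∀ a b, a ∈ Icc 0 π → b ∈ Icc 0 π → |F t a - F t b| ≤ B * |a - b| := by
    intro a b ha hb
    have h := (convex_Icc (0 : ℝ) π).norm_image_sub_le_of_norm_hasDerivWithin_le
      (f := F t) (f' := DF t) (C := B)
      (fun x _ => (hF t ht x).hasDerivWithinAt) (fun x hx => by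
        rw [Real.norm_eq_abs]
        exact hD t ht x hx) hb ha
    rwa [Real.norm_eq_abs, Real.norm_eq_abs] at h
  rcases le_total p (π / 2) with h | h
  · have h1 := key p 0 hp ⟨le_rfl, hpi.le⟩
    rw [h0 t ht, sub_zero, sub_zero, abs_of_nonneg hp.1] at h1
    have h2 := Real.mul_le_sin hp.1 h
    have h3 : p ≤ π / 2 * sin p := by
      have h4 : π / 2 * (2 / π * p) = p := by field_simp
      calc p = π / 2 * (2 / π * p) := h4.symm
        _ ≤ π / 2 * sin p := mul_le_mul_of_nonneg_left h2 (by positivity)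
    calc |F t p| ≤ B * p := h1
      _ ≤ B * (π / 2 * sin p) := mul_le_mul_of_nonneg_left h3 hB
      _ = B * (π / 2) * sin p := by ring
  · have h1 := key p π hp ⟨hpi.le, le_rfl⟩
    have h1' : |p - π| = π - p := by
      rw [abs_sub_comm, abs_of_nonneg (by linarith [hp.2])]
    rw [h0' t ht, sub_zero, h1'] at h1
    have h2 := Real.mul_le_sin (x := π - p) (by linarith [hp.2]) (by linarith)
    rw [sin_pi_sub] at h2
    have h3 : π - p ≤ π / 2 * sin p := by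
      have h4 : π / 2 * (2 / π * (π - p)) = π - p := by field_simp
      calc π - p = π / 2 * (2 / π * (π - p)) := h4.symm
        _ ≤ π / 2 * sin p := mul_le_mul_of_nonneg_left h2 (by positivity)
    calc |F t p| ≤ B * (π - p) := h1
      _ ≤ B * (π / 2 * sin p) := mul_le_mul_of_nonneg_left h3 hB
      _ = B * (π / 2) * sin p := by ring

end Pool.Agent.Lib.MP_c60e08_gt.Lm.Xlow

namespace Pool.Agent.Lib.MP_c60e08_gt.Lm

open Real Set Filter Topology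

theorem xlowStmt (h : IdStmt) (h2 : IdCStmt) : XlowStmt := by
  intro T W hW t1 ht1
  have hpi : (0 : ℝ) < π := Real.pi_pos
  have hsub : Icc (0 : ℝ) t1 ⊆ Ico 0 T := fun t ht => ⟨ht.1, ht.2.trans_lt ht1.2⟩
  have hsub2 : Icc (0 : ℝ) t1 ×ˢ Icc (0 : ℝ) π ⊆ Ico 0 T ×ˢ univ :=
    Set.prod_mono hsub (subset_univ _)
  have hcomp : IsCompact (Icc (0 : ℝ) t1 ×ˢ Icc (0 : ℝ) π) := isCompact_Icc.prod isCompact_Icc
  obtain ⟨hI, -⟩ := h T W hW
  -- the lower bound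
  have hlow : ∃ a > 0, ∀ t ∈ Icc 0 t1, ∀ p ∈ Icc 0 π, a * sin p ≤ W.X t p := by
    apply Xlow.low t1 ht1.1 W.X (fun t p => W.g t p * cos (W.th t p))
    · exact hW.cX.mono hsub2
    · exact (hW.cg.mul (Real.continuous_cos.comp_continuousOn hW.cth)).mono hsub2
    · exact fun t ht p => hW.Xp t (hsub ht) p
    · exact fun t ht => hW.X0 t (hsub ht)
    · intro t ht
      rw [hW.th0 t (hsub ht), cos_zero, mul_one]
      exact hW.gpos t (hsub ht) 0
    · exact fun t ht => hW.Xpi t (hsub ht)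
    · intro t ht
      rw [hW.thpi t (hsub ht), cos_pi]
      have := hW.gpos t (hsub ht) π
      linarith
    · exact fun t ht p hp => hW.Xpos t (hsub ht) p hp
  refine ⟨hlow, ?_⟩
  obtain ⟨a, ha, hlow⟩ := hlow
  -- the bound of `r`
  have hcr1 : ContinuousOn (fun z : ℝ × ℝ => W.r1 z.1 z.2) (Ico 0 T ×ˢ univ) :=
    h2 T W hW W.r1 (by simp)
  have hcu : ContinuousOn (fun z : ℝ × ℝ => W.u z.1 z.2) (Ico 0 T ×ˢ univ) :=
    h2 T W hW W.u (by simp)
  have hcf : ContinuousOn (fun z : ℝ × ℝ => W.f z.1 z.2) (Ico 0 T ×ˢ univ) :=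
    h2 T W hW W.f (by simp)
  obtain ⟨B, hB⟩ := hcomp.exists_bound_of_continuousOn ((hW.cg.mul hcr1).mono hsub2)
  obtain ⟨B', hB'⟩ := hcomp.exists_bound_of_continuousOn
    ((hcf.div hcu (fun z hz => (hW.upos z.1 hz.1 z.2).ne')).mono hsub2)
  have hB0 : 0 ≤ B := (norm_nonneg _).trans (hB (0, 0) ⟨⟨le_rfl, ht1.1⟩, ⟨le_rfl, hpi.le⟩⟩)
  have hB0' : 0 ≤ B' := (norm_nonneg _).trans (hB' (0, 0) ⟨⟨le_rfl, ht1.1⟩, ⟨le_rfl, hpi.le⟩⟩)
  have hr : ∀ t ∈ Icc 0 t1, ∀ p ∈ Icc 0 π, |W.r t p| ≤ B * (π / 2) * sin p := by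
    apply Xlow.up t1 B hB0 W.r (fun t p => W.g t p * W.r1 t p)
    · intro t ht p
      exact (hI t (hsub ht) p).2.2.2.2.2.2.2.2.2.2.2.2.2.1
    · intro t ht p hp
      exact hB (t, p) ⟨ht, hp⟩
    · intro t ht
      unfold FlowData.r
      rw [hW.X0 t (hsub ht), hW.th0 t (hsub ht), sin_zero]
      ring
    · intro t ht
      unfold FlowData.r
      rw [hW.Xpi t (hsub ht), hW.thpi t (hsub ht), sin_pi]
      ring
  set c := B * (π / 2) / a with hc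
  have hc0 : 0 ≤ c := by positivity
  have hr2 : ∀ t ∈ Icc 0 t1, ∀ p ∈ Icc 0 π, |W.r t p| ≤ c * W.X t p := by
    intro t ht p hp
    calc |W.r t p| ≤ B * (π / 2) * sin p := hr t ht p hp
      _ = c * (a * sin p) := by rw [hc]; field_simp
      _ ≤ c * W.X t p := mul_le_mul_of_nonneg_left (hlow t ht p hp) hc0
  have hX0 : ∀ t ∈ Icc 0 t1, ∀ p ∈ Icc 0 π, 0 ≤ W.X t p := by
    intro t ht p hp
    refine le_trans ?_ (hlow t ht p hp)
    have := sin_nonneg_of_nonneg_of_le_pi hp.1 hp.2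
    positivity
  refine ⟨4 / 3 * B' * c + c + 1, by positivity, ?_⟩
  intro t ht p hp
  have hX := hX0 t ht p hp
  constructor
  · have hu := hW.upos t (hsub ht) p
    have h3 := hB' (t, p) ⟨ht, hp⟩
    rw [Real.norm_eq_abs] at h3
    have h4 : W.fs t p = 4 / 3 * (W.f t p / W.u t p) * W.r t p := by
      unfold FlowData.fs
      ring
    rw [h4, abs_mul, abs_mul, abs_of_pos (by norm_num : (0 : ℝ) < 4 / 3)]
    calc 4 / 3 * |W.f t p / W.u t p| * |W.r t p| ≤ 4 / 3 * B' * (c * W.X t p) :=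
          mul_le_mul (mul_le_mul_of_nonneg_left h3 (by norm_num)) (hr2 t ht p hp)
            (abs_nonneg _) (by positivity)
      _ = 4 / 3 * B' * c * W.X t p := by ring
      _ ≤ (4 / 3 * B' * c + c + 1) * W.X t p := by
          apply mul_le_mul_of_nonneg_right _ hX
          linarith
  · refine (hr2 t ht p hp).trans ?_
    apply mul_le_mul_of_nonneg_right _ hX
    have : 0 ≤ 4 / 3 * B' * c := by positivity
    linarith

end Pool.Agent.Lib.MP_c60e08_gt.Lm
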