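import Pool.Agent.Lib.MP_c60e08_gt.LmFlow2

/-!
Module Zg: growth of `zeta` where `v <= 0`.
-/

namespace Pool.Agent.Lib.MP_c60e08_gt.Lm

open Real Set Filter Topology

theorem zgStmt (h1 : NoCommonStmt) (h2 : IdStmt) : ZgStmt := by
  intro b T W hW t ht hP p hp hvp
  have hId := (h2 T W hW).1 t ht
  have hplt : p < π := by
    rcases lt_or_eq_of_le hp.2 with h | h
    · exact h
    · exfalso
      have h3 := hP.vtop
      rw [h] at hvp
      linarith
  have hNC := h1 T W hW t ht hP.rpos hP.om1 p ⟨hp.1, hplt⟩ hvp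
  have hd : 0 < W.Y t 0 := hW.tip t ht
  have hze0 : W.ze t 0 = W.Y t 0 := by
    simp only [FlowData.ze, hW.X0 t ht, hW.th0 t ht]
    simp
  have hzpos : ∀ q ∈ Icc 0 p, 0 < W.ze t q := fun q hq => lt_of_lt_of_le hd (hNC q hq).2.2
  have hvd : ∀ q, HasDerivAt (W.v t) (W.g t q * W.v1 t q) q := hW.vp t ht
  have hzd : ∀ q, HasDerivAt (W.ze t) (W.g t q * W.z1 t q) q := fun q => by
    obtain ⟨-, -, -, -, -, -, -, -, -, -, -, -, -, -, h, -⟩ := hId q
    exact h
  have hsd : ∀ q, HasDerivAt (W.ss t) (W.g t q * (2 * W.r t q / W.f t q)) q := fun q => by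
    obtain ⟨-, -, -, -, -, -, -, -, -, -, -, -, -, -, -, -, h, -⟩ := hId q
    exact h
  have hfpos : ∀ q, 0 < W.f t q := fun q => (hId q).2.2.1
  have hspos : ∀ q, 0 < W.ss t q := fun q => (hId q).2.2.2.1
  have hgpos : ∀ q, 0 < W.g t q := hW.gpos t ht
  have hrnn : ∀ q ∈ Icc 0 p, 0 ≤ W.r t q := by
    intro q hq
    rcases eq_or_lt_of_le hq.1 with h | h
    · rw [← h]
      simp only [FlowData.r, hW.X0 t ht, hW.th0 t ht]
      simp
    · exact (hP.rpos q ⟨h, lt_of_le_of_lt hq.2 hplt⟩).le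
  set a : ℝ := - W.v t 0 / W.Y t 0 with ha
  have ha0 : 0 ≤ a := div_nonneg (by linarith [hP.vtip]) hd.le
  -- the quotient
  have hphi : MonotoneOn (fun q => W.v t q / W.ze t q) (Icc 0 p) := by
    have hder : ∀ q ∈ Icc 0 p, HasDerivAt (fun q => W.v t q / W.ze t q)
        ((W.g t q * W.v1 t q * W.ze t q - W.v t q * (W.g t q * W.z1 t q)) / W.ze t q ^ 2) q :=
      fun q hq => (hvd q).div (hzd q) (hzpos q hq).ne'
    apply monotoneOn_of_deriv_nonneg (convex_Icc 0 p)
    · exact fun q hq => (hder q hq).continuousAt.continuousWithinAt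
    · exact fun q hq => ((hder q (interior_subset hq)).differentiableAt).differentiableWithinAt
    · intro q hq
      have hq' := interior_subset hq
      rw [(hder q hq').deriv]
      have e : W.g t q * W.v1 t q * W.ze t q - W.v t q * (W.g t q * W.z1 t q)
          = W.g t q * W.om2 t q := by
        simp only [FlowData.om2, FlowData.z1]
        ring
      rw [e]
      exact div_nonneg (mul_nonneg (hgpos q).le (hP.om2 q ⟨hq'.1, hq'.2.trans hp.2⟩)) (sq_nonneg _)
  have hle : ∀ q ∈ Icc 0 p, - W.v t q ≤ a * W.ze t q := by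
    intro q hq
    have h := hphi (left_mem_Icc.mpr (hq.1.trans hq.2)) hq hq.1
    simp only [hze0] at h
    have hz := hzpos q hq
    have h' : W.v t 0 / W.Y t 0 * W.ze t q ≤ W.v t q := by
      rw [le_div_iff₀ hz] at h
      exact h
    have e : a * W.ze t q = - (W.v t 0 / W.Y t 0 * W.ze t q) := by
      rw [ha]; ring
    rw [e]; linarith
  -- the logarithm
  have hpsi : AntitoneOn (fun q => Real.log (W.ze t q) - a / 2 * W.ss t q) (Icc 0 p) := by
    have hder : ∀ q ∈ Icc 0 p, HasDerivAt (fun q => Real.log (W.ze t q) - a / 2 * W.ss t q)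
        ((W.g t q * W.z1 t q) / W.ze t q - a / 2 * (W.g t q * (2 * W.r t q / W.f t q))) q :=
      fun q hq => ((hzd q).log (hzpos q hq).ne').sub ((hsd q).const_mul (a / 2))
    apply antitoneOn_of_deriv_nonpos (convex_Icc 0 p)
    · exact fun q hq => (hder q hq).continuousAt.continuousWithinAt
    · exact fun q hq => ((hder q (interior_subset hq)).differentiableAt).differentiableWithinAt
    · intro q hq
      have hq' := interior_subset hq
      rw [(hder q hq').deriv]
      have hz := hzpos q hq'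
      have hf := hfpos q
      have e : (W.g t q * W.z1 t q) / W.ze t q - a / 2 * (W.g t q * (2 * W.r t q / W.f t q))
          = W.g t q * W.r t q / (W.f t q * W.ze t q) * (- W.v t q - a * W.ze t q) := by
        simp only [FlowData.z1, FlowData.kap]
        field_simp
      rw [e]
      apply mul_nonpos_of_nonneg_of_nonpos
      · exact div_nonneg (mul_nonneg (hgpos q).le (hrnn q hq')) (mul_pos hf hz).le
      · linarith [hle q hq']
  have hpp : p ∈ Icc 0 p := right_mem_Icc.mpr hp.1
  refine ⟨hzpos p hpp, hle p hpp, ?_⟩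
  have h := hpsi (left_mem_Icc.mpr hp.1) hpp hp.1
  simp only [hze0] at h
  have hs0 : 0 ≤ a / 2 * W.ss t 0 := mul_nonneg (by linarith) (hspos 0).le
  have hlog : Real.log (W.ze t p) ≤ Real.log (W.Y t 0) + a * W.ss t p / 2 := by
    linarith
  calc W.ze t p = exp (Real.log (W.ze t p)) := (Real.exp_log (hzpos p hpp)).symm
    _ ≤ exp (Real.log (W.Y t 0) + a * W.ss t p / 2) := Real.exp_le_exp.mpr hlog
    _ = W.Y t 0 * exp (a * W.ss t p / 2) := by rw [Real.exp_add, Real.exp_log hd]

end Pool.Agent.Lib.MP_c60e08_gt.Lm
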