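import Pool.Agent.Lib.MP_c60e08_gt.LmMp
import Pool.Agent.Lib.MP_c60e08_gt.LmMpR
import Pool.Agent.Lib.MP_c60e08_gt.LmMpS
import Pool.Agent.Lib.MP_c60e08_gt.LmMins
import Pool.Agent.Lib.MP_c60e08_gt.LmId
import Pool.Agent.Lib.MP_c60e08_gt.LmIdC
import Pool.Agent.Lib.MP_c60e08_gt.LmIdR
import Pool.Agent.Lib.MP_c60e08_gt.LmIdZ
import Pool.Agent.Lib.MP_c60e08_gt.LmWronW
import Pool.Agent.Lib.MP_c60e08_gt.LmWronS
import Pool.Agent.Lib.MP_c60e08_gt.LmXlow
import Pool.Agent.Lib.MP_c60e08_gt.LmRpos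
import Pool.Agent.Lib.MP_c60e08_gt.LmS4
import Pool.Agent.Lib.MP_c60e08_gt.LmNoCommon
import Pool.Agent.Lib.MP_c60e08_gt.LmS2
import Pool.Agent.Lib.MP_c60e08_gt.LmTip
import Pool.Agent.Lib.MP_c60e08_gt.LmTurn
import Pool.Agent.Lib.MP_c60e08_gt.LmConv
import Pool.Agent.Lib.MP_c60e08_gt.LmVnn
import Pool.Agent.Lib.MP_c60e08_gt.LmThLow
import Pool.Agent.Lib.MP_c60e08_gt.LmLbt
import Pool.Agent.Lib.MP_c60e08_gt.LmTHat
import Pool.Agent.Lib.MP_c60e08_gt.LmCvx
import Pool.Agent.Lib.MP_c60e08_gt.LmSlopeUp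
import Pool.Agent.Lib.MP_c60e08_gt.LmSlopeLow
import Pool.Agent.Lib.MP_c60e08_gt.LmNear
import Pool.Agent.Lib.MP_c60e08_gt.LmDist
import Pool.Agent.Lib.MP_c60e08_gt.LmTop
import Pool.Agent.Lib.MP_c60e08_gt.LmGood
import Pool.Agent.Lib.MP_c60e08_gt.LmStdOf
import Pool.Agent.Lib.MP_c60e08_gt.LmZg
import Pool.Agent.Lib.MP_c60e08_gt.LmVb
import Pool.Agent.Lib.MP_c60e08_gt.LmS5Ineq
import Pool.Agent.Lib.MP_c60e08_gt.LmS5
import Pool.Agent.Lib.MP_c60e08_gt.LmInfl
import Pool.Agent.Lib.MP_c60e08_gt.LmUnderOf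
import Pool.Agent.Lib.MP_c60e08_gt.LmThUnder
import Pool.Agent.Lib.MP_c60e08_gt.LmContact
import Pool.Agent.Lib.MP_c60e08_gt.LmLBar
import Pool.Agent.Lib.MP_c60e08_gt.LmPCIneq
import Pool.Agent.Lib.MP_c60e08_gt.LmPCcomp
import Pool.Agent.Lib.MP_c60e08_gt.LmPCneg
import Pool.Agent.Lib.MP_c60e08_gt.LmCvxY
import Pool.Agent.Lib.MP_c60e08_gt.LmDisj
import Pool.Agent.Lib.MP_c60e08_gt.LmNegAll
import Pool.Agent.Lib.MP_c60e08_gt.LmCloseOde
import Pool.Agent.Lib.MP_c60e08_gt.LmAnti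
import Pool.Agent.Lib.MP_c60e08_gt.LmClose
import Pool.Agent.Lib.MP_c60e08_gt.LmVmax
import Pool.Agent.Lib.MP_c60e08_gt.LmHbd
import Pool.Agent.Lib.MP_c60e08_gt.LmStar
import Pool.Agent.Lib.MP_c60e08_gt.LmVbd
import Pool.Agent.Lib.MP_c60e08_gt.LmQbd
import Pool.Agent.Lib.MP_c60e08_gt.LmC3bd
import Pool.Agent.Lib.MP_c60e08_gt.LmBlow
import Pool.Agent.Lib.MP_c60e08_gt.LmTipSign
import Pool.Agent.Lib.MP_c60e08_gt.LmInitX
import Pool.Agent.Lib.MP_c60e08_gt.LmMaxCmp
import Pool.Agent.Lib.MP_c60e08_gt.LmFamEx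
import Pool.Agent.Lib.MP_c60e08_gt.LmOpenB
import Pool.Agent.Lib.MP_c60e08_gt.LmOpenU
import Pool.Agent.Lib.MP_c60e08_gt.LmOneB
import Pool.Agent.Lib.MP_c60e08_gt.LmShoot

/-!
MP_c60e08_gt: assembly of the FLOW part.
-/

namespace Pool.Agent.Lib.MP_c60e08_gt.Lm

theorem all_id : IdStmt := idStmt
theorem all_idR : IdRStmt := idRStmt idStmt
theorem all_idZ : IdZStmt := idZStmt idStmt all_idR
theorem all_rpos : RposStmt := rposStmt mpStmt minsStmt idStmt idCStmt all_idR
theorem all_xlow : XlowStmt := xlowStmt idStmt idCStmt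
theorem all_s4 : S4Stmt := s4Stmt (wronWStmt mpStmt minsStmt) all_rpos idStmt idCStmt all_idR
theorem all_noCommon : NoCommonStmt := noCommonStmt idStmt
theorem all_s2 : S2Stmt :=
  s2Stmt (wronSStmt mpStmt minsStmt) all_noCommon all_xlow idStmt idCStmt all_idR all_idZ
theorem all_tip : TipStmt := tipStmt idStmt
theorem all_turn : TurnStmt := turnStmt all_tip
theorem all_conv : ConvStmt := convStmt mpStmt minsStmt idCStmt
theorem all_vnn : VnnStmt := vnnStmt idStmt
theorem all_thLow : ThLowStmt := thLowStmt mpStmt minsStmt idStmt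
theorem all_lbt : LbtStmt := lbtStmt mpStmt minsStmt idStmt idCStmt
theorem all_tHat : THatStmt := tHatStmt all_lbt idStmt idCStmt
theorem all_cvx : CvxStmt := cvxStmt idStmt
theorem all_slopeUp : SlopeUpStmt := slopeUpStmt all_cvx idStmt
theorem all_slopeLow : SlopeLowStmt := slopeLowStmt all_cvx idStmt
theorem all_near : NearStmt := nearStmt idStmt
theorem all_dist : DistStmt := distStmt mpStmt minsStmt idStmt
theorem all_top : TopStmt := topStmt mpRStmt minsStmt idStmt idCStmt all_idR all_idZ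
theorem all_good : GoodStmt :=
  goodStmt all_dist all_rpos all_thLow all_tHat all_s4 all_cvx all_slopeUp all_slopeLow all_near
    all_top all_s2 idStmt idCStmt
theorem all_stdOf : StdOfStmt := stdOfStmt all_good
theorem all_zg : ZgStmt := zgStmt all_noCommon idStmt
theorem all_vb : VbStmt := vbStmt all_zg all_noCommon all_cvx idStmt idCStmt
theorem all_s5 : S5Stmt := s5Stmt mpRStmt minsStmt s5IneqStmt all_vb idStmt idCStmt all_idR
theorem all_infl : InflStmt := inflStmt all_s5 idStmt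
theorem all_underOf : UnderOfStmt := underOfStmt idStmt idCStmt
theorem all_thUnder : ThUnderStmt := thUnderStmt all_underOf all_noCommon all_cvx idStmt
theorem all_lBar : LBarStmt := lBarStmt mpSStmt minsStmt contactStmt idStmt idCStmt
theorem all_pCcomp : PCcompStmt :=
  pCcompStmt mpSStmt minsStmt contactStmt pCIneqStmt idStmt idCStmt
theorem all_pCneg : PCnegStmt := pCnegStmt idStmt idCStmt
theorem all_disj : DisjStmt :=
  disjStmt all_good all_vnn all_conv cvxYStmt all_pCcomp all_pCneg idStmt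
theorem all_negAll : NegAllStmt := negAllStmt all_good all_turn
theorem all_anti : AntiStmt := antiStmt all_tip idStmt
theorem all_close : CloseStmt :=
  closeStmt closeOdeStmt all_anti all_infl all_thUnder all_lBar all_noCommon all_cvx idStmt
theorem all_vmax : VmaxStmt := vmaxStmt all_noCommon all_cvx idStmt idCStmt
theorem all_hbd : HbdStmt := hbdStmt all_zg all_vmax idStmt
theorem all_star : StarStmt := starStmt all_dist idStmt idCStmt
theorem all_vbd : VbdStmt := vbdStmt all_vmax all_zg all_anti all_dist idStmt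
theorem all_qbd : QbdStmt := qbdStmt mpStmt minsStmt idStmt idCStmt
theorem all_blow : BlowStmt := blowStmt all_vbd all_qbd all_star all_dist c3bdStmt idStmt
theorem all_famEx : FamExStmt := famExStmt tipSignStmt initXStmt maxCmpStmt
theorem all_oneB : OneBStmt := oneBStmt all_negAll all_stdOf all_blow all_lBar idStmt
theorem all_shoot : ShootStmt :=
  shootStmt all_famEx openBStmt openUStmt all_disj all_oneB all_negAll all_stdOf all_close all_hbd
    all_dist all_blow

end Pool.Agent.Lib.MP_c60e08_gt.Lm
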