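import Pool.Agent.Lib.MP_c60e08_gt.LmFlow2

/-!
MP_c60e08_gt, FLOW part, module Anti: `-v(t,0) Y(t,0)^(-1/3)` is nonincreasing.
-/

namespace Pool.Agent.Lib.MP_c60e08_gt.Lm

open Real Set Filter Topology

namespace Anti

theorem slice {T : ℝ} {F : ℝ → ℝ → ℝ}
    (h : ContinuousOn (fun z : ℝ × ℝ => F z.1 z.2) (Ico 0 T ×ˢ univ)) (q : ℝ) :
    ContinuousOn (fun t => F t q) (Ico 0 T) := by
  have h1 : ContinuousOn (fun s : ℝ => ((s, q) : ℝ × ℝ)) (Ico 0 T) := by fun_prop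
  exact ContinuousOn.comp (g := fun z : ℝ × ℝ => F z.1 z.2) h h1 (fun s hs => ⟨hs, mem_univ _⟩)

end Anti

open Anti in
theorem antiStmt (h1 : TipStmt) (_h2 : IdStmt) : AntiStmt := by
  intro b T W hS
  have hW := hS.flow
  have hYpos : ∀ t ∈ Ico 0 T, 0 < W.Y t 0 := hW.tip
  have hD : ∀ t ∈ Ioo 0 T, HasDerivAt (fun t => - W.v t 0 * (W.Y t 0) ^ (-(1 : ℝ) / 3))
      (-(W.f t 0 * W.v2 t 0 + W.C0 t 0 * W.v t 0) * (W.Y t 0) ^ (-(1 : ℝ) / 3) +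
        -W.v t 0 * (W.v t 0 * (-(1 : ℝ) / 3) * (W.Y t 0) ^ (-(1 : ℝ) / 3 - 1))) t := by
    intro t ht
    have ht' : t ∈ Ico 0 T := ⟨ht.1.le, ht.2⟩
    have hv := hW.vt t ht 0
    have hY := hW.Yt t ht 0
    rw [hW.lam0 t ht'] at hv hY
    rw [hW.th0 t ht', cos_zero, sin_zero] at hY
    have hv' : HasDerivAt (fun s => W.v s 0) (W.f t 0 * W.v2 t 0 + W.C0 t 0 * W.v t 0) t :=
      hv.congr_deriv (by ring)
    have hY' : HasDerivAt (fun s => W.Y s 0) (W.v t 0) t := hY.congr_deriv (by ring)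
    exact hv'.neg.mul (hY'.rpow_const (Or.inl (hYpos t ht').ne'))
  have hint : interior (Ico 0 T) = Ioo 0 T := interior_Ico
  refine antitoneOn_of_deriv_nonpos (convex_Ico 0 T) ?_ ?_ ?_
  · exact (slice hW.cv 0).neg.mul ((slice hW.cY 0).rpow_const
      (fun t ht => Or.inl (hYpos t ht).ne'))
  · rw [hint]
    exact fun t ht => (hD t ht).differentiableAt.differentiableWithinAt
  · rw [hint]
    intro t ht
    have ht' : t ∈ Ico 0 T := ⟨ht.1.le, ht.2⟩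
    have hY := hYpos t ht'
    rw [(hD t ht).deriv]
    have htip := h1 T W hW t ht' 0 le_rfl (fun p hp => by
      rw [zero_mul]; exact (hS.pack t ht').om2 p hp)
    rw [zero_mul, zero_div, zero_add] at htip
    rw [rpow_sub_one hY.ne']
    have hpow : 0 < (W.Y t 0) ^ (-(1 : ℝ) / 3) := rpow_pos_of_pos hY _
    have hid : -(W.f t 0 * W.v2 t 0 + W.C0 t 0 * W.v t 0) * (W.Y t 0) ^ (-(1 : ℝ) / 3) +
        -W.v t 0 * (W.v t 0 * (-(1 : ℝ) / 3) * ((W.Y t 0) ^ (-(1 : ℝ) / 3) / W.Y t 0)) =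
        (W.Y t 0) ^ (-(1 : ℝ) / 3) * (W.v t 0 ^ 2 / (3 * W.Y t 0) -
          (W.f t 0 * W.v2 t 0 + W.C0 t 0 * W.v t 0)) := by
      generalize (W.Y t 0) ^ (-(1 : ℝ) / 3) = q
      have hYne := hY.ne'
      field_simp
      ring
    rw [hid]
    exact mul_nonpos_of_nonneg_of_nonpos hpow.le (by linarith)

end Pool.Agent.Lib.MP_c60e08_gt.Lm
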