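import Mathlib

/-!
Common definitions for the project MP_c60e08_gt (a type II singularity of Lagrangian mean
curvature flow of closed Lagrangians in `C^3` with bounded mean curvature).

Geometry: `L_t = { gamma * (e^{i alpha}, e^{i beta}, e^{-i (alpha+beta)}) }` with a closed plane
curve `gamma(.,t)`; with `w = gamma^3` the flow is the curve flow with normal speed
`v = f kappa`, `f = 3 |w|^(4/3)`.  The curve `w` is a polar graph about the point `i = (0,1)`,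
`w = (e^y sin p, 1 - e^y cos p)`, with `p = 0` the bottom tip `(0, d)`, `d = 1 - e^y > 0`.
-/

namespace Pool.Agent.Lib.MP_c60e08_gt.Lm

open Real Set

/-! ## the flow -/

/-- the speed factor `3 |w|^(4/3)` as a function of `u = |w|^2` -/
noncomputable def fS (u : ℝ) : ℝ := 3 * u ^ ((2 : ℝ) / 3)

/-- `|w|^2` for `w = (e^y sin p, 1 - e^y cos p)` -/
noncomputable def uu (p y : ℝ) : ℝ := exp (2 * y) - 2 * exp y * cos p + 1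

/-- Smooth solutions on `[0,T)` of the polar graph equation
`y_t = f e^{-2y} (y_pp / (1 + y_p^2) - 1)`; `y m t p` is the `m`-th `p`-derivative. -/
structure PolarSol (T : ℝ) (y : ℕ → ℝ → ℝ → ℝ) : Prop where
  cont : ∀ m, ContinuousOn (fun z : ℝ × ℝ => y m z.1 z.2) (Ico 0 T ×ˢ univ)
  dx : ∀ m, ∀ t ∈ Ico 0 T, ∀ p, HasDerivAt (y m t) (y (m + 1) t p) p
  dt : ∀ t ∈ Ioo 0 T, ∀ p, HasDerivAt (fun s => y 0 s p)
    (fS (uu p (y 0 t p)) * exp (-(2 * y 0 t p)) * (y 2 t p / (1 + (y 1 t p) ^ 2) - 1)) t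
  per : ∀ t ∈ Ico 0 T, ∀ p, y 0 t (p + 2 * π) = y 0 t p
  even : ∀ t ∈ Ico 0 T, ∀ p, y 0 t (-p) = y 0 t p
  pos : ∀ t ∈ Ico 0 T, ∀ p, 0 < uu p (y 0 t p)

/-- Data of a moving curve: position `(X,Y)`, tangent angle `th`, `g = |w_p|`, tangential
velocity `lam`, normal velocity `v` (with respect to `N = (-sin th, cos th)`), and its arclength
derivatives `v1, v2, v3`.  The arguments are `t p`. -/
structure FlowData where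
  X : ℝ → ℝ → ℝ
  Y : ℝ → ℝ → ℝ
  th : ℝ → ℝ → ℝ
  g : ℝ → ℝ → ℝ
  lam : ℝ → ℝ → ℝ
  v : ℝ → ℝ → ℝ
  v1 : ℝ → ℝ → ℝ
  v2 : ℝ → ℝ → ℝ
  v3 : ℝ → ℝ → ℝ

namespace FlowData

variable (W : FlowData)

/-- `|w|^2` -/
def u (t p : ℝ) : ℝ := W.X t p ^ 2 + W.Y t p ^ 2

/-- `|w|` -/
noncomputable def rho (t p : ℝ) : ℝ := √(W.u t p)

/-- `|w|^(2/3)` -/
noncomputable def ss (t p : ℝ) : ℝ := (W.u t p) ^ ((1 : ℝ) / 3)

/-- the speed factor -/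
noncomputable def f (t p : ℝ) : ℝ := fS (W.u t p)

/-- curvature -/
noncomputable def kap (t p : ℝ) : ℝ := W.v t p / W.f t p

/-- `r = <w, tau>` -/
noncomputable def r (t p : ℝ) : ℝ := W.X t p * cos (W.th t p) + W.Y t p * sin (W.th t p)

/-- `zeta = <w, N>` -/
noncomputable def ze (t p : ℝ) : ℝ := - W.X t p * sin (W.th t p) + W.Y t p * cos (W.th t p)

/-- arclength derivative of `f` -/
noncomputable def fs (t p : ℝ) : ℝ := 4 / 3 * W.f t p * W.r t p / W.u t p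

/-- the zeroth order coefficient `f kappa^2 + f_N kappa` -/
noncomputable def C0 (t p : ℝ) : ℝ :=
  W.v t p ^ 2 / W.f t p + 4 / 3 * (W.ze t p / W.u t p) * W.v t p

/-- arclength derivative of `C0` -/
noncomputable def C1 (t p : ℝ) : ℝ :=
  2 * W.v t p * W.v1 t p / W.f t p
    - 4 / 3 * W.v t p ^ 2 * W.r t p / (W.f t p * W.u t p)
    + 4 / 3 * (- (W.v t p) ^ 2 * W.r t p / (W.f t p * W.u t p)
      + W.ze t p * W.v1 t p / W.u t p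
      - 2 * W.ze t p * W.v t p * W.r t p / W.u t p ^ 2)

/-- the Wronskian `v_s r - v r_s` -/
noncomputable def om1 (t p : ℝ) : ℝ :=
  W.v1 t p * W.r t p - W.v t p * (1 + W.kap t p * W.ze t p)

/-- the Wronskian `v_s zeta - v zeta_s` -/
noncomputable def om2 (t p : ℝ) : ℝ :=
  W.v1 t p * W.ze t p + W.v t p * (W.kap t p * W.r t p)

end FlowData

/-- the flow `normal speed = f kappa` on `[0,T)` with tip `p = 0` and top `p = π`, both on the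
`Y` axis. -/
structure IsFlow (T : ℝ) (W : FlowData) : Prop where
  Tpos : 0 < T
  cX : ContinuousOn (fun z : ℝ × ℝ => W.X z.1 z.2) (Ico 0 T ×ˢ univ)
  cY : ContinuousOn (fun z : ℝ × ℝ => W.Y z.1 z.2) (Ico 0 T ×ˢ univ)
  cth : ContinuousOn (fun z : ℝ × ℝ => W.th z.1 z.2) (Ico 0 T ×ˢ univ)
  cg : ContinuousOn (fun z : ℝ × ℝ => W.g z.1 z.2) (Ico 0 T ×ˢ univ)
  clam : ContinuousOn (fun z : ℝ × ℝ => W.lam z.1 z.2) (Ico 0 T ×ˢ univ)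
  cv : ContinuousOn (fun z : ℝ × ℝ => W.v z.1 z.2) (Ico 0 T ×ˢ univ)
  cv1 : ContinuousOn (fun z : ℝ × ℝ => W.v1 z.1 z.2) (Ico 0 T ×ˢ univ)
  cv2 : ContinuousOn (fun z : ℝ × ℝ => W.v2 z.1 z.2) (Ico 0 T ×ˢ univ)
  cv3 : ContinuousOn (fun z : ℝ × ℝ => W.v3 z.1 z.2) (Ico 0 T ×ˢ univ)
  gpos : ∀ t ∈ Ico 0 T, ∀ p, 0 < W.g t p
  upos : ∀ t ∈ Ico 0 T, ∀ p, 0 < W.u t p
  Xp : ∀ t ∈ Ico 0 T, ∀ p, HasDerivAt (W.X t) (W.g t p * cos (W.th t p)) p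
  Yp : ∀ t ∈ Ico 0 T, ∀ p, HasDerivAt (W.Y t) (W.g t p * sin (W.th t p)) p
  thp : ∀ t ∈ Ico 0 T, ∀ p, HasDerivAt (W.th t) (W.g t p * W.kap t p) p
  vp : ∀ t ∈ Ico 0 T, ∀ p, HasDerivAt (W.v t) (W.g t p * W.v1 t p) p
  v1p : ∀ t ∈ Ico 0 T, ∀ p, HasDerivAt (W.v1 t) (W.g t p * W.v2 t p) p
  v2p : ∀ t ∈ Ico 0 T, ∀ p, HasDerivAt (W.v2 t) (W.g t p * W.v3 t p) p
  Xt : ∀ t ∈ Ioo 0 T, ∀ p, HasDerivAt (fun s => W.X s p)
    (-(W.v t p) * sin (W.th t p) + W.lam t p * cos (W.th t p)) t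
  Yt : ∀ t ∈ Ioo 0 T, ∀ p, HasDerivAt (fun s => W.Y s p)
    (W.v t p * cos (W.th t p) + W.lam t p * sin (W.th t p)) t
  tht : ∀ t ∈ Ioo 0 T, ∀ p, HasDerivAt (fun s => W.th s p)
    (W.v1 t p + W.lam t p * W.kap t p) t
  vt : ∀ t ∈ Ioo 0 T, ∀ p, HasDerivAt (fun s => W.v s p)
    (W.f t p * W.v2 t p + W.C0 t p * W.v t p + W.lam t p * W.v1 t p) t
  v1t : ∀ t ∈ Ioo 0 T, ∀ p, HasDerivAt (fun s => W.v1 s p)
    (W.f t p * W.v3 t p + W.fs t p * W.v2 t p + W.C0 t p * W.v1 t p + W.C1 t p * W.v t p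
      + W.v t p ^ 2 / W.f t p * W.v1 t p + W.lam t p * W.v2 t p) t
  X0 : ∀ t ∈ Ico 0 T, W.X t 0 = 0
  th0 : ∀ t ∈ Ico 0 T, W.th t 0 = 0
  v10 : ∀ t ∈ Ico 0 T, W.v1 t 0 = 0
  lam0 : ∀ t ∈ Ico 0 T, W.lam t 0 = 0
  Xpi : ∀ t ∈ Ico 0 T, W.X t π = 0
  thpi : ∀ t ∈ Ico 0 T, W.th t π = π
  v1pi : ∀ t ∈ Ico 0 T, W.v1 t π = 0
  lampi : ∀ t ∈ Ico 0 T, W.lam t π = 0
  Xpos : ∀ t ∈ Ico 0 T, ∀ p ∈ Ioo 0 π, 0 < W.X t p
  tip : ∀ t ∈ Ico 0 T, 0 < W.Y t 0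
  top : ∀ t ∈ Ico 0 T, 1 < W.Y t π

/-- polar graph to flow data, step 1 -/
noncomputable def pg (y : ℕ → ℝ → ℝ → ℝ) (t p : ℝ) : ℝ := exp (y 0 t p) * √(1 + (y 1 t p) ^ 2)

/-- polar graph: normal velocity -/
noncomputable def pv (y : ℕ → ℝ → ℝ → ℝ) (t p : ℝ) : ℝ :=
  fS (uu p (y 0 t p)) * (1 - y 2 t p / (1 + (y 1 t p) ^ 2)) / pg y t p

/-- arclength derivative of a function of `t p` -/
noncomputable def pD (y : ℕ → ℝ → ℝ → ℝ) (F : ℝ → ℝ → ℝ) (t p : ℝ) : ℝ :=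
  deriv (F t) p / pg y t p

/-- the flow data of a polar graph solution -/
noncomputable def flowOf (y : ℕ → ℝ → ℝ → ℝ) : FlowData where
  X := fun t p => exp (y 0 t p) * sin p
  Y := fun t p => 1 - exp (y 0 t p) * cos p
  th := fun t p => p - arctan (y 1 t p)
  g := pg y
  lam := fun t p => - (pv y t p * y 1 t p)
  v := pv y
  v1 := pD y (pv y)
  v2 := pD y (pD y (pv y))
  v3 := pD y (pD y (pD y (pv y)))

/-! ## partial differential equations: the interface -/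

/-- smooth periodic solutions on the closed time interval `[0,T]` of
`y_t = a(x,y,y_x) y_xx + b(x,y,y_x)`; `y m t x` is the `m`-th `x`-derivative -/
structure QSol (a b : ℝ → ℝ → ℝ → ℝ) (T : ℝ) (y : ℕ → ℝ → ℝ → ℝ) : Prop where
  cont : ∀ m, ContinuousOn (fun z : ℝ × ℝ => y m z.1 z.2) (Icc 0 T ×ˢ univ)
  dx : ∀ m, ∀ t ∈ Icc 0 T, ∀ x, HasDerivAt (y m t) (y (m + 1) t x) x
  dt : ∀ t ∈ Icc 0 T, ∀ x, HasDerivWithinAt (fun s => y 0 s x)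
    (a x (y 0 t x) (y 1 t x) * y 2 t x + b x (y 0 t x) (y 1 t x)) (Icc 0 T) t
  per : ∀ t ∈ Icc 0 T, ∀ x, y 0 t (x + 2 * π) = y 0 t x

/-- PAR: local existence for general quasilinear periodic parabolic equations in one space
dimension with smooth data; the time depends only on a bound of the first three derivatives. -/
def ParStmt : Prop :=
  ∀ a b : ℝ → ℝ → ℝ → ℝ,
    ContDiff ℝ (⊤ : ℕ∞) (fun z : ℝ × ℝ × ℝ => a z.1 z.2.1 z.2.2) →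
    ContDiff ℝ (⊤ : ℕ∞) (fun z : ℝ × ℝ × ℝ => b z.1 z.2.1 z.2.2) →
    (∀ x y z, a (x + 2 * π) y z = a x y z) → (∀ x y z, b (x + 2 * π) y z = b x y z) →
    (∀ x y z, 0 < a x y z) →
    ∀ M : ℝ, ∃ τ > 0, ∃ K : ℝ → ℝ, ∀ y0 : ℝ → ℝ, ContDiff ℝ (⊤ : ℕ∞) y0 →
      (∀ x, y0 (x + 2 * π) = y0 x) → (∀ j ≤ 3, ∀ x, |iteratedDeriv j y0 x| ≤ M) →
      ∃ y, QSol a b τ y ∧ (∀ x, y 0 0 x = y0 x) ∧
        ∀ M4, (∀ x, |iteratedDeriv 4 y0 x| ≤ M4) → ∀ t ∈ Icc 0 τ, ∀ x, |y 4 t x| ≤ K M4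

/-- E1: maximal solutions (capped at time 1). -/
def MaxSolStmt : Prop :=
  ∀ y0 : ℝ → ℝ, ContDiff ℝ (⊤ : ℕ∞) y0 → (∀ p, y0 (p + 2 * π) = y0 p) →
    (∀ p, y0 (-p) = y0 p) → (∀ p, 0 < uu p (y0 p)) →
    ∃ T : ℝ, 0 < T ∧ T ≤ 1 ∧ ∃ y, PolarSol T y ∧ (∀ p, y 0 0 p = y0 p) ∧
      (T = 1 ∨ ∀ M : ℝ, ∃ t ∈ Ico 0 T, ∃ p, M < |y 0 t p| ∨ M < |y 1 t p| ∨ M < |y 2 t p|
        ∨ M < |y 3 t p| ∨ M * uu p (y 0 t p) < 1)

/-- E2: uniqueness. -/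
def UniqStmt : Prop :=
  ∀ (T T' : ℝ) (y y' : ℕ → ℝ → ℝ → ℝ), PolarSol T y → PolarSol T' y' →
    (∀ p, y 0 0 p = y' 0 0 p) →
    ∀ t, 0 ≤ t → t < T → t < T' → ∀ m p, y m t p = y' m t p

/-- E3: stability in a smooth family of data `y0 lam p`. -/
def StabStmt : Prop :=
  ∀ y0 : ℝ → ℝ → ℝ, ContDiff ℝ (⊤ : ℕ∞) (fun z : ℝ × ℝ => y0 z.1 z.2) →
    (∀ l p, y0 l (p + 2 * π) = y0 l p) → (∀ l p, y0 l (-p) = y0 l p) →
    ∀ (l0 T : ℝ) (y : ℕ → ℝ → ℝ → ℝ), PolarSol T y → (∀ p, y 0 0 p = y0 l0 p) →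
    ∀ t0 ∈ Ico 0 T, ∀ η > 0, ∃ δ > 0, ∀ l, |l - l0| < δ →
      ∃ T' > t0, ∃ y', PolarSol T' y' ∧ (∀ p, y' 0 0 p = y0 l p) ∧
        ∀ t ∈ Icc 0 t0, ∀ p, |y' 0 t p - y 0 t p| < η

/-- joint smoothness in the interior. -/
def SmoothStmt : Prop :=
  ∀ (T : ℝ) (y : ℕ → ℝ → ℝ → ℝ), PolarSol T y →
    ContDiffOn ℝ (⊤ : ℕ∞) (fun z : ℝ × ℝ => y 0 z.1 z.2) (Ioo 0 T ×ˢ univ)

/-- polar graph solutions are flows. -/
def FlowStmt : Prop :=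
  ∀ (T : ℝ) (y : ℕ → ℝ → ℝ → ℝ), 0 < T → PolarSol T y → (∀ t ∈ Ico 0 T, y 0 t 0 < 0) →
    IsFlow T (flowOf y)

/-! ## geometry: Lagrangian mean curvature flow in `C^n` -/

/-- real inner product on `C^n` -/
noncomputable def ip {n : ℕ} (a b : Fin n → ℂ) : ℝ := ∑ j, (a j * (starRingEnd ℂ) (b j)).re

/-- the symplectic form `<i a, b>` on `C^n` -/
noncomputable def symp {n : ℕ} (a b : Fin n → ℂ) : ℝ := ip (fun j => Complex.I * a j) b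

/-- partial derivative of a map `R^m -> C^n` -/
noncomputable def pd {m n : ℕ} (G : (Fin m → ℝ) → (Fin n → ℂ)) (i : Fin m) (x : Fin m → ℝ) :
    Fin n → ℂ := fderiv ℝ G x (Pi.single i 1)

/-- the induced metric -/
noncomputable def gram {m n : ℕ} (G : (Fin m → ℝ) → (Fin n → ℂ)) (x : Fin m → ℝ) :
    Matrix (Fin m) (Fin m) ℝ := Matrix.of fun i j => ip (pd G i x) (pd G j x)

/-- the second fundamental form: normal part of the second derivative -/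
noncomputable def secFF {m n : ℕ} (G : (Fin m → ℝ) → (Fin n → ℂ)) (i j : Fin m)
    (x : Fin m → ℝ) : Fin n → ℂ :=
  pd (pd G j) i x
    - ∑ k, ∑ l, ((gram G x)⁻¹ k l * ip (pd (pd G j) i x) (pd G k x)) • pd G l x

/-- the mean curvature vector -/
noncomputable def meanCurv {m n : ℕ} (G : (Fin m → ℝ) → (Fin n → ℂ)) (x : Fin m → ℝ) :
    Fin n → ℂ := ∑ i, ∑ j, (gram G x)⁻¹ i j • secFF G i j x

/-- the squared norm of the second fundamental form -/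
noncomputable def normSqA {m n : ℕ} (G : (Fin m → ℝ) → (Fin n → ℂ)) (x : Fin m → ℝ) : ℝ :=
  ∑ i, ∑ j, ∑ k, ∑ l, (gram G x)⁻¹ i k * (gram G x)⁻¹ j l * ip (secFF G i j x) (secFF G k l x)

/-- The final theorem: a Lagrangian mean curvature flow of immersed Lagrangian 3-tori in `C^3`
with `|A|^2 (T-t)` unbounded and bounded mean curvature. -/
def MainStmt : Prop :=
  ∃ (T η : ℝ) (F : ℝ → (Fin 3 → ℝ) → (Fin 3 → ℂ)), 0 < T ∧ 0 < η ∧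
    ContDiffOn ℝ (⊤ : ℕ∞) (fun z : ℝ × (Fin 3 → ℝ) => F z.1 z.2) (Ioo (-η) T ×ˢ univ) ∧
    (∀ t ∈ Ico 0 T, ∀ x, ∀ i, F t (x + Pi.single i (2 * π)) = F t x) ∧
    (∀ t ∈ Ico 0 T, ∀ x, LinearIndependent ℝ fun i => pd (F t) i x) ∧
    (∀ t ∈ Ico 0 T, ∀ x, ∀ i j, symp (pd (F t) i x) (pd (F t) j x) = 0) ∧
    (∀ t ∈ Ico 0 T, ∀ x, HasDerivAt (fun s => F s x) (meanCurv (F t) x) t) ∧
    (∃ C, ∀ t ∈ Ico 0 T, ∀ x, ip (meanCurv (F t) x) (meanCurv (F t) x) ≤ C) ∧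
    (∀ C, ∃ t0 < T, ∀ t ∈ Ico 0 T, t0 < t → ∃ x, C < normSqA (F t) x * (T - t))

/-- GEO: from the curve flow to the theorem. -/
def GeoStmt : Prop :=
  ∀ (T K : ℝ) (y : ℕ → ℝ → ℝ → ℝ), 0 < T → PolarSol T y → (∀ t ∈ Ico 0 T, y 0 t 0 < 0) →
    (∀ t ∈ Ico 0 T, 1 - exp (y 0 t 0) ≤ (K * (T - t)) ^ 3) →
    (∀ t ∈ Ico 0 T, ∀ p ∈ Icc 0 π,
      ((flowOf y).v t p) ^ 2 ≤ K * fS (uu p (y 0 t p))) →
    MainStmt

/-! ## initial data and the pinching barrier -/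

/-- the pinching barrier `e^3 - b rho + 10 e^2 rho^(2/3) + 7 rho^(5/3)` as a function of
`u = rho^2` -/
noncomputable def barr (e b u : ℝ) : ℝ :=
  e ^ 3 - b * √u + 10 * e ^ 2 * u ^ ((1 : ℝ) / 3) + 7 * √u * u ^ ((1 : ℝ) / 3)

/-- the right half of the curve is, near the origin (`rho <= 1/8000`), strictly below an
admissible pinching barrier -/
def Under (W : FlowData) (t e b : ℝ) : Prop :=
  0 < e ∧ 220 * e ≤ b ∧ b ≤ 1 / 1000 ∧ W.Y t 0 < 1 / 8000 ∧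
  ∃ η > 0, ∀ p ∈ Icc 0 π, W.rho t p ≤ 1 / 8000 + η →
    W.Y t p + η ≤ barr e b (W.u t p)

/-- the conditions on the initial curve, at time `0` -/
structure Init (b C3 : ℝ) (W : FlowData) : Prop where
  dle : W.Y 0 0 ≤ 200 * b ^ 3
  hr : ∃ δ > 0, ∀ p ∈ Icc 0 π, δ * W.X 0 p ≤ W.r 0 p
  hom1 : ∀ p ∈ Icc 0 π, 0 ≤ W.om1 0 p
  hom2 : ∃ δ > 0, ∀ p ∈ Icc 0 π, δ * W.X 0 p ≤ W.om2 0 p
  vtip : W.v 0 0 < 0
  vtop : 0 < W.v 0 π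
  hth : ∀ p ∈ Icc 0 π, W.ss 0 p / 10 - 2 * b ≤ W.th 0 p
  hth2 : ∀ p ∈ Icc 0 π, - (2 * b) ≤ W.th 0 p
  dist1 : ∀ p ∈ Icc 0 π, 9 / 20 ≤ W.X 0 p ^ 2 + (W.Y 0 p - 1) ^ 2
  dist2 : ∀ p ∈ Icc 0 π, W.X 0 p ^ 2 + (W.Y 0 p - 1) ^ 2 ≤ 11 / 10
  star : ∀ p ∈ Icc 0 π, 1 / 2 ≤ W.X 0 p * sin (W.th 0 p) + (1 - W.Y 0 p) * cos (W.th 0 p)
  outer : ∀ p ∈ Icc 0 π, 1 / 400 ≤ W.ss 0 p → 0 ≤ W.v 0 p + W.ze 0 p / 20
  inner : ∀ p ∈ Icc 0 π, W.rho 0 p ≤ 1 / 8000 →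
    W.r 0 p / 10 - C3 * (W.Y 0 0) ^ ((2 : ℝ) / 3) ≤ W.v 0 p

/-- time independent jet of a function -/
noncomputable def stat (h : ℝ → ℝ) : ℕ → ℝ → ℝ → ℝ := fun m _ p => iteratedDeriv m h p

/-- INIT: the one-parameter family of initial curves
`Y = a - b rho + rho^(5/3)/10 + rho^2/2`, `a = a0 cos^2(pi l/2) + a1 sin^2(pi l/2)`,
`a0 = b^3/(2 * 440^3)`, `a1 = 150 b^3`. -/
def FamilyStmt : Prop :=
  ∃ C3 > 0, ∃ b1 > 0, ∀ b, 0 < b → b ≤ b1 → ∃ y0 : ℝ → ℝ → ℝ,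
    ContDiff ℝ (⊤ : ℕ∞) (fun z : ℝ × ℝ => y0 z.1 z.2) ∧
    (∀ l p, y0 l (p + 2 * π) = y0 l p) ∧ (∀ l p, y0 l (-p) = y0 l p) ∧
    (∀ l p, 0 < uu p (y0 l p)) ∧ (∀ l, y0 l 0 < 0) ∧
    (∀ l, Init b C3 (flowOf (stat (y0 l)))) ∧
    Under (flowOf (stat (y0 0))) 0 (b / 440) (b / 2) ∧
    (∀ p ∈ Icc 0 π, 150 * b ^ 3 - b * (flowOf (stat (y0 1))).rho 0 p
      ≤ (flowOf (stat (y0 1))).Y 0 p)

end Pool.Agent.Lib.MP_c60e08_gt.Lm
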