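import Pool.Agent.Lib.MP_c60e08_gt.LmFlow2

/-!
MP_c60e08_gt, FLOW part: the family of maximal solutions.
-/

namespace Pool.Agent.Lib.MP_c60e08_gt.Lm

open Real Set Filter Topology

theorem famExStmt (h1 : TipSignStmt) (h2 : InitXStmt) (h3 : UniqStmt → MaxCmpStmt) :
    FamExStmt := by
  intro hMax hUniq hStab hFam hFlow
  obtain ⟨C3, hC3, b1, hb1, hF⟩ := hFam
  refine ⟨C3, hC3, b1, hb1, fun b hb hbb => ?_⟩
  obtain ⟨y0, hsm, hper, heven, hpos, hneg, hinit, hund, hone⟩ := hF b hb hbb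
  have hsl : ∀ l, ContDiff ℝ (⊤ : ℕ∞) (y0 l) := by
    intro l
    have e1 : ContDiff ℝ (⊤ : ℕ∞) (fun p : ℝ => ((l, p) : ℝ × ℝ)) := by fun_prop
    exact hsm.comp e1
  choose Tt hTpos hTle yy hsol hini hmax using
    fun l : ℝ => hMax (y0 l) (hsl l) (hper l) (heven l) (hpos l)
  have hX := fun l : ℝ => h2 (Tt l) (yy l) (y0 l) (hTpos l) (hsol l) (hini l)
  refine ⟨Tt, yy, ⟨hTpos, hTle, hsol, ?_, ?_, hmax, ?_⟩, ?_, ?_⟩
  · intro l
    refine hFlow (Tt l) (yy l) (hTpos l) (hsol l) (h1 (Tt l) (yy l) (hsol l) ?_)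
    rw [hini]
    exact hneg l
  · intro l
    exact (hX l).1 b C3 (hinit l)
  · intro l0 t0 ht0 η hη
    obtain ⟨δ, hδ, hst⟩ := hStab y0 hsm hper heven l0 (Tt l0) (yy l0) (hsol l0) (hini l0) t0 ht0
      η hη
    refine ⟨δ, hδ, fun l hl => ?_⟩
    obtain ⟨T', hT', y', hy', hy0', hclose⟩ := hst l hl
    have hsame : ∀ p, yy l 0 0 p = y' 0 0 p := by
      intro p
      rw [hini, hy0']
    have hlt : t0 < Tt l := by
      rcases h3 hUniq (Tt l) T' (yy l) y' (hTpos l) (hsol l) hy' hsame (hmax l) with h | h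
      · rw [h]
        exact ht0.2.trans_le (hTle l0)
      · exact lt_of_lt_of_le hT' h
    refine ⟨hlt, fun t ht p => ?_⟩
    rw [hUniq (Tt l) T' (yy l) y' (hsol l) hy' hsame t ht.1 (ht.2.trans_lt hlt)
      (ht.2.trans_lt hT') 0 p]
    exact hclose t ht p
  · exact (hX 0).2.1 _ _ hund
  · intro p hp
    have e1 := hone p hp
    rw [((hX 1).2.2 p).1, ((hX 1).2.2 p).2]
    exact e1

end Pool.Agent.Lib.MP_c60e08_gt.Lm
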