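import Pool.Agent.Lib.MP_c60e08_gt.LmDefs

/-!
MP_c60e08_gt, FLOW part, batch 1: maximum principles, identities, Wronskians, the standard
a priori information.  Every module is a `Prop` with its proof in the docstring.
All algebraic identities can be checked by `field_simp; ring` after substituting the definitions
(`f > 0`, `u > 0`, and `r^2 + ze^2 = u` when needed).
-/

namespace Pool.Agent.Lib.MP_c60e08_gt.Lm

open Real Set Filter Topology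

/-- continuity on a space-time rectangle over `[0,π]` -/
def COn (t0 t1 : ℝ) (y : ℝ → ℝ → ℝ) : Prop :=
  ContinuousOn (fun z : ℝ × ℝ => y z.1 z.2) (Icc t0 t1 ×ˢ Icc 0 π)

/-- Module Mp.  Weak maximum principle.  PROOF.  Let `z(t,p) = exp(-(Lam+1) t) y(t,p)` on the
compact rectangle (nonempty).  If `y` is somewhere negative, `z` has a negative minimum at some
`(t,p)`, and `t > t0` by the initial condition.  Then `y(t,p) = min_q y(t,q) < 0`, so there is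
`D` as in the hypothesis and `d/dt z(.,p)` at `t` equals
`exp(-(Lam+1)t) (D - (Lam+1) y) >= exp(..) (-y) > 0`; but `z(s,p) >= z(t,p)` for `s < t` in
`[t0,t1]` forces this derivative to be `<= 0`.  Contradiction. -/
def MpStmt : Prop :=
  ∀ (t0 t1 Lam : ℝ) (y : ℝ → ℝ → ℝ), COn t0 t1 y → (∀ p ∈ Icc 0 π, 0 ≤ y t0 p) →
    (∀ t ∈ Ioc t0 t1, ∀ p ∈ Icc 0 π, y t p < 0 → (∀ q ∈ Icc 0 π, y t p ≤ y t q) →
      ∃ D, HasDerivAt (fun s => y s p) D t ∧ Lam * y t p ≤ D) →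
    ∀ t ∈ Icc t0 t1, ∀ p ∈ Icc 0 π, 0 ≤ y t p

/-- Module MpR.  Weak maximum principle on the region `{R <= 0}`.  PROOF.  Put
`z = min y 0` where `R <= 0` and `z = 0` where `R > 0`.  `z` is continuous on the rectangle
(at points with `R = 0` one has `y >= 0`, hence `min y 0 = 0`).  Apply the proof of `MpStmt` to
`z` (or `MpStmt` itself, given as hypothesis `h`): if `z(t,p) < 0` is the minimum of `z(t,.)`
then `R(t,p) < 0` and `y(t,p) < 0`, these persist for times near `t` (here `t <= t1`; for a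
two sided neighbourhood replace `y` outside `[t0,t1]` or argue with left derivatives), `z = y`
there, and minimality of `z` gives `y(t,p) <= y(t,q)` for `R(t,q) <= 0`.
(Direct proof, probably easier: repeat the proof of `MpStmt` for the minimum of
`exp(-(Lam+1) t) y` over the compact set `{R <= 0}`: at a negative minimum `(t,p)`, `R < 0`,
`t > t0`, and for `s < t` close to `t` the point `(s,p)` is in `{R <= 0}`.) -/
def MpRStmt : Prop :=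
  ∀ (t0 t1 Lam : ℝ) (y R : ℝ → ℝ → ℝ), COn t0 t1 y → COn t0 t1 R →
    (∀ p ∈ Icc 0 π, R t0 p ≤ 0 → 0 ≤ y t0 p) →
    (∀ t ∈ Icc t0 t1, ∀ p ∈ Icc 0 π, R t p = 0 → 0 ≤ y t p) →
    (∀ t ∈ Ioc t0 t1, ∀ p ∈ Icc 0 π, R t p < 0 → y t p < 0 →
      (∀ q ∈ Icc 0 π, R t q ≤ 0 → y t p ≤ y t q) →
      ∃ D, HasDerivAt (fun s => y s p) D t ∧ Lam * y t p ≤ D) →
    ∀ t ∈ Icc t0 t1, ∀ p ∈ Icc 0 π, R t p ≤ 0 → 0 ≤ y t p

/-- Module MpS.  Strict first touch principle on the region `{R <= 0}`.  PROOF.  If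
`y(t,p) <= 0` for some point of the compact set `K = {(t,p) : R <= 0}`, take such a point with
the smallest `t` (the set `K ∩ {y <= 0}` is compact).  `t > t0`; `R(t,p) < 0` since `y > 0`
where `R = 0`.  For every `q` with `R(t,q) <= 0`: `y(t,q) >= 0` (if `R(t,q) < 0` then
`(s,q)` is in `K` for `s < t` near `t`, where `y(s,q) > 0`; let `s -> t`).  So `y(t,p) = 0`, the
hypothesis gives a derivative `D > 0`, but `y(s,p) > 0 = y(t,p)` for `s < t` near `t`. -/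
def MpSStmt : Prop :=
  ∀ (t0 t1 : ℝ) (y R : ℝ → ℝ → ℝ), COn t0 t1 y → COn t0 t1 R →
    (∀ p ∈ Icc 0 π, R t0 p ≤ 0 → 0 < y t0 p) →
    (∀ t ∈ Icc t0 t1, ∀ p ∈ Icc 0 π, R t p = 0 → 0 < y t p) →
    (∀ t ∈ Ioc t0 t1, ∀ p ∈ Icc 0 π, R t p < 0 → y t p = 0 →
      (∀ q ∈ Icc 0 π, R t q ≤ 0 → 0 ≤ y t q) →
      ∃ D, HasDerivAt (fun s => y s p) D t ∧ 0 < D) →
    ∀ t ∈ Icc t0 t1, ∀ p ∈ Icc 0 π, R t p ≤ 0 → 0 < y t p

/-- Module Mins.  Second order conditions at a minimum, for `f' = g k`, `g > 0`.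
PROOF.  (a) `f'(p) = 0` gives `k p = 0`.  If `k2 < 0` then `k < 0` just to the right of `p`
(`k' (p) = g p * k2 < 0`, `k p = 0`), so `f' < 0` there and `f` is strictly decreasing just to the
right of `p`, contradicting the minimum.  (b), (c): the same, one sided (in (c) `k > 0` just to
the left of `π`, `f` strictly increasing there). -/
def MinsStmt : Prop :=
  (∀ (f g k : ℝ → ℝ) (p k2 : ℝ), (∀ q, 0 < g q) → (∀ q, HasDerivAt f (g q * k q) q) →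
    HasDerivAt k (g p * k2) p → IsLocalMin f p → k p = 0 ∧ 0 ≤ k2) ∧
  (∀ (f g k : ℝ → ℝ) (p k2 : ℝ), (∀ q, 0 < g q) → (∀ q, HasDerivAt f (g q * k q) q) →
    HasDerivAt k (g p * k2) p → k p = 0 → (∀ᶠ q in 𝓝[>] p, f p ≤ f q) → 0 ≤ k2) ∧
  (∀ (f g k : ℝ → ℝ) (p k2 : ℝ), (∀ q, 0 < g q) → (∀ q, HasDerivAt f (g q * k q) q) →
    HasDerivAt k (g p * k2) p → k p = 0 → (∀ᶠ q in 𝓝[<] p, f p ≤ f q) → 0 ≤ k2)

namespace FlowData

variable (W : FlowData)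

/-- `kappa_s` -/
noncomputable def kap1 (t p : ℝ) : ℝ := (W.v1 t p - W.fs t p * W.kap t p) / W.f t p

/-- `f_ss` -/
noncomputable def fss (t p : ℝ) : ℝ :=
  4 / 3 * (W.fs t p * W.r t p / W.u t p + W.f t p * (1 + W.kap t p * W.ze t p) / W.u t p
    - 2 * W.f t p * W.r t p ^ 2 / W.u t p ^ 2)

/-- `kappa_ss` -/
noncomputable def kap2 (t p : ℝ) : ℝ :=
  (W.v2 t p - W.fss t p * W.kap t p - 2 * W.fs t p * W.kap1 t p) / W.f t p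

/-- `r_s` -/
noncomputable def r1 (t p : ℝ) : ℝ := 1 + W.kap t p * W.ze t p

/-- `r_ss` -/
noncomputable def r2 (t p : ℝ) : ℝ := W.kap1 t p * W.ze t p - W.kap t p ^ 2 * W.r t p

/-- `r_sss` -/
noncomputable def r3 (t p : ℝ) : ℝ :=
  W.kap2 t p * W.ze t p - 3 * W.kap t p * W.kap1 t p * W.r t p
    - W.kap t p ^ 2 * (1 + W.kap t p * W.ze t p)

/-- `zeta_s` -/
noncomputable def z1 (t p : ℝ) : ℝ := - (W.kap t p * W.r t p)

/-- `zeta_ss` -/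
noncomputable def z2 (t p : ℝ) : ℝ :=
  - (W.kap1 t p * W.r t p + W.kap t p * (1 + W.kap t p * W.ze t p))

/-- `zeta_sss` -/
noncomputable def z3 (t p : ℝ) : ℝ :=
  - (W.kap2 t p * W.r t p + 2 * W.kap1 t p * (1 + W.kap t p * W.ze t p)
    + W.kap t p * (W.kap1 t p * W.ze t p - W.kap t p ^ 2 * W.r t p))

end FlowData

/-- Module Id.  Basic identities.  PROOF.  Product and chain rules from the fields of
`IsFlow`.  `u = X^2+Y^2`, `u_p = 2 g (X cos + Y sin) = 2 g r`; `r_p`, `ze_p` from `th_p = g kap`;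
`f = 3 u^(2/3)`, so `f_p = 3 (2/3) u^(-1/3) u_p = g (4/3) f r/u`; `ss = u^(1/3)`,
`ss_p = (1/3) u^(-2/3) 2 g r = g (2 r / f)`; `kap = v/f`.  In time, with `X_t = -v sin + lam cos`,
`Y_t = v cos + lam sin`, `th_t = v1 + lam kap`: `u_t = 2 v ze + 2 lam r`, etc.
`kap_t = v_t/f - v f_t/f^2` with `v_t = f v2 + C0 v + lam v1`, `f_t = (4/3) f ze v/u + lam fs`
gives `v2 + kap^2 v + lam kap1`.  `rho^2 = u`, `ss^3 = u`, `f = 3 ss^2` (`Real.rpow` rules). -/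
def IdStmt : Prop := ∀ (T : ℝ) (W : FlowData), IsFlow T W →
  (∀ t ∈ Ico 0 T, ∀ p,
    W.r t p ^ 2 + W.ze t p ^ 2 = W.u t p ∧ W.f t p = 3 * W.ss t p ^ 2 ∧ 0 < W.f t p ∧
    0 < W.ss t p ∧ 0 < W.rho t p ∧ W.rho t p ^ 2 = W.u t p ∧ W.ss t p ^ 3 = W.u t p ∧
    W.rho t p ^ 2 = W.ss t p ^ 3 ∧ |W.r t p| ≤ W.rho t p ∧ |W.ze t p| ≤ W.rho t p ∧
    |W.X t p| ≤ W.rho t p ∧ |W.Y t p| ≤ W.rho t p ∧
    HasDerivAt (W.u t) (W.g t p * (2 * W.r t p)) p ∧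
    HasDerivAt (W.r t) (W.g t p * W.r1 t p) p ∧
    HasDerivAt (W.ze t) (W.g t p * W.z1 t p) p ∧
    HasDerivAt (W.f t) (W.g t p * W.fs t p) p ∧
    HasDerivAt (W.ss t) (W.g t p * (2 * W.r t p / W.f t p)) p ∧
    HasDerivAt (W.rho t) (W.g t p * (W.r t p / W.rho t p)) p ∧
    HasDerivAt (W.kap t) (W.g t p * W.kap1 t p) p ∧
    HasDerivAt (W.r1 t) (W.g t p * W.r2 t p) p ∧
    HasDerivAt (W.z1 t) (W.g t p * W.z2 t p) p) ∧
  (∀ t ∈ Ioo 0 T, ∀ p,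
    HasDerivAt (fun s => W.u s p) (2 * W.ze t p * W.v t p + W.lam t p * (2 * W.r t p)) t ∧
    HasDerivAt (fun s => W.r s p) (W.v1 t p * W.ze t p + W.lam t p * W.r1 t p) t ∧
    HasDerivAt (fun s => W.ze s p)
      (W.v t p - W.v1 t p * W.r t p + W.lam t p * W.z1 t p) t ∧
    HasDerivAt (fun s => W.f s p)
      (4 / 3 * W.f t p * W.ze t p * W.v t p / W.u t p + W.lam t p * W.fs t p) t ∧
    HasDerivAt (fun s => W.ss s p)
      (2 * W.ze t p * W.v t p / W.f t p + W.lam t p * (2 * W.r t p / W.f t p)) t ∧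
    HasDerivAt (fun s => W.rho s p)
      (W.ze t p * W.v t p / W.rho t p + W.lam t p * (W.r t p / W.rho t p)) t ∧
    HasDerivAt (fun s => W.kap s p)
      (W.v2 t p + W.kap t p ^ 2 * W.v t p + W.lam t p * W.kap1 t p) t)

/-- Module IdC.  Continuity of the derived quantities on `[0,T) x R`.  PROOF.  Compositions
and quotients; `u > 0`, `f > 0`. -/
def IdCStmt : Prop := ∀ (T : ℝ) (W : FlowData), IsFlow T W →
  ∀ F ∈ [W.u, W.rho, W.ss, W.f, W.kap, W.r, W.ze, W.fs, W.C0, W.C1, W.om1, W.om2,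
    W.kap1, W.fss, W.kap2, W.r1, W.r2, W.r3, W.z1, W.z2, W.z3],
    ContinuousOn (fun z : ℝ × ℝ => F z.1 z.2) (Ico 0 T ×ˢ univ)

/-- Module IdR.  The evolution of `r` and `r1` in the form used by the Wronskian lemmas.
PROOF.  `f r2 + C0 r = v1 ze` is an algebraic identity (`f kap1 = v1 - fs kap`), so the first
time derivative is the one of `IdStmt`.  `(r2)_p = g r3` by the product rule with
`(kap1)_p = g kap2` (differentiate `f kap1 = v1 - fs kap`; `(fs)_p = g fss`).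
`(r1)_t = (kap ze)_t = kap_t ze + kap ze_t` by `IdStmt`; the claimed formula is
`v2 ze + v1 z1 + (v^2/f) r1 + lam r2`-type: indeed `f r3 + fs r2 + C0 r1 + C1 r` is the arclength
derivative of `f r2 + C0 r = v1 ze`, i.e. `v2 ze + v1 z1`; so the claim is
`kap_t ze + kap ze_t = v2 ze + v1 z1 + (v^2/f) r1 + lam r2`, an algebraic identity
(`r^2+ze^2=u` is not needed). -/
def IdRStmt : Prop := ∀ (T : ℝ) (W : FlowData), IsFlow T W →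
  (∀ t ∈ Ico 0 T, ∀ p, HasDerivAt (W.kap1 t) (W.g t p * W.kap2 t p) p ∧
    HasDerivAt (W.fs t) (W.g t p * W.fss t p) p ∧
    HasDerivAt (W.r2 t) (W.g t p * W.r3 t p) p) ∧
  (∀ t ∈ Ioo 0 T, ∀ p,
    HasDerivAt (fun s => W.r s p)
      (W.f t p * W.r2 t p + W.C0 t p * W.r t p + W.lam t p * W.r1 t p) t ∧
    HasDerivAt (fun s => W.r1 s p)
      (W.f t p * W.r3 t p + W.fs t p * W.r2 t p + W.C0 t p * W.r1 t p + W.C1 t p * W.r t p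
        + W.v t p ^ 2 / W.f t p * W.r1 t p + W.lam t p * W.r2 t p) t)

/-- Module IdZ.  The same for `ze`, with the extra term `(2/3) v`.  PROOF.
`f z2 + C0 ze + (2/3) v = v - v1 r` (algebra, uses `r^2+ze^2 = u`), which is the time derivative
of `IdStmt`; `(z2)_p = g z3` by the product rule; `f z3 + fs z2 + C0 z1 + C1 ze + (2/3) v1` is the
arclength derivative of `v - v1 r`, i.e. `v1 - v2 r - v1 r1`, and
`(z1)_t = -(kap_t r + kap r_t)` equals this plus `(v^2/f) z1 + lam z2` (algebra). -/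
def IdZStmt : Prop := ∀ (T : ℝ) (W : FlowData), IsFlow T W →
  (∀ t ∈ Ico 0 T, ∀ p, HasDerivAt (W.z2 t) (W.g t p * W.z3 t p) p) ∧
  (∀ t ∈ Ioo 0 T, ∀ p,
    HasDerivAt (fun s => W.ze s p)
      (W.f t p * W.z2 t p + W.C0 t p * W.ze t p + 2 / 3 * W.v t p + W.lam t p * W.z1 t p) t ∧
    HasDerivAt (fun s => W.z1 s p)
      (W.f t p * W.z3 t p + W.fs t p * W.z2 t p + W.C0 t p * W.z1 t p + W.C1 t p * W.ze t p
        + W.v t p ^ 2 / W.f t p * W.z1 t p + 2 / 3 * W.v1 t p + W.lam t p * W.z2 t p) t)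

/-- Hypotheses of the Wronskian lemmas: `y_t = f y_ss + C y + lam y_s`,
`z_t = f z_ss + C z + c y + lam z_s` and the differentiated equations. -/
structure Wr (t1 c : ℝ) (g lam f fs C C1 K y0 y1 y2 y3 z0 z1 z2 z3 : ℝ → ℝ → ℝ) : Prop where
  ht : 0 ≤ t1
  cc : ∀ F ∈ [g, f, fs, C, K, y0, y1, y2, z0, z1, z2], COn 0 t1 F
  gpos : ∀ t ∈ Icc 0 t1, ∀ p, 0 < g t p
  fpos : ∀ t ∈ Icc 0 t1, ∀ p, 0 < f t p
  dy0 : ∀ t ∈ Icc 0 t1, ∀ p, HasDerivAt (y0 t) (g t p * y1 t p) p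
  dy1 : ∀ t ∈ Icc 0 t1, ∀ p, HasDerivAt (y1 t) (g t p * y2 t p) p
  dy2 : ∀ t ∈ Icc 0 t1, ∀ p, HasDerivAt (y2 t) (g t p * y3 t p) p
  dz0 : ∀ t ∈ Icc 0 t1, ∀ p, HasDerivAt (z0 t) (g t p * z1 t p) p
  dz1 : ∀ t ∈ Icc 0 t1, ∀ p, HasDerivAt (z1 t) (g t p * z2 t p) p
  dz2 : ∀ t ∈ Icc 0 t1, ∀ p, HasDerivAt (z2 t) (g t p * z3 t p) p
  ty0 : ∀ t ∈ Ioc 0 t1, ∀ p, HasDerivAt (fun s => y0 s p)
    (f t p * y2 t p + C t p * y0 t p + lam t p * y1 t p) t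
  ty1 : ∀ t ∈ Ioc 0 t1, ∀ p, HasDerivAt (fun s => y1 s p)
    (f t p * y3 t p + fs t p * y2 t p + C t p * y1 t p + C1 t p * y0 t p
      + K t p * y1 t p + lam t p * y2 t p) t
  tz0 : ∀ t ∈ Ioc 0 t1, ∀ p, HasDerivAt (fun s => z0 s p)
    (f t p * z2 t p + C t p * z0 t p + c * y0 t p + lam t p * z1 t p) t
  tz1 : ∀ t ∈ Ioc 0 t1, ∀ p, HasDerivAt (fun s => z1 s p)
    (f t p * z3 t p + fs t p * z2 t p + C t p * z1 t p + C1 t p * z0 t p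
      + K t p * z1 t p + c * y1 t p + lam t p * z2 t p) t
  nocommon : ∀ t ∈ Icc 0 t1, ∀ p ∈ Icc 0 π, y0 t p ≠ 0 ∨ z0 t p ≠ 0
  ends : ∀ t ∈ Icc 0 t1, 0 ≤ y1 t 0 * z0 t 0 - y0 t 0 * z1 t 0 ∧
    0 ≤ y1 t π * z0 t π - y0 t π * z1 t π

/-- Module WronW.  The Wronskian `om = y1 z0 - y0 z1` stays nonnegative.  PROOF.
`om_p = g (y2 z0 - y0 z2) =: g om_s`, `(om_s)_p = g (y3 z0 + y2 z1 - y1 z2 - y0 z3) =: g om_ss`, and
(the `c` terms and the `C1` terms cancel)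
`om_t = f om_ss + fs om_s + lam om_s + (2C+K) om + 2 f (y1 z2 - y2 z1)`.
By compactness there is `a > 0` with `max |y0| |z0| >= a` on the rectangle.  Apply `MpStmt` with
`Lam >= sup (|2C+K| + 2 f (|y2| + |z2|)/a)`.  At a negative minimum over `[0,π]`, `p` is interior
(by `ends`), so `om_s = 0` and `om_ss >= 0` (`MinsStmt`), i.e. `y2 z0 = y0 z2`.  If `|y0| >= a` then
`y1 z2 - y2 z1 = (y2/y0) om`; if `|z0| >= a` then `y1 z2 - y2 z1 = (z2/z0) om`.  Hence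
`om_t >= (coefficient <= Lam) * om >= Lam om` as `om < 0`. -/
def WronWStmt : Prop :=
  ∀ (t1 c : ℝ) (g lam f fs C C1 K y0 y1 y2 y3 z0 z1 z2 z3 : ℝ → ℝ → ℝ),
    Wr t1 c g lam f fs C C1 K y0 y1 y2 y3 z0 z1 z2 z3 →
    (∀ p ∈ Icc 0 π, 0 ≤ y1 0 p * z0 0 p - y0 0 p * z1 0 p) →
    ∀ t ∈ Icc 0 t1, ∀ p ∈ Icc 0 π, 0 ≤ y1 t p * z0 t p - y0 t p * z1 t p

/-- Module WronS.  Strict version.  `X0` satisfies `X_t = f X_ss + lam X_s` (here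
`X0_p = g X1`, `X1_p = g X2`), is comparable to `sin p`, and `y1, z1` vanish at both ends,
`|fs| <= Cf X0`.  PROOF.  Let `om` be as in WronW; `y = om - d exp(-A t) X0`, `d` the initial
constant, `A` large.  `y >= 0` at `t = 0` and at the ends.  At a negative interior minimum:
`y_s = 0`, `y_ss >= 0`, so `om_s = d e^{-At} X1`, and in general (no assumption on `om_s`)
if `y0 <> 0`: `y1 z2 - y2 z1 = (y2/y0) om - (y1/y0) om_s` (because `z2 = (y2 z0 - om_s)/y0`), and if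
`z0 <> 0`: `y1 z2 - y2 z1 = (z2/z0) om - (z1/z0) om_s`.  So
`y_t = om_t + A d e^{-At} X0 - d e^{-At}(f X2 + lam X1)
 = f y_ss + lam y_s + (fs - 2 f y1/y0) om_s + (2C+K+2 f y2/y0) om + A d e^{-At} X0`
(or with `z`).  `|y1|, |z1| <= const * X0`: they vanish at `0` and `π` and have bounded
`p`-derivative, so `|y1| <= B min(p, π-p) <= (π/2) B sin p <= const X0`.  Hence
`|fs - 2 f y1/y0| |X1| <= C1 X0`, and `y_t >= -C1 d e^{-At}X0 + coef (y + d e^{-At}X0) + A d e^{-At} X0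
>= C2 y` if `A >= C1 + C2`, where `|coef| <= C2`.  `MpStmt` gives `y >= 0`; take
`d' = d exp(-A t1)`. -/
def WronSStmt : Prop :=
  ∀ (t1 c Cf : ℝ) (g lam f fs C C1 K y0 y1 y2 y3 z0 z1 z2 z3 X0 X1 X2 : ℝ → ℝ → ℝ),
    Wr t1 c g lam f fs C C1 K y0 y1 y2 y3 z0 z1 z2 z3 →
    COn 0 t1 X0 →
    (∀ t ∈ Icc 0 t1, ∀ p, HasDerivAt (X0 t) (g t p * X1 t p) p) →
    (∀ t ∈ Icc 0 t1, ∀ p, HasDerivAt (X1 t) (g t p * X2 t p) p) →
    (∀ t ∈ Ioc 0 t1, ∀ p, HasDerivAt (fun s => X0 s p) (f t p * X2 t p + lam t p * X1 t p) t) →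
    (∀ t ∈ Icc 0 t1, ∀ p, |X1 t p| ≤ 1) →
    (∃ a > 0, ∀ t ∈ Icc 0 t1, ∀ p ∈ Icc 0 π, a * sin p ≤ X0 t p) →
    (∀ t ∈ Icc 0 t1, X0 t 0 = 0 ∧ X0 t π = 0 ∧ y1 t 0 = 0 ∧ y1 t π = 0 ∧ z1 t 0 = 0 ∧
      z1 t π = 0) →
    (∀ t ∈ Icc 0 t1, ∀ p ∈ Icc 0 π, |fs t p| ≤ Cf * X0 t p) →
    (∃ d > 0, ∀ p ∈ Icc 0 π, d * X0 0 p ≤ y1 0 p * z0 0 p - y0 0 p * z1 0 p) →
    ∃ d > 0, ∀ t ∈ Icc 0 t1, ∀ p ∈ Icc 0 π, d * X0 t p ≤ y1 t p * z0 t p - y0 t p * z1 t p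

/-- Module Xlow.  `X` is comparable to `sin p`, and `fs`, `r` are `O(X)`.  PROOF.  First part:
`X_p = g cos th` is continuous, equal to `g > 0` at `p = 0` and `-g < 0` at `p = π`; by compactness
there are `η, a > 0` with `X_p >= a` for `p <= η` and `X_p <= -a` for `p >= π - η` (all
`t ∈ [0,t1]`), so `X >= a p >= a sin p` resp. `X >= a (π - p) >= a sin p`; on
`[η, π-η]` use `X > 0` and compactness.  Second part: `|r| <= Cr min(p, π-p)` since `r` vanishes at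
both ends (`X = 0`, `sin th = 0`) and `r_p = g r1` is bounded; `fs = (4/3) f r/u`. -/
def XlowStmt : Prop := ∀ (T : ℝ) (W : FlowData), IsFlow T W → ∀ t1 ∈ Ico 0 T,
  (∃ a > 0, ∀ t ∈ Icc 0 t1, ∀ p ∈ Icc 0 π, a * sin p ≤ W.X t p) ∧
  (∃ Cf > 0, ∀ t ∈ Icc 0 t1, ∀ p ∈ Icc 0 π, |W.fs t p| ≤ Cf * W.X t p ∧
    |W.r t p| ≤ Cf * W.X t p)

/-- Module Rpos.  `r >= δ X` is preserved (with a smaller `δ`).  PROOF.  `y = r - δ e^{-At} X`,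
`A >= sup |C0|`.  `y = 0` at the ends.  By IdR, `r_t = f r2 + C0 r + lam r1`, and
`X_t = -v sin th + lam cos th = f X_ss + lam X_s` (`X_s = cos th`, `X_ss = - kap sin th`).  At a
negative interior minimum `y_s = 0`, `y_ss >= 0`:
`y_t >= C0 r + A δ e^{-At} X = C0 y + (C0 + A) δ e^{-At} X >= C0 y >= A y`.  MpStmt.
The statements at the ends: `r - δ X` vanishes at `p = 0` and is `>= 0` to the right, so its
derivative `g (r1 - δ)` is `>= 0`; at `π` the derivative `g (r1 + δ)` is `<= 0`. -/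
def RposStmt : Prop := ∀ (T : ℝ) (W : FlowData), IsFlow T W →
  (∃ δ > 0, ∀ p ∈ Icc 0 π, δ * W.X 0 p ≤ W.r 0 p) → ∀ t1 ∈ Ico 0 T,
  ∃ δ > 0, ∀ t ∈ Icc 0 t1, (∀ p ∈ Icc 0 π, δ * W.X t p ≤ W.r t p) ∧
    δ ≤ W.r1 t 0 ∧ W.r1 t π ≤ -δ

/-- Module S4.  `om1 >= 0` is preserved as long as `v(tip) < 0 < v(top)`.  PROOF.  WronWStmt
with `c = 0`, `(y,z) = (v,r)`, `K = v^2/f`.  No common zeros: `r >= δ X > 0` inside, `v <> 0` at
the ends.  Ends: `r = 0` there, so the Wronskian is `-v r1`, which is positive by RposStmt. -/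
def S4Stmt : Prop := ∀ (T : ℝ) (W : FlowData), IsFlow T W →
  (∃ δ > 0, ∀ p ∈ Icc 0 π, δ * W.X 0 p ≤ W.r 0 p) → (∀ p ∈ Icc 0 π, 0 ≤ W.om1 0 p) →
  ∀ t1 ∈ Ico 0 T, (∀ t ∈ Icc 0 t1, W.v t 0 < 0 ∧ 0 < W.v t π) →
  ∀ t ∈ Icc 0 t1, ∀ p ∈ Icc 0 π, 0 ≤ W.om1 t p

/-- Module NoCommon (fixed time).  Where `v <= 0` (an initial interval), `v` is `<= 0` before
and `zeta` is nondecreasing.  PROOF.  On `(0,π)`, `r > 0` and `(v/r)_p = g om1/r^2 >= 0`, so `v/r`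
is nondecreasing; if `v(p) <= 0` then `v(q) <= 0` for `q ∈ (0,p]`, and for `q = 0` by continuity.
Then `ze_p = -g kap r >= 0` on `[0,p]`.  Finally `ze t 0 = Y t 0`. -/
def NoCommonStmt : Prop := ∀ (T : ℝ) (W : FlowData), IsFlow T W → ∀ t ∈ Ico 0 T,
  (∀ p ∈ Ioo 0 π, 0 < W.r t p) → (∀ p ∈ Icc 0 π, 0 ≤ W.om1 t p) →
  ∀ p ∈ Ico 0 π, W.v t p ≤ 0 →
    (∀ q ∈ Icc 0 p, W.v t q ≤ 0 ∧ W.ze t q ≤ W.ze t p ∧ W.Y t 0 ≤ W.ze t q)

/-- Module S2.  `om2 >= δ X` is preserved.  PROOF.  WronSStmt with `c = 2/3`,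
`(y,z) = (v,ze)`, `K = v^2/f`, `X0 = X`, `X1 = cos th`, `X2 = - kap sin th`.  No common zeros: if
`v(p) = 0` and `p < π`, NoCommonStmt gives `ze(p) >= Y(t,0) > 0`; at `π`, `v > 0`.  Both
Wronskian ends vanish (`v1 = 0`, `z1 = - kap r = 0`). -/
def S2Stmt : Prop := ∀ (T : ℝ) (W : FlowData), IsFlow T W → ∀ t1 ∈ Ico 0 T,
  (∀ t ∈ Icc 0 t1, (∀ p ∈ Ioo 0 π, 0 < W.r t p) ∧ (∀ p ∈ Icc 0 π, 0 ≤ W.om1 t p) ∧
    0 < W.v t π) →
  (∃ δ > 0, ∀ p ∈ Icc 0 π, δ * W.X 0 p ≤ W.om2 0 p) →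
  ∃ δ > 0, ∀ t ∈ Icc 0 t1, ∀ p ∈ Icc 0 π, δ * W.X t p ≤ W.om2 t p

/-- Module Tip (fixed time).  PROOF.  `om2 - δ X` vanishes at `p = 0` and is `>= 0` on
`[0,π]`, so its derivative at `0` is `>= 0`.  With `v1 = 0`, `r = 0`, `ze = d := Y t 0`, `u = d^2`
at `p = 0`: the derivative of `om2 = v1 ze + v kap r` is `g (v2 d + v kap r1)` with
`r1 = 1 + kap d`, that of `X` is `g`.  So `v2 d + (v^2/f)(1 + v d/f) >= δ`.  Then
`f v2 + C0 v >= δ f/d - v^2/d - v^3/f + v^3/f + (4/3) v^2/d = δ f/d + v^2/(3d)`. -/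
def TipStmt : Prop := ∀ (T : ℝ) (W : FlowData), IsFlow T W → ∀ t ∈ Ico 0 T, ∀ δ ≥ 0,
  (∀ p ∈ Icc 0 π, δ * W.X t p ≤ W.om2 t p) →
  δ * W.f t 0 / W.Y t 0 + W.v t 0 ^ 2 / (3 * W.Y t 0) ≤ W.f t 0 * W.v2 t 0 + W.C0 t 0 * W.v t 0

/-- Module Turn.  When the tip velocity vanishes (with `om2 >= δ X`, `δ > 0`), the tip moves up
afterwards.  PROOF.  By TipStmt the time derivative of `v(.,0)` at `t0`, which is
`f v2 + C0 v` (`lam = 0` at the tip), is `>= δ f/d > 0`, so `v(t,0) > 0` on some `(t0,t2]`, and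
`d/dt Y(t,0) = v(t,0)` (`th = 0`, `lam = 0`), so `Y(t2,0) > Y(t0,0)` (mean value theorem). -/
def TurnStmt : Prop := ∀ (T : ℝ) (W : FlowData), IsFlow T W → ∀ t0 ∈ Ioo 0 T, ∀ δ > 0,
  W.v t0 0 = 0 → (∀ p ∈ Icc 0 π, δ * W.X t0 p ≤ W.om2 t0 p) →
  ∃ t2 ∈ Ioo t0 T, W.Y t0 0 < W.Y t2 0

/-- Module Conv.  Convexity is preserved.  PROOF.  For `t1 < T` apply MpStmt to `y = v` on
`[t0,t1]`, `Lam = sup |C0|`: at a negative minimum, `v1 = 0` and `v2 >= 0` (interior: MinsStmt (a);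
ends: `v1 = 0` there by hypothesis and MinsStmt (b),(c)), so
`v_t = f v2 + C0 v + lam v1 >= C0 v >= Lam v`. -/
def ConvStmt : Prop := ∀ (T : ℝ) (W : FlowData), IsFlow T W → ∀ t0 ∈ Ico 0 T,
  (∀ p ∈ Icc 0 π, 0 ≤ W.v t0 p) → ∀ t ∈ Ico t0 T, ∀ p ∈ Icc 0 π, 0 ≤ W.v t p

/-- Module Vnn (fixed time).  PROOF.  Let `v(0) = 0`.  Suppose `v(p) < 0`, `p ∈ (0,π)`
(for `p = π` use continuity).  `v/r` is nondecreasing on `(0,π)`, so `v(q) <= -c r(q) <= -c δ X(q)`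
for `0 < q <= p`, `c = -v(p)/r(p) > 0`.  At `q = 0` both sides vanish, so comparing derivatives at
`0`: `g v1 = 0 <= -c δ g < 0`, contradiction. -/
def VnnStmt : Prop := ∀ (T : ℝ) (W : FlowData), IsFlow T W → ∀ t ∈ Ico 0 T, ∀ δ > 0,
  (∀ p ∈ Icc 0 π, δ * W.X t p ≤ W.r t p) → (∀ p ∈ Icc 0 π, 0 ≤ W.om1 t p) → W.v t 0 = 0 →
  ∀ p ∈ Icc 0 π, 0 ≤ W.v t p

/-- Module ThLow.  Lower bound for the tangent angle.  PROOF.  For `t1 < T` apply MpStmt to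
`y = th + c`, `Lam = 0`.  Ends: `c >= 0`, `π + c >= 0`.  At an interior negative minimum `kap = 0`
and `kap1 >= 0` (MinsStmt (a), `th_p = g kap`, `kap_p = g kap1`), where `kap1 = v1/f` since
`kap = 0`; so `th_t = v1 + lam kap = f kap1 >= 0`. -/
def ThLowStmt : Prop := ∀ (T : ℝ) (W : FlowData), IsFlow T W → ∀ c ≥ 0,
  (∀ p ∈ Icc 0 π, -c ≤ W.th 0 p) → ∀ t ∈ Ico 0 T, ∀ p ∈ Icc 0 π, -c ≤ W.th t p

/-- Module Lbt.  The lower barrier `B s - B2 + 2 B t` for the angle.  PROOF.  MpStmt for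
`y = th - B s + B2 - 2 B t`, `Lam = 0`, on `[0,t1]`.  `y_p = g (kap - 2 B r/f) =: g k`,
`k_p = g (kap1 - 2B (r1/f - r fs/f^2))`.  At an interior negative minimum `kap = 2 B r/f` and
`kap1 >= 2B (r1/f - r fs/f^2)`.  `y_t = v1 + lam kap - B (2 ze v/f + 2 lam r/f) - 2B
 = v1 - 2 B ze v/f - 2B` (using `kap = 2Br/f`).  With `v1 = f kap1 + fs kap`:
`y_t >= 2B(r1 - r fs/f) + fs kap - 2B ze kap - 2B = 2B (r1 - ze kap - 1) - 2B r fs/f + fs kap = 0`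
(`r1 = 1 + kap ze`, `kap = 2 B r/f`).  At `p = 0`: `y = -B s(t,0) + B2 - 2Bt >= 0` by hypothesis;
at `π`: `y = π - B s(t,π) + B2 - 2 B t >= 0`. -/
def LbtStmt : Prop := ∀ (T : ℝ) (W : FlowData), IsFlow T W → ∀ B > 0, ∀ B2 : ℝ, ∀ t1 ∈ Ico 0 T,
  (∀ p ∈ Icc 0 π, B * W.ss 0 p - B2 ≤ W.th 0 p) →
  (∀ t ∈ Icc 0 t1, B * W.ss t 0 + 2 * B * t ≤ B2 ∧ B * W.ss t π ≤ 3) →
  ∀ t ∈ Icc 0 t1, ∀ p ∈ Icc 0 π, B * W.ss t p - B2 + 2 * B * t ≤ W.th t p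

/-- Module THat.  As long as `v(tip) < 0` the barrier of Lbt stays above the tip value; in
particular the time is at most `B2/(2B)`.  PROOF.  Suppose `φ(t) = B s(t,0) + 2 B t - B2 >= 0` for
some `t < t1`... let `t*` be the first zero of the continuous function `φ` (`φ(0) < 0`).  By
LbtStmt on `[0,t*]`: `y(t*,.) >= 0` and `y(t*,0) = 0` for `y = th - B s + B2 - 2Bt`, so
`y_p(t*,0) >= 0`, i.e. `g (kap - 2 B r/f) = g kap >= 0` (`r = 0` at the tip), so `v(t*,0) >= 0`.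
Contradiction. -/
def THatStmt : Prop := ∀ (T : ℝ) (W : FlowData), IsFlow T W → ∀ B > 0, ∀ B2 : ℝ, ∀ t1 ∈ Ico 0 T,
  (∀ p ∈ Icc 0 π, B * W.ss 0 p - B2 ≤ W.th 0 p) → B * W.ss 0 0 < B2 →
  (∀ t ∈ Icc 0 t1, B * W.ss t π ≤ 3) → (∀ t ∈ Ico 0 t1, W.v t 0 < 0) →
  (∀ t ∈ Ico 0 t1, B * W.ss t 0 + 2 * B * t < B2) ∧
  (∀ t ∈ Icc 0 t1, ∀ p ∈ Icc 0 π, B * W.ss t p - B2 + 2 * B * t ≤ W.th t p)

/-- Module Cvx (fixed time).  Convexity of `th` as a function of `s`.  PROOF.  `s_p = 2 g r/f >= 0`.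
For `0 < p`: `F(x) = 2 th(x) - (v/r)(p) s(x)` has derivative
`g (2 kap - (v/r)(p) 2 r/f)(x) = (2 g r/f)(x) ((v/r)(x) - (v/r)(p)) >= 0` for `x ∈ [p,π)`, as `v/r`
is nondecreasing on `(0,π)`; integrate over `[p,q]` (for `q = π` by continuity).  Similarly with
`(v/r)(q)`, derivative `<= 0` on `(0,q]`. -/
def CvxStmt : Prop := ∀ (T : ℝ) (W : FlowData), IsFlow T W → ∀ t ∈ Ico 0 T,
  (∀ p ∈ Ioo 0 π, 0 < W.r t p) → (∀ p ∈ Icc 0 π, 0 ≤ W.om1 t p) →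
  (∀ p ∈ Icc 0 π, ∀ q ∈ Icc 0 π, p ≤ q → W.ss t p ≤ W.ss t q) ∧
  (∀ p ∈ Ioo 0 π, ∀ q ∈ Ioo 0 π, p ≤ q → W.v t p / W.r t p ≤ W.v t q / W.r t q) ∧
  (∀ p ∈ Ioo 0 π, ∀ q ∈ Icc 0 π, p ≤ q →
    W.v t p / W.r t p * (W.ss t q - W.ss t p) ≤ 2 * (W.th t q - W.th t p)) ∧
  (∀ p ∈ Icc 0 π, ∀ q ∈ Ioo 0 π, p ≤ q →
    2 * (W.th t q - W.th t p) ≤ W.v t q / W.r t q * (W.ss t q - W.ss t p))

/-- Module SlopeUp (fixed time).  PROOF.  `s(π) > 1` because `u >= Y^2 > 1`.  If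
`s(p) <= 1/400`, `0 < p < π`, CvxStmt with `q = π`:
`(v/r)(p) (s(π) - s(p)) <= 2(π + 1/100)`, and if `(v/r)(p) > 0` then, since
`s(π) - s(p) >= 399/400`, `(v/r)(p) <= 10`.  For `p = 0`: `r = 0` and `v(0) <= 0` by hypothesis.
Then `2 th(p) <= (v/r)(p) (s(p) - s(0)) <= 10 s(p)` (if `v/r <= 0` the bound is `<= 0`). -/
def SlopeUpStmt : Prop := ∀ (T : ℝ) (W : FlowData), IsFlow T W → ∀ t ∈ Ico 0 T,
  (∀ p ∈ Ioo 0 π, 0 < W.r t p) → (∀ p ∈ Icc 0 π, 0 ≤ W.om1 t p) → W.v t 0 ≤ 0 →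
  (∀ p ∈ Icc 0 π, -(1 / 100) ≤ W.th t p) →
  ∀ p ∈ Icc 0 π, W.ss t p ≤ 1 / 400 → W.v t p ≤ 10 * W.r t p ∧ W.th t p ≤ 5 * W.ss t p

/-- Module SlopeLow (fixed time).  PROOF.  For `0 < p < π` with `s(p) >= 40 b`:
`th(p) >= s/10 - 2b > 0`, and CvxStmt (last clause, from `0`, `th(0) = 0`) gives
`2 th(p) <= (v/r)(p) (s(p) - s(0))`, so `v/r > 0` and `v/r >= 2 th(p)/s(p) >= 1/5 - 4b/s(p) >= 1/10`.
For `p = π` by continuity (`r = 0`, `v >= 0` as a limit; `s(π) > 1`).  `p = 0` cannot occur since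
`th(0) = 0` forces `s(0)/10 <= 2b`... i.e. `s(0) <= 20 b < 40 b`. -/
def SlopeLowStmt : Prop := ∀ (T : ℝ) (W : FlowData), IsFlow T W → ∀ t ∈ Ico 0 T, ∀ b > 0,
  b ≤ 1 / 100 →
  (∀ p ∈ Ioo 0 π, 0 < W.r t p) → (∀ p ∈ Icc 0 π, 0 ≤ W.om1 t p) →
  (∀ p ∈ Icc 0 π, W.ss t p / 10 - 2 * b ≤ W.th t p) →
  ∀ p ∈ Icc 0 π, 40 * b ≤ W.ss t p → W.r t p / 10 ≤ W.v t p

/-- Module Near (fixed time): geometry near the origin.  Hypotheses: `s` nondecreasing in `p`,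
`-2b <= th`, and `th <= 5 s` where `s <= 1/400`.  PROOF.  If `s(p) <= 1/400` then for all `q <= p`:
`s(q) <= s(p)`, `-2b <= th(q) <= 5 s(q) <= 1/80`, so `cos th(q) >= 99/100`.
(`sin x <= tan x <= 1.01 x`-type bounds for `0 <= x <= 1/80`, and `sin x >= x >= -2b` for
`x <= 0`.)  `Y(p) - Y(0) = ∫ g sin th`, `X(p) = ∫ g cos th`; `sin th <= 5.5 s(p) cos th` and
`sin th >= -2.1 b cos th` pointwise on `[0,p]`; so (monotonicity of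
`5.5 s(p) X(q) - Y(q)` and `Y(q) + 2.1 b X(q)` in `q`) the bounds on `Y`.
`rho <= X + |Y| <= X + d + (X/50)`, and for `X >= d`: `r = X cos th + Y sin th >= 0.9999 X -
(1.02 X)/80 >= (49/50) X`, `|ze| <= |X sin th| + |Y| <= d + X/25`. -/
def NearStmt : Prop := ∀ (T : ℝ) (W : FlowData), IsFlow T W → ∀ t ∈ Ico 0 T, ∀ b > 0,
  b ≤ 1 / 1000 →
  (∀ p ∈ Icc 0 π, ∀ q ∈ Icc 0 π, p ≤ q → W.ss t p ≤ W.ss t q) →
  (∀ p ∈ Icc 0 π, -(2 * b) ≤ W.th t p) →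
  (∀ p ∈ Icc 0 π, W.ss t p ≤ 1 / 400 → W.th t p ≤ 5 * W.ss t p) →
  ∀ p ∈ Icc 0 π, W.ss t p ≤ 1 / 400 →
    99 / 100 ≤ cos (W.th t p) ∧ |sin (W.th t p)| ≤ 1 / 79 ∧
    W.Y t p ≤ W.Y t 0 + 11 / 2 * W.ss t p * W.X t p ∧
    W.Y t 0 - 21 / 10 * b * W.X t p ≤ W.Y t p ∧
    W.rho t p ≤ W.Y t 0 + 51 / 50 * W.X t p ∧
    (W.Y t 0 ≤ W.X t p → 49 / 50 * W.X t p ≤ W.r t p ∧
      |W.ze t p| ≤ W.Y t 0 + W.X t p / 25)

end Pool.Agent.Lib.MP_c60e08_gt.Lm
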