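import Pool.Agent.Lib.MP_c60e08_gt.LmFlow1

/-!
MP_c60e08_gt, FLOW part, batch 2: the standard package, distance and star-shapedness, bounds near
the tip, the lower bound for `v`, the barriers, the closing argument, bounded mean curvature,
the blow-up criterion and the shooting argument.
-/

namespace Pool.Agent.Lib.MP_c60e08_gt.Lm

open Real Set Filter Topology

/-- The a priori information at a time `t` at which the tip still moves down. -/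
structure Pack (b : ℝ) (W : FlowData) (t : ℝ) : Prop where
  rpos : ∀ p ∈ Ioo 0 π, 0 < W.r t p
  om1 : ∀ p ∈ Icc 0 π, 0 ≤ W.om1 t p
  om2 : ∀ p ∈ Icc 0 π, 0 ≤ W.om2 t p
  vtip : W.v t 0 ≤ 0
  vtop : 1 / 20 ≤ W.v t π
  th1 : ∀ p ∈ Icc 0 π, W.ss t p / 10 - 2 * b ≤ W.th t p
  th2 : ∀ p ∈ Icc 0 π, -(2 * b) ≤ W.th t p
  th3 : ∀ p ∈ Icc 0 π, W.ss t p ≤ 1 / 400 → W.th t p ≤ 5 * W.ss t p
  vup : ∀ p ∈ Icc 0 π, W.ss t p ≤ 1 / 400 → W.v t p ≤ 10 * W.r t p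
  vlow : ∀ p ∈ Icc 0 π, 40 * b ≤ W.ss t p → W.r t p / 10 ≤ W.v t p
  mono : ∀ p ∈ Icc 0 π, ∀ q ∈ Icc 0 π, p ≤ q → W.ss t p ≤ W.ss t q
  dle : W.Y t 0 ≤ 200 * b ^ 3
  near : ∀ p ∈ Icc 0 π, W.ss t p ≤ 1 / 400 →
    99 / 100 ≤ cos (W.th t p) ∧ |sin (W.th t p)| ≤ 1 / 79 ∧
    W.Y t p ≤ W.Y t 0 + 11 / 2 * W.ss t p * W.X t p ∧
    W.Y t 0 - 21 / 10 * b * W.X t p ≤ W.Y t p ∧
    W.rho t p ≤ W.Y t 0 + 51 / 50 * W.X t p ∧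
    (W.Y t 0 ≤ W.X t p → 49 / 50 * W.X t p ≤ W.r t p ∧
      |W.ze t p| ≤ W.Y t 0 + W.X t p / 25)

/-- A flow whose tip moves down for all times, with the a priori information. -/
structure Std (b T : ℝ) (W : FlowData) : Prop where
  flow : IsFlow T W
  bpos : 0 < b
  bsmall : b ≤ 1 / 1000
  vneg : ∀ t ∈ Ico 0 T, W.v t 0 < 0
  pack : ∀ t ∈ Ico 0 T, Pack b W t
  Tle : T ≤ 10 * b

/-- Module Dist.  Distance to the centre `(0,1)`.  PROOF.  `N = X^2 + (Y-1)^2`,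
`A = X cos th + (Y-1) sin th`, `P' = -X sin th + (Y-1) cos th`: `N_p = 2 g A`,
`A_p = g (1 + kap P')`, `N_t = 2 v P' + 2 lam A`.  Upper bound: MpStmt for `11/10 - N`, `Lam = 0`:
at a minimum `A = 0` and `1 + kap P' <= 0` (MinsStmt for `11/10 - N`, at the ends `A = 0` because
`X = 0 = sin th`), so `-N_t = -2 v P' = - 2 f kap P' >= 2 f > 0`.  Lower bound: MpStmt for
`N - 9/20 + 20 t`: at a minimum `A = 0`, `1 + kap P' >= 0`, so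
`N_t + 20 = 2 f kap P' + 20 >= 20 - 2 f >= 0` since `u <= (1 + sqrt(11/10))^2 <= 9/2` and
`f = 3 u^(2/3) <= 3 * (9/2)^(2/3) < 10`. -/
def DistStmt : Prop := ∀ (T : ℝ) (W : FlowData), IsFlow T W →
  (∀ p ∈ Icc 0 π, W.X 0 p ^ 2 + (W.Y 0 p - 1) ^ 2 ≤ 11 / 10) →
  (∀ t ∈ Ico 0 T, ∀ p ∈ Icc 0 π, W.X t p ^ 2 + (W.Y t p - 1) ^ 2 ≤ 11 / 10) ∧
  ((∀ p ∈ Icc 0 π, 9 / 20 ≤ W.X 0 p ^ 2 + (W.Y 0 p - 1) ^ 2) →
    ∀ t ∈ Ico 0 T, ∀ p ∈ Icc 0 π, 9 / 20 - 20 * t ≤ W.X t p ^ 2 + (W.Y t p - 1) ^ 2)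

/-- Module Top.  PROOF.  MpRStmt with `R = 1/400 - s`, `y = v + ze/20`, on `[0,t1]`,
`Lam = sup |C0|`.  Boundary `s = 1/400`: `v >= r/10` and `|ze| <= 2 r`, so `y >= 0`.  `y_p = g k`,
`k = v1 + z1/20`, `k_p = g (v2 + z2/20)`; by IdZ `y_t = f k2 + C0 y + lam k + v/30`.  At a negative
minimum with `s > 1/400`: `k = 0`, `k2 >= 0` (interior: MinsStmt (a); at the ends `k = 0` since
`v1 = 0`, `z1 = -kap r = 0`), and `v >= r/10 >= 0`; so `y_t >= C0 y >= Lam y`.  Finally at `p = π`: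
`ze = -Y`, so `v >= Y/20 > 1/20`. -/
def TopStmt : Prop := ∀ (T : ℝ) (W : FlowData), IsFlow T W → ∀ t1 ∈ Ico 0 T,
  (∀ p ∈ Icc 0 π, 1 / 400 ≤ W.ss 0 p → 0 ≤ W.v 0 p + W.ze 0 p / 20) →
  (∀ t ∈ Icc 0 t1, ∀ p ∈ Icc 0 π, 1 / 400 ≤ W.ss t p → 0 ≤ W.r t p ∧ W.r t p / 10 ≤ W.v t p) →
  (∀ t ∈ Icc 0 t1, ∀ p ∈ Icc 0 π, W.ss t p = 1 / 400 → |W.ze t p| ≤ 2 * W.r t p) →
  ∀ t ∈ Icc 0 t1, (∀ p ∈ Icc 0 π, 1 / 400 ≤ W.ss t p → 0 ≤ W.v t p + W.ze t p / 20) ∧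
    1 / 20 ≤ W.v t π

/-- Module Good.  The package holds as long as the tip moves down (closed end included).
PROOF.  `b2` is a small absolute constant (`1/100000`).  `Y(t,0)` is nonincreasing on `[0,t1]`
(`d/dt Y(t,0) = v(t,0)`), so `Y(t,0) <= 200 b^3`.  DistStmt gives `Y(t,π) <= 1 + sqrt 1.1`, so
`s(t,π) <= 30`.  RposStmt: `r >= δ X`, `r > 0` inside.  ThLowStmt: `th >= -2b`.  THatStmt with
`B = 1/10`, `B2 = 2b` (`s(0,0)/10 = Y(0,0)^{2/3}/10 <= 4 b^2 < 2 b`): `th >= s/10 - 2b`, and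
`t < 10 b` for `t < t1`.
Claim: `v(t,π) > 0` on `[0,t1]`.  If not, let `t0` be the first time with `v(t0,π) <= 0` (`t0 > 0`
by `Init.vtop`).  S4Stmt on `[0,t']`, `t' < t0`, gives `om1 >= 0` on `[0,t0)`, and at `t0` by
continuity.  At each `t <= t0` the fixed-time modules Cvx, SlopeUp, SlopeLow (`b <= 1/100`), Near
apply.  So for `s >= 1/400 >= 40 b`: `v >= r/10`; at `s = 1/400` (`rho = 1/8000`, `X >= Y(t,0)`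
since `rho <= Y(t,0) + 1.02 X`): `|ze| <= Y(t,0) + X/25 <= 2 r`.  TopStmt on `[0,t0]`:
`v(t0,π) >= 1/20`.  Contradiction.
With the claim, the same argument on `[0,t1]` gives everything (S4Stmt on `[0,t']`, `t' < t1`,
plus continuity at `t1`; if `t1 = 0` use Init directly), and S2Stmt on `[0,t1]` gives
`om2 >= δ X`. -/
def GoodStmt : Prop := ∃ b2 > 0, ∀ b, 0 < b → b ≤ b2 → ∀ (C3 T : ℝ) (W : FlowData),
  IsFlow T W → Init b C3 W → ∀ t1 ∈ Ico 0 T, (∀ t ∈ Ico 0 t1, W.v t 0 < 0) →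
  (∀ t ∈ Icc 0 t1, Pack b W t) ∧
  (∃ δ > 0, ∀ t ∈ Icc 0 t1, ∀ p ∈ Icc 0 π, δ * W.X t p ≤ W.om2 t p ∧ δ * W.X t p ≤ W.r t p) ∧
  (∀ t ∈ Ico 0 t1, t ≤ 10 * b)

/-- Module StdOf.  PROOF.  GoodStmt for every `t1 < T`; take `b <= min b2 (1/1000)`. -/
def StdOfStmt : Prop := ∃ b2 > 0, ∀ b, 0 < b → b ≤ b2 → ∀ (C3 T : ℝ) (W : FlowData),
  IsFlow T W → Init b C3 W → (∀ t ∈ Ico 0 T, W.v t 0 < 0) → Std b T W

/-- Module Restr.  Restriction and time shift of flows.  PROOF.  Immediate. -/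
def RestrStmt : Prop := ∀ (T : ℝ) (W : FlowData), IsFlow T W →
  (∀ T', 0 < T' → T' ≤ T → IsFlow T' W)

/-- Module Zg (fixed time): growth of `zeta` where `v <= 0`.  PROOF.  Let `v(p) <= 0`,
`p < π` (`v(π) > 0`).  By NoCommon on `[0,p]`: `v <= 0`, `ze >= d := Y t 0 > 0`.
`(v/ze)_p = g om2/ze^2 >= 0`, so `v/ze >= v(0)/d = -a`, `a := -v(0)/d >= 0`.
`(log ze)_p = g (-v) r/(f ze) <= g a r/f = (a/2) s_p`; integrate from `0` to `p`. -/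
def ZgStmt : Prop := ∀ (b T : ℝ) (W : FlowData), IsFlow T W → ∀ t ∈ Ico 0 T, Pack b W t →
  ∀ p ∈ Icc 0 π, W.v t p ≤ 0 → 0 < W.ze t p ∧
    - W.v t p ≤ - W.v t 0 / W.Y t 0 * W.ze t p ∧
    W.ze t p ≤ W.Y t 0 * exp (- W.v t 0 / W.Y t 0 * W.ss t p / 2)

/-- Module Vb (fixed time).  Notation `e^3 = d = Y t 0`, `-v(t,0) <= 3 K e^2`, `η` arbitrary, `e`
small.  PROOF.  `a = -v(0)/d <= 3K/e`.  Threshold `s2 = e/K` (`> e^2 = s(t,0)`, `<= 1/400`), so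
`exp(a s2/2) <= exp(3/2) <= 9/2`.  By Zg, if `v(p) <= 0`, `s(p) <= s2`: `ze <= (9/2) e^3`,
`-v <= 13.5 K e^2`.  If `v(p) <= 0` and `s(p) > s2`, pick `p2 < p` with `s(p2) = s2` (IVT); `v(p2) <= 0`
(NoCommon); `v/r` is nondecreasing so `-v(p) <= r(p) (-v(p2))/r(p2) <= rho(p) 13.5 K e^2/r(p2)`, and
`rho(p2) = s2^(3/2)`, `X(p2) >= (rho(p2) - d)/1.02 >= d`, `r(p2) >= 0.98 X(p2) >= 0.9 rho(p2)`
(as `e^3` is much smaller than `(e/K)^(3/2)`): `-v(p) <= η' r(p)`, `η' = 15 K^(5/2) e^(1/2) <= η`.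
For `v(p) >= 0`: let `q = sup {x <= p : v(x) <= 0}`; `v(q) <= 0` and `ze` is nonincreasing on
`[q,p]` (`ze_p = - g kap r`).  If `s(q) <= s2` then `ze(p) <= ze(q) <= 4.5 e^3`.  Otherwise on
`[p2,q]`: `ze_p = g (-v) r/f <= (η' r/2) s_p <= (η' rho(q)/2) s_p`, so
`ze(q) <= 4.5 e^3 + η' rho(q) s(q)/2 <= 5 e^3 + η rho(p) s(p)`. -/
def VbStmt : Prop := ∀ K ≥ 1, ∀ η > 0, ∃ ε0 > 0, ∀ (b T : ℝ) (W : FlowData), IsFlow T W →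
  b ≤ 1 / 1000 → ∀ t ∈ Ico 0 T, Pack b W t → ∀ e > 0, e ^ 3 = W.Y t 0 → e ≤ ε0 →
  - W.v t 0 ≤ 3 * K * e ^ 2 → ∀ p ∈ Icc 0 π, W.ss t p ≤ 1 / 400 →
  (W.v t p ≤ 0 → 0 < W.ze t p ∧ - W.v t p ≤ 14 * K * e ^ 2 + η * W.rho t p) ∧
  (0 ≤ W.v t p → W.ze t p ≤ 5 * e ^ 3 + η * W.rho t p * W.ss t p)

/-- Module S5Ineq (pure inequality).  Here `q = rho^(1/3)`, `x = X^(1/3)`.  PROOF.  Let
`E = 4K(e^2 + 6K e x^2 - 6K^2 x^4) + x^3/30`.  For `q1 <= 1/(720 K^3)`: `24 K^3 x^4 <= x^3/30`, so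
`E >= 4K e^2 > 0` and `E <= 4K(e^2 + 6 K e x^2) + x^3/30`.  Using `x <= q`, `c2 >= 9/10`, the middle
term is `>= 0.9 * 12 K ((4/3) K e + (8/3) K^2 x^2) = 4K (3.6 K e + 7.2 K^2 x^2)`, and the first is
`>= -4K (2 K e + 6 K^2 x^2)`.  So it suffices that
`(v^2/(3q^4) + (4/3)(ze/q^6) v) E <= 4K (1.6 K e + 1.2 K^2 x^2)`.
Case `v <= 0`: the `ze` term is `<= 0`.  `v^2 <= 2 (14K e^2)^2 + 2 η^2 q^6`, so
`v^2/(3 q^4) <= 131 K^2 e^4/q^4 + η^2 q^2`, and, with `e <= q`, `x <= q`: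
`(131 K^2 e^4/q^4) E <= 131 K^2 (4K e^2 + 24 K^2 e^3 + e^3/30)` (use `e^4 x^2/q^4 <= e^2`,
`e^4 x^3/q^4 <= e^3`) `<= 4K * 0.8 K e` for `e` small; `η^2 q^2 E <= η^2 q^2 (4K e^2 + 24K^2 e q^2) +
η^2 q^2 x^3/30`, small compared with `4K(0.8 K e + 1.2 K^2 x^2)` for `q` small.
Case `v > 0`: `v < q^3/10 - E` gives `v <= q^3/10` and `4K e^2 <= E < q^3/10`.
`v^2/(3q^4) E <= (q^2/300) E`: as before small.  The `ze` term: if `ze <= 0` it is `<= 0`; otherwise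
`(4/3) ze v/q^6 <= (4/30) (5 e^3 + η q^5)/q^3 = (2/3) e^3/q^3 + (2/15) η q^2`, and
`e^3/q^3 <= e/(40 K)` (from `4K e^2 < q^3/10`); times
`E <= 4K e^2 + 24 K^2 e x^2 + x^3/30`: again small compared with `4K(1.6 K e + 1.2 K^2 x^2)`. -/
def S5IneqStmt : Prop := ∀ K ≥ 1, ∃ η > 0, ∃ q1 > 0, q1 ≤ 1 / 20 ∧ ∃ ε0 > 0,
  ∀ e x q v ze c2 K0 : ℝ, 0 < e → e ≤ ε0 → 0 < x → x ≤ q → q ≤ q1 → e ≤ q → 9 / 10 ≤ c2 →
    0 ≤ K0 → K0 ≤ K →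
    (v ≤ 0 → 0 < ze ∧ -v ≤ 14 * K * e ^ 2 + η * q ^ 3) → (0 ≤ v → ze ≤ 5 * e ^ 3 + η * q ^ 5) →
    v < q ^ 3 / 10 - (4 * K * (e ^ 2 + 6 * K * e * x ^ 2 - 6 * K ^ 2 * x ^ 4) + x ^ 3 / 30) →
    0 < 4 * K * (e ^ 2 + 6 * K * e * x ^ 2 - 6 * K ^ 2 * x ^ 4) + x ^ 3 / 30 ∧
    0 ≤ -(4 * K * K0 * (2 * e + 6 * K * x ^ 2))
      + c2 * (3 * q ^ 4) * (4 * K) * (4 / 3 * K * e / x ^ 4 + 8 / 3 * K ^ 2 / x ^ 2)
      - (v ^ 2 / (3 * q ^ 4) + 4 / 3 * (ze / q ^ 6) * v)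
        * (4 * K * (e ^ 2 + 6 * K * e * x ^ 2 - 6 * K ^ 2 * x ^ 4) + x ^ 3 / 30)

/-- the comparison function of Module S5 -/
noncomputable def EE (K d X : ℝ) : ℝ :=
  4 * K * (d ^ ((2 : ℝ) / 3) + 6 * K * d ^ ((1 : ℝ) / 3) * X ^ ((2 : ℝ) / 3)
    - 6 * K ^ 2 * X ^ ((4 : ℝ) / 3)) + X / 30

/-- Module S5.  The lower bound `v >= r/10 - E(t,X)` near the origin.  PROOF.  Take `η, q1, ε0`
from S5Ineq (for `K`), shrink `ε0` by Vb (with this `η`), `s1 = q1^2 <= 1/400`.  MpRStmt on `[0,t1]`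
with `R = s - s1`, `y = v - r/10 + EE K (Y t 0) X`, `Lam >= sup |C0|`.  Notation `d = Y t 0 = e^3`,
`q = rho^(1/3)` (`q^2 = s`), `x = X^(1/3)`.  `e <= q` since `rho >= rho(t,0) = d` (`mono`).
Initial: `Init.inner` (`rho <= 1/8000` iff `s <= 1/400`) and `EE >= 4 K d^(2/3) >= C3 d^(2/3)`.
Boundary `s = s1 >= 40 b`: `v >= r/10` (`Pack.vlow`), `EE >= 0`.
Negative minimum with `s < s1`, `t > 0`: not at `p = 0` (`y = v(0) + 4K d^(2/3) > 0`), not at `π`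
(`s(π) > 1`).  So `X > 0`.  With `E_X, E_XX` the `X`-derivatives of `EE`, `k = v1 - r1/10 + E_X cos th`,
`k_p = g k2`, `k2 = v2 - r2/10 + E_XX cos^2 th - E_X sin th kap`; by IdR and
`X_t = -v sin th + lam cos th`, `v = f kap`:
`y_t = f k2 + lam k + C0 (v - r/10) + E_t - f cos^2 th E_XX`, with `E_t` the derivative through `d`
(`d' = v(t,0) = -3 K0 e^2`, `K0 ∈ [0,K]`): `E_t = -4K K0 (2 e + 6 K x^2)`.  `k = 0`, `k2 >= 0`.  So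
`y_t >= C0 y + (E_t - f cos^2 th E_XX - C0 E)`, and the bracket is `>= 0` by S5Ineq
(`f = 3 q^4`, `u = q^6`, `E_XX = -4K((4/3)K e/x^4 + (8/3) K^2/x^2)`, `C0 = v^2/f + (4/3)(ze/u) v`,
`v < r/10 - E <= q^3/10 - E`, Vb for the two implications, `cos^2 >= 9/10`). -/
def S5Stmt : Prop := ∀ K ≥ 1, ∃ ε0 > 0, ∃ s1 > 0, s1 ≤ 1 / 400 ∧ ∀ (b C3 T : ℝ) (W : FlowData),
  0 < b → b ≤ 1 / 1000 → 40 * b ≤ s1 → C3 ≤ 4 * K → IsFlow T W → Init b C3 W →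
  ∀ t1 ∈ Ico 0 T, (∀ t ∈ Icc 0 t1, Pack b W t ∧ W.Y t 0 ≤ ε0 ^ 3 ∧
    - W.v t 0 ≤ 3 * K * (W.Y t 0) ^ ((2 : ℝ) / 3)) →
  ∀ t ∈ Icc 0 t1, ∀ p ∈ Icc 0 π, W.ss t p ≤ s1 →
    W.r t p / 10 - EE K (W.Y t 0) (W.X t p) ≤ W.v t p

/-- Module Infl.  The inflection point is at `X <= 160 K e^2`.  PROOF.  Let
`X(p) >= 160 K d^(2/3)`; so `0 < p < π`.  If `s(p) >= 40 b`, `v >= r/10 > 0`.  Otherwise `s(p) < 40b <= s1`
and S5 gives `v >= r/10 - EE`.  `X >= d` (as `e` is small), so `r >= 0.98 X`.  With `e^3 = d`: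
`EE <= 4 K e^2 + 24 K^2 e X^(2/3) + X/30`, `4 K e^2 <= X/40`,
`24 K^2 e X^(2/3) = 24 K^2 e X^(-1/3) X <= 24 K^2 (160K)^(-1/3) e^(1/3) X <= 0.03 X` for `e` small, so
`v >= (0.098 - 0.0334 - 0.025 - 0.03) X > 0`. -/
def InflStmt : Prop := ∀ K ≥ 1, ∃ ε0 > 0, ∃ b3 > 0, ∀ (b C3 T : ℝ) (W : FlowData),
  0 < b → b ≤ b3 → C3 ≤ 4 * K → IsFlow T W → Init b C3 W →
  ∀ t1 ∈ Ico 0 T, (∀ t ∈ Icc 0 t1, Pack b W t ∧ W.Y t 0 ≤ ε0 ^ 3 ∧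
    - W.v t 0 ≤ 3 * K * (W.Y t 0) ^ ((2 : ℝ) / 3)) →
  ∀ t ∈ Icc 0 t1, ∀ p ∈ Icc 0 π, 160 * K * (W.Y t 0) ^ ((2 : ℝ) / 3) ≤ W.X t p → 0 < W.v t p

/-- Module UnderOf (fixed time).  PROOF.  The function `p -> barr e b u - Y` is continuous and
positive on the compact set `{rho <= 1/8000}`, so `>= 2 m > 0` there (if the set is empty, any `m`);
if no `η` works there are `p_n` with `rho(p_n) <= 1/8000 + 1/n`, `barr - Y < 1/n`; a limit point `p`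
has `rho(p) <= 1/8000`, `barr - Y <= 0`.  Contradiction. -/
def UnderOfStmt : Prop := ∀ (T : ℝ) (W : FlowData), IsFlow T W → ∀ t ∈ Ico 0 T, ∀ e b : ℝ,
  0 < e → 220 * e ≤ b → b ≤ 1 / 1000 → W.Y t 0 < 1 / 8000 →
  (∀ p ∈ Icc 0 π, W.rho t p ≤ 1 / 8000 → W.Y t p < barr e b (W.u t p)) → Under W t e b

/-- Module ThUnder (fixed time).  If the tangent angle is somewhere below `-(K/4) e` then the
curve is under an admissible pinching barrier.  `K >= 10^12`.  PROOF.  Let `q` minimise `th` on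
`[0,π]`; `th(q) = -Θ < -(K/4) e`; `0 < q < π`, `kap(q) = 0`, so `v(q) = 0` and by hypothesis
`X(q) < 160 K e^2`.  By NoCommon `v <= 0` on `[0,q]`, so `th <= 0` and `Y` is nonincreasing on
`[0,q]`: `Y <= d = e^3`.  Also `s(q) < 40 b...` is not needed: `s(q) <= 1/400` because `v >= r/10 > 0`
where `s >= 40 b` (`40 b <= 1/400`).  `X` is nondecreasing where `s <= 1/400`.
Take `ea = K e/1760`, `b' = K e/8` (`220 ea = b'`, `b' <= 1/1000`), `ea^3 >= 183 K^2 e^3`.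
Use UnderOf.  For `p <= q`: `rho <= d + 1.02 X(q) <= 164 K e^2`, so
`barr >= ea^3 - b' rho >= 183 K^2 e^3 - 20.5 K^2 e^3 > e^3 >= Y`.
For `p >= q`, `rho <= 1/8000` (`s <= 1/400`): by Cvx `2(th(x) - th(q)) <= (v/r)(x)(s(x)-s(q)) <= 10 s(x)`,
so `th(x) <= -Θ + 5 s(p)` for `x ∈ [q,p]` and
`sin th(x) <= (-(K/4) e + 5.5 s(p)) cos th(x)` (if `th <= 0`: `tan th <= th`; if `th > 0`:
`tan th <= 1.1 th <= 1.1(-Θ + 5 s(p)) <= -Θ + 5.5 s(p)`).  Integrate: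
`Y(p) <= e^3 - (K/4) e (X(p) - X(q)) + 5.5 s(p) X(p) <= e^3 (1 + 40 K^2) - (K/4) e X + 5.5 s X`.
And `barr >= ea^3 - (K e/8)(e^3 + 1.02 X) + 7 rho s`, `rho >= X`; the difference is
`>= 183 K^2 e^3 - e^3(1+40K^2) - K e^4/8 > 0`. -/
def ThUnderStmt : Prop := ∀ K : ℝ, 10 ^ 12 ≤ K → ∀ (b T : ℝ) (W : FlowData), IsFlow T W →
  0 < b → b ≤ 1 / 16000 → ∀ t ∈ Ico 0 T, Pack b W t → ∀ e > 0, e ^ 3 = W.Y t 0 →
  e ≤ 1 / (125 * K) →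
  (∀ p ∈ Icc 0 π, 160 * K * e ^ 2 ≤ W.X t p → 0 < W.v t p) →
  (∃ p ∈ Icc 0 π, W.th t p < -(K / 4 * e)) → Under W t (K * e / 1760) (K * e / 8)

/-- Module Contact (algebra).  Contact geometry of the curve with `Y = Φ(rho)`, `G = Φ'(rho)`.
PROOF.  `r^2 + z^2 = rho^2`, `Y = r S + z C`, `X = r C - z S` with `C^2 + S^2 = 1`, `S = G r/rho`.
`(C - G z/rho)^2 = (C - G z/rho)^2 + (S - G r/rho)^2 = 1 - 2 G Y/rho + G^2`.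
`Y - rho G = G r^2/rho + z C - rho G = z (C - G z/rho)`, `X = r (C - G z/rho)`. -/
def ContactStmt : Prop := ∀ rho G r z C S X Y : ℝ, 0 < rho → r ^ 2 + z ^ 2 = rho ^ 2 →
  C ^ 2 + S ^ 2 = 1 → X = r * C - z * S → Y = r * S + z * C → S = G * r / rho →
  (Y - rho * G) ^ 2 = z ^ 2 * (1 - 2 * (Y / rho) * G + G ^ 2) ∧
  X ^ 2 = r ^ 2 * (1 - 2 * (Y / rho) * G + G ^ 2)

/-- Module LBar.  The lower barrier `Y >= A(t)^3 - b rho`, `A(t)^2 = A0^2 - (11/5) b (t - t0)`.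
PROOF.  Fix `t2` with `(11/5) b (t2 - t0) < A0^2`, and `A1 < A0` with `(11/5) b (t2-t0) < A1^2`; let
`a(t) = (sqrt(A1^2 - (11/5) b (t-t0)))^3 = A^3`, `a' = -(33/10) b A`.  MpSStmt on `[t0,t2]` with
`R = -1`, `y = Y - a(t) + b rho` (`> 0` at `t0`).  At a touching point (`y = 0`, minimum):
`y_p = g k`, `k = sin th + b r/rho`, `k_p = g k2`, `k2 = kap cos th + b (r1/rho - r^2/rho^3)`,
`y_t = v cos th + lam sin th - a' + b (ze v/rho + lam r/rho) = v cos th + b ze v/rho - a' + lam k`.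
`k = 0`, `k2 >= 0` (at the ends `k = 0` automatically): `v cos th = f kap cos th >= - f b (r1/rho -
r^2/rho^3)`, so `y_t >= -a' - f b ze^2/rho^3` (`r1 = 1 + kap ze`, `1/rho - r^2/rho^3 = ze^2/rho^3`,
`f kap = v`).  Contact with `G = -b`, `Y = a - b rho`: `ze^2 = a^2/Δ`, `Δ = 1 + 2 b Y/rho + b^2 =
1 - b^2 + 2 b a/rho >= 1 - b^2`.  `Y <= rho` gives `a/rho <= 1 + b`.  So
`f b ze^2/rho^3 = 3 b a^2/(Δ rho^(5/3)) = 3 b A (a/rho)^(5/3)/Δ <= 3 b A (1+b)^(5/3)/(1-b^2) < (33/10) b A`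
for `b <= 1/50` (`rho^(4/3) = f/3`, `A = a^(1/3)`; `(1+b)^(5/3) <= (1+b)^2 < 1.1 (1-b^2)`).
Then let `A1 -> A0`. -/
def LBarStmt : Prop := ∀ (T : ℝ) (W : FlowData), IsFlow T W → ∀ t0 ∈ Ico 0 T, ∀ b A0 : ℝ,
  0 < b → b ≤ 1 / 50 → 0 < A0 →
  (∀ p ∈ Icc 0 π, A0 ^ 3 - b * W.rho t0 p ≤ W.Y t0 p) →
  ∀ t ∈ Ico t0 T, 11 / 5 * b * (t - t0) < A0 ^ 2 → ∀ p ∈ Icc 0 π,
    √(A0 ^ 2 - 11 / 5 * b * (t - t0)) ^ 3 - b * W.rho t p ≤ W.Y t p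

/-- Module PCIneq (pure inequality): the pinching barrier is a strict supersolution.  Here
`q = rho^(1/3)`.  PROOF.  `e <= b/120 <= 10^-5`.  Let `μ = e^3/q^3`; `z = μ + (10/3) e^2/q - (14/3) q^2`,
`F = μ - b + 10 e^2/q + 7 q^2`.  From `F <= 1`: `μ <= 1 + b`, so `e <= 1.01 q`, `e^2/q <= 1.02 e`.
`|G| <= b + 7 e + (35/3)/400 <= 0.031`, `|F| <= 1`: `Δ ∈ [0.93, 1.07]`.  `|z| <= 1.03`, `z^2 <= 1.07`.
Right side `>= -3.21 e^2 - 21.4 e q^2 + 93 q^3` (times Δ).  Left side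
`<= -(20/3) e^2 (1-F^2) - 3 b q z^2 + 20 e^2 z^2 + (70/3 + 37.5) q^3`.  So it suffices that
`3.21 e^2 + 21.4 e q^2 < (20/3) e^2 (1-F^2) + (3 b q - 20 e^2) z^2 + 32 q^3`.
`21.4 e q^2 <= 0.3 e^2 + 31 q^3`: if `21.4 q^2 <= 0.3 e` clear; otherwise `q^2 > 0.014 e >= 0.48 e^2`, so
`q >= 0.69 e` and `21.4 e q^2 <= 31 q^3`.
If `μ <= 1/4`: `|F| <= 0.27`, `z^2 <= 0.07`: `(20/3)(1 - 0.073) e^2 - 20*0.07 e^2 = 4.7 e^2 > 3.51 e^2`.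
If `μ > 1/4`: `q <= 1.6 e`, `z >= μ - 13 e^2 >= 0.249`, and `3 b q >= 360 e q >= 350 e^2` (`q >= 0.99 e`), so
`(3bq - 20 e^2) z^2 >= 330 * 0.062 e^2 > 20 e^2`, and `1 - F^2 >= 0`. -/
def PCIneqStmt : Prop := ∀ e b q F G z D : ℝ, 0 < e → 120 * e ≤ b → b ≤ 1 / 1000 → 0 < q →
  q ≤ 1 / 20 → F * q ^ 3 = e ^ 3 - b * q ^ 3 + 10 * e ^ 2 * q ^ 2 + 7 * q ^ 5 → |F| ≤ 1 →
  G = -b + 20 / 3 * e ^ 2 / q + 35 / 3 * q ^ 2 → z = F - G → D = 1 - 2 * F * G + G ^ 2 →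
  0 < D ∧ (-(20 / 3) * e ^ 2 + 70 / 3 * q ^ 3) * (1 - F ^ 2)
    + (-(3 * b * q) + 20 * e ^ 2 + 35 * q ^ 3) * z ^ 2
    < (-(3 * e ^ 2) + 100 * q ^ 3 - 20 * e * q ^ 2) * D

/-- Module PCcomp.  Comparison with the moving pinching barrier
`Φ(rho,t) = barr (e-(t-t0)) (b'-100(t-t0)) rho^2`.  PROOF.  For `t2 < t0+e`, `t2 < T`, apply MpSStmt
on `[t0,t2]` with `R = rho - 1/8000`, `y = Φ(rho,t) - Y`.  `ε(t) = e-(t-t0) > 0`,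
`β(t) = b'-100(t-t0) >= 120 ε(t)` (as `220 e <= b'`), `β <= 1/1000`.  Initial: Under.
Boundary `rho = 1/8000`, `s = 1/400`: by `Pack.near` `Y <= d + 5.5 s X <= 200 b^3 + 5.5/(400*8000)` while
`Φ >= -β rho + 7 rho s >= -1/(8*10^6) + 7/(3.2*10^6)`, so `y > 0` for `200 b^3 <= 10^-7`.
Touching point with `rho < 1/8000`: `y_p = g k`, `k = Φ' r/rho - sin th`,
`k2 = Φ'' r^2/rho^2 + Φ' (r1/rho - r^2/rho^3) - kap cos th`,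
`y_t = Φ_t + Φ' (ze v/rho + lam r/rho) - v cos th - lam sin th`.  `k = 0`, `k2 >= 0` (ends: `k = 0`):
`y_t >= Φ_t - f (Φ'' r^2/rho^2 + Φ' ze^2/rho^3)` (as in LBar).  With `rho = q^3`, `f = 3 q^4`, `F = Y/rho`,
`G = Φ' = -β + (20/3) ε^2/q + (35/3) q^2`, `Φ'' = -(20/9) ε^2/q^4 + (70/9)/q`,
`Φ_t = -3 ε^2 + 100 q^3 - 20 ε q^2`; Contact gives `ze^2 Δ = (Y - rho G)^2 = q^6 z^2`,
`r^2 Δ = X^2 = q^6 (1 - F^2)`.  So `Δ (y_t) >= Δ Φ_t - [(-(20/3)ε^2 + (70/3) q^3)(1-F^2) +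
(-3βq + 20 ε^2 + 35 q^3) z^2] > 0` by PCIneq. -/
def PCcompStmt : Prop := ∀ (b T : ℝ) (W : FlowData), IsFlow T W → 0 < b → b ≤ 1 / 2000 →
  ∀ t0 ∈ Ico 0 T, ∀ e b' : ℝ, Under W t0 e b' →
  ∀ t2 ∈ Ico t0 T, (∀ t ∈ Icc t0 t2, Pack b W t) → t2 < t0 + e →
  ∀ p ∈ Icc 0 π, W.rho t2 p ≤ 1 / 8000 →
    W.Y t2 p < barr (e - (t2 - t0)) (b' - 100 * (t2 - t0)) (W.u t2 p)

/-- Module PCneg (fixed time).  Under a barrier the curve dips below the tip.  PROOF.  At the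
tip `rho = d = Y(t,0) < 1/8000`: `d <= barr = e^3 - b d + 10 e^2 d^(2/3) + 7 d^(5/3)`.  Since
`7 d^(2/3) <= 7/400` and `10 e^2 d^(2/3) <= 10 (e^3 + e^2... )`: precisely with `d = x^3`, `x <= 1/20`:
`x^3 (1 - 7/400) <= e^3 + 10 e^2 x^2`, which forces `x < 2 e` (otherwise `e <= x/2`:
`e^3 + 10 e^2 x^2 <= x^3/8 + (10/4) x^4 <= x^3/8 + x^3/8`).  Take `σ = b/28` (`<= 1/28000`), so
`rho* = σ^(3/2) <= 1/8000`, and `rho* >= (2e)^3 > d` (`b >= 120 e`, `e <= 10^-5`: `(b/28)^(3/2) >=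
(4 e)^(3/2) >= 8 e^3`).  `rho(t,0) = d < rho*`, `rho(t,π) = Y(t,π) > 1 > rho*`; by IVT some `p` has
`rho(p) = rho*`, `s(p) = σ`.  There `barr = e^3 - b rho* + 10 e^2 σ + 7 rho* σ = e^3 + 10 e^2 σ
- (3/4) b rho*`, and `e <= b/120` gives `e^3 + 10 e^2 σ <= 3*10^-5 b^3`, while
`(3/4) b rho* = (3/4) b^(5/2)/28^(3/2) >= 0.005 b^(5/2) > 3*10^-5 b^3`.  So `Y(p) <= barr < 0 < Y(t,0)`,
contradicting the hypothesis `Y(t,0) <= Y(t,p)`. -/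
def PCnegStmt : Prop := ∀ (T : ℝ) (W : FlowData), IsFlow T W → ∀ t ∈ Ico 0 T, ∀ e b : ℝ,
  0 < e → 120 * e ≤ b → b ≤ 1 / 1000 → W.Y t 0 < 1 / 8000 →
  (∀ p ∈ Icc 0 π, W.rho t p ≤ 1 / 8000 → W.Y t p ≤ barr e b (W.u t p)) →
  W.Y t 0 < (2 * e) ^ 3 ∧ ∃ p ∈ Icc 0 π, W.Y t p < W.Y t 0

/-- Module CvxY (fixed time).  PROOF.  `v >= 0` gives `th_p = g kap >= 0`, so `0 <= th <= π` on
`[0,π]`, `Y_p = g sin th >= 0`. -/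
def CvxYStmt : Prop := ∀ (T : ℝ) (W : FlowData), IsFlow T W → ∀ t ∈ Ico 0 T,
  (∀ p ∈ Icc 0 π, 0 ≤ W.v t p) → ∀ p ∈ Icc 0 π, W.Y t 0 ≤ W.Y t p

/-- Module Disj.  A flow whose tip moves up at some time is never under a pinching barrier.
PROOF.  `b5` small.  If `v(t,0) < 0` for all `t < T` then `Y(t,0)` is decreasing; so there is a first
time `tv` with `v(tv,0) = 0` (`Init.vtip`), `0 < tv < T`, `v(t,0) < 0` on `[0,tv)`.  GoodStmt with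
`t1 = tv`: Pack on `[0,tv]`, `om1 >= 0`, `r >= δ X`; Vnn: `v(tv,.) >= 0`; Conv: `v(t,.) >= 0` for
`t >= tv`; CvxY: `Y(t,p) >= Y(t,0)` for all `t >= tv`.  Suppose `Under W t0 e b'`.  If `t0 >= tv`: PCneg
at `t0` (`220 e <= b'`) contradicts CvxY.  If `t0 < tv` and `tv < t0 + e`: PCcomp at `t2 = tv`
(`Pack` on `[t0,tv]`), then PCneg at `tv` with `(e-(tv-t0), b'-100(tv-t0))`
(`b' - 100 x >= 120 (e - x)` as `b' >= 220 e`, `x <= e`) contradicts CvxY.  If `tv >= t0 + e`: for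
`t2 ∈ (t0, t0+e)`: PCcomp and PCneg give `Y(t2,0) < (2(e-(t2-t0)))^3 -> 0` as `t2 -> t0+e`, but
`Y(t0+e,0) > 0` and `Y(.,0)` is continuous (`t0 + e <= tv < T`).  Contradiction. -/
def DisjStmt : Prop := ∃ b5 > 0, ∀ b, 0 < b → b ≤ b5 → ∀ (C3 T : ℝ) (W : FlowData),
  IsFlow T W → Init b C3 W →
  (∃ t1 t2, 0 ≤ t1 ∧ t1 < t2 ∧ t2 < T ∧ W.Y t1 0 < W.Y t2 0) →
  ∀ t0 ∈ Ico 0 T, ∀ e b', ¬ Under W t0 e b'

/-- Module NegAll.  If the tip never moves up then `v(t,0) < 0` for all times.  PROOF.  Otherwise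
let `tv` be the first zero of `v(.,0)` (`Init.vtip`), GoodStmt with `t1 = tv` gives `om2 >= δ X` at
`tv`, and TurnStmt contradicts the hypothesis. -/
def NegAllStmt : Prop := ∃ b5 > 0, ∀ b, 0 < b → b ≤ b5 → ∀ (C3 T : ℝ) (W : FlowData),
  IsFlow T W → Init b C3 W →
  (∀ t1 t2, 0 ≤ t1 → t1 < t2 → t2 < T → W.Y t2 0 ≤ W.Y t1 0) →
  ∀ t ∈ Ico 0 T, W.v t 0 < 0

/-- Module CloseOde.  The closing argument, abstractly (`d = ε^3`, `K0 = -v0/(3 ε^2)`).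
PROOF.  Suppose `-v0 > 3 K d^(2/3)` somewhere.  Since `-v0(0) <= C3 d(0)^(2/3) < 3 K d(0)^(2/3)`, there is
a first `t1 > 0` with `-v0(t1) = 3 K d(t1)^(2/3)`, `<=` on `[0,t1]`.  `ε = d^(1/3)`, `ε1 = ε(t1)`.
`(ε^2)' = (2/3) d^(-1/3) v0 = -(2/3) κ`, `κ = -v0 d^(-1/3)` nonincreasing, `κ(t1) = 3 K ε1`; so for
`t <= t1`: `(ε^2)' <= -2 K ε1`, `ε(t)^2 >= ε1^2 + 2 K ε1 (t1 - t)`.  `ε' = v0/(3 ε^2) >= -K` on `[0,t1]`: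
`ε(t) <= ε1 + K (t1 - t)`.  `3 K ε1 = κ(t1) <= κ(0) <= C3 ε(0) <= K ε(0)`: `ε(0) >= 3 ε1`, so
`t1 >= 2 ε1/K`.  Take `ts = t1 - ε1/(2K) >= 0`, `E = ε(ts)`: `E^2 >= 2 ε1^2`, `E <= 1.5 ε1`.  The
hypothesis gives `E^2 - 0.6 K E ε1/(2K) <= 1.01 ε1^2`, i.e. `E (E - 0.3 ε1) <= 1.01 ε1^2`; but
`E >= 1.41 ε1` gives `E(E-0.3ε1) >= 1.41*1.11 ε1^2 > 1.5 ε1^2`. -/
def CloseOdeStmt : Prop := ∀ (T K C3 : ℝ) (d v0 : ℝ → ℝ), 0 < K → C3 ≤ K →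
  (∀ t ∈ Ico 0 T, 0 < d t) → ContinuousOn d (Ico 0 T) → ContinuousOn v0 (Ico 0 T) →
  (∀ t ∈ Ioo 0 T, HasDerivAt d (v0 t) t) → (∀ t ∈ Ico 0 T, v0 t < 0) →
  AntitoneOn (fun t => - v0 t * (d t) ^ (-(1 : ℝ) / 3)) (Ico 0 T) →
  (0 < T → - v0 0 ≤ C3 * (d 0) ^ ((2 : ℝ) / 3)) →
  (∀ t1 ∈ Ico 0 T, (∀ t ∈ Icc 0 t1, - v0 t ≤ 3 * K * (d t) ^ ((2 : ℝ) / 3)) →
    ∀ ts ∈ Icc 0 t1, (d ts) ^ ((2 : ℝ) / 3) - 6 / 10 * K * (d ts) ^ ((1 : ℝ) / 3) * (t1 - ts)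
      ≤ 101 / 100 * (d t1) ^ ((2 : ℝ) / 3)) →
  ∀ t ∈ Ico 0 T, - v0 t ≤ 3 * K * (d t) ^ ((2 : ℝ) / 3)

/-- Module Anti.  `-v(t,0) Y(t,0)^(-1/3)` is nonincreasing.  PROOF.  Its derivative is
`-v_t d^(-1/3) + (1/3) v^2 d^(-4/3)` and `v_t(t,0) = f v2 + C0 v >= v^2/(3d)` by TipStmt (`δ = 0`). -/
def AntiStmt : Prop := ∀ (b T : ℝ) (W : FlowData), Std b T W →
  AntitoneOn (fun t => - W.v t 0 * (W.Y t 0) ^ (-(1 : ℝ) / 3)) (Ico 0 T)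

/-- Module Close.  PROOF.  `K = max C3 (10^12)`; `b6` small depending on `K`: `b6 <= b3` of Infl,
`200 b6^3 <= ε0^3`, `e <= (200)^(1/3) b6 <= 1/(125 K)`, `b6 <= 1/16000`.  Apply CloseOde with
`d t = Y t 0`, `v0 t = v t 0`.  Last hypothesis: let `-v0 <= 3 K d^(2/3)` on `[0,t1]`; Infl gives the
location of the inflection on `[0,t1]`; at `ts`, since the curve is never under a barrier, ThUnder
gives `th(ts,.) >= -(K/4) e`, `e = d(ts)^(1/3)`.  Then `Y(ts,p) >= d(ts) - 0.26 K e rho(ts,p)` for all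
`p ∈ [0,π]`: let `th >= -(K/4)e =: -Θ` (small); where `th <= π/2`, `sin th >= -tan Θ cos th`, so
`Y + (tan Θ) X` is nondecreasing as long as `th <= π/2`...; simplest: let `p1` be the last point
with `th(p1) <= 0` (after it `th > 0`? use: `v <= 0` on an initial interval, `th` decreasing then
increasing (NoCommon/om1), so `th <= 0` exactly on an initial interval `[0,p1]`, with
`s(p1) <= 20 b` by `th1`); on `[0,p1]`: `sin th >= -(tan Θ) cos th`, `Y(p) >= d - (tan Θ) X(p) >= d - (tan Θ) rho(p)`;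
for `p >= p1`: `0 <= th <= π` so `Y` is nondecreasing (if `th <= π`; `th` is nondecreasing after the
inflection and ends at `π`), `Y(p) >= Y(p1) >= d - tanΘ rho(p1) >= d - tanΘ rho(p)` (`rho` nondecreasing).
`tan Θ <= 0.26 K e =: β <= 1/100`.  LBar with `A0 = e`, slope `β`: if
`(11/5) β (t1-ts) < e^2` then at `p = 0`, `t = t1`: `(e^2 - (11/5)β(t1-ts))^(3/2) <= (1+β) d(t1)`, i.e.
`e^2 - 0.572 K e (t1-ts) <= (1+β)^(2/3) d(t1)^(2/3) <= 1.01 d(t1)^(2/3)`; if not, the left side is `<= 0`.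
(`0.26*11/5 = 0.572 <= 0.6`.)  The second conclusion is Infl again. -/
def CloseStmt : Prop := ∀ C3 > 0, ∃ K ≥ 1, ∃ b6 > 0, ∀ (b T : ℝ) (W : FlowData), b ≤ b6 →
  Std b T W → Init b C3 W → (∀ t ∈ Ico 0 T, ∀ e b', ¬ Under W t e b') →
  ∀ t ∈ Ico 0 T, - W.v t 0 ≤ 3 * K * (W.Y t 0) ^ ((2 : ℝ) / 3) ∧
    ∀ p ∈ Icc 0 π, 160 * K * (W.Y t 0) ^ ((2 : ℝ) / 3) ≤ W.X t p → 0 < W.v t p

/-- Module Vmax (fixed time).  A uniform upper bound for `v` and a lower bound away from the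
tip.  PROOF.  Let `p0`, `ph` be points with `s(p0) = 1/400`, `s(ph) = 1/800` (IVT; `s(0) = d^(2/3)` is
tiny).  On `[ph,p0]`: `v >= r/10` (`s >= 1/800 >= 40 b`), `X >= d`, `r >= 0.98 X >= 0.9 rho >=
0.9 (1/800)^(3/2)`, `ze_p = -g (v/f) r <= -(r/20) s_p`; so
`ze(p0) <= ze(ph) - (0.9/20)(1/800)^(3/2)(1/800) <= ze(ph) - 2*10^-9`.  And `ze(ph) <= 10^-9`: the
maximum of `ze` over `[0,ph]` is attained where `v <= 0` (after that `ze` is nonincreasing), where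
`s < 40 b`, so `|ze| <= rho <= (40 b)^(3/2) <= 10^-9` for `b` small.  So `ze(p0) <= -10^-9`; for `p >= p0`:
`v >= r/10 >= 0`, `ze` nonincreasing, `ze <= -10^-9`, `(v/ze)_p = g om2/ze^2 >= 0`, so
`v(p) <= (v(p0)/|ze(p0)|) |ze(p)| <= (10 rho(p0)) 10^9 * 3` (`|ze| <= rho <= 3` by the distance bound).
For `s <= 1/400`: `v <= 10 r <= 10 rho`. -/
def VmaxStmt : Prop := ∃ Cv : ℝ, ∃ b8 > 0, ∀ (b T : ℝ) (W : FlowData), b ≤ b8 → Std b T W →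
  ∀ t ∈ Ico 0 T, (∀ p ∈ Icc 0 π, W.X t p ^ 2 + (W.Y t p - 1) ^ 2 ≤ 11 / 10) →
  ∀ p ∈ Icc 0 π, W.v t p ≤ Cv ∧ (1 / 400 ≤ W.ss t p → 0 ≤ W.v t p)

/-- Module Hbd.  Bounded mean curvature.  PROOF.  Let `e^3 = d = Y t 0`, small (`d <= 200 b^3`).
`f = 3 s^2`, `rho >= d` (`mono`), so `f >= 3 e^4`.  `v <= 0`: then `X < 160 K e^2` (hypothesis), `s < 40b <=
1/400`, `rho <= d + 1.02 X <= 164 K e^2`, `s <= (164 K)^(2/3) e^(4/3)`; `a = -v(0)/d <= 3K/e`, so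
`a s/2 <= 1` for `e` small, Zg: `ze <= 3 e^3`, `-v <= 9 K e^2`: `v^2/f <= 27 K^2`.  `v > 0`, `s <= 1/400`:
`v <= 10 r <= 10 rho`, `v^2/f <= 100 rho^2/(3 s^2) = (100/3) s <= 1`.  `s >= 1/400`: `0 <= v <= Cv`,
`f >= 3/160000`. -/
def HbdStmt : Prop := ∀ K ≥ 1, ∃ b7 > 0, ∃ K' : ℝ, ∀ (b T : ℝ) (W : FlowData), b ≤ b7 →
  Std b T W →
  (∀ t ∈ Ico 0 T, ∀ p ∈ Icc 0 π, W.X t p ^ 2 + (W.Y t p - 1) ^ 2 ≤ 11 / 10) →
  (∀ t ∈ Ico 0 T, - W.v t 0 ≤ 3 * K * (W.Y t 0) ^ ((2 : ℝ) / 3) ∧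
    ∀ p ∈ Icc 0 π, 160 * K * (W.Y t 0) ^ ((2 : ℝ) / 3) ≤ W.X t p → 0 < W.v t p) →
  ∀ t ∈ Ico 0 T, ∀ p ∈ Icc 0 π, W.v t p ^ 2 ≤ K' * W.f t p

/-- Module Star.  Star-shapedness about `(0,1)`.  PROOF.  `P = X sin th + (1-Y) cos th`
(`= <c - w, N>`, `c = (0,1)`), `P_p = g kap (X cos th + (Y-1) sin th) = g kap A`.  `P^2 + A^2 = N :=
X^2 + (Y-1)^2 >= 1/4` (DistStmt, `t <= 10 b`, `b` small).  Ends: `P(0) = 1 - d >= 1/2`,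
`P(π) = Y(π) - 1 = sqrt N >= 1/2`.  If `P < 1/2` somewhere at time `t`, then, since
`m(t) = min_p P(t,p)` is continuous in `t` and `m(0) >= 1/2`, there are `t' <= t` with
`m(t') ∈ (0,1/2)`.  The minimum is at an interior `p` where `kap A = 0`.  If `A = 0`:
`|P| = sqrt N >= 1/2`, contradiction.  If `kap = 0`: `v = 0`, so `s < 40 b`, `rho` and `|th|` are tiny, and
`P >= cos th - 2 rho >= 9/10`, contradiction. -/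
def StarStmt : Prop := ∃ b9 > 0, ∀ (b C3 T : ℝ) (W : FlowData), b ≤ b9 → Std b T W →
  Init b C3 W → ∀ t ∈ Ico 0 T, ∀ p ∈ Icc 0 π,
    1 / 4 ≤ W.X t p ^ 2 + (W.Y t p - 1) ^ 2 ∧
    1 / 2 ≤ W.X t p * sin (W.th t p) + (1 - W.Y t p) * cos (W.th t p)

/-- Module Vbd.  If the tip stays above `d0` then `v` is bounded.  PROOF.  Upper bound: Vmax.
Lower bound: Anti: `-v(t,0) <= -v(0,0) Y(0,0)^(-1/3) Y(t,0)^(1/3)` bounded; where `v <= 0`, Zg: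
`-v <= (-v(t,0)/d0) rho`, `rho <= 3`. -/
def VbdStmt : Prop := ∃ b9 > 0, ∀ (b C3 T d0 : ℝ) (W : FlowData), b ≤ b9 → Std b T W →
  Init b C3 W → 0 < d0 → (∀ t ∈ Ico 0 T, d0 ≤ W.Y t 0) →
  ∃ M, ∀ t ∈ Ico 0 T, ∀ p ∈ Icc 0 π, |W.v t p| ≤ M

/-- Module Qbd.  If `v` is bounded and `u` bounded below, then `v1` is bounded.  PROOF.  On
`[0,t1]`, `t1 < T`: MpStmt for `y = A e^{Lt} - v1` and `y = A e^{Lt} + v1`, with constants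
independent of `t1`.  At a negative minimum of the first: interior (at the ends `v1 = 0`),
`v2 = 0`, `v3 <= 0` (MinsStmt), `v1 > 0`,
`v1_t = f v3 + fs v2 + C0 v1 + C1 v + (v^2/f) v1 + lam v2 <= L1 v1 + G` where, inserting the
definition of `C1`, `L1` and `G` are bounds in terms of `sup |v|`, upper and lower bounds of `u`.
So `y_t >= L A e^{Lt} - L1 v1 - G = (L - L1) A e^{Lt} - G + L1 y >= L1 y` if `(L-L1) A >= G`.  Take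
`A >= sup |v1(0,.)|`.  Time is bounded by `T`. -/
def QbdStmt : Prop := ∀ (T M m : ℝ) (W : FlowData), IsFlow T W → 0 < m →
  (∀ t ∈ Ico 0 T, ∀ p ∈ Icc 0 π, |W.v t p| ≤ M ∧ m ≤ W.u t p ∧ W.u t p ≤ M) →
  ∃ M', ∀ t ∈ Ico 0 T, ∀ p ∈ Icc 0 π, |W.v1 t p| ≤ M'

/-- Module C3bd.  Translation to the polar graph.  PROOF.  For `p ∈ [0,π]`: `X^2+(Y-1)^2 = e^{2y}`,
so `|y|` is bounded; `X sin th + (1-Y) cos th = e^y cos(p - th) = e^y/√(1+y1^2)`, so `|y1|` is bounded;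
`v = f (1 - y2/(1+y1^2))/g` gives `y2 = (1+y1^2)(1 - g v/f)` bounded (`f` bounded below);
differentiating, `g v1 = v_p`, `v_p` is `-(f/(g(1+y1^2))) y3` plus terms in `y, y1, y2`, so `y3` is
bounded.  For other `p`: evenness and periodicity of `y 0` (hence `|y m|` is even and periodic). -/
def C3bdStmt : Prop := ∀ (T M m : ℝ) (y : ℕ → ℝ → ℝ → ℝ), PolarSol T y →
  IsFlow T (flowOf y) → 0 < m →
  (∀ t ∈ Ico 0 T, ∀ p ∈ Icc 0 π, |(flowOf y).v t p| ≤ M ∧ |(flowOf y).v1 t p| ≤ M ∧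
    m ≤ (flowOf y).u t p ∧
    1 / 4 ≤ (flowOf y).X t p ^ 2 + ((flowOf y).Y t p - 1) ^ 2 ∧
    (flowOf y).X t p ^ 2 + ((flowOf y).Y t p - 1) ^ 2 ≤ 11 / 10 ∧
    1 / 2 ≤ (flowOf y).X t p * sin ((flowOf y).th t p)
      + (1 - (flowOf y).Y t p) * cos ((flowOf y).th t p)) →
  ∃ M', ∀ t ∈ Ico 0 T, ∀ p, |y 0 t p| ≤ M' ∧ |y 1 t p| ≤ M' ∧ |y 2 t p| ≤ M' ∧ |y 3 t p| ≤ M' ∧
    1 ≤ M' * uu p (y 0 t p)

/-- Module Blow.  A solution with downward moving tip and bounded time which cannot be continued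
has `Y(t,0) -> 0`.  PROOF.  `Y(t,0)` is decreasing and positive; if it does not tend to `0` it is
`>= d0 > 0`.  Then Vbd, Qbd (`u >= rho(t,0)^2 >= d0^2` by `mono`, `u <= 9`), Star, Dist, C3bd give a bound
`M'` contradicting the last hypothesis (use `M = M'+1`, `uu > 0`). -/
def BlowStmt : Prop := ∃ b9 > 0, ∀ (b C3 T : ℝ) (y : ℕ → ℝ → ℝ → ℝ), b ≤ b9 → PolarSol T y →
  Std b T (flowOf y) → Init b C3 (flowOf y) →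
  (∀ M : ℝ, ∃ t ∈ Ico 0 T, ∃ p, M < |y 0 t p| ∨ M < |y 1 t p| ∨ M < |y 2 t p|
    ∨ M < |y 3 t p| ∨ M * uu p (y 0 t p) < 1) →
  ∀ η > 0, ∃ t ∈ Ico 0 T, (flowOf y).Y t 0 < η

/-- Module TipSign.  PROOF.  `uu 0 y = (e^y - 1)^2 > 0`, so `y 0 t 0` never vanishes; continuity. -/
def TipSignStmt : Prop := ∀ (T : ℝ) (y : ℕ → ℝ → ℝ → ℝ), PolarSol T y → y 0 0 0 < 0 →
  ∀ t ∈ Ico 0 T, y 0 t 0 < 0

/-- Module InitX.  The initial time slice of `flowOf y` is that of `flowOf (stat y0)`.  PROOF.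
`y m 0 p = iteratedDeriv m y0 p` by induction from `dx` at `t = 0`; all fields of `flowOf` at time `0`
only use the slices `y m 0`. -/
def InitXStmt : Prop := ∀ (T : ℝ) (y : ℕ → ℝ → ℝ → ℝ) (y0 : ℝ → ℝ), 0 < T → PolarSol T y →
  (∀ p, y 0 0 p = y0 p) →
  (∀ b C3, Init b C3 (flowOf (stat y0)) → Init b C3 (flowOf y)) ∧
  (∀ e b, Under (flowOf (stat y0)) 0 e b → Under (flowOf y) 0 e b) ∧
  (∀ p, (flowOf y).rho 0 p = (flowOf (stat y0)).rho 0 p ∧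
    (flowOf y).Y 0 p = (flowOf (stat y0)).Y 0 p)

/-- Module MaxCmp.  A maximal solution lasts longer than any other (up to time 1).  PROOF.
If `T < 1` and `T < T'`: by UniqStmt `y = y'` on `[0,T)` (all derivatives), but `y'` and its
derivatives are continuous on the compact set `[0,T] x [0,2π]` and periodic in `p` (periodicity of
`y' m` follows from that of `y' 0`), hence bounded, and `uu` is bounded below; this contradicts the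
blow-up alternative for `y`. -/
def MaxCmpStmt : Prop := ∀ (T T' : ℝ) (y y' : ℕ → ℝ → ℝ → ℝ), 0 < T → PolarSol T y →
  PolarSol T' y' → (∀ p, y 0 0 p = y' 0 0 p) →
  (T = 1 ∨ ∀ M : ℝ, ∃ t ∈ Ico 0 T, ∃ p, M < |y 0 t p| ∨ M < |y 1 t p| ∨ M < |y 2 t p|
        ∨ M < |y 3 t p| ∨ M * uu p (y 0 t p) < 1) →
  T = 1 ∨ T' ≤ T

/-- A family of maximal solutions. -/
structure MaxFam (b C3 : ℝ) (Tt : ℝ → ℝ) (yy : ℝ → ℕ → ℝ → ℝ → ℝ) : Prop where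
  Tpos : ∀ l, 0 < Tt l
  Tle : ∀ l, Tt l ≤ 1
  sol : ∀ l, PolarSol (Tt l) (yy l)
  flow : ∀ l, IsFlow (Tt l) (flowOf (yy l))
  init : ∀ l, Init b C3 (flowOf (yy l))
  max : ∀ l, Tt l = 1 ∨ ∀ M : ℝ, ∃ t ∈ Ico 0 (Tt l), ∃ p, M < |yy l 0 t p| ∨ M < |yy l 1 t p| ∨
    M < |yy l 2 t p| ∨ M < |yy l 3 t p| ∨ M * uu p (yy l 0 t p) < 1
  stab : ∀ l0, ∀ t0 ∈ Ico 0 (Tt l0), ∀ η > 0, ∃ δ > 0, ∀ l, |l - l0| < δ → t0 < Tt l ∧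
    ∀ t ∈ Icc 0 t0, ∀ p, |yy l 0 t p - yy l0 0 t p| < η

/-- Module FamEx.  PROOF.  `C3, b1` from FamilyStmt, `y0`; MaxSolStmt for every `l` (choice);
TipSign, FlowStmt, InitX; `stab` from StabStmt (gives `T' > t0`, `y'`), MaxCmp (`T' <= Tt l` or
`Tt l = 1 > t0`, since `t0 < Tt l0 <= 1`) and UniqStmt (`y' = yy l` on `[0,t0]`). -/
def FamExStmt : Prop := MaxSolStmt → UniqStmt → StabStmt → FamilyStmt → FlowStmt →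
  ∃ C3 > 0, ∃ b1 > 0, ∀ b, 0 < b → b ≤ b1 → ∃ Tt yy, MaxFam b C3 Tt yy ∧
    Under (flowOf (yy 0)) 0 (b / 440) (b / 2) ∧
    (∀ p ∈ Icc 0 π, 150 * b ^ 3 - b * (flowOf (yy 1)).rho 0 p ≤ (flowOf (yy 1)).Y 0 p)

/-- Module OpenB.  PROOF.  Let `Y(t1,0) < Y(t2,0)` for `l0`; `stab` with `t0 = t2` and small `η`
(`Y(t,0) = 1 - exp (y 0 t 0)` is continuous in the value of `y`). -/
def OpenBStmt : Prop := ∀ (b C3 : ℝ) (Tt : ℝ → ℝ) (yy : ℝ → ℕ → ℝ → ℝ → ℝ),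
  MaxFam b C3 Tt yy →
  IsOpen {l | ∃ t1 t2, 0 ≤ t1 ∧ t1 < t2 ∧ t2 < Tt l ∧
    (flowOf (yy l)).Y t1 0 < (flowOf (yy l)).Y t2 0}

/-- Module OpenU.  PROOF.  Let `Under` hold for `l0` at `t0` with margin `η`.  By `stab`, for `l`
near `l0` the values `yy l 0 t0 p` are uniformly close, hence `X, Y, u, rho` at `t0` are uniformly
close on `[0,π]`, and `barr e b` is uniformly continuous on bounded sets of `u >= 0`.  If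
`rho_l <= 1/8000 + η/2` then `rho_{l0} <= 1/8000 + η`, so
`Y_l <= Y_{l0} + η/8 <= barr(u_{l0}) - η + η/8 <= barr(u_l) - η/2`.  `Y_l(t0,0) < 1/8000` is open. -/
def OpenUStmt : Prop := ∀ (b C3 : ℝ) (Tt : ℝ → ℝ) (yy : ℝ → ℕ → ℝ → ℝ → ℝ),
  MaxFam b C3 Tt yy →
  IsOpen {l | ∃ t0 ∈ Ico 0 (Tt l), ∃ e b', Under (flowOf (yy l)) t0 e b'}

/-- Module OneB.  `l = 1` moves up.  PROOF.  `b` small.  Otherwise by NegAll `v(t,0) < 0` for all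
`t`, StdOf: Std, `Tt 1 <= 10 b < 1`, so the blow-up alternative holds and Blow gives
`inf Y(t,0) = 0`.  But LBar with `t0 = 0`, `A0^3 = 150 b^3` (`A0^2 = 150^(2/3) b^2 > 28 b^2`), slope `b`:
for `t < 10 b`: `A0^2 - (11/5) b t >= 28 b^2 - 22 b^2 = 6 b^2`, so `(6 b^2)^(3/2) <= (1+b) Y(t,0)` at the
tip, a positive lower bound. -/
def OneBStmt : Prop := ∃ b5 > 0, ∀ (b C3 : ℝ) (Tt : ℝ → ℝ) (yy : ℝ → ℕ → ℝ → ℝ → ℝ),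
  0 < b → b ≤ b5 → MaxFam b C3 Tt yy →
  (∀ p ∈ Icc 0 π, 150 * b ^ 3 - b * (flowOf (yy 1)).rho 0 p ≤ (flowOf (yy 1)).Y 0 p) →
  ∃ t1 t2, 0 ≤ t1 ∧ t1 < t2 ∧ t2 < Tt 1 ∧ (flowOf (yy 1)).Y t1 0 < (flowOf (yy 1)).Y t2 0

/-- Module Shoot.  PROOF.  Fix `C3, b1` (FamEx), `K, b6` (Close), `K', b7` (Hbd), the other small
constants, `b` below all of them, and the family.  `U` and `B` (OpenU, OpenB) are open, disjoint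
(Disj), `0 ∈ U`, `1 ∈ B` (OneB); `[0,1]` is connected, so some `l ∈ [0,1]` is in neither.
`T = Tt l`, `W = flowOf (yy l)`.  NegAll: `v(t,0) < 0` on `[0,T)`; StdOf: Std; `T <= 10 b < 1`; Close;
Dist; Hbd: `v^2 <= K' f`.  Blow: `Y(t,0)` comes below every `η`, and it is decreasing, so
`Y(t,0) -> 0` as `t -> T`.  With `ε = Y(t,0)^(1/3)`: `ε' = v(t,0)/(3 ε^2) >= -K`, so
`ε(t) <= ε(t') + K (t'-t)` for `t < t'`, and `t' -> T` gives `ε(t) <= K (T-t)`, i.e.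
`1 - exp (y 0 t 0) = Y(t,0) <= (K (T-t))^3`.  Take the constant `max K K'` in GeoStmt's hypotheses
(`W.f = fS (uu p (y 0 t p))` because `X^2+Y^2 = uu`; `f > 0`). -/
def ShootStmt : Prop := MaxSolStmt → UniqStmt → StabStmt → FamilyStmt → FlowStmt →
  ∃ (T K : ℝ) (y : ℕ → ℝ → ℝ → ℝ), 0 < T ∧ PolarSol T y ∧ (∀ t ∈ Ico 0 T, y 0 t 0 < 0) ∧
    (∀ t ∈ Ico 0 T, 1 - exp (y 0 t 0) ≤ (K * (T - t)) ^ 3) ∧
    (∀ t ∈ Ico 0 T, ∀ p ∈ Icc 0 π,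
      ((flowOf y).v t p) ^ 2 ≤ K * fS (uu p (y 0 t p)))

end Pool.Agent.Lib.MP_c60e08_gt.Lm
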