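import Pool.Agent.Lib.MP_c60e08_gt.ParSpec

/-!
MP_c60e08_gt, PDE part: bounds on a box (module Box).
-/

namespace Pool.Agent.Lib.MP_c60e08_gt.Par

open Real Set Filter MeasureTheory Pool.Agent.Lib.MP_c60e08_gt.Lm Pool.Agent.Lib.MP_c60e08_gt.Geo

open scoped Topology

namespace ParBox

theorem reduce {G : ℝ → ℝ → ℝ → ℝ} (hG : SG G) (x y z : ℝ) :
    ∃ x0 ∈ Icc (0 : ℝ) (2 * π), G x y z = G x0 y z := by
  have hp : Function.Periodic (fun x => G x y z) (2 * π) := fun x => hG.2 x y z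
  obtain ⟨x0, hx0, h⟩ := hp.exists_mem_Ico₀ (by positivity) x
  exact ⟨x0, Ico_subset_Icc_self hx0, h⟩

theorem compactK (B : ℝ) :
    IsCompact (Icc (0 : ℝ) (2 * π) ×ˢ (Icc (-B) B ×ˢ Icc (-B) B)) :=
  isCompact_Icc.prod (isCompact_Icc.prod isCompact_Icc)

theorem mem_K {B x0 y z : ℝ} (hx : x0 ∈ Icc (0 : ℝ) (2 * π)) (hy : |y| ≤ B) (hz : |z| ≤ B) :
    (x0, y, z) ∈ Icc (0 : ℝ) (2 * π) ×ˢ (Icc (-B) B ×ˢ Icc (-B) B) :=
  ⟨hx, abs_le.1 hy, abs_le.1 hz⟩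

theorem bound {G : ℝ → ℝ → ℝ → ℝ} (hG : SG G) (B : ℝ) :
    ∃ C > 0, ∀ x y z, |y| ≤ B → |z| ≤ B → |G x y z| ≤ C := by
  obtain ⟨C, hC⟩ := (compactK B).exists_bound_of_continuousOn hG.1.continuous.continuousOn
  refine ⟨max C 1, by positivity, fun x y z hy hz => ?_⟩
  obtain ⟨x0, hx0, h⟩ := reduce hG x y z
  rw [h]
  have := hC (x0, y, z) (mem_K hx0 hy hz)
  rw [Real.norm_eq_abs] at this
  exact this.trans (le_max_left _ _)

theorem lower {G : ℝ → ℝ → ℝ → ℝ} (hG : SG G) (hpos : ∀ x y z, 0 < G x y z) (B : ℝ) :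
    ∃ c > 0, ∀ x y z, |y| ≤ B → |z| ≤ B → c ≤ G x y z := by
  by_cases hne : (Icc (0 : ℝ) (2 * π) ×ˢ (Icc (-B) B ×ˢ Icc (-B) B)).Nonempty
  · obtain ⟨q, hq, hmin⟩ := (compactK B).exists_isMinOn hne hG.1.continuous.continuousOn
    refine ⟨G q.1 q.2.1 q.2.2, hpos _ _ _, fun x y z hy hz => ?_⟩
    obtain ⟨x0, hx0, h⟩ := reduce hG x y z
    rw [h]
    exact hmin (mem_K hx0 hy hz)
  · refine ⟨1, one_pos, fun x y z hy hz => ?_⟩
    obtain ⟨x0, hx0, -⟩ := reduce hG x y z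
    exact absurd ⟨_, mem_K hx0 hy hz⟩ hne

/-- Lipschitz bound from a bound of the derivative on `[-B, B]`. -/
theorem lip {f f' : ℝ → ℝ} {B C : ℝ} (hf : ∀ s, HasDerivAt f (f' s) s)
    (hC : ∀ s, |s| ≤ B → |f' s| ≤ C) {s t : ℝ} (hs : |s| ≤ B) (ht : |t| ≤ B) :
    |f s - f t| ≤ C * |s - t| := by
  have h := (convex_Icc (-B) B).norm_image_sub_le_of_norm_hasDerivWithin_le
    (f := f) (f' := f') (C := C) (fun x _ => (hf x).hasDerivWithinAt)
    (fun x hx => by rw [Real.norm_eq_abs]; exact hC x (abs_le.2 hx)) (abs_le.1 ht) (abs_le.1 hs)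
  rwa [Real.norm_eq_abs, Real.norm_eq_abs] at h

end ParBox

open ParBox

theorem parBox : ChainStmt → BoxStmt := by
  intro hch G hG B
  obtain ⟨-, hY, hZ, hdY, hdZ, -⟩ := hch G hG
  obtain ⟨C0, hC0, h0⟩ := bound hG B
  obtain ⟨C1, hC1, h1⟩ := bound hY B
  obtain ⟨C2, hC2, h2⟩ := bound hZ B
  refine ⟨C0 + C1 + C2, by positivity, fun x y z hy hz => ?_, fun x y z y' z' hy hz hy' hz' => ?_,
    fun hpos => lower hG hpos B⟩
  · have := h0 x y z hy hz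
    linarith
  · have e1 : |G x y z - G x y' z| ≤ C1 * |y - y'| :=
      lip (f := fun s => G x s z) (f' := fun s => dY G x s z) (fun s => hdY x s z)
        (fun s hs => h1 x s z hs hz) hy hy'
    have e2 : |G x y' z - G x y' z'| ≤ C2 * |z - z'| :=
      lip (f := fun s => G x y' s) (f' := fun s => dZ G x y' s) (fun s => hdZ x y' s)
        (fun s hs => h2 x y' s hy' hs) hz hz'
    have e3 : |G x y z - G x y' z'| ≤ |G x y z - G x y' z| + |G x y' z - G x y' z'| :=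
      abs_sub_le _ _ _
    have e4 : C1 * |y - y'| ≤ (C0 + C1 + C2) * |y - y'| :=
      mul_le_mul_of_nonneg_right (by linarith) (abs_nonneg _)
    have e5 : C2 * |z - z'| ≤ (C0 + C1 + C2) * |z - z'| :=
      mul_le_mul_of_nonneg_right (by linarith) (abs_nonneg _)
    rw [mul_add]
    linarith

end Pool.Agent.Lib.MP_c60e08_gt.Par
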