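import Pool.Agent.Lib.MP_c60e08_gt.ParSpec

/-!
MP_c60e08_gt, PDE part, module Chain: partial derivatives and the chain rule.
-/

namespace Pool.Agent.Lib.MP_c60e08_gt.Par.ParChain

open Real Set Filter

/-- the uncurried function -/
def gg (G : ℝ → ℝ → ℝ → ℝ) (q : ℝ × ℝ × ℝ) : ℝ := G q.1 q.2.1 q.2.2

lemma gg_fderiv {G : ℝ → ℝ → ℝ → ℝ} (hG : SG G) (q : ℝ × ℝ × ℝ) :
    HasFDerivAt (gg G) (fderiv ℝ (gg G) q) q :=
  ((hG.1 : ContDiff ℝ (⊤ : ℕ∞) (gg G)).differentiable (by simp) q).hasFDerivAt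

lemma hX {G : ℝ → ℝ → ℝ → ℝ} (hG : SG G) (x y z : ℝ) :
    HasDerivAt (fun s => G s y z) (fderiv ℝ (gg G) (x, y, z) (1, 0, 0)) x := by
  have h := (gg_fderiv hG (x, y, z)).comp_hasDerivAt x
    ((hasDerivAt_id x).prodMk ((hasDerivAt_const x y).prodMk (hasDerivAt_const x z)))
  exact h

lemma hY {G : ℝ → ℝ → ℝ → ℝ} (hG : SG G) (x y z : ℝ) :
    HasDerivAt (fun s => G x s z) (fderiv ℝ (gg G) (x, y, z) (0, 1, 0)) y := by
  have h := (gg_fderiv hG (x, y, z)).comp_hasDerivAt y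
    ((hasDerivAt_const y x).prodMk ((hasDerivAt_id y).prodMk (hasDerivAt_const y z)))
  exact h

lemma hZ {G : ℝ → ℝ → ℝ → ℝ} (hG : SG G) (x y z : ℝ) :
    HasDerivAt (fun s => G x y s) (fderiv ℝ (gg G) (x, y, z) (0, 0, 1)) z := by
  have h := (gg_fderiv hG (x, y, z)).comp_hasDerivAt z
    ((hasDerivAt_const z x).prodMk ((hasDerivAt_const z y).prodMk (hasDerivAt_id z)))
  exact h

lemma smooth_apply {G : ℝ → ℝ → ℝ → ℝ} (hG : SG G) (v : ℝ × ℝ × ℝ) :
    ContDiff ℝ (⊤ : ℕ∞) (fun q => fderiv ℝ (gg G) q v) := by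
  have h : ContDiff ℝ (⊤ : ℕ∞) (gg G) := hG.1
  have h1 : ContDiff ℝ (⊤ : ℕ∞) (fderiv ℝ (gg G)) := h.fderiv_right (by simp)
  exact h1.clm_apply contDiff_const

lemma fderiv_per {G : ℝ → ℝ → ℝ → ℝ} (hG : SG G) (x y z : ℝ) :
    fderiv ℝ (gg G) (x + 2 * π, y, z) = fderiv ℝ (gg G) (x, y, z) := by
  have h1 : (fun q : ℝ × ℝ × ℝ => gg G (q + (2 * π, 0, 0))) = gg G := by
    funext q
    obtain ⟨a, b, c⟩ := q
    simp only [gg, Prod.mk_add_mk, add_zero]
    exact hG.2 a b c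
  have h2 := fderiv_comp_add_right (𝕜 := ℝ) (f := gg G) (x := (x, y, z)) (2 * π, (0 : ℝ), (0 : ℝ))
  rw [h1] at h2
  rw [h2]
  simp

end Pool.Agent.Lib.MP_c60e08_gt.Par.ParChain

namespace Pool.Agent.Lib.MP_c60e08_gt.Par

open Real Set Filter ParChain

theorem parChain : ChainStmt := by
  intro G hG
  have eX : ∀ x y z, dX G x y z = fderiv ℝ (gg G) (x, y, z) (1, 0, 0) :=
    fun x y z => (hX hG x y z).deriv
  have eY : ∀ x y z, dY G x y z = fderiv ℝ (gg G) (x, y, z) (0, 1, 0) :=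
    fun x y z => (hY hG x y z).deriv
  have eZ : ∀ x y z, dZ G x y z = fderiv ℝ (gg G) (x, y, z) (0, 0, 1) :=
    fun x y z => (hZ hG x y z).deriv
  refine ⟨⟨?_, ?_⟩, ⟨?_, ?_⟩, ⟨?_, ?_⟩, ?_, ?_, ?_⟩
  · have : (fun q : ℝ × ℝ × ℝ => dX G q.1 q.2.1 q.2.2) =
        fun q => fderiv ℝ (gg G) q (1, 0, 0) := by
      funext q
      rw [eX]
    rw [this]
    exact smooth_apply hG _
  · intro x y z
    rw [eX, eX, fderiv_per hG]
  · have : (fun q : ℝ × ℝ × ℝ => dY G q.1 q.2.1 q.2.2) =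
        fun q => fderiv ℝ (gg G) q (0, 1, 0) := by
      funext q
      rw [eY]
    rw [this]
    exact smooth_apply hG _
  · intro x y z
    rw [eY, eY, fderiv_per hG]
  · have : (fun q : ℝ × ℝ × ℝ => dZ G q.1 q.2.1 q.2.2) =
        fun q => fderiv ℝ (gg G) q (0, 0, 1) := by
      funext q
      rw [eZ]
    rw [this]
    exact smooth_apply hG _
  · intro x y z
    rw [eZ, eZ, fderiv_per hG]
  · intro x y z
    rw [eY]
    exact hY hG x y z
  · intro x y z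
    rw [eZ]
    exact hZ hG x y z
  · intro y z hy hz
    refine ⟨⟨?_, ?_⟩, ?_⟩
    · have h : ContDiff ℝ (⊤ : ℕ∞) (gg G) := hG.1
      exact h.comp (contDiff_id.prodMk (hy.1.prodMk hz.1))
    · intro x
      unfold cp
      rw [hG.2, hy.2, hz.2]
    · intro x
      have dy : HasDerivAt y (D 1 y x) x := by
        have := (hy.1.differentiable (by simp) x).hasDerivAt
        simpa [D, iteratedDeriv_one] using this
      have dz : HasDerivAt z (D 1 z x) x := by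
        have := (hz.1.differentiable (by simp) x).hasDerivAt
        simpa [D, iteratedDeriv_one] using this
      have h := (gg_fderiv hG (x, y x, z x)).comp_hasDerivAt x
        ((hasDerivAt_id x).prodMk (dy.prodMk dz))
      have h1 : deriv (cp G y z) x = fderiv ℝ (gg G) (x, y x, z x) (1, D 1 y x, D 1 z x) :=
        h.deriv
      have h2 : ((1 : ℝ), D 1 y x, D 1 z x) =
          ((1 : ℝ), (0 : ℝ), (0 : ℝ)) + D 1 y x • ((0 : ℝ), (1 : ℝ), (0 : ℝ))
            + D 1 z x • ((0 : ℝ), (0 : ℝ), (1 : ℝ)) := by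
        simp
      change iteratedDeriv 1 (cp G y z) x = _
      rw [iteratedDeriv_one, h1, h2, map_add, map_add, map_smul, map_smul]
      simp only [cp, eX, eY, eZ, smul_eq_mul]
      ring

end Pool.Agent.Lib.MP_c60e08_gt.Par
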