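import Pool.Agent.Lib.MP_c60e08_gt.ParSpec

/-! Derivatives of composite functions are bounded. -/

set_option autoImplicit false

namespace Pool.Agent.Lib.MP_c60e08_gt.Par

open Real Set Filter MeasureTheory Pool.Agent.Lib.MP_c60e08_gt.Lm Pool.Agent.Lib.MP_c60e08_gt.Geo

namespace ParComp

lemma mul_bound {f g : ℝ → ℝ} (hf : ContDiff ℝ (⊤ : ℕ∞) f) (hg : ContDiff ℝ (⊤ : ℕ∞) g) (k : ℕ)
    {A B : ℝ} (hA : ∀ i ≤ k, Bd (D i f) A) (hB : ∀ i ≤ k, Bd (D i g) B) :
    Bd (D k (fun x => f x * g x)) (2 ^ k * A * B) := by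
  intro x
  have hA0 : 0 ≤ A := (abs_nonneg _).trans (hA 0 (Nat.zero_le _) x)
  have h1 : ‖iteratedFDeriv ℝ k (fun y => f y * g y) x‖ ≤ ∑ i ∈ Finset.range (k + 1),
      (k.choose i : ℝ) * ‖iteratedFDeriv ℝ i f x‖ * ‖iteratedFDeriv ℝ (k - i) g x‖ :=
    norm_iteratedFDeriv_mul_le hf hg x (by exact_mod_cast le_top)
  simp only [norm_iteratedFDeriv_eq_norm_iteratedDeriv, Real.norm_eq_abs] at h1
  refine h1.trans ?_
  calc ∑ i ∈ Finset.range (k + 1), (k.choose i : ℝ) * |iteratedDeriv i f x|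
        * |iteratedDeriv (k - i) g x|
      ≤ ∑ i ∈ Finset.range (k + 1), (k.choose i : ℝ) * (A * B) := by
        refine Finset.sum_le_sum fun i hi => ?_
        have hi' : i ≤ k := Nat.lt_succ_iff.mp (Finset.mem_range.mp hi)
        rw [mul_assoc]
        refine mul_le_mul_of_nonneg_left ?_ (Nat.cast_nonneg _)
        exact mul_le_mul (hA i hi' x) (hB (k - i) (Nat.sub_le _ _) x) (abs_nonneg _) hA0
    _ = 2 ^ k * A * B := by
        rw [← Finset.sum_mul, ← Nat.cast_sum, Nat.sum_range_choose]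
        push_cast
        ring

lemma D_succ (k : ℕ) (u : ℝ → ℝ) : D (k + 1) u = D k (D 1 u) := by
  unfold D
  rw [iteratedDeriv_succ', iteratedDeriv_one]

lemma D_add {f g : ℝ → ℝ} (hf : ContDiff ℝ (⊤ : ℕ∞) f) (hg : ContDiff ℝ (⊤ : ℕ∞) g) (k : ℕ)
    (x : ℝ) : D k (fun x => f x + g x) x = D k f x + D k g x := by
  have h1 : ContDiffAt ℝ k f x := (hf.of_le (by exact_mod_cast le_top)).contDiffAt
  have h2 : ContDiffAt ℝ k g x := (hg.of_le (by exact_mod_cast le_top)).contDiffAt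
  exact iteratedDeriv_fun_add h1 h2

lemma D_one_smooth {f : ℝ → ℝ} (hf : ContDiff ℝ (⊤ : ℕ∞) f) : ContDiff ℝ (⊤ : ℕ∞) (D 1 f) := by
  unfold D
  rw [iteratedDeriv_one]
  exact (contDiff_infty_iff_deriv.mp hf).2

end ParComp

open ParComp in
theorem parComp : ChainStmt → BoxStmt → CompStmt := by
  intro hC hB
  have key : ∀ k : ℕ, ∀ G, SG G → ∀ B : ℝ, ∃ C, ∀ y z, SP y → SP z →
      (∀ j ≤ k, Bd (D j y) B) → (∀ j ≤ k, Bd (D j z) B) → ∀ j ≤ k, Bd (D j (cp G y z)) C := by
    intro k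
    induction k with
    | zero =>
      intro G hG B
      obtain ⟨C, _, h1, _⟩ := hB G hG B
      refine ⟨C, fun y z _ _ hy hz j hj x => ?_⟩
      obtain rfl : j = 0 := Nat.le_zero.mp hj
      have h2 := hy 0 le_rfl x
      have h3 := hz 0 le_rfl x
      simp only [D, iteratedDeriv_zero] at h2 h3 ⊢
      exact h1 x _ _ h2 h3
    | succ k ih =>
      intro G hG B
      obtain ⟨hX, hY, hZ, _, _, hder⟩ := hC G hG
      obtain ⟨C0, h0⟩ := ih G hG B
      obtain ⟨C1, h1⟩ := ih (dX G) hX B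
      obtain ⟨C2, h2⟩ := ih (dY G) hY B
      obtain ⟨C3, h3⟩ := ih (dZ G) hZ B
      refine ⟨max C0 (C1 + 2 ^ k * C2 * B + 2 ^ k * C3 * B), fun y z hy hz hyB hzB j hj => ?_⟩
      have hyB' : ∀ j ≤ k, Bd (D j y) B := fun j hj => hyB j (by omega)
      have hzB' : ∀ j ≤ k, Bd (D j z) B := fun j hj => hzB j (by omega)
      rcases Nat.lt_or_ge k j with hkj | hkj
      · obtain rfl : j = k + 1 := by omega
        intro x
        refine le_trans ?_ (le_max_right _ _)
        have hd : D 1 (cp G y z) = fun x => cp (dX G) y z x + cp (dY G) y z x * D 1 y x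
            + cp (dZ G) y z x * D 1 z x := funext (hder y z hy hz).2
        have sX := ((hC _ hX).2.2.2.2.2 y z hy hz).1.1
        have sY := ((hC _ hY).2.2.2.2.2 y z hy hz).1.1
        have sZ := ((hC _ hZ).2.2.2.2.2 y z hy hz).1.1
        have sy := D_one_smooth hy.1
        have sz := D_one_smooth hz.1
        rw [D_succ, hd, D_add (sX.add (sY.mul sy)) (sZ.mul sz), D_add sX (sY.mul sy)]
        have b1 := h1 y z hy hz hyB' hzB' k le_rfl x
        have b2 := mul_bound sY sy k (h2 y z hy hz hyB' hzB')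
          (fun i hi => by rw [← D_succ]; exact hyB (i + 1) (by omega)) x
        have b3 := mul_bound sZ sz k (h3 y z hy hz hyB' hzB')
          (fun i hi => by rw [← D_succ]; exact hzB (i + 1) (by omega)) x
        refine (abs_add_le _ _).trans (add_le_add ((abs_add_le _ _).trans (add_le_add b1 b2)) b3)
      · intro x
        exact (h0 y z hy hz hyB' hzB' j hkj x).trans (le_max_left _ _)
  intro G hG k B
  exact key k G hG B

end Pool.Agent.Lib.MP_c60e08_gt.Par
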