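import Pool.Agent.Lib.MP_c60e08_gt.ParSpec

/-!
Expressions in the derivatives of a solution.
-/

namespace Pool.Agent.Lib.MP_c60e08_gt.Par

open Real Set Filter MeasureTheory Pool.Agent.Lib.MP_c60e08_gt.Lm Pool.Agent.Lib.MP_c60e08_gt.Geo

open scoped Topology

theorem ParEx.deriv_ex {T : ℝ} {y : ℕ → ℝ → ℝ → ℝ} (hy : PolarSol T y) (F : ℝ → ℝ → ℝ)
    (hF : Ex T y F) :
    ∃ F', Ex T y F' ∧ ∀ t ∈ Ioo 0 T, ∀ x, HasDerivAt (F t) (F' t x) x := by
  induction hF with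
  | var m => exact ⟨y (m + 1), Ex.var (m + 1), fun t ht x => hy.dx m t ⟨ht.1.le, ht.2⟩ x⟩
  | fn g hg =>
    have hd : ContDiff ℝ (⊤ : ℕ∞) (deriv g) := by
      have h1 : ContDiff ℝ (((⊤ : ℕ∞) : WithTop ℕ∞) + 1) g := by
        simpa using hg
      exact (contDiff_succ_iff_deriv.1 h1).2.2
    refine ⟨fun _ x => deriv g x, Ex.fn _ hd, fun t _ x => ?_⟩
    exact (hg.differentiable (by simp)).differentiableAt.hasDerivAt
  | add F G _ _ ihF ihG =>
    obtain ⟨F', hF', dF⟩ := ihF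
    obtain ⟨G', hG', dG⟩ := ihG
    exact ⟨_, Ex.add _ _ hF' hG', fun t ht x => (dF t ht x).add (dG t ht x)⟩
  | mul F G hF hG ihF ihG =>
    obtain ⟨F', hF', dF⟩ := ihF
    obtain ⟨G', hG', dG⟩ := ihG
    exact ⟨_, Ex.add _ _ (Ex.mul _ _ hF' hG) (Ex.mul _ _ hF hG'),
      fun t ht x => (dF t ht x).mul (dG t ht x)⟩
  | comp U g F hU hg hF hFU ihF =>
    obtain ⟨F', hF', dF⟩ := ihF
    have hd : ContDiffOn ℝ (⊤ : ℕ∞) (deriv g) U := hg.deriv_of_isOpen hU (by simp)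
    refine ⟨_, Ex.mul _ _ (Ex.comp U (deriv g) F hU hd hF hFU) hF', fun t ht x => ?_⟩
    have h1 : DifferentiableAt ℝ g (F t x) :=
      (hg.differentiableOn (by simp)).differentiableAt (hU.mem_nhds (hFU t ht x))
    exact h1.hasDerivAt.comp x (dF t ht x)

theorem ParEx.cs_ex {T : ℝ} {y : ℕ → ℝ → ℝ → ℝ} (n : ℕ) (hy : ∀ m, CS n 0 T (y m))
    (F : ℝ → ℝ → ℝ) (hF : Ex T y F) : CS n 0 T F := by
  induction hF with
  | var m => exact hy m
  | fn g hg =>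
    have h1 : ContDiff ℝ n g := hg.of_le (by exact_mod_cast le_top)
    exact (h1.comp contDiff_snd).contDiffOn
  | add F G _ _ ihF ihG => exact ContDiffOn.add ihF ihG
  | mul F G _ _ ihF ihG => exact ContDiffOn.mul ihF ihG
  | comp U g F hU hg _ hFU ihF =>
    have h1 : ContDiffOn ℝ n g U := hg.of_le (by exact_mod_cast le_top)
    refine ContDiffOn.comp h1 ihF ?_
    rintro ⟨t, x⟩ ⟨ht, -⟩
    exact hFU t ht x

theorem ParEx.const_ex {T : ℝ} {y : ℕ → ℝ → ℝ → ℝ} (c : ℝ) : Ex T y (fun _ _ => c) :=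
  Ex.fn (fun _ => c) contDiff_const

theorem parEx : ExStmt := by
  intro T y hy
  refine ⟨fun F hF => ParEx.deriv_ex hy F hF, fun n h F hF => ParEx.cs_ex n h F hF, ?_⟩
  have hexp : ContDiffOn ℝ (⊤ : ℕ∞) Real.exp univ := Real.contDiff_exp.contDiffOn
  -- exp of a multiple of y 0
  have he : ∀ c : ℝ, Ex T y (fun t x => Real.exp (c * y 0 t x)) := fun c =>
    Ex.comp univ Real.exp _ isOpen_univ hexp (Ex.mul _ _ (ParEx.const_ex c) (Ex.var 0))
      (fun _ _ _ => mem_univ _)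
  have he1 : Ex T y (fun t x => Real.exp (y 0 t x)) :=
    Ex.comp univ Real.exp _ isOpen_univ hexp (Ex.var 0) (fun _ _ _ => mem_univ _)
  -- the square of the distance
  have hu : Ex T y (fun t x => uu x (y 0 t x)) := by
    have h1 := Ex.add _ _ (Ex.add _ _ (he 2) (Ex.mul _ _ (Ex.mul _ _
      (ParEx.const_ex (-2)) he1) (Ex.fn (T := T) (y := y) (fun x => Real.cos x)
        Real.contDiff_cos))) (ParEx.const_ex 1)
    have h2 : (fun t x => uu x (y 0 t x)) = fun t x =>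
        Real.exp (2 * y 0 t x) + -2 * Real.exp (y 0 t x) * Real.cos x + 1 := by
      funext t x
      unfold uu
      ring
    rw [h2]
    exact h1
  have hfS : ContDiffOn ℝ (⊤ : ℕ∞) fS (Ioi 0) := by
    intro u hu'
    have h1 : ContDiffAt ℝ (⊤ : ℕ∞) (fun u : ℝ => u ^ ((2 : ℝ) / 3)) u :=
      Real.contDiffAt_rpow_const_of_ne (ne_of_gt hu')
    exact (contDiffAt_const.mul h1).contDiffWithinAt
  have h3 : Ex T y (fun t x => fS (uu x (y 0 t x))) :=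
    Ex.comp (Ioi 0) fS _ isOpen_Ioi hfS hu (fun t ht x => hy.pos t ⟨ht.1.le, ht.2⟩ x)
  have hinv : ContDiffOn ℝ (⊤ : ℕ∞) (fun u : ℝ => u⁻¹) (Ioi 0) := by
    intro u hu'
    exact (contDiffAt_inv ℝ (ne_of_gt hu')).contDiffWithinAt
  have h4 : Ex T y (fun t x => (1 + y 1 t x * y 1 t x)⁻¹) :=
    Ex.comp (Ioi 0) (fun u : ℝ => u⁻¹) _ isOpen_Ioi hinv
      (Ex.add _ _ (ParEx.const_ex 1) (Ex.mul _ _ (Ex.var 1) (Ex.var 1)))
      (fun t _ x => by
        have := mul_self_nonneg (y 1 t x)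
        rw [mem_Ioi]
        linarith)
  have h5 := Ex.mul _ _ (Ex.mul _ _ h3 (he (-2)))
    (Ex.add _ _ (Ex.mul _ _ (Ex.var 2) h4) (ParEx.const_ex (-1)))
  have h6 : (fun t p => fS (uu p (y 0 t p)) * Real.exp (-(2 * y 0 t p))
      * (y 2 t p / (1 + (y 1 t p) ^ 2) - 1)) = fun t x =>
      fS (uu x (y 0 t x)) * Real.exp (-2 * y 0 t x)
        * (y 2 t x * (1 + y 1 t x * y 1 t x)⁻¹ + -1) := by
    funext t x
    rw [div_eq_mul_inv, pow_two, neg_mul, sub_eq_add_neg]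
  rw [h6]
  exact h5

end Pool.Agent.Lib.MP_c60e08_gt.Par
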