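import Pool.Agent.Lib.MP_c60e08_gt.ParSpec

/-!
# MP_c60e08_gt, module ParFHigh

Derivatives of high order of the right hand side.
-/

namespace Pool.Agent.Lib.MP_c60e08_gt.Par

open Real Set Filter MeasureTheory Pool.Agent.Lib.MP_c60e08_gt.Lm Pool.Agent.Lib.MP_c60e08_gt.Geo

namespace ParFHigh

lemma D_D1 (m : ℕ) (u : ℝ → ℝ) : D m (D 1 u) = D (m + 1) u := by
  show iteratedDeriv m (iteratedDeriv 1 u) = iteratedDeriv (m + 1) u
  rw [iteratedDeriv_one, iteratedDeriv_succ']

lemma contDiff_D {u : ℝ → ℝ} (hu : SP u) : ContDiff ℝ (⊤ : ℕ∞) (D 1 u) := by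
  show ContDiff ℝ (⊤ : ℕ∞) (iteratedDeriv 1 u)
  rw [iteratedDeriv_one]
  exact (contDiff_infty_iff_deriv.1 hu.1).2

lemma contDiffAt_nat {u : ℝ → ℝ} (hu : ContDiff ℝ (⊤ : ℕ∞) u) (n : ℕ) (x : ℝ) :
    ContDiffAt ℝ n u x :=
  (hu.of_le (by exact_mod_cast le_top)).contDiffAt

/-- the Leibniz rule with the terms `0`, `1` and `k + 3` separated -/
lemma leib (k : ℕ) (A w : ℝ → ℝ) (hA : ContDiff ℝ (⊤ : ℕ∞) A) (hw : SP w) (x : ℝ) :
    D (k + 3) (fun x => A x * D 1 w x) x = A x * D (k + 4) w x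
      + ((k + 3 : ℕ) : ℝ) * D 1 A x * D (k + 3) w x
      + (∑ i ∈ Finset.range (k + 1), ((k + 3).choose (i + 2) : ℝ) * D (i + 2) A x * D (k + 2 - i) w x)
      + D (k + 3) A x * D 1 w x := by
  have h := iteratedDeriv_mul (n := k + 3) (f := A) (g := D 1 w) (x := x)
    (contDiffAt_nat hA _ x) (contDiffAt_nat (contDiff_D hw) _ x)
  rw [Finset.sum_range_succ', Finset.sum_range_succ', Finset.sum_range_succ] at h
  have e1 : iteratedDeriv (k + 3) (A * D 1 w) x = D (k + 3) (fun x => A x * D 1 w x) x := rfl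
  rw [e1] at h
  rw [h]
  have e2 : ∀ n, iteratedDeriv n (D 1 w) = D (n + 1) w := fun n => D_D1 n w
  simp only [e2]
  have e3 : ∑ i ∈ Finset.range (k + 1), ((k + 3).choose (i + 1 + 1) : ℝ) *
      iteratedDeriv (i + 1 + 1) A x * D (k + 3 - (i + 1 + 1) + 1) w x =
      ∑ i ∈ Finset.range (k + 1), ((k + 3).choose (i + 2) : ℝ) * D (i + 2) A x *
        D (k + 2 - i) w x := by
    refine Finset.sum_congr rfl fun i hi => ?_
    have h1 : i < k + 1 := Finset.mem_range.1 hi
    have h2 : k + 3 - (i + 1 + 1) + 1 = k + 2 - i := by omega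
    rw [h2]
  rw [e3]
  have h3 : k + 3 - (k + 1 + 1 + 1) + 1 = 1 := by omega
  have h4 : k + 3 - (0 + 1) + 1 = k + 3 := by omega
  have h5 : k + 3 - 0 + 1 = k + 4 := by omega
  rw [h3, h4, h5]
  have h6 : ((k + 3).choose (k + 1 + 1 + 1) : ℝ) = 1 := by
    have : (k + 3).choose (k + 1 + 1 + 1) = 1 := Nat.choose_self (k + 3)
    rw [this]
    norm_num
  have h7 : ((k + 3).choose (0 + 1) : ℝ) = ((k + 3 : ℕ) : ℝ) := by
    rw [zero_add, Nat.choose_one_right]
  have h8 : ((k + 3).choose 0 : ℝ) = 1 := by simp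
  rw [h6, h7, h8]
  have h9 : iteratedDeriv 0 A x = A x := by simp
  rw [h9]
  show _ = A x * D (k + 4) w x + ((k + 3 : ℕ) : ℝ) * iteratedDeriv (0 + 1) A x * D (k + 3) w x
      + _ + iteratedDeriv (k + 1 + 1 + 1) A x * D 1 w x
  ring

end ParFHigh

open ParFHigh in
theorem parFHigh : ChainStmt → CompStmt → Lin1Stmt → Lin2Stmt → FHighStmt := by
  intro hCh hCo hL1 hL2 a b ha hb k B
  obtain ⟨C1, hC1⟩ := hCo a ha (k + 1) B
  obtain ⟨C2, hC2p, hC2⟩ := hL1 a ha (k + 1) B
  obtain ⟨C3, hC3p, hC3⟩ := hL2 a ha k B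
  obtain ⟨C3', hC3p', hC3'⟩ := hL2 b hb k B
  obtain ⟨C4, hC4⟩ := hCo (dY a) (hCh a ha).2.1 0 B
  obtain ⟨C5, hC5⟩ := hCo (dY b) (hCh b hb).2.1 0 B
  set M : ℝ := (|C1| + C2) * (|B| + 1) with hM
  have hM0 : 0 ≤ M := by positivity
  set N : ℝ := ∑ i ∈ Finset.range (k + 1), ((k + 3).choose (i + 2) : ℝ) with hN
  have hN0 : 0 ≤ N := Finset.sum_nonneg fun i _ => by positivity
  refine ⟨N * M + (|C4| + C3) * |B| + |C5| + C3', by positivity, ?_⟩
  intro y z hy hz hyB hzB hz2 T hT hzT x
  have hT0 : 0 ≤ T := (abs_nonneg _).trans (hT 0)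
  have hBabs : ∀ {r : ℝ}, |r| ≤ B → |r| ≤ |B| := fun h => h.trans (le_abs_self B)
  -- smoothness
  have hcpa : SP (cp a y z) := ((hCh a ha).2.2.2.2.2 y z hy hz).1
  have hcpb : SP (cp b y z) := ((hCh b hb).2.2.2.2.2 y z hy hz).1
  -- the sum in the Leibniz rule
  have hS : |∑ i ∈ Finset.range (k + 1), ((k + 3).choose (i + 2) : ℝ) * D (i + 2) (cp a y z) x *
      D (k + 2 - i) z x| ≤ N * M * (1 + T) := by
    refine (Finset.abs_sum_le_sum_abs _ _).trans ?_
    rw [hN, Finset.sum_mul, Finset.sum_mul]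
    refine Finset.sum_le_sum fun i hi => ?_
    have hi' : i < k + 1 := Finset.mem_range.1 hi
    rw [abs_mul, abs_mul, Nat.abs_cast, mul_assoc, mul_assoc]
    refine mul_le_mul_of_nonneg_left ?_ (by positivity)
    rw [hM]
    by_cases hik : i = k
    · subst hik
      have h1 : |D (i + 2) (cp a y z) x| ≤ C2 * (1 + T) := by
        have := hC2 y z hy hz (fun j hj => hyB j (by omega)) (fun j hj => hzB j (by omega)) T hzT x
        exact this
      have h2 : |D (i + 2 - i) z x| ≤ |B| := by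
        have h3 : i + 2 - i = 2 := by omega
        rw [h3]
        exact hBabs (hz2 x)
      calc |D (i + 2) (cp a y z) x| * |D (i + 2 - i) z x| ≤ C2 * (1 + T) * |B| :=
            mul_le_mul h1 h2 (abs_nonneg _) (by positivity)
        _ ≤ (|C1| + C2) * (|B| + 1) * (1 + T) := by
            have h4 : C2 * |B| ≤ (|C1| + C2) * (|B| + 1) := by
              have := abs_nonneg C1
              have := abs_nonneg B
              nlinarith
            nlinarith [mul_le_mul_of_nonneg_right h4 (by linarith : (0 : ℝ) ≤ 1 + T)]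
    · have h1 : |D (i + 2) (cp a y z) x| ≤ |C1| := by
        have := hC1 y z hy hz (fun j hj => hyB j (by omega)) (fun j hj => hzB j (by omega))
          (i + 2) (by omega) x
        exact this.trans (le_abs_self _)
      have h2 : |D (k + 2 - i) z x| ≤ |B| + T := by
        by_cases hi0 : i = 0
        · subst hi0
          have h3 := hzT x
          have h4 : k + 2 - 0 = k + 2 := by omega
          rw [h4]
          have := abs_nonneg B
          linarith
        · have h3 := hBabs (hzB (k + 2 - i) (by omega) x)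
          linarith
      calc |D (i + 2) (cp a y z) x| * |D (k + 2 - i) z x| ≤ |C1| * (|B| + T) :=
            mul_le_mul h1 h2 (abs_nonneg _) (abs_nonneg _)
        _ ≤ (|C1| + C2) * (|B| + 1) * (1 + T) := by
            have h5 : |B| + T ≤ (|B| + 1) * (1 + T) := by
              have := abs_nonneg B
              nlinarith
            calc |C1| * (|B| + T) ≤ (|C1| + C2) * (|B| + T) :=
                  mul_le_mul_of_nonneg_right (by linarith) (by positivity)
              _ ≤ (|C1| + C2) * ((|B| + 1) * (1 + T)) :=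
                  mul_le_mul_of_nonneg_left h5 (by positivity)
              _ = _ := by ring
  -- the other estimates
  have hEa := hC3 y z hy hz hyB hzB T hzT x
  have hEb := hC3' y z hy hz hyB hzB T hzT x
  have h4 : |cp (dY a) y z x| ≤ |C4| := by
    have := hC4 y z hy hz (fun j hj => hyB j (by omega)) (fun j hj => hzB j (by omega)) 0 le_rfl x
    have h0 : D 0 (cp (dY a) y z) x = cp (dY a) y z x := by
      show iteratedDeriv 0 (cp (dY a) y z) x = _
      rw [iteratedDeriv_zero]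
    rw [h0] at this
    exact this.trans (le_abs_self _)
  have h5 : |cp (dY b) y z x| ≤ |C5| := by
    have := hC5 y z hy hz (fun j hj => hyB j (by omega)) (fun j hj => hzB j (by omega)) 0 le_rfl x
    have h0 : D 0 (cp (dY b) y z) x = cp (dY b) y z x := by
      show iteratedDeriv 0 (cp (dY b) y z) x = _
      rw [iteratedDeriv_zero]
    rw [h0] at this
    exact this.trans (le_abs_self _)
  have hz1 : |D 1 z x| ≤ |B| := hBabs (hzB 1 (by omega) x)
  have hyT := hT x
  -- the derivative of the right hand side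
  have hFF : D (k + 3) (FF a b y z) x = D (k + 3) (fun x => cp a y z x * D 1 z x) x
      + D (k + 3) (cp b y z) x := by
    have h1 : ContDiff ℝ (⊤ : ℕ∞) (fun x => cp a y z x * D 1 z x) := hcpa.1.mul (contDiff_D hz)
    exact iteratedDeriv_fun_add (contDiffAt_nat h1 _ x) (contDiffAt_nat hcpb.1 _ x)
  rw [hFF, leib k (cp a y z) z hcpa.1 hz x]
  set S := ∑ i ∈ Finset.range (k + 1), ((k + 3).choose (i + 2) : ℝ) * D (i + 2) (cp a y z) x *
      D (k + 2 - i) z x with hSdef
  set Ea := D (k + 3) (cp a y z) x - cp (dY a) y z x * D (k + 3) y x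
        - cp (dZ a) y z x * D (k + 3) z x with hEadef
  set Eb := D (k + 3) (cp b y z) x - cp (dY b) y z x * D (k + 3) y x
        - cp (dZ b) y z x * D (k + 3) z x with hEbdef
  have hkey : cp a y z x * D (k + 4) z x + ((k + 3 : ℕ) : ℝ) * D 1 (cp a y z) x * D (k + 3) z x
      + S + D (k + 3) (cp a y z) x * D 1 z x + D (k + 3) (cp b y z) x
      - cp a y z x * D (k + 4) z x - bet a b (k + 3) y z x * D (k + 3) z x
      = S + (cp (dY a) y z x * D (k + 3) y x) * D 1 z x + Ea * D 1 z x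
        + cp (dY b) y z x * D (k + 3) y x + Eb := by
    rw [hEadef, hEbdef, bet]
    push_cast
    ring
  rw [hkey]
  have i1 : |(cp (dY a) y z x * D (k + 3) y x) * D 1 z x| ≤ |C4| * T * |B| := by
    rw [abs_mul, abs_mul]
    exact mul_le_mul (mul_le_mul h4 hyT (abs_nonneg _) (abs_nonneg _)) hz1 (abs_nonneg _)
      (by positivity)
  have i2 : |Ea * D 1 z x| ≤ C3 * (1 + T) * |B| := by
    rw [abs_mul]
    exact mul_le_mul hEa hz1 (abs_nonneg _) (by positivity)
  have i3 : |cp (dY b) y z x * D (k + 3) y x| ≤ |C5| * T := by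
    rw [abs_mul]
    exact mul_le_mul h5 hyT (abs_nonneg _) (abs_nonneg _)
  have i4 : |S + (cp (dY a) y z x * D (k + 3) y x) * D 1 z x + Ea * D 1 z x
        + cp (dY b) y z x * D (k + 3) y x + Eb| ≤ N * M * (1 + T) + |C4| * T * |B|
        + C3 * (1 + T) * |B| + |C5| * T + C3' * (1 + T) := by
    refine (abs_add_le _ _).trans (add_le_add ?_ hEb)
    refine (abs_add_le _ _).trans (add_le_add ?_ i3)
    refine (abs_add_le _ _).trans (add_le_add ?_ i2)
    exact (abs_add_le _ _).trans (add_le_add hS i1)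
  refine i4.trans ?_
  have j1 : |C4| * T * |B| ≤ |C4| * |B| * (1 + T) := by
    have : 0 ≤ |C4| * |B| := by positivity
    nlinarith
  have j2 : |C5| * T ≤ |C5| * (1 + T) := by
    have := abs_nonneg C5
    nlinarith
  calc N * M * (1 + T) + |C4| * T * |B| + C3 * (1 + T) * |B| + |C5| * T + C3' * (1 + T)
      ≤ N * M * (1 + T) + |C4| * |B| * (1 + T) + C3 * (1 + T) * |B| + |C5| * (1 + T)
        + C3' * (1 + T) := by linarith
    _ = (N * M + (|C4| + C3) * |B| + |C5| + C3') * (1 + T) := by ring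

end Pool.Agent.Lib.MP_c60e08_gt.Par
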