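import Pool.Agent.Lib.MP_c60e08_gt.ParSpec

/-!
Module FLow: the derivatives of the right hand side of orders at most two.
-/

namespace Pool.Agent.Lib.MP_c60e08_gt.Par

open Real Set Filter MeasureTheory Pool.Agent.Lib.MP_c60e08_gt.Lm Pool.Agent.Lib.MP_c60e08_gt.Geo

open scoped Topology

namespace ParFLow

theorem D_D1 (k : ℕ) (z : ℝ → ℝ) : D k (D 1 z) = D (k + 1) z := by
  show iteratedDeriv k (iteratedDeriv 1 z) = iteratedDeriv (k + 1) z
  rw [iteratedDeriv_one, iteratedDeriv_succ']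

theorem smooth_D1 {z : ℝ → ℝ} (hz : ContDiff ℝ (⊤ : ℕ∞) z) : ContDiff ℝ (⊤ : ℕ∞) (D 1 z) := by
  show ContDiff ℝ (⊤ : ℕ∞) (iteratedDeriv 1 z)
  rw [iteratedDeriv_one]
  exact (contDiff_infty_iff_deriv.1 hz).2

theorem leib {A Z Bf : ℝ → ℝ} (hA : ContDiff ℝ (⊤ : ℕ∞) A) (hZ : ContDiff ℝ (⊤ : ℕ∞) Z)
    (hB : ContDiff ℝ (⊤ : ℕ∞) Bf) (m : ℕ) (x : ℝ) :
    D m (fun x => A x * D 1 Z x + Bf x) x
      = ∑ i ∈ Finset.range (m + 1), (m.choose i : ℝ) * D i A x * D (m - i + 1) Z x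
        + D m Bf x := by
  have hZ1 := smooth_D1 hZ
  have hle : ((m : ℕ∞) : WithTop ℕ∞) ≤ ((⊤ : ℕ∞) : WithTop ℕ∞) := by
    exact_mod_cast le_top
  have e : (fun x => A x * D 1 Z x + Bf x) = (A * D 1 Z) + Bf := rfl
  have h1 : ContDiffAt ℝ m (A * D 1 Z) x := ((hA.mul hZ1).of_le hle).contDiffAt
  have h2 : ContDiffAt ℝ m Bf x := (hB.of_le hle).contDiffAt
  rw [e]
  show iteratedDeriv m ((A * D 1 Z) + Bf) x = _
  rw [iteratedDeriv_add h1 h2, iteratedDeriv_mul (hA.of_le hle).contDiffAt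
    (hZ1.of_le hle).contDiffAt]
  congr 1
  refine Finset.sum_congr rfl fun i _ => ?_
  congr 1
  exact congrFun (D_D1 (m - i) Z) x

theorem mul2 {M a b : ℝ} (ha : |a| ≤ M) (hb : |b| ≤ M) : |a * b| ≤ M ^ 2 := by
  rw [abs_mul, sq]
  exact mul_le_mul ha hb (abs_nonneg _) ((abs_nonneg _).trans ha)

theorem mul3 {M a b c : ℝ} (ha : |a| ≤ M) (hb : |b| ≤ M) (hc : |c| ≤ M) :
    |a * b * c| ≤ M ^ 3 := by
  rw [abs_mul]
  calc |a * b| * |c| ≤ M ^ 2 * M := mul_le_mul (mul2 ha hb) hc (abs_nonneg _) (sq_nonneg _)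
    _ = M ^ 3 := by ring

end ParFLow

open ParFLow in
/-- FLOW. -/
theorem parFLow : ChainStmt → CompStmt → FLowStmt := by
  intro hCh hCo a b ha hb m hm B
  obtain ⟨Ca, hCa⟩ := hCo a ha 2 B
  obtain ⟨Cb, hCb⟩ := hCo b hb 2 B
  obtain ⟨C1, hC1⟩ := hCo (dZ a) (hCh a ha).2.2.1 2 B
  obtain ⟨C2, hC2⟩ := hCo (dZ b) (hCh b hb).2.2.1 2 B
  set M : ℝ := |Ca| + |Cb| + |C1| + |C2| + |B| with hM
  have hM0 : 0 ≤ M := by positivity
  have n1 := abs_nonneg Ca
  have n2 := abs_nonneg Cb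
  have n3 := abs_nonneg C1
  have n4 := abs_nonneg C2
  have n5 := abs_nonneg B
  refine ⟨M + 6 * M ^ 2 + M ^ 3, by positivity, ?_⟩
  intro y z hy hz hyB hzB x
  have hA : ∀ j ≤ 2, |D j (cp a y z) x| ≤ M := fun j hj =>
    (hCa y z hy hz hyB hzB j hj x).trans ((le_abs_self _).trans (by linarith))
  have hB : ∀ j ≤ 2, |D j (cp b y z) x| ≤ M := fun j hj =>
    (hCb y z hy hz hyB hzB j hj x).trans ((le_abs_self _).trans (by linarith))
  have h1 : |cp (dZ a) y z x| ≤ M := by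
    have := hC1 y z hy hz hyB hzB 0 (by norm_num) x
    simp only [iteratedDeriv_zero] at this
    exact this.trans ((le_abs_self _).trans (by linarith))
  have h2 : |cp (dZ b) y z x| ≤ M := by
    have := hC2 y z hy hz hyB hzB 0 (by norm_num) x
    simp only [iteratedDeriv_zero] at this
    exact this.trans ((le_abs_self _).trans (by linarith))
  have hz' : ∀ j ≤ 2, |D j z x| ≤ M := fun j hj =>
    (hzB j hj x).trans ((le_abs_self _).trans (by linarith))
  have sA : ContDiff ℝ (⊤ : ℕ∞) (cp a y z) := ((hCh a ha).2.2.2.2.2 y z hy hz).1.1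
  have sB : ContDiff ℝ (⊤ : ℕ∞) (cp b y z) := ((hCh b hb).2.2.2.2.2 y z hy hz).1.1
  have hL := leib sA hz.1 sB m x
  have e0 : FF a b y z = fun x => cp a y z x * D 1 z x + cp b y z x := rfl
  rw [e0, hL]
  have q0 : D 0 (cp a y z) x = cp a y z x := by simp [iteratedDeriv_zero]
  have q1 : D 0 (cp b y z) x = cp b y z x := by simp [iteratedDeriv_zero]
  have M2 : 0 ≤ M ^ 2 := by positivity
  have M3 : 0 ≤ M ^ 3 := by positivity
  interval_cases m
  · have a1 := hB 0 (by norm_num)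
    have a2 := mul3 h1 (hz' 1 (by norm_num)) (hz' 0 (by norm_num))
    have a3 := mul2 h2 (hz' 0 (by norm_num))
    have e : (∑ i ∈ Finset.range (0 + 1), ((0 : ℕ).choose i : ℝ) * D i (cp a y z) x *
        D (0 - i + 1) z x + D 0 (cp b y z) x) - cp a y z x * D (0 + 1) z x
        - bet a b 0 y z x * D 0 z x
        = D 0 (cp b y z) x - cp (dZ a) y z x * D 1 z x * D 0 z x
          - cp (dZ b) y z x * D 0 z x := by
      simp only [Finset.sum_range_succ, Finset.sum_range_zero, bet]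
      rw [q0]
      norm_num
      ring
    rw [e]
    rw [abs_le] at a1 a2 a3 ⊢
    constructor <;> linarith [a1.1, a1.2, a2.1, a2.2, a3.1, a3.2]
  · have a1 := hB 1 (by norm_num)
    have a2 := mul3 h1 (hz' 1 (by norm_num)) (hz' 1 (by norm_num))
    have a3 := mul2 h2 (hz' 1 (by norm_num))
    have e : (∑ i ∈ Finset.range (1 + 1), ((1 : ℕ).choose i : ℝ) * D i (cp a y z) x *
        D (1 - i + 1) z x + D 1 (cp b y z) x) - cp a y z x * D (1 + 1) z x
        - bet a b 1 y z x * D 1 z x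
        = D 1 (cp b y z) x - cp (dZ a) y z x * D 1 z x * D 1 z x
          - cp (dZ b) y z x * D 1 z x := by
      simp only [Finset.sum_range_succ, Finset.sum_range_zero, bet]
      rw [q0]
      norm_num
      ring
    rw [e]
    rw [abs_le] at a1 a2 a3 ⊢
    constructor <;> linarith [a1.1, a1.2, a2.1, a2.2, a3.1, a3.2]
  · have a1 := hB 2 (by norm_num)
    have a2 := mul3 h1 (hz' 1 (by norm_num)) (hz' 2 (by norm_num))
    have a3 := mul2 h2 (hz' 2 (by norm_num))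
    have a4 := mul2 (hA 2 (by norm_num)) (hz' 1 (by norm_num))
    have e : (∑ i ∈ Finset.range (2 + 1), ((2 : ℕ).choose i : ℝ) * D i (cp a y z) x *
        D (2 - i + 1) z x + D 2 (cp b y z) x) - cp a y z x * D (2 + 1) z x
        - bet a b 2 y z x * D 2 z x
        = D 2 (cp b y z) x - cp (dZ a) y z x * D 1 z x * D 2 z x
          - cp (dZ b) y z x * D 2 z x + D 2 (cp a y z) x * D 1 z x := by
      simp only [Finset.sum_range_succ, Finset.sum_range_zero, bet]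
      rw [q0]
      norm_num
      ring
    rw [e]
    rw [abs_le] at a1 a2 a3 a4 ⊢
    constructor <;> linarith [a1.1, a1.2, a2.1, a2.2, a3.1, a3.2, a4.1, a4.2]

end Pool.Agent.Lib.MP_c60e08_gt.Par
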