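import Pool.Agent.Lib.MP_c60e08_gt.ParSpec

set_option autoImplicit false

namespace Pool.Agent.Lib.MP_c60e08_gt.Par

open Real Set Filter MeasureTheory Pool.Agent.Lib.MP_c60e08_gt.Lm Pool.Agent.Lib.MP_c60e08_gt.Geo

open scoped Topology

namespace ParFin

lemma SP_deriv {u : ℝ → ℝ} (hu : SP u) : SP (deriv u) := by
  refine ⟨(contDiff_infty_iff_deriv.1 hu.1).2, fun x => ?_⟩
  have h : (fun x => u (x + 2 * π)) = u := funext hu.2
  calc deriv u (x + 2 * π) = deriv (fun x => u (x + 2 * π)) x := by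
        rw [deriv_comp_add_const]
    _ = deriv u x := by rw [h]

lemma SP_D {u : ℝ → ℝ} (hu : SP u) (m : ℕ) : SP (D m u) := by
  induction m with
  | zero => simpa [D, iteratedDeriv_zero] using hu
  | succ m ih =>
    have : D (m + 1) u = deriv (D m u) := iteratedDeriv_succ
    rw [this]
    exact SP_deriv ih

lemma SP_hasDerivAt {u : ℝ → ℝ} (hu : SP u) (m : ℕ) (x : ℝ) :
    HasDerivAt (D m u) (D (m + 1) u x) x := by
  have h1 : D (m + 1) u = deriv (D m u) := iteratedDeriv_succ
  rw [h1]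
  exact ((contDiff_infty_iff_deriv.1 (SP_D hu m).1).1 x).hasDerivAt

lemma D_one_D (u : ℝ → ℝ) (m : ℕ) : D 1 (D m u) = D (m + 1) u := by
  change iteratedDeriv 1 (iteratedDeriv m u) = iteratedDeriv (m + 1) u
  rw [iteratedDeriv_one, iteratedDeriv_succ]

lemma D_D_one (u : ℝ → ℝ) (m : ℕ) : D m (D 1 u) = D (m + 1) u := by
  change iteratedDeriv m (iteratedDeriv 1 u) = iteratedDeriv (m + 1) u
  rw [iteratedDeriv_one, iteratedDeriv_succ']

lemma D_two_D (u : ℝ → ℝ) (m : ℕ) : D 2 (D m u) = D (m + 2) u := by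
  have h2 : D 1 (D 1 (D m u)) = D 2 (D m u) := D_one_D (D m u) 1
  have h3 : D 1 (D 1 (D m u)) = D (m + 2) u := by
    rw [D_one_D u m, D_one_D u (m + 1)]
  rw [← h2, h3]

/-- step size -/
noncomputable def hh (k : ℕ) : ℝ := 1 / ((k : ℝ) + 1)

lemma hh_pos (k : ℕ) : 0 < hh k := by unfold hh; positivity

lemma hh_tendsto : Tendsto hh atTop (𝓝 0) := tendsto_one_div_add_atTop_nhds_zero_nat

lemma ev_le {c : ℝ} (hc : 0 < c) : ∀ᶠ k in atTop, hh k ≤ c :=
  hh_tendsto.eventually (Iic_mem_nhds hc)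

lemma ev_sq (C : ℝ) : ∀ᶠ k in atTop, C * hh k ^ 2 ≤ hh k := by
  have h : 0 < 1 / (|C| + 1) := by positivity
  filter_upwards [ev_le h] with k hk
  have h1 := hh_pos k
  have h2 : (|C| + 1) * hh k ≤ 1 := by
    rw [le_div_iff₀ (by positivity)] at hk
    linarith
  have h3 : C * hh k ≤ 1 := by
    have : C ≤ |C| + 1 := by linarith [le_abs_self C]
    nlinarith
  nlinarith

/-- number of steps -/
noncomputable def NN (η : ℝ) (k : ℕ) (t : ℝ) : ℕ := ⌊t / (η * hh k ^ 2)⌋₊

lemma NN_le {η : ℝ} (hη : 0 < η) (k : ℕ) {t : ℝ} (ht : 0 ≤ t) :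
    (NN η k t : ℝ) * (η * hh k ^ 2) ≤ t := by
  have hd : 0 < η * hh k ^ 2 := by have := hh_pos k; positivity
  have := Nat.floor_le (div_nonneg ht hd.le)
  rw [le_div_iff₀ hd] at this
  exact this

lemma lt_NN {η : ℝ} (hη : 0 < η) (k : ℕ) (t : ℝ) :
    t < ((NN η k t : ℝ) + 1) * (η * hh k ^ 2) := by
  have hd : 0 < η * hh k ^ 2 := by have := hh_pos k; positivity
  have := Nat.lt_floor_add_one (t / (η * hh k ^ 2))
  rw [div_lt_iff₀ hd] at this
  exact this

lemma NN_mono {η : ℝ} (hη : 0 < η) (k : ℕ) {s t : ℝ} (h : s ≤ t) : NN η k s ≤ NN η k t := by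
  have hd : 0 < η * hh k ^ 2 := by have := hh_pos k; positivity
  exact Nat.floor_mono (div_le_div_of_nonneg_right h hd.le)

lemma NN_diff {η : ℝ} (hη : 0 < η) (k : ℕ) {s t : ℝ} (hs : 0 ≤ s) (ht : 0 ≤ t) :
    |((NN η k t : ℝ) - NN η k s) * (η * hh k ^ 2) - (t - s)| ≤ η * hh k ^ 2 := by
  have h1 := NN_le hη k hs
  have h2 := NN_le hη k ht
  have h3 := lt_NN hη k s
  have h4 := lt_NN hη k t
  rw [abs_le]
  constructor <;> nlinarith

end ParFin

open ParFin in
theorem parFin : ParFinStmt := by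
  intro hR hCh hBox hIt hT1 hT2 hLim a b hac hbc hap hbp hpos M
  have hSa : SG a := ⟨hac, hap⟩
  have hSb : SG b := ⟨hbc, hbp⟩
  obtain ⟨η, hη, τ, hτ, K, hmain⟩ := hIt a b hSa hSb hpos M
  refine ⟨τ, hτ, K, fun y0 hy0 hy0p hy03 => ?_⟩
  have hSP : SP y0 := ⟨hy0, hy0p⟩
  obtain ⟨hsp, hub, h4⟩ := hmain y0 hSP (fun j hj x => hy03 j hj x)
  have hUB : UB a b η τ y0 := ⟨hsp, hub⟩
  set it : ℕ → ℝ → ℝ → ℝ := fun k t => (Ps a b η (hh k))^[NN η k t] y0 with hit
  have hitSP : ∀ k t, SP (it k t) := fun k t => hsp (hh k) (hh_pos k) _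
  have hNle : ∀ k, ∀ t ∈ Icc 0 τ, (NN η k t : ℝ) * (η * hh k ^ 2) ≤ τ := fun k t ht =>
    (NN_le hη k ht.1).trans ht.2
  have hbd : ∀ m, ∃ B, ∀ᶠ k in atTop, ∀ t ∈ Icc 0 τ, Bd (D m (it k t)) B := by
    intro m
    obtain ⟨B, h0, hh0, hB⟩ := hub m
    refine ⟨B, ?_⟩
    filter_upwards [ev_le hh0] with k hk t ht
    exact hB (hh k) (hh_pos k) hk _ (hNle k t ht)
  have hdpos : ∀ k, 0 < η * hh k ^ 2 := fun k => by have := hh_pos k; positivity
  obtain ⟨y, hq, hb1, hb2⟩ := hLim a b τ (fun k m t x => D m (it k t) x)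
    (fun k t x => R (hh k) (D 1 (it k t)) x) (fun k t x => R (hh k) (D 2 (it k t)) x) hh
    hac.continuous hbc.continuous hτ hh_tendsto
    (by
      intro m
      obtain ⟨B, hB⟩ := hbd m
      exact ⟨B, hB.mono fun k hk t ht x => hk t ht x⟩)
    (by
      intro k m t _ x
      exact SP_hasDerivAt (hitSP k t) m x)
    (by
      intro m
      obtain ⟨L, h0, hL, hh0, hLip⟩ := hT1 a b hSa hSb η τ y0 hη hSP hUB m
      refine ⟨L, ?_⟩
      filter_upwards [ev_le hh0, ev_sq (L * η)] with k hk hk2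
      have key : ∀ s ∈ Icc 0 τ, ∀ t ∈ Icc 0 τ, s ≤ t → ∀ x,
          |D m (it k t) x - D m (it k s) x| ≤ L * (t - s) + hh k := by
        intro s hs t ht hst x
        have h1 := hLip (hh k) (hh_pos k) hk (NN η k s) (NN η k t) (NN_mono hη k hst)
          (hNle k t ht) x
        have h2 := NN_diff hη k hs.1 ht.1
        have h3 : ((NN η k t : ℝ) - NN η k s) * (η * hh k ^ 2) ≤ (t - s) + η * hh k ^ 2 := by
          have := (abs_le.1 h2).2
          linarith
        calc |D m (it k t) x - D m (it k s) x|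
            ≤ L * (((NN η k t : ℝ) - NN η k s) * (η * hh k ^ 2)) := h1
          _ ≤ L * ((t - s) + η * hh k ^ 2) := mul_le_mul_of_nonneg_left h3 hL
          _ = L * (t - s) + L * η * hh k ^ 2 := by ring
          _ ≤ L * (t - s) + hh k := by linarith
      intro s hs t ht x
      rcases le_total s t with hst | hst
      · rw [abs_of_nonneg (sub_nonneg.2 hst)]
        exact key s hs t ht hst x
      · rw [abs_of_nonpos (sub_nonpos.2 hst), abs_sub_comm]
        have := key t ht s hs hst x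
        linarith)
    (by
      obtain ⟨L, h0, hL, hh0, hLip⟩ := hT2 a b hSa hSb η τ y0 hη hSP hUB
      obtain ⟨B0, hB0⟩ := hbd 0
      obtain ⟨B1, hB1⟩ := hbd 1
      obtain ⟨B2, hB2⟩ := hbd 2
      set B := max (max |B0| |B1|) |B2| with hBdef
      obtain ⟨Ca, hCa, hCa1, -, -⟩ := hBox a hSa B
      obtain ⟨Cb, hCb, hCb1, -, -⟩ := hBox b hSb B
      set CF := Ca * B + Cb with hCF
      have hBnn : 0 ≤ B := le_trans (abs_nonneg B2) (le_max_right _ _)
      have hCFnn : 0 ≤ CF := by positivity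
      refine ⟨2 * L, ?_⟩
      filter_upwards [ev_le hh0, ev_sq ((2 * L * η + CF) * η), hB0, hB1, hB2,
        ev_le (one_pos)] with k hk hk2 hk0 hk1 hkk2 hkone s hs t ht x
      have hF : Fh a b (hh k) (it k s) x = a x (D 0 (it k s) x) (R (hh k) (D 1 (it k s)) x)
          * R (hh k) (D 2 (it k s)) x + b x (D 0 (it k s) x) (R (hh k) (D 1 (it k s)) x) := by
        have hz := (hR (hh k) (D 1 (it k s)) (hh_pos k) (SP_D (hitSP k s) 1)).2.1 1
        simp only [Fh, FF, cp]
        rw [hz, D_one_D]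
        simp [D, iteratedDeriv_zero]
      have hr1 : |R (hh k) (D 1 (it k s)) x| ≤ B := by
        have := (hR (hh k) (D 1 (it k s)) (hh_pos k) (SP_D (hitSP k s) 1)).2.2.1 B
          (fun x => (hk1 s hs x).trans ((le_abs_self _).trans
            ((le_max_right _ _).trans (le_max_left _ _))))
        exact this x
      have hr2 : |R (hh k) (D 2 (it k s)) x| ≤ B := by
        have := (hR (hh k) (D 2 (it k s)) (hh_pos k) (SP_D (hitSP k s) 2)).2.2.1 B
          (fun x => (hkk2 s hs x).trans ((le_abs_self _).trans (le_max_right _ _)))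
        exact this x
      have hr0 : |D 0 (it k s) x| ≤ B := (hk0 s hs x).trans ((le_abs_self _).trans
            ((le_max_left _ _).trans (le_max_left _ _)))
      set F := a x (D 0 (it k s) x) (R (hh k) (D 1 (it k s)) x)
          * R (hh k) (D 2 (it k s)) x + b x (D 0 (it k s) x) (R (hh k) (D 1 (it k s)) x) with hFdef
      have hFb : |F| ≤ CF := by
        calc |F| ≤ |a x (D 0 (it k s) x) (R (hh k) (D 1 (it k s)) x)
              * R (hh k) (D 2 (it k s)) x| + |b x (D 0 (it k s) x) (R (hh k) (D 1 (it k s)) x)| :=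
              abs_add_le _ _
          _ ≤ Ca * B + Cb := by
              refine add_le_add ?_ (hCb1 x _ _ hr0 hr1)
              rw [abs_mul]
              exact mul_le_mul (hCa1 x _ _ hr0 hr1) hr2 (abs_nonneg _) hCa.le
      set δ := η * hh k ^ 2 with hδ
      have hδp : 0 < δ := hdpos k
      set ν := ((NN η k t : ℝ) - NN η k s) * δ with hν
      have hνd : |ν - (t - s)| ≤ δ := NN_diff hη k hs.1 ht.1
      have h0D : ∀ r, D 0 (it k r) x = (it k r) x := fun r => by simp [D, iteratedDeriv_zero]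
      have hmain2 : |(it k t) x - (it k s) x - ν * F| ≤ L * ν ^ 2 := by
        rcases le_total s t with hst | hst
        · have h := hLip (hh k) (hh_pos k) hk (NN η k s) (NN η k s) (NN η k t) le_rfl
            (NN_mono hη k hst) (hNle k t ht) x
          rw [← hF]
          exact h
        · have h := hLip (hh k) (hh_pos k) hk (NN η k t) (NN η k s) (NN η k s)
            (NN_mono hη k hst) le_rfl (hNle k s hs) x
          rw [← hF]
          have e1 : (it k t) x - (it k s) x - ν * Fh a b (hh k) (it k s) x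
              = -((it k s) x - (it k t) x - ((NN η k s : ℝ) - NN η k t) * δ
                * Fh a b (hh k) (it k s) x) := by rw [hν]; ring
          have e2 : L * ν ^ 2 = L * (((NN η k s : ℝ) - NN η k t) * δ) ^ 2 := by rw [hν]; ring
          rw [e1, abs_neg, e2]
          exact h
      change |D 0 (it k t) x - D 0 (it k s) x - (t - s) * F| ≤ 2 * L * (t - s) ^ 2 + hh k
      rw [h0D, h0D]
      have e3 : (it k t) x - (it k s) x - (t - s) * F
          = ((it k t) x - (it k s) x - ν * F) + (ν - (t - s)) * F := by ring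
      have h5 : |(ν - (t - s)) * F| ≤ δ * CF := by
        rw [abs_mul]
        exact mul_le_mul hνd hFb (abs_nonneg _) hδp.le
      have h6 : ν ^ 2 ≤ 2 * (t - s) ^ 2 + 2 * δ ^ 2 := by
        have h7 : (ν - (t - s)) ^ 2 ≤ δ ^ 2 := by
          rw [← sq_abs (ν - (t - s))]
          exact pow_le_pow_left₀ (abs_nonneg _) hνd 2
        nlinarith [sq_nonneg (ν - 2 * (t - s))]
      have h8 : δ ^ 2 ≤ η * δ := by
        have : hh k ^ 2 ≤ 1 := by
          have := hh_pos k
          nlinarith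
        have : δ ≤ η := by rw [hδ]; nlinarith
        nlinarith
      rw [e3]
      calc |((it k t) x - (it k s) x - ν * F) + (ν - (t - s)) * F|
          ≤ L * ν ^ 2 + δ * CF := (abs_add_le _ _).trans (add_le_add hmain2 h5)
        _ ≤ L * (2 * (t - s) ^ 2 + 2 * (η * δ)) + δ * CF := by
            have : ν ^ 2 ≤ 2 * (t - s) ^ 2 + 2 * (η * δ) := by linarith
            have := mul_le_mul_of_nonneg_left this hL
            linarith
        _ = 2 * L * (t - s) ^ 2 + (2 * L * η + CF) * η * hh k ^ 2 := by rw [hδ]; ring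
        _ ≤ 2 * L * (t - s) ^ 2 + hh k := by linarith)
    (by
      obtain ⟨B3, hB3⟩ := hbd 3
      obtain ⟨B4, hB4⟩ := hbd 4
      filter_upwards [hB3, hB4, ev_sq B3, ev_sq B4] with k hk3 hk4 hk5 hk6 s hs x
      constructor
      · have := (hR (hh k) (D 1 (it k s)) (hh_pos k) (SP_D (hitSP k s) 1)).2.2.2.2.1 B3
          (by rw [D_two_D]; exact hk3 s hs) x
        exact this.trans (by linarith)
      · have := (hR (hh k) (D 2 (it k s)) (hh_pos k) (SP_D (hitSP k s) 2)).2.2.2.2.1 B4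
          (by rw [D_two_D]; exact hk4 s hs) x
        exact this.trans (by linarith))
    (by
      intro k t _ x
      exact (SP_D (hitSP k t) 0).2 x)
  refine ⟨y, hq, fun x => ?_, fun M4 hM4 t ht x => ?_⟩
  · refine hb2 0 0 ⟨le_rfl, hτ.le⟩ x (y0 x) (Eventually.of_forall fun k => ?_)
    have : NN η k 0 = 0 := by simp [NN]
    simp [hit, this, D, iteratedDeriv_zero]
  · obtain ⟨h0, hh0, hB⟩ := h4 M4 hM4
    refine hb1 4 t ht x (K M4) ?_
    filter_upwards [ev_le hh0] with k hk
    exact hB (hh k) (hh_pos k) hk _ (hNle k t ht) x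

end Pool.Agent.Lib.MP_c60e08_gt.Par
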