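import Pool.Agent.Lib.MP_c60e08_gt.ParSpec

/-!
# MP_c60e08, PDE part: uniform bounds for the explicit scheme (module ITER)
-/

namespace Pool.Agent.Lib.MP_c60e08_gt.Par

open Real Set Filter

namespace ParIter

lemma sp_D {u : ℝ → ℝ} (hu : SP u) (m : ℕ) : SP (D m u) := by
  refine ⟨?_, fun x => ?_⟩
  · have h := hu.1.iterate_deriv m
    rw [← iteratedDeriv_eq_iterate] at h
    exact h
  · have h1 : (fun z => u (z + 2 * π)) = u := funext hu.2
    have h2 := iteratedDeriv_comp_add_const m u (2 * π)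
    rw [h1] at h2
    exact (congrFun h2 x).symm

lemma sp_add {u v : ℝ → ℝ} (hu : SP u) (hv : SP v) : SP (fun x => u x + v x) :=
  ⟨hu.1.add hv.1, fun x => by simp only [hu.2, hv.2]⟩

lemma sp_mul {u v : ℝ → ℝ} (hu : SP u) (hv : SP v) : SP (fun x => u x * v x) :=
  ⟨hu.1.mul hv.1, fun x => by simp only [hu.2, hv.2]⟩

lemma sp_const (c : ℝ) : SP (fun _ => c) := ⟨contDiff_const, fun _ => rfl⟩

lemma sp_bd {u : ℝ → ℝ} (hu : SP u) : ∃ B, 0 ≤ B ∧ Bd u B := by
  obtain ⟨B, hB⟩ := (isCompact_Icc (a := (0 : ℝ)) (b := 2 * π)).exists_bound_of_continuousOn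
    (f := u) hu.1.continuous.continuousOn
  have hpi : (0 : ℝ) ≤ 2 * π := by positivity
  refine ⟨B, (norm_nonneg _).trans (hB 0 ⟨le_refl _, hpi⟩), fun x => ?_⟩
  have hp : Function.Periodic u (2 * π) := hu.2
  obtain ⟨y, hy, hxy⟩ := hp.exists_mem_Ico₀ (by positivity) x
  rw [hxy]
  exact hB y ⟨hy.1, hy.2.le⟩

lemma bd_mono {u : ℝ → ℝ} {B B' : ℝ} (h : Bd u B) (hB : B ≤ B') : Bd u B' :=
  fun x => (h x).trans hB

lemma sp_Ps {a b : ℝ → ℝ → ℝ → ℝ} (ha : SG a) (hb : SG b) (hC : ChainStmt) (hR : RStmt)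
    (η h : ℝ) (hh : 0 < h) {y : ℝ → ℝ} (hy : SP y) : SP (Ps a b η h y) := by
  have hz : SP (R h (D 1 y)) := (hR h (D 1 y) hh (sp_D hy 1)).1
  have hA : SP (cp a y (R h (D 1 y))) := ((hC a ha).2.2.2.2.2 y _ hy hz).1
  have hB : SP (cp b y (R h (D 1 y))) := ((hC b hb).2.2.2.2.2 y _ hy hz).1
  have hF : SP (Fh a b h y) := sp_add (sp_mul hA (sp_D hz 1)) hB
  exact sp_add hy (sp_mul (sp_const _) hF)

lemma sp_iter {a b : ℝ → ℝ → ℝ → ℝ} (ha : SG a) (hb : SG b) (hC : ChainStmt) (hR : RStmt)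
    (η h : ℝ) (hh : 0 < h) {y : ℝ → ℝ} (hy : SP y) (n : ℕ) : SP ((Ps a b η h)^[n] y) := by
  induction n with
  | zero => exact hy
  | succ n ih =>
    rw [Function.iterate_succ_apply']
    exact sp_Ps ha hb hC hR η h hh ih

/-- the step, in the form used below -/
def StepAt (a b : ℝ → ℝ → ℝ → ℝ) (η B : ℝ) (m : ℕ) (B' C h0 : ℝ) : Prop :=
  ∀ h, 0 < h → h ≤ h0 → ∀ y, SP y →
      (∀ j ≤ 3, Bd (D j y) B) → (∀ j < m, Bd (D j y) B') → ∀ T, Bd (D m y) T →
        SP (Ps a b η h y) ∧ Bd (D m (Ps a b η h y)) (T + η * h ^ 2 * (C * (1 + T)))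

/-- growth of the `m`-th derivative when all lower derivatives are bounded -/
lemma grow {a b : ℝ → ℝ → ℝ → ℝ} {η B τ : ℝ} (hη : 0 < η) {m : ℕ} {B' C h0 h : ℝ}
    (hC : 0 ≤ C) (hst : StepAt a b η B m B' C h0) (hh : 0 < h) (hh0 : h ≤ h0) {y0 : ℝ → ℝ}
    (hsp : ∀ n : ℕ, SP ((Ps a b η h)^[n] y0))
    (hB : ∀ n : ℕ, n * (η * h ^ 2) ≤ τ → ∀ j ≤ 3, Bd (D j ((Ps a b η h)^[n] y0)) B)
    (hB' : ∀ n : ℕ, n * (η * h ^ 2) ≤ τ → ∀ j < m, Bd (D j ((Ps a b η h)^[n] y0)) B')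
    {T : ℝ} (hT : Bd (D m y0) T) (n : ℕ) (hn : n * (η * h ^ 2) ≤ τ) :
    Bd (D m ((Ps a b η h)^[n] y0)) ((1 + T) * exp (C * τ)) := by
  have hT0 : 0 ≤ T := (abs_nonneg _).trans (hT 0)
  have hq : 0 < η * h ^ 2 := by positivity
  have key : ∀ n : ℕ, n * (η * h ^ 2) ≤ τ →
      Bd (D m ((Ps a b η h)^[n] y0)) ((1 + T) * (1 + η * h ^ 2 * C) ^ n - 1) := by
    intro n
    induction n with
    | zero =>
      intro _
      simpa using hT
    | succ n ih =>
      intro hn1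
      have hn0 : (n : ℝ) * (η * h ^ 2) ≤ τ := by
        push_cast at hn1
        nlinarith
      have h1 := (hst h hh hh0 _ (hsp n) (hB n hn0) (hB' n hn0) _ (ih hn0)).2
      rw [Function.iterate_succ_apply']
      refine bd_mono h1 (le_of_eq ?_)
      rw [pow_succ]
      ring
  refine bd_mono (key n hn) ?_
  have h2 : (1 + η * h ^ 2 * C) ^ n ≤ exp (C * τ) := by
    have h3 : 1 + η * h ^ 2 * C ≤ exp (η * h ^ 2 * C) := by
      have := add_one_le_exp (η * h ^ 2 * C)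
      linarith
    have h4 : (1 + η * h ^ 2 * C) ^ n ≤ exp (η * h ^ 2 * C) ^ n :=
      pow_le_pow_left₀ (by positivity) h3 n
    refine h4.trans ?_
    rw [← exp_nat_mul]
    apply exp_le_exp.2
    have := mul_le_mul_of_nonneg_left hn hC
    linarith
  have h5 : (1 + T) * (1 + η * h ^ 2 * C) ^ n ≤ (1 + T) * exp (C * τ) :=
    mul_le_mul_of_nonneg_left h2 (by linarith)
  linarith

end ParIter

open ParIter in
/-- Uniform bounds for the scheme up to a time `τ` which depends only on `M`. -/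
theorem parIter : StepStmt → ChainStmt → RStmt → IterStmt := by
  intro hS hC hR a b ha hb hpos M
  rcases lt_or_ge M 0 with hM | hM
  · refine ⟨1, one_pos, 1, one_pos, fun _ => 0, fun y0 _ hy => ?_⟩
    exact absurd ((abs_nonneg _).trans (hy 0 (by norm_num) 0)) (not_le.2 hM)
  set B : ℝ := M + 1 with hBdef
  obtain ⟨η, hη, hstep⟩ := hS a b ha hb hpos B
  choose C h0 hC0 hh0 hst using fun m => hstep m B
  have hst' : ∀ m, StepAt a b η B m B (C m) (h0 m) := hst
  set C3 : ℝ := C 0 + C 1 + C 2 + C 3 with hC3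
  have hC3nn : 0 ≤ C3 := by
    have := hC0 0; have := hC0 1; have := hC0 2; have := hC0 3
    positivity
  set h3 : ℝ := min (min (h0 0) (h0 1)) (min (h0 2) (h0 3)) with hh3
  have hh3pos : 0 < h3 := lt_min (lt_min (hh0 0) (hh0 1)) (lt_min (hh0 2) (hh0 3))
  have hBpos : 0 < 1 + B := by linarith
  set τ : ℝ := 1 / ((C3 + 1) * (1 + B)) with hτ
  have hτpos : 0 < τ := by positivity
  have hτC : τ * (C3 * (1 + B)) ≤ 1 := by
    rw [hτ, one_div, inv_mul_le_iff₀ (by positivity)]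
    nlinarith
  refine ⟨η, hη, τ, hτpos, fun M4 => (1 + M4) * exp (C 4 * τ), fun y0 hy0 hyM => ?_⟩
  have hsp : ∀ h, 0 < h → ∀ n : ℕ, SP ((Ps a b η h)^[n] y0) := fun h hh n =>
    sp_iter ha hb hC hR η h hh hy0 n
  -- low orders
  have low0 : ∀ h, 0 < h → h ≤ h3 → ∀ n : ℕ, n * (η * h ^ 2) ≤ τ → ∀ j ≤ 3,
      Bd (D j ((Ps a b η h)^[n] y0)) (M + n * (η * h ^ 2) * (C3 * (1 + B))) := by
    intro h hh hhle n
    have hq : 0 < η * h ^ 2 := by positivity
    induction n with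
    | zero =>
      intro _ j hj
      simpa using hyM j hj
    | succ n ih =>
      intro hn1 j hj
      have hn0 : (n : ℝ) * (η * h ^ 2) ≤ τ := by
        push_cast at hn1
        nlinarith
      have hT : M + n * (η * h ^ 2) * (C3 * (1 + B)) ≤ B := by
        have h1 : (n : ℝ) * (η * h ^ 2) * (C3 * (1 + B)) ≤ τ * (C3 * (1 + B)) :=
          mul_le_mul_of_nonneg_right hn0 (by positivity)
        linarith
      have hIB : ∀ i ≤ 3, Bd (D i ((Ps a b η h)^[n] y0)) B := fun i hi =>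
        bd_mono (ih hn0 i hi) hT
      have hle : h ≤ h0 j ∧ C j ≤ C3 := by
        have e0 := hC0 0; have e1 := hC0 1; have e2 := hC0 2; have e3 := hC0 3
        have f1 : h3 ≤ min (h0 0) (h0 1) := min_le_left _ _
        have f2 : h3 ≤ min (h0 2) (h0 3) := min_le_right _ _
        have g0 := min_le_left (h0 0) (h0 1)
        have g1 := min_le_right (h0 0) (h0 1)
        have g2 := min_le_left (h0 2) (h0 3)
        have g3 := min_le_right (h0 2) (h0 3)
        interval_cases j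
        · exact ⟨by linarith, by linarith⟩
        · exact ⟨by linarith, by linarith⟩
        · exact ⟨by linarith, by linarith⟩
        · exact ⟨by linarith, by linarith⟩
      have h1 := (hst' j h hh hle.1 _ (hsp h hh n) hIB (fun i hi => hIB i (by omega)) _
        (ih hn0 j hj)).2
      rw [Function.iterate_succ_apply']
      refine bd_mono h1 ?_
      set T : ℝ := M + n * (η * h ^ 2) * (C3 * (1 + B)) with hTdef
      have hTnn : 0 ≤ T := by positivity
      have h2 : C j * (1 + T) ≤ C3 * (1 + B) :=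
        mul_le_mul hle.2 (by linarith) (by linarith) hC3nn
      have h3' : η * h ^ 2 * (C j * (1 + T)) ≤ η * h ^ 2 * (C3 * (1 + B)) :=
        mul_le_mul_of_nonneg_left h2 hq.le
      push_cast
      linarith
  have low : ∀ h, 0 < h → h ≤ h3 → ∀ n : ℕ, n * (η * h ^ 2) ≤ τ → ∀ j ≤ 3,
      Bd (D j ((Ps a b η h)^[n] y0)) B := by
    intro h hh hhle n hn j hj
    refine bd_mono (low0 h hh hhle n hn j hj) ?_
    have h1 : (n : ℝ) * (η * h ^ 2) * (C3 * (1 + B)) ≤ τ * (C3 * (1 + B)) :=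
      mul_le_mul_of_nonneg_right hn (by positivity)
    linarith
  -- all orders
  have all : ∀ m : ℕ, ∃ B' h' : ℝ, 0 < h' ∧ ∀ h, 0 < h → h ≤ h' → ∀ n : ℕ,
      n * (η * h ^ 2) ≤ τ → ∀ j < m, Bd (D j ((Ps a b η h)^[n] y0)) B' := by
    intro m
    induction m with
    | zero => exact ⟨0, 1, one_pos, fun h _ _ n _ j hj => absurd hj (Nat.not_lt_zero j)⟩
    | succ m ih =>
      obtain ⟨B', h', hh', hB'⟩ := ih
      obtain ⟨Cm, hm, hCm, hhm, hstm⟩ := hstep m B'
      obtain ⟨T, _, hT⟩ := sp_bd (sp_D hy0 m)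
      refine ⟨max B' ((1 + T) * exp (Cm * τ)), min h' (min hm h3),
        lt_min hh' (lt_min hhm hh3pos), fun h hh hhle n hn j hj => ?_⟩
      have l1 : h ≤ h' := hhle.trans (min_le_left _ _)
      have l2 : h ≤ hm := (hhle.trans (min_le_right _ _)).trans (min_le_left _ _)
      have l3 : h ≤ h3 := (hhle.trans (min_le_right _ _)).trans (min_le_right _ _)
      rcases Nat.lt_succ_iff_lt_or_eq.1 hj with hj | rfl
      · exact bd_mono (hB' h hh l1 n hn j hj) (le_max_left _ _)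
      · refine bd_mono ?_ (le_max_right _ _)
        exact grow hη hCm hstm hh l2 (hsp h hh) (low h hh l3) (hB' h hh l1) hT n hn
  refine ⟨hsp, fun m => ?_, fun M4 hM4 => ?_⟩
  · obtain ⟨B', h', hh', hB'⟩ := all (m + 1)
    exact ⟨B', h', hh', fun h hh hhle n hn => hB' h hh hhle n hn m (Nat.lt_succ_self m)⟩
  · refine ⟨min (h0 4) h3, lt_min (hh0 4) hh3pos, fun h hh hhle n hn => ?_⟩
    have l1 : h ≤ h0 4 := hhle.trans (min_le_left _ _)
    have l3 : h ≤ h3 := hhle.trans (min_le_right _ _)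
    exact grow hη (hC0 4) (hst' 4) hh l1 (hsp h hh) (low h hh l3)
      (fun n hn j hj => low h hh l3 n hn j (by omega)) hM4 n hn

end Pool.Agent.Lib.MP_c60e08_gt.Par
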