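import Pool.Agent.Lib.MP_c60e08_gt.ParSpec2
import Pool.Agent.Lib.MP_c60e08_gt.ParIter

set_option autoImplicit false

namespace Pool.Agent.Lib.MP_c60e08_gt.Par

open Real Set Filter MeasureTheory Pool.Agent.Lib.MP_c60e08_gt.Lm Pool.Agent.Lib.MP_c60e08_gt.Geo

open scoped Topology

open ParIter in
/-- Uniform bounds for the scheme up to a time `τ` which depends only on `M`. -/
theorem parIter2 : StepStmt → ChainStmt → RStmt → Iter2Stmt := by
  intro hS hC hR a b ha hb hpos M
  rcases lt_or_ge M 0 with hM | hM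
  · refine ⟨1, one_pos, 1, one_pos, fun _ => 0, fun y0 _ hy => ?_⟩
    exact absurd ((abs_nonneg _).trans (hy 0 (by norm_num) 0)) (not_le.2 hM)
  set B : ℝ := M + 1 with hBdef
  obtain ⟨η, hη, hstep⟩ := hS a b ha hb hpos B
  choose C h0 hC0 hh0 hst using fun m => hstep m B
  have hst' : ∀ m, StepAt a b η B m B (C m) (h0 m) := hst
  set C3 : ℝ := C 0 + C 1 + C 2 + C 3 with hC3
  have hC3nn : 0 ≤ C3 := by
    have := hC0 0; have := hC0 1; have := hC0 2; have := hC0 3
    positivity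
  set h3 : ℝ := min (min (h0 0) (h0 1)) (min (h0 2) (h0 3)) with hh3
  have hh3pos : 0 < h3 := lt_min (lt_min (hh0 0) (hh0 1)) (lt_min (hh0 2) (hh0 3))
  have hBpos : 0 < 1 + B := by linarith
  set τ : ℝ := 1 / ((C3 + 1) * (1 + B)) with hτ
  have hτpos : 0 < τ := by positivity
  have hτC : τ * (C3 * (1 + B)) ≤ 1 := by
    rw [hτ, one_div, inv_mul_le_iff₀ (by positivity)]
    nlinarith
  refine ⟨η, hη, τ, hτpos, fun M4 => (1 + M4) * exp (C 4 * τ), fun y0 hy0 hyM => ?_⟩
  have hsp : ∀ h, 0 < h → ∀ n : ℕ, SP ((Ps a b η h)^[n] y0) := fun h hh n =>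
    sp_iter ha hb hC hR η h hh hy0 n
  -- low orders
  have low0 : ∀ h, 0 < h → h ≤ h3 → ∀ n : ℕ, n * (η * h ^ 2) ≤ τ → ∀ j ≤ 3,
      Bd (D j ((Ps a b η h)^[n] y0)) (M + n * (η * h ^ 2) * (C3 * (1 + B))) := by
    intro h hh hhle n
    have hq : 0 < η * h ^ 2 := by positivity
    induction n with
    | zero =>
      intro _ j hj
      simpa using hyM j hj
    | succ n ih =>
      intro hn1 j hj
      have hn0 : (n : ℝ) * (η * h ^ 2) ≤ τ := by
        push_cast at hn1
        nlinarith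
      have hT : M + n * (η * h ^ 2) * (C3 * (1 + B)) ≤ B := by
        have h1 : (n : ℝ) * (η * h ^ 2) * (C3 * (1 + B)) ≤ τ * (C3 * (1 + B)) :=
          mul_le_mul_of_nonneg_right hn0 (by positivity)
        linarith
      have hIB : ∀ i ≤ 3, Bd (D i ((Ps a b η h)^[n] y0)) B := fun i hi =>
        bd_mono (ih hn0 i hi) hT
      have hle : h ≤ h0 j ∧ C j ≤ C3 := by
        have e0 := hC0 0; have e1 := hC0 1; have e2 := hC0 2; have e3 := hC0 3
        have f1 : h3 ≤ min (h0 0) (h0 1) := min_le_left _ _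
        have f2 : h3 ≤ min (h0 2) (h0 3) := min_le_right _ _
        have g0 := min_le_left (h0 0) (h0 1)
        have g1 := min_le_right (h0 0) (h0 1)
        have g2 := min_le_left (h0 2) (h0 3)
        have g3 := min_le_right (h0 2) (h0 3)
        interval_cases j
        · exact ⟨by linarith, by linarith⟩
        · exact ⟨by linarith, by linarith⟩
        · exact ⟨by linarith, by linarith⟩
        · exact ⟨by linarith, by linarith⟩
      have h1 := (hst' j h hh hle.1 _ (hsp h hh n) hIB (fun i hi => hIB i (by omega)) _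
        (ih hn0 j hj)).2
      rw [Function.iterate_succ_apply']
      refine bd_mono h1 ?_
      set T : ℝ := M + n * (η * h ^ 2) * (C3 * (1 + B)) with hTdef
      have hTnn : 0 ≤ T := by positivity
      have h2 : C j * (1 + T) ≤ C3 * (1 + B) :=
        mul_le_mul hle.2 (by linarith) (by linarith) hC3nn
      have h3' : η * h ^ 2 * (C j * (1 + T)) ≤ η * h ^ 2 * (C3 * (1 + B)) :=
        mul_le_mul_of_nonneg_left h2 hq.le
      push_cast
      linarith
  have low : ∀ h, 0 < h → h ≤ h3 → ∀ n : ℕ, n * (η * h ^ 2) ≤ τ → ∀ j ≤ 3,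
      Bd (D j ((Ps a b η h)^[n] y0)) B := by
    intro h hh hhle n hn j hj
    refine bd_mono (low0 h hh hhle n hn j hj) ?_
    have h1 : (n : ℝ) * (η * h ^ 2) * (C3 * (1 + B)) ≤ τ * (C3 * (1 + B)) :=
      mul_le_mul_of_nonneg_right hn (by positivity)
    linarith
  -- all orders
  have all : ∀ m : ℕ, ∃ B' h' : ℝ, 0 < h' ∧ ∀ h, 0 < h → h ≤ h' → ∀ n : ℕ,
      n * (η * h ^ 2) ≤ τ → ∀ j < m, Bd (D j ((Ps a b η h)^[n] y0)) B' := by
    intro m
    induction m with
    | zero => exact ⟨0, 1, one_pos, fun h _ _ n _ j hj => absurd hj (Nat.not_lt_zero j)⟩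
    | succ m ih =>
      obtain ⟨B', h', hh', hB'⟩ := ih
      obtain ⟨Cm, hm, hCm, hhm, hstm⟩ := hstep m B'
      obtain ⟨T, _, hT⟩ := sp_bd (sp_D hy0 m)
      refine ⟨max B' ((1 + T) * exp (Cm * τ)), min h' (min hm h3),
        lt_min hh' (lt_min hhm hh3pos), fun h hh hhle n hn j hj => ?_⟩
      have l1 : h ≤ h' := hhle.trans (min_le_left _ _)
      have l2 : h ≤ hm := (hhle.trans (min_le_right _ _)).trans (min_le_left _ _)
      have l3 : h ≤ h3 := (hhle.trans (min_le_right _ _)).trans (min_le_right _ _)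
      rcases Nat.lt_succ_iff_lt_or_eq.1 hj with hj | rfl
      · exact bd_mono (hB' h hh l1 n hn j hj) (le_max_left _ _)
      · refine bd_mono ?_ (le_max_right _ _)
        exact grow hη hCm hstm hh l2 (hsp h hh) (low h hh l3) (hB' h hh l1) hT n hn
  refine ⟨hsp, fun m => ?_, fun M4 hM4 => ?_,
    fun j hj => ⟨h3, hh3pos, fun h hh hhle n hn => low h hh hhle n hn j hj⟩⟩
  · obtain ⟨B', h', hh', hB'⟩ := all (m + 1)
    exact ⟨B', h', hh', fun h hh hhle n hn => hB' h hh hhle n hn m (Nat.lt_succ_self m)⟩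
  · refine ⟨min (h0 4) h3, lt_min (hh0 4) hh3pos, fun h hh hhle n hn => ?_⟩
    have l1 : h ≤ h0 4 := hhle.trans (min_le_left _ _)
    have l3 : h ≤ h3 := hhle.trans (min_le_right _ _)
    exact grow hη (hC0 4) (hst' 4) hh l1 (hsp h hh) (low h hh l3)
      (fun n hn j hj => low h hh l3 n hn j (by omega)) hM4 n hn

end Pool.Agent.Lib.MP_c60e08_gt.Par
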