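import Pool.Agent.Lib.MP_c60e08_gt.ParSpec

/-! The abstract limit lemma for the approximation scheme. -/

set_option autoImplicit false

namespace Pool.Agent.Lib.MP_c60e08_gt.Par

open Real Set Filter MeasureTheory Pool.Agent.Lib.MP_c60e08_gt.Lm Pool.Agent.Lib.MP_c60e08_gt.Geo

open scoped Topology

namespace ParLim

lemma hasDerivWithinAt_of_quadratic {f : ℝ → ℝ} {D B x : ℝ} {S : Set ℝ}
    (h : ∀ x' ∈ S, |f x' - f x - (x' - x) * D| ≤ B * (x' - x) ^ 2) :
    HasDerivWithinAt f D S x := by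
  rw [hasDerivWithinAt_iff_isLittleO, Asymptotics.isLittleO_iff]
  intro c hc
  have h1 : ∀ᶠ x' in 𝓝[S] x, |x' - x| < c / (|B| + 1) := by
    have h2 : Tendsto (fun x' : ℝ => |x' - x|) (𝓝[S] x) (𝓝 0) := by
      have h3 : ContinuousAt (fun x' : ℝ => |x' - x|) x := by fun_prop
      have h4 := h3.tendsto
      simp only [sub_self, abs_zero] at h4
      exact h4.mono_left nhdsWithin_le_nhds
    exact h2.eventually (gt_mem_nhds (by positivity))
  filter_upwards [h1, self_mem_nhdsWithin] with x' hx' hS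
  rw [smul_eq_mul, Real.norm_eq_abs, Real.norm_eq_abs]
  refine (h x' hS).trans ?_
  have h5 : |x' - x| * (|B| + 1) ≤ c := by
    rw [lt_div_iff₀ (by positivity)] at hx'
    exact hx'.le
  have h6 : B ≤ |B| + 1 := by linarith [le_abs_self B]
  calc B * (x' - x) ^ 2 ≤ (|B| + 1) * |x' - x| ^ 2 := by
        rw [sq_abs]
        exact mul_le_mul_of_nonneg_right h6 (sq_nonneg _)
    _ = (|x' - x| * (|B| + 1)) * |x' - x| := by ring
    _ ≤ c * |x' - x| := mul_le_mul_of_nonneg_right h5 (abs_nonneg _)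

lemma lip_of_deriv {g g' : ℝ → ℝ} {B : ℝ} (hg : ∀ x, HasDerivAt g (g' x) x)
    (hB : ∀ x, |g' x| ≤ B) (x x' : ℝ) : |g x' - g x| ≤ B * |x' - x| :=
  Convex.norm_image_sub_le_of_norm_hasDerivWithin_le (s := univ) (f' := g')
    (fun y _ => (hg y).hasDerivWithinAt) (fun y _ => hB y) convex_univ (mem_univ x) (mem_univ x')

lemma taylor_of_deriv {g g' g'' : ℝ → ℝ} {B : ℝ} (hg : ∀ x, HasDerivAt g (g' x) x)
    (hg' : ∀ x, HasDerivAt g' (g'' x) x) (hB : ∀ x, |g'' x| ≤ B) (x x' : ℝ) :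
    |g x' - g x - (x' - x) * g' x| ≤ B * (x' - x) ^ 2 := by
  have hB0 : 0 ≤ B := (abs_nonneg _).trans (hB x)
  have h1 := Convex.norm_image_sub_le_of_norm_hasDerivWithin_le (s := uIcc x x')
    (f := fun ξ => g ξ - ξ * g' x) (f' := fun ξ => g' ξ - 1 * g' x) (C := B * |x' - x|)
    (fun ξ _ => ((hg ξ).sub ((hasDerivAt_id ξ).mul_const (g' x))).hasDerivWithinAt)
    (fun ξ hξ => by
      rw [one_mul, Real.norm_eq_abs]
      refine (lip_of_deriv hg' hB x ξ).trans ?_
      exact mul_le_mul_of_nonneg_left (abs_sub_left_of_mem_uIcc hξ) hB0)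
    (convex_uIcc x x') left_mem_uIcc right_mem_uIcc
  rw [Real.norm_eq_abs, Real.norm_eq_abs] at h1
  have h2 : g x' - x' * g' x - (g x - x * g' x) = g x' - g x - (x' - x) * g' x := by ring
  simp only [h2] at h1
  refine h1.trans (le_of_eq ?_)
  rw [mul_assoc, abs_mul_abs_self]
  ring

end ParLim

open ParLim in
theorem parLim : LimStmt := by
  intro a b τ Y Z1 Z2 ε ha hb hτ hε hbd hdx hlip hquad hZ hper
  set U : Filter ℕ := (hyperfilter ℕ).toFilter with hUdef
  have hU : U ≤ atTop := Nat.hyperfilter_le_atTop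
  have hUne : U.NeBot := (hyperfilter ℕ).neBot
  have hεU : Tendsto ε U (𝓝 0) := hε.mono_left hU
  choose B hB using hbd
  choose L hL using hlip
  obtain ⟨L0, hL0⟩ := hquad
  -- the limit
  have hex : ∀ (m : ℕ) (t x : ℝ), ∃ l, t ∈ Icc 0 τ → Tendsto (fun k => Y k m t x) U (𝓝 l) := by
    intro m t x
    by_cases ht : t ∈ Icc 0 τ
    · have h1 : ((hyperfilter ℕ).map (fun k => Y k m t x) : Filter ℝ) ≤ 𝓟 (Icc (-B m) (B m)) := by
        rw [Ultrafilter.coe_map, le_principal_iff, mem_map]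
        have h2 : ∀ᶠ k in U, Y k m t x ∈ Icc (-B m) (B m) := by
          filter_upwards [(hB m).filter_mono hU] with k hk
          exact abs_le.mp (hk t ht x)
        exact h2
      obtain ⟨l, _, hl⟩ := isCompact_Icc.ultrafilter_le_nhds _ h1
      exact ⟨l, fun _ => hl⟩
    · exact ⟨0, fun h => absurd h ht⟩
  choose y hy using hex
  have hle : ∀ (m : ℕ) (t : ℝ), t ∈ Icc 0 τ → ∀ x c, (∀ᶠ k in atTop, |Y k m t x| ≤ c) →
      |y m t x| ≤ c := fun m t ht x c h => le_of_tendsto (hy m t x ht).abs (h.filter_mono hU)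
  have hyB : ∀ (m : ℕ) (t : ℝ), t ∈ Icc 0 τ → ∀ x, |y m t x| ≤ B m := fun m t ht x =>
    hle m t ht x (B m) ((hB m).mono fun k hk => hk t ht x)
  -- Lipschitz in time
  have hlt : ∀ (m : ℕ) (s t : ℝ), s ∈ Icc 0 τ → t ∈ Icc 0 τ → ∀ x,
      |y m t x - y m s x| ≤ L m * |t - s| := by
    intro m s t hs ht x
    have h1 : Tendsto (fun k => |Y k m t x - Y k m s x|) U (𝓝 |y m t x - y m s x|) :=
      ((hy m t x ht).sub (hy m s x hs)).abs
    have h2 : Tendsto (fun k => L m * |t - s| + ε k) U (𝓝 (L m * |t - s| + 0)) :=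
      tendsto_const_nhds.add hεU
    rw [add_zero] at h2
    refine le_of_tendsto_of_tendsto h1 h2 ?_
    filter_upwards [(hL m).filter_mono hU] with k hk
    exact hk s hs t ht x
  -- space derivative
  have hquadx : ∀ (m : ℕ) (t : ℝ), t ∈ Icc 0 τ → ∀ x x',
      |y m t x' - y m t x - (x' - x) * y (m + 1) t x| ≤ B (m + 2) * (x' - x) ^ 2 := by
    intro m t ht x x'
    have h1 : Tendsto (fun k => |Y k m t x' - Y k m t x - (x' - x) * Y k (m + 1) t x|) U
        (𝓝 |y m t x' - y m t x - (x' - x) * y (m + 1) t x|) :=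
      (((hy m t x' ht).sub (hy m t x ht)).sub ((hy (m + 1) t x ht).const_mul _)).abs
    refine le_of_tendsto h1 ?_
    filter_upwards [(hB (m + 2)).filter_mono hU] with k hk
    exact taylor_of_deriv (fun z => hdx k m t ht z) (fun z => hdx k (m + 1) t ht z)
      (fun z => hk t ht z) x x'
  have hdy : ∀ (m : ℕ) (t : ℝ), t ∈ Icc 0 τ → ∀ x, HasDerivAt (y m t) (y (m + 1) t x) x := by
    intro m t ht x
    have h1 : HasDerivWithinAt (y m t) (y (m + 1) t x) univ x :=
      hasDerivWithinAt_of_quadratic (B := B (m + 2)) fun x' _ => hquadx m t ht x x'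
    rwa [hasDerivWithinAt_univ] at h1
  -- time derivative
  have hzt : ∀ s ∈ Icc 0 τ, ∀ x, Tendsto (fun k => Z1 k s x) U (𝓝 (y 1 s x)) ∧
      Tendsto (fun k => Z2 k s x) U (𝓝 (y 2 s x)) := by
    intro s hs x
    constructor
    · have h1 : Tendsto (fun k => Z1 k s x - Y k 1 s x) U (𝓝 0) := by
        refine squeeze_zero_norm' ?_ hεU
        filter_upwards [hZ.filter_mono hU] with k hk
        exact (hk s hs x).1
      have h2 := h1.add (hy 1 s x hs)
      simpa using h2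
    · have h1 : Tendsto (fun k => Z2 k s x - Y k 2 s x) U (𝓝 0) := by
        refine squeeze_zero_norm' ?_ hεU
        filter_upwards [hZ.filter_mono hU] with k hk
        exact (hk s hs x).2
      have h2 := h1.add (hy 2 s x hs)
      simpa using h2
  have hcoef : ∀ G : ℝ → ℝ → ℝ → ℝ, Continuous (fun q : ℝ × ℝ × ℝ => G q.1 q.2.1 q.2.2) →
      ∀ s ∈ Icc 0 τ, ∀ x, Tendsto (fun k => G x (Y k 0 s x) (Z1 k s x)) U
        (𝓝 (G x (y 0 s x) (y 1 s x))) := by
    intro G hG s hs x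
    have h1 : Tendsto (fun k => ((x, Y k 0 s x, Z1 k s x) : ℝ × ℝ × ℝ)) U
        (𝓝 (x, y 0 s x, y 1 s x)) :=
      tendsto_const_nhds.prodMk_nhds ((hy 0 s x hs).prodMk_nhds (hzt s hs x).1)
    exact (hG.tendsto (x, y 0 s x, y 1 s x)).comp h1
  have hquadt : ∀ s ∈ Icc 0 τ, ∀ t ∈ Icc 0 τ, ∀ x,
      |y 0 t x - y 0 s x - (t - s) * (a x (y 0 s x) (y 1 s x) * y 2 s x
        + b x (y 0 s x) (y 1 s x))| ≤ L0 * (t - s) ^ 2 := by
    intro s hs t ht x
    have h1 : Tendsto (fun k => |Y k 0 t x - Y k 0 s x - (t - s) *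
        (a x (Y k 0 s x) (Z1 k s x) * Z2 k s x + b x (Y k 0 s x) (Z1 k s x))|) U
        (𝓝 |y 0 t x - y 0 s x - (t - s) * (a x (y 0 s x) (y 1 s x) * y 2 s x
        + b x (y 0 s x) (y 1 s x))|) :=
      (((hy 0 t x ht).sub (hy 0 s x hs)).sub
        ((((hcoef a ha s hs x).mul (hzt s hs x).2).add (hcoef b hb s hs x)).const_mul _)).abs
    have h2 : Tendsto (fun k => L0 * (t - s) ^ 2 + ε k) U (𝓝 (L0 * (t - s) ^ 2 + 0)) :=
      tendsto_const_nhds.add hεU
    rw [add_zero] at h2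
    refine le_of_tendsto_of_tendsto h1 h2 ?_
    filter_upwards [hL0.filter_mono hU] with k hk
    exact hk s hs t ht x
  refine ⟨y, ⟨fun m => ?_, fun m t ht x => hdy m t ht x, fun t ht x => ?_, fun t ht x => ?_⟩,
    fun m t ht x c h => hle m t ht x c h, fun m t ht x c h => ?_⟩
  · -- joint continuity
    intro z hz
    have hz1 : z.1 ∈ Icc 0 τ := hz.1
    change Tendsto _ _ _
    rw [tendsto_iff_dist_tendsto_zero]
    have h1 : Tendsto (fun w : ℝ × ℝ => |L m| * |w.1 - z.1| + B (m + 1) * |w.2 - z.2|)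
        (𝓝[Icc 0 τ ×ˢ univ] z) (𝓝 0) := by
      have h2 : Continuous (fun w : ℝ × ℝ => |L m| * |w.1 - z.1| + B (m + 1) * |w.2 - z.2|) := by
        fun_prop
      have h3 := (h2.tendsto z).mono_left (nhdsWithin_le_nhds (s := Icc 0 τ ×ˢ univ))
      simpa using h3
    refine squeeze_zero' (Eventually.of_forall fun w => dist_nonneg) ?_ h1
    filter_upwards [self_mem_nhdsWithin] with w hw
    have hw1 : w.1 ∈ Icc 0 τ := hw.1
    rw [Real.dist_eq]
    have h4 : y m w.1 w.2 - y m z.1 z.2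
        = (y m w.1 w.2 - y m z.1 w.2) + (y m z.1 w.2 - y m z.1 z.2) := by ring
    rw [h4]
    refine (abs_add_le _ _).trans (add_le_add ?_ ?_)
    · refine (hlt m z.1 w.1 hz1 hw1 w.2).trans ?_
      exact mul_le_mul_of_nonneg_right (le_abs_self _) (abs_nonneg _)
    · exact lip_of_deriv (fun v => hdy m z.1 hz1 v) (fun v => hyB (m + 1) z.1 hz1 v) z.2 w.2
  · exact hasDerivWithinAt_of_quadratic (B := L0) fun s hs => hquadt t ht s hs x
  · refine tendsto_nhds_unique (hy 0 t (x + 2 * π) ht) ?_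
    have h1 : (fun k => Y k 0 t (x + 2 * π)) = fun k => Y k 0 t x :=
      funext fun k => hper k t ht x
    rw [h1]
    exact hy 0 t x ht
  · refine tendsto_nhds_unique (hy m t x ht) ?_
    exact tendsto_const_nhds.congr' ((h.filter_mono hU).mono fun k hk => hk.symm)

end Pool.Agent.Lib.MP_c60e08_gt.Par
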