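import Pool.Agent.Lib.MP_c60e08_gt.ParSpec

/-!
MP_c60e08_gt, module LIN1: linear growth in the top derivative.
-/

set_option autoImplicit false

namespace Pool.Agent.Lib.MP_c60e08_gt.Par

open Real Set Filter MeasureTheory Pool.Agent.Lib.MP_c60e08_gt.Lm Pool.Agent.Lib.MP_c60e08_gt.Geo

open scoped Topology

namespace ParLin1

theorem cd {u : ℝ → ℝ} (hu : SP u) (k : ℕ) (x : ℝ) : ContDiffAt ℝ k u x :=
  (hu.1.of_le (by exact_mod_cast le_top)).contDiffAt

theorem cdD {u : ℝ → ℝ} (hu : SP u) : ContDiff ℝ (⊤ : ℕ∞) (D 1 u) := by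
  have h := hu.1
  rw [contDiff_infty_iff_deriv] at h
  simpa only [D, iteratedDeriv_one] using h.2

theorem cdD' {u : ℝ → ℝ} (hu : SP u) (k : ℕ) (x : ℝ) : ContDiffAt ℝ k (D 1 u) x :=
  ((cdD hu).of_le (by exact_mod_cast le_top)).contDiffAt

theorem D_D1 (u : ℝ → ℝ) (m : ℕ) : D m (D 1 u) = D (m + 1) u := by
  simp only [D, iteratedDeriv_one]
  rw [iteratedDeriv_succ']

/-- the Leibniz bound for `F * u'` -/
theorem leib {F u : ℝ → ℝ} (hF : SP F) (hu : SP u) {k : ℕ} {A E : ℝ}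
    (hA : ∀ j ≤ k, Bd (D j F) A) (hE : ∀ j ≤ k + 1, Bd (D j u) E) (x : ℝ) :
    |D k (fun x => F x * D 1 u x) x| ≤ 2 ^ k * (|A| * |E|) := by
  have h1 : D k (fun x => F x * D 1 u x) x = ∑ i ∈ Finset.range (k + 1),
      (k.choose i : ℝ) * iteratedDeriv i F x * iteratedDeriv (k - i) (D 1 u) x :=
    iteratedDeriv_fun_mul (cd hF k x) (cdD' hu k x)
  rw [h1]
  refine (Finset.abs_sum_le_sum_abs _ _).trans ?_
  have h2 : ∀ i ∈ Finset.range (k + 1),
      |(k.choose i : ℝ) * iteratedDeriv i F x * iteratedDeriv (k - i) (D 1 u) x| ≤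
        (k.choose i : ℝ) * (|A| * |E|) := by
    intro i hi
    have hi' : i ≤ k := Nat.lt_succ_iff.1 (Finset.mem_range.1 hi)
    have ha : |iteratedDeriv i F x| ≤ |A| := (hA i hi' x).trans (le_abs_self A)
    have hb : |iteratedDeriv (k - i) (D 1 u) x| ≤ |E| := by
      have := D_D1 u (k - i)
      have h3 : iteratedDeriv (k - i) (D 1 u) x = D (k - i + 1) u x := by rw [← this]
      rw [h3]
      exact (hE (k - i + 1) (by omega) x).trans (le_abs_self E)
    rw [abs_mul, abs_mul, Nat.abs_cast, mul_assoc]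
    exact mul_le_mul_of_nonneg_left (mul_le_mul ha hb (abs_nonneg _) (abs_nonneg _))
      (Nat.cast_nonneg _)
  refine (Finset.sum_le_sum h2).trans (le_of_eq ?_)
  rw [← Finset.sum_mul]
  congr 1
  exact_mod_cast Nat.sum_range_choose k

end ParLin1

open ParLin1 in
theorem parLin1 : ChainStmt → CompStmt → Lin1Stmt := by
  intro hChain hComp G hG k B
  obtain ⟨hX, hY, hZ, -, -, hcp⟩ := hChain G hG
  obtain ⟨C1, hC1⟩ := hComp (dX G) hX k B
  obtain ⟨C2, hC2⟩ := hComp (dY G) hY k B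
  obtain ⟨C3, hC3⟩ := hComp (dZ G) hZ k B
  refine ⟨|C1| + 2 ^ k * (|C2| * |B|) + 2 ^ k * (|C3| * (|B| + 1)), by positivity, ?_⟩
  intro y z hy hz hyB hzB T hT x
  have hT0 : 0 ≤ T := (abs_nonneg _).trans (hT 0)
  have hyB' : ∀ j ≤ k, Bd (D j y) B := fun j hj => hyB j (by omega)
  have sX : SP (cp (dX G) y z) := ((hChain _ hX).2.2.2.2.2 y z hy hz).1
  have sY : SP (cp (dY G) y z) := ((hChain _ hY).2.2.2.2.2 y z hy hz).1
  have sZ : SP (cp (dZ G) y z) := ((hChain _ hZ).2.2.2.2.2 y z hy hz).1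
  have hd : D 1 (cp G y z) = fun x => cp (dX G) y z x + cp (dY G) y z x * D 1 y x
      + cp (dZ G) y z x * D 1 z x := funext ((hcp y z hy hz).2)
  have hkey : D (k + 1) (cp G y z) x = D k (cp (dX G) y z) x +
      D k (fun x => cp (dY G) y z x * D 1 y x) x + D k (fun x => cp (dZ G) y z x * D 1 z x) x := by
    rw [← D_D1, hd]
    have c1 : ContDiffAt ℝ k (fun x => cp (dY G) y z x * D 1 y x) x := (cd sY k x).mul (cdD' hy k x)
    have c2 : ContDiffAt ℝ k (fun x => cp (dZ G) y z x * D 1 z x) x := (cd sZ k x).mul (cdD' hz k x)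
    have e1 : D k (fun x => cp (dX G) y z x + cp (dY G) y z x * D 1 y x
        + cp (dZ G) y z x * D 1 z x) x = D k (fun x => cp (dX G) y z x + cp (dY G) y z x * D 1 y x) x +
        D k (fun x => cp (dZ G) y z x * D 1 z x) x :=
      iteratedDeriv_fun_add ((cd sX k x).add c1) c2
    have e2 : D k (fun x => cp (dX G) y z x + cp (dY G) y z x * D 1 y x) x =
        D k (cp (dX G) y z) x + D k (fun x => cp (dY G) y z x * D 1 y x) x :=
      iteratedDeriv_fun_add (cd sX k x) c1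
    rw [e1, e2]
  have b1 : |D k (cp (dX G) y z) x| ≤ |C1| :=
    (hC1 y z hy hz hyB' hzB k le_rfl x).trans (le_abs_self _)
  have b2 := leib sY hy (hC2 y z hy hz hyB' hzB) hyB x
  have hzE : ∀ j ≤ k + 1, Bd (D j z) (|B| + T) := by
    intro j hj x
    rcases Nat.lt_or_ge j (k + 1) with h | h
    · have := (hzB j (by omega) x).trans (le_abs_self B)
      linarith
    · have : j = k + 1 := le_antisymm hj h
      rw [this]
      have := hT x
      have := abs_nonneg B
      linarith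
  have b3 := leib sZ hz (hC3 y z hy hz hyB' hzB) hzE x
  have hBT : |(|B| + T)| = |B| + T := abs_of_nonneg (by positivity)
  rw [hBT] at b3
  rw [hkey]
  have hab : |D k (cp (dX G) y z) x + D k (fun x => cp (dY G) y z x * D 1 y x) x +
      D k (fun x => cp (dZ G) y z x * D 1 z x) x| ≤
      |C1| + 2 ^ k * (|C2| * |B|) + 2 ^ k * (|C3| * (|B| + T)) :=
    (abs_add_three _ _ _).trans (add_le_add (add_le_add b1 b2) b3)
  refine hab.trans ?_
  have p1 : 0 ≤ |C1| * T := by positivity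
  have p2 : 0 ≤ 2 ^ k * (|C2| * |B|) * T := by positivity
  have p3 : 0 ≤ 2 ^ k * (|C3| * |B|) * T := by positivity
  have p4 : 0 ≤ 2 ^ k * |C3| := by positivity
  nlinarith

end Pool.Agent.Lib.MP_c60e08_gt.Par
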