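import Pool.Agent.Lib.MP_c60e08_gt.ParSpec

set_option autoImplicit false

/-!
LIN2: the top order part of a derivative of order `k + 3` of a composite function.
-/

namespace Pool.Agent.Lib.MP_c60e08_gt.Par

open Real Set Filter MeasureTheory Pool.Agent.Lib.MP_c60e08_gt.Lm Pool.Agent.Lib.MP_c60e08_gt.Geo

open scoped Topology

namespace ParLin2

theorem SP.at {u : ℝ → ℝ} (hu : SP u) (n : ℕ) (x : ℝ) : ContDiffAt ℝ n u x :=
  (hu.1.of_le (by exact_mod_cast le_top)).contDiffAt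

theorem SP_deriv {u : ℝ → ℝ} (hu : SP u) : SP (D 1 u) := by
  refine ⟨?_, ?_⟩
  · have h : D 1 u = deriv u := iteratedDeriv_one
    rw [h]
    exact (contDiff_infty_iff_deriv.mp hu.1).2
  · intro x
    have h : D 1 u = deriv u := iteratedDeriv_one
    rw [h]
    have h2 : (fun x => u (x + 2 * π)) = u := funext hu.2
    have h3 : deriv (fun x => u (x + 2 * π)) x = deriv u (x + 2 * π) :=
      deriv_comp_add_const u (2 * π) x
    rw [← h3, h2]

theorem D_succ (m : ℕ) (u : ℝ → ℝ) : D m (D 1 u) = D (m + 1) u := by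
  have h : D 1 u = deriv u := iteratedDeriv_one
  rw [h]
  exact iteratedDeriv_succ'.symm

/-- Leibniz rule with the term `i = 0` split off. -/
theorem leib {f g : ℝ → ℝ} (hf : SP f) (hg : SP g) (n : ℕ) (x : ℝ) :
    D (n + 1) (fun x => f x * D 1 g x) x = f x * D (n + 2) g x +
      ∑ i ∈ Finset.range (n + 1), ((n + 1).choose (i + 1) : ℝ) * D (i + 1) f x
        * D (n + 1 - i) g x := by
  have h := iteratedDeriv_mul (SP.at hf (n + 1) x) (SP.at (SP_deriv hg) (n + 1) x)
  have e : (fun x => f x * D 1 g x) = f * D 1 g := rfl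
  unfold D at *
  rw [e, h, Finset.sum_range_succ']
  have h0 : (((n + 1).choose 0 : ℕ) : ℝ) * iteratedDeriv 0 f x
      * iteratedDeriv (n + 1 - 0) (iteratedDeriv 1 g) x = f x * iteratedDeriv (n + 2) g x := by
    rw [Nat.choose_zero_right, iteratedDeriv_zero, Nat.sub_zero]
    have := D_succ (n + 1) g
    unfold D at this
    rw [this]
    push_cast
    ring
  rw [h0, add_comm]
  congr 1
  refine Finset.sum_congr rfl ?_
  intro i hi
  have hi' : i < n + 1 := Finset.mem_range.mp hi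
  have e2 : n + 1 - (i + 1) = n - i := by omega
  have e3 : n + 1 - i = (n - i) + 1 := by omega
  rw [e2, e3]
  have := D_succ (n - i) g
  unfold D at this
  rw [this]

/-- bound of the Leibniz sum -/
theorem sum_bd {n : ℕ} {F G : ℕ → ℝ} {M : ℝ}
    (h : ∀ i ≤ n, |F i * G i| ≤ M) :
    |∑ i ∈ Finset.range (n + 1), ((n + 1).choose (i + 1) : ℝ) * F i * G i| ≤
      (∑ i ∈ Finset.range (n + 1), ((n + 1).choose (i + 1) : ℝ)) * M := by
  refine (Finset.abs_sum_le_sum_abs _ _).trans ?_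
  rw [Finset.sum_mul]
  refine Finset.sum_le_sum ?_
  intro i hi
  have hi' : i ≤ n := Nat.lt_succ_iff.mp (Finset.mem_range.mp hi)
  rw [mul_assoc, abs_mul, Nat.abs_cast]
  exact mul_le_mul_of_nonneg_left (h i hi') (Nat.cast_nonneg _)

end ParLin2

open ParLin2

theorem parLin2 : ChainStmt → CompStmt → Lin1Stmt → Lin2Stmt := by
  intro hch hco hl1 G hG k B
  obtain ⟨hX, hY, hZ, -, -, hcp⟩ := hch G hG
  obtain ⟨C1, hC1, h1⟩ := hl1 (dX G) hX (k + 1) B
  obtain ⟨C2, hC2, h2⟩ := hl1 (dY G) hY (k + 1) B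
  obtain ⟨C3, hC3, h3⟩ := hl1 (dZ G) hZ (k + 1) B
  obtain ⟨C4, h4⟩ := hco (dY G) hY (k + 1) B
  obtain ⟨C5, h5⟩ := hco (dZ G) hZ (k + 1) B
  obtain ⟨N, hN⟩ : ∃ N : ℝ, N = ∑ i ∈ Finset.range (k + 1 + 1), ((k + 1 + 1).choose (i + 1) : ℝ) :=
    ⟨_, rfl⟩
  have hN0 : 0 ≤ N := by rw [hN]; exact Finset.sum_nonneg fun i _ => Nat.cast_nonneg _
  refine ⟨C1 + N * ((C2 + |C4|) * (|B| + 1)) + N * ((C3 + |C5|) * (|B| + 1)), by positivity, ?_⟩
  intro y z hy hz hyB hzB T hT x
  have hT0 : 0 ≤ T := (abs_nonneg _).trans (hT x)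
  have hB0 : 0 ≤ B := (abs_nonneg _).trans (hyB 0 (by omega) x)
  have hBB : |B| = B := abs_of_nonneg hB0
  have hsX := ((hch _ hX).2.2.2.2.2 y z hy hz).1
  have hsY := ((hch _ hY).2.2.2.2.2 y z hy hz).1
  have hsZ := ((hch _ hZ).2.2.2.2.2 y z hy hz).1
  have hsc := (hcp y z hy hz).1
  have hyB' : ∀ j ≤ k + 1 + 1, Bd (D j y) B := fun j hj => hyB j (by omega)
  have hT' : Bd (D (k + 1 + 1) z) T := hT
  have b1 := h1 y z hy hz hyB' hzB T hT' x
  have b2 := h2 y z hy hz hyB' hzB T hT' x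
  have b3 := h3 y z hy hz hyB' hzB T hT' x
  have b4 : ∀ j ≤ k + 1, Bd (D j (cp (dY G) y z)) C4 :=
    h4 y z hy hz (fun j hj => hyB j (by omega)) hzB
  have b5 : ∀ j ≤ k + 1, Bd (D j (cp (dZ G) y z)) C5 :=
    h5 y z hy hz (fun j hj => hyB j (by omega)) hzB
  -- the derivative
  have hfun : D 1 (cp G y z) = (cp (dX G) y z + fun x => cp (dY G) y z x * D 1 y x)
      + fun x => cp (dZ G) y z x * D 1 z x := by
    funext x
    exact (hcp y z hy hz).2 x
  have hprodY : ContDiffAt ℝ ((k + 2 : ℕ)) (fun x => cp (dY G) y z x * D 1 y x) x :=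
    (SP.at hsY _ x).mul (SP.at (SP_deriv hy) _ x)
  have hprodZ : ContDiffAt ℝ ((k + 2 : ℕ)) (fun x => cp (dZ G) y z x * D 1 z x) x :=
    (SP.at hsZ _ x).mul (SP.at (SP_deriv hz) _ x)
  have hD : D (k + 3) (cp G y z) x = D (k + 2) (cp (dX G) y z) x
      + D (k + 2) (fun x => cp (dY G) y z x * D 1 y x) x
      + D (k + 2) (fun x => cp (dZ G) y z x * D 1 z x) x := by
    have e : D (k + 3) (cp G y z) = D (k + 2) (D 1 (cp G y z)) := (D_succ (k + 2) _).symm
    have hs : ContDiffAt ℝ ((k + 2 : ℕ)) (cp (dX G) y z + fun x => cp (dY G) y z x * D 1 y x) x :=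
      (SP.at hsX (k + 2) x).add hprodY
    have s1 := iteratedDeriv_add hs hprodZ
    have s2 := iteratedDeriv_add (SP.at hsX (k + 2) x) hprodY
    rw [e, hfun]
    exact s1.trans (congrArg (fun r => r + _) s2)
  have hLY := leib hsY hy (k + 1) x
  have hLZ := leib hsZ hz (k + 1) x
  have hY2 : |∑ i ∈ Finset.range (k + 1 + 1), ((k + 1 + 1).choose (i + 1) : ℝ)
      * D (i + 1) (cp (dY G) y z) x * D (k + 1 + 1 - i) y x| ≤
      N * ((C2 + |C4|) * (|B| + 1) * (1 + T)) := by
    rw [hN]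
    refine sum_bd (F := fun i => D (i + 1) (cp (dY G) y z) x)
      (G := fun i => D (k + 1 + 1 - i) y x) ?_
    intro i hi
    rw [abs_mul]
    have e1 : |D (k + 1 + 1 - i) y x| ≤ |B| + 1 := by
      rw [hBB]
      exact (hyB _ (by omega) x).trans (by linarith)
    have e2 : |D (i + 1) (cp (dY G) y z) x| ≤ (C2 + |C4|) * (1 + T) := by
      by_cases hik : i + 1 ≤ k + 1
      · have := b4 (i + 1) hik x
        have h' := le_abs_self C4
        have : |D (i + 1) (cp (dY G) y z) x| ≤ (C2 + |C4|) * 1 := by linarith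
        exact this.trans (mul_le_mul_of_nonneg_left (by linarith) (by positivity))
      · have hik' : i = k + 1 := by omega
        subst hik'
        exact b2.trans (mul_le_mul_of_nonneg_right (by linarith [abs_nonneg C4]) (by linarith))
    calc |D (i + 1) (cp (dY G) y z) x| * |D (k + 1 + 1 - i) y x|
        ≤ ((C2 + |C4|) * (1 + T)) * (|B| + 1) :=
          mul_le_mul e2 e1 (abs_nonneg _) (by positivity)
      _ = (C2 + |C4|) * (|B| + 1) * (1 + T) := by ring
  have hZ2 : |∑ i ∈ Finset.range (k + 1 + 1), ((k + 1 + 1).choose (i + 1) : ℝ)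
      * D (i + 1) (cp (dZ G) y z) x * D (k + 1 + 1 - i) z x| ≤
      N * ((C3 + |C5|) * (|B| + 1) * (1 + T)) := by
    rw [hN]
    refine sum_bd (F := fun i => D (i + 1) (cp (dZ G) y z) x)
      (G := fun i => D (k + 1 + 1 - i) z x) ?_
    intro i hi
    rw [abs_mul]
    rcases Nat.eq_zero_or_pos i with hi0 | hi0
    · subst hi0
      have e1 : |D (k + 1 + 1 - 0) z x| ≤ 1 + T := (hT x).trans (by linarith)
      have e2 : |D (0 + 1) (cp (dZ G) y z) x| ≤ (C3 + |C5|) * (|B| + 1) := by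
        have h' := b5 (0 + 1) (by omega) x
        have h'' := le_abs_self C5
        have : |D (0 + 1) (cp (dZ G) y z) x| ≤ (C3 + |C5|) * 1 := by linarith
        exact this.trans (mul_le_mul_of_nonneg_left (by linarith [abs_nonneg B]) (by positivity))
      exact mul_le_mul e2 e1 (abs_nonneg _) (by positivity)
    · have e1 : |D (k + 1 + 1 - i) z x| ≤ |B| + 1 := by
        rw [hBB]
        exact (hzB _ (by omega) x).trans (by linarith)
      have e2 : |D (i + 1) (cp (dZ G) y z) x| ≤ (C3 + |C5|) * (1 + T) := by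
        by_cases hik : i + 1 ≤ k + 1
        · have := b5 (i + 1) hik x
          have h' := le_abs_self C5
          have : |D (i + 1) (cp (dZ G) y z) x| ≤ (C3 + |C5|) * 1 := by linarith
          exact this.trans (mul_le_mul_of_nonneg_left (by linarith) (by positivity))
        · have hik' : i = k + 1 := by omega
          subst hik'
          exact b3.trans (mul_le_mul_of_nonneg_right (by linarith [abs_nonneg C5]) (by linarith))
      calc |D (i + 1) (cp (dZ G) y z) x| * |D (k + 1 + 1 - i) z x|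
          ≤ ((C3 + |C5|) * (1 + T)) * (|B| + 1) :=
            mul_le_mul e2 e1 (abs_nonneg _) (by positivity)
        _ = (C3 + |C5|) * (|B| + 1) * (1 + T) := by ring
  have hsplit : D (k + 3) (cp G y z) x - cp (dY G) y z x * D (k + 3) y x
      - cp (dZ G) y z x * D (k + 3) z x = D (k + 2) (cp (dX G) y z) x
      + (∑ i ∈ Finset.range (k + 1 + 1), ((k + 1 + 1).choose (i + 1) : ℝ)
        * D (i + 1) (cp (dY G) y z) x * D (k + 1 + 1 - i) y x)
      + (∑ i ∈ Finset.range (k + 1 + 1), ((k + 1 + 1).choose (i + 1) : ℝ)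
        * D (i + 1) (cp (dZ G) y z) x * D (k + 1 + 1 - i) z x) := by
    have eY : D (k + 2) (fun x => cp (dY G) y z x * D 1 y x) x =
      D (k + 1 + 1) (fun x => cp (dY G) y z x * D 1 y x) x := rfl
    have eZ : D (k + 2) (fun x => cp (dZ G) y z x * D 1 z x) x =
      D (k + 1 + 1) (fun x => cp (dZ G) y z x * D 1 z x) x := rfl
    rw [hD, eY, eZ, hLY, hLZ]
    ring
  rw [hsplit]
  have b1' : |D (k + 2) (cp (dX G) y z) x| ≤ C1 * (1 + T) := b1
  calc |D (k + 2) (cp (dX G) y z) x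
      + (∑ i ∈ Finset.range (k + 1 + 1), ((k + 1 + 1).choose (i + 1) : ℝ)
        * D (i + 1) (cp (dY G) y z) x * D (k + 1 + 1 - i) y x)
      + (∑ i ∈ Finset.range (k + 1 + 1), ((k + 1 + 1).choose (i + 1) : ℝ)
        * D (i + 1) (cp (dZ G) y z) x * D (k + 1 + 1 - i) z x)|
      ≤ C1 * (1 + T) + N * ((C2 + |C4|) * (|B| + 1) * (1 + T))
        + N * ((C3 + |C5|) * (|B| + 1) * (1 + T)) := by
        refine (abs_add_le _ _).trans (add_le_add ((abs_add_le _ _).trans (add_le_add b1' hY2)) hZ2)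
    _ = _ := by ring

end Pool.Agent.Lib.MP_c60e08_gt.Par
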