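import Pool.Agent.Lib.MP_c60e08_gt.ParSpec

/-!
MP_c60e08_gt, PDE part I: the operator `R h`.
-/

namespace Pool.Agent.Lib.MP_c60e08_gt.Par

open Real Set Filter MeasureTheory Pool.Agent.Lib.MP_c60e08_gt.Lm Pool.Agent.Lib.MP_c60e08_gt.Geo

open scoped Topology

namespace ParR

lemma sp_deriv {u : ℝ → ℝ} (hu : SP u) : SP (deriv u) := by
  refine ⟨(contDiff_infty_iff_deriv.mp hu.1).2, fun x => ?_⟩
  have h1 : deriv (fun y => u (y + 2 * π)) x = deriv u (x + 2 * π) :=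
    deriv_comp_add_const u (2 * π) x
  rw [← h1]
  congr 1
  funext y
  exact hu.2 y

lemma sp_D {u : ℝ → ℝ} (hu : SP u) (m : ℕ) : SP (D m u) := by
  induction m with
  | zero =>
    show SP (iteratedDeriv 0 u)
    rw [iteratedDeriv_zero]
    exact hu
  | succ m ih =>
    show SP (iteratedDeriv (m + 1) u)
    rw [iteratedDeriv_succ]
    exact sp_deriv ih

lemma D_one_one (u : ℝ → ℝ) : D 1 (D 1 u) = D 2 u := by
  show iteratedDeriv 1 (iteratedDeriv 1 u) = iteratedDeriv 2 u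
  rw [iteratedDeriv_one, iteratedDeriv_succ (n := 1)]

lemma conv {h δ a β B U P M : ℝ} (hh : 0 < h) (hδ : 0 ≤ δ) (h1 : δ * a ≤ h ^ 2)
    (h2 : h * |β| ≤ a) (hU : |U| ≤ B) (hP : |P| ≤ B) (hM : |M| ≤ B) {A1 A2 : ℝ}
    (hA2 : h ^ 2 * A2 = (P + M) / 2 - U) (hA1 : h * A1 = (P - M) / 2) :
    |U + δ * (a * A2 + β * A1)| ≤ B := by
  have hb := abs_le.mp (le_refl |β|)
  have k1 : 0 ≤ a + β * h := by nlinarith
  have k2 : 0 ≤ a - β * h := by nlinarith
  have k3 : 0 ≤ h ^ 2 - δ * a := by linarith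
  have hh2 : 0 < h ^ 2 := by positivity
  rw [abs_le] at hU hP hM ⊢
  have key : h ^ 2 * (U + δ * (a * A2 + β * A1))
      = (h ^ 2 - δ * a) * U + δ / 2 * ((a + β * h) * P) + δ / 2 * ((a - β * h) * M) := by
    have e1 : h ^ 2 * (U + δ * (a * A2 + β * A1))
        = h ^ 2 * U + δ * a * (h ^ 2 * A2) + δ * β * h * (h * A1) := by ring
    rw [e1, hA2, hA1]
    ring
  have hδ2 : 0 ≤ δ / 2 := by linarith
  constructor
  · have m1 : (h ^ 2 - δ * a) * (-B) ≤ (h ^ 2 - δ * a) * U := mul_le_mul_of_nonneg_left hU.1 k3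
    have m2 : (a + β * h) * (-B) ≤ (a + β * h) * P := mul_le_mul_of_nonneg_left hP.1 k1
    have m3 : (a - β * h) * (-B) ≤ (a - β * h) * M := mul_le_mul_of_nonneg_left hM.1 k2
    have m2' := mul_le_mul_of_nonneg_left m2 hδ2
    have m3' := mul_le_mul_of_nonneg_left m3 hδ2
    have m4 : h ^ 2 * (-B) ≤ h ^ 2 * (U + δ * (a * A2 + β * A1)) := by
      rw [key]
      linarith
    exact le_of_mul_le_mul_left m4 hh2
  · have m1 : (h ^ 2 - δ * a) * U ≤ (h ^ 2 - δ * a) * B := mul_le_mul_of_nonneg_left hU.2 k3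
    have m2 : (a + β * h) * P ≤ (a + β * h) * B := mul_le_mul_of_nonneg_left hP.2 k1
    have m3 : (a - β * h) * M ≤ (a - β * h) * B := mul_le_mul_of_nonneg_left hM.2 k2
    have m2' := mul_le_mul_of_nonneg_left m2 hδ2
    have m3' := mul_le_mul_of_nonneg_left m3 hδ2
    have m4 : h ^ 2 * (U + δ * (a * A2 + β * A1)) ≤ h ^ 2 * B := by
      rw [key]
      linarith
    exact le_of_mul_le_mul_left m4 hh2

end ParR

theorem parR : QStmt → RStmt := by
  intro hQ h u hh hu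
  obtain ⟨p1, p2, p3, p4, p5⟩ := hQ h u hu
  obtain ⟨n1, n2, n3, n4, n5⟩ := hQ (-h) u hu
  have hu1 : SP (D 1 u) := ParR.sp_D hu 1
  have q4 := (hQ h (D 1 u) hu1).2.2.2.1
  have r4 := (hQ (-h) (D 1 u) hu1).2.2.2.1
  rw [ParR.D_one_one] at q4 r4
  have hR : ∀ v : ℝ → ℝ, R h v = fun x => (Q h v x + Q (-h) v x) / 2 := fun v => rfl
  have e2 : ∀ x, h ^ 2 * R h (D 2 u) x = (Q h u x + Q (-h) u x) / 2 - u x := by
    intro x
    rw [hR]
    have a1 := p4 x
    have a2 := n4 x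
    have a3 := q4 x
    have a4 := r4 x
    have b3 : h * (h * Q h (D 2 u) x) = h * (Q h (D 1 u) x - D 1 u x) := by rw [a3]
    have b4 : -h * (-h * Q (-h) (D 2 u) x) = -h * (Q (-h) (D 1 u) x - D 1 u x) := by rw [a4]
    show h ^ 2 * ((Q h (D 2 u) x + Q (-h) (D 2 u) x) / 2) = (Q h u x + Q (-h) u x) / 2 - u x
    nlinarith
  have e1 : ∀ x, h * R h (D 1 u) x = (Q h u x - Q (-h) u x) / 2 := by
    intro x
    rw [hR]
    have a1 := p4 x
    have a2 := n4 x
    show h * ((Q h (D 1 u) x + Q (-h) (D 1 u) x) / 2) = (Q h u x - Q (-h) u x) / 2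
    linarith
  refine ⟨⟨?_, ?_⟩, ?_, ?_, ?_, ?_, ?_⟩
  · rw [hR]
    exact (p1.1.add n1.1).div_const 2
  · intro x
    rw [hR]
    show (Q h u (x + 2 * π) + Q (-h) u (x + 2 * π)) / 2 = (Q h u x + Q (-h) u x) / 2
    rw [p1.2, n1.2]
  · intro m
    funext x
    rw [hR, hR, ← p2 m, ← n2 m]
    have c1 : ContDiffAt ℝ m (Q h u) x := (p1.1.contDiffAt).of_le (by exact_mod_cast le_top)
    have c2 : ContDiffAt ℝ m (Q (-h) u) x := (n1.1.contDiffAt).of_le (by exact_mod_cast le_top)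
    have c3 : (fun x => (Q h u x + Q (-h) u x) / 2)
        = fun x => (1 / 2 : ℝ) * ((fun x => Q h u x + Q (-h) u x) x) := by
      funext y
      ring
    show iteratedDeriv m (fun x => (Q h u x + Q (-h) u x) / 2) x
      = (iteratedDeriv m (Q h u) x + iteratedDeriv m (Q (-h) u) x) / 2
    rw [c3, iteratedDeriv_const_mul_field, iteratedDeriv_fun_add c1 c2]
    ring
  · intro B hB x
    have a1 := abs_le.mp (p3 B hB x)
    have a2 := abs_le.mp (n3 B hB x)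
    rw [hR, abs_le]
    constructor <;> linarith [a1.1, a1.2, a2.1, a2.2]
  · intro v hv x
    simp only [hR]
    rw [p5 v hv x, n5 v hv x]
    ring
  · intro B hB x
    have a1 : |R h (D 2 u) x| ≤ B := by
      have b1 := abs_le.mp ((hQ h (D 2 u) (ParR.sp_D hu 2)).2.2.1 B hB x)
      have b2 := abs_le.mp ((hQ (-h) (D 2 u) (ParR.sp_D hu 2)).2.2.1 B hB x)
      rw [hR, abs_le]
      constructor <;> linarith [b1.1, b1.2, b2.1, b2.2]
    have a2 : R h u x - u x = h ^ 2 * R h (D 2 u) x := by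
      rw [e2, hR]
    rw [a2, abs_mul, abs_of_nonneg (by positivity : (0 : ℝ) ≤ h ^ 2)]
    exact mul_le_mul_of_nonneg_left a1 (by positivity)
  · intro x a β δ B hδ ha hβ hB
    exact ParR.conv hh hδ ha hβ (hB x) (p3 B hB x) (n3 B hB x) (e2 x) (e1 x)

end Pool.Agent.Lib.MP_c60e08_gt.Par
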