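import Pool.Agent.Lib.MP_c60e08_gt.ParSpec

/-!
# MP_c60e08, PDE part (ParSmoothFin): joint smoothness in the interior
-/

namespace Pool.Agent.Lib.MP_c60e08_gt.Par.ParSmoothFin

open Real Set Filter Topology MeasureTheory Pool.Agent.Lib.MP_c60e08_gt.Lm
  Pool.Agent.Lib.MP_c60e08_gt.Geo

theorem cs_zero {T : ℝ} {y : ℕ → ℝ → ℝ → ℝ} (h : PolarSol T y) (m : ℕ) : CS 0 0 T (y m) := by
  unfold CS
  rw [contDiffOn_zero]
  exact (h.cont m).mono (prod_mono Ioo_subset_Ico_self (subset_refl _))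

theorem claimA (hex : ExStmt) (hsw : SwapStmt) {T : ℝ} {y : ℕ → ℝ → ℝ → ℝ} (h : PolarSol T y)
    (m : ℕ) : ∃ F, Ex T y F ∧ ∀ t ∈ Ioo 0 T, ∀ x, HasDerivAt (fun s => y m s x) (F t x) t := by
  obtain ⟨h1, h2, h3⟩ := hex T y h
  induction m with
  | zero => exact ⟨_, h3, fun t ht x => h.dt t ht x⟩
  | succ m ih =>
    obtain ⟨F, hF, hFd⟩ := ih
    obtain ⟨F', hF', hF'd⟩ := h1 F hF
    refine ⟨F', hF', ?_⟩
    have c1 : CS 0 0 T F := by exact_mod_cast h2 0 (fun k => by exact_mod_cast cs_zero h k) F hF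
    have c2 : CS 0 0 T F' := by exact_mod_cast h2 0 (fun k => by exact_mod_cast cs_zero h k) F' hF'
    unfold CS at c1 c2
    rw [contDiffOn_zero] at c1 c2
    exact hsw 0 T (y m) F (y (m + 1)) F' hFd
      (fun t ht x => h.dx m t (Ioo_subset_Ico_self ht) x) hF'd c1 c2

theorem claimB (hpart : PartStmt) (hex : ExStmt) (hsw : SwapStmt) {T : ℝ} {y : ℕ → ℝ → ℝ → ℝ}
    (h : PolarSol T y) (n : ℕ) : ∀ m, CS n 0 T (y m) := by
  induction n with
  | zero =>
    intro m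
    exact_mod_cast cs_zero h m
  | succ n ih =>
    intro m
    obtain ⟨F, hF, hFd⟩ := claimA hex hsw h m
    exact hpart 0 T n (y m) F (y (m + 1)) hFd
      (fun t ht x => h.dx m t (Ioo_subset_Ico_self ht) x) ((hex T y h).2.1 n ih F hF) (ih (m + 1))

end Pool.Agent.Lib.MP_c60e08_gt.Par.ParSmoothFin

namespace Pool.Agent.Lib.MP_c60e08_gt.Par

open Real Set Filter Topology MeasureTheory Pool.Agent.Lib.MP_c60e08_gt.Lm
  Pool.Agent.Lib.MP_c60e08_gt.Geo

/-- joint smoothness in the interior. -/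
theorem parSmoothFin : SmoothFinStmt := by
  intro hpart hex hsw T y h
  rw [contDiffOn_infty]
  intro n
  exact ParSmoothFin.claimB hpart hex hsw h n 0

end Pool.Agent.Lib.MP_c60e08_gt.Par
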