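import Pool.Agent.Lib.MP_c60e08_gt.ParSpec

/-!
MP_c60e08_gt, PDE part I: one explicit step of the scheme, all derivatives.
-/

namespace Pool.Agent.Lib.MP_c60e08_gt.Par

open Real Set Filter MeasureTheory Pool.Agent.Lib.MP_c60e08_gt.Lm Pool.Agent.Lib.MP_c60e08_gt.Geo

open scoped Topology

namespace ParStep

lemma D_smooth (m : ℕ) {u : ℝ → ℝ} (hu : ContDiff ℝ (⊤ : ℕ∞) u) :
    ContDiff ℝ (⊤ : ℕ∞) (D m u) := by
  have h : D m u = deriv^[m] u := iteratedDeriv_eq_iterate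
  rw [h]
  exact ContDiff.iterate_deriv m hu

lemma SP_D (m : ℕ) {u : ℝ → ℝ} (hu : SP u) : SP (D m u) := by
  refine ⟨D_smooth m hu.1, fun x => ?_⟩
  have h1 : (fun z => u (z + 2 * π)) = u := funext hu.2
  have h2 := iteratedDeriv_comp_add_const m u (2 * π)
  rw [h1] at h2
  exact (congrFun h2 x).symm

lemma SP_add {u v : ℝ → ℝ} (hu : SP u) (hv : SP v) : SP (fun x => u x + v x) :=
  ⟨hu.1.add hv.1, fun x => by
    show u (x + 2 * π) + v (x + 2 * π) = u x + v x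
    rw [hu.2, hv.2]⟩

lemma SP_mul {u v : ℝ → ℝ} (hu : SP u) (hv : SP v) : SP (fun x => u x * v x) :=
  ⟨hu.1.mul hv.1, fun x => by
    show u (x + 2 * π) * v (x + 2 * π) = u x * v x
    rw [hu.2, hv.2]⟩

lemma SP_const_mul (c : ℝ) {u : ℝ → ℝ} (hu : SP u) : SP (fun x => c * u x) :=
  ⟨contDiff_const.mul hu.1, fun x => by
    show c * u (x + 2 * π) = c * u x
    rw [hu.2]⟩

lemma at_of {u : ℝ → ℝ} (hu : ContDiff ℝ (⊤ : ℕ∞) u) (m : ℕ) (x : ℝ) : ContDiffAt ℝ m u x :=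
  (hu.of_le (by exact_mod_cast le_top)).contDiffAt

lemma D_add (m : ℕ) {u v : ℝ → ℝ} (hu : ContDiff ℝ (⊤ : ℕ∞) u) (hv : ContDiff ℝ (⊤ : ℕ∞) v)
    (x : ℝ) : D m (fun x => u x + v x) x = D m u x + D m v x :=
  iteratedDeriv_fun_add (at_of hu m x) (at_of hv m x)

lemma D_const_mul (m : ℕ) (c : ℝ) (u : ℝ → ℝ) (x : ℝ) :
    D m (fun x => c * u x) x = c * D m u x :=
  iteratedDeriv_const_mul_field c u

lemma D_D (j m : ℕ) (u : ℝ → ℝ) : D j (D m u) = D (j + m) u := by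
  have h1 : ∀ (n : ℕ) (v : ℝ → ℝ), D n v = deriv^[n] v := fun n v => iteratedDeriv_eq_iterate
  rw [h1, h1, h1, Function.iterate_add_apply]

lemma D_zero (u : ℝ → ℝ) : D 0 u = u := iteratedDeriv_zero

lemma Bd_mono {u : ℝ → ℝ} {B B' : ℝ} (h : Bd u B) (hB : B ≤ B') : Bd u B' :=
  fun x => (h x).trans hB

end ParStep

open ParStep

theorem parStep : RStmt → ChainStmt → BoxStmt → CompStmt → FLowStmt → FHighStmt → StepStmt := by
  intro hR hCh hBox hComp hFL hFH a b ha hb hapos B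
  obtain ⟨Ca, hCa0, hCa1, -, hCa3⟩ := hBox a ha |B|
  obtain ⟨c, hc0, hc⟩ := hCa3 hapos
  refine ⟨1 / Ca, by positivity, fun m B' => ?_⟩
  set B2 : ℝ := max |B| |B'| with hB2
  have hBB2 : B ≤ B2 := (le_abs_self B).trans (le_max_left _ _)
  have hB'B2 : B' ≤ B2 := (le_abs_self B').trans (le_max_right _ _)
  obtain ⟨-, -, haZ, -, -, hchA⟩ := hCh a ha
  obtain ⟨-, -, hbZ, -, -, hchB⟩ := hCh b hb
  obtain ⟨-, -, -, -, -, hchAZ⟩ := hCh _ haZ
  obtain ⟨-, -, -, -, -, hchBZ⟩ := hCh _ hbZ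
  -- bound of the coefficient `bet`
  obtain ⟨C1, hC1⟩ := hComp a ha 1 B
  obtain ⟨C2, hC2⟩ := hComp _ haZ 0 B
  obtain ⟨C3, hC3⟩ := hComp _ hbZ 0 B
  set Cb : ℝ := m * |C1| + |C2| * |B| + |C3| with hCb
  have hCb0 : 0 ≤ Cb := by positivity
  -- the main estimate for the right hand side
  have hmain : ∃ C : ℝ, 0 ≤ C ∧ ∀ y z, SP y → SP z → (∀ j ≤ 3, Bd (D j y) B2) →
      (∀ j < m, Bd (D j y) B2) → (∀ j ≤ 2, Bd (D j z) B2) → (∀ j, j + 1 < m → Bd (D j z) B2) →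
      ∀ T, 0 ≤ T → Bd (D m y) T → (1 ≤ m → Bd (D (m - 1) z) T) → ∀ x,
      |D m (FF a b y z) x - cp a y z x * D (m + 1) z x - bet a b m y z x * D m z x|
        ≤ C * (1 + T) := by
    by_cases hm : m ≤ 2
    · obtain ⟨C, hC0, hC⟩ := hFL a b ha hb m hm B2
      refine ⟨C, hC0, fun y z hy hz h3 _ hz2 _ T hT _ _ x => ?_⟩
      refine (hC y z hy hz (fun j hj => h3 j (by omega)) hz2 x).trans ?_
      nlinarith
    · obtain ⟨k, rfl⟩ : ∃ k, m = k + 3 := ⟨m - 3, by omega⟩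
      obtain ⟨C, hC0, hC⟩ := hFH a b ha hb k B2
      refine ⟨C, hC0, fun y z hy hz _ hm1 hz2 hz3 T _ hT1 hT2 x => ?_⟩
      exact hC y z hy hz (fun j hj => hm1 j (by omega)) (fun j hj => hz3 j (by omega))
        (hz2 2 le_rfl) T hT1 (hT2 (by omega)) x
  obtain ⟨C, hC0, hC⟩ := hmain
  refine ⟨C, c / (Cb + 1), hC0, by positivity, fun h hh hhh y hy h3 hmB T hT => ?_⟩
  obtain ⟨hzSP, hzD, hzB, -, -, -⟩ := hR h (D 1 y) hh (SP_D 1 hy)
  set z : ℝ → ℝ := R h (D 1 y) with hz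
  have hzj : ∀ j, D j z = R h (D (j + 1) y) := by
    intro j
    rw [hz, hzD j, D_D]
  have hRB : ∀ j A, Bd (D j y) A → Bd (R h (D j y)) A := by
    intro j A hA
    exact (hR h (D j y) hh (SP_D j hy)).2.2.1 A hA
  have hzB2 : ∀ j ≤ 2, Bd (D j z) B := by
    intro j hj
    rw [hzj]
    exact hRB _ _ (h3 _ (by omega))
  have hB0 : 0 ≤ B := (abs_nonneg _).trans (h3 0 (by omega) 0)
  have hBabs : |B| = B := abs_of_nonneg hB0
  have hT0 : 0 ≤ T := (abs_nonneg _).trans (hT 0)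
  have hFF : SP (FF a b y z) :=
    SP_add (SP_mul (hchA y z hy hzSP).1 (SP_D 1 hzSP)) (hchB y z hy hzSP).1
  have hFh : Fh a b h y = FF a b y z := rfl
  have hPs : Ps a b (1 / Ca) h y = fun x => y x + (1 / Ca * h ^ 2) * FF a b y z x := rfl
  have hPsSP : SP (Ps a b (1 / Ca) h y) := by
    rw [hPs]
    exact SP_add hy (SP_const_mul _ hFF)
  refine ⟨hPsSP, fun x => ?_⟩
  have hCx := hC y z hy hzSP (fun j hj => Bd_mono (h3 j hj) hBB2)
    (fun j hj => Bd_mono (hmB j hj) hB'B2) (fun j hj => Bd_mono (hzB2 j hj) hBB2)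
    (fun j hj => by
      rw [hzj]
      exact hRB _ _ (Bd_mono (hmB _ hj) hB'B2)) T hT0 hT
    (fun h1 => by
      rw [hzj, Nat.sub_add_cancel h1]
      exact hRB _ _ hT) x
  -- pointwise bounds of the coefficients
  have hy0 : |y x| ≤ |B| := by
    have := h3 0 (by omega) x
    rw [D_zero] at this
    rwa [hBabs]
  have hz0 : |z x| ≤ |B| := by
    have := hzB2 0 (by omega) x
    rw [D_zero] at this
    rwa [hBabs]
  have hA1 : cp a y z x ≤ Ca := (le_abs_self _).trans (hCa1 x _ _ hy0 hz0)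
  have hA2 : c ≤ cp a y z x := hc x _ _ hy0 hz0
  have hbet : |bet a b m y z x| ≤ Cb := by
    have e1 : |D 1 (cp a y z) x| ≤ |C1| := (hC1 y z hy hzSP (fun j hj => h3 j (by omega))
      (fun j hj => hzB2 j (by omega)) 1 le_rfl x).trans (le_abs_self _)
    have e2 : |cp (dZ a) y z x| ≤ |C2| := by
      have := (hC2 y z hy hzSP (fun j hj => h3 j (by omega))
        (fun j hj => hzB2 j (by omega)) 0 le_rfl x).trans (le_abs_self _)
      rwa [D_zero] at this
    have e3 : |cp (dZ b) y z x| ≤ |C3| := by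
      have := (hC3 y z hy hzSP (fun j hj => h3 j (by omega))
        (fun j hj => hzB2 j (by omega)) 0 le_rfl x).trans (le_abs_self _)
      rwa [D_zero] at this
    have e4 : |D 1 z x| ≤ |B| := by
      rw [hBabs]
      exact hzB2 1 (by omega) x
    calc |bet a b m y z x|
        ≤ |m * D 1 (cp a y z) x| + |cp (dZ a) y z x * D 1 z x| + |cp (dZ b) y z x| := by
          unfold bet
          exact abs_add_three _ _ _
      _ ≤ m * |C1| + |C2| * |B| + |C3| := by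
          rw [abs_mul, abs_mul, Nat.abs_cast]
          gcongr
  -- the step
  set u : ℝ → ℝ := D m y with hu
  have huSP : SP u := SP_D m hy
  have hz1 : D (m + 1) z x = R h (D 2 u) x := by
    rw [hzj, hu, D_D, show m + 1 + 1 = 2 + m by ring]
  have hz2 : D m z x = R h (D 1 u) x := by
    rw [hzj, hu, D_D, add_comm m 1]
  have hstep := (hR h u hh huSP).2.2.2.2.2 x (cp a y z x) (bet a b m y z x) (1 / Ca * h ^ 2) T
    (by positivity)
    (by
      have h1 : 1 / Ca * h ^ 2 * cp a y z x = h ^ 2 * (cp a y z x / Ca) := by ring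
      rw [h1]
      have h2 : cp a y z x / Ca ≤ 1 := (div_le_one hCa0).2 hA1
      nlinarith [sq_nonneg h])
    (by
      have h1 : h * |bet a b m y z x| ≤ c / (Cb + 1) * Cb := by gcongr
      have h2 : c / (Cb + 1) * Cb ≤ c := by
        rw [div_mul_eq_mul_div, div_le_iff₀ (by positivity)]
        nlinarith
      linarith) hT
  have hD : D m (Ps a b (1 / Ca) h y) x = u x + (1 / Ca * h ^ 2) * D m (FF a b y z) x := by
    rw [hPs, D_add m hy.1 (SP_const_mul _ hFF).1, D_const_mul]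
  rw [hD]
  have hsplit : u x + (1 / Ca * h ^ 2) * D m (FF a b y z) x
      = (u x + (1 / Ca * h ^ 2) * (cp a y z x * R h (D 2 u) x + bet a b m y z x * R h (D 1 u) x))
        + (1 / Ca * h ^ 2) * (D m (FF a b y z) x - cp a y z x * D (m + 1) z x
          - bet a b m y z x * D m z x) := by
    rw [hz1, hz2]
    ring
  rw [hsplit]
  refine (abs_add_le _ _).trans (add_le_add hstep ?_)
  rw [abs_mul, abs_of_nonneg (show (0 : ℝ) ≤ 1 / Ca * h ^ 2 by positivity)]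
  gcongr

end Pool.Agent.Lib.MP_c60e08_gt.Par
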