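import Pool.Agent.Lib.MP_c60e08_gt.ParSpec

/-!
# Second order estimate in time for the explicit scheme
-/

set_option autoImplicit false

namespace Pool.Agent.Lib.MP_c60e08_gt.Par

open Real Set Filter MeasureTheory Pool.Agent.Lib.MP_c60e08_gt.Lm Pool.Agent.Lib.MP_c60e08_gt.Geo

open scoped Topology

namespace ParTime2

theorem sp_D1 {u : ℝ → ℝ} (hu : SP u) : SP (D 1 u) := by
  refine ⟨?_, fun x => ?_⟩
  · show ContDiff ℝ (⊤ : ℕ∞) (iteratedDeriv 1 u)
    rw [iteratedDeriv_one]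
    exact (contDiff_infty_iff_deriv.1 hu.1).2
  · show iteratedDeriv 1 u (x + 2 * π) = iteratedDeriv 1 u x
    rw [iteratedDeriv_one]
    have h : (fun x => u (x + 2 * π)) = u := funext hu.2
    rw [← deriv_comp_add_const, h]

theorem D1D1 (u : ℝ → ℝ) : D 1 (D 1 u) = D 2 u := by
  have h : iteratedDeriv (1 + 1) u = deriv (iteratedDeriv 1 u) := iteratedDeriv_succ
  have h2 : iteratedDeriv 1 (iteratedDeriv 1 u) = deriv (iteratedDeriv 1 u) := iteratedDeriv_one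
  exact h2.trans h.symm

theorem sp_sub {u v : ℝ → ℝ} (hu : SP u) (hv : SP v) : SP (fun x => u x - v x) :=
  ⟨hu.1.sub hv.1, fun x => by simp only; rw [hu.2, hv.2]⟩

theorem Rdiff (hR : RStmt) {h c : ℝ} (hh : 0 < h) {u v : ℝ → ℝ} (hu : SP u) (hv : SP v)
    (huv : ∀ x, |u x - v x| ≤ c) : ∀ x, |R h u x - R h v x| ≤ c := by
  intro x
  have h1 := (hR h u hh hu).2.2.2.1 v hv x
  rw [← h1]
  exact (hR h _ hh (sp_sub hu hv)).2.2.1 c huv x

end ParTime2

open ParTime2 in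
theorem parTime2 : RStmt → ChainStmt → BoxStmt → Time1Stmt → Time2Stmt := by
  intro hR _ hBox hT1 a b ha hb η τ y0 hη hy0 hUB
  obtain ⟨B0, s0, hs0, hB0⟩ := hUB.2 0
  obtain ⟨B1, s1, hs1, hB1⟩ := hUB.2 1
  obtain ⟨B2, s2, hs2, hB2⟩ := hUB.2 2
  obtain ⟨L0, t0, hL0, ht0, hT0⟩ := hT1 a b ha hb η τ y0 hη hy0 hUB 0
  obtain ⟨L1, t1, hL1, ht1, hT1'⟩ := hT1 a b ha hb η τ y0 hη hy0 hUB 1
  obtain ⟨L2, t2, hL2, ht2, hT2⟩ := hT1 a b ha hb η τ y0 hη hy0 hUB 2
  set B : ℝ := |B0| + |B1| + |B2| with hB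
  have hBn : 0 ≤ B := by positivity
  obtain ⟨Ca, hCa, ha1, ha2, _⟩ := hBox a ha B
  obtain ⟨Cb, hCb, hb1, hb2, _⟩ := hBox b hb B
  set C : ℝ := Ca * (L0 + L1) * B + Ca * L2 + Cb * (L0 + L1) with hC
  have hC0 : 0 ≤ C := by positivity
  refine ⟨C, min (min s0 (min s1 s2)) (min t0 (min t1 t2)), hC0,
    lt_min (lt_min hs0 (lt_min hs1 hs2)) (lt_min ht0 (lt_min ht1 ht2)), ?_⟩
  intro h hh hh0 n j n' hnj hjn hn' x
  simp only [le_min_iff] at hh0
  obtain ⟨⟨e0, e1, e2⟩, f0, f1, f2⟩ := hh0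
  have hδ : 0 < η * h ^ 2 := by positivity
  set Y : ℕ → ℝ → ℝ := fun i => (Ps a b η h)^[i] y0 with hY
  have hYs : ∀ i, SP (Y i) := fun i => hUB.1 h hh i
  have hn : ∀ i ≤ n', (i : ℝ) * (η * h ^ 2) ≤ τ := fun i hi =>
    (mul_le_mul_of_nonneg_right (Nat.cast_le.2 hi) hδ.le).trans hn'
  -- bounds of `y`, `z`, `D 1 z`
  have bY : ∀ i ≤ n', ∀ x, |Y i x| ≤ B := by
    intro i hi x
    have h1 : |D 0 (Y i) x| ≤ B0 := hB0 h hh e0 i (hn i hi) x
    have h2 : D 0 (Y i) = Y i := iteratedDeriv_zero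
    rw [h2] at h1
    have := le_abs_self B0
    have := abs_nonneg B1
    have := abs_nonneg B2
    linarith
  have hD : ∀ i, D 1 (R h (D 1 (Y i))) = R h (D 2 (Y i)) := fun i => by
    rw [(hR h (D 1 (Y i)) hh (sp_D1 (hYs i))).2.1 1, D1D1]
  have sD2 : ∀ i, SP (D 2 (Y i)) := fun i => by
    rw [← D1D1]
    exact sp_D1 (sp_D1 (hYs i))
  have bZ : ∀ i ≤ n', ∀ x, |R h (D 1 (Y i)) x| ≤ B := by
    intro i hi x
    have h1 := (hR h (D 1 (Y i)) hh (sp_D1 (hYs i))).2.2.1 B1 (hB1 h hh e1 i (hn i hi)) x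
    have := le_abs_self B1
    have := abs_nonneg B0
    have := abs_nonneg B2
    linarith
  have bZ1 : ∀ i ≤ n', ∀ x, |D 1 (R h (D 1 (Y i))) x| ≤ B := by
    intro i hi x
    rw [hD]
    have h1 := (hR h (D 2 (Y i)) hh (sD2 i)).2.2.1 B2 (hB2 h hh e2 i (hn i hi)) x
    have := le_abs_self B2
    have := abs_nonneg B0
    have := abs_nonneg B1
    linarith
  -- differences for `p ≤ q ≤ n'`, `n ≤ p`
  set Δ : ℝ := ((n' : ℝ) - n) * (η * h ^ 2) with hΔ
  have key : ∀ p q, n ≤ p → p ≤ q → q ≤ n' → |Fh a b h (Y q) x - Fh a b h (Y p) x| ≤ C * Δ := by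
    intro p q hp hpq hq
    have hle : ((q : ℝ) - p) * (η * h ^ 2) ≤ Δ := by
      refine mul_le_mul_of_nonneg_right ?_ hδ.le
      have h1 : (q : ℝ) ≤ n' := Nat.cast_le.2 hq
      have h2 : (n : ℝ) ≤ p := Nat.cast_le.2 hp
      linarith
    have d0 : ∀ x, |Y q x - Y p x| ≤ L0 * Δ := by
      intro x
      have h1 := hT0 h hh f0 p q hpq (hn q hq) x
      have h2 : D 0 (Y q) = Y q := iteratedDeriv_zero
      have h3 : D 0 (Y p) = Y p := iteratedDeriv_zero
      have h1' : |D 0 (Y q) x - D 0 (Y p) x| ≤ L0 * (((q : ℝ) - p) * (η * h ^ 2)) := h1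
      rw [h2, h3] at h1'
      exact h1'.trans (mul_le_mul_of_nonneg_left hle hL0)
    have d1 : ∀ x, |R h (D 1 (Y q)) x - R h (D 1 (Y p)) x| ≤ L1 * Δ := by
      refine Rdiff hR hh (sp_D1 (hYs q)) (sp_D1 (hYs p)) fun x => ?_
      exact (hT1' h hh f1 p q hpq (hn q hq) x).trans (mul_le_mul_of_nonneg_left hle hL1)
    have d2 : ∀ x, |D 1 (R h (D 1 (Y q))) x - D 1 (R h (D 1 (Y p))) x| ≤ L2 * Δ := by
      rw [hD, hD]
      refine Rdiff hR hh (sD2 q) (sD2 p) fun x => ?_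
      exact (hT2 h hh f2 p q hpq (hn q hq) x).trans (mul_le_mul_of_nonneg_left hle hL2)
    have hp' : p ≤ n' := hpq.trans hq
    have g1 := ha2 x (Y q x) (R h (D 1 (Y q)) x) (Y p x) (R h (D 1 (Y p)) x)
      (bY q hq x) (bZ q hq x) (bY p hp' x) (bZ p hp' x)
    have g2 := hb2 x (Y q x) (R h (D 1 (Y q)) x) (Y p x) (R h (D 1 (Y p)) x)
      (bY q hq x) (bZ q hq x) (bY p hp' x) (bZ p hp' x)
    have g3 := ha1 x (Y p x) (R h (D 1 (Y p)) x) (bY p hp' x) (bZ p hp' x)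
    have hΔ0 : 0 ≤ Δ := by
      have h1 : (n : ℝ) ≤ n' := Nat.cast_le.2 (hp.trans hp')
      exact mul_nonneg (by linarith) hδ.le
    have hs : |Y q x - Y p x| + |R h (D 1 (Y q)) x - R h (D 1 (Y p)) x| ≤ (L0 + L1) * Δ := by
      have := d0 x
      have := d1 x
      linarith
    have g1' := g1.trans (mul_le_mul_of_nonneg_left hs hCa.le)
    have g2' := g2.trans (mul_le_mul_of_nonneg_left hs hCb.le)
    have e : Fh a b h (Y q) x - Fh a b h (Y p) x
        = (a x (Y q x) (R h (D 1 (Y q)) x) - a x (Y p x) (R h (D 1 (Y p)) x))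
            * D 1 (R h (D 1 (Y q))) x
          + a x (Y p x) (R h (D 1 (Y p)) x)
            * (D 1 (R h (D 1 (Y q))) x - D 1 (R h (D 1 (Y p))) x)
          + (b x (Y q x) (R h (D 1 (Y q)) x) - b x (Y p x) (R h (D 1 (Y p)) x)) := by
      unfold Fh FF cp
      ring
    rw [e]
    refine (abs_add_le _ _).trans ((add_le_add (abs_add_le _ _) le_rfl).trans ?_)
    rw [abs_mul, abs_mul]
    have m1 := mul_le_mul g1' (bZ1 q hq x) (abs_nonneg _) (by positivity)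
    have m2 := mul_le_mul g3 (d2 x) (abs_nonneg _) hCa.le
    rw [hC]
    nlinarith [m1, m2, g2']
  have key' : ∀ i, n ≤ i → i ≤ n' → |Fh a b h (Y i) x - Fh a b h (Y j) x| ≤ C * Δ := by
    intro i hi hi'
    rcases le_total j i with h | h
    · exact key j i hnj h hi'
    · rw [abs_sub_comm]
      exact key i j hi h hjn
  have main : ∀ k, n ≤ k → k ≤ n' →
      |Y k x - Y n x - ((k : ℝ) - n) * (η * h ^ 2) * Fh a b h (Y j) x|
        ≤ ((k : ℝ) - n) * (η * h ^ 2) * (C * Δ) := by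
    intro k hk
    induction k, hk using Nat.le_induction with
    | base => intro _; simp
    | succ k hk ih =>
      intro hk'
      have h1 := ih (by omega)
      have h2 := key' k hk (by omega)
      have h3 : Y (k + 1) x = Y k x + η * h ^ 2 * Fh a b h (Y k) x := by
        rw [hY]
        simp only [Function.iterate_succ_apply']
        rfl
      have h4 : Y (k + 1) x - Y n x - (((k + 1 : ℕ) : ℝ) - n) * (η * h ^ 2) * Fh a b h (Y j) x
          = (Y k x - Y n x - ((k : ℝ) - n) * (η * h ^ 2) * Fh a b h (Y j) x)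
            + η * h ^ 2 * (Fh a b h (Y k) x - Fh a b h (Y j) x) := by
        rw [h3]
        push_cast
        ring
      rw [h4]
      refine (abs_add_le _ _).trans ?_
      rw [abs_mul, abs_of_pos hδ]
      have h5 := mul_le_mul_of_nonneg_left h2 hδ.le
      push_cast
      nlinarith
  have hfin := main n' (hnj.trans hjn) le_rfl
  refine hfin.trans (le_of_eq ?_)
  rw [hΔ]
  ring

end Pool.Agent.Lib.MP_c60e08_gt.Par
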