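import Pool.Agent.Lib.MP_c60e08_gt.ParQ
import Pool.Agent.Lib.MP_c60e08_gt.ParR
import Pool.Agent.Lib.MP_c60e08_gt.ParChain
import Pool.Agent.Lib.MP_c60e08_gt.ParBox
import Pool.Agent.Lib.MP_c60e08_gt.ParComp
import Pool.Agent.Lib.MP_c60e08_gt.ParLin1
import Pool.Agent.Lib.MP_c60e08_gt.ParLin2
import Pool.Agent.Lib.MP_c60e08_gt.ParFLow
import Pool.Agent.Lib.MP_c60e08_gt.ParFHigh
import Pool.Agent.Lib.MP_c60e08_gt.ParStep
import Pool.Agent.Lib.MP_c60e08_gt.ParIter2
import Pool.Agent.Lib.MP_c60e08_gt.ParTime1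
import Pool.Agent.Lib.MP_c60e08_gt.ParTime2
import Pool.Agent.Lib.MP_c60e08_gt.ParLim
import Pool.Agent.Lib.MP_c60e08_gt.ParFin2
import Pool.Agent.Lib.MP_c60e08_gt.ParEx
import Pool.Agent.Lib.MP_c60e08_gt.ParSwap
import Pool.Agent.Lib.MP_c60e08_gt.ParSmoothFin
import Pool.Agent.Lib.MP_c60e08_gt.Geo.Part

/-!
# MP_c60e08, PDE part: local existence for quasilinear parabolic equations, and smoothness
-/

namespace Pool.Agent.Lib.MP_c60e08_gt.Par

open Pool.Agent.Lib.MP_c60e08_gt.Lm Pool.Agent.Lib.MP_c60e08_gt.Geo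

theorem qF : QStmt := parQ
theorem rF : RStmt := parR parQ
theorem boxF : BoxStmt := parBox parChain
theorem compF : CompStmt := parComp parChain boxF
theorem lin1F : Lin1Stmt := parLin1 parChain compF
theorem lin2F : Lin2Stmt := parLin2 parChain compF lin1F
theorem fLowF : FLowStmt := parFLow parChain compF
theorem fHighF : FHighStmt := parFHigh parChain compF lin1F lin2F
theorem stepF : StepStmt := parStep rF parChain boxF compF fLowF fHighF
theorem iter2F : Iter2Stmt := parIter2 stepF parChain rF
theorem iterF : IterStmt := parIter stepF parChain rF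
theorem time1F : Time1Stmt := parTime1 rF parChain compF
theorem time2F : Time2Stmt := parTime2 rF parChain boxF time1F

/-- local existence with `C^3` bounds -/
theorem par2 : Pde.Par2Stmt := parFin2 rF parChain boxF iter2F time1F time2F parLim

/-- local existence -/
theorem par : ParStmt := parFin rF parChain boxF iterF time1F time2F parLim

/-- joint smoothness of polar solutions -/
theorem smooth : SmoothStmt := parSmoothFin Geo.part parEx parSwap

end Pool.Agent.Lib.MP_c60e08_gt.Par
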