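import Pool.Agent.Lib.MP_c60e08_gt.PdeMain
import Pool.Agent.Lib.MP_c60e08_gt.Par2
import Pool.Agent.Lib.MP_c60e08_gt.Geo.Part

/-!
The PDE part of MP_c60e08_gt, final unconditional form.
-/

namespace Pool.Agent.Lib.MP_c60e08_gt.Pde

open Pool.Agent.Lib.MP_c60e08_gt.Lm

theorem uniqAll : UniqStmt := uniqF

theorem maxSolAll : MaxSolStmt := maxSolF Par.par2

theorem stabAll : StabStmt := stabF Par.par2

theorem smoothAll : SmoothStmt := smoothF Geo.part

theorem flowAll : FlowStmt := flowF Geo.part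

end Pool.Agent.Lib.MP_c60e08_gt.Pde
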