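import Pool.Agent.Lib.MP_c60e08_gt.LmAll
import Pool.Agent.Lib.MP_c60e08_gt.PdeAll
import Pool.Agent.Lib.MP_c60e08_gt.InitAll
import Pool.Agent.Lib.MP_c60e08_gt.Geo.All

/-!
MP_c60e08_gt, the final assembly: `mainStmt : MainStmt`.
-/

namespace Pool.Agent.Lib.MP_c60e08_gt.Lm

theorem mainStmt : MainStmt := by
  obtain ⟨T, K, y, hT, hy, h0, h1, h2⟩ :=
    all_shoot Pde.maxSolAll Pde.uniqAll Pde.stabAll familyStmt Pde.flowAll
  exact Geo.geo Pde.smoothAll T K y hT hy h0 h1 h2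

end Pool.Agent.Lib.MP_c60e08_gt.Lm
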