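import Pool.Agent.Lib.MP_c60e08_gt.LmFlow2

/-!
MP_c60e08_gt, module Mp: the weak maximum principle.
-/

set_option autoImplicit false

namespace Pool.Agent.Lib.MP_c60e08_gt.Lm

open Real Set Filter Topology

namespace Mp

/-- If `f s' ≥ f s` for `s'` slightly smaller than `s`, then the derivative at `s` is `≤ 0`. -/
theorem deriv_nonpos {f : ℝ → ℝ} {s E a : ℝ} (ha : a < s) (hf : HasDerivAt f E s)
    (h : ∀ s' ∈ Ico a s, f s ≤ f s') : E ≤ 0 := by
  have h1 : Tendsto (slope f s) (𝓝[<] s) (𝓝 E) :=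
    (hasDerivWithinAt_iff_tendsto_slope' (by simp)).1 hf.hasDerivWithinAt
  refine le_of_tendsto h1 ?_
  filter_upwards [Ico_mem_nhdsLT ha] with s' hs'
  rw [slope_def_field]
  exact div_nonpos_of_nonneg_of_nonpos (sub_nonneg.2 (h s' hs')) (by linarith [hs'.2])

end Mp

theorem mpStmt : MpStmt := by
  intro t0 t1 Lam y hc h0 hD t ht p hp
  by_contra hneg
  push Not at hneg
  have hK : IsCompact (Icc t0 t1 ×ˢ Icc (0 : ℝ) π) := isCompact_Icc.prod isCompact_Icc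
  have hzc : ContinuousOn (fun w : ℝ × ℝ => exp (-(Lam + 1) * w.1) * y w.1 w.2)
      (Icc t0 t1 ×ˢ Icc (0 : ℝ) π) := by
    refine ContinuousOn.mul (Continuous.continuousOn (by fun_prop)) hc
  obtain ⟨⟨s, q⟩, hsq, hmin⟩ := hK.exists_isMinOn ⟨(t, p), ht, hp⟩ hzc
  have hmin' : ∀ s' ∈ Icc t0 t1, ∀ q' ∈ Icc (0 : ℝ) π,
      exp (-(Lam + 1) * s) * y s q ≤ exp (-(Lam + 1) * s') * y s' q' :=
    fun s' hs' q' hq' => hmin (a := (s', q')) ⟨hs', hq'⟩
  have hz : exp (-(Lam + 1) * s) * y s q < 0 :=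
    lt_of_le_of_lt (hmin' t ht p hp) (mul_neg_of_pos_of_neg (exp_pos _) hneg)
  have hy : y s q < 0 := by
    by_contra hcon
    push Not at hcon
    exact absurd hz (not_lt.2 (mul_nonneg (exp_pos _).le hcon))
  have hs0 : t0 < s := by
    refine lt_of_le_of_ne hsq.1.1 ?_
    rintro rfl
    exact absurd (h0 q hsq.2) (not_le.2 hy)
  obtain ⟨D, hd, hle⟩ := hD s ⟨hs0, hsq.1.2⟩ q hsq.2 hy fun r hr =>
    le_of_mul_le_mul_left (hmin' s hsq.1 r hr) (exp_pos _)
  have hder : HasDerivAt (fun s' => exp (-(Lam + 1) * s') * y s' q)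
      (exp (-(Lam + 1) * s) * (-(Lam + 1) * 1) * y s q + exp (-(Lam + 1) * s) * D) s :=
    (((hasDerivAt_id s).const_mul (-(Lam + 1))).exp).mul hd
  have hE := Mp.deriv_nonpos hs0 hder fun s' hs' =>
    hmin' s' ⟨hs'.1, hs'.2.le.trans hsq.1.2⟩ q hsq.2
  have hpos : 0 < exp (-(Lam + 1) * s) * (-(Lam + 1) * 1) * y s q + exp (-(Lam + 1) * s) * D := by
    have : exp (-(Lam + 1) * s) * (-(Lam + 1) * 1) * y s q + exp (-(Lam + 1) * s) * D =
        exp (-(Lam + 1) * s) * (D - Lam * y s q - y s q) := by ring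
    rw [this]
    exact mul_pos (exp_pos _) (by linarith)
  linarith

end Pool.Agent.Lib.MP_c60e08_gt.Lm
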