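import Pool.Agent.Lib.MP_c60e08_gt.LmFlow2

/-!
MP_c60e08_gt, module Rpos: `r >= δ X` is preserved.
-/

namespace Pool.Agent.Lib.MP_c60e08_gt.Lm.Rpos

open Real Set Filter Topology

lemma deriv_nonneg_right {F : ℝ → ℝ} {d a b : ℝ} (hab : a < b) (h : HasDerivAt F d a)
    (hF : ∀ q ∈ Ioo a b, F a ≤ F q) : 0 ≤ d := by
  have h1 : HasDerivWithinAt F d (Ioi a) a := h.hasDerivWithinAt
  rw [hasDerivWithinAt_iff_tendsto_slope' (by simp)] at h1
  refine ge_of_tendsto h1 ?_
  filter_upwards [Ioo_mem_nhdsGT hab] with q hq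
  rw [slope_def_field]
  exact div_nonneg (sub_nonneg.2 (hF q hq)) (sub_nonneg.2 hq.1.le)

lemma deriv_nonpos_left {F : ℝ → ℝ} {d a b : ℝ} (hab : a < b) (h : HasDerivAt F d b)
    (hF : ∀ q ∈ Ioo a b, F b ≤ F q) : d ≤ 0 := by
  have h1 : HasDerivWithinAt F d (Iio b) b := h.hasDerivWithinAt
  rw [hasDerivWithinAt_iff_tendsto_slope' (by simp)] at h1
  refine le_of_tendsto h1 ?_
  filter_upwards [Ioo_mem_nhdsLT hab] with q hq
  rw [slope_def_field]
  exact div_nonpos_of_nonneg_of_nonpos (sub_nonneg.2 (hF q hq)) (sub_nonpos.2 hq.2.le)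

end Pool.Agent.Lib.MP_c60e08_gt.Lm.Rpos

namespace Pool.Agent.Lib.MP_c60e08_gt.Lm

open Real Set Filter Topology Rpos

theorem rposStmt (h1 : MpStmt) (h2 : MinsStmt) (h3 : IdStmt) (h4 : IdCStmt) (h5 : IdRStmt) :
    RposStmt := by
  intro T W hW ⟨δ, hδ, hini⟩ t1 ht1
  have hπ := Real.pi_pos
  -- X is nonnegative
  have hX : ∀ t ∈ Ico 0 T, ∀ p ∈ Icc 0 π, 0 ≤ W.X t p := by
    intro t ht p hp
    rcases eq_or_lt_of_le hp.1 with h | h
    · rw [← h, hW.X0 t ht]
    rcases eq_or_lt_of_le hp.2 with h' | h'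
    · rw [h', hW.Xpi t ht]
    exact (hW.Xpos t ht p ⟨h, h'⟩).le
  have hr0 : ∀ t ∈ Ico 0 T, W.r t 0 = 0 := by
    intro t ht
    simp only [FlowData.r, hW.X0 t ht, hW.th0 t ht]
    simp
  have hrpi : ∀ t ∈ Ico 0 T, W.r t π = 0 := by
    intro t ht
    simp only [FlowData.r, hW.Xpi t ht, hW.thpi t ht]
    simp
  have hsub : Icc 0 t1 ×ˢ Icc 0 π ⊆ Ico 0 T ×ˢ (univ : Set ℝ) := by
    rintro ⟨t, p⟩ ⟨ht, _⟩
    exact ⟨⟨ht.1, lt_of_le_of_lt ht.2 ht1.2⟩, mem_univ _⟩
  have hmem : ∀ t ∈ Icc 0 t1, t ∈ Ico 0 T := fun t ht => ⟨ht.1, lt_of_le_of_lt ht.2 ht1.2⟩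
  -- bound for C0
  have hC0c : ContinuousOn (fun z : ℝ × ℝ => W.C0 z.1 z.2) (Icc 0 t1 ×ˢ Icc 0 π) :=
    (h4 T W hW W.C0 (by simp)).mono hsub
  have hrc : ContinuousOn (fun z : ℝ × ℝ => W.r z.1 z.2) (Icc 0 t1 ×ˢ Icc 0 π) :=
    (h4 T W hW W.r (by simp)).mono hsub
  obtain ⟨A0, hA0⟩ := (isCompact_Icc.prod isCompact_Icc).exists_bound_of_continuousOn hC0c
  set A : ℝ := max A0 0 with hA
  have hAC : ∀ t ∈ Icc 0 t1, ∀ p ∈ Icc 0 π, |W.C0 t p| ≤ A := by
    intro t ht p hp
    have := hA0 (t, p) ⟨ht, hp⟩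
    simp only [Real.norm_eq_abs] at this
    exact this.trans (le_max_left _ _)
  have hkey : ∀ t ∈ Icc 0 t1, ∀ p ∈ Icc 0 π,
      0 ≤ W.r t p - δ * exp (-(A * t)) * W.X t p := by
    refine h1 0 t1 A (fun t p => W.r t p - δ * exp (-(A * t)) * W.X t p) ?_ ?_ ?_
    · have hXc : ContinuousOn (fun z : ℝ × ℝ => W.X z.1 z.2) (Icc 0 t1 ×ˢ Icc 0 π) :=
        hW.cX.mono hsub
      refine hrc.sub (ContinuousOn.mul ?_ hXc)
      fun_prop
    · intro p hp
      have := hini p hp
      simp only [mul_zero, neg_zero, exp_zero, mul_one]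
      linarith
    · intro t ht p hp hneg hmin
      have htT : t ∈ Ico 0 T := hmem t ⟨ht.1.le, ht.2⟩
      have htT' : t ∈ Ioo 0 T := ⟨ht.1, htT.2⟩
      have hp0 : 0 < p := by
        rcases eq_or_lt_of_le hp.1 with h | h
        · exfalso
          simp only [← h, hW.X0 t htT, hr0 t htT] at hneg
          simp at hneg
        · exact h
      have hpπ : p < π := by
        rcases eq_or_lt_of_le hp.2 with h | h
        · exfalso
          simp only [h, hW.Xpi t htT, hrpi t htT] at hneg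
          simp at hneg
        · exact h
      set e : ℝ := δ * exp (-(A * t)) with he
      have hepos : 0 < e := mul_pos hδ (exp_pos _)
      have hloc : IsLocalMin (fun q => W.r t q - e * W.X t q) p := by
        filter_upwards [Icc_mem_nhds hp0 hpπ] with q hq
        exact hmin q hq
      have hd1 : ∀ q, HasDerivAt (fun q => W.r t q - e * W.X t q)
          (W.g t q * (W.r1 t q - e * cos (W.th t q))) q := by
        intro q
        have a1 : HasDerivAt (W.r t) (W.g t q * W.r1 t q) q := by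
          obtain ⟨_, _, _, _, _, _, _, _, _, _, _, _, _, hr, _⟩ := (h3 T W hW).1 t htT q
          exact hr
        have a2 := (hW.Xp t htT q).const_mul e
        exact (a1.fun_sub a2).congr_deriv (by ring)
      have hd2 : HasDerivAt (fun q => W.r1 t q - e * cos (W.th t q))
          (W.g t p * (W.r2 t p + e * (W.kap t p * sin (W.th t p)))) p := by
        have a1 : HasDerivAt (W.r1 t) (W.g t p * W.r2 t p) p := by
          obtain ⟨_, _, _, _, _, _, _, _, _, _, _, _, _, _, _, _, _, _, _, hr, _⟩ :=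
            (h3 T W hW).1 t htT p
          exact hr
        have a2 := ((hW.thp t htT p).cos).const_mul e
        exact (a1.fun_sub a2).congr_deriv (by ring)
      obtain ⟨hk0, hk2⟩ := h2.1 (fun q => W.r t q - e * W.X t q) (W.g t)
        (fun q => W.r1 t q - e * cos (W.th t q)) p _ (hW.gpos t htT) hd1 hd2 hloc
      have hE : HasDerivAt (fun s => δ * exp (-(A * s))) (-(A * e)) t := by
        have a0 : HasDerivAt (fun s : ℝ => -(A * s)) (-A) t := by
          simpa using ((hasDerivAt_id t).const_mul A).fun_neg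
        exact ((a0.exp).const_mul δ).congr_deriv (by rw [he]; ring)
      refine ⟨_, ((h5 T W hW).2 t htT' p).1.fun_sub (hE.fun_mul (hW.Xt t htT' p)), ?_⟩
      have hf : 0 < W.f t p := by
        obtain ⟨_, _, hf, _⟩ := (h3 T W hW).1 t htT p
        exact hf
      have hvk : W.v t p = W.f t p * W.kap t p := by
        unfold FlowData.kap
        field_simp
      have hC := abs_le.1 (hAC t ⟨ht.1.le, ht.2⟩ p hp)
      have hXp := hX t htT p hp
      simp only [← he]
      rw [hvk]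
      have hfk := mul_nonneg hf.le hk2
      have hCX : 0 ≤ (W.C0 t p + A) * (e * W.X t p) :=
        mul_nonneg (by linarith) (mul_nonneg hepos.le hXp)
      have hCy : 0 ≤ (A - W.C0 t p) * -(W.r t p - e * W.X t p) :=
        mul_nonneg (by linarith) (by linarith)
      have hlam : W.lam t p * (W.r1 t p - e * cos (W.th t p)) = 0 := by rw [hk0]; ring
      nlinarith [hfk, hCX, hCy, hlam]
  -- the final constant
  have hA0' : 0 ≤ A := le_max_right _ _
  have ht1' : (0 : ℝ) ≤ t1 := ht1.1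
  refine ⟨δ * exp (-(A * t1)), mul_pos hδ (exp_pos _), fun t ht => ?_⟩
  have htT := hmem t ht
  have hmain : ∀ p ∈ Icc 0 π, δ * exp (-(A * t1)) * W.X t p ≤ W.r t p := by
    intro p hp
    have a := hkey t ht p hp
    have b : exp (-(A * t1)) ≤ exp (-(A * t)) :=
      exp_le_exp.2 (neg_le_neg (mul_le_mul_of_nonneg_left ht.2 hA0'))
    have c : δ * exp (-(A * t1)) * W.X t p ≤ δ * exp (-(A * t)) * W.X t p :=
      mul_le_mul_of_nonneg_right (mul_le_mul_of_nonneg_left b hδ.le) (hX t htT p hp)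
    linarith
  set e : ℝ := δ * exp (-(A * t1)) with he
  have hd1 : ∀ q, HasDerivAt (fun q => W.r t q - e * W.X t q)
      (W.g t q * (W.r1 t q - e * cos (W.th t q))) q := by
    intro q
    have a1 : HasDerivAt (W.r t) (W.g t q * W.r1 t q) q := by
      obtain ⟨_, _, _, _, _, _, _, _, _, _, _, _, _, hr, _⟩ := (h3 T W hW).1 t htT q
      exact hr
    have a2 := (hW.Xp t htT q).const_mul e
    exact (a1.fun_sub a2).congr_deriv (by ring)
  refine ⟨hmain, ?_, ?_⟩
  · have h := deriv_nonneg_right hπ (hd1 0) (fun q hq => by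
      simp only [hr0 t htT, hW.X0 t htT]
      have := hmain q ⟨hq.1.le, hq.2.le⟩
      linarith)
    rw [hW.th0 t htT, cos_zero] at h
    have hg := hW.gpos t htT 0
    have := nonneg_of_mul_nonneg_right h hg
    linarith
  · have h := deriv_nonpos_left hπ (hd1 π) (fun q hq => by
      simp only [hrpi t htT, hW.Xpi t htT]
      have := hmain q ⟨hq.1.le, hq.2.le⟩
      linarith)
    rw [hW.thpi t htT, cos_pi] at h
    have hg := hW.gpos t htT π
    have : W.r1 t π - e * -1 ≤ 0 := by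
      by_contra hc
      push Not at hc
      have := mul_pos hg hc
      linarith
    linarith

end Pool.Agent.Lib.MP_c60e08_gt.Lm
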