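import Pool.Agent.Lib.MP_c60e08_gt.LmFlow2

/-!
MP_c60e08_gt, module SlopeUp: upper bounds for the slope near the tip.
-/

namespace Pool.Agent.Lib.MP_c60e08_gt.Lm

open Real Set

theorem slopeUpStmt (h1 : CvxStmt) (h2 : IdStmt) : SlopeUpStmt := by
  intro T W hW t ht hr hom hv hth p hp hsp
  obtain ⟨hmono, -, hc3, hc4⟩ := h1 T W hW t ht hr hom
  have hid := (h2 T W hW).1 t ht
  have hss0 : ∀ q, 0 < W.ss t q := fun q => (hid q).2.2.2.1
  have hss3 : ∀ q, W.ss t q ^ 3 = W.u t q := fun q => (hid q).2.2.2.2.2.2.1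
  have hpi0 : (0 : ℝ) < π := Real.pi_pos
  have hspi : 1 < W.ss t π := by
    have h3 := hss3 π
    have hu : 1 < W.u t π := by
      have hY := hW.top t ht
      unfold FlowData.u
      nlinarith [sq_nonneg (W.X t π)]
    by_contra hle
    push Not at hle
    have h4 := hss0 π
    have h5 : W.ss t π ^ 3 ≤ 1 := pow_le_one₀ h4.le hle
    linarith
  have hp0 : 0 ≤ p := hp.1
  have hpne : p ≠ π := by
    rintro rfl
    linarith
  have hplt : p < π := lt_of_le_of_ne hp.2 hpne
  have hth0 : W.th t 0 = 0 := hW.th0 t ht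
  have hthpi : W.th t π = π := hW.thpi t ht
  rcases eq_or_lt_of_le hp0 with h0 | h0
  · subst h0
    have hr0 : W.r t 0 = 0 := by
      unfold FlowData.r
      rw [hth0, hW.X0 t ht]
      simp
    rw [hr0, hth0]
    refine ⟨by linarith, ?_⟩
    have := hss0 0
    linarith
  · have hpI : p ∈ Ioo 0 π := ⟨h0, hplt⟩
    have hrp := hr p hpI
    have e1 := hc3 p hpI π ⟨hpi0.le, le_refl _⟩ hplt.le
    have e2 := hc4 0 ⟨le_refl _, hpi0.le⟩ p hpI h0.le
    rw [hthpi] at e1
    rw [hth0] at e2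
    have hk : W.v t p / W.r t p ≤ 10 := by
      by_contra hgt
      push Not at hgt
      have hthp := hth p hp
      have hpi := Real.pi_lt_d2
      have h3 : 10 * (W.ss t π - W.ss t p) ≤ W.v t p / W.r t p * (W.ss t π - W.ss t p) :=
        mul_le_mul_of_nonneg_right hgt.le (by linarith)
      nlinarith
    refine ⟨?_, ?_⟩
    · rwa [div_le_iff₀ hrp] at hk
    · have hm := hmono 0 ⟨le_refl _, hpi0.le⟩ p hp h0.le
      have h3 : W.v t p / W.r t p * (W.ss t p - W.ss t 0) ≤ 10 * (W.ss t p - W.ss t 0) :=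
        mul_le_mul_of_nonneg_right hk (by linarith)
      have := hss0 0
      linarith

end Pool.Agent.Lib.MP_c60e08_gt.Lm
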