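import Pool.Agent.Lib.MP_c60e08_gt.LmFlow2

/-!
MP_c60e08_gt, module UnderOf: a strict pointwise inequality gives `Under` (compactness).
-/

namespace Pool.Agent.Lib.MP_c60e08_gt.Lm

open Real Set Filter Topology

theorem UnderOf.continuous_barr (e b : ℝ) : Continuous (barr e b) := by
  unfold barr
  have h1 : Continuous fun u : ℝ => u ^ ((1 : ℝ) / 3) :=
    Real.continuous_rpow_const (by norm_num)
  have h2 : Continuous fun u : ℝ => √u := Real.continuous_sqrt
  fun_prop

theorem underOfStmt (h1 : IdStmt) (_h2 : IdCStmt) : UnderOfStmt := by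
  intro T W hW t ht e b he heb hb hY h
  refine ⟨he, heb, hb, hY, ?_⟩
  have hid := (h1 T W hW).1 t ht
  have hcY : Continuous (W.Y t) :=
    continuous_iff_continuousAt.2 fun p => (hW.Yp t ht p).continuousAt
  have hcu : Continuous (W.u t) := by
    refine continuous_iff_continuousAt.2 fun p => ?_
    obtain ⟨_, _, _, _, _, _, _, _, _, _, _, _, h13, _⟩ := hid p
    exact h13.continuousAt
  have hcrho : Continuous (W.rho t) := by
    unfold FlowData.rho
    exact Real.continuous_sqrt.comp hcu
  have hcF : Continuous fun p => max (W.rho t p - 1 / 8000) (barr e b (W.u t p) - W.Y t p) :=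
    (hcrho.sub continuous_const).max (((UnderOf.continuous_barr e b).comp hcu).sub hcY)
  have hne : (Icc (0 : ℝ) π).Nonempty := ⟨0, le_refl _, Real.pi_pos.le⟩
  obtain ⟨q, hq, hmin⟩ := isCompact_Icc.exists_isMinOn hne hcF.continuousOn
  have hpos : 0 < max (W.rho t q - 1 / 8000) (barr e b (W.u t q) - W.Y t q) := by
    by_cases hle : W.rho t q ≤ 1 / 8000
    · have := h q hq hle
      exact lt_max_of_lt_right (by linarith)
    · push Not at hle
      exact lt_max_of_lt_left (by linarith)
  refine ⟨max (W.rho t q - 1 / 8000) (barr e b (W.u t q) - W.Y t q) / 2, by linarith, ?_⟩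
  intro p hp hrp
  have hm : max (W.rho t q - 1 / 8000) (barr e b (W.u t q) - W.Y t q) ≤
      max (W.rho t p - 1 / 8000) (barr e b (W.u t p) - W.Y t p) := hmin hp
  rcases le_max_iff.1 hm with h3 | h3
  · linarith
  · linarith

end Pool.Agent.Lib.MP_c60e08_gt.Lm
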