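import Pool.Agent.Lib.MP_c60e08_gt.ParSpec

/-!
MP_c60e08_gt: basic properties of the operator `Q s`.
-/

namespace Pool.Agent.Lib.MP_c60e08_gt.Par

open Real Set Filter MeasureTheory Pool.Agent.Lib.MP_c60e08_gt.Lm Pool.Agent.Lib.MP_c60e08_gt.Geo

open scoped Topology

namespace ParQ

lemma sp_bdd {u : ℝ → ℝ} (hu : SP u) : ∃ B, 0 ≤ B ∧ Bd u B := by
  have hpi : (0 : ℝ) < 2 * π := by positivity
  obtain ⟨B, hB⟩ := (isCompact_Icc (a := (0 : ℝ)) (b := 2 * π)).exists_bound_of_continuousOn
    hu.1.continuous.continuousOn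
  have hB' : Bd u B := by
    intro x
    have hp : Function.Periodic u (2 * π) := hu.2
    obtain ⟨y, hy, hxy⟩ := hp.exists_mem_Ico₀ hpi x
    rw [hxy]
    exact hB y ⟨hy.1, hy.2.le⟩
  exact ⟨B, (abs_nonneg _).trans (hB' 0), hB'⟩

lemma sp_deriv {u : ℝ → ℝ} (hu : SP u) : SP (deriv u) := by
  refine ⟨(contDiff_infty_iff_deriv.mp hu.1).2, fun x => ?_⟩
  have h1 := deriv_comp_add_const u (2 * π) x
  have h2 : (fun x => u (x + 2 * π)) = u := funext hu.2
  rw [h2] at h1
  exact h1.symm

lemma sp_iter {u : ℝ → ℝ} (hu : SP u) (m : ℕ) : SP (D m u) := by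
  induction m with
  | zero =>
    have : D 0 u = u := iteratedDeriv_zero
    rw [this]
    exact hu
  | succ m ih =>
    have : D (m + 1) u = deriv (D m u) := iteratedDeriv_succ
    rw [this]
    exact sp_deriv ih

lemma integ (s : ℝ) {u : ℝ → ℝ} (hu : SP u) (x : ℝ) :
    IntegrableOn (fun z => exp (-z) * u (x + s * z)) (Ioi (0 : ℝ)) := by
  obtain ⟨B, hB0, hB⟩ := sp_bdd hu
  have h1 : IntegrableOn (fun z : ℝ => exp (-z) * B) (Ioi (0 : ℝ)) :=
    (integrableOn_exp_neg_Ioi 0).mul_const B
  refine Integrable.mono' h1 ?_ ?_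
  · apply Continuous.aestronglyMeasurable
    have := hu.1.continuous
    fun_prop
  · refine Filter.Eventually.of_forall (fun z => ?_)
    rw [norm_mul, Real.norm_eq_abs, Real.norm_eq_abs, abs_of_pos (exp_pos _)]
    exact mul_le_mul_of_nonneg_left (hB _) (exp_pos _).le

lemma hasDeriv (s : ℝ) {u : ℝ → ℝ} (hu : SP u) (x : ℝ) :
    HasDerivAt (Q s u) (Q s (deriv u) x) x := by
  obtain ⟨B, hB0, hB⟩ := sp_bdd (sp_deriv hu)
  have hc := hu.1.continuous
  have hc' := (sp_deriv hu).1.continuous
  have h1 : IntegrableOn (fun z : ℝ => exp (-z) * B) (Ioi (0 : ℝ)) :=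
    (integrableOn_exp_neg_Ioi 0).mul_const B
  have h2 := hasDerivAt_integral_of_dominated_loc_of_deriv_le
    (μ := volume.restrict (Ioi (0 : ℝ))) (F := fun x z => exp (-z) * u (x + s * z))
    (F' := fun x z => exp (-z) * deriv u (x + s * z)) (x₀ := x) (s := univ)
    (bound := fun z => exp (-z) * B) Filter.univ_mem
    (Filter.Eventually.of_forall (fun y => (integ s hu y).aestronglyMeasurable))
    (integ s hu x) (integ s (sp_deriv hu) x).aestronglyMeasurable
    (Filter.Eventually.of_forall (fun z y _ => by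
      rw [norm_mul, Real.norm_eq_abs, Real.norm_eq_abs, abs_of_pos (exp_pos _)]
      exact mul_le_mul_of_nonneg_left (hB _) (exp_pos _).le))
    h1
    (Filter.Eventually.of_forall (fun z y _ => by
      have h3 : HasDerivAt u (deriv u (y + s * z)) (y + s * z) :=
        (hu.1.differentiable (by simp) _).hasDerivAt
      have h4 : HasDerivAt (fun y => u (y + s * z)) (deriv u (y + s * z)) y := by
        have h5 : HasDerivAt (fun y : ℝ => y + s * z) 1 y := (hasDerivAt_id y).add_const _
        have h6 := h3.comp y h5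
        rw [mul_one] at h6
        exact h6
      exact h4.const_mul _))
  exact h2.2

lemma iter (s : ℝ) {u : ℝ → ℝ} (hu : SP u) (m : ℕ) : D m (Q s u) = Q s (D m u) := by
  induction m with
  | zero =>
    have h1 : D 0 u = u := iteratedDeriv_zero
    have h2 : D 0 (Q s u) = Q s u := iteratedDeriv_zero
    rw [h1, h2]
  | succ m ih =>
    have h1 : D (m + 1) u = deriv (D m u) := iteratedDeriv_succ
    have h2 : D (m + 1) (Q s u) = deriv (D m (Q s u)) := iteratedDeriv_succ
    rw [h1, h2, ih]
    funext x
    exact (hasDeriv s (sp_iter hu m) x).deriv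

lemma sp (s : ℝ) {u : ℝ → ℝ} (hu : SP u) : SP (Q s u) := by
  constructor
  · apply contDiff_of_differentiable_iteratedDeriv
    intro m _ x
    have h1 : iteratedDeriv m (Q s u) = Q s (D m u) := iter s hu m
    rw [h1]
    exact (hasDeriv s (sp_iter hu m) x).differentiableAt
  · intro x
    unfold Q
    congr 1
    funext z
    rw [show x + 2 * π + s * z = (x + s * z) + 2 * π by ring, hu.2]

end ParQ

theorem parQ : QStmt := by
  intro s u hu
  refine ⟨ParQ.sp s hu, fun m => ParQ.iter s hu m, ?_, ?_, ?_⟩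
  · intro B hB x
    have h1 : IntegrableOn (fun z : ℝ => exp (-z) * B) (Ioi (0 : ℝ)) :=
      (integrableOn_exp_neg_Ioi 0).mul_const B
    have h2 := norm_integral_le_of_norm_le (μ := volume.restrict (Ioi (0 : ℝ)))
      (f := fun z => exp (-z) * u (x + s * z)) h1
      (Filter.Eventually.of_forall (fun z => by
        rw [norm_mul, Real.norm_eq_abs, Real.norm_eq_abs, abs_of_pos (exp_pos _)]
        exact mul_le_mul_of_nonneg_left (hB _) (exp_pos _).le))
    rw [integral_mul_const, integral_exp_neg_Ioi_zero, one_mul] at h2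
    exact h2
  · intro x
    have hd1 : D 1 u = deriv u := iteratedDeriv_one
    rw [hd1]
    have hu' := ParQ.sp_deriv hu
    have hder : ∀ z : ℝ, HasDerivAt (fun z => -exp (-z) * u (x + s * z))
        (exp (-z) * u (x + s * z) - s * (exp (-z) * deriv u (x + s * z))) z := by
      intro z
      have h1 : HasDerivAt (fun z : ℝ => -exp (-z)) (exp (-z)) z := by
        have h2 := ((hasDerivAt_neg z).exp).neg
        have h3 : -(exp (-z) * -1) = exp (-z) := by ring
        rw [h3] at h2
        exact h2
      have h3 : HasDerivAt u (deriv u (x + s * z)) (x + s * z) :=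
        (hu.1.differentiable (by simp) _).hasDerivAt
      have h5 : HasDerivAt (fun z : ℝ => x + s * z) s z := by
        simpa using ((hasDerivAt_id z).const_mul s).const_add x
      have h4 := h1.mul (h3.comp z h5)
      refine h4.congr_deriv ?_
      simp only [Function.comp]
      ring
    have hint1 := ParQ.integ s hu x
    have hint2 := (ParQ.integ s hu' x).const_mul s
    have hlim : Tendsto (fun z => -exp (-z) * u (x + s * z)) atTop (𝓝 0) := by
      obtain ⟨B, hB0, hB⟩ := ParQ.sp_bdd hu
      have h1 : Tendsto (fun z : ℝ => exp (-z) * B) atTop (𝓝 0) := by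
        have := tendsto_exp_neg_atTop_nhds_zero.mul_const B
        simpa using this
      refine squeeze_zero_norm (fun z => ?_) h1
      rw [norm_mul, norm_neg, Real.norm_eq_abs, Real.norm_eq_abs, abs_of_pos (exp_pos _)]
      exact mul_le_mul_of_nonneg_left (hB _) (exp_pos _).le
    have h6 := integral_Ioi_of_hasDerivAt_of_tendsto (hder 0).continuousAt.continuousWithinAt
      (fun z _ => hder z) (hint1.sub hint2) hlim
    have h7 : (∫ z in Ioi (0 : ℝ), (exp (-z) * u (x + s * z)
        - s * (exp (-z) * deriv u (x + s * z)))) = Q s u x - s * Q s (deriv u) x := by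
      rw [integral_sub hint1 hint2, integral_const_mul]
      rfl
    rw [h7] at h6
    simp only [neg_zero, exp_zero, mul_zero, add_zero] at h6
    linarith
  · intro v hv x
    unfold Q
    rw [← integral_sub (ParQ.integ s hu x) (ParQ.integ s hv x)]
    congr 1
    funext z
    ring

end Pool.Agent.Lib.MP_c60e08_gt.Par
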