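import Pool.Agent.Lib.MP_c60e08_gt.GeoSpec

/-!
MP_c60e08_gt, PDE part I: statements of the modules for `Lm.ParStmt` (local existence for
`y_t = a(x,y,y_x) y_xx + b(x,y,y_x)`, periodic, smooth) and for `Lm.SmoothStmt`.

Method for ParStmt: explicit Euler steps of length `η h^2` with the derivatives replaced by
`R h y'`, `R h y''`, where `R h = (1 - h^2 d^2)^{-1}` (an average with a positive kernel). All
estimates are in sup norms; uniform bounds for all derivatives; the solution is the limit along an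
ultrafilter of the step numbers `h = 1/(k+1)` (no compactness theorem, no uniqueness needed).

Modules: QStmt, RStmt (the operator), ChainStmt, BoxStmt, CompStmt, Lin1Stmt, Lin2Stmt, FLowStmt,
FHighStmt (derivatives of composite functions), StepStmt, IterStmt, Time1Stmt, Time2Stmt (the
scheme), LimStmt (abstract limit), and the assembly ParFin: ParStmt.
For SmoothStmt: ExStmt, SwapStmt, assembly SmoothFin.
-/

namespace Pool.Agent.Lib.MP_c60e08_gt.Par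

open Real Set Filter MeasureTheory Pool.Agent.Lib.MP_c60e08_gt.Lm Pool.Agent.Lib.MP_c60e08_gt.Geo

open scoped Topology

/-- smooth and `2π`-periodic -/
def SP (u : ℝ → ℝ) : Prop := ContDiff ℝ (⊤ : ℕ∞) u ∧ ∀ x, u (x + 2 * π) = u x

/-- bound of the sup norm -/
def Bd (u : ℝ → ℝ) (B : ℝ) : Prop := ∀ x, |u x| ≤ B

/-- the `m`-th derivative -/
noncomputable abbrev D (m : ℕ) (u : ℝ → ℝ) : ℝ → ℝ := iteratedDeriv m u

/-! ## the operators `Q s` and `R h` -/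

/-- `Q s u (x) = ∫_0^∞ e^{-z} u(x + s z) dz` -/
noncomputable def Q (s : ℝ) (u : ℝ → ℝ) (x : ℝ) : ℝ := ∫ z in Ioi (0 : ℝ), exp (-z) * u (x + s * z)

/-- `R h = (1 - h^2 d^2)^{-1}` -/
noncomputable def R (h : ℝ) (u : ℝ → ℝ) (x : ℝ) : ℝ := (Q h u x + Q (-h) u x) / 2

/-- Q. Basic properties of `Q s`.

Proof. `u` and all its derivatives are continuous and periodic, hence bounded
(`|D m u| ≤ B_m`: maximum on the compact `[0,2π]`), so the integrand is dominated by `B e^{-z}`,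
integrable on `Ioi 0` (`integrableOn_exp_neg_Ioi`-type lemmas, `integral_exp_neg_Ioi_zero`).
Derivative: `HasDerivAt (Q s u) (Q s (deriv u) x) x` by
`hasDerivAt_integral_of_dominated_loc_of_deriv_le` (bound `e^{-z} B_1`). As `deriv u` is again
`SP`, induction gives `D m (Q s u) = Q s (D m u)` (`iteratedDeriv_succ`), differentiability of all
orders (`contDiff_infty_iff_deriv` / `contDiff_of_differentiable_iteratedDeriv`), so `SP (Q s u)`
(periodicity is clear). Bound: `|∫ e^{-z} u| ≤ B ∫ e^{-z} = B`. Identity: the function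
`z ↦ -e^{-z} u(x+sz)` has derivative `e^{-z} u(x+sz) - s e^{-z} u'(x+sz)` and tends to `0` at
infinity: `integral_Ioi_of_hasDerivAt_of_tendsto` gives `Q s u x - s Q s u' x = u x`.
Linearity: `integral_sub`. -/
def QStmt : Prop :=
  ∀ (s : ℝ) (u : ℝ → ℝ), SP u →
    SP (Q s u) ∧ (∀ m, D m (Q s u) = Q s (D m u)) ∧ (∀ B, Bd u B → Bd (Q s u) B) ∧
    (∀ x, s * Q s (D 1 u) x = Q s u x - u x) ∧
    (∀ v, SP v → ∀ x, Q s (fun x => u x - v x) x = Q s u x - Q s v x)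

/-- R. Basic properties of `R h`, in particular the maximum principle for one explicit step
(last clause).

Proof (from QStmt, for `s = h` and `s = -h`; `D m u` is `SP` too). The first four clauses are
immediate (`iteratedDeriv_fun_add`, `iteratedDeriv_const_mul`-type lemmas for `(Q h u + Q (-h) u)/2`).
By the identity of QStmt for `u` and for `D 1 u` (`D 1 (D 1 u) = D 2 u`):
`Q (±h) (D 1 u) = ±(Q (±h) u - u)/h`, so `R h (D 1 u) = (Q h u - Q (-h) u)/(2h)` and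
`R h (D 2 u) = (Q h (D 1 u) - Q (-h) (D 1 u))/(2h) = (Q h u + Q (-h) u - 2u)/(2h^2) = (R h u - u)/h^2`.
Clause 5: `|R h u - u| = h^2 |R h (D 2 u)| ≤ h^2 B`. Clause 6: the expression equals
`(1 - δa/h^2) u(x) + (δ/(2h^2)) (a + βh) Q h u(x) + (δ/(2h^2)) (a - βh) Q (-h) u(x)`,
three nonnegative weights with sum `1`, and `|u|, |Q (±h) u| ≤ B`. -/
def RStmt : Prop :=
  ∀ (h : ℝ) (u : ℝ → ℝ), 0 < h → SP u →
    SP (R h u) ∧ (∀ m, D m (R h u) = R h (D m u)) ∧ (∀ B, Bd u B → Bd (R h u) B) ∧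
    (∀ v, SP v → ∀ x, R h (fun x => u x - v x) x = R h u x - R h v x) ∧
    (∀ B, Bd (D 2 u) B → ∀ x, |R h u x - u x| ≤ h ^ 2 * B) ∧
    (∀ x a β δ B : ℝ, 0 ≤ δ → δ * a ≤ h ^ 2 → h * |β| ≤ a → Bd u B →
      |u x + δ * (a * R h (D 2 u) x + β * R h (D 1 u) x)| ≤ B)

/-! ## composite functions -/

/-- smooth coefficient function, periodic in the first variable -/
def SG (G : ℝ → ℝ → ℝ → ℝ) : Prop :=
  ContDiff ℝ (⊤ : ℕ∞) (fun q : ℝ × ℝ × ℝ => G q.1 q.2.1 q.2.2) ∧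
    ∀ x y z, G (x + 2 * π) y z = G x y z

/-- `x ↦ G(x, y(x), z(x))` -/
def cp (G : ℝ → ℝ → ℝ → ℝ) (y z : ℝ → ℝ) (x : ℝ) : ℝ := G x (y x) (z x)

/-- partial derivative in the first variable -/
noncomputable def dX (G : ℝ → ℝ → ℝ → ℝ) (x y z : ℝ) : ℝ := deriv (fun s => G s y z) x

/-- partial derivative in the second variable -/
noncomputable def dY (G : ℝ → ℝ → ℝ → ℝ) (x y z : ℝ) : ℝ := deriv (fun s => G x s z) y

/-- partial derivative in the third variable -/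
noncomputable def dZ (G : ℝ → ℝ → ℝ → ℝ) (x y z : ℝ) : ℝ := deriv (fun s => G x y s) z

/-- CHAIN. Proof. With `g(q) = G q.1 q.2.1 q.2.2`: `dX G x y z = fderiv ℝ g (x,y,z) (1,0,0)`, etc.
(chain rule along the coordinate lines), smooth by `ContDiff.fderiv_right` and `clm_apply`;
periodic since `G (s + 2π) y z = G s y z` for all `s` (`deriv_comp_add_const`). `cp G y z` is the
composition of `g` with the smooth curve `x ↦ (x, y x, z x)`, whose derivative is `(1, y', z')`. -/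
def ChainStmt : Prop :=
  ∀ G, SG G → SG (dX G) ∧ SG (dY G) ∧ SG (dZ G) ∧
    (∀ x y z, HasDerivAt (fun s => G x s z) (dY G x y z) y) ∧
    (∀ x y z, HasDerivAt (fun s => G x y s) (dZ G x y z) z) ∧
    ∀ y z, SP y → SP z → SP (cp G y z) ∧
      ∀ x, D 1 (cp G y z) x = cp (dX G) y z x + cp (dY G) y z x * D 1 y x
        + cp (dZ G) y z x * D 1 z x

/-- BOX. Bounds on a box.

Proof (uses ChainStmt). `G` is continuous on the compact set `[0,2π] × [-B,B] × [-B,B]`, and every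
value `G x y z` with `|y|,|z| ≤ B` is taken there (periodicity in `x`). This gives the upper bound
and, if `G > 0`, the positive lower bound. Lipschitz: `dY G`, `dZ G` are bounded on the box by the
first part; mean value inequality on the interval `[-B,B]` in `y` and then in `z`
(`Convex.norm_image_sub_le_of_norm_hasDerivWithin_le`). For `B < 0` everything is vacuous
(take `C = c = 1`). -/
def BoxStmt : Prop :=
  ∀ G, SG G → ∀ B : ℝ, ∃ C > 0,
    (∀ x y z, |y| ≤ B → |z| ≤ B → |G x y z| ≤ C) ∧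
    (∀ x y z y' z', |y| ≤ B → |z| ≤ B → |y'| ≤ B → |z'| ≤ B →
      |G x y z - G x y' z'| ≤ C * (|y - y'| + |z - z'|)) ∧
    ((∀ x y z, 0 < G x y z) → ∃ c > 0, ∀ x y z, |y| ≤ B → |z| ≤ B → c ≤ G x y z)

/-- COMP. Derivatives of composite functions are bounded.

Proof (uses ChainStmt, BoxStmt). Induction on `k`, for all `G`. `k = 0`: BoxStmt. `k + 1`: by
ChainStmt `D (k+1) (cp G y z) = D k (cp (dX G) y z + cp (dY G) y z * D 1 y + cp (dZ G) y z * D 1 z)`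
(`iteratedDeriv_succ'`, `funext`), and by the Leibniz rule (`iteratedDeriv_mul`) this is
`D k (cp (dX G) y z) + ∑ C(k,i) D i (cp (dY G) y z) D (k-i+1) y + ...`; the induction hypothesis
for `dX G`, `dY G`, `dZ G` (orders `≤ k`) bounds everything. -/
def CompStmt : Prop :=
  ∀ G, SG G → ∀ (k : ℕ) (B : ℝ), ∃ C, ∀ y z, SP y → SP z →
    (∀ j ≤ k, Bd (D j y) B) → (∀ j ≤ k, Bd (D j z) B) → ∀ j ≤ k, Bd (D j (cp G y z)) C

/-- LIN1. Linear growth in the top derivative of `z`.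

Proof (uses ChainStmt, CompStmt). `D (k+1) (cp G y z) = D k (cp (dX G) y z)
+ ∑_{i ≤ k} C(k,i) D i (cp (dY G) y z) D (k+1-i) y + ∑_{i ≤ k} C(k,i) D i (cp (dZ G) y z) D (k+1-i) z`
(as in COMP). All `D i (cp (d· G) y z)`, `i ≤ k`, are bounded by CompStmt with this `k` and `B`; the
derivatives of `y` are `≤ B`; those of `z` are `≤ B` for `i ≥ 1` and `≤ T` for `i = 0`.
(`T ≥ 0` because `|D (k+1) z 0| ≤ T`.) -/
def Lin1Stmt : Prop :=
  ∀ G, SG G → ∀ (k : ℕ) (B : ℝ), ∃ C, 0 ≤ C ∧ ∀ y z, SP y → SP z →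
    (∀ j ≤ k + 1, Bd (D j y) B) → (∀ j ≤ k, Bd (D j z) B) →
    ∀ T, Bd (D (k + 1) z) T → Bd (D (k + 1) (cp G y z)) (C * (1 + T))

/-- LIN2. The top order part of a derivative of order `m = k + 3`.

Proof (uses ChainStmt, CompStmt, Lin1Stmt). `m = k+3`. `D m (cp G y z) = D (m-1) (cp (dX G) y z)
+ ∑_{i ≤ m-1} C(m-1,i) D i (cp (dY G) y z) D (m-i) y + ∑_{i ≤ m-1} C(m-1,i) D i (cp (dZ G) y z) D (m-i) z`.
The terms `i = 0` are the ones subtracted. `|D (m-1) (cp (dX G) y z)| ≤ C(1+T)` by Lin1Stmt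
(`m - 1 = (k+1) + 1`, `D (m-1) z ≤ T`). Second sum, `i ≥ 1`: `|D (m-i) y| ≤ B`, and
`D i (cp (dY G) y z)` is bounded by CompStmt for `i ≤ k+1` and by `C(1+T)` (Lin1Stmt) for `i = k+2`.
Third sum: `i = 1`: bounded times `T`; `2 ≤ i ≤ k+1`: bounded times `B`; `i = k+2`: `C(1+T)` times
`|D 1 z| ≤ B`. -/
def Lin2Stmt : Prop :=
  ∀ G, SG G → ∀ (k : ℕ) (B : ℝ), ∃ C, 0 ≤ C ∧ ∀ y z, SP y → SP z →
    (∀ j ≤ k + 2, Bd (D j y) B) → (∀ j ≤ k + 1, Bd (D j z) B) →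
    ∀ T, Bd (D (k + 2) z) T → ∀ x,
      |D (k + 3) (cp G y z) x - cp (dY G) y z x * D (k + 3) y x
        - cp (dZ G) y z x * D (k + 3) z x| ≤ C * (1 + T)

/-- the right hand side with `y_x`, `y_xx` replaced by `z`, `z'` -/
noncomputable def FF (a b : ℝ → ℝ → ℝ → ℝ) (y z : ℝ → ℝ) (x : ℝ) : ℝ :=
  cp a y z x * D 1 z x + cp b y z x

/-- the coefficient of `D m z` in `D m (FF a b y z)` -/
noncomputable def bet (a b : ℝ → ℝ → ℝ → ℝ) (m : ℕ) (y z : ℝ → ℝ) (x : ℝ) : ℝ :=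
  m * D 1 (cp a y z) x + cp (dZ a) y z x * D 1 z x + cp (dZ b) y z x

/-- FLOW. Orders `m ≤ 2`.

Proof (uses ChainStmt, CompStmt). Leibniz: `D m (FF) - cp a y z * D (m+1) z
= ∑_{1 ≤ i ≤ m} C(m,i) D i (cp a y z) D (m+1-i) z + D m (cp b y z)`, bounded by CompStmt with `k = 2`
(derivatives of `z` of order `m+1-i ≤ 2`), and `bet * D m z` is bounded too. -/
def FLowStmt : Prop :=
  ∀ a b, SG a → SG b → ∀ m ≤ 2, ∀ B : ℝ, ∃ C, 0 ≤ C ∧ ∀ y z, SP y → SP z →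
    (∀ j ≤ 2, Bd (D j y) B) → (∀ j ≤ 2, Bd (D j z) B) → ∀ x,
      |D m (FF a b y z) x - cp a y z x * D (m + 1) z x - bet a b m y z x * D m z x| ≤ C

/-- FHIGH. Orders `m = k + 3 ≥ 3`.

Proof (uses ChainStmt, CompStmt, Lin1Stmt, Lin2Stmt). Put `A = cp a y z`. Leibniz:
`D m (A * D 1 z) = A D (m+1) z + m D 1 A D m z + ∑_{i=2}^{m-1} C(m,i) D i A D (m+1-i) z + D m A D 1 z`.
For `2 ≤ i ≤ k+1`: `|D i A| ≤ C` (CompStmt, order `k+1`, or order `2` if `k = 0`, where the range is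
empty) and `|D (m+1-i) z| ≤ max B T ≤ |B| + T` (orders `3..k+2`); for `i = m-1 = k+2`: `D 2 z ≤ B` and
`|D (k+2) A| ≤ C(1+T)` by Lin1Stmt (orders of `y` up to `k+2`, of `z` up to `k+1`). By Lin2Stmt
`D m A = cp (dY a) D m y + cp (dZ a) D m z + E`, `|E| ≤ C(1+T)`, `|cp (dY a) D m y| ≤ C T`; the term
`cp (dZ a) D m z D 1 z` is part of `bet D m z`. The same for `D m (cp b y z)`. Everything else is
`≤ C(1+T)` (`|D 1 z| ≤ B`; note `T ≥ 0`). -/
def FHighStmt : Prop :=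
  ∀ a b, SG a → SG b → ∀ (k : ℕ) (B : ℝ), ∃ C, 0 ≤ C ∧ ∀ y z, SP y → SP z →
    (∀ j ≤ k + 2, Bd (D j y) B) → (∀ j ≤ k + 1, Bd (D j z) B) → Bd (D 2 z) B →
    ∀ T, Bd (D (k + 3) y) T → Bd (D (k + 2) z) T → ∀ x,
      |D (k + 3) (FF a b y z) x - cp a y z x * D (k + 4) z x
        - bet a b (k + 3) y z x * D (k + 3) z x| ≤ C * (1 + T)

/-! ## the scheme -/

/-- the regularised right hand side -/
noncomputable def Fh (a b : ℝ → ℝ → ℝ → ℝ) (h : ℝ) (y : ℝ → ℝ) : ℝ → ℝ := FF a b y (R h (D 1 y))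

/-- one explicit step of length `η h^2` -/
noncomputable def Ps (a b : ℝ → ℝ → ℝ → ℝ) (η h : ℝ) (y : ℝ → ℝ) : ℝ → ℝ :=
  fun x => y x + η * h ^ 2 * Fh a b h y x

/-- STEP. One step, all derivatives.

Proof (uses RStmt, ChainStmt, BoxStmt, CompStmt, FLowStmt, FHighStmt). `z := R h (D 1 y)` is `SP`,
`D j z = R h (D (j+1) y)` (`iteratedDeriv_succ'`: `D j (D 1 y) = D (j+1) y`), so `Ps .. y` is `SP`
(ChainStmt) and `D m (Ps .. y) = D m y + η h^2 D m (FF a b y z)`. `η := 1/C_a`, `C_a` the bound of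
`a` on the box `|y|,|z| ≤ |B|` (BoxStmt; `|z| ≤ B` by RStmt), `c` the lower bound there. Given `m`,
`B'`, put `B2 = max |B| |B'|`. Bounds: `D j y ≤ B2` for `j ≤ 3` and `j < m`; `D j z ≤ B2` for
`j ≤ 2` and `j + 1 < m`; `D (m-1) z = R h (D m y) ≤ T` for `m ≥ 1`. Hence by FLowStmt (`m ≤ 2`) or
FHighStmt (`m = k+3`): `D m (FF) = A D (m+1) z + β D m z + g`, `A = cp a y z x`,
`β = bet a b m y z x`, `|g| ≤ C (1+T)`, and `|β| ≤ C_β` (CompStmt with `k = 1` for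
`D 1 (cp a y z)` and `k = 0` for `cp (dZ a) y z`, `cp (dZ b) y z`). With `u = D m y`:
`D (m+1) z = R h (D 2 u)`, `D m z = R h (D 1 u)`, so by the last clause of RStmt (`δ = η h^2`;
`δ A ≤ h^2`; `h |β| ≤ h0 C_β ≤ c ≤ A` with `h0 := c/(C_β + 1)`)
`|D m (Ps y)| ≤ T + δ |g|`. -/
def StepStmt : Prop :=
  ∀ a b, SG a → SG b → (∀ x y z, 0 < a x y z) → ∀ B : ℝ, ∃ η > 0, ∀ (m : ℕ) (B' : ℝ),
    ∃ C h0 : ℝ, 0 ≤ C ∧ 0 < h0 ∧ ∀ h, 0 < h → h ≤ h0 → ∀ y, SP y →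
      (∀ j ≤ 3, Bd (D j y) B) → (∀ j < m, Bd (D j y) B') → ∀ T, Bd (D m y) T →
        SP (Ps a b η h y) ∧ Bd (D m (Ps a b η h y)) (T + η * h ^ 2 * (C * (1 + T)))

/-- ITER. Uniform bounds for the scheme up to a time `τ` which depends only on `M`.

Proof (uses StepStmt, ChainStmt, RStmt). `SP` of all iterates: `Ps` preserves `SP` for every
`h > 0` (ChainStmt, RStmt). If `M < 0` the hypothesis on `y0` is contradictory (take
`η = τ = 1`). Put `B = M + 1`, `η` from StepStmt. Let `C` be the maximum of the constants of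
StepStmt for `m = 0,1,2,3` with `B' = B`, `h3` the minimum of the thresholds,
`τ := 1/((C+1)(1+B))`. Induction on `n` with `n η h^2 ≤ τ`, `h ≤ h3`: for `j ≤ 3`
`Bd (D j y^n) (M + n η h^2 C (1+B))`, and this is `≤ M + 1 = B`, so StepStmt applies to `y^n`.
For `m ≥ 4` strong induction on `m`: let `B'` be a common bound of `D j y^n`, `j < m` (for
`h ≤ h'`), `C, h0` from StepStmt with this `B'`; then `T_n` with `1 + T_{n+1} = (1+T_n)(1 + η h^2 C)`
bounds `D m y^n`, so `Bd (D m y^n) ((1 + T_0) exp (C τ))` for `h ≤ min h0 h' h3` (`T_0` a bound of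
`D m y0`, periodic continuous). For `m = 4` one may take `B' = B`, so `K M4 = (1 + M4) exp (C τ)`
with `C` depending only on `M`. -/
def IterStmt : Prop :=
  ∀ a b, SG a → SG b → (∀ x y z, 0 < a x y z) → ∀ M : ℝ, ∃ η > 0, ∃ τ > 0, ∃ K : ℝ → ℝ,
    ∀ y0, SP y0 → (∀ j ≤ 3, Bd (D j y0) M) →
      (∀ h, 0 < h → ∀ n : ℕ, SP ((Ps a b η h)^[n] y0)) ∧
      (∀ m, ∃ B h0 : ℝ, 0 < h0 ∧ ∀ h, 0 < h → h ≤ h0 → ∀ n : ℕ, n * (η * h ^ 2) ≤ τ →
        Bd (D m ((Ps a b η h)^[n] y0)) B) ∧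
      (∀ M4, Bd (D 4 y0) M4 → ∃ h0 > 0, ∀ h, 0 < h → h ≤ h0 → ∀ n : ℕ, n * (η * h ^ 2) ≤ τ →
        Bd (D 4 ((Ps a b η h)^[n] y0)) (K M4))

/-- uniform bounds of all derivatives of the iterates -/
def UB (a b : ℝ → ℝ → ℝ → ℝ) (η τ : ℝ) (y0 : ℝ → ℝ) : Prop :=
  (∀ h, 0 < h → ∀ n : ℕ, SP ((Ps a b η h)^[n] y0)) ∧
  (∀ m, ∃ B h0 : ℝ, 0 < h0 ∧ ∀ h, 0 < h → h ≤ h0 → ∀ n : ℕ, n * (η * h ^ 2) ≤ τ →
    Bd (D m ((Ps a b η h)^[n] y0)) B)

/-- TIME1. The iterates are Lipschitz in time, with all derivatives.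

Proof (uses RStmt, ChainStmt, CompStmt). `y^{n+1} - y^n = η h^2 FF a b y^n z^n`,
`z^n = R h (D 1 y^n)`, `D j z^n = R h (D (j+1) y^n)`. For `(n+1) η h^2 ≤ τ` and `h` small the
derivatives of order `≤ m+2` of `y^n` and of order `≤ m+1` of `z^n` are bounded (UB, finitely many
orders), so `D m (FF ..)` is bounded by some `L` (Leibniz and CompStmt). Sum over `n..n'`
(induction on `n'`). -/
def Time1Stmt : Prop :=
  ∀ a b, SG a → SG b → ∀ (η τ : ℝ) (y0 : ℝ → ℝ), 0 < η → SP y0 → UB a b η τ y0 →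
    ∀ m, ∃ L h0 : ℝ, 0 ≤ L ∧ 0 < h0 ∧ ∀ h, 0 < h → h ≤ h0 → ∀ n n' : ℕ, n ≤ n' →
      n' * (η * h ^ 2) ≤ τ → ∀ x,
      |D m ((Ps a b η h)^[n'] y0) x - D m ((Ps a b η h)^[n] y0) x|
        ≤ L * (((n' : ℝ) - n) * (η * h ^ 2))

/-- TIME2. Second order estimate in time.

Proof (uses RStmt, ChainStmt, BoxStmt, Time1Stmt). `y^{n'} - y^n = η h^2 ∑_{n ≤ i < n'} Fh(y^i)`.
For `n ≤ i, j ≤ n'`: `|Fh(y^i) x - Fh(y^j) x| ≤ C (|y^i - y^j| + |z^i - z^j| + |D 1 z^i - D 1 z^j|)`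
at the point `x` (values `y, z, D 1 z` bounded, `a`, `b` Lipschitz on a box: BoxStmt), and
`z^i - z^j = R h (D 1 y^i - D 1 y^j)`, `D 1 z^i - D 1 z^j = R h (D 2 y^i - D 2 y^j)` (RStmt, linearity
and bound), so by Time1Stmt for `m = 0,1,2` this is `≤ C' |i - j| η h^2 ≤ C' (n' - n) η h^2`. -/
def Time2Stmt : Prop :=
  ∀ a b, SG a → SG b → ∀ (η τ : ℝ) (y0 : ℝ → ℝ), 0 < η → SP y0 → UB a b η τ y0 →
    ∃ L h0 : ℝ, 0 ≤ L ∧ 0 < h0 ∧ ∀ h, 0 < h → h ≤ h0 → ∀ n j n' : ℕ, n ≤ j → j ≤ n' →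
      n' * (η * h ^ 2) ≤ τ → ∀ x,
      |((Ps a b η h)^[n'] y0) x - ((Ps a b η h)^[n] y0) x
          - ((n' : ℝ) - n) * (η * h ^ 2) * Fh a b h ((Ps a b η h)^[j] y0) x|
        ≤ L * (((n' : ℝ) - n) * (η * h ^ 2)) ^ 2

/-! ## the limit -/

/-- LIM. Abstract limit lemma: `Y k m t x` is the `m`-th derivative of the `k`-th approximation,
`Z1`, `Z2` the regularised first and second derivatives.

Proof. Let `U = hyperfilter ℕ` (an ultrafilter `≤ atTop`). For all `m`, `t ∈ [0,τ]`, `x` the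
sequence `Y k m t x` is eventually in a compact interval, so it converges along `U`
(`IsCompact.ultrafilter_le_nhds` for the mapped ultrafilter); let `y m t x` be the limit
(`0` for `t ∉ [0,τ]`). Closed inequalities pass to the limit (`le_of_tendsto`, eventually along
`U` because `U ≤ atTop`), which gives the last two clauses, and:
`|y m t x - y m s x| ≤ L |t-s|`, `|y m t x - y m t x'| ≤ B_{m+1} |x - x'|` (mean value inequality for
`Y k m t`), so `y m` is continuous on `[0,τ] × ℝ`. Space derivative: by the mean value inequality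
applied to `x' ↦ Y k m t x' - Y k (m+1) t x * x'`, whose derivative is
`Y k (m+1) t x' - Y k (m+1) t x`, `|Y k m t x' - Y k m t x - (x'-x) Y k (m+1) t x| ≤ B_{m+2} |x'-x|^2`;
this passes to the limit, so `HasDerivAt (y m t) (y (m+1) t x) x`. Time derivative: in the fourth
hypothesis `Z1 k s x → y 1 s x`, `Z2 k s x → y 2 s x` along `U`, `a`, `b` are continuous and
`ε k → 0`, so `|y 0 t x - y 0 s x - (t-s) F(s,x)| ≤ L (t-s)^2` for all `s,t ∈ [0,τ]` with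
`F = a(x,y 0,y 1) y 2 + b(x,y 0,y 1)`; hence `HasDerivWithinAt`. Periodicity: equal sequences have
equal limits. -/
def LimStmt : Prop :=
  ∀ (a b : ℝ → ℝ → ℝ → ℝ) (τ : ℝ) (Y : ℕ → ℕ → ℝ → ℝ → ℝ) (Z1 Z2 : ℕ → ℝ → ℝ → ℝ)
    (ε : ℕ → ℝ), Continuous (fun q : ℝ × ℝ × ℝ => a q.1 q.2.1 q.2.2) →
    Continuous (fun q : ℝ × ℝ × ℝ => b q.1 q.2.1 q.2.2) → 0 < τ → Tendsto ε atTop (𝓝 0) →
    (∀ m, ∃ B, ∀ᶠ k in atTop, ∀ t ∈ Icc 0 τ, ∀ x, |Y k m t x| ≤ B) →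
    (∀ k m, ∀ t ∈ Icc 0 τ, ∀ x, HasDerivAt (Y k m t) (Y k (m + 1) t x) x) →
    (∀ m, ∃ L, ∀ᶠ k in atTop, ∀ s ∈ Icc 0 τ, ∀ t ∈ Icc 0 τ, ∀ x,
      |Y k m t x - Y k m s x| ≤ L * |t - s| + ε k) →
    (∃ L, ∀ᶠ k in atTop, ∀ s ∈ Icc 0 τ, ∀ t ∈ Icc 0 τ, ∀ x,
      |Y k 0 t x - Y k 0 s x - (t - s) * (a x (Y k 0 s x) (Z1 k s x) * Z2 k s x
        + b x (Y k 0 s x) (Z1 k s x))| ≤ L * (t - s) ^ 2 + ε k) →
    (∀ᶠ k in atTop, ∀ s ∈ Icc 0 τ, ∀ x, |Z1 k s x - Y k 1 s x| ≤ ε k ∧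
      |Z2 k s x - Y k 2 s x| ≤ ε k) →
    (∀ k, ∀ t ∈ Icc 0 τ, ∀ x, Y k 0 t (x + 2 * π) = Y k 0 t x) →
    ∃ y, QSol a b τ y ∧
      (∀ m, ∀ t ∈ Icc 0 τ, ∀ x c, (∀ᶠ k in atTop, |Y k m t x| ≤ c) → |y m t x| ≤ c) ∧
      (∀ m, ∀ t ∈ Icc 0 τ, ∀ x c, (∀ᶠ k in atTop, Y k m t x = c) → y m t x = c)

/-- PARFIN. Assembly (the task is
`theorem parFin : RStmt → ChainStmt → BoxStmt → IterStmt → Time1Stmt → Time2Stmt → LimStmt → ParStmt`).

Proof. `η, τ, K` from IterStmt. Given `y0`, put `h_k = 1/(k+1)`, `δ_k = η h_k^2`,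
`N k t = ⌊t/δ_k⌋₊` (so `N k t * δ_k ≤ t ≤ τ` and `|(N k t - N k s) δ_k - (t - s)| ≤ δ_k`),
`Y k m t x = D m ((Ps a b η h_k)^[N k t] y0) x`, `Z1 k t x = R h_k (D 1 ((Ps ..)^[N k t] y0)) x`,
`Z2` the same with `D 2`. Hypotheses of LimStmt with `ε k = C δ_k + C h_k^2`, `C` large: bounds (UB);
derivatives (`iteratedDeriv_succ`, smoothness); Time1Stmt (for `s ≤ t` and `t ≤ s` by symmetry;
only finitely many constants are needed for each `m`: since `ε` must not depend on `m`, take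
`ε k = h_k`, which is `≥ L η h_k^2` eventually, for every fixed `L`); Time2Stmt with
`j = N k s` for `s ≤ t` (`n = j`) and for `t ≤ s` (`n' = j`), where
`Fh a b h y = cp a y z * D 1 z + cp b y z` with `z = R h (D 1 y)`, `D 1 z = R h (D 2 y)`, `|Fh|`
bounded (BoxStmt), `((N t - N s) δ)^2 ≤ 2 (t-s)^2 + 2 δ^2`; `|R h u - u| ≤ h^2 B` for `u = D 1 y^n`,
`D 2 y^n` (RStmt, UB for `m = 3, 4`). Initial value: `N k 0 = 0`, `D 0 y0 = y0`. The bound of
`y 4`: third clause of IterStmt and the clause of LimStmt on bounds. -/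
def ParFinStmt : Prop :=
  RStmt → ChainStmt → BoxStmt → IterStmt → Time1Stmt → Time2Stmt → LimStmt → ParStmt

/-! ## joint smoothness -/

/-- expressions in the derivatives of a solution and smooth functions -/
inductive Ex (T : ℝ) (y : ℕ → ℝ → ℝ → ℝ) : (ℝ → ℝ → ℝ) → Prop
  | var (m : ℕ) : Ex T y (y m)
  | fn (g : ℝ → ℝ) (hg : ContDiff ℝ (⊤ : ℕ∞) g) : Ex T y (fun _ x => g x)
  | add (F G : ℝ → ℝ → ℝ) (hF : Ex T y F) (hG : Ex T y G) : Ex T y (fun t x => F t x + G t x)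
  | mul (F G : ℝ → ℝ → ℝ) (hF : Ex T y F) (hG : Ex T y G) : Ex T y (fun t x => F t x * G t x)
  | comp (U : Set ℝ) (g : ℝ → ℝ) (F : ℝ → ℝ → ℝ) (hU : IsOpen U)
      (hg : ContDiffOn ℝ (⊤ : ℕ∞) g U) (hF : Ex T y F)
      (hFU : ∀ t ∈ Ioo 0 T, ∀ x, F t x ∈ U) : Ex T y (fun t x => g (F t x))

/-- EX. Proof. (1) and (2) by induction on the expression. (1) `var m`: `y (m+1)`; `fn g`:
`deriv g`; `add`, `mul`: sum and product rule; `comp`: `deriv g (F t x) * F' t x`, where `deriv g`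
is smooth on the open set `U` (`ContDiffOn.deriv_of_isOpen`). (2) sums, products and compositions
of `C^n` functions (`ContDiffOn.comp`). (3) the right hand side of the equation is built from
`y 0, y 1, y 2`, `cos`, the constants, `exp` (on `univ`), `u ↦ 3 u^(2/3)` on `Ioi 0`
(`uu p (y 0 t p) > 0` by `PolarSol.pos`), and `u ↦ 1/u` on `Ioi 0` at `1 + (y 1)^2`. -/
def ExStmt : Prop :=
  ∀ (T : ℝ) (y : ℕ → ℝ → ℝ → ℝ), PolarSol T y →
    (∀ F, Ex T y F → ∃ F', Ex T y F' ∧ ∀ t ∈ Ioo 0 T, ∀ x, HasDerivAt (F t) (F' t x) x) ∧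
    (∀ n : ℕ, (∀ m, CS n 0 T (y m)) → ∀ F, Ex T y F → CS n 0 T F) ∧
    Ex T y (fun t p => fS (uu p (y 0 t p)) * exp (-(2 * y 0 t p))
      * (y 2 t p / (1 + (y 1 t p) ^ 2) - 1))

/-- SWAP. Proof. Fix `t, x` in the strip and `ρ > 0` with `[t-ρ,t+ρ] ⊂ (a,b)`. For `|s-t| ≤ ρ` and
all `x'`: `u s x' - u t x' = ∫ r in t..s, ut r x'` (`ut` is continuous). `utx` is bounded on
`[t-ρ,t+ρ] × [x-1,x+1]`, so differentiation under the integral
(`intervalIntegral.hasDerivAt_integral_of_dominated_loc_of_deriv_le`) and uniqueness of the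
derivative give `ux s x - ux t x = ∫ r in t..s, utx r x`; the derivative at `s = t` is `utx t x`
(`intervalIntegral.integral_hasDerivAt_right` or similar, `utx` continuous in time). -/
def SwapStmt : Prop :=
  ∀ (a b : ℝ) (u ut ux utx : ℝ → ℝ → ℝ),
    (∀ t ∈ Ioo a b, ∀ x, HasDerivAt (fun s => u s x) (ut t x) t) →
    (∀ t ∈ Ioo a b, ∀ x, HasDerivAt (u t) (ux t x) x) →
    (∀ t ∈ Ioo a b, ∀ x, HasDerivAt (ut t) (utx t x) x) →
    ContinuousOn (fun z : ℝ × ℝ => ut z.1 z.2) (Ioo a b ×ˢ univ) →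
    ContinuousOn (fun z : ℝ × ℝ => utx z.1 z.2) (Ioo a b ×ˢ univ) →
    ∀ t ∈ Ioo a b, ∀ x, HasDerivAt (fun s => ux s x) (utx t x) t

/-- SMOOTHFIN. Assembly (the task is
`theorem smoothFin : PartStmt → ExStmt → SwapStmt → SmoothStmt`).

Proof. `CS 0 0 T (y m)` for all `m` from `PolarSol.cont` (restrict to `Ioo`; `contDiffOn_zero`).
Claim A: for every `m` there is `F` with `Ex T y F` and
`∀ t ∈ Ioo 0 T, ∀ x, HasDerivAt (fun s => y m s x) (F t x) t`. Induction: `m = 0` is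
`PolarSol.dt` and ExStmt (3); `m + 1`: ExStmt (1) gives the `x`-derivative `F'` of `F`; `F`, `F'` are
continuous by ExStmt (2) with `n = 0`; SwapStmt with `u = y m`, `ut = F`, `ux = y (m+1)`, `utx = F'`.
Claim B: for all `n`, all `m`: `CS n 0 T (y m)`. Induction on `n`: by PartStmt with
`Gt = F` (Claim A, `CS n` by ExStmt (2)) and `Gx = y (m+1)`. Finally `contDiffOn_infty`. -/
def SmoothFinStmt : Prop := PartStmt → ExStmt → SwapStmt → SmoothStmt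

end Pool.Agent.Lib.MP_c60e08_gt.Par
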