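import Pool.Agent.Lib.MP_c60e08_gt.LmDefs

/-!
# Blueprint of the PDE part of MP_c60e08_gt, file 1

Goal of this file: `UniqStmt`, `MaxSolStmt`, `StabStmt` of `LmDefs.lean`, from `Par2Stmt`
(general local existence, see `PdeSpec3.lean`).

Every `def ...Stmt : Prop` is one module (one task) with its proof in the docstring.
Modules: PerStmt, UnifStmt, MaxStmt, LipStmt, RegStmt, QCompStmt, QUniqStmt, QCutStmt, QGlueStmt,
PolQStmt, QPolStmt, QEvenStmt, UniqMainStmt, LocStmt, ExtStmt, SupStmt, MaxSolMainStmt,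
InterpStmt, StepStmt, QStabStmt, FamStmt, StabMainStmt.
-/

namespace Pool.Agent.Lib.MP_c60e08_gt.Pde

open Real Set Pool.Agent.Lib.MP_c60e08_gt.Lm

/-- admissible coefficients of a periodic quasilinear parabolic equation
`y_t = a(x,y,y_x) y_xx + b(x,y,y_x)` -/
structure Coef (a b : ℝ → ℝ → ℝ → ℝ) : Prop where
  sa : ContDiff ℝ (⊤ : ℕ∞) (fun z : ℝ × ℝ × ℝ => a z.1 z.2.1 z.2.2)
  sb : ContDiff ℝ (⊤ : ℕ∞) (fun z : ℝ × ℝ × ℝ => b z.1 z.2.1 z.2.2)
  pa : ∀ x y z, a (x + 2 * π) y z = a x y z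
  pb : ∀ x y z, b (x + 2 * π) y z = b x y z
  pos : ∀ x y z, 0 < a x y z

/-- PAR2: general local existence; the time `τ` depends only on a bound `M` of the first three
derivatives of the data; on `[0,τ]` these derivatives are bounded by `M + 1`, and the fourth
derivative is bounded in terms of its initial bound. (Proved in `PdeSpec3.lean`.) -/
def Par2Stmt : Prop :=
  ∀ a b : ℝ → ℝ → ℝ → ℝ, Coef a b →
    ∀ M : ℝ, ∃ τ > 0, ∃ K : ℝ → ℝ, ∀ y0 : ℝ → ℝ, ContDiff ℝ (⊤ : ℕ∞) y0 →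
      (∀ x, y0 (x + 2 * π) = y0 x) → (∀ j ≤ 3, ∀ x, |iteratedDeriv j y0 x| ≤ M) →
      ∃ y, QSol a b τ y ∧ (∀ x, y 0 0 x = y0 x) ∧
        (∀ j ≤ 3, ∀ t ∈ Icc 0 τ, ∀ x, |y j t x| ≤ M + 1) ∧
        ∀ M4, (∀ x, |iteratedDeriv 4 y0 x| ≤ M4) → ∀ t ∈ Icc 0 τ, ∀ x, |y 4 t x| ≤ K M4

/-! ## elementary tools -/

/-- PER. Sequences of derivatives.

Proof. Let `u (m+1)` be the derivative of `u m` for all `m`. (1) If `u m` is `2π`-periodic so is
`u (m+1)`: `x ↦ u m (x + 2π)` has derivative `u (m+1) (x + 2π)` at `x` and equals `u m`;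
uniqueness of derivatives. (2) `iteratedDeriv m (u 0) = u m` by induction
(`iteratedDeriv_succ`, `HasDerivAt.deriv`); `ContDiff` by `contDiff_of_differentiable_iteratedDeriv`
(or `contDiff_infty_iff_deriv` and induction). (3) Two sequences with equal `0`-th functions
agree by (2). (4) For smooth `f`, `iteratedDeriv m f` is differentiable
(`ContDiff.differentiable_iteratedDeriv`) with derivative `iteratedDeriv (m+1) f`. -/
def PerStmt : Prop :=
  (∀ u : ℕ → ℝ → ℝ, (∀ m x, HasDerivAt (u m) (u (m + 1) x) x) →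
    ((∀ x, u 0 (x + 2 * π) = u 0 x) → ∀ m x, u m (x + 2 * π) = u m x) ∧
    ContDiff ℝ (⊤ : ℕ∞) (u 0) ∧ (∀ m, iteratedDeriv m (u 0) = u m) ∧
    (∀ w : ℕ → ℝ → ℝ, (∀ m x, HasDerivAt (w m) (w (m + 1) x) x) → (∀ x, u 0 x = w 0 x) →
      ∀ m x, u m x = w m x)) ∧
  (∀ f : ℝ → ℝ, ContDiff ℝ (⊤ : ℕ∞) f →
    ∀ m x, HasDerivAt (iteratedDeriv m f) (iteratedDeriv (m + 1) f x) x)

/-- UNIF. Continuous `2π`-periodic functions on `[0,T] × R` are bounded, uniformly continuous in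
time, and bounded below by a positive constant if positive.

Proof. `[0,T] × [0,2π]` is compact (possibly empty if `T < 0`; then everything is trivial) and
every `x` is congruent mod `2π` to a point of `[0,2π]` (for a fixed `t` the function `g t` is
`Function.Periodic`, e.g. `Function.Periodic.exists_mem_Ico₀`). Bound:
`IsCompact.exists_bound_of_continuousOn`; uniform continuity:
`IsCompact.uniformContinuousOn_of_continuous`, note that for `s,t` and a common `x` one shifts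
both points by the same multiple of `2π`; minimum: `IsCompact.exists_isMinOn`. -/
def UnifStmt : Prop :=
  ∀ (T : ℝ) (g : ℝ → ℝ → ℝ), ContinuousOn (fun z : ℝ × ℝ => g z.1 z.2) (Icc 0 T ×ˢ univ) →
    (∀ t ∈ Icc 0 T, ∀ x, g t (x + 2 * π) = g t x) →
    (∃ M, ∀ t ∈ Icc 0 T, ∀ x, |g t x| ≤ M) ∧
    (∀ ε > 0, ∃ δ > 0, ∀ s ∈ Icc 0 T, ∀ t ∈ Icc 0 T, |t - s| ≤ δ → ∀ x,
      |g t x - g s x| ≤ ε) ∧
    ((∀ t ∈ Icc 0 T, ∀ x, 0 < g t x) → ∃ c > 0, ∀ t ∈ Icc 0 T, ∀ x, c ≤ g t x)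

/-- MAX. Maximum principle.

Proof. Put `D' t x = D t x - δ exp (L t)` and suppose `D' > 0` somewhere on `[0,T] × R`. The
function `E t x = exp (-(L+1) t) * D' t x` is continuous and periodic in `x`, so it has a maximum
over `[0,T] × R` (compactness of `[0,T] × [0,2π]`, periodicity), at `(t0,x0)`, with positive value.
`t0 ≠ 0` because `D' 0 x ≤ 0`. `x0` is a global maximum of `D t0`, and `D t0 x0 > δ exp (L t0) ≥ 0`,
so `Dt t0 x0 ≤ L * D t0 x0`, hence `D'` has time derivative `≤ L * D' t0 x0` at `(t0,x0)`, and `E`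
has derivative `e := exp (-(L+1) t0) * (D't - (L+1) D') ≤ - exp (-(L+1) t0) * D' t0 x0 < 0` within
`[0,T]`. But `E s x0 ≤ E t0 x0` for `s ∈ [0,t0)`, so the difference quotients
`(E s x0 - E t0 x0)/(s - t0)` for `s < t0` are `≥ 0` and `e ≥ 0` (restrict the derivative to
`Icc 0 t0`, `HasDerivWithinAt.mono`, `hasDerivWithinAt_iff_tendsto_slope`, `ge_of_tendsto`;
`𝓝[Icc 0 t0 \ {t0}] t0` is not bot as `t0 > 0`). Contradiction. -/
def MaxStmt : Prop :=
  ∀ (T L δ : ℝ) (D Dt : ℝ → ℝ → ℝ), 0 ≤ L → 0 ≤ δ →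
    ContinuousOn (fun z : ℝ × ℝ => D z.1 z.2) (Icc 0 T ×ˢ univ) →
    (∀ t ∈ Icc 0 T, ∀ x, D t (x + 2 * π) = D t x) →
    (∀ t ∈ Icc 0 T, ∀ x, HasDerivWithinAt (fun s => D s x) (Dt t x) (Icc 0 T) t) →
    (∀ t ∈ Icc 0 T, ∀ x, 0 < D t x → (∀ x', D t x' ≤ D t x) → Dt t x ≤ L * D t x) →
    (∀ x, D 0 x ≤ δ) → ∀ t ∈ Icc 0 T, ∀ x, D t x ≤ δ * exp (L * t)

/-- LIP. Smooth periodic coefficients are Lipschitz in the second variable on bounded sets, uniformly
in `x`.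

Proof. `0 ≤ M` may be assumed (otherwise the hypotheses are contradictory, take `L = 0`). For `a`
(and in the same way `b`): the derivative `y ↦ ∂_y a x y z` is continuous in `(x,y,z)`
(`fderiv` applied to `(0,1,0)`, `ContDiff.continuous_fderiv`), hence bounded by `L` on the compact
`[0,2π] × [-M,M] × [-M,M]`; mean value inequality on the segment
(`Convex.norm_image_sub_le_of_norm_deriv_le` or `..._hasDerivWithin_le` on `Icc (-M) M`). For
general `x` use periodicity (`Function.Periodic.exists_mem_Ico₀` for `x ↦ a x y z`; the shift by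
the same integer multiple of `2π` for the two values `y, y'`: e.g. replace `x` by
`toIcoMod`/`x - n * (2π)`, `Function.Periodic.sub_int_mul_eq`). -/
def LipStmt : Prop :=
  ∀ a b : ℝ → ℝ → ℝ → ℝ, Coef a b → ∀ M : ℝ, ∃ L ≥ 0, ∀ x y y' z,
    |y| ≤ M → |y'| ≤ M → |z| ≤ M →
    |a x y z - a x y' z| ≤ L * |y - y'| ∧ |b x y z - b x y' z| ≤ L * |y - y'|

/-! ## the regularised polar equation -/

/-- a smooth positive function of `u`, equal to `u^(2/3)` for `u ≥ η` and to `1` for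
`u ≤ η/2` -/
noncomputable def phiE (η u : ℝ) : ℝ :=
  smoothTransition (2 * u / η - 1) * u ^ ((2 : ℝ) / 3) + (1 - smoothTransition (2 * u / η - 1))

/-- regularised coefficients -/
noncomputable def aE (η x y z : ℝ) : ℝ := 3 * phiE η (uu x y) * exp (-(2 * y)) / (1 + z ^ 2)

/-- regularised coefficients -/
noncomputable def bE (η x y _z : ℝ) : ℝ := -(3 * phiE η (uu x y) * exp (-(2 * y)))

/-- REG.

Proof. Let `χ(u) = smoothTransition (2u/η - 1)`: smooth (`Real.smoothTransition.contDiff`), values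
in `[0,1]`, `0` for `u ≤ η/2` (`Real.smoothTransition.zero_of_nonpos`), `1` for `u ≥ η`
(`one_of_one_le`). `phiE η` is smooth: at `u ≠ 0` because `rpow` with fixed exponent is smooth at
`u ≠ 0` (`Real.contDiffAt_rpow_const_of_ne`), and near `u < η/2` it is constant `1` (`χ = 0`).
It is positive: for `u ≤ η/2` it is `1`; for `u > η/2 > 0` it is
a convex combination of the positive numbers `u^(2/3)` and `1`. `uu` is smooth and `2π`-periodic
and even in `x`. So `aE`, `bE` are smooth, periodic, `aE > 0`. For `u ≥ η`: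
`3 phiE η u = 3 u^(2/3) = fS u`. -/
def RegStmt : Prop :=
  ∀ η > 0, Coef (aE η) (bE η) ∧ (∀ u ≥ η, 3 * phiE η u = fS u) ∧
    (∀ x y z, aE η (-x) y (-z) = aE η x y z ∧ bE η (-x) y (-z) = bE η x y z)

/-! ## comparison, uniqueness, gluing for `QSol` -/

/-- QCOMP: `LipStmt → MaxStmt → QCompStmt`.

Proof. Let `L0` be the constant of `LipStmt` for the bound `M` (may assume `M ≥ 0`), and
`L = L0 * M + L0 + 1`. Apply `MaxStmt` to `D = y 0 - z 0` and to `D = z 0 - y 0`, whose time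
derivatives within `[0,T]` are given by `dt`. First case: at a point with `D > 0`, `D` maximal in
`x`: `x` is a critical point, so `y1 = z1 =: q` (`IsLocalMax.hasDerivAt_eq_zero`) and
`y2 ≤ z2` (second derivative test: the function `D t` has first derivative
`y 1 t - z 1 t` with derivative `y2 - z2` at `x`; if `y2 - z2 > 0` then `y1 - z1 > 0` on a right
neighbourhood of `x`, so `D` would be strictly larger there). Then
`Dt = a x y0 q * y2 + b x y0 q - a x z0 q * z2 - b x z0 q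
 = (a x y0 q - a x z0 q) * y2 + a x z0 q * (y2 - z2) + (b x y0 q - b x z0 q)
 ≤ L0 |y0 - z0| M + 0 + L0 |y0 - z0| ≤ L * D`. Here `|y0|,|z0|,|q|,|y2| ≤ M`. Second case: at a
point with `D = z0 - y0 > 0` maximal: `q` as before and `z2 ≤ y2`;
`Dt = (a x z0 q - a x y0 q) * y2 + a x z0 q * (z2 - y2) + (b x z0 q - b x y0 q) ≤ L * D`. Both give
`|y0 - z0| ≤ δ exp (L t)`. Periodicity of `y 0`, `z 0` is the field `per`. -/
def QCompStmt : Prop :=
  ∀ a b : ℝ → ℝ → ℝ → ℝ, Coef a b → ∀ M : ℝ, ∃ L ≥ 0, ∀ (T δ : ℝ) (y z : ℕ → ℝ → ℝ → ℝ),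
    QSol a b T y → QSol a b T z → 0 ≤ δ →
    (∀ j ≤ 2, ∀ t ∈ Icc 0 T, ∀ x, |y j t x| ≤ M) → (∀ t ∈ Icc 0 T, ∀ x, |z 0 t x| ≤ M) →
    (∀ x, |y 0 0 x - z 0 0 x| ≤ δ) →
    ∀ t ∈ Icc 0 T, ∀ x, |y 0 t x - z 0 t x| ≤ δ * exp (L * t)

/-- QUNIQ: `PerStmt → UnifStmt → QCompStmt → QUniqStmt`.

Proof. By `PerStmt` (for each fixed `t`) all `y m t` are periodic, so by `UnifStmt` `y 0, y 1, y 2,
z 0` are bounded by some `M` on `[0,T]`. `QCompStmt` with `δ = 0` gives `y 0 = z 0`, and then all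
`m` by `PerStmt` (uniqueness of the sequence of derivatives) at each fixed `t`. -/
def QUniqStmt : Prop :=
  ∀ a b : ℝ → ℝ → ℝ → ℝ, Coef a b → ∀ (T : ℝ) (y z : ℕ → ℝ → ℝ → ℝ),
    QSol a b T y → QSol a b T z → (∀ x, y 0 0 x = z 0 0 x) →
    ∀ t ∈ Icc 0 T, ∀ m x, y m t x = z m t x

/-- QCUT: restriction and time shift.

Proof. Immediate: `Icc 0 T' ⊆ Icc 0 T`, `HasDerivWithinAt.mono`; for the shift compose with
`t ↦ s + t`, which maps `Icc 0 (T - s)` to `Icc s T ⊆ Icc 0 T` (`HasDerivWithinAt.comp` with inner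
derivative `1`, or `HasDerivWithinAt.comp_const_add`). -/
def QCutStmt : Prop :=
  ∀ (a b : ℝ → ℝ → ℝ → ℝ) (T : ℝ) (y : ℕ → ℝ → ℝ → ℝ), QSol a b T y →
    (∀ T' ≤ T, QSol a b T' y) ∧
    (∀ s ∈ Icc 0 T, QSol a b (T - s) (fun m t x => y m (s + t) x))

/-- gluing of two solutions at time `T1` -/
noncomputable def glue (T1 : ℝ) (y z : ℕ → ℝ → ℝ → ℝ) : ℕ → ℝ → ℝ → ℝ :=
  fun m t x => if t ≤ T1 then y m t x else z m (t - T1) x

/-- QGLUE: `PerStmt → QGlueStmt`.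

Proof. Let `w = glue T1 y z`. By `PerStmt` (uniqueness of derivative sequences) `z m 0 x = y m T1 x`
for all `m`, so `w m t x = z m (t - T1) x` for ALL `t ∈ [T1, T1+T2]`. `cont`: the closed sets
`Icc 0 T1 ×ˢ univ` and `Icc T1 (T1+T2) ×ˢ univ` cover `Icc 0 (T1+T2) ×ˢ univ`, on each of them `w m`
is continuous (`ContinuousOn.union_of_isClosed`, or `ContinuousOn.if`). `dx`, `per`: pointwise in
`t`. `dt`: for `t < T1` the set `Icc 0 (T1+T2)` coincides near `t` with `Icc 0 T1`; for `t > T1`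
similarly (shift); at `t = T1`: `HasDerivWithinAt` on `Icc 0 T1` (from `y`, `w = y` there)
and on `Icc T1 (T1+T2)` (from `z` at time `0`, shifted, same value of the right hand side since
`z m 0 = y m T1` for `m = 0,1,2`), then `HasDerivWithinAt.union` and
`Icc 0 T1 ∪ Icc T1 (T1+T2) = Icc 0 (T1+T2)`. (One can treat all `t` uniformly: `HasDerivWithinAt`
within each of the two closed pieces: if `t` is in the piece from the solution, if not then the
piece is not in a neighbourhood of `t`, i.e. `HasDerivWithinAt` holds for any value because `t` is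
not in the closure.) -/
def QGlueStmt : Prop :=
  ∀ (a b : ℝ → ℝ → ℝ → ℝ) (T1 T2 : ℝ) (y z : ℕ → ℝ → ℝ → ℝ), 0 ≤ T1 → 0 ≤ T2 →
    QSol a b T1 y → QSol a b T2 z → (∀ x, z 0 0 x = y 0 T1 x) →
    QSol a b (T1 + T2) (glue T1 y z)

/-! ## polar solutions and `QSol` -/

/-- POLQ: `UnifStmt → RegStmt → PolQStmt`.

Proof. (1) `uu x (y 0 t x)` is continuous on `[0,t1] × R`, periodic and positive; `UnifStmt`.
(2) `cont`, `dx`, `per` are restrictions. `dt`: for `t ∈ (0,t1]` the derivative of `PolarSol` (a two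
sided derivative at `t ∈ (0,T)`) has the value
`fS u e^{-2y} (y2/(1+y1²) - 1) = aE η x y0 y1 * y2 + bE η x y0 y1` because `u ≥ η` (`RegStmt`).
At `t = 0`: if `t1 = 0` the set `Icc 0 0` is a singleton, `hasDerivWithinAt_singleton`. If
`t1 > 0`: the function `s ↦ y 0 s x` is continuous on `[0,t1]`, differentiable on `(0,t1)` and its
derivative tends, as `s → 0+`, to the right hand side at `0` (continuity of `y 0, y 1, y 2` and of
`aE η`, `bE η`); `hasDerivWithinAt_Ici_of_tendsto_deriv`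
(Mathlib/Analysis/Calculus/FDeriv/Extend.lean), then restrict from `Ici 0` to `Icc 0 t1`. -/
def PolQStmt : Prop :=
  (∀ (T t1 : ℝ) (y : ℕ → ℝ → ℝ → ℝ), PolarSol T y → t1 < T →
    ∃ η > 0, ∀ t ∈ Icc 0 t1, ∀ x, η ≤ uu x (y 0 t x)) ∧
  (∀ (T t1 η : ℝ) (y : ℕ → ℝ → ℝ → ℝ), PolarSol T y → t1 < T → 0 < η →
    (∀ t ∈ Icc 0 t1, ∀ x, η ≤ uu x (y 0 t x)) → QSol (aE η) (bE η) t1 y)

/-- QPOL: `RegStmt → QPolStmt`.

Proof. Restriction to `Ico 0 T`; for `t ∈ (0,T)` the set `Icc 0 T` is a neighbourhood of `t`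
(`HasDerivWithinAt.hasDerivAt`), and the right hand sides agree by `RegStmt` as `uu ≥ η`. -/
def QPolStmt : Prop :=
  ∀ (T η : ℝ) (y : ℕ → ℝ → ℝ → ℝ), 0 < η → QSol (aE η) (bE η) T y →
    (∀ t ∈ Icc 0 T, ∀ x, η ≤ uu x (y 0 t x)) →
    (∀ t ∈ Icc 0 T, ∀ x, y 0 t (-x) = y 0 t x) → PolarSol T y

/-- QEVEN: `RegStmt → QUniqStmt → QEvenStmt`.

Proof. `z m t x = (-1)^m * y m t (-x)` is a `QSol (aE η) (bE η) T`: derivative in `x` by the chain
rule, `z 2 t x = y 2 t (-x)`, `z 1 t x = - y 1 t (-x)`, and the symmetry of `aE`, `bE` in `RegStmt`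
(apply it with `x`, `z := z 1 t x` to get `aE η x (z 0) (z 1) = aE η (-x) (y 0 t (-x)) (y 1 t (-x))`);
periodicity: `y 0 t (-(x + 2π)) = y 0 t (-x)`. Same initial data, so `QUniqStmt` gives
`y 0 t (-x) = z 0 t x = y 0 t x`. -/
def QEvenStmt : Prop :=
  ∀ (T η : ℝ) (y : ℕ → ℝ → ℝ → ℝ), 0 < η → QSol (aE η) (bE η) T y →
    (∀ x, y 0 0 (-x) = y 0 0 x) → ∀ t ∈ Icc 0 T, ∀ x, y 0 t (-x) = y 0 t x

/-- UNIQ: `RegStmt → PolQStmt → QUniqStmt → UniqStmt`.

Proof. Given `t` with `0 ≤ t < T, T'`: by `PolQStmt` there are `η, η' > 0` with `uu ≥ η`, `uu ≥ η'`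
along the two solutions on `[0,t]`; with `η'' = min η η'` both are `QSol (aE η'') (bE η'') t`;
`QUniqStmt` at the time `t`. -/
def UniqMainStmt : Prop := RegStmt → PolQStmt → QUniqStmt → UniqStmt

/-! ## maximal solutions -/

/-- restriction of polar solutions -/
theorem PolarSol_mono {T T' : ℝ} {y : ℕ → ℝ → ℝ → ℝ} (h : PolarSol T y) (hT : T' ≤ T) :
    PolarSol T' y where
  cont m := (h.cont m).mono (prod_mono (Ico_subset_Ico_right hT) subset_rfl)
  dx m t ht := h.dx m t (Ico_subset_Ico_right hT ht)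
  dt t ht := h.dt t (Ioo_subset_Ioo_right hT ht)
  per t ht := h.per t (Ico_subset_Ico_right hT ht)
  even t ht := h.even t (Ico_subset_Ico_right hT ht)
  pos t ht := h.pos t (Ico_subset_Ico_right hT ht)

/-- LOC (local existence of polar solutions):
`Par2Stmt → UnifStmt → RegStmt → QCutStmt → QEvenStmt → QPolStmt → LocStmt`.

Proof. `x ↦ uu x (y0 x)` is continuous, periodic, positive, so `≥ 2η` for some `η > 0` (compactness;
e.g. `UnifStmt` with `T = 0`). All `iteratedDeriv j y0`, `j ≤ 3`, are continuous and periodic, so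
bounded by some `M` (again `UnifStmt` with `T = 0`; periodicity of the iterated derivative:
`iteratedDeriv_comp_add_const` or `PerStmt`). `Par2Stmt` for `aE η, bE η` gives `y` on `[0,τ]`. The
function `g t x = uu x (y 0 t x)` is continuous and periodic on `[0,τ] × R`; by `UnifStmt` there is
`δ > 0` with `|g t x - g 0 x| ≤ η` for `t ≤ δ`, so `g ≥ η` on `[0,T]`, `T = min δ τ > 0`. Restrict to
`[0,T]` (`QCutStmt`), even by `QEvenStmt`, polar by `QPolStmt`. -/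
def LocStmt : Prop :=
  ∀ y0 : ℝ → ℝ, ContDiff ℝ (⊤ : ℕ∞) y0 → (∀ p, y0 (p + 2 * π) = y0 p) →
    (∀ p, y0 (-p) = y0 p) → (∀ p, 0 < uu p (y0 p)) →
    ∃ T > 0, ∃ y, PolarSol T y ∧ ∀ p, y 0 0 p = y0 p

/-- EXT (extension past a time at which the bounds hold): `Par2Stmt → PerStmt → UnifStmt →
RegStmt → QUniqStmt → QCutStmt → QGlueStmt → PolQStmt → QPolStmt → QEvenStmt → ExtStmt`.

Proof. `M > 0` because `1 ≤ M uu` and `uu > 0`. Put `η = 1/(2M)`, so `uu ≥ 2η` on `[0,T)`. Let `τ`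
be the time of `Par2Stmt` for `aE η, bE η, M`, and `s = max (T - τ/2) 0 ∈ [0,T)`. The data `y 0 s` is
smooth, periodic, with `iteratedDeriv j (y 0 s) = y j s` bounded by `M` for `j ≤ 3` (`PerStmt`). Get
`z`, `QSol` on `[0,τ]` with `z 0 0 = y 0 s`. For every `t1 ∈ [s,T)`: `y` is a `QSol (aE η) (bE η)` on
`[0,t1]` (`PolQStmt`), its shift by `s` is one on `[0,t1-s]` (`QCutStmt`), and `t1 - s ≤ τ`, so by
`QUniqStmt` `z m t = y m (s+t)` for `t ∈ [0,t1-s]`. So `z m (t - s) = y m t` for all `t ∈ [s,T)`. Let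
`w = glue s y z`, a `QSol` on `[0,s+τ]` (`QGlueStmt`, `y` on `[0,s]`), where `s + τ > T`
(if `s = 0` then `T ≤ τ/2 < τ`). `w 0 = y 0` on `[0,T)`, so `g t x = uu x (w 0 t x) ≥ 2η` for `t < T`
and by continuity (`UnifStmt` for `w` on `[0,s+τ]`) there is `δ > 0` with
`|g t x - g t' x| ≤ η` if `|t - t'| ≤ δ`, so `g ≥ η` on `[0,T']`, `T' = min (s+τ) (T + δ/2) > T` (compare
`t ∈ [T,T']` with `t' = max 0 (T - δ/2) `). Even at time `0` (`w 0 0 = y 0 0`), so even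
(`QEvenStmt`); `QCutStmt`, `QPolStmt`. -/
def ExtStmt : Prop :=
  ∀ (T M : ℝ) (y : ℕ → ℝ → ℝ → ℝ), 0 < T → PolarSol T y →
    (∀ j ≤ 3, ∀ t ∈ Ico 0 T, ∀ x, |y j t x| ≤ M) →
    (∀ t ∈ Ico 0 T, ∀ x, 1 ≤ M * uu x (y 0 t x)) →
    ∃ T' > T, ∃ y', PolarSol T' y' ∧ ∀ p, y' 0 0 p = y 0 0 p

/-- SUP (maximal time): `UniqStmt → SupStmt`.

Proof. Let `E = {T ∈ (0,1] : ∃ y, PolarSol T y ∧ y 0 0 = y0}`, nonempty (given, after restriction
with `PolarSol_mono` to `min T 1`), bounded by `1`, `T = sSup E ∈ (0,1]`. For `t < T` choose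
`σ t ∈ E` with `t < σ t` and a solution `Y t` on `[0,σ t)`. Put `y m t x = Y t m t x`. Claim:
`PolarSol T y`. For every `t1 < T` and all `t ≤ t1` (`0 ≤ t`) `y m t = Y t m t = Y t1 m t` by
`UniqStmt` (`t < σ t`, `t ≤ t1 < σ t1`). So `y` agrees with `Y t1` on `Icc 0 t1`, `t1 < T` arbitrary:
`cont`: at a point `(t,x)`, `t < T`, take `t1 = (t+T)/2`: the set `Icc 0 t1 ×ˢ univ` is a neighbourhood
of the point within `Ico 0 T ×ˢ univ`, there `y` is continuous (`ContinuousOn` is local: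
`ContinuousWithinAt.congr...`, `ContinuousWithinAt.mono_of_mem_nhdsWithin`); `dt`: eventual equality near
`t ∈ (0,T)`; the other fields are pointwise in `t`. If `T' ∈ (T,1]` had a solution, `T' ∈ E`
contradicts `T = sSup E`. -/
def SupStmt : Prop :=
  ∀ y0 : ℝ → ℝ, (∃ T > 0, ∃ y, PolarSol T y ∧ ∀ p, y 0 0 p = y0 p) →
    ∃ T : ℝ, 0 < T ∧ T ≤ 1 ∧ (∃ y, PolarSol T y ∧ ∀ p, y 0 0 p = y0 p) ∧
      ∀ T', T < T' → T' ≤ 1 → ¬ ∃ y, PolarSol T' y ∧ ∀ p, y 0 0 p = y0 p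

/-- MAXSOL.

Proof. `LocStmt` and `SupStmt` give `T` and `y`. If `T < 1` and the last alternative fails for some
`M`, then all `|y j t p| ≤ M` (`j ≤ 3`) and `1 ≤ M * uu` on `Ico 0 T`; `ExtStmt` gives `T' > T` and
`y'` with the same data; restrict to `min T' 1 ∈ (T,1]` (`PolarSol_mono`), contradiction with the
last clause of `SupStmt`. -/
def MaxSolMainStmt : Prop := LocStmt → ExtStmt → SupStmt → MaxSolStmt

/-! ## stability -/

/-- INTERP. Small function and bounded fourth derivative imply small derivatives.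

Proof. Step A: for `k ≤ 3`, `h > 0` and every `x` there is `ξ ∈ [x, x + (2^k - 1) h]` with
`|u k ξ| ≤ 2^k δ / h^k`. Induction: for `k + 1` take `ξ1 ∈ [x, x + (2^k-1) h]` and
`ξ2 ∈ [x + 2^k h, x + (2^(k+1) - 1) h]` (the claim for `k` at `x` and at `x + 2^k h`), so
`ξ2 - ξ1 ≥ h`, and by the mean value theorem there is `ξ` between with
`u (k+1) ξ = (u k ξ2 - u k ξ1)/(ξ2 - ξ1)`, absolute value `≤ 2 * 2^k δ / h^k / h`.
Step B: `|u 3 x| ≤ 8 δ/h³ + 7 h M4` for all `x` (mean value inequality from `ξ`), then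
`|u 2 x| ≤ 4 δ/h² + 3 h S3` with `S3` the bound just obtained, `|u 1 x| ≤ 2 δ/h + h S2`.
Choose `h ∈ (0,1/10]` with `7 h |M4| ≤ ε/2`, and then `δ ≤ min ε 1` with `8 δ/h³ ≤ ε/2`
(so `δ = min ε 1 * h³ / 16` works: `8δ/h³ ≤ ε/2`, `4δ/h² ≤ ε h/4`, `2δ/h ≤ ε h²/8`): `S3 ≤ ε`,
`S2 ≤ ε/4 + 3 h ε ≤ ε`, `S1 ≤ ε`. -/
def InterpStmt : Prop :=
  ∀ M4 ε : ℝ, 0 < ε → ∃ δ > 0, ∀ u : ℕ → ℝ → ℝ, (∀ m x, HasDerivAt (u m) (u (m + 1) x) x) →
    (∀ x, |u 0 x| ≤ δ) → (∀ x, |u 4 x| ≤ M4) → ∀ j ≤ 3, ∀ x, |u j x| ≤ ε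

/-- stability of the solution `y` up to the time `s` (quantitative, with bounds of the fourth
derivative) -/
def St (a b : ℝ → ℝ → ℝ → ℝ) (y : ℕ → ℝ → ℝ → ℝ) (s : ℝ) : Prop :=
  ∀ M4 : ℝ, ∃ K4 : ℝ, ∀ η > 0, ∃ δ > 0, ∀ z0 : ℝ → ℝ, ContDiff ℝ (⊤ : ℕ∞) z0 →
    (∀ x, z0 (x + 2 * π) = z0 x) → (∀ x, |z0 x - y 0 0 x| ≤ δ) →
    (∀ x, |iteratedDeriv 4 z0 x| ≤ M4) →
    ∃ z, QSol a b s z ∧ (∀ x, z 0 0 x = z0 x) ∧
      (∀ t ∈ Icc 0 s, ∀ x, |z 0 t x - y 0 t x| ≤ η) ∧ ∀ t ∈ Icc 0 s, ∀ x, |z 4 t x| ≤ K4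

/-- STEP: `Par2Stmt → PerStmt → UnifStmt → InterpStmt → QCompStmt → QCutStmt → QGlueStmt →
StepStmt`.

Proof. Let `M ≥ 0` bound `|y j|`, `j ≤ 4`, on `[0,T]` (`UnifStmt`, periodicity of `y j` by
`PerStmt`). Let `τ, K` be given by `Par2Stmt` for `M + 1`, and `L ≥ 0` by `QCompStmt` for `M + 2`.
Let `s ≤ s' ≤ s + τ` and assume `St s`. Given `M4`, let `K4` be its constant in `St s` and put
`K4' = max K4 (K K4)`. Given `η > 0`: let `δ1` be the `δ` of `InterpStmt` for the bound `K4 + M` and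
`ε = 1`; `η' = min δ1 (η exp (-L τ))`; let `δ` be given by `St s` for `η'`. Let `z0` be data, `z` the
solution on `[0,s]`. The sequence `u m x = z m s x - y m s x` satisfies the hypotheses of
`InterpStmt`, so `|z j s x| ≤ M + 1` for `j ≤ 3`. By `PerStmt` `z 0 s` is smooth, periodic, with
`iteratedDeriv j (z 0 s) = z j s`, so `Par2Stmt` gives `z'` on `[0,τ]`, `|z' j| ≤ M + 2` (`j ≤ 3`),
`|z' 4| ≤ K K4`. Compare on `[0,s'-s]` the shift of `y` by `s` (restricted, `QCutStmt`) with `z'`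
(`QCompStmt` for `M + 2`): `|z' 0 t x - y 0 (s+t) x| ≤ η' exp (L t) ≤ η`. Glue:
`w = glue s z z'` is a `QSol` on `[0, s + (s'-s)] = [0,s']`, with the required bounds (on `[0,s]`
from `z`, `η' ≤ η`, and at `t > s` from `z'`). -/
def StepStmt : Prop :=
  ∀ a b : ℝ → ℝ → ℝ → ℝ, Coef a b → ∀ (T : ℝ) (y : ℕ → ℝ → ℝ → ℝ), 0 ≤ T → QSol a b T y →
    ∃ τ > 0, ∀ s ∈ Icc 0 T, ∀ s' ∈ Icc s T, s' ≤ s + τ → St a b y s → St a b y s'

/-- QSTAB: `PerStmt → StepStmt → QStabStmt`.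

Proof. `St a b y 0`: given `M4` take `K4 = M4`, `δ = η`, and
`z m t x = iteratedDeriv m z0 x` (independent of `t`): `cont` from continuity of iterated
derivatives, `dx` from `PerStmt` (second part), `dt`: `Icc 0 0 = {0}` and
`hasDerivWithinAt_singleton`, `per` given (in `QSol` only for `m = 0`). Then by induction on `n`:
`St a b y (min (n τ) T)`, by `StepStmt`; finally `n τ ≥ T`. -/
def QStabStmt : Prop :=
  ∀ a b : ℝ → ℝ → ℝ → ℝ, Coef a b → ∀ (T : ℝ) (y : ℕ → ℝ → ℝ → ℝ), 0 ≤ T → QSol a b T y →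
    St a b y T

/-- FAM. Bounds for a smooth family of periodic functions.

Proof. For a jointly smooth `G : R × R → R` the function `(l,x) ↦ deriv (G l) x =
fderiv (uncurry G) (l,x) (0,1)` is jointly smooth; by induction `(l,x) ↦ iteratedDeriv j (y0 l) x` is
jointly smooth for every `j` (`iteratedDeriv_succ`), in particular continuous for `j = 4`, and it is
`2π`-periodic in `x`; it is bounded on the compact `[l0-1,l0+1] × [0,2π]`, hence for all `x`. The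
second claim: uniform continuity of `y0` on the same compact set. -/
def FamStmt : Prop :=
  ∀ y0 : ℝ → ℝ → ℝ, ContDiff ℝ (⊤ : ℕ∞) (fun z : ℝ × ℝ => y0 z.1 z.2) →
    (∀ l p, y0 l (p + 2 * π) = y0 l p) → ∀ l0 : ℝ,
    (∃ M4, ∀ l, |l - l0| ≤ 1 → ∀ x, |iteratedDeriv 4 (y0 l) x| ≤ M4) ∧
    ∀ δ > 0, ∃ δ' > 0, ∀ l, |l - l0| < δ' → ∀ x, |y0 l x - y0 l0 x| ≤ δ

/-- STAB.

Proof. Let `t1 = (t0 + T)/2`, so `t0 < t1 < T`, `0 < t1`. By `PolQStmt` there is `η1 > 0` with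
`uu x (y 0 t x) ≥ 2 η1` on `[0,t1]` and `y` is a `QSol (aE η1) (bE η1) t1`. Let `M ≥ 0` bound
`|y 0|` on `[0,t1]` (`UnifStmt`). For `|y|,|z| ≤ M + 1`: `|uu x z - uu x y| ≤
(2 e^{2(M+1)} + 2 e^{M+1}) |z - y|` (mean value inequality for `exp`). Let
`η2 = min (η/2) (min 1 (η1 / (2 e^{2(M+1)} + 2 e^{M+1})))`. `QStabStmt` (for `T := t1`), with the `M4`
of `FamStmt`, gives `δ` for `η2`; `FamStmt` gives `δ'` for `δ`; take `min δ' 1`. For
`|l - l0| < min δ' 1`: `|y0 l x - y 0 0 x| ≤ δ`, so there is a `QSol` `z` on `[0,t1]` with data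
`y0 l` and `|z 0 - y 0| ≤ η2 < η`; then `uu x (z 0 t x) ≥ η1`, even by `QEvenStmt`, polar by
`QPolStmt` (`PolarSol t1 z`), `T' = t1 > t0`. -/
def StabMainStmt : Prop :=
  UnifStmt → RegStmt → PolQStmt → QPolStmt → QEvenStmt → QStabStmt → FamStmt → StabStmt

end Pool.Agent.Lib.MP_c60e08_gt.Pde
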