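import Pool.Agent.Lib.MP_c60e08_gt.ParSpec
import Pool.Agent.Lib.MP_c60e08_gt.PdeSpec1

/-!
Small strengthening of `Par.IterStmt` (the C^3 bound `M + 1` of the iterates is part of the
conclusion) and of the assembly (`Pde.Par2Stmt` instead of `Lm.ParStmt`).
-/

namespace Pool.Agent.Lib.MP_c60e08_gt.Par

open Real Set Filter MeasureTheory Pool.Agent.Lib.MP_c60e08_gt.Lm Pool.Agent.Lib.MP_c60e08_gt.Geo

/-- ITER2: `IterStmt` with the last clause added (it is what the proof of `IterStmt` shows). -/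
def Iter2Stmt : Prop :=
  ∀ a b, SG a → SG b → (∀ x y z, 0 < a x y z) → ∀ M : ℝ, ∃ η > 0, ∃ τ > 0, ∃ K : ℝ → ℝ,
    ∀ y0, SP y0 → (∀ j ≤ 3, Bd (D j y0) M) →
      (∀ h, 0 < h → ∀ n : ℕ, SP ((Ps a b η h)^[n] y0)) ∧
      (∀ m, ∃ B h0 : ℝ, 0 < h0 ∧ ∀ h, 0 < h → h ≤ h0 → ∀ n : ℕ, n * (η * h ^ 2) ≤ τ →
        Bd (D m ((Ps a b η h)^[n] y0)) B) ∧
      (∀ M4, Bd (D 4 y0) M4 → ∃ h0 > 0, ∀ h, 0 < h → h ≤ h0 → ∀ n : ℕ, n * (η * h ^ 2) ≤ τ →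
        Bd (D 4 ((Ps a b η h)^[n] y0)) (K M4)) ∧
      (∀ j ≤ 3, ∃ h0 > 0, ∀ h, 0 < h → h ≤ h0 → ∀ n : ℕ, n * (η * h ^ 2) ≤ τ →
        Bd (D j ((Ps a b η h)^[n] y0)) (M + 1))

/-- PARFIN2: as `ParFinStmt`, conclusion `Pde.Par2Stmt` (the additional bound of `y j`, `j ≤ 3`, is
the clause of `LimStmt` on bounds). -/
def ParFin2Stmt : Prop :=
  RStmt → ChainStmt → BoxStmt → Iter2Stmt → Time1Stmt → Time2Stmt → LimStmt → Pde.Par2Stmt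

end Pool.Agent.Lib.MP_c60e08_gt.Par
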