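import Pool.Agent.Lib.MP_c60e08_gt.ParSpec

/-!
# MP_c60e08_gt, PDE part: `Time1Stmt`, the iterates are Lipschitz in time
-/

namespace Pool.Agent.Lib.MP_c60e08_gt.Par

open Real Set Filter MeasureTheory Pool.Agent.Lib.MP_c60e08_gt.Lm Pool.Agent.Lib.MP_c60e08_gt.Geo

open scoped Topology

namespace ParTime1

theorem SP_deriv {u : ℝ → ℝ} (h : SP u) : SP (deriv u) := by
  refine ⟨(contDiff_infty_iff_deriv.mp h.1).2, fun x => ?_⟩
  have h1 : (fun t => u (t + 2 * π)) = u := funext h.2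
  have h2 := deriv_comp_add_const u (2 * π) x
  rw [h1] at h2
  exact h2.symm

theorem SP_D {u : ℝ → ℝ} (h : SP u) (m : ℕ) : SP (D m u) := by
  induction m with
  | zero =>
    have : D 0 u = u := iteratedDeriv_zero
    rw [this]
    exact h
  | succ m ih =>
    have : D (m + 1) u = deriv (D m u) := iteratedDeriv_succ
    rw [this]
    exact SP_deriv ih

theorem D_D1 (u : ℝ → ℝ) (m : ℕ) : D m (D 1 u) = D (m + 1) u := by
  change iteratedDeriv m (iteratedDeriv 1 u) = iteratedDeriv (m + 1) u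
  rw [iteratedDeriv_one, ← iteratedDeriv_succ']

theorem cda {u : ℝ → ℝ} (h : SP u) (m : ℕ) (x : ℝ) : ContDiffAt ℝ m u x :=
  (h.1.of_le (by exact_mod_cast le_top)).contDiffAt

theorem mul_bd (m : ℕ) (u v : ℝ → ℝ) (B B' : ℝ) (hu : SP u) (hv : SP v)
    (hB : ∀ j ≤ m, Bd (D j u) B) (hB' : ∀ j ≤ m, Bd (D j v) B') :
    Bd (D m (fun x => u x * v x)) (2 ^ m * |B| * |B'|) := by
  intro x
  have h1 : D m (fun x => u x * v x) x = ∑ i ∈ Finset.range (m + 1),
      (m.choose i : ℝ) * iteratedDeriv i u x * iteratedDeriv (m - i) v x :=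
    iteratedDeriv_fun_mul (cda hu m x) (cda hv m x)
  rw [h1]
  refine (Finset.abs_sum_le_sum_abs _ _).trans ?_
  have h2 : ∀ i ∈ Finset.range (m + 1),
      |(m.choose i : ℝ) * iteratedDeriv i u x * iteratedDeriv (m - i) v x|
        ≤ (m.choose i : ℝ) * (|B| * |B'|) := by
    intro i hi
    have hi' : i ≤ m := by
      have := Finset.mem_range.mp hi
      omega
    rw [abs_mul, abs_mul, abs_of_nonneg (by positivity : (0 : ℝ) ≤ (m.choose i : ℝ)), mul_assoc]
    have e1 : |iteratedDeriv i u x| ≤ |B| := (hB i hi' x).trans (le_abs_self _)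
    have e2 : |iteratedDeriv (m - i) v x| ≤ |B'| := (hB' (m - i) (by omega) x).trans (le_abs_self _)
    gcongr
  refine (Finset.sum_le_sum h2).trans ?_
  rw [← Finset.sum_mul]
  have h3 : (∑ i ∈ Finset.range (m + 1), (m.choose i : ℝ)) = 2 ^ m := by
    exact_mod_cast Nat.sum_range_choose m
  rw [h3, mul_assoc]

theorem FF_bd (hC : ChainStmt) (hP : CompStmt) (a b : ℝ → ℝ → ℝ → ℝ) (ha : SG a) (hb : SG b)
    (m : ℕ) (B : ℝ) :
    ∃ L, 0 ≤ L ∧ ∀ y z, SP y → SP z → (∀ j ≤ m + 1, Bd (D j y) B) →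
      (∀ j ≤ m + 1, Bd (D j z) B) → SP (FF a b y z) ∧ Bd (D m (FF a b y z)) L := by
  obtain ⟨Ca, hCa⟩ := hP a ha m B
  obtain ⟨Cb, hCb⟩ := hP b hb m B
  refine ⟨2 ^ m * |Ca| * |B| + |Cb|, by positivity, ?_⟩
  intro y z hy hz hBy hBz
  have hsa : SP (cp a y z) := ((hC a ha).2.2.2.2.2 y z hy hz).1
  have hsb : SP (cp b y z) := ((hC b hb).2.2.2.2.2 y z hy hz).1
  have hz1 : SP (D 1 z) := SP_D hz 1
  have hprod : SP (fun x => cp a y z x * D 1 z x) := by
    refine ⟨hsa.1.mul hz1.1, fun x => ?_⟩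
    have e1 := hsa.2 x
    have e2 := hz1.2 x
    beta_reduce
    rw [e1, e2]
  have h1 : Bd (D m (fun x => cp a y z x * D 1 z x)) (2 ^ m * |Ca| * |B|) := by
    refine mul_bd m _ _ _ _ hsa hz1 ?_ ?_
    · exact hCa y z hy hz (fun j hj => hBy j (by omega)) (fun j hj => hBz j (by omega))
    · intro j hj
      rw [D_D1]
      exact hBz (j + 1) (by omega)
  have h2 : Bd (D m (cp b y z)) Cb :=
    hCb y z hy hz (fun j hj => hBy j (by omega)) (fun j hj => hBz j (by omega)) m le_rfl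
  constructor
  · refine ⟨hprod.1.add hsb.1, fun x => ?_⟩
    have e1 := hprod.2 x
    have e2 := hsb.2 x
    simp only at e1
    change cp a y z (x + 2 * π) * D 1 z (x + 2 * π) + cp b y z (x + 2 * π)
      = cp a y z x * D 1 z x + cp b y z x
    rw [e1, e2]
  · intro x
    have h3 : D m (FF a b y z) x
        = D m (fun x => cp a y z x * D 1 z x) x + D m (cp b y z) x :=
      iteratedDeriv_fun_add (cda hprod m x) (cda hsb m x)
    rw [h3]
    refine (abs_add_le _ _).trans (add_le_add (h1 x) ((h2 x).trans (le_abs_self _)))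

theorem all_bd {a b : ℝ → ℝ → ℝ → ℝ} {η τ : ℝ} {y0 : ℝ → ℝ} (hU : UB a b η τ y0) (N : ℕ) :
    ∃ B h0 : ℝ, 0 < h0 ∧ ∀ j ≤ N, ∀ h, 0 < h → h ≤ h0 → ∀ n : ℕ, n * (η * h ^ 2) ≤ τ →
      Bd (D j ((Ps a b η h)^[n] y0)) B := by
  induction N with
  | zero =>
    obtain ⟨B, h0, hh, H⟩ := hU.2 0
    refine ⟨B, h0, hh, fun j hj => ?_⟩
    obtain rfl : j = 0 := by omega
    exact H
  | succ N ih =>
    obtain ⟨B, h0, hh, H⟩ := ih
    obtain ⟨B', h0', hh', H'⟩ := hU.2 (N + 1)
    refine ⟨max B B', min h0 h0', lt_min hh hh', ?_⟩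
    intro j hj h hp hle n hn x
    rcases Nat.lt_or_ge N j with hj' | hj'
    · obtain rfl : j = N + 1 := by omega
      exact (H' h hp (hle.trans (min_le_right _ _)) n hn x).trans (le_max_right _ _)
    · exact (H j hj' h hp (hle.trans (min_le_left _ _)) n hn x).trans (le_max_left _ _)

end ParTime1

open ParTime1 in
theorem parTime1 : RStmt → ChainStmt → CompStmt → Time1Stmt := by
  intro hR hC hP a b ha hb η τ y0 hη hy0 hU m
  obtain ⟨B, h0, hh0, hB⟩ := all_bd hU (m + 2)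
  obtain ⟨L, hL, hF⟩ := FF_bd hC hP a b ha hb m B
  refine ⟨L, h0, hL, hh0, ?_⟩
  intro h hp hle n n' hn hn' x
  obtain ⟨k, rfl⟩ := Nat.exists_eq_add_of_le hn
  clear hn
  have hc : 0 < η * h ^ 2 := by positivity
  have hstep : ∀ i : ℕ, ((i : ℝ) + 1) * (η * h ^ 2) ≤ τ → ∀ x,
      |D m ((Ps a b η h)^[i + 1] y0) x - D m ((Ps a b η h)^[i] y0) x| ≤ L * (η * h ^ 2) := by
    intro i hi x
    have hi' : (i : ℝ) * (η * h ^ 2) ≤ τ := by nlinarith
    set y := (Ps a b η h)^[i] y0 with hydef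
    have hy : SP y := hU.1 h hp i
    have hz : SP (R h (D 1 y)) := (hR h (D 1 y) hp (SP_D hy 1)).1
    have hBy : ∀ j ≤ m + 2, Bd (D j y) B := fun j hj => hB j hj h hp hle i hi'
    have hBz : ∀ j ≤ m + 1, Bd (D j (R h (D 1 y))) B := by
      intro j hj
      rw [(hR h (D 1 y) hp (SP_D hy 1)).2.1 j, D_D1]
      exact (hR h (D (j + 1) y) hp (SP_D hy (j + 1))).2.2.1 B (hBy (j + 1) (by omega))
    obtain ⟨hsp, hbd⟩ := hF y (R h (D 1 y)) hy hz (fun j hj => hBy j (by omega)) hBz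
    have e1 : (Ps a b η h)^[i + 1] y0 = Ps a b η h y := by
      rw [Function.iterate_succ_apply']
    rw [e1]
    have hsp2 : SP (fun x => η * h ^ 2 * Fh a b h y x) := by
      refine ⟨contDiff_const.mul hsp.1, fun x => ?_⟩
      have := hsp.2 x
      change η * h ^ 2 * FF a b y (R h (D 1 y)) (x + 2 * π)
        = η * h ^ 2 * FF a b y (R h (D 1 y)) x
      rw [this]
    have e2 : D m (Ps a b η h y) x
        = D m y x + D m (fun x => η * h ^ 2 * Fh a b h y x) x :=
      iteratedDeriv_fun_add (cda hy m x) (cda hsp2 m x)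
    have e3 : D m (fun x => η * h ^ 2 * Fh a b h y x) x
        = η * h ^ 2 * D m (FF a b y (R h (D 1 y))) x :=
      iteratedDeriv_const_mul_field (η * h ^ 2) (FF a b y (R h (D 1 y)))
    rw [e2, e3]
    have e4 : D m y x + η * h ^ 2 * D m (FF a b y (R h (D 1 y))) x - D m y x
        = η * h ^ 2 * D m (FF a b y (R h (D 1 y))) x := by ring
    rw [e4, abs_mul, abs_of_pos hc, mul_comm L]
    exact mul_le_mul_of_nonneg_left (hbd x) hc.le
  have main : ∀ k : ℕ, ((n + k : ℕ) : ℝ) * (η * h ^ 2) ≤ τ →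
      |D m ((Ps a b η h)^[n + k] y0) x - D m ((Ps a b η h)^[n] y0) x|
        ≤ L * ((k : ℝ) * (η * h ^ 2)) := by
    intro k
    induction k with
    | zero =>
      intro _
      simp
    | succ k ih =>
      intro hk
      have hk1 : ((n + k : ℕ) : ℝ) * (η * h ^ 2) ≤ τ := by
        push_cast at hk ⊢
        nlinarith
      have h1 := ih hk1
      have h2 := hstep (n + k) (by push_cast at hk ⊢; linarith) x
      have h3 : D m ((Ps a b η h)^[n + (k + 1)] y0) x - D m ((Ps a b η h)^[n] y0) x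
          = (D m ((Ps a b η h)^[n + k + 1] y0) x - D m ((Ps a b η h)^[n + k] y0) x)
            + (D m ((Ps a b η h)^[n + k] y0) x - D m ((Ps a b η h)^[n] y0) x) := by
        rw [← Nat.add_assoc]
        ring
      rw [h3]
      refine (abs_add_le _ _).trans ((add_le_add h2 h1).trans (le_of_eq ?_))
      push_cast
      ring
  have h5 := main k hn'
  have h6 : (((n + k : ℕ) : ℝ) - n) * (η * h ^ 2) = (k : ℝ) * (η * h ^ 2) := by
    push_cast
    ring
  rw [h6]
  exact h5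

end Pool.Agent.Lib.MP_c60e08_gt.Par
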