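import Pool.Agent.Lib.MP_c60e08_gt.Pde.Ext
import Pool.Agent.Lib.MP_c60e08_gt.Pde.FB
import Pool.Agent.Lib.MP_c60e08_gt.Pde.FT1
import Pool.Agent.Lib.MP_c60e08_gt.Pde.FT2
import Pool.Agent.Lib.MP_c60e08_gt.Pde.FT3
import Pool.Agent.Lib.MP_c60e08_gt.Pde.Fam
import Pool.Agent.Lib.MP_c60e08_gt.Pde.FlowMain
import Pool.Agent.Lib.MP_c60e08_gt.Pde.FlowP
import Pool.Agent.Lib.MP_c60e08_gt.Pde.FlowXs
import Pool.Agent.Lib.MP_c60e08_gt.Pde.Fq
import Pool.Agent.Lib.MP_c60e08_gt.Pde.Interp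
import Pool.Agent.Lib.MP_c60e08_gt.Pde.Lip
import Pool.Agent.Lib.MP_c60e08_gt.Pde.Loc
import Pool.Agent.Lib.MP_c60e08_gt.Pde.Max
import Pool.Agent.Lib.MP_c60e08_gt.Pde.MaxSol
import Pool.Agent.Lib.MP_c60e08_gt.Pde.Per
import Pool.Agent.Lib.MP_c60e08_gt.Pde.PolQ
import Pool.Agent.Lib.MP_c60e08_gt.Pde.PolSm
import Pool.Agent.Lib.MP_c60e08_gt.Pde.QComp
import Pool.Agent.Lib.MP_c60e08_gt.Pde.QCut
import Pool.Agent.Lib.MP_c60e08_gt.Pde.QEven
import Pool.Agent.Lib.MP_c60e08_gt.Pde.QGlue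
import Pool.Agent.Lib.MP_c60e08_gt.Pde.QPol
import Pool.Agent.Lib.MP_c60e08_gt.Pde.QStab
import Pool.Agent.Lib.MP_c60e08_gt.Pde.QUniq
import Pool.Agent.Lib.MP_c60e08_gt.Pde.Reg
import Pool.Agent.Lib.MP_c60e08_gt.Pde.Sm
import Pool.Agent.Lib.MP_c60e08_gt.Pde.Smooth
import Pool.Agent.Lib.MP_c60e08_gt.Pde.Stab
import Pool.Agent.Lib.MP_c60e08_gt.Pde.Step
import Pool.Agent.Lib.MP_c60e08_gt.Pde.Sup
import Pool.Agent.Lib.MP_c60e08_gt.Pde.Swap
import Pool.Agent.Lib.MP_c60e08_gt.Pde.TD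
import Pool.Agent.Lib.MP_c60e08_gt.Pde.Unif
import Pool.Agent.Lib.MP_c60e08_gt.Pde.Uniq
import Pool.Agent.Lib.MP_c60e08_gt.Pde.XsAlg
import Pool.Agent.Lib.MP_c60e08_gt.Pde.XsComp

/-!
Assembly of the PDE part of MP_c60e08_gt (from `Par2Stmt`, proved in `ParFin.lean`, and
`Geo.PartStmt`, proved in `Geo/Part.lean`).
-/

namespace Pool.Agent.Lib.MP_c60e08_gt.Pde

open Pool.Agent.Lib.MP_c60e08_gt.Lm

theorem qcompF : QCompStmt := qcomp lipStmt maxStmt

theorem quniqF : QUniqStmt := quniq perStmt unifStmt qcompF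

theorem polqF : PolQStmt := polq unifStmt regStmt

theorem qevenF : QEvenStmt := qeven regStmt quniqF

/-- E2: uniqueness -/
theorem uniqF : UniqStmt := uniq_main regStmt polqF quniqF

/-- E1: maximal solutions -/
theorem maxSolF (hP : Par2Stmt) : MaxSolStmt :=
  maxsol_main (loc hP perStmt unifStmt regStmt qcut qevenF (qpol regStmt))
    (ext hP perStmt unifStmt regStmt quniqF qcut (qglue perStmt) polqF (qpol regStmt) qevenF)
    (sup uniqF)

/-- E3: stability -/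
theorem stabF (hP : Par2Stmt) : StabStmt :=
  stab_main unifStmt regStmt polqF (qpol regStmt) qevenF
    (qstab perStmt (step hP perStmt unifStmt interp qcompF qcut (qglue perStmt))) fam

theorem xsCompF : XsCompStmt := xsComp xsAlg

theorem smF (hPart : Geo.PartStmt) : SmStmt :=
  sm hPart xsAlg xsCompF (td xsAlg xsCompF swap)

theorem polSmF (hPart : Geo.PartStmt) : PolSmStmt := polSm regStmt polqF xsAlg (smF hPart)

/-- joint smoothness -/
theorem smoothF (hPart : Geo.PartStmt) : SmoothStmt := smooth_main (polSmF hPart)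

/-- polar graph solutions are flows -/
theorem flowF (hPart : Geo.PartStmt) : FlowStmt := by
  have hS := polSmF hPart
  have hX : FlowXsStmt := flowXs xsAlg xsCompF
  have hP : FlowPStmt := flowP hS hX
  have h1 : FT1Stmt := ft1 xsAlg xsCompF swap hS hX hP
  have h2 : FT2Stmt := ft2 xsAlg swap hS hX hP fq h1
  have h3 : FT3Stmt := ft3 xsAlg swap hS hX hP fq h1 h2
  exact flow_main hS hX hP h1 h2 h3 fb

end Pool.Agent.Lib.MP_c60e08_gt.Pde
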