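import Pool.Agent.Lib.MP_c60e08_gt.PdeSpec1
import Pool.Agent.Lib.MP_c60e08_gt.GeoSpec

/-!
# Blueprint of the PDE part of MP_c60e08_gt, file 2

Goals of this file: `SmoothStmt` and `FlowStmt` of `LmDefs.lean`.

Every `def ...Stmt : Prop` is one module (one task) with its proof in the docstring.
Modules: XsAlgStmt, XsCompStmt, SwapStmt, TDStmt, SmStmt, PolSmStmt, SmoothMainStmt;
FlowXsStmt, FlowPStmt, FqStmt, FT1Stmt, FT2Stmt, FT3Stmt, FBStmt, FlowMainStmt.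
-/

namespace Pool.Agent.Lib.MP_c60e08_gt.Pde

open Real Set Pool.Agent.Lib.MP_c60e08_gt.Lm

/-! ## functions with jointly regular `x`-derivatives -/

/-- `F` and its first `k` derivatives in the second variable are jointly `C^n` on `S × R`
(`S` a set of times; used with `S = Ico 0 T`, `n = 0` and with `S = Ioo 0 T`, any `n`) -/
def XS (S : Set ℝ) (n : ℕ) : ℕ → (ℝ → ℝ → ℝ) → Prop
  | 0, F => ContDiffOn ℝ n (fun z : ℝ × ℝ => F z.1 z.2) (S ×ˢ univ)
  | k + 1, F => ContDiffOn ℝ n (fun z : ℝ × ℝ => F z.1 z.2) (S ×ˢ univ) ∧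
      (∀ t ∈ S, ∀ x, DifferentiableAt ℝ (F t) x) ∧ XS S n k (fun t x => deriv (F t) x)

/-- XSALG. Elementary closure properties of the class `XS`.

Proof. (1) Monotone in `k`: induction on `k` (for all `F`), apply the induction hypothesis to
`deriv (F t)`. (2) Congruence on `S`: induction on `k`; for `t ∈ S` the functions `F t` and `G t` are
equal, so their derivatives are; `ContDiffOn.congr`. (3) `deriv (F t) x = F' t x` for `t ∈ S` and
(2). (4), (5): induction on `k`, the derivative of a constant is `0`, of `x` is `1` (use (3)).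
(6), (7), (8): induction on `k` for all `F, G`, with `deriv (F t + G t) = deriv (F t) + deriv (G t)`,
`deriv (F t * G t) = deriv (F t) * G t + F t * deriv (G t)` for `t ∈ S` (differentiability is part
of `XS` for `k+1`), (1) to lower `k` for the undifferentiated factor, and (2). -/
def XsAlgStmt : Prop :=
  ∀ (S : Set ℝ) (n : ℕ),
    (∀ (k : ℕ) (F : ℝ → ℝ → ℝ), XS S n (k + 1) F → XS S n k F) ∧
    (∀ (k : ℕ) (F G : ℝ → ℝ → ℝ), (∀ t ∈ S, ∀ x, F t x = G t x) → XS S n k F → XS S n k G) ∧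
    (∀ (k : ℕ) (F F' : ℝ → ℝ → ℝ),
      ContDiffOn ℝ n (fun z : ℝ × ℝ => F z.1 z.2) (S ×ˢ univ) →
      (∀ t ∈ S, ∀ x, HasDerivAt (F t) (F' t x) x) → XS S n k F' → XS S n (k + 1) F) ∧
    (∀ (k : ℕ) (c : ℝ), XS S n k (fun _ _ => c)) ∧
    (∀ k : ℕ, XS S n k (fun _ x => x)) ∧
    (∀ (k : ℕ) (F G : ℝ → ℝ → ℝ), XS S n k F → XS S n k G →
      XS S n k (fun t x => F t x + G t x)) ∧
    (∀ (k : ℕ) (F G : ℝ → ℝ → ℝ), XS S n k F → XS S n k G →
      XS S n k (fun t x => F t x * G t x)) ∧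
    (∀ (k : ℕ) (F : ℝ → ℝ → ℝ), XS S n k F → XS S n k (fun t x => -F t x))

/-- XSCOMP: `XsAlgStmt → XsCompStmt`. Composition with smooth functions of three (or one) variables.

Proof. Induction on `k`, for all `A, F, G, H`. `k = 0`: `ContDiffOn.comp` (`A` is `C^n` on `U`,
`z ↦ (F z, G z, H z)` is `C^n` on `S × R` with values in `U`). `k + 1`: for `t ∈ S` the function
`x ↦ A (F t x, G t x, H t x)` is differentiable with derivative
`A1 * deriv (F t) x + A2 * deriv (G t) x + A3 * deriv (H t) x`, where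
`Ai q = fderiv ℝ A q (e_i)`, `e_1 = (1,0,0)`, ..., evaluated at `q = (F t x, G t x, H t x)`. Each
`Ai` is smooth on `U` (`ContDiffOn.fderiv_of_isOpen` and application to a fixed vector), so
`Ai ∘ (F,G,H) ∈ XS S n k` by the induction hypothesis (lower `k` for `F, G, H` by (1) of
`XsAlgStmt`), and products and sums are in `XS S n k`; conclude with (3) of `XsAlgStmt`. The one
variable version: take `A' q = A q.1`, `U' = Prod.fst ⁻¹' U` and `G = H = 0`. -/
def XsCompStmt : Prop :=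
  (∀ (S : Set ℝ) (n k : ℕ) (U : Set (ℝ × ℝ × ℝ)) (A : ℝ × ℝ × ℝ → ℝ) (F G H : ℝ → ℝ → ℝ),
    IsOpen U → ContDiffOn ℝ (⊤ : ℕ∞) A U → XS S n k F → XS S n k G → XS S n k H →
    (∀ t ∈ S, ∀ x, (F t x, G t x, H t x) ∈ U) →
    XS S n k (fun t x => A (F t x, G t x, H t x))) ∧
  (∀ (S : Set ℝ) (n k : ℕ) (U : Set ℝ) (A : ℝ → ℝ) (F : ℝ → ℝ → ℝ),
    IsOpen U → ContDiffOn ℝ (⊤ : ℕ∞) A U → XS S n k F → (∀ t ∈ S, ∀ x, F t x ∈ U) →
    XS S n k (fun t x => A (F t x)))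

/-- SWAP. `d_t d_x = d_x d_t`.

Proof. Let `t, t' ∈ (0,T)`. By the fundamental theorem of calculus
(`intervalIntegral.integral_eq_sub_of_hasDerivAt`; `s ↦ ut s x` is continuous on `[t,t']`)
`u t' x - u t x = ∫ s in t..t', ut s x` for all `x`. Differentiate in `x`: the right hand side has
derivative `∫ s in t..t', utx s x`
(`intervalIntegral.hasDerivAt_integral_of_dominated_loc_of_deriv_le`, a bound of `|utx|` on the
compact `[[t,t']] × [x-1,x+1]`), the left hand side has derivative `ux t' x - ux t x`. So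
`ux t' x = ux t x + ∫ s in t..t', utx s x` for `t'` near `t`, and the derivative in `t'` at `t` is
`utx t x` (`intervalIntegral.integral_hasDerivAt_right`, continuity of `s ↦ utx s x`). -/
def SwapStmt : Prop :=
  ∀ (T : ℝ) (u ux ut utx : ℝ → ℝ → ℝ),
    ContinuousOn (fun z : ℝ × ℝ => ut z.1 z.2) (Ioo 0 T ×ˢ univ) →
    ContinuousOn (fun z : ℝ × ℝ => utx z.1 z.2) (Ioo 0 T ×ˢ univ) →
    (∀ t ∈ Ioo 0 T, ∀ x, HasDerivAt (u t) (ux t x) x) →
    (∀ t ∈ Ioo 0 T, ∀ x, HasDerivAt (fun s => u s x) (ut t x) t) →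
    (∀ t ∈ Ioo 0 T, ∀ x, HasDerivAt (ut t) (utx t x) x) →
    ∀ t ∈ Ioo 0 T, ∀ x, HasDerivAt (fun s => ux s x) (utx t x) t

/-- the right hand side of the equation -/
noncomputable def rhsQ (a b : ℝ → ℝ → ℝ → ℝ) (y : ℕ → ℝ → ℝ → ℝ) (t x : ℝ) : ℝ :=
  a x (y 0 t x) (y 1 t x) * y 2 t x + b x (y 0 t x) (y 1 t x)

/-- TD: `XsAlgStmt → XsCompStmt → SwapStmt → TDStmt`. All `x`-derivatives are differentiable in
time.

Proof. Let `S = Ioo 0 T`. `XS S 0 k (y m)` for all `k, m` (induction on `k`, (3) of `XsAlgStmt`;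
`ContDiffOn ℝ 0` is continuity, `contDiffOn_zero`). Hence `XS S 0 k (rhsQ a b y)` for all `k`
(`XsCompStmt` with `U = univ`, `A z = a z.1 z.2.1 z.2.2` and the three functions `x`, `y 0`, `y 1`;
products and sums). Let `G m t x = iteratedDeriv m (rhsQ a b y t) x`. By induction on `m`
(`iteratedDeriv_succ`: `G (m+1) t x = deriv (G m t) x`): `XS S 0 k (G m)` for all `k`, so
`HasDerivAt (G m t) (G (m+1) t x) x` and `G m` is continuous on `S × R`. Now induction on `m`: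
`HasDerivAt (fun s => y m s x) (G m t x) t` for `t ∈ S`: `m = 0` is the field `dt` of `QSol`
(`Icc 0 T` is a neighbourhood of `t`), the step is `SwapStmt` with `u = y m`, `ux = y (m+1)`,
`ut = G m`, `utx = G (m+1)`. -/
def TDStmt : Prop :=
  ∀ a b : ℝ → ℝ → ℝ → ℝ, Coef a b → ∀ (T : ℝ) (y : ℕ → ℝ → ℝ → ℝ), QSol a b T y →
    ∀ m, ∀ t ∈ Ioo 0 T, ∀ x,
      HasDerivAt (fun s => y m s x) (iteratedDeriv m (rhsQ a b y t) x) t

/-- SM: `Geo.PartStmt → XsAlgStmt → XsCompStmt → TDStmt → SmStmt`. Joint smoothness of `QSol`.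

Proof. `S = Ioo 0 T`. Induction on `n`: for all `m`, `y m` is jointly `C^n` on `S × R`
(`n = 0`: `cont`). If this holds for `n`, then `XS S n k (y m)` for all `k, m` (induction on `k`,
(3) of `XsAlgStmt`), so `XS S n k (rhsQ a b y)` for all `k`, so
`(t,x) ↦ iteratedDeriv m (rhsQ a b y t) x` is jointly `C^n` for all `m` (induction on `m` as in
`TDStmt`). So both partial derivatives of `y m` (in `t` by `TDStmt`, in `x` it is `y (m+1)`) are
jointly `C^n` and `Geo.PartStmt` (with `a = 0`, `b = T`; `Geo.CS` is the same condition) gives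
`C^(n+1)`. Finally `XS S n k (y m)` for all `n, k, m`. -/
def SmStmt : Prop :=
  ∀ a b : ℝ → ℝ → ℝ → ℝ, Coef a b → ∀ (T : ℝ) (y : ℕ → ℝ → ℝ → ℝ), QSol a b T y →
    ∀ n k m : ℕ, XS (Ioo 0 T) n k (y m)

/-- POLSM: `RegStmt → PolQStmt → XsAlgStmt → SmStmt → PolSmStmt`.

Proof. Second claim: induction on `k`, (3) of `XsAlgStmt` with `F' = y (m+1)`. First claim: for
every `t1 < T`, `PolQStmt` gives `η > 0` with `QSol (aE η) (bE η) t1 y`, so
`XS (Ioo 0 t1) n k (y m)` by `SmStmt`. Locality in time: if `XS (Ioo 0 t1) n k F` for all `t1 < T`,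
then `XS (Ioo 0 T) n k F`, by induction on `k`: a point `(t,x)` with `0 < t < T` lies in the open set
`Ioo 0 t1 ×ˢ univ`, `t1 = (t+T)/2`, so `ContDiffAt` there. -/
def PolSmStmt : Prop :=
  ∀ (T : ℝ) (y : ℕ → ℝ → ℝ → ℝ), PolarSol T y →
    (∀ n k m : ℕ, XS (Ioo 0 T) n k (y m)) ∧ (∀ k m : ℕ, XS (Ico 0 T) 0 k (y m))

/-- SMOOTH. Proof: `contDiffOn_infty` and `XS (Ioo 0 T) n 0 (y 0)`. -/
def SmoothMainStmt : Prop := PolSmStmt → SmoothStmt

/-! ## polar graph solutions are flows -/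

/-- FLOWXS: `XsAlgStmt → XsCompStmt → FlowXsStmt`. All functions of the flow are in `XS`.

Proof. Everything is built from `x`, `y m` by sums, products and composition with smooth functions
of one variable on open sets: `exp`, `sin`, `cos`, `arctan` on `univ`; `√` on `(0,∞)` applied to
`1 + (y 1)^2`; `u ↦ 3 u^(2/3)` on `(0,∞)` applied to `uu p (y 0 t p) > 0` (field `pos`, as
`S ⊆ Ico 0 T`), `x⁻¹` on `x ≠ 0` (`(0,∞)` is enough) applied to `1 + (y 1)^2`, to `pg y > 0`, to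
`u > 0` and to `f > 0`. Use (2) of `XsAlgStmt` to replace a function by an equal one. `pg`, `pv`:
from the definitions. `pD y F t p = deriv (F t) p * (pg y t p)⁻¹`: if `XS S n k F` for all `k` then
`XS S n (k+1) F` gives `XS S n k (deriv F)`. `W.u t p = X² + Y² = uu p (y 0 t p)`
(`sin² + cos² = 1`). `kap = v * f⁻¹`, `r`, `ze`, `C0`: from the definitions. -/
def FlowXsStmt : Prop :=
  ∀ (S : Set ℝ) (n : ℕ) (T : ℝ) (y : ℕ → ℝ → ℝ → ℝ), PolarSol T y → S ⊆ Ico 0 T →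
    (∀ k m, XS S n k (y m)) → ∀ k,
    XS S n k (flowOf y).X ∧ XS S n k (flowOf y).Y ∧ XS S n k (flowOf y).th ∧
    XS S n k (flowOf y).g ∧ XS S n k (flowOf y).lam ∧ XS S n k (flowOf y).v ∧
    XS S n k (flowOf y).v1 ∧ XS S n k (flowOf y).v2 ∧ XS S n k (flowOf y).v3 ∧
    XS S n k (flowOf y).u ∧ XS S n k (flowOf y).f ∧ XS S n k (flowOf y).kap ∧
    XS S n k (flowOf y).r ∧ XS S n k (flowOf y).ze ∧ XS S n k (flowOf y).C0 ∧
    XS S n k (fun t p => ((flowOf y).g t p)⁻¹)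

/-- FLOWP: `PolSmStmt → FlowXsStmt → FlowPStmt`. The `p`-derivatives.

Proof. Write `q = 1 + y1²`, `g = e^y √q > 0`, `u = X² + Y² = uu p y > 0`. With
`cos (arctan y1) = 1/√q`, `sin (arctan y1) = y1/√q` (`Real.cos_arctan`, `Real.sin_arctan`):
`g cos th = e^y (cos p + y1 sin p) = X_p`, `g sin th = e^y (sin p - y1 cos p) = Y_p`.
`th_p = 1 - y2/q` (derivative of `arctan (y 1 t)`), and `g kap = g v / f = 1 - y2/q` since
`v = f (1 - y2/q)/g`, `f = fS (uu p y) > 0`. `v` is differentiable (`XS (Ico 0 T) 0 1`, `FlowXsStmt`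
with `S = Ico 0 T`, `n = 0`), and `g * v1 = g * (deriv v / g) = deriv v`; the same for
`v1`, `v2` (`v2 = pD v1`, `v3 = pD v2`). -/
def FlowPStmt : Prop :=
  ∀ (T : ℝ) (y : ℕ → ℝ → ℝ → ℝ), PolarSol T y → ∀ t ∈ Ico 0 T, ∀ p,
    0 < (flowOf y).g t p ∧ 0 < (flowOf y).u t p ∧
    HasDerivAt ((flowOf y).X t) ((flowOf y).g t p * cos ((flowOf y).th t p)) p ∧
    HasDerivAt ((flowOf y).Y t) ((flowOf y).g t p * sin ((flowOf y).th t p)) p ∧
    HasDerivAt ((flowOf y).th t) ((flowOf y).g t p * (flowOf y).kap t p) p ∧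
    HasDerivAt ((flowOf y).v t) ((flowOf y).g t p * (flowOf y).v1 t p) p ∧
    HasDerivAt ((flowOf y).v1 t) ((flowOf y).g t p * (flowOf y).v2 t p) p ∧
    HasDerivAt ((flowOf y).v2 t) ((flowOf y).g t p * (flowOf y).v3 t p) p

/-- FQ. Consequences at a fixed time (pure calculus).

Proof. `u_p = 2 X X_p + 2 Y Y_p = 2 g r`. `f = 3 u^(2/3)`, `f_p = 2 u^(-1/3) u_p = (2/3)(f/u) u_p =
g fs` (`u > 0`; `Real.hasDerivAt_rpow_const`; `u^(2/3 - 1) = u^(2/3)/u`). `ze = -X sin th + Y cos th`: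
`ze_p = -g cos sin + g sin cos - th_p (X cos th + Y sin th) = -(g kap) r`. `kap = v/f`:
`kap_p = (g v1 f - v g fs)/f² = g (v1 - fs kap)/f`. `C0 = v²/f + (4/3)(ze/u) v`:
`(v²/f)_p = 2 v g v1/f - v² g fs/f²`, `((ze/u) v)_p = ze_p v/u + ze g v1/u - ze v u_p/u²`, with
`fs = (4/3) f r/u`, `kap = v/f`: this is `g * C1` by the definition of `C1` (field_simp, ring). -/
def FqStmt : Prop :=
  ∀ (W : FlowData) (t p : ℝ), 0 < W.u t p →
    HasDerivAt (W.X t) (W.g t p * cos (W.th t p)) p →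
    HasDerivAt (W.Y t) (W.g t p * sin (W.th t p)) p →
    HasDerivAt (W.th t) (W.g t p * W.kap t p) p →
    HasDerivAt (W.v t) (W.g t p * W.v1 t p) p →
    0 < W.f t p ∧
    HasDerivAt (W.u t) (2 * W.g t p * W.r t p) p ∧
    HasDerivAt (W.f t) (W.g t p * W.fs t p) p ∧
    HasDerivAt (W.ze t) (-(W.g t p * W.kap t p * W.r t p)) p ∧
    HasDerivAt (W.kap t) (W.g t p * ((W.v1 t p - W.fs t p * W.kap t p) / W.f t p)) p ∧
    HasDerivAt (W.C0 t) (W.g t p * W.C1 t p) p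

/-- FT1: `XsAlgStmt → XsCompStmt → SwapStmt → PolSmStmt → FlowXsStmt → FlowPStmt → FT1Stmt`.
First time derivatives.

Proof. `W = flowOf y`, `q = 1 + y1²`, `g = e^y √q`, `v g = f (1 - y2/q)`, `g kap = 1 - y2/q`,
`lam = - v y1`, `g² = e^{2y} q`. (i) By the field `dt`: `y0_t = - v g e^{-2y} =: R(t,p)`. (ii) `R` is in
`XS (Ioo 0 T) n k` for all `n, k` (`FlowXsStmt` with `S = Ioo 0 T` and `PolSmStmt`; `exp (-(2 y))` by
`XsCompStmt`), so `SwapStmt` (`u = y 0`, `ux = y 1`, `ut = R`, `utx t p = deriv (R t) p`) gives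
`y1_t = deriv (R t) p =: ρ`. (iii) `g_p = g (y1 + y1 y2/q)`, `v_p = g v1`, so
`ρ = -(g v1 g e^{-2y} + v g_p e^{-2y} - 2 y1 v g e^{-2y}) = -q v1 - v g e^{-2y} y1 (y2/q - 1)
 = -q v1 + v g² e^{-2y} y1 kap = -q (v1 + lam kap)`.
(iv) `X_t = X R`, `= -v g e^{-y} sin p = -v √q sin p`, and `-v sin th + lam cos th =
-v (sin th + y1 cos th) = -v √q sin p` (using `sin th = (sin p - y1 cos p)/√q`,
`cos th = (cos p + y1 sin p)/√q`). `Y_t = - e^y cos p R = v √q cos p = v cos th + lam sin th`.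
(v) `th_t = -ρ/q = v1 + lam kap`. (vi) `g_t = g (R + y1 ρ/q) = g (- v g e^{-2y} - y1 (v1 + lam kap))
= -v q - g y1 v1 + y1² v (1 - y2/q)`, and `-(v g kap) + lam_p = -v (1 - y2/q) - (g v1 y1 + v y2)`;
the two are equal. -/
def FT1Stmt : Prop :=
  ∀ (T : ℝ) (y : ℕ → ℝ → ℝ → ℝ), PolarSol T y → ∀ t ∈ Ioo 0 T, ∀ p,
    HasDerivAt (fun s => (flowOf y).X s p)
      (-((flowOf y).v t p) * sin ((flowOf y).th t p)
        + (flowOf y).lam t p * cos ((flowOf y).th t p)) t ∧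
    HasDerivAt (fun s => (flowOf y).Y s p)
      ((flowOf y).v t p * cos ((flowOf y).th t p)
        + (flowOf y).lam t p * sin ((flowOf y).th t p)) t ∧
    HasDerivAt (fun s => (flowOf y).th s p)
      ((flowOf y).v1 t p + (flowOf y).lam t p * (flowOf y).kap t p) t ∧
    HasDerivAt (fun s => (flowOf y).g s p)
      (-((flowOf y).v t p * (flowOf y).g t p * (flowOf y).kap t p)
        + deriv ((flowOf y).lam t) p) t

/-- FT2: `XsAlgStmt → SwapStmt → PolSmStmt → FlowXsStmt → FlowPStmt → FqStmt → FT1Stmt →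
FT2Stmt`. The evolution of `v`.

Proof. `W = flowOf y`, `t ∈ (0,T)`. All functions below are in `XS (Ioo 0 T) n k` (`FlowXsStmt` with
`S = Ioo 0 T`), in particular continuous there together with their `p`-derivatives. (1) `SwapStmt`
with `u = th`, `ux = g kap`, `ut = v1 + lam kap`, `utx = deriv ut`: by `FlowPStmt`, `FqStmt`
`utx = g v2 + lam_p kap + lam g (v1 - fs kap)/f`, so `(g kap)_t = utx`. (2) `kap = (g kap)/g`, so
with `g_t = - v g kap + lam_p` (`FT1Stmt`):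
`kap_t = (utx - kap g_t)/g = v2 + lam (v1 - fs kap)/f + v kap²`. (3) `u_t = 2 (X X_t + Y Y_t) =
2 (v ze + lam r)`, `f_t = (2/3)(f/u) u_t = (4/3)(f/u)(v ze + lam r)`. (4) `v = f kap` (`f > 0`, for
all times in `(0,T)`), so `v_t = f kap_t + f_t kap =
f v2 + lam (v1 - fs kap) + f v kap² + (4/3)(f/u) kap (v ze + lam r)`; with `fs = (4/3) f r/u`,
`f kap = v` this is `f v2 + C0 v + lam v1`. -/
def FT2Stmt : Prop :=
  ∀ (T : ℝ) (y : ℕ → ℝ → ℝ → ℝ), PolarSol T y → ∀ t ∈ Ioo 0 T, ∀ p,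
    HasDerivAt (fun s => (flowOf y).v s p)
      ((flowOf y).f t p * (flowOf y).v2 t p + (flowOf y).C0 t p * (flowOf y).v t p
        + (flowOf y).lam t p * (flowOf y).v1 t p) t

/-- FT3: `XsAlgStmt → SwapStmt → PolSmStmt → FlowXsStmt → FlowPStmt → FqStmt → FT1Stmt →
FT2Stmt → FT3Stmt`. The evolution of `v1`.

Proof. `SwapStmt` with `u = v`, `ux = g v1`, `ut = V = f v2 + C0 v + lam v1` (`FT2Stmt`),
`utx = V_p = g fs v2 + f g v3 + g C1 v + C0 g v1 + lam_p v1 + lam g v2` (`FqStmt`, `FlowPStmt`).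
`v1 = (g v1)/g`, so `v1_t = (V_p - v1 g_t)/g` with `g_t = -v g kap + lam_p`:
`v1_t = f v3 + fs v2 + C0 v1 + C1 v + lam v2 + v kap v1`, and `v kap = v²/f`. -/
def FT3Stmt : Prop :=
  ∀ (T : ℝ) (y : ℕ → ℝ → ℝ → ℝ), PolarSol T y → ∀ t ∈ Ioo 0 T, ∀ p,
    HasDerivAt (fun s => (flowOf y).v1 s p)
      ((flowOf y).f t p * (flowOf y).v3 t p + (flowOf y).fs t p * (flowOf y).v2 t p
        + (flowOf y).C0 t p * (flowOf y).v1 t p + (flowOf y).C1 t p * (flowOf y).v t p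
        + (flowOf y).v t p ^ 2 / (flowOf y).f t p * (flowOf y).v1 t p
        + (flowOf y).lam t p * (flowOf y).v2 t p) t

/-- FB. Boundary values.

Proof. Fix `t ∈ [0,T)`. `y 0 t` is even and `2π`-periodic, so `y 0 t (2π - p) = y 0 t p`. Hence
`y 1 t (-p) = - y 1 t p`, `y 1 t (2π - p) = - y 1 t p`, `y 2 t (-p) = y 2 t p`,
`y 2 t (2π - p) = y 2 t p` (uniqueness of derivatives), so `y 1 t 0 = 0 = y 1 t π`. `X`: `sin 0 = 0 =
sin π`; `th = p - arctan 0`; `lam = -(pv * y1) = 0`. The functions `pg y t`, `pv y t` are even and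
symmetric about `π` (`uu` is even and periodic in `p`), so `deriv (pv y t) 0 = 0` and
`deriv (pv y t) π = 0` (`deriv_comp_neg`, `deriv_comp_const_sub`: `F (c - p) = F p` implies
`deriv F p = - deriv F (c - p)`; no differentiability needed), and `v1 = deriv (pv y t) p / g = 0`.
`X > 0` on `(0,π)` as `sin > 0`. `Y t 0 = 1 - e^{y(t,0)} > 0`. `Y t π = 1 + e^{y(t,π)} > 1`. -/
def FBStmt : Prop :=
  ∀ (T : ℝ) (y : ℕ → ℝ → ℝ → ℝ), PolarSol T y → (∀ t ∈ Ico 0 T, y 0 t 0 < 0) →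
    ∀ t ∈ Ico 0 T,
    (flowOf y).X t 0 = 0 ∧ (flowOf y).th t 0 = 0 ∧ (flowOf y).v1 t 0 = 0 ∧
    (flowOf y).lam t 0 = 0 ∧ (flowOf y).X t π = 0 ∧ (flowOf y).th t π = π ∧
    (flowOf y).v1 t π = 0 ∧ (flowOf y).lam t π = 0 ∧
    (∀ p ∈ Ioo 0 π, 0 < (flowOf y).X t p) ∧ 0 < (flowOf y).Y t 0 ∧ 1 < (flowOf y).Y t π

/-- FLOW. Proof: the continuity fields from `PolSmStmt` and `FlowXsStmt` with `S = Ico 0 T`,
`n = k = 0` (`contDiffOn_zero`), the other fields are literally the conclusions of the other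
statements. -/
def FlowMainStmt : Prop :=
  PolSmStmt → FlowXsStmt → FlowPStmt → FT1Stmt → FT2Stmt → FT3Stmt → FBStmt → FlowStmt

end Pool.Agent.Lib.MP_c60e08_gt.Pde
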